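import Pool.Agent.H160R2.MU.Defs

/-! Task ABS of project MU: the abstract exploration lemma (helper756). -/

set_option autoImplicit false

namespace Pool.Agent.H160R2.MU

theorem t_ABS : S_ABS := by
  intro V E lk f0 fX T D A G H X near R K De hR hK hDe hfX hT1 hT2 hHTD hDG hTD hnear hsep x hx x' hx'
  have hRT : R (A ∩ T) = Relation.EqvGen (fun u v => f0 u v ∨ fX u v ∨ ∃ e ∈ A ∩ T, lk e u v) := hR _
  have hRH : R H = Relation.EqvGen (fun u v => f0 u v ∨ fX u v ∨ ∃ e ∈ H, lk e u v) := hR _
  have rrefl : ∀ B u, R B u u := fun B u => by rw [hR]; exact Relation.EqvGen.refl u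
  have rsymm : ∀ B u v, R B u v → R B v u := fun B u v h => by
    rw [hR] at h ⊢; exact Relation.EqvGen.symm _ _ h
  have rtrans : ∀ B u v w, R B u v → R B v w → R B u w := fun B u v w h h' => by
    rw [hR] at h h' ⊢; exact Relation.EqvGen.trans _ _ _ h h'
  have rrel : ∀ B u v, (f0 u v ∨ fX u v ∨ ∃ e ∈ B, lk e u v) → R B u v := fun B u v h => by
    rw [hR]; exact Relation.EqvGen.rel _ _ h
  have KX : ∀ y ∈ X, K y := fun y hy => (hK y).2 ⟨y, hy, rrefl _ _⟩
  have Kinv : ∀ u v, R (A ∩ T) u v → K u → K v := by
    intro u v huv hu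
    obtain ⟨y, hy, hyu⟩ := (hK u).1 hu
    exact (hK v).2 ⟨y, hy, rtrans _ _ _ _ hyu huv⟩
  constructor
  · -- from `H` to `A ∩ T`
    intro hxx'
    set gLk : V → V → Prop := Relation.EqvGen (fun a b => f0 a b ∨ ∃ e ∈ G, lk e a b) with hgLk
    have grel : ∀ u v, (f0 u v ∨ ∃ e ∈ G, lk e u v) → gLk u v := fun u v h =>
      Relation.EqvGen.rel _ _ h
    have gsymm : ∀ u v, gLk u v → gLk v u := fun u v h => Relation.EqvGen.symm _ _ h
    have gtrans : ∀ u v w, gLk u v → gLk v w → gLk u w := fun u v w h h' =>
      Relation.EqvGen.trans _ _ _ h h'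
    have step : ∀ a b, ((f0 a b ∨ f0 b a) ∨ (fX a b ∨ fX b a) ∨ ∃ e ∈ H, lk e a b ∨ lk e b a) →
        (R (A ∩ T) x a ∨ (¬ K a ∧ ∃ u, R (A ∩ T) x u ∧ De u ∧ gLk u a)) →
        (R (A ∩ T) x b ∨ (¬ K b ∧ ∃ u, R (A ∩ T) x u ∧ De u ∧ gLk u b)) := by
      intro a b hab hI
      rcases hab with hab | hab | ⟨e, heH, hab⟩
      · have h1 : R (A ∩ T) a b := by
          rcases hab with h | h
          · exact rrel _ _ _ (Or.inl h)
          · exact rsymm _ _ _ (rrel _ _ _ (Or.inl h))
        have h2 : gLk a b := by
          rcases hab with h | h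
          · exact grel _ _ (Or.inl h)
          · exact gsymm _ _ (grel _ _ (Or.inl h))
        rcases hI with hI | ⟨hI1, u, hu1, hu2, hu3⟩
        · exact Or.inl (rtrans _ _ _ _ hI h1)
        · exact Or.inr ⟨fun hb => hI1 (Kinv _ _ (rsymm _ _ _ h1) hb), u, hu1, hu2,
            gtrans _ _ _ hu3 h2⟩
      · have h1 : R (A ∩ T) a b := by
          rcases hab with h | h
          · exact rrel _ _ _ (Or.inr (Or.inl h))
          · exact rsymm _ _ _ (rrel _ _ _ (Or.inr (Or.inl h)))
        have h2 : a ∈ X := by
          rcases hab with h | h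
          · exact (hfX _ _ h).1
          · exact (hfX _ _ h).2
        rcases hI with hI | ⟨hI1, u, hu1, hu2, hu3⟩
        · exact Or.inl (rtrans _ _ _ _ hI h1)
        · exact absurd (KX a h2) hI1
      · rcases hHTD heH with heT | heD
        · by_cases hKab : K a ∨ K b
          · have h3 : ∃ u v, lk e u v ∧ (K u ∨ K v) := by
              rcases hab with h | h
              · exact ⟨a, b, h, hKab⟩
              · exact ⟨b, a, h, hKab.symm⟩
            have heA : e ∈ A := (hT1 e heT h3).2.1 heH
            have h1 : R (A ∩ T) a b := by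
              rcases hab with h | h
              · exact rrel _ _ _ (Or.inr (Or.inr ⟨e, ⟨heA, heT⟩, h⟩))
              · exact rsymm _ _ _ (rrel _ _ _ (Or.inr (Or.inr ⟨e, ⟨heA, heT⟩, h⟩)))
            have hKa : K a := by
              rcases hKab with h | h
              · exact h
              · exact Kinv _ _ (rsymm _ _ _ h1) h
            rcases hI with hI | ⟨hI1, u, hu1, hu2, hu3⟩
            · exact Or.inl (rtrans _ _ _ _ hI h1)
            · exact absurd hKa hI1
          · push Not at hKab
            rcases hI with hI | ⟨hI1, u, hu1, hu2, hu3⟩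
            · exact absurd ((hK a).2 ⟨x, hx, hI⟩) hKab.1
            · have heG : e ∈ G := by
                refine hT2 e heT (fun p q hpq => ?_) heH
                by_contra hcon
                have h4 : K p ∨ K q := by
                  by_contra h5
                  push Not at h5
                  exact hcon h5
                have h6 := (hT1 e heT ⟨p, q, hpq, h4⟩).1
                rcases hab with h | h
                · rcases h6 _ _ h with h7 | h7
                  · exact hKab.1 h7
                  · exact hKab.2 h7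
                · rcases h6 _ _ h with h7 | h7
                  · exact hKab.2 h7
                  · exact hKab.1 h7
              have h2 : gLk a b := by
                rcases hab with h | h
                · exact grel _ _ (Or.inr ⟨e, heG, h⟩)
                · exact gsymm _ _ (grel _ _ (Or.inr ⟨e, heG, h⟩))
              exact Or.inr ⟨hKab.2, u, hu1, hu2, gtrans _ _ _ hu3 h2⟩
        · have heG : e ∈ G := hDG e heD heH
          have h2 : gLk a b := by
            rcases hab with h | h
            · exact grel _ _ (Or.inr ⟨e, heG, h⟩)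
            · exact gsymm _ _ (grel _ _ (Or.inr ⟨e, heG, h⟩))
          have hDa : De a := (hDe a).2 ⟨e, heD, b, hab⟩
          have hDb : De b := (hDe b).2 ⟨e, heD, a, hab.symm⟩
          -- a common continuation
          have fin : ∀ u, R (A ∩ T) x u → De u → gLk u b →
              (R (A ∩ T) x b ∨ (¬ K b ∧ ∃ u, R (A ∩ T) x u ∧ De u ∧ gLk u b)) := by
            intro u hu1 hu2 hu3
            by_cases hKb : K b
            · left
              obtain ⟨y, hy, hyb⟩ := (hK b).1 hKb
              have h8 := hnear u b ((hK u).2 ⟨x, hx, hu1⟩) hu2 hu3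
              exact rtrans _ _ _ _ (hsep x hx y hy u b hu1 hyb hu2 hDb h8) hyb
            · exact Or.inr ⟨hKb, u, hu1, hu2, hu3⟩
          rcases hI with hI | ⟨hI1, u, hu1, hu2, hu3⟩
          · exact fin a hI hDa h2
          · exact fin u hu1 hu2 (gtrans _ _ _ hu3 h2)
    have key : ∀ a b, R H a b →
        ((R (A ∩ T) x a ∨ (¬ K a ∧ ∃ u, R (A ∩ T) x u ∧ De u ∧ gLk u a)) ↔
        (R (A ∩ T) x b ∨ (¬ K b ∧ ∃ u, R (A ∩ T) x u ∧ De u ∧ gLk u b))) := by
      intro a b hab
      rw [hRH] at hab
      induction hab with
      | rel a b h =>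
        constructor
        · refine step a b ?_
          rcases h with h | h | ⟨e, he, h⟩
          · exact Or.inl (Or.inl h)
          · exact Or.inr (Or.inl (Or.inl h))
          · exact Or.inr (Or.inr ⟨e, he, Or.inl h⟩)
        · refine step b a ?_
          rcases h with h | h | ⟨e, he, h⟩
          · exact Or.inl (Or.inr h)
          · exact Or.inr (Or.inl (Or.inr h))
          · exact Or.inr (Or.inr ⟨e, he, Or.inr h⟩)
      | refl a => exact Iff.rfl
      | symm a b _ ih => exact ih.symm
      | trans a b c _ _ ih1 ih2 => exact ih1.trans ih2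
    rcases (key x x' hxx').1 (Or.inl (rrefl _ _)) with h | h
    · exact h
    · exact absurd (KX x' hx') h.1
  · -- from `A ∩ T` to `H`
    intro hxx'
    have key : ∀ a b, R (A ∩ T) a b → K a → R H a b := by
      intro a b hab
      have hab' := hab
      rw [hRT] at hab
      clear hab'
      induction hab with
      | rel a b h =>
        intro hKa
        rcases h with h | h | ⟨e, he, h⟩
        · exact rrel _ _ _ (Or.inl h)
        · exact rrel _ _ _ (Or.inr (Or.inl h))
        · have h1 := (hT1 e he.2 ⟨a, b, h, Or.inl hKa⟩).2.2 he.1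
          exact rrel _ _ _ (Or.inr (Or.inr ⟨e, h1, h⟩))
      | refl a => intro _; exact rrefl _ _
      | symm a b hab ih =>
        intro hKb
        have h1 : R (A ∩ T) a b := by rw [hRT]; exact hab
        exact rsymm _ _ _ (ih (Kinv _ _ (rsymm _ _ _ h1) hKb))
      | trans a b c hab hbc ih1 ih2 =>
        intro hKa
        have h1 : R (A ∩ T) a b := by rw [hRT]; exact hab
        exact rtrans _ _ _ _ (ih1 hKa) (ih2 (Kinv _ _ h1 hKa))
    exact key x x' hxx' (KX x hx)

end Pool.Agent.H160R2.MU
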