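import Pool.Agent.H160R2.MU.T_BADP2
import Pool.Agent.H12R2.Sep.Fail2P
import Pool.Agent.H12R2.Sep.WinHalf

/-!
Project MU, task BADP (helper8): the bad event has small probability.

In `Bad'` the direction of the half ball matches the orientation of the coarse line.
-/

set_option autoImplicit false

namespace Pool.Agent.H160R2.MU
open H974 H906.Cyl Finset
open H12S (Dir hbE segD rimE H4 Crs Nr PQ Win win_half win_arm_of win_blk
  H4_bound)
open H12S.EP2 (pr_biUnion choose_M)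

/-- bad event outside the boxes `|v - s (n, n)| < N r - 1`: an arm near a coarse vertex or three
arms along a coarse line (the direction of the half ball matches the line) -/
def Bad' (c N r ρ l ν n M : ℕ) (F : Finset Edg) : Prop :=
  (∃ ζ : ℤ × ℤ, |ζ.1 - ζ.2| ≤ 2 * ν ∧ (∀ s : ℤ, (N : ℤ) ≤ |ζ.1 - s * ν| ∨ (N : ℤ) ≤ |ζ.2 - s * ν|) ∧
    Crs (r * ζ.1) (r * ζ.2) (4 * ρ) (r / 2) (Cc c n M F)) ∨
  (∃ (d : Dir) (x0 y0 i j : ℤ), |x0 - y0| ≤ 2 * n ∧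
    (∀ s : ℤ, (N : ℤ) * r - 1 ≤ |x0 - s * n| ∨ (N : ℤ) * r - 1 ≤ |y0 - s * n|) ∧
    (((d = Dir.up ∨ d = Dir.dn) ∧ x0 = l * i ∧ (y0 = r * j ∨ y0 = r * j - 1)) ∨
      ((d = Dir.rt ∨ d = Dir.lf) ∧ y0 = l * i ∧ (x0 = r * j ∨ x0 = r * j - 1))) ∧
    H4 d x0 y0 (8 * l) ρ (Cc c n M F))

def S_BADP' : Prop := ∀ (N ν : ℕ), 1 ≤ N → 4 * N ≤ ν → ∀ δ : ℝ, 0 < δ → ∃ M3 M4 : ℕ, 64 ≤ M3 ∧
  64 * M3 ≤ M4 ∧ ∀ (c r : ℕ), c < 2 → M4 ≤ r →
  PC (ν * r) (4 * (ν * r)) (Bad' c N r (r / M3) (r / M4) ν (ν * r) (4 * (ν * r))) ≤ δ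

namespace TBADP

/-- centre of the half ball -/
def cn (l r : ℕ) (d : Dir) (j o i : ℤ) : ℤ × ℤ :=
  match d with
  | Dir.up => (l * i, r * j - o)
  | Dir.dn => (l * i, r * j - o)
  | Dir.rt => (r * j - o, l * i)
  | Dir.lf => (r * j - o, l * i)

/-- reduction of the first clause to a fundamental domain -/
theorem red1 {c ν r M ρ R : ℕ} (hc : c < 2) (hν : 0 < ν) {F : Finset Edg} {ζ : ℤ × ℤ}
    (h1 : |ζ.1 - ζ.2| ≤ 2 * ν) (h2 : Crs (r * ζ.1) (r * ζ.2) ρ R (Cc c (ν * r) M F)) :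
    ∃ ξ ∈ Ico (0 : ℤ) ν ×ˢ Icc (-(2 * ν : ℤ)) (3 * ν),
      Crs (r * ξ.1) (r * ξ.2) ρ R (Cc c (ν * r) M F) ∧ |ξ.1 - ξ.2| ≤ 2 * ν := by
  have hν' : (0 : ℤ) < ν := by exact_mod_cast hν
  have e0 := Int.emod_add_mul_ediv ζ.1 ν
  have e1 := Int.emod_nonneg ζ.1 hν'.ne'
  have e2 := Int.emod_lt_of_pos ζ.1 hν'
  set s := ζ.1 / (ν : ℤ) with hs
  have h3 := Crs_shift hc (-s) h2
  refine ⟨(ζ.1 - ν * s, ζ.2 - ν * s), ?_, ?_, ?_⟩
  · rw [abs_le] at h1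
    simp only [mem_product, mem_Ico, mem_Icc]
    refine ⟨⟨by linarith, by linarith⟩, by linarith, by linarith⟩
  · have a1 : (r : ℤ) * (ζ.1 - ν * s) = r * ζ.1 + ((ν * r : ℕ) : ℤ) * (-s) := by push_cast; ring
    have a2 : (r : ℤ) * (ζ.2 - ν * s) = r * ζ.2 + ((ν * r : ℕ) : ℤ) * (-s) := by push_cast; ring
    simp only
    rw [a1, a2]
    exact h3
  · have : ζ.1 - ν * s - (ζ.2 - ν * s) = ζ.1 - ζ.2 := by ring
    simp only
    rw [this]
    exact h1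

/-- rounding -/
theorem rnd {l : ℕ} (hl : 1 ≤ l) (x : ℤ) : |x - l * (x / l)| ≤ l := by
  have hl' : (0 : ℤ) < l := by exact_mod_cast hl
  have e0 := Int.emod_add_mul_ediv x l
  have e1 := Int.emod_nonneg x hl'.ne'
  have e2 := Int.emod_lt_of_pos x hl'
  rw [abs_le]
  constructor <;> linarith

theorem ibd {ν r l M4 : ℕ} (hl : 1 ≤ l) (hlr : l ≤ r) (hr : r ≤ 2 * M4 * l) (hν : 1 ≤ ν) {x y : ℤ}
    (hy0 : -1 ≤ y) (hy1 : y ≤ (ν * r : ℕ)) (hxy : |x - y| ≤ 2 * (ν * r : ℕ)) :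
    |x / (l : ℤ)| ≤ ((8 * ν * M4 + 2 : ℕ) : ℤ) := by
  have hl' : (0 : ℤ) < l := by exact_mod_cast hl
  have e0 := Int.emod_add_mul_ediv x l
  have e1 := Int.emod_nonneg x hl'.ne'
  have e2 := Int.emod_lt_of_pos x hl'
  have h4 : ((ν * r : ℕ) : ℤ) ≤ 2 * ν * M4 * l := by
    have : ν * r ≤ ν * (2 * M4 * l) := Nat.mul_le_mul_left _ hr
    have h5 : ν * r ≤ 2 * ν * M4 * l := by
      calc ν * r ≤ ν * (2 * M4 * l) := this
        _ = 2 * ν * M4 * l := by ring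
    exact_mod_cast h5
  rw [abs_le] at hxy
  set q := x / (l : ℤ) with hq
  set n : ℤ := ((ν * r : ℕ) : ℤ) with hn
  have hn1 : (1 : ℤ) ≤ n := by
    have : 1 ≤ ν * r := Nat.mul_pos hν (by omega)
    rw [hn]
    exact_mod_cast this
  have h6 : |(l : ℤ) * q| ≤ ((8 * ν * M4 + 2 : ℕ) : ℤ) * l := by
    push_cast
    rw [abs_le]
    constructor <;> nlinarith
  exact H12S.FP2.abs_bound hl h6

/-- reduction of the second clause -/
theorem red2 {c ν r l ρ M M4 : ℕ} (hc : c < 2) (hν : 1 ≤ ν) (hl : 1 ≤ l) (hlr : l ≤ r)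
    (hr : r ≤ 2 * M4 * l) (hρ : 32 * l ≤ ρ) {F : Finset Edg} {d : Dir} {x0 y0 i j : ℤ}
    (h1 : |x0 - y0| ≤ 2 * (ν * r : ℕ))
    (h2 : ((d = Dir.up ∨ d = Dir.dn) ∧ x0 = l * i ∧ (y0 = r * j ∨ y0 = r * j - 1)) ∨
      ((d = Dir.rt ∨ d = Dir.lf) ∧ y0 = l * i ∧ (x0 = r * j ∨ x0 = r * j - 1)))
    (h3 : H4 d x0 y0 (8 * l) ρ (Cc c (ν * r) M F)) :
    ∃ p ∈ (univ : Finset Dir) ×ˢ (Ico (0 : ℤ) ν ×ˢ (Icc (0 : ℤ) 1 ×ˢ
      Icc (-((8 * ν * M4 + 2 : ℕ) : ℤ)) ((8 * ν * M4 + 2 : ℕ) : ℤ))),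
      |(cn l r p.1 p.2.1 p.2.2.1 p.2.2.2).1 - (cn l r p.1 p.2.1 p.2.2.1 p.2.2.2).2| ≤
        2 * (ν * r : ℕ) + l ∧
      H4 p.1 (cn l r p.1 p.2.1 p.2.2.1 p.2.2.2).1 (cn l r p.1 p.2.1 p.2.2.1 p.2.2.2).2
        (9 * l) (ρ - l) (Cc c (ν * r) M F) := by
  have hν' : (0 : ℤ) < ν := by exact_mod_cast hν
  have hr' : (0 : ℤ) < r := by
    have : 0 < r := by omega
    exact_mod_cast this
  have e0 := Int.emod_add_mul_ediv j ν
  have e1 := Int.emod_nonneg j hν'.ne'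
  have e2 := Int.emod_lt_of_pos j hν'
  set s := j / (ν : ℤ) with hs
  have h4 := H4_shift hc (-s) h3
  set n : ℤ := ((ν * r : ℕ) : ℤ) with hn
  have hnn : n = ν * r := by rw [hn]; push_cast; ring
  set x1 := x0 + n * (-s) with hx1
  set y1 := y0 + n * (-s) with hy1
  have hxy : |x1 - y1| ≤ 2 * n := by
    have : x1 - y1 = x0 - y0 := by rw [hx1, hy1]; ring
    rw [this]; exact h1
  set j1 := j - ν * s with hj1
  have hj0 : 0 ≤ j1 := by rw [hj1]; linarith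
  have hj2 : j1 < ν := by rw [hj1]; linarith
  have hrj : (r : ℤ) * j1 ≤ n - r := by
    rw [hnn]
    nlinarith
  have hrj0 : 0 ≤ (r : ℤ) * j1 := by positivity
  have hr1 : (1 : ℤ) ≤ r := hr'
  rcases h2 with ⟨hd, hx, hy⟩ | ⟨hd, hy, hx⟩
  · have hyo : ∃ o : ℤ, (0 ≤ o ∧ o ≤ 1) ∧ y1 = r * j1 - o := by
      rcases hy with hy | hy
      · exact ⟨0, ⟨le_rfl, by norm_num⟩, by rw [hy1, hy, hj1, hnn]; ring⟩
      · exact ⟨1, ⟨by norm_num, le_rfl⟩, by rw [hy1, hy, hj1, hnn]; ring⟩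
    obtain ⟨o, ho, hyo⟩ := hyo
    have hb := ibd (M4 := M4) hl hlr hr hν (x := x1) (y := y1) (by rw [hyo]; linarith [ho.2])
      (by rw [hyo]; linarith [ho.1]) hxy
    have hrd := rnd hl x1
    have hclo : Clo d l x1 y1 (l * (x1 / l)) y1 := by
      rcases hd with rfl | rfl <;> exact ⟨hrd, rfl⟩
    have h5 := H4_shrink (by omega) (by omega) hclo h4
    rw [show 8 * l + l = 9 * l by ring] at h5
    refine ⟨(d, (j1, (o, x1 / l))), ?_, ?_⟩
    · rw [abs_le] at hb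
      simp only [mem_product, mem_univ, mem_Ico, mem_Icc, true_and]
      exact ⟨⟨hj0, hj2⟩, ho, hb⟩
    · have hcn : cn l r d j1 o (x1 / l) = (l * (x1 / l), y1) := by
        rcases hd with rfl | rfl <;> (rw [hyo]; rfl)
      simp only [hcn]
      refine ⟨?_, h5⟩
      rw [abs_le] at hxy hrd ⊢
      constructor <;> linarith
  · have hxo : ∃ o : ℤ, (0 ≤ o ∧ o ≤ 1) ∧ x1 = r * j1 - o := by
      rcases hx with hx | hx
      · exact ⟨0, ⟨le_rfl, by norm_num⟩, by rw [hx1, hx, hj1, hnn]; ring⟩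
      · exact ⟨1, ⟨by norm_num, le_rfl⟩, by rw [hx1, hx, hj1, hnn]; ring⟩
    obtain ⟨o, ho, hxo⟩ := hxo
    have hyx : |y1 - x1| ≤ 2 * n := by rw [abs_sub_comm]; exact hxy
    have hb := ibd (M4 := M4) hl hlr hr hν (x := y1) (y := x1) (by rw [hxo]; linarith [ho.2])
      (by rw [hxo]; linarith [ho.1]) hyx
    have hrd := rnd hl y1
    have hclo : Clo d l x1 y1 x1 (l * (y1 / l)) := by
      rcases hd with rfl | rfl <;> exact ⟨hrd, rfl⟩
    have h5 := H4_shrink (by omega) (by omega) hclo h4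
    rw [show 8 * l + l = 9 * l by ring] at h5
    refine ⟨(d, (j1, (o, y1 / l))), ?_, ?_⟩
    · rw [abs_le] at hb
      simp only [mem_product, mem_univ, mem_Ico, mem_Icc, true_and]
      exact ⟨⟨hj0, hj2⟩, ho, hb⟩
    · have hcn : cn l r d j1 o (y1 / l) = (x1, l * (y1 / l)) := by
        rcases hd with rfl | rfl <;> (rw [hxo]; rfl)
      simp only [hcn]
      refine ⟨?_, h5⟩
      rw [abs_le] at hxy hrd ⊢
      constructor <;> linarith

end TBADP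

open TBADP

theorem t_BADP' : S_BADP' := by
  intro N ν hN hν4 δ hδ
  have hν : 1 ≤ ν := by omega
  obtain ⟨κ, hκ, hwin⟩ := win_half
  obtain ⟨C1, c1, hC1, hc1, harm⟩ := win_arm_of
    (by intro q κ n h m hm hmn c1 c2 S; exact win_blk h hm hmn c1 c2 S) κ hκ
  obtain ⟨C2, c2, hC2, hc2, hH4⟩ := H4_bound κ hκ
  obtain ⟨M3, hM3, hM3'⟩ := choose_M ((ν * (5 * ν + 1)) / 16) 0 C1 16 (by positivity) le_rfl
    hC1.le (by norm_num) hc1 (half_pos hδ) 64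
  obtain ⟨M4, hM4, hM4'⟩ := choose_M (128 * ν ^ 2) (40 * ν) C2
    (36 * M3) (by positivity) (by positivity) hC2.le (by positivity) hc2 (half_pos hδ) (64 * M3)
  refine ⟨M3, M4, hM3, hM4, ?_⟩
  intro c r hc hr
  have h0 : (0 : ℝ) ≤ 1 / 2 := by norm_num
  have h1 : (1 / 2 : ℝ) ≤ 1 := by norm_num
  have ok := okq h0 h1
  have hM3p : 0 < M3 := by omega
  have hM4p : 0 < M4 := by omega
  set ρ := r / M3 with hρ
  set l := r / M4 with hl
  set n := ν * r with hn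
  set M := 4 * n with hM
  have hl1 : 1 ≤ l := (Nat.one_le_div_iff hM4p).2 hr
  have hlr : l * M4 ≤ r := Nat.div_mul_le_self r M4
  have hρr : ρ * M3 ≤ r := Nat.div_mul_le_self r M3
  have h64l : 64 * l ≤ ρ := by
    rw [hρ, Nat.le_div_iff_mul_le hM3p]
    calc 64 * l * M3 = l * (64 * M3) := by ring
      _ ≤ l * M4 := Nat.mul_le_mul_left _ hM4
      _ ≤ r := hlr
  have h64ρ : 64 * ρ ≤ r := by
    calc 64 * ρ = ρ * 64 := by ring
      _ ≤ ρ * M3 := Nat.mul_le_mul_left _ hM3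
      _ ≤ r := hρr
  have hr2l : r ≤ 2 * M4 * l := by
    have e1 := Nat.div_add_mod r M4
    have e2 := Nat.mod_lt r hM4p
    rw [← hl] at e1
    nlinarith
  have hr2ρ : r ≤ 2 * M3 * ρ := by
    have e1 := Nat.div_add_mod r M3
    have e2 := Nat.mod_lt r hM3p
    rw [← hρ] at e1
    nlinarith
  have hn4 : 4 * r ≤ n := by
    rw [hn]
    exact Nat.mul_le_mul_right _ (by omega)
  have hn0 : 0 < n := by omega
  let T1 : Finset (ℤ × ℤ) := Ico (0 : ℤ) ν ×ˢ Icc (-(2 * ν : ℤ)) (3 * ν)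
  let T2 : Finset (Dir × (ℤ × (ℤ × ℤ))) := (univ : Finset Dir) ×ˢ (Ico (0 : ℤ) ν ×ˢ
    (Icc (0 : ℤ) 1 ×ˢ Icc (-((8 * ν * M4 + 2 : ℕ) : ℤ)) ((8 * ν * M4 + 2 : ℕ) : ℤ)))
  let A : ℤ × ℤ → Finset Edg → Prop := fun ξ F =>
    Crs (r * ξ.1) (r * ξ.2) (4 * ρ) (r / 2) (Cc c n M F) ∧ |ξ.1 - ξ.2| ≤ 2 * ν
  let B : Dir × (ℤ × (ℤ × ℤ)) → Finset Edg → Prop := fun p F =>
    |(cn l r p.1 p.2.1 p.2.2.1 p.2.2.2).1 - (cn l r p.1 p.2.1 p.2.2.1 p.2.2.2).2| ≤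
        2 * (n : ℤ) + l ∧
      H4 p.1 (cn l r p.1 p.2.1 p.2.2.1 p.2.2.2).1 (cn l r p.1 p.2.1 p.2.2.1 p.2.2.2).2
        (9 * l) (ρ - l) (Cc c n M F)
  have hcover : PC n M (Bad' c N r ρ l ν n M) ≤
      PC n M (fun F => (∃ ξ ∈ T1, A ξ F) ∨ ∃ p ∈ T2, B p F) := by
    unfold PC
    refine Pr_mono ok fun F _ hF => ?_
    rcases hF with ⟨ζ, hz, _, hcr⟩ | ⟨d, x0, y0, i, j, hxy, _, hor, hH⟩
    · left
      exact red1 hc (by omega) hz hcr
    · right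
      exact red2 hc hν hl1 (by omega) hr2l (by omega) (by exact_mod_cast hxy) hor hH
  have hfalse : ∀ X : Finset Edg → Prop, (∀ F, ¬ X F) → PC n M X = 0 := by
    intro X hX
    have k1 := Pr_true (p := fun _ : Edg => (1 / 2 : ℝ)) (CE n M) (A := fun _ => True)
      (fun _ _ => trivial)
    have k2 := Pr_not (p := fun _ : Edg => (1 / 2 : ℝ)) (CE n M) (fun _ => True)
    simp only [not_true_eq_false] at k2
    have k3 : PC n M X = Pr (fun _ => (1 / 2 : ℝ)) (CE n M) (fun _ => False) :=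
      Pr_congr fun F _ => ⟨fun h => hX F h, fun h => h.elim⟩
    rw [k3, k2, k1, sub_self]
  have hA : ∀ ξ ∈ T1, PC n M (A ξ) ≤ C1 * (16 / (M3:ℝ)) ^ c1 := by
    intro ξ _
    by_cases hx : |ξ.1 - ξ.2| ≤ 2 * (ν : ℤ)
    · have hdc : ∀ e ∈ RE ((r : ℤ) * ξ.1 - (r / 2 : ℕ)) (r * ξ.1 + (r / 2 : ℕ))
          (r * ξ.2 - (r / 2 : ℕ)) (r * ξ.2 + (r / 2 : ℕ)), -(M : ℤ) ≤ dco e ∧ dco e < M := by
        apply TBADP.RE_dco
        have e1 : (r : ℤ) * ξ.1 - r * ξ.2 = r * (ξ.1 - ξ.2) := by ring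
        rw [e1, abs_mul, Nat.abs_cast]
        have e2 : (r : ℤ) * |ξ.1 - ξ.2| ≤ r * (2 * ν) :=
          mul_le_mul_of_nonneg_left hx (by positivity)
        have e3 : (n : ℤ) = ν * r := by rw [hn]; push_cast; ring
        have e4 : (M : ℤ) = 4 * n := by rw [hM]; push_cast; ring
        have e5 : (r : ℤ) * (2 * ν) = 2 * n := by rw [e3]; ring
        have e6 : (4 : ℤ) * r ≤ n := by exact_mod_cast hn4
        have e7 : (64 : ℤ) ≤ r := by
          have : 64 ≤ r := by omega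
          exact_mod_cast this
        have e8 : 2 * (((r / 2 : ℕ) : ℤ)) ≤ r := by omega
        linarith
      have hinj : Set.InjOn (red n) (RE ((r : ℤ) * ξ.1 - (r / 2 : ℕ)) (r * ξ.1 + (r / 2 : ℕ))
          (r * ξ.2 - (r / 2 : ℕ)) (r * ξ.2 + (r / 2 : ℕ)) : Set Edg) := by
        apply red_inj_x
        omega
      have ht := transport hc hn0 hdc hinj (fun G => Crs (r * ξ.1) (r * ξ.2) (4 * ρ) (r / 2) G)
      have h5 : PC n M (A ξ) ≤ PC n M (fun F => Crs (r * ξ.1) (r * ξ.2) (4 * ρ) (r / 2)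
          (Cc c n M F ∩ ↑(RE ((r : ℤ) * ξ.1 - (r / 2 : ℕ)) (r * ξ.1 + (r / 2 : ℕ))
          (r * ξ.2 - (r / 2 : ℕ)) (r * ξ.2 + (r / 2 : ℕ))))) := by
        unfold PC
        exact Pr_mono ok fun F _ hF => Crs_loc (by omega) hF.1
      refine h5.trans ?_
      rw [ht]
      refine ((harm (1 / 2) (r / 2) (hwin _) (4 * ρ) (r / 2) (by omega) (by omega) le_rfl _ _
        _).1).trans ?_
      refine mul_le_mul_of_nonneg_left (Real.rpow_le_rpow (by positivity) ?_ hc1.le) hC1.le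
      have h3 : 0 < r / 2 := by omega
      rw [div_le_div_iff₀ (by exact_mod_cast h3) (by exact_mod_cast hM3p)]
      have h4 : 4 * ρ * M3 ≤ 16 * (r / 2) := by
        have : 4 * ρ * M3 = 4 * (ρ * M3) := by ring
        omega
      exact_mod_cast h4
    · rw [hfalse _ fun F hF => hx hF.2]
      positivity
  have hB : ∀ p ∈ T2, PC n M (B p) ≤ C2 * (36 * (M3:ℝ) / M4) ^ (1 + c2) := by
    rintro ⟨d, j, o, i⟩ _
    by_cases hx : |(cn l r d j o i).1 - (cn l r d j o i).2| ≤ 2 * (n : ℤ) + l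
    · set x0 := (cn l r d j o i).1 with hx0
      set y0 := (cn l r d j o i).2 with hy0
      have e4 : (M : ℤ) = 4 * n := by rw [hM]; push_cast; ring
      have e6 : (4 : ℤ) * r ≤ n := by exact_mod_cast hn4
      have hdc : ∀ e ∈ hbE d x0 y0 (ρ - l), -(M : ℤ) ≤ dco e ∧ dco e < M := by
        intro e he
        refine TBADP.RE_dco (a := x0) (b := y0) (R := ρ - l) ?_ e (hbE_RE d x0 y0 (ρ - l) he)
        omega
      have hinj : Set.InjOn (red n) (hbE d x0 y0 (ρ - l) : Set Edg) := by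
        refine (red_inj_x (n := n) (a := x0 - (ρ - l : ℕ)) (b := x0 + (ρ - l : ℕ))
          (c := y0 - (ρ - l : ℕ)) (d := y0 + (ρ - l : ℕ)) ?_).mono ?_
        · omega
        · exact_mod_cast hbE_RE d x0 y0 (ρ - l)
      have ht := transport hc hn0 hdc hinj (fun G => H4 d x0 y0 (9 * l) (ρ - l) G)
      have h5 : PC n M (B (d, j, o, i)) ≤ PC n M (fun F => H4 d x0 y0 (9 * l) (ρ - l)
          (Cc c n M F ∩ ↑(hbE d x0 y0 (ρ - l)))) := by
        unfold PC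
        exact Pr_mono ok fun F _ hF => H4_loc.1 hF.2
      refine h5.trans ?_
      rw [ht]
      refine (hH4 (1 / 2) (ρ - l) (hwin _) (9 * l) (ρ - l) (by omega) (by omega) le_rfl d
        x0 y0 _ (Finset.Subset.refl _)).trans ?_
      refine mul_le_mul_of_nonneg_left (Real.rpow_le_rpow (by positivity) ?_ (by linarith)) hC2.le
      have h3 : 0 < ρ - l := by omega
      rw [div_le_div_iff₀ (by exact_mod_cast h3) (by exact_mod_cast hM4p)]
      have h4 : 9 * l * M4 ≤ 36 * M3 * (ρ - l) := by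
        have h6 : ρ ≤ 2 * (ρ - l) := by omega
        calc 9 * l * M4 = 9 * (l * M4) := by ring
          _ ≤ 9 * r := by omega
          _ ≤ 9 * (2 * M3 * ρ) := by omega
          _ ≤ 9 * (2 * M3 * (2 * (ρ - l))) :=
            Nat.mul_le_mul_left _ (Nat.mul_le_mul_left _ h6)
          _ = 36 * M3 * (ρ - l) := by ring
      exact_mod_cast h4
    · rw [hfalse _ fun F hF => hx hF.1]
      positivity
  have hT1 : (T1.card : ℝ) = ν * (5 * ν + 1) := by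
    have e1 : (Ico (0 : ℤ) ν).card = ν := by rw [Int.card_Ico]; omega
    have e2 : (Icc (-(2 * ν : ℤ)) (3 * ν)).card = 5 * ν + 1 := by
      rw [Int.card_Icc]
      omega
    have e3 : T1.card = ν * (5 * ν + 1) := by
      simp only [T1, card_product, e1, e2]
    rw [e3]
    push_cast
    ring
  have hT2 : (T2.card : ℝ) = 4 * (ν * (2 * (16 * ν * M4 + 5))) := by
    have e1 : (Ico (0 : ℤ) ν).card = ν := by rw [Int.card_Ico]; omega
    have e2 : (Icc (-((8 * ν * M4 + 2 : ℕ):ℤ)) ((8 * ν * M4 + 2 : ℕ):ℤ)).card =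
        2 * (8 * ν * M4 + 2) + 1 := by
      rw [Int.card_Icc]
      omega
    have e3 : (univ : Finset Dir).card = 4 := rfl
    have e5 : (Icc (0 : ℤ) 1).card = 2 := by rw [Int.card_Icc]; rfl
    have e4 : T2.card = 4 * (ν * (2 * (2 * (8 * ν * M4 + 2) + 1))) := by
      simp only [T2, card_product, e1, e2, e3, e5]
    rw [e4]
    push_cast
    ring
  have s1 : PC n M (fun F => ∃ ξ ∈ T1, A ξ F) ≤ δ / 2 := by
    refine (pr_biUnion h0 h1 (CE n M) T1 A).trans ((Finset.sum_le_sum hA).trans ?_)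
    rw [Finset.sum_const, nsmul_eq_mul, hT1]
    refine le_trans (le_of_eq ?_) hM3'
    have hM3r : (0:ℝ) < M3 := by exact_mod_cast hM3p
    rw [Real.rpow_add (by positivity), Real.rpow_one]
    field_simp
    ring
  have s2 : PC n M (fun F => ∃ p ∈ T2, B p F) ≤ δ / 2 := by
    refine (pr_biUnion h0 h1 (CE n M) T2 B).trans ((Finset.sum_le_sum hB).trans ?_)
    rw [Finset.sum_const, nsmul_eq_mul, hT2]
    refine le_trans (le_of_eq ?_) hM4'
    ring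
  have s3 := Pr_or_le ok (CE n M) (fun F => ∃ ξ ∈ T1, A ξ F) (fun F => ∃ p ∈ T2, B p F)
  unfold PC at *
  linarith

end Pool.Agent.H160R2.MU
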