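import Pool.Agent.H160R2.MU.Defs
import Pool.Agent.H160R2.ML.T_C2

/-!
# DEC: the leg event implies the slit event in a smaller box
-/

set_option autoImplicit false

namespace Pool.Agent.H160R2.MU
open Pool.Agent.H863R2.Cyl
open Pool.Agent.H988R2.Perc (Word PD)
open Pool.Agent.H160R2.ML
open H974 H906.Cyl
open Pool.Agent.H160R2.ML.TC2 (toRTG nm_le_iff le_nm_iff bot_nm Rw_even)

namespace TDEC

/-- the point of the half `β` over the vertex `v` -/
def P (M : ℕ) (v : Vtx) (β : Bool) : Pt :=
  if β then ((v.1 + v.2, (M - (v.1 - v.2)).toNat), true)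
  else ((v.1 + v.2, (v.1 - v.2 + M).toNat), false)

theorem P2 (M : ℕ) (v : Vtx) (β : Bool) : (P M v β).2 = β := by
  unfold P
  cases β <;> simp

theorem P_lvl (M : ℕ) (v : Vtx) (β : Bool) (h : if β then 0 ≤ v.1 - v.2 else v.1 - v.2 ≤ 0) :
    (P M v β).1.2 ≤ M := by
  unfold P
  cases β
  · simp only [Bool.false_eq_true, if_false] at h ⊢
    omega
  · simp only [if_true] at h ⊢
    omega

theorem P_prm (M : ℕ) (v : Vtx) (β : Bool) (h1 : v.1 - v.2 ≤ M) (h2 : -(M : ℤ) ≤ v.1 - v.2) :
    Prm M (P M v β) := by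
  unfold P Prm
  cases β
  · simp only [Bool.false_eq_true, if_false]
    omega
  · simp only [if_true]
    omega

theorem vx_P (M : ℕ) (v : Vtx) (β : Bool) (h1 : v.1 - v.2 ≤ M) (h2 : -(M : ℤ) ≤ v.1 - v.2) :
    vx M (P M v β) = v := by
  obtain ⟨a, b⟩ := v
  unfold P vx pv
  simp only at h1 h2
  cases β
  · simp only [Bool.false_eq_true, if_false]
    rw [Prod.mk.injEq]
    omega
  · simp only [if_true]
    rw [Prod.mk.injEq]
    omega

/-- the edges and their diagonals -/
theorem dg_of {n M : ℕ} (e : Edg) (h1 : -(M : ℤ) ≤ dco e) (h2 : dco e < M) :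
    Dg n M 0 (red n e) (P M (src e) (decide (0 ≤ dco e))) (P M (tgt e) (decide (0 ≤ dco e))) ∨
    Dg n M 0 (red n e) (P M (tgt e) (decide (0 ≤ dco e))) (P M (src e) (decide (0 ≤ dco e))) := by
  obtain ⟨x, y, b⟩ := e
  have hr : (red n (x, y, b)).1 + (red n (x, y, b)).2.1 + (x + y) / (2 * n) * (2 * n : ℕ) =
      x + y := by
    unfold red
    push_cast
    ring
  have hp : ((red n (x, y, b)).1 + (red n (x, y, b)).2.1 + dco (red n (x, y, b))) % 2 =
      (x + y + dco (x, y, b)) % 2 := by
    have h : (red n (x, y, b)).1 + (red n (x, y, b)).2.1 + dco (red n (x, y, b)) =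
        (x + y + dco (x, y, b)) + 2 * (-((x + y) / (2 * n)) * n) := by
      rw [dco_red]
      unfold red
      push_cast
      ring
    rw [h, Int.add_mul_emod_self_left]
  have hd := dco_red n (x, y, b)
  cases b
  · have hdc : dco (x, y, false) = x - y - 1 := by unfold dco; simp
    have hp1 : ((red n (x, y, false)).1 + (red n (x, y, false)).2.1 +
        dco (red n (x, y, false))) % 2 ≠ (0 : ℕ) := by
      rw [hp, hdc]
      push_cast
      omega
    by_cases hs : 0 ≤ dco (x, y, false)
    · right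
      have h := Dg.ufall (n := n) (M := M) (c := 0) (e := red n (x, y, false))
        ((x + y) / (2 * n)) (M - 1 - dco (x, y, false)).toNat (by rw [hd]; omega)
        (by rw [hd]; exact hs) hp1
      rw [hr] at h
      have e1 : P M (x, y + 1) true =
          ((x + y + 1, (M - 1 - dco (x, y, false)).toNat + 1), true) := by
        unfold P
        simp only [if_true, Prod.mk.injEq, and_true, true_and]
        rw [hdc] at h1 h2 ⊢
        omega
      have e2 : P M (x, y) true = ((x + y, (M - 1 - dco (x, y, false)).toNat), true) := by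
        unfold P
        simp only [if_true, Prod.mk.injEq, and_true, true_and]
        rw [hdc] at h1 h2 ⊢
        omega
      rw [decide_eq_true hs, src_mk, tgt_false, e1, e2]
      exact h
    · right
      have h := Dg.lfall (n := n) (M := M) (c := 0) (e := red n (x, y, false))
        ((x + y) / (2 * n)) (dco (x, y, false) + M).toNat (by rw [hd]; omega)
        (by rw [hd]; omega) hp1
      rw [hr] at h
      have e1 : P M (x, y + 1) false = ((x + y + 1, (dco (x, y, false) + M).toNat), false) := by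
        unfold P
        simp only [Bool.false_eq_true, if_false, Prod.mk.injEq, and_true, true_and]
        rw [hdc] at h1 h2 ⊢
        omega
      have e2 : P M (x, y) false = ((x + y, (dco (x, y, false) + M).toNat + 1), false) := by
        unfold P
        simp only [Bool.false_eq_true, if_false, Prod.mk.injEq, and_true, true_and]
        rw [hdc] at h1 h2 ⊢
        omega
      rw [decide_eq_false hs, src_mk, tgt_false, e1, e2]
      exact h
  · have hdc : dco (x, y, true) = x - y := by unfold dco; simp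
    have hp1 : ((red n (x, y, true)).1 + (red n (x, y, true)).2.1 +
        dco (red n (x, y, true))) % 2 = (0 : ℕ) := by
      rw [hp, hdc]
      push_cast
      omega
    by_cases hs : 0 ≤ dco (x, y, true)
    · left
      have h := Dg.urise (n := n) (M := M) (c := 0) (e := red n (x, y, true))
        ((x + y) / (2 * n)) (M - 1 - dco (x, y, true)).toNat (by rw [hd]; omega)
        (by rw [hd]; exact hs) hp1
      rw [hr] at h
      have e1 : P M (x, y) true = ((x + y, (M - 1 - dco (x, y, true)).toNat + 1), true) := by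
        unfold P
        simp only [if_true, Prod.mk.injEq, and_true, true_and]
        rw [hdc] at h1 h2 ⊢
        omega
      have e2 : P M (x + 1, y) true = ((x + y + 1, (M - 1 - dco (x, y, true)).toNat), true) := by
        unfold P
        simp only [if_true, Prod.mk.injEq, and_true, true_and]
        rw [hdc] at h1 h2 ⊢
        omega
      rw [decide_eq_true hs, src_mk, tgt_true, e1, e2]
      exact h
    · left
      have h := Dg.lrise (n := n) (M := M) (c := 0) (e := red n (x, y, true))
        ((x + y) / (2 * n)) (dco (x, y, true) + M).toNat (by rw [hd]; omega)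
        (by rw [hd]; omega) hp1
      rw [hr] at h
      have e1 : P M (x, y) false = ((x + y, (dco (x, y, true) + M).toNat), false) := by
        unfold P
        simp only [Bool.false_eq_true, if_false, Prod.mk.injEq, and_true, true_and]
        rw [hdc] at h1 h2 ⊢
      have e2 : P M (x + 1, y) false =
          ((x + y + 1, (dco (x, y, true) + M).toNat + 1), false) := by
        unfold P
        simp only [Bool.false_eq_true, if_false, Prod.mk.injEq, and_true, true_and]
        rw [hdc] at h1 h2 ⊢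
        omega
      rw [decide_eq_false hs, src_mk, tgt_true, e1, e2]
      exact h

theorem of_dg {n M : ℕ} (hn : 0 < n) {e : Edg} (he : e ∈ CE n M) {z z' : Pt}
    (h : Dg n M 0 e z z') : ∃ e' : Edg, red n e' = e ∧
      ((z = P M (src e') (decide (0 ≤ dco e')) ∧ z' = P M (tgt e') (decide (0 ≤ dco e'))) ∨
      (z = P M (tgt e') (decide (0 ≤ dco e')) ∧ z' = P M (src e') (decide (0 ≤ dco e')))) := by
  obtain ⟨x, y, b⟩ := e
  rw [mem_CE] at he
  obtain ⟨⟨h1, h2⟩, h3, h4⟩ := he
  simp only at h1 h2
  have hred : ∀ q : ℤ, red n (x + n * q, y + n * q, b) = (x, y, b) := by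
    intro q
    rw [red_shift hn (x, y, b) q]
    unfold red
    simp only
    rw [Int.ediv_eq_zero_of_lt h1 h2]
    simp
  have hdq : ∀ q : ℤ, dco (x + n * q, y + n * q, b) = dco (x, y, b) := by
    intro q
    unfold dco
    cases b
    · simp only [Bool.false_eq_true, if_false]
      ring
    · simp only [if_true]
      ring
  cases h with
  | lrise q t ht hd hc =>
    refine ⟨(x + n * q, y + n * q, b), hred q, ?_⟩
    rw [hdq q]
    have hs : ¬ 0 ≤ dco (x, y, b) := by omega
    cases b
    · exfalso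
      unfold dco at hc
      simp only [Bool.false_eq_true, if_false] at hc
      push_cast at hc
      omega
    · left
      have hdc : dco (x, y, true) = x - y := by unfold dco; simp
      rw [hdc] at hs ht h3 h4
      unfold P
      simp only [hdc, hs, decide_false, Bool.false_eq_true, if_false, src_mk, tgt_true,
        Prod.mk.injEq, and_true]
      push_cast
      refine ⟨⟨by ring, ?_⟩, by ring, ?_⟩
      · rw [show x + n * q - (y + n * q) = x - y by ring]
        omega
      · rw [show x + n * q + 1 - (y + n * q) = x - y + 1 by ring]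
        omega
  | lfall q t ht hd hc =>
    refine ⟨(x + n * q, y + n * q, b), hred q, ?_⟩
    rw [hdq q]
    have hs : ¬ 0 ≤ dco (x, y, b) := by omega
    cases b
    · right
      have hdc : dco (x, y, false) = x - y - 1 := by unfold dco; simp
      rw [hdc] at hs ht h3 h4
      unfold P
      simp only [hdc, hs, decide_false, Bool.false_eq_true, if_false, src_mk, tgt_false,
        Prod.mk.injEq, and_true]
      push_cast
      refine ⟨⟨by ring, ?_⟩, by ring, ?_⟩
      · rw [show x + n * q - (y + n * q + 1) = x - y - 1 by ring]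
        omega
      · rw [show x + n * q - (y + n * q) = x - y by ring]
        omega
    · exfalso
      unfold dco at hc
      simp only [if_true] at hc
      push_cast at hc
      omega
  | urise q t ht hd hc =>
    refine ⟨(x + n * q, y + n * q, b), hred q, ?_⟩
    rw [hdq q]
    cases b
    · exfalso
      unfold dco at hc
      simp only [Bool.false_eq_true, if_false] at hc
      push_cast at hc
      omega
    · left
      have hdc : dco (x, y, true) = x - y := by unfold dco; simp
      rw [hdc] at hd ht h3 h4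
      unfold P
      simp only [hdc, hd, decide_true, if_true, src_mk, tgt_true,
        Prod.mk.injEq, and_true]
      push_cast
      refine ⟨⟨by ring, ?_⟩, by ring, ?_⟩
      · rw [show x + n * q - (y + n * q) = x - y by ring]
        omega
      · rw [show x + n * q + 1 - (y + n * q) = x - y + 1 by ring]
        omega
  | ufall q t ht hd hc =>
    refine ⟨(x + n * q, y + n * q, b), hred q, ?_⟩
    rw [hdq q]
    cases b
    · right
      have hdc : dco (x, y, false) = x - y - 1 := by unfold dco; simp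
      rw [hdc] at hd ht h3 h4
      unfold P
      simp only [hdc, hd, decide_true, if_true, src_mk, tgt_false,
        Prod.mk.injEq, and_true]
      push_cast
      refine ⟨⟨by ring, ?_⟩, by ring, ?_⟩
      · rw [show x + n * q - (y + n * q + 1) = x - y - 1 by ring]
        omega
      · rw [show x + n * q - (y + n * q) = x - y by ring]
        omega
    · exfalso
      unfold dco at hc
      simp only [if_true] at hc
      push_cast at hc
      omega

theorem box_iff {R : ℕ} (e : Edg) : e ∈ boxE R ↔ nm (src e) ≤ R ∧ nm (tgt e) ≤ R := by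
  rw [nm_le_iff, nm_le_iff]
  obtain ⟨x, y, _ | _⟩ := e
  · unfold boxE
    rw [mem_RE_false]
    simp only [src_mk, tgt_false]
    omega
  · unfold boxE
    rw [mem_RE_true]
    simp only [src_mk, tgt_true]
    omega

theorem dco_box {R : ℕ} (e : Edg) (h : e ∈ boxE R) : -(2 * R : ℤ) ≤ dco e ∧ dco e < 2 * R := by
  obtain ⟨x, y, _ | _⟩ := e
  · unfold boxE at h
    rw [mem_RE_false] at h
    unfold dco
    simp only [Bool.false_eq_true, if_false]
    omega
  · unfold boxE at h
    rw [mem_RE_true] at h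
    unfold dco
    simp only [if_true]
    omega

/-- the side of the ends of an edge -/
theorem side_src (e : Edg) : if 0 ≤ dco e then 0 ≤ (src e).1 - (src e).2
    else (src e).1 - (src e).2 ≤ 0 := by
  obtain ⟨x, y, _ | _⟩ := e
  · unfold dco
    simp only [Bool.false_eq_true, if_false, src_mk]
    split_ifs <;> omega
  · unfold dco
    simp only [if_true, src_mk]
    split_ifs <;> omega

theorem side_tgt (e : Edg) : if 0 ≤ dco e then 0 ≤ (tgt e).1 - (tgt e).2
    else (tgt e).1 - (tgt e).2 ≤ 0 := by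
  obtain ⟨x, y, _ | _⟩ := e
  · unfold dco
    simp only [Bool.false_eq_true, if_false, tgt_false]
    split_ifs <;> omega
  · unfold dco
    simp only [if_true, tgt_true]
    split_ifs <;> omega

/-- the point of a state -/
def Q (M : ℕ) (x : Vtx × Bool) : Pt :=
  P M x.1 (if x.1.1 = x.1.2 then x.2 else decide (x.1.2 < x.1.1))

theorem Q_eq {M : ℕ} (v : Vtx) (d : ℤ) (h : if 0 ≤ d then 0 ≤ v.1 - v.2 else v.1 - v.2 ≤ 0) :
    Q M (v, decide (0 ≤ d)) = P M v (decide (0 ≤ d)) := by
  unfold Q
  simp only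
  split_ifs with h1
  · rfl
  · congr 1
    by_cases hd : 0 ≤ d
    · rw [if_pos hd] at h
      simp only [hd, decide_true, decide_eq_true_eq]
      omega
    · rw [if_neg hd] at h
      simp only [hd, decide_false, decide_eq_false_iff_not]
      omega

theorem map_CL {n M k R : ℕ} (hk : 2 ≤ k) (hkR : k ≤ R) (hR : 4 * R ≤ n) (hM : 2 * R ≤ M)
    {B F : Finset Edg} (hBF : ∀ e ∈ boxE R, red n e ∈ B ↔ red n e ∈ F) (τ σ : Word)
    {x y : Vtx × Bool} (h : CL k R (per n F) x y) :
    RB 0 n M k (↑B) τ σ (Q M x) (Q M y) := by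
  cases h with
  | edge e he h1 h2 =>
    have hb : e ∈ boxE R := (box_iff e).2 ⟨h1, h2⟩
    have hB : red n e ∈ B := (hBF e hb).2 he
    obtain ⟨h3, h4⟩ := dco_box e hb
    rw [Q_eq _ _ (side_src e), Q_eq _ _ (side_tgt e)]
    rcases dg_of (n := n) (M := M) e (by omega) (by omega) with h | h
    · have h' : Wl τ σ (P M (src e) (decide (0 ≤ dco e))) (P M (tgt e) (decide (0 ≤ dco e))) ∨
          Gl n M k (P M (src e) (decide (0 ≤ dco e))) (P M (tgt e) (decide (0 ≤ dco e))) ∨
          ∃ e' ∈ (↑B : Set Edg), Dg n M 0 e' (P M (src e) (decide (0 ≤ dco e)))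
            (P M (tgt e) (decide (0 ≤ dco e))) := Or.inr (Or.inr ⟨_, hB, h⟩)
      exact Relation.EqvGen.rel _ _ h'
    · have h' : Wl τ σ (P M (tgt e) (decide (0 ≤ dco e))) (P M (src e) (decide (0 ≤ dco e))) ∨
          Gl n M k (P M (tgt e) (decide (0 ≤ dco e))) (P M (src e) (decide (0 ≤ dco e))) ∨
          ∃ e' ∈ (↑B : Set Edg), Dg n M 0 e' (P M (tgt e) (decide (0 ≤ dco e)))
            (P M (src e) (decide (0 ≤ dco e))) := Or.inr (Or.inr ⟨_, hB, h⟩)
      exact Relation.EqvGen.symm _ _ (Relation.EqvGen.rel _ _ h')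
  | idn v hv hd =>
    obtain ⟨a, b⟩ := v
    by_cases hab : a = b
    · subst hab
      unfold Q P
      simp only [if_true, Bool.false_eq_true, if_false]
      rw [nm_le_iff] at hv
      simp only at hv hd
      apply Relation.EqvGen.rel
      right
      left
      have e1 : (M - (a - a) : ℤ).toNat = M := by omega
      have e2 : (a - a + M : ℤ).toNat = M := by omega
      rw [e1, e2]
      by_cases ha : (k : ℤ) ≤ 2 * a
      · have h := Gl.glue (n := n) (M := M) (k := k) 0 (2 * a - k).toNat (by omega)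
        have e3 : (0 : ℤ) * (2 * n : ℕ) + k + (2 * a - k).toNat = a + a := by
          rw [zero_mul]
          omega
        rw [e3] at h
        exact h
      · have ha' : 2 * a ≤ 0 := by
          by_contra hc
          exact hd ⟨trivial, by omega, by omega⟩
        have h := Gl.glue (n := n) (M := M) (k := k) (-1) (2 * a + 2 * n - k).toNat (by omega)
        have e3 : (-1 : ℤ) * (2 * n : ℕ) + k + (2 * a + 2 * n - k).toNat = a + a := by
          push_cast
          omega
        rw [e3] at h
        exact h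
    · have : Q M ((a, b), false) = Q M ((a, b), true) := by
        unfold Q
        simp only [hab, if_false]
      rw [this]
      exact Relation.EqvGen.refl _

theorem map_Cb {n M k R : ℕ} (hk : 2 ≤ k) (hkR : k ≤ R) (hR : 4 * R ≤ n) (hM : 2 * R ≤ M)
    {B F : Finset Edg} (hBF : ∀ e ∈ boxE R, red n e ∈ B ↔ red n e ∈ F) (τ σ : Word)
    {x y : Vtx × Bool} (h : Cb k R (per n F) x y) :
    RB 0 n M k (↑B) τ σ (Q M x) (Q M y) := by
  induction h with
  | rel x y h => exact map_CL hk hkR hR hM hBF τ σ h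
  | refl x => exact Relation.EqvGen.refl _
  | symm x y _ ih => exact ih.symm
  | trans x y z _ _ ih1 ih2 => exact ih1.trans _ _ _ ih2

theorem Q_sv {n M k i : ℕ} (hi : i < 2 * k) (h2 : i % 2 = 0) :
    Q M (sv k i) = sec n M k 0 i := by
  unfold Q sv sec P
  split_ifs with h3
  all_goals simp_all
  all_goals omega

theorem vx_sec {n M k : ℕ} (s : ℤ) (i : ℕ) : ∃ j : ℤ,
    vx M (sec n M k s i) = (j / 2, j / 2) ∧
    (i ≤ 2 * k → s * (2 * n : ℕ) ≤ j ∧ j ≤ s * (2 * n : ℕ) + k) := by
  have hMM : 2 * M - M = M := by omega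
  by_cases h : i ≤ k
  · refine ⟨s * (2 * n : ℕ) + i, ?_, ?_⟩
    · unfold vx sec pv
      simp [h]
    · intro _
      omega
  · refine ⟨s * (2 * n : ℕ) + (2 * k - i), ?_, ?_⟩
    · unfold vx sec pv
      simp [h, hMM]
    · intro _
      omega

theorem sv_eq {n M k i : ℕ} (hi : i < 2 * k) (h2 : i % 2 = 0) :
    sv k i = (vx M (sec n M k 0 i), (sec n M k 0 i).2) := by
  have hMM : 2 * M - M = M := by omega
  unfold sv sec vx pv
  split_ifs with h <;> simp_all <;> omega

theorem Dg_step {n M k R : ℕ} (hk : 2 ≤ k) (hkR : k ≤ R) (hR : 4 * R ≤ n)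
    {B F : Finset Edg} (hB : B ⊆ CE n M)
    (hBF : ∀ e ∈ boxE R, red n e ∈ B ↔ red n e ∈ F) {e : Edg} (he : e ∈ B) {z z' : Pt}
    (h : Dg n M 0 e z z') (hz : nm (vx M z) < R ∨ nm (vx M z') < R) :
    (z.1.2 ≤ M ∧ Prm M z ∧ nm (vx M z) ≤ R) ∧ (z'.1.2 ≤ M ∧ Prm M z' ∧ nm (vx M z') ≤ R) ∧
      Cb k R (per n F) (vx M z, z.2) (vx M z', z'.2) := by
  have hn : 0 < n := by omega
  have hC := hB he
  obtain ⟨e', hr, hz'⟩ := of_dg hn hC h
  have hd : -(M : ℤ) ≤ dco e' ∧ dco e' < M := by
    rw [← dco_red n e', hr]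
    exact (mem_CE.1 hC).2
  obtain ⟨hd1, hd2⟩ := hd
  have hs1 : (src e').1 - (src e').2 ≤ M ∧ -(M : ℤ) ≤ (src e').1 - (src e').2 := by
    obtain ⟨x, y, _ | _⟩ := e'
    · unfold dco at hd1 hd2
      simp only [Bool.false_eq_true, if_false, src_mk] at hd1 hd2 ⊢
      omega
    · unfold dco at hd1 hd2
      simp only [if_true, src_mk] at hd1 hd2 ⊢
      omega
  have hs2 : (tgt e').1 - (tgt e').2 ≤ M ∧ -(M : ℤ) ≤ (tgt e').1 - (tgt e').2 := by
    obtain ⟨x, y, _ | _⟩ := e'
    · unfold dco at hd1 hd2
      simp only [Bool.false_eq_true, if_false, tgt_false] at hd1 hd2 ⊢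
      omega
    · unfold dco at hd1 hd2
      simp only [if_true, tgt_true] at hd1 hd2 ⊢
      omega
  have hadj : nm (src e') ≤ nm (tgt e') + 1 ∧ nm (tgt e') ≤ nm (src e') + 1 := by
    have h1 : Adj (Set.univ : Set Edg) (src e') (tgt e') := ⟨e', trivial, Or.inl ⟨rfl, rfl⟩⟩
    exact ⟨TC2.adj_nm h1.symm, TC2.adj_nm h1⟩
  have hlv1 := P_lvl M (src e') (decide (0 ≤ dco e')) (by simpa using side_src e')
  have hlv2 := P_lvl M (tgt e') (decide (0 ≤ dco e')) (by simpa using side_tgt e')
  have hpr1 := P_prm M (src e') (decide (0 ≤ dco e')) hs1.1 hs1.2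
  have hpr2 := P_prm M (tgt e') (decide (0 ≤ dco e')) hs2.1 hs2.2
  have hvx1 := vx_P M (src e') (decide (0 ≤ dco e')) hs1.1 hs1.2
  have hvx2 := vx_P M (tgt e') (decide (0 ≤ dco e')) hs2.1 hs2.2
  have hfin : nm (src e') ≤ R → nm (tgt e') ≤ R →
      CL k R (per n F) (src e', decide (0 ≤ dco e')) (tgt e', decide (0 ≤ dco e')) := by
    intro h1 h2
    refine CL.edge e' ?_ h1 h2
    show red n e' ∈ F
    rw [← hBF e' ((box_iff e').2 ⟨h1, h2⟩), hr]
    exact he
  rcases hz' with ⟨h1, h2⟩ | ⟨h1, h2⟩
  · subst h1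
    subst h2
    rw [hvx1, hvx2] at hz
    rw [hvx1, hvx2, P2, P2]
    have h3 : nm (src e') ≤ R ∧ nm (tgt e') ≤ R := by omega
    exact ⟨⟨hlv1, hpr1, h3.1⟩, ⟨hlv2, hpr2, h3.2⟩, Relation.EqvGen.rel _ _ (hfin h3.1 h3.2)⟩
  · subst h1
    subst h2
    rw [hvx1, hvx2] at hz
    rw [hvx1, hvx2, P2, P2]
    have h3 : nm (src e') ≤ R ∧ nm (tgt e') ≤ R := by omega
    exact ⟨⟨hlv2, hpr2, h3.2⟩, ⟨hlv1, hpr1, h3.1⟩,
      (Relation.EqvGen.rel _ _ (hfin h3.1 h3.2)).symm⟩

theorem Gl_step {n M k R : ℕ} {G : Set Edg} {z z' : Pt} (h : Gl n M k z z') (hp : Prm M z ∨ Prm M z')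
    (hz : nm (vx M z) < R ∨ nm (vx M z') < R) :
    (z.1.2 ≤ M ∧ Prm M z ∧ nm (vx M z) ≤ R) ∧ (z'.1.2 ≤ M ∧ Prm M z' ∧ nm (vx M z') ≤ R) ∧
      Cb k R G (vx M z, z.2) (vx M z', z'.2) := by
  cases h with
  | glue s i hi =>
    have hMM : 2 * M - M = M := by omega
    set j : ℤ := s * (2 * n : ℕ) + k + i with hj
    have hv1 : vx M ((j, M), false) = (j / 2, j / 2) := by
      unfold vx pv
      simp
    have hv2 : vx M ((j, M), true) = (j / 2, j / 2) := by
      unfold vx pv
      simp [hMM]
    have hp' : j % 2 = 0 := by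
      unfold Prm at hp
      simp only at hp
      omega
    have hP1 : Prm M ((j, M), false) := by
      unfold Prm
      simp only
      omega
    have hP2 : Prm M ((j, M), true) := by
      unfold Prm
      simp only
      omega
    rw [hv1, hv2] at hz ⊢
    have hz' : nm (j / 2, j / 2) ≤ R := by omega
    refine ⟨⟨le_refl _, hP1, hz'⟩, ⟨le_refl _, hP2, hz'⟩, Relation.EqvGen.rel _ _ ?_⟩
    refine CL.idn _ hz' ?_
    rintro ⟨-, h1, h2⟩
    simp only at h1 h2
    have h3 : s ≤ -1 := by
      by_contra hc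
      have h9 : 0 * ((2 * n : ℕ) : ℤ) ≤ s * (2 * n : ℕ) :=
        mul_le_mul_of_nonneg_right (by omega) (by positivity)
      omega
    have h9 : s * (2 * n : ℕ) ≤ -1 * (2 * n : ℕ) :=
      mul_le_mul_of_nonneg_right h3 (by positivity)
    omega

theorem Wl_step {M R : ℕ} (hM : 2 * R ≤ M) {τ σ : Word} {z z' : Pt} (h : Wl τ σ z z')
    (hp : Prm M z ∨ Prm M z') (hz : nm (vx M z) < R ∨ nm (vx M z') < R) : False := by
  cases h with
  | low a b h =>
    have he := Rw_even h
    have h1 : (a + ((0 : ℕ) - (M : ℤ))) % 2 = 0 ∧ (b + ((0 : ℕ) - (M : ℤ))) % 2 = 0 := by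
      unfold Prm at hp
      simp only at hp
      push_cast at hp ⊢
      omega
    have h2 : (R : ℤ) ≤ nm (vx M ((a, 0), false)) := bot_nm hM a 0 (Or.inl rfl) h1.1
    have h3 : (R : ℤ) ≤ nm (vx M ((b, 0), false)) := bot_nm hM b 0 (Or.inl rfl) h1.2
    omega
  | upp a b h =>
    have he := Rw_even h
    have h1 : (a + ((0 : ℕ) - (M : ℤ))) % 2 = 0 ∧ (b + ((0 : ℕ) - (M : ℤ))) % 2 = 0 := by
      unfold Prm at hp
      simp only at hp
      push_cast at hp ⊢
      omega
    have h2 : (R : ℤ) ≤ nm (vx M ((a, 0), true)) :=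
      bot_nm hM a (2 * M - 0) (Or.inr rfl) h1.1
    have h3 : (R : ℤ) ≤ nm (vx M ((b, 0), true)) :=
      bot_nm hM b (2 * M - 0) (Or.inr rfl) h1.2
    omega

end TDEC

open TDEC in
theorem t_DEC : S_DEC := by
  intro n M k R hk hkR hR hM B F hB hF hBF τ σ ⟨hP1, hP2⟩
  have hn : 0 < n := by omega
  refine ⟨?_, ?_⟩
  · intro i j hi hj hi2 hj2 hij hc
    refine hP1 i j hi hj hi2 hj2 hij ?_
    rw [← Q_sv (M := M) hi hi2, ← Q_sv (M := M) hj hj2]
    exact map_Cb hk hkR hR hM hBF τ σ hc
  · intro i hi hi2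
    obtain ⟨s, hs, j, hj, hc⟩ := hP2 i hi hi2
    have key : ∀ z, Relation.ReflTransGen (fun x y =>
        (Wl τ σ x y ∨ Gl n M k x y ∨ ∃ e ∈ (↑B : Set Edg), Dg n M 0 e x y) ∨
        (Wl τ σ y x ∨ Gl n M k y x ∨ ∃ e ∈ (↑B : Set Edg), Dg n M 0 e y x))
        (sec n M k 0 i) z →
        (z.1.2 ≤ M ∧ Prm M z ∧ nm (vx M z) ≤ R ∧
          Cb k R (per n F) (sv k i) (vx M z, z.2)) ∨
        ∃ (y : Vtx) (β : Bool), nm y = R ∧ Cb k R (per n F) (sv k i) (y, β) := by
      intro z hz
      induction hz with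
      | refl =>
        left
        obtain ⟨j', h4, h5⟩ := vx_sec (n := n) (M := M) (k := k) 0 i
        obtain ⟨h6, h7⟩ := h5 (by omega)
        rw [zero_mul] at h6 h7
        refine ⟨?_, ?_, ?_, ?_⟩
        · unfold sec
          split_ifs <;> exact le_refl _
        · unfold sec Prm
          split_ifs
          · simp only
            omega
          · simp only
            omega
        · rw [h4, nm_le_iff]
          simp only
          omega
        · rw [← sv_eq hi hi2]
          exact Relation.EqvGen.refl _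
      | @tail z z' _ hst ih =>
        rcases ih with ⟨i1, i2, i3, i4⟩ | ih
        · by_cases hR' : nm (vx M z) = R
          · exact Or.inr ⟨_, _, hR', i4⟩
          · have hlt : nm (vx M z) < R := by omega
            left
            rcases hst with (h | h | ⟨e, he, h⟩) | (h | h | ⟨e, he, h⟩)
            · exact (Wl_step hM h (Or.inl i2) (Or.inl hlt)).elim
            · obtain ⟨-, ⟨j1, j2, j3⟩, j4⟩ := Gl_step (G := per n F) h (Or.inl i2)
                (Or.inl hlt)
              exact ⟨j1, j2, j3, i4.trans _ _ _ j4⟩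
            · obtain ⟨-, ⟨j1, j2, j3⟩, j4⟩ := Dg_step hk hkR hR hB hBF he h (Or.inl hlt)
              exact ⟨j1, j2, j3, i4.trans _ _ _ j4⟩
            · exact (Wl_step hM h (Or.inr i2) (Or.inr hlt)).elim
            · obtain ⟨⟨j1, j2, j3⟩, -, j4⟩ := Gl_step (G := per n F) h (Or.inr i2)
                (Or.inr hlt)
              exact ⟨j1, j2, j3, i4.trans _ _ _ j4.symm⟩
            · obtain ⟨⟨j1, j2, j3⟩, -, j4⟩ := Dg_step hk hkR hR hB hBF he h (Or.inr hlt)
              exact ⟨j1, j2, j3, i4.trans _ _ _ j4.symm⟩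
        · exact Or.inr ih
    rcases key _ (toRTG hc) with ⟨-, -, h3, -⟩ | h
    · exfalso
      obtain ⟨j', h4, h5⟩ := vx_sec (n := n) (M := M) (k := k) s j
      obtain ⟨h6, h7⟩ := h5 (by omega)
      rw [nm_le_iff] at h3
      rw [h4] at h3
      rcases lt_or_gt_of_ne hs with h8 | h8
      · have h9 : s * (2 * n : ℕ) ≤ -1 * (2 * n : ℕ) :=
          mul_le_mul_of_nonneg_right (by omega) (by positivity)
        push_cast at h6 h7 h9
        omega
      · have h9 : 1 * ((2 * n : ℕ) : ℤ) ≤ s * (2 * n : ℕ) :=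
          mul_le_mul_of_nonneg_right (by omega) (by positivity)
        push_cast at h6 h7 h9
        omega
    · exact h

end Pool.Agent.H160R2.MU
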