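import Pool.Agent.H160R2.MU.Defs

/-!
Task DET of project MU: open spiral tubes separate the clusters.
-/

set_option autoImplicit false

namespace Pool.Agent.H160R2.MU
open Pool.Agent.H863R2.Cyl
open Pool.Agent.H988R2.Perc (Word PD)
open Pool.Agent.H160R2.ML
open H974 H906.Cyl
open H12S (Dir hbE segD rimE H4 Crs Nr sqE)

namespace TDET

/-! ### elementary dictionary -/

/-- translation of an edge -/
def she (n : ℕ) (q : ℤ) (e : Edg) : Edg := (e.1 + q * n, e.2.1 + q * n, e.2.2)
/-- translation of a vertex -/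
def shv (n : ℕ) (q : ℤ) (v : Vtx) : Vtx := (v.1 + q * n, v.2 + q * n)

theorem dco_she (n : ℕ) (q : ℤ) (e : Edg) : dco (she n q e) = dco e := by
  obtain ⟨x, y, _ | _⟩ := e <;> simp only [she, dco, if_true, Bool.false_eq_true, if_false] <;> ring

theorem src_she (n : ℕ) (q : ℤ) (e : Edg) : src (she n q e) = shv n q (src e) := rfl

theorem tgt_she (n : ℕ) (q : ℤ) (e : Edg) : tgt (she n q e) = shv n q (tgt e) := by
  obtain ⟨x, y, _ | _⟩ := e
  · simp only [she, shv, tgt_false, Prod.mk.injEq, true_and]; ring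
  · simp only [she, shv, tgt_true, Prod.mk.injEq, and_true]; ring

theorem red_she {n : ℕ} (hn : 0 < n) (q : ℤ) (e : Edg) : red n (she n q e) = red n e := by
  have := red_shift hn e q
  rw [mul_comm] at this
  exact this

theorem red_eq (n : ℕ) (e : Edg) : red n e = she n (-((e.1 + e.2.1) / (2 * n))) e := by
  simp only [red, she, Prod.mk.injEq, and_true]
  constructor <;> ring

theorem she_red (n : ℕ) (e : Edg) : e = she n ((e.1 + e.2.1) / (2 * n)) (red n e) := by
  obtain ⟨x, y, b⟩ := e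
  simp only [red, she, Prod.mk.injEq, and_true]
  constructor <;> ring

theorem red_of_mem {n M : ℕ} {e : Edg} (he : e ∈ CE n M) : red n e = e := by
  rw [mem_CE] at he
  obtain ⟨x, y, b⟩ := e
  have h0 : (x + y) / (2 * (n : ℤ)) = 0 := Int.ediv_eq_zero_of_lt he.1.1 he.1.2
  simp only [red, h0]
  simp

/-- the point of a vertex with a side -/
def P2 (M : ℕ) (w : Vtx × Bool) : Pt :=
  ((w.1.1 + w.1.2, ((M : ℤ) - |w.1.1 - w.1.2|).toNat),
    if w.1.1 < w.1.2 then false else if w.1.2 < w.1.1 then true else w.2)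

theorem Dg_vx {n M : ℕ} {e : Edg} {x y : Pt} (h : Dg n M 0 e x y) : ∃ q : ℤ,
    Cls M 0 x ∧ Cls M 0 y ∧ x.2 = decide (0 ≤ dco e) ∧ y.2 = decide (0 ≤ dco e) ∧
    ((vx M x = src (she n q e) ∧ vx M y = tgt (she n q e)) ∨
      (vx M x = tgt (she n q e) ∧ vx M y = src (she n q e))) := by
  have key : (e.1 + e.2.1 + dco e) % 2 = 0 ↔ e.2.2 = true := by
    obtain ⟨x, y, _ | _⟩ := e <;> simp only [dco, if_true, Bool.false_eq_true, if_false] <;>
      (try simp only [iff_false, iff_true]) <;> omega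
  obtain ⟨a, b, c⟩ := e
  cases h with
  | lrise q t ht hd hp =>
    refine ⟨q, ?_⟩
    have hc : c = true := key.1 hp
    subst hc
    simp only [dco, if_true] at ht hd hp ⊢
    refine ⟨⟨?_, ?_⟩, ⟨?_, ?_⟩, ?_, ?_, Or.inl ⟨?_, ?_⟩⟩
    · simp only; push_cast; have : q * (2 * (n : ℤ)) = 2 * (q * n) := by ring
      omega
    · simp only; omega
    · simp only; push_cast; have : q * (2 * (n : ℤ)) = 2 * (q * n) := by ring
      omega
    · simp only; omega
    · simp only [Bool.false_eq, decide_eq_false_iff_not]; omega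
    · simp only [Bool.false_eq, decide_eq_false_iff_not]; omega
    · simp only [vx, pv, she, src_mk, Bool.false_eq_true, if_false, Prod.mk.injEq]
      push_cast
      have : q * (2 * (n : ℤ)) = 2 * (q * n) := by ring
      omega
    · simp only [vx, pv, she, tgt_true, Bool.false_eq_true, if_false, Prod.mk.injEq]
      push_cast
      have : q * (2 * (n : ℤ)) = 2 * (q * n) := by ring
      omega
  | lfall q t ht hd hp =>
    refine ⟨q, ?_⟩
    have hc : c = false := by
      cases c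
      · rfl
      · exact absurd (key.2 rfl) hp
    subst hc
    simp only [dco, Bool.false_eq_true, if_false] at ht hd hp ⊢
    refine ⟨⟨?_, ?_⟩, ⟨?_, ?_⟩, ?_, ?_, Or.inr ⟨?_, ?_⟩⟩
    · simp only; push_cast; have : q * (2 * (n : ℤ)) = 2 * (q * n) := by ring
      omega
    · simp only; omega
    · simp only; push_cast; have : q * (2 * (n : ℤ)) = 2 * (q * n) := by ring
      omega
    · simp only; omega
    · simp only [Bool.false_eq, decide_eq_false_iff_not]; omega
    · simp only [Bool.false_eq, decide_eq_false_iff_not]; omega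
    · simp only [vx, pv, she, tgt_false, Bool.false_eq_true, if_false, Prod.mk.injEq]
      push_cast
      have : q * (2 * (n : ℤ)) = 2 * (q * n) := by ring
      omega
    · simp only [vx, pv, she, src_mk, Bool.false_eq_true, if_false, Prod.mk.injEq]
      push_cast
      have : q * (2 * (n : ℤ)) = 2 * (q * n) := by ring
      omega
  | urise q t ht hd hp =>
    refine ⟨q, ?_⟩
    have hc : c = true := key.1 hp
    subst hc
    simp only [dco, if_true] at ht hd hp ⊢
    refine ⟨⟨?_, ?_⟩, ⟨?_, ?_⟩, ?_, ?_, Or.inl ⟨?_, ?_⟩⟩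
    · simp only; push_cast; have : q * (2 * (n : ℤ)) = 2 * (q * n) := by ring
      omega
    · simp only; omega
    · simp only; push_cast; have : q * (2 * (n : ℤ)) = 2 * (q * n) := by ring
      omega
    · simp only; omega
    · simp only [Bool.true_eq, decide_eq_true_eq]; omega
    · simp only [Bool.true_eq, decide_eq_true_eq]; omega
    · simp only [vx, pv, she, src_mk, if_true, Prod.mk.injEq]
      push_cast
      have : q * (2 * (n : ℤ)) = 2 * (q * n) := by ring
      omega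
    · simp only [vx, pv, she, tgt_true, if_true, Prod.mk.injEq]
      push_cast
      have : q * (2 * (n : ℤ)) = 2 * (q * n) := by ring
      omega
  | ufall q t ht hd hp =>
    refine ⟨q, ?_⟩
    have hc : c = false := by
      cases c
      · rfl
      · exact absurd (key.2 rfl) hp
    subst hc
    simp only [dco, Bool.false_eq_true, if_false] at ht hd hp ⊢
    refine ⟨⟨?_, ?_⟩, ⟨?_, ?_⟩, ?_, ?_, Or.inr ⟨?_, ?_⟩⟩
    · simp only; push_cast; have : q * (2 * (n : ℤ)) = 2 * (q * n) := by ring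
      omega
    · simp only; omega
    · simp only; push_cast; have : q * (2 * (n : ℤ)) = 2 * (q * n) := by ring
      omega
    · simp only; omega
    · simp only [Bool.true_eq, decide_eq_true_eq]; omega
    · simp only [Bool.true_eq, decide_eq_true_eq]; omega
    · simp only [vx, pv, she, tgt_false, if_true, Prod.mk.injEq]
      push_cast
      have : q * (2 * (n : ℤ)) = 2 * (q * n) := by ring
      omega
    · simp only [vx, pv, she, src_mk, if_true, Prod.mk.injEq]
      push_cast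
      have : q * (2 * (n : ℤ)) = 2 * (q * n) := by ring
      omega

/-- links of an edge -/
theorem edge_RB {n M k : ℕ} {A : Set Edg} {τ σ : Word} {e : Edg} (h1 : -(M : ℤ) ≤ dco e)
    (h2 : dco e < M) (he : red n e ∈ A) :
    RB 0 n M k A τ σ (P2 M (src e, decide (0 ≤ dco e))) (P2 M (tgt e, decide (0 ≤ dco e))) := by
  have hd : dco (red n e) = dco e := dco_red n e
  obtain ⟨x, y, b⟩ := e
  set q := (x + y) / (2 * (n : ℤ)) with hq
  have hred : red n (x, y, b) = (x - n * q, y - n * q, b) := rfl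
  rw [hred] at he hd
  cases b
  · simp only [dco, Bool.false_eq_true, if_false] at h1 h2 hd
    by_cases h0 : x - y - 1 < 0
    · have hl := Dg.lfall (n := n) (M := M) (c := 0) (e := (x - n * q, y - n * q, false)) q
        (x - y - 1 + M).toNat (by simp only [dco, Bool.false_eq_true, if_false]; omega)
        (by simp only [dco, Bool.false_eq_true, if_false]; omega)
        (by simp only [dco, Bool.false_eq_true, if_false]; omega)
      refine Relation.EqvGen.symm _ _ (Relation.EqvGen.rel _ _ (Or.inr (Or.inr ⟨_, he, ?_⟩)))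
      convert hl using 1
      · simp only [P2, dco, Bool.false_eq_true, if_false, tgt_false, Prod.mk.injEq]
        refine ⟨⟨by push_cast; ring, ?_⟩, ?_⟩
        · rw [show x - (y + 1) = x - y - 1 by ring, abs_of_neg h0]; congr 1; ring
        · rw [if_pos (by omega)]
      · simp only [P2, dco, Bool.false_eq_true, if_false, src_mk, Prod.mk.injEq]
        refine ⟨⟨by push_cast; ring, ?_⟩, ?_⟩
        · rw [abs_of_nonpos (by omega)]; omega
        · split_ifs
          · rfl
          · omega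
          · simp only [decide_eq_false_iff_not]; omega
    · have hl := Dg.ufall (n := n) (M := M) (c := 0) (e := (x - n * q, y - n * q, false)) q
        (M - 1 - (x - y - 1)).toNat (by simp only [dco, Bool.false_eq_true, if_false]; omega)
        (by simp only [dco, Bool.false_eq_true, if_false]; omega)
        (by simp only [dco, Bool.false_eq_true, if_false]; omega)
      refine Relation.EqvGen.symm _ _ (Relation.EqvGen.rel _ _ (Or.inr (Or.inr ⟨_, he, ?_⟩)))
      convert hl using 1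
      · simp only [P2, dco, Bool.false_eq_true, if_false, tgt_false, Prod.mk.injEq]
        refine ⟨⟨by push_cast; ring, ?_⟩, ?_⟩
        · rw [abs_of_nonneg (by omega)]; omega
        · split_ifs
          · omega
          · rfl
          · simp only [decide_eq_true_eq]; omega
      · simp only [P2, dco, Bool.false_eq_true, if_false, src_mk, Prod.mk.injEq]
        refine ⟨⟨by push_cast; ring, ?_⟩, ?_⟩
        · rw [abs_of_nonneg (by omega)]; omega
        · rw [if_neg (by omega), if_pos (by omega)]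
  · simp only [dco, if_true] at h1 h2 hd
    by_cases h0 : x - y < 0
    · have hl := Dg.lrise (n := n) (M := M) (c := 0) (e := (x - n * q, y - n * q, true)) q
        (x - y + M).toNat (by simp only [dco, if_true]; omega)
        (by simp only [dco, if_true]; omega) (by simp only [dco, if_true]; omega)
      refine (Relation.EqvGen.rel _ _ (Or.inr (Or.inr ⟨_, he, ?_⟩)))
      convert hl using 1
      · simp only [P2, dco, if_true, src_mk, Prod.mk.injEq]
        refine ⟨⟨by push_cast; ring, ?_⟩, ?_⟩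
        · rw [abs_of_neg h0]; congr 1; ring
        · rw [if_pos (by omega)]
      · simp only [P2, dco, if_true, tgt_true, Prod.mk.injEq]
        refine ⟨⟨by push_cast; ring, ?_⟩, ?_⟩
        · rw [abs_of_nonpos (by omega)]; omega
        · split_ifs
          · rfl
          · omega
          · simp only [decide_eq_false_iff_not]; omega
    · have hl := Dg.urise (n := n) (M := M) (c := 0) (e := (x - n * q, y - n * q, true)) q
        (M - 1 - (x - y)).toNat (by simp only [dco, if_true]; omega)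
        (by simp only [dco, if_true]; omega) (by simp only [dco, if_true]; omega)
      refine (Relation.EqvGen.rel _ _ (Or.inr (Or.inr ⟨_, he, ?_⟩)))
      convert hl using 1
      · simp only [P2, dco, if_true, src_mk, Prod.mk.injEq]
        refine ⟨⟨by push_cast; ring, ?_⟩, ?_⟩
        · rw [abs_of_nonneg (by omega)]; omega
        · split_ifs
          · omega
          · rfl
          · simp only [decide_eq_true_eq]; omega
      · simp only [P2, dco, if_true, tgt_true, Prod.mk.injEq]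
        refine ⟨⟨by push_cast; ring, ?_⟩, ?_⟩
        · rw [abs_of_nonneg (by omega)]; omega
        · rw [if_neg (by omega), if_pos (by omega)]

/-- glueing at the diagonal outside the slits -/
theorem glue_RB {n M k : ℕ} {A : Set Edg} {τ σ : Word} (hn : 0 < n) (hk : k ≤ 2 * n) {v : Vtx}
    (h : ∀ s : ℤ, ¬ (v.1 = v.2 ∧ 0 < 2 * (v.1 - s * n) ∧ 2 * (v.1 - s * n) < k)) (β β' : Bool) :
    RB 0 n M k A τ σ (P2 M (v, β)) (P2 M (v, β')) := by
  obtain ⟨x, y⟩ := v
  by_cases hxy : x = y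
  · subst hxy
    have key : RB 0 n M k A τ σ (P2 M ((x, x), false)) (P2 M ((x, x), true)) := by
      have hn' : (0 : ℤ) < 2 * n := by omega
      set s := (2 * x - k) / (2 * (n : ℤ)) with hs
      have h3 := Int.emod_nonneg (2 * x - k) (show (2 * n : ℤ) ≠ 0 by omega)
      have h4 := Int.emod_lt_of_pos (2 * x - k) hn'
      have h5 := Int.mul_ediv_add_emod (2 * x - k) (2 * n)
      set i := (2 * x - k) % (2 * (n : ℤ)) with hi
      rw [← hs] at h5
      have h6 : i + k ≤ 2 * n := by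
        by_contra hc
        push Not at hc
        refine h (s + 1) ⟨rfl, ?_, ?_⟩
        · have : (s + 1) * (n : ℤ) = s * n + n := by ring
          have h7 : 2 * (n : ℤ) * s = 2 * (s * n) := by ring
          simp only
          omega
        · have : (s + 1) * (n : ℤ) = s * n + n := by ring
          have h7 : 2 * (n : ℤ) * s = 2 * (s * n) := by ring
          simp only
          omega
      have hg := Gl.glue (n := n) (M := M) (k := k) s i.toNat (by omega)
      refine Relation.EqvGen.rel _ _ (Or.inr (Or.inl ?_))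
      have e1 : s * ((2 * n : ℕ) : ℤ) + k + (i.toNat : ℤ) = x + x := by
        rw [Int.toNat_of_nonneg h3]; push_cast
        have h7 : 2 * (n : ℤ) * s = s * (2 * n) := by ring
        omega
      rw [e1] at hg
      simpa [P2] using hg
    cases β <;> cases β'
    · exact Relation.EqvGen.refl _
    · exact key
    · exact Relation.EqvGen.symm _ _ key
    · exact Relation.EqvGen.refl _
  · have : P2 M ((x, y), β) = P2 M ((x, y), β') := by
      simp only [P2, Prod.mk.injEq, true_and]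
      split_ifs
      · rfl
      · rfl
      · omega
    rw [this]
    exact Relation.EqvGen.refl _

/-! ### geometry of boxes and tubes -/

theorem csq_out {r N : ℕ} {c : Cel} {v : Vtx} (h : inSq r (csq N c) v) : ((N * r : ℕ) : ℤ) ≤ nm v := by
  unfold csq inSq at h
  unfold nm
  rw [le_max_iff, le_abs, le_abs]
  push_cast
  split_ifs at h with h1 h2 h3
  · have := h.2.2.1
    right; left; simp only at this; linarith
  · have := h.1
    left; left; simp only at this; linarith
  · have := h.2.2.2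
    right; right; simp only at this; linarith
  · have := h.2.1
    left; right; simp only at this; linarith

theorem nm_le {v : Vtx} {m : ℤ} : nm v ≤ m ↔ (-m ≤ v.1 ∧ v.1 ≤ m) ∧ (-m ≤ v.2 ∧ v.2 ≤ m) := by
  unfold nm
  rw [max_le_iff, abs_le, abs_le]

/-- the coarse square of a vertex of the box -/
theorem box_sq {N r : ℕ} (hN : 1 ≤ N) (hr : 1 ≤ r) {v : Vtx} (h : nm v ≤ (N * r : ℕ)) :
    ∃ b : ℤ × ℤ, (-(N : ℤ) ≤ b.1 ∧ b.1 < N ∧ -(N : ℤ) ≤ b.2 ∧ b.2 < N) ∧ inSq r b v := by
  rw [nm_le] at h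
  have one : ∀ x : ℤ, -((N * r : ℕ) : ℤ) ≤ x → x ≤ (N * r : ℕ) →
      ∃ b : ℤ, -(N : ℤ) ≤ b ∧ b < N ∧ r * b ≤ x ∧ x ≤ r * b + r := by
    intro x h1 h2
    push_cast at h1 h2
    have hr' : (0 : ℤ) < r := by omega
    by_cases hx : x = N * r
    · exact ⟨N - 1, by omega, by omega, by rw [hx]; nlinarith, by rw [hx]; nlinarith⟩
    · refine ⟨x / r, ?_, ?_, ?_, ?_⟩
      · rw [Int.le_ediv_iff_mul_le hr']; linarith
      · rw [Int.ediv_lt_iff_lt_mul hr']; exact lt_of_le_of_ne h2 hx
      · exact Int.mul_ediv_self_le (by omega)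
      · have := Int.lt_mul_ediv_self_add (x := x) hr'
        linarith
  obtain ⟨b1, h11, h12, h13, h14⟩ := one v.1 h.1.1 h.1.2
  obtain ⟨b2, h21, h22, h23, h24⟩ := one v.2 h.2.1 h.2.2
  exact ⟨(b1, b2), ⟨h11, h12, h21, h22⟩, h13, h14, h23, h24⟩

theorem sq_near {r : ℕ} (hr : 1 ≤ r) {z z' : ℤ × ℤ} {v : Vtx} (h : inSq r z v) (h' : inSq r z' v) :
    |z.1 - z'.1| ≤ 1 ∧ |z.2 - z'.2| ≤ 1 := by
  obtain ⟨a1, a2, a3, a4⟩ := h
  obtain ⟨b1, b2, b3, b4⟩ := h'
  have hr' : (0 : ℤ) < r := by omega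
  have one : ∀ p q x : ℤ, r * p ≤ x → x ≤ r * p + r → r * q ≤ x → x ≤ r * q + r → |p - q| ≤ 1 := by
    intro p q x h1 h2 h3 h4
    rw [abs_le]
    constructor
    · by_contra hc
      push Not at hc
      have : p + 2 ≤ q := by omega
      nlinarith
    · by_contra hc
      push Not at hc
      have : q + 2 ≤ p := by omega
      nlinarith
  exact ⟨one _ _ _ a1 a2 b1 b2, one _ _ _ a3 a4 b3 b4⟩

theorem inSq_shift {r N k : ℕ} {n : ℕ} (hn : n = prd N k * r) (z : ℤ × ℤ) (v : Vtx) (s : ℤ) :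
    inSq r (shf N k s z) (v.1 - s * n, v.2 - s * n) ↔ inSq r z v := by
  unfold inSq shf
  subst hn
  push_cast
  constructor
  · rintro ⟨h1, h2, h3, h4⟩
    refine ⟨?_, ?_, ?_, ?_⟩ <;> linarith
  · rintro ⟨h1, h2, h3, h4⟩
    refine ⟨?_, ?_, ?_, ?_⟩ <;> linarith

theorem sqE_inSq {r : ℕ} {z : ℤ × ℤ} {e : Edg} (h : e ∈ sqE r z) :
    inSq r z (src e) ∧ inSq r z (tgt e) := by
  obtain ⟨x, y, _ | _⟩ := e
  · simp only [sqE, mem_RE_false] at h
    simp only [inSq, src_mk, tgt_false]
    omega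
  · simp only [sqE, mem_RE_true] at h
    simp only [inSq, src_mk, tgt_true]
    omega

theorem sqE_shift {r N k : ℕ} {n : ℕ} (hn : n = prd N k * r) {z : ℤ × ℤ} {e : Edg} (s : ℤ)
    (h : e ∈ sqE r z) : she n s e ∈ sqE r (shf N k (-s) z) := by
  subst hn
  obtain ⟨x, y, _ | _⟩ := e
  · simp only [sqE, mem_RE_false, she, shf] at h ⊢
    obtain ⟨h1, h2, h3, h4⟩ := h
    push_cast
    refine ⟨?_, ?_, ?_, ?_⟩ <;> linarith
  · simp only [sqE, mem_RE_true, she, shf] at h ⊢
    obtain ⟨h1, h2, h3, h4⟩ := h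
    push_cast
    refine ⟨?_, ?_, ?_, ?_⟩ <;> linarith

theorem shf_shf (N k : ℕ) (s t : ℤ) (z : ℤ × ℤ) : shf N k s (shf N k t z) = shf N k (s + t) z := by
  simp only [shf, Prod.mk.injEq]
  constructor <;> ring

theorem Bxs_shift {N k : ℕ} {z : ℤ × ℤ} (s : ℤ) (h : z ∈ Bxs N k) : shf N k s z ∈ Bxs N k := by
  obtain ⟨t, ht⟩ := h
  refine ⟨t - s, ?_⟩
  simp only [BxS, Set.mem_ofPred_eq, shf_shf] at ht ⊢
  simpa using ht

theorem Crr_shift {N k : ℕ} {c : Fin k → Cel} {z : ℤ × ℤ} (s : ℤ) (h : z ∈ Crr N k c) :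
    shf N k s z ∈ Crr N k c := by
  obtain ⟨L, hL⟩ := h
  rcases hL with ⟨a, t, -, h⟩ | ⟨i, t, hi, -, h⟩
  · refine ⟨_, Or.inl ⟨a, t - s, rfl, ?_⟩⟩
    rw [shf_shf]; simpa using h
  · refine ⟨_, Or.inr ⟨i, t - s, hi, rfl, ?_⟩⟩
    rw [shf_shf]; simpa using h

theorem EP_shift {r N k : ℕ} {n : ℕ} (hn : n = prd N k * r) {P : Set (ℤ × ℤ)}
    (hP : ∀ z ∈ P, ∀ s, shf N k s z ∈ P) {e : Edg} (s : ℤ) (h : e ∈ EP r P) : she n s e ∈ EP r P := by
  obtain ⟨z, hz, he⟩ := h
  exact ⟨_, hP z hz (-s), sqE_shift hn s he⟩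

theorem EP_shift_iff {r N k : ℕ} {n : ℕ} (hn : n = prd N k * r) {P : Set (ℤ × ℤ)}
    (hP : ∀ z ∈ P, ∀ s, shf N k s z ∈ P) {e : Edg} (s : ℤ) : she n s e ∈ EP r P ↔ e ∈ EP r P := by
  refine ⟨fun h => ?_, EP_shift hn hP s⟩
  have := EP_shift hn hP (-s) h
  have e1 : she n (-s) (she n s e) = e := by
    obtain ⟨x, y, b⟩ := e
    simp only [she, Prod.mk.injEq, and_true]
    constructor <;> ring
  rwa [e1] at this

theorem Tube_ext {N k : ℕ} {c : Fin k → Cel} (hk : 2 ≤ k) (hc : Adm N k c) {L : ℕ × ℤ}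
    {z : ℤ × ℤ} (h : z ∈ Tube N k c L) : |z.1 - z.2| ≤ prd N k := by
  rcases h with ⟨a, s, -, h⟩ | ⟨i, s, hi, -, h⟩
  · have e1 : z.1 - z.2 = (shf N k s z).1 - (shf N k s z).2 := by simp only [shf]; ring
    rw [e1]
    have h1 := (hc.1 a).1
    have h2 := (hc.1 a).2.1
    have h3 := (hc.1 a).2.2
    have ha := a.2
    generalize shf N k s z = w at h
    unfold ArmS rad hgt at h
    simp only [Set.mem_ofPred_eq] at h
    unfold prd
    push_cast
    rw [abs_le]
    rcases h with ⟨_, h | h⟩ | h | h | h | h | h | h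
    · omega
    · omega
    · omega
    · omega
    · omega
    · split_ifs at h <;> omega
    · split_ifs at h <;> omega
    · split_ifs at h <;> omega
  · have e1 : z.1 - z.2 = (shf N k s z).1 - (shf N k s z).2 := by simp only [shf]; ring
    rw [e1]
    generalize shf N k s z = w at h
    unfold LinkS rad hgt at h
    simp only [Set.mem_ofPred_eq] at h
    unfold prd at h ⊢
    push_cast at h ⊢
    rw [abs_le]
    rcases h with h | h | h | h | h
    · omega
    · omega
    · omega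
    · omega
    · omega

/-! ### the invariant -/

/-- the data -/
structure D (N r k : ℕ) (c : Fin k → Cel) (n M : ℕ) (F : Finset Edg) (G : Set Edg) : Prop where
  g1 : S_g1
  g2 : S_g2
  g3 : S_g3
  hk : 2 ≤ k
  hN : k + 4 ≤ N
  hr : 2 ≤ r
  hc : Adm N k c
  hn : n = prd N k * r
  hM : M = 4 * n
  hF : F ⊆ CE n M
  hG : G = per n F
  sep : ∀ a b, a ≠ b → ∀ u v : Vtx, inSq r (csq N (c a)) u → nm u = (N * r : ℕ) →
    inSq r (csq N (c b)) v → nm v = (N * r : ℕ) → ¬ Cb k (N * r : ℕ) G (u, false) (v, false)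

variable {N r k : ℕ} {c : Fin k → Cel} {n M : ℕ} {F : Finset Edg} {G : Set Edg}

theorem D.hnr (d : D N r k c n M F G) : (n : ℤ) = 4 * (N * r) + 16 * (k * r) := by
  rw [d.hn]; unfold prd; push_cast; ring

theorem D.n0 (d : D N r k c n M F G) : 0 < n := by
  have h1 := d.hr
  have h2 := d.hk
  rw [d.hn]; unfold prd
  exact Nat.mul_pos (by omega) (by omega)

theorem D.Nr0 (d : D N r k c n M F G) : (k : ℤ) + 4 ≤ ((N * r : ℕ) : ℤ) := by
  have h1 := d.hr
  have h2 := d.hN
  have : N * 1 ≤ N * r := Nat.mul_le_mul_left _ (by omega)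
  have h3 : ((N * 1 : ℕ) : ℤ) ≤ ((N * r : ℕ) : ℤ) := by exact_mod_cast this
  push_cast at h3 ⊢
  omega

theorem D.n4 (d : D N r k c n M F G) : 4 * ((N * r : ℕ) : ℤ) + 8 * k ≤ n := by
  rw [d.hnr]
  have h1 := d.hr
  have : k * 1 ≤ k * r := Nat.mul_le_mul_left _ (by omega)
  have h3 : ((k * 1 : ℕ) : ℤ) ≤ ((k * r : ℕ) : ℤ) := by exact_mod_cast this
  push_cast at h3 ⊢
  nlinarith

/-- boxes are disjoint -/
theorem D.box_uniq (d : D N r k c n M F G) {v : Vtx} {s s' : ℤ}
    (h : nm (v.1 - s * n, v.2 - s * n) ≤ (N * r : ℕ))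
    (h' : nm (v.1 - s' * n, v.2 - s' * n) ≤ (N * r : ℕ)) : s = s' := by
  rw [nm_le] at h h'
  simp only at h h'
  have h4 := d.n4
  have h5 := d.Nr0
  have h6 := d.hk
  by_contra hne
  rcases lt_or_gt_of_ne hne with h7 | h7
  · have h8 : (s' - s) * (n : ℤ) ≥ n := by nlinarith
    rw [sub_mul] at h8
    omega
  · have h8 : (s - s') * (n : ℤ) ≥ n := by nlinarith
    rw [sub_mul] at h8
    omega

/-- a vertex of a tube in a box is in a cell -/
theorem D.cell (d : D N r k c n M F G) {L : ℕ × ℤ} {z : ℤ × ℤ} {v : Vtx} {s : ℤ}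
    (hz : z ∈ Tube N k c L) (hv : inSq r z v) (h : nm (v.1 - s * n, v.2 - s * n) ≤ (N * r : ℕ)) :
    ∃ a : Fin k, labA k a s = L ∧ inSq r (csq N (c a)) (v.1 - s * n, v.2 - s * n) ∧
      nm (v.1 - s * n, v.2 - s * n) = (N * r : ℕ) := by
  have hN := d.hN
  have hr := d.hr
  obtain ⟨b, hb, hbv⟩ := box_sq (by omega) (by omega) h
  have hb' : b = shf N k s (shf N k (-s) b) := by rw [shf_shf]; simp [shf]
  have hbv' : inSq r (shf N k (-s) b) v := by
    rw [← inSq_shift d.hn _ _ s, ← hb']; exact hbv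
  obtain ⟨h1, h2⟩ := sq_near (by omega) hv hbv'
  have hbs : shf N k (-s) b ∈ BxS N k s := by
    show _ ∧ _
    rw [← hb']
    exact hb
  obtain ⟨a, ha, haz⟩ := d.g2 N k c (by omega) d.hk d.hc L s z _ hz hbs h1 h2
  have h3 : inSq r (csq N (c a)) (v.1 - s * n, v.2 - s * n) := by
    rw [← haz, inSq_shift d.hn]; exact hv
  exact ⟨a, ha, h3, le_antisymm h (csq_out h3)⟩

/-- vertices with a side attached to the tube `L` -/
def TT (N r k : ℕ) (c : Fin k → Cel) (n : ℕ) (G : Set Edg) (L : ℕ × ℤ) (w : Vtx × Bool) : Prop :=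
  (∃ z ∈ Tube N k c L, inSq r z w.1) ∨
  (∃ (s : ℤ) (a : Fin k) (u : Vtx), labA k a s = L ∧ inSq r (csq N (c a)) u ∧
    nm u = (N * r : ℕ) ∧ nm (w.1.1 - s * n, w.1.2 - s * n) ≤ (N * r : ℕ) ∧
    Cb k (N * r : ℕ) G ((w.1.1 - s * n, w.1.2 - s * n), w.2) (u, false))

/-- the sides are identified outside the slits -/
theorem Cb_side {R : ℤ} {v : Vtx} (h : nm v ≤ R)
    (h' : ¬ (v.1 = v.2 ∧ 0 < 2 * v.1 ∧ 2 * v.1 < k)) (β β' : Bool) :
    Cb k R G (v, β) (v, β') := by
  have key : Cb k R G (v, false) (v, true) := Relation.EqvGen.rel _ _ (CL.idn v h h')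
  cases β <;> cases β'
  · exact Relation.EqvGen.refl _
  · exact key
  · exact Relation.EqvGen.symm _ _ key
  · exact Relation.EqvGen.refl _

theorem D.rim (d : D N r k c n M F G) {v : Vtx} (h : nm v = (N * r : ℕ)) :
    ¬ (v.1 = v.2 ∧ 0 < 2 * v.1 ∧ 2 * v.1 < k) := by
  rintro ⟨h1, h2, h3⟩
  have h4 := d.Nr0
  rw [← h] at h4
  have : nm v ≤ v.1 := by
    unfold nm
    rw [← h1, max_self, abs_of_pos (by omega)]
  omega

/-- every member in a box is attached through a cell -/
theorem D.inner (d : D N r k c n M F G) {L : ℕ × ℤ} {w : Vtx × Bool} {s : ℤ}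
    (h : TT N r k c n G L w) (hs : nm (w.1.1 - s * n, w.1.2 - s * n) ≤ (N * r : ℕ)) :
    ∃ (a : Fin k) (u : Vtx), labA k a s = L ∧ inSq r (csq N (c a)) u ∧
      nm u = (N * r : ℕ) ∧ Cb k (N * r : ℕ) G ((w.1.1 - s * n, w.1.2 - s * n), w.2) (u, false) := by
  rcases h with ⟨z, hz, hv⟩ | ⟨s', a, u, h1, h2, h3, h4, h5⟩
  · obtain ⟨a, ha, h1, h2⟩ := d.cell hz hv hs
    exact ⟨a, _, ha, h1, h2, Cb_side hs (d.rim h2) _ _⟩
  · have := d.box_uniq hs h4
    subst this
    exact ⟨a, u, h1, h2, h3, h5⟩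

/-- members in a closed square of a tube -/
theorem D.tube_lab (d : D N r k c n M F G) {L L' : ℕ × ℤ} {w : Vtx × Bool} {z : ℤ × ℤ}
    (h : TT N r k c n G L w) (hz : z ∈ Tube N k c L') (hv : inSq r z w.1) : L = L' := by
  have hr := d.hr
  have hN := d.hN
  rcases h with ⟨z', hz', hv'⟩ | ⟨s, a, u, h1, h2, h3, h4, h5⟩
  · obtain ⟨e1, e2⟩ := sq_near (by omega) hv' hv
    exact d.g1 N k c (by omega) d.hk d.hc L L' z' z hz' hz e1 e2
  · obtain ⟨b, hb, e1, e2⟩ := d.cell hz hv h4
    by_cases hab : a = b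
    · rw [← h1, ← hb, hab]
    · exfalso
      refine d.sep a b hab u _ h2 h3 e1 e2 ?_
      exact Relation.EqvGen.trans _ _ _ (Relation.EqvGen.symm _ _ h5)
        (Cb_side h4 (d.rim e2) _ _)

theorem D.TT_ext (d : D N r k c n M F G) {L : ℕ × ℤ} {w : Vtx × Bool}
    (h : TT N r k c n G L w) : |w.1.1 - w.1.2| < M := by
  have h4 := d.n4
  have h5 := d.hM
  have h6 := d.hr
  have hk := d.hk
  rcases h with ⟨z, hz, hv⟩ | ⟨s, a, u, h1, h2, h3, h7, h8⟩
  · have h7 := Tube_ext d.hk d.hc hz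
    obtain ⟨a1, a2, a3, a4⟩ := hv
    rw [abs_le] at h7
    rw [abs_lt]
    have hr' : (0 : ℤ) < r := by omega
    have hp : (n : ℤ) = prd N k * r := by rw [d.hn]; push_cast; ring
    have h8 : (r : ℤ) * (z.1 - z.2) ≤ n := by rw [hp]; nlinarith
    have h9 : -(n : ℤ) ≤ (r : ℤ) * (z.1 - z.2) := by rw [hp]; nlinarith
    have h10 : (r : ℤ) ≤ n := by
      rw [hp]
      have : (1 : ℤ) ≤ prd N k := by unfold prd; push_cast; omega
      nlinarith
    have h11 : (r : ℤ) * (z.1 - z.2) = r * z.1 - r * z.2 := by ring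
    constructor <;> omega
  · rw [nm_le] at h7
    simp only at h7
    rw [abs_lt]
    constructor <;> omega

/-- the invariant on points -/
def SL (N r k : ℕ) (c : Fin k → Cel) (n M : ℕ) (G : Set Edg) (L : ℕ × ℤ) (x : Pt) : Prop :=
  Cls M 0 x ∧ TT N r k c n G L (vx M x, x.2)

theorem vx_lev {M : ℕ} {x : Pt} (h : Cls M 0 x) (h0 : x.1.2 = 0) :
    |(vx M x).1 - (vx M x).2| = M := by
  obtain ⟨⟨j, t⟩, β⟩ := x
  obtain ⟨h1, h2⟩ := h
  simp only at h0 h1 h2
  subst h0
  cases β
  · simp only [vx, pv, Bool.false_eq_true, if_false]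
    push_cast at h1 ⊢
    rw [abs_of_nonpos (by omega)]
    omega
  · simp only [vx, pv, if_true]
    push_cast [Nat.sub_zero] at h1 ⊢
    rw [abs_of_nonneg (by omega)]
    omega

theorem D.lev (d : D N r k c n M F G) {L : ℕ × ℤ} {x : Pt} (h : SL N r k c n M G L x) :
    x.1.2 ≠ 0 := by
  intro h0
  have h1 := d.TT_ext h.2
  rw [vx_lev h.1 h0] at h1
  omega

/-- one direction of the invariance along edges -/
theorem D.step (d : D N r k c n M F G) {L : ℕ × ℤ} {e : Edg} {v w : Vtx}
    (he : (e ∈ EP r (Bxs N k) ∧ e ∈ G) ∨ (e ∉ EP r (Bxs N k) ∧ e ∈ EP r (Crr N k c)))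
    (hvw : (v = src e ∧ w = tgt e) ∨ (v = tgt e ∧ w = src e))
    (h : TT N r k c n G L (v, decide (0 ≤ dco e))) : TT N r k c n G L (w, decide (0 ≤ dco e)) := by
  rcases he with ⟨⟨z, ⟨s, hz⟩, hez⟩, heG⟩ | ⟨_, z, ⟨L', hz⟩, hez⟩
  · obtain ⟨h1, h2⟩ := sqE_inSq hez
    have hbox : ∀ u : Vtx, inSq r z u → nm (u.1 - s * n, u.2 - s * n) ≤ (N * r : ℕ) := by
      intro u hu
      rw [← inSq_shift d.hn z u s] at hu
      have hz' : -(N : ℤ) ≤ (shf N k s z).1 ∧ (shf N k s z).1 < N ∧
        -(N : ℤ) ≤ (shf N k s z).2 ∧ (shf N k s z).2 < N := hz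
      generalize shf N k s z = b at hu hz'
      obtain ⟨a1, a2, a3, a4⟩ := hu
      rw [nm_le]
      have hr' : (0 : ℤ) < r := by have := d.hr; omega
      push_cast
      simp only at a1 a2 a3 a4 ⊢
      refine ⟨⟨?_, ?_⟩, ?_, ?_⟩ <;> nlinarith
    have hv : inSq r z v := by rcases hvw with ⟨h, -⟩ | ⟨h, -⟩ <;> rw [h] <;> assumption
    have hw : inSq r z w := by rcases hvw with ⟨-, h⟩ | ⟨-, h⟩ <;> rw [h] <;> assumption
    obtain ⟨a, u, g1, g2, g3, g4⟩ := d.inner h (hbox v hv)
    refine Or.inr ⟨s, a, u, g1, g2, g3, hbox w hw, ?_⟩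
    have heG' : she n (-s) e ∈ G := by
      rw [d.hG] at heG ⊢
      show red n _ ∈ F
      rw [red_she d.n0]
      exact heG
    have hdc := dco_she n (-s) e
    have hsrc : src (she n (-s) e) = ((src e).1 - s * n, (src e).2 - s * n) := by
      rw [src_she]; simp only [shv, Prod.mk.injEq]; constructor <;> ring
    have htgt : tgt (she n (-s) e) = ((tgt e).1 - s * n, (tgt e).2 - s * n) := by
      rw [tgt_she]; simp only [shv, Prod.mk.injEq]; constructor <;> ring
    have hl := CL.edge (k := k) (R := ((N * r : ℕ) : ℤ)) (she n (-s) e) heG'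
      (by rw [hsrc]; exact hbox _ h1) (by rw [htgt]; exact hbox _ h2)
    rw [hdc, hsrc, htgt] at hl
    have hl' : Cb k (N * r : ℕ) G ((v.1 - s * n, v.2 - s * n), decide (0 ≤ dco e))
        ((w.1 - s * n, w.2 - s * n), decide (0 ≤ dco e)) := by
      rcases hvw with ⟨ha, hb⟩ | ⟨ha, hb⟩
      · rw [ha, hb]; exact Relation.EqvGen.rel _ _ hl
      · rw [ha, hb]; exact Relation.EqvGen.symm _ _ (Relation.EqvGen.rel _ _ hl)
    exact Relation.EqvGen.trans _ _ _ (Relation.EqvGen.symm _ _ hl') g4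
  · obtain ⟨h1, h2⟩ := sqE_inSq hez
    have hv : inSq r z v := by rcases hvw with ⟨h, -⟩ | ⟨h, -⟩ <;> rw [h] <;> assumption
    have hw : inSq r z w := by rcases hvw with ⟨-, h⟩ | ⟨-, h⟩ <;> rw [h] <;> assumption
    have := d.tube_lab h hz hv
    subst this
    exact Or.inl ⟨z, hz, hw⟩

theorem D.Bper : ∀ z ∈ Bxs N k, ∀ s, shf N k s z ∈ Bxs N k := fun _ h s => Bxs_shift s h
theorem D.Cper : ∀ z ∈ Crr N k c, ∀ s, shf N k s z ∈ Crr N k c := fun _ h s => Crr_shift s h

theorem mem_FA {e : Edg} : e ∈ FA N r k c n M F ↔ e ∈ CE n M ∧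
    ((e ∈ EP r (Bxs N k) ∧ e ∈ F) ∨ (e ∉ EP r (Bxs N k) ∧ e ∈ EP r (Crr N k c))) := by
  classical
  unfold FA
  simp only [Finset.mem_filter]

theorem D.FA_per (d : D N r k c n M F G) {e : Edg} (he : e ∈ FA N r k c n M F) (q : ℤ) :
    (she n q e ∈ EP r (Bxs N k) ∧ she n q e ∈ G) ∨
      (she n q e ∉ EP r (Bxs N k) ∧ she n q e ∈ EP r (Crr N k c)) := by
  obtain ⟨h0, h⟩ := mem_FA.1 he
  rw [EP_shift_iff d.hn D.Bper, EP_shift_iff d.hn D.Cper, d.hG]
  rcases h with ⟨h1, h2⟩ | ⟨h1, h2⟩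
  · left
    refine ⟨h1, ?_⟩
    show red n _ ∈ F
    rw [red_she d.n0, red_of_mem h0]
    exact h2
  · exact Or.inr ⟨h1, h2⟩

/-- the invariant is invariant -/
theorem D.inv (d : D N r k c n M F G) (L : ℕ × ℤ) {τ σ : Word} {x y : Pt}
    (h : RB 0 n M k (↑(FA N r k c n M F)) τ σ x y) :
    SL N r k c n M G L x ↔ SL N r k c n M G L y := by
  refine H906.Cyl.eqvGen_inv (P := fun p => SL N r k c n M G L p) ?_ h
  rintro a b (hw | hg | ⟨e, he, hd⟩)
  · cases hw with
    | low a b h => exact ⟨fun h => absurd rfl (d.lev h), fun h => absurd rfl (d.lev h)⟩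
    | upp a b h => exact ⟨fun h => absurd rfl (d.lev h), fun h => absurd rfl (d.lev h)⟩
  · cases hg with
    | glue s i hi =>
      have hC : Cls M 0 (((s * (2 * n : ℕ) + k + i, M), false) : Pt) ↔
          Cls M 0 (((s * (2 * n : ℕ) + k + i, M), true) : Pt) := Iff.rfl
      have hv : vx M (((s * (2 * n : ℕ) + k + i, M), true) : Pt) =
          vx M (((s * (2 * n : ℕ) + k + i, M), false) : Pt) := by
        simp only [vx, if_true, Bool.false_eq_true, if_false]
        congr 1
        omega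
      unfold SL
      rw [← hC]
      refine and_congr_right (fun hCl => ?_)
      rw [hv]
      set v := vx M (((s * (2 * n : ℕ) + k + i, M), false) : Pt) with hvd
      have hv2 : 2 * v.1 = s * (2 * n : ℕ) + k + i ∧ v.2 = v.1 := by
        obtain ⟨h1, -⟩ := hCl
        simp only [hvd, vx, pv, Bool.false_eq_true, if_false]
        simp only at h1
        push_cast at h1 ⊢
        omega
      refine or_congr Iff.rfl ?_
      refine exists_congr fun s' => exists_congr fun a => exists_congr fun u =>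
        and_congr_right fun _ => and_congr_right fun _ => and_congr_right fun _ =>
        and_congr_right fun h4 => ?_
      simp only at h4 ⊢
      have hns : ¬ ((v.1 - s' * n, v.2 - s' * n).1 = ((v.1 - s' * n, v.2 - s' * n) : Vtx).2 ∧
          0 < 2 * ((v.1 - s' * n, v.2 - s' * n) : Vtx).1 ∧
          2 * ((v.1 - s' * n, v.2 - s' * n) : Vtx).1 < k) := by
        rintro ⟨-, h5, h6⟩
        simp only at h5 h6
        have h7 : 2 * (v.1 - s' * n) = (s - s') * (2 * n) + k + i := by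
          rw [mul_sub, hv2.1]; push_cast; ring
        rw [h7] at h5 h6
        have hn0 := d.n0
        rcases lt_trichotomy (s - s') 0 with h8 | h8 | h8
        · have : (s - s') * (2 * (n : ℤ)) ≤ -(2 * n) := by nlinarith
          omega
        · rw [h8] at h6; omega
        · have : (s - s') * (2 * (n : ℤ)) ≥ 0 := by nlinarith
          omega
      have := Cb_side (G := G) h4 hns false true
      exact ⟨fun h => Relation.EqvGen.trans _ _ _ (Relation.EqvGen.symm _ _ this) h,
        fun h => Relation.EqvGen.trans _ _ _ this h⟩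
  · obtain ⟨q, c1, c2, c3, c4, c5⟩ := Dg_vx hd
    have hF := d.FA_per (Finset.mem_coe.1 he) q
    have hdc := dco_she n q e
    constructor
    · rintro ⟨-, ht⟩
      refine ⟨c2, ?_⟩
      rw [c3, ← hdc] at ht
      rw [c4, ← hdc]
      exact d.step hF c5 ht
    · rintro ⟨-, ht⟩
      refine ⟨c1, ?_⟩
      rw [c4, ← hdc] at ht
      rw [c3, ← hdc]
      refine d.step hF ?_ ht
      rcases c5 with ⟨h1, h2⟩ | ⟨h1, h2⟩
      · exact Or.inr ⟨h2, h1⟩
      · exact Or.inl ⟨h2, h1⟩

/-! ### building connections -/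

/-- an edge of the lift is a link -/
theorem D.link (d : D N r k c n M F G) {τ σ : Word} {e : Edg} (h1 : |(src e).1 - (src e).2| < M)
    (he : (e ∈ EP r (Bxs N k) ∧ e ∈ G) ∨ (e ∉ EP r (Bxs N k) ∧ e ∈ EP r (Crr N k c))) :
    RB 0 n M k (↑(FA N r k c n M F)) τ σ (P2 M (src e, decide (0 ≤ dco e)))
      (P2 M (tgt e, decide (0 ≤ dco e))) := by
  have hb : -(M : ℤ) ≤ dco e ∧ dco e < M := by
    rw [abs_lt] at h1
    obtain ⟨x, y, _ | _⟩ := e
    · simp only [src_mk, dco, Bool.false_eq_true, if_false] at h1 ⊢; omega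
    · simp only [src_mk, dco, if_true] at h1 ⊢; omega
  refine edge_RB hb.1 hb.2 ?_
  rw [Finset.mem_coe, mem_FA]
  refine ⟨red_mem d.n0 hb.1 hb.2, ?_⟩
  have h3 := red_eq n e
  set q := -((e.1 + e.2.1) / (2 * (n : ℤ)))
  rw [h3, EP_shift_iff d.hn D.Bper, EP_shift_iff d.hn D.Cper]
  rcases he with ⟨h4, h5⟩ | h4
  · left
    refine ⟨h4, ?_⟩
    rw [← h3]
    rw [d.hG] at h5
    exact h5
  · exact Or.inr h4

theorem shv_sub (n : ℕ) (s : ℤ) (v : Vtx) :
    ((shv n s v).1 - s * n, (shv n s v).2 - s * n) = v := by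
  simp [shv]

/-- glueing at a vertex of the box outside the slit -/
theorem D.glueB (d : D N r k c n M F G) {τ σ : Word} {v : Vtx} (s : ℤ)
    (h : nm v ≤ (N * r : ℕ)) (h' : ¬ (v.1 = v.2 ∧ 0 < 2 * v.1 ∧ 2 * v.1 < k)) (β β' : Bool) :
    RB 0 n M k (↑(FA N r k c n M F)) τ σ (P2 M (shv n s v, β)) (P2 M (shv n s v, β')) := by
  have h4 := d.n4
  have h5 := d.Nr0
  have hn0 := d.n0
  refine glue_RB d.n0 (by omega) ?_ β β'
  rintro s' ⟨e1, e2, e3⟩
  have e4 : nm ((shv n s v).1 - s' * n, (shv n s v).2 - s' * n) ≤ (N * r : ℕ) := by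
    rw [nm_le]; simp only; rw [← e1]; omega
  have e5 : nm ((shv n s v).1 - s * n, (shv n s v).2 - s * n) ≤ (N * r : ℕ) := by
    rw [shv_sub]; exact h
  have := d.box_uniq e4 e5
  subst this
  apply h'
  simp only [shv] at e1 e2 e3
  omega

/-- glueing at a vertex of a tube -/
theorem D.glueT (d : D N r k c n M F G) {τ σ : Word} {v : Vtx} {L : ℕ × ℤ} {z : ℤ × ℤ}
    (hz : z ∈ Tube N k c L) (hv : inSq r z v) (β β' : Bool) :
    RB 0 n M k (↑(FA N r k c n M F)) τ σ (P2 M (v, β)) (P2 M (v, β')) := by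
  have h4 := d.n4
  have h5 := d.Nr0
  refine glue_RB d.n0 (by omega) ?_ β β'
  rintro s' ⟨e1, e2, e3⟩
  have e4 : nm (v.1 - s' * n, v.2 - s' * n) ≤ (N * r : ℕ) := by
    rw [nm_le]; simp only; rw [← e1]; omega
  obtain ⟨a, -, -, h6⟩ := d.cell hz hv e4
  exact d.rim h6 ⟨by simp only; rw [e1], e2, e3⟩

/-- edges between vertices of the box are edges of coarse squares -/
theorem box_EP {N r k : ℕ} (hN : 1 ≤ N) (hr : 1 ≤ r) {e : Edg} (h1 : nm (src e) ≤ (N * r : ℕ))
    (h2 : nm (tgt e) ≤ (N * r : ℕ)) : e ∈ EP r (Bxs N k) := by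
  have hr' : (0 : ℤ) < r := by omega
  have one : ∀ x : ℤ, -((N * r : ℕ) : ℤ) ≤ x → x ≤ (N * r : ℕ) →
      ∃ b : ℤ, -(N : ℤ) ≤ b ∧ b < N ∧ r * b ≤ x ∧ x ≤ r * b + r := by
    intro x h1 h2
    obtain ⟨b, hb, hb'⟩ := box_sq (v := (x, x)) hN hr (by rw [nm_le]; exact ⟨⟨h1, h2⟩, h1, h2⟩)
    exact ⟨b.1, hb.1, hb.2.1, hb'.1, hb'.2.1⟩
  have two : ∀ x : ℤ, -((N * r : ℕ) : ℤ) ≤ x → x < (N * r : ℕ) →
      ∃ b : ℤ, -(N : ℤ) ≤ b ∧ b < N ∧ r * b ≤ x ∧ x < r * b + r := by
    intro x h1 h2
    push_cast at h1 h2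
    refine ⟨x / r, ?_, ?_, ?_, ?_⟩
    · rw [Int.le_ediv_iff_mul_le hr']; linarith
    · rw [Int.ediv_lt_iff_lt_mul hr']; exact h2
    · exact Int.mul_ediv_self_le (by omega)
    · have := Int.lt_mul_ediv_self_add (x := x) hr'
      linarith
  rw [nm_le] at h1 h2
  obtain ⟨x, y, _ | _⟩ := e
  · simp only [src_mk, tgt_false] at h1 h2
    obtain ⟨b1, p1, p2, p3, p4⟩ := one x h1.1.1 h1.1.2
    obtain ⟨b2, q1, q2, q3, q4⟩ := two y h1.2.1 (by omega)
    refine ⟨(b1, b2), ⟨0, ?_⟩, ?_⟩
    · simp only [BxS, Set.mem_ofPred_eq, shf, zero_mul, sub_zero]; exact ⟨p1, p2, q1, q2⟩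
    · simp only [sqE, mem_RE_false]; exact ⟨p3, p4, q3, q4⟩
  · simp only [src_mk, tgt_true] at h1 h2
    obtain ⟨b1, p1, p2, p3, p4⟩ := two x h1.1.1 (by omega)
    obtain ⟨b2, q1, q2, q3, q4⟩ := one y h1.2.1 h1.2.2
    refine ⟨(b1, b2), ⟨0, ?_⟩, ?_⟩
    · simp only [BxS, Set.mem_ofPred_eq, shf, zero_mul, sub_zero]; exact ⟨p1, p2, q1, q2⟩
    · simp only [sqE, mem_RE_true]; exact ⟨p3, p4, q3, q4⟩

/-- connections of the box lift -/
theorem D.Cb_RB (d : D N r k c n M F G) {τ σ : Word} (s : ℤ) {w w' : Vtx × Bool}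
    (h : Cb k (N * r : ℕ) G w w') :
    RB 0 n M k (↑(FA N r k c n M F)) τ σ (P2 M (shv n s w.1, w.2)) (P2 M (shv n s w'.1, w'.2)) := by
  induction h with
  | refl _ => exact Relation.EqvGen.refl _
  | symm _ _ _ ih => exact Relation.EqvGen.symm _ _ ih
  | trans _ _ _ _ _ ih1 ih2 => exact Relation.EqvGen.trans _ _ _ ih1 ih2
  | rel _ _ h =>
    cases h with
    | edge e he h1 h2 =>
      simp only
      rw [← src_she, ← tgt_she, ← dco_she n s e]
      refine d.link ?_ (Or.inl ⟨?_, ?_⟩)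
      · have h4 := d.n4
        have h5 := d.hM
        have h6 := d.Nr0
        rw [nm_le] at h1
        rw [src_she, abs_lt]
        simp only [shv]
        have hk := d.hk
        constructor <;> omega
      · rw [EP_shift_iff d.hn D.Bper]
        have h7 := d.hN
        have h8 := d.hr
        exact box_EP (by omega) (by omega) h1 h2
      · rw [d.hG] at he ⊢
        show red n _ ∈ F
        rw [red_she d.n0]
        exact he
    | idn v h1 h2 => exact d.glueB s h1 h2 _ _

/-- connections of a tube lift -/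
theorem D.tube_RB (d : D N r k c n M F G) {τ σ : Word} {L : ℕ × ℤ} {u v : Vtx}
    (h : Reach (EP r (Tube N k c L) \ EP r (Bxs N k)) u v) :
    RB 0 n M k (↑(FA N r k c n M F)) τ σ (P2 M (u, false)) (P2 M (v, false)) := by
  induction h with
  | refl => exact Relation.EqvGen.refl _
  | tail _ hs ih =>
    refine Relation.EqvGen.trans _ _ _ ih ?_
    obtain ⟨e, ⟨⟨z, hz, hez⟩, heB⟩, he⟩ := hs
    obtain ⟨h1, h2⟩ := sqE_inSq hez
    have key : RB 0 n M k (↑(FA N r k c n M F)) τ σ (P2 M (src e, false)) (P2 M (tgt e, false)) := by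
      refine Relation.EqvGen.trans _ _ _ (d.glueT hz h1 false (decide (0 ≤ dco e))) ?_
      refine Relation.EqvGen.trans _ _ _ ?_ (d.glueT hz h2 (decide (0 ≤ dco e)) false)
      refine d.link ?_ (Or.inr ⟨heB, z, ⟨L, hz⟩, hez⟩)
      exact d.TT_ext (G := G) (w := (src e, false)) (Or.inl ⟨z, hz, h1⟩)
    rcases he with ⟨e1, e2⟩ | ⟨e1, e2⟩
    · rw [← e1, ← e2]; exact key
    · rw [← e1, ← e2]; exact Relation.EqvGen.symm _ _ key

theorem sec_P2 {n M k i : ℕ} (s : ℤ) (hi : i < 2 * k) (he : i % 2 = 0) :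
    sec n M k s i = P2 M (shv n s (sv k i).1, (sv k i).2) := by
  unfold sec sv
  split_ifs with h
  · simp only [P2, shv, lt_self_iff_false, if_false, sub_self, abs_zero, sub_zero,
      Int.toNat_natCast, Prod.mk.injEq, and_true]
    push_cast
    have : s * (2 * (n : ℤ)) = 2 * (s * n) := by ring
    omega
  · simp only [P2, shv, lt_self_iff_false, if_false, sub_self, abs_zero, sub_zero,
      Int.toNat_natCast, Prod.mk.injEq, and_true]
    push_cast
    have : s * (2 * (n : ℤ)) = 2 * (s * n) := by ring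
    omega

theorem sv_nm {k i : ℕ} (hi : i < 2 * k) : nm (sv k i).1 < k := by
  unfold sv nm
  split_ifs with h
  · simp only [max_self]
    rw [abs_of_nonneg (by positivity)]
    by_cases hk : k = 0
    · omega
    · omega
  · simp only [max_self]
    rw [abs_of_nonneg (by positivity)]
    omega

theorem vx_P2 {M : ℕ} {w : Vtx × Bool} (h : |w.1.1 - w.1.2| ≤ M) : vx M (P2 M w) = w.1 ∧
    Cls M 0 (P2 M w) := by
  obtain ⟨⟨x, y⟩, β⟩ := w
  simp only at h
  rcases lt_trichotomy x y with h1 | h1 | h1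
  · rw [abs_of_neg (by omega)] at h
    have e1 : P2 M ((x, y), β) = ((x + y, (M - (y - x)).toNat), false) := by
      simp only [P2]
      rw [abs_of_neg (by omega), if_pos h1, neg_sub]
    rw [e1]
    constructor
    · simp only [vx, pv, Bool.false_eq_true, if_false, Prod.mk.injEq]
      omega
    · constructor
      · simp only; push_cast; omega
      · simp only; omega
  · subst h1
    have e1 : P2 M ((x, x), β) = ((x + x, M), β) := by
      simp [P2]
    rw [e1]
    constructor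
    · cases β
      · simp only [vx, pv, Bool.false_eq_true, if_false, Prod.mk.injEq]
        omega
      · simp only [vx, pv, if_true, Prod.mk.injEq]
        omega
    · constructor
      · simp only; push_cast; omega
      · simp only; omega
  · rw [abs_of_pos (by omega)] at h
    have e1 : P2 M ((x, y), β) = ((x + y, (M - (x - y)).toNat), true) := by
      simp only [P2]
      rw [abs_of_pos (by omega), if_neg (by omega), if_pos h1]
    rw [e1]
    constructor
    · simp only [vx, pv, if_true, Prod.mk.injEq]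
      omega
    · constructor
      · simp only; push_cast; omega
      · simp only; omega

theorem sv_diag (k i : ℕ) : (sv k i).1.1 = (sv k i).1.2 := by
  unfold sv; split_ifs <;> rfl

theorem P2_side {M : ℕ} {w : Vtx × Bool} (h : w.1.1 = w.1.2) : (P2 M w).2 = w.2 := by
  simp [P2, h]

theorem lab_inj {k : ℕ} {a b : Fin k} {s : ℤ} (h : labA k a s = labA k b s) : a = b := by
  have ha := a.2
  have hb := b.2
  unfold labA at h
  apply Fin.ext
  split_ifs at h <;> simp only [Prod.mk.injEq] at h <;> omega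

theorem partner {k : ℕ} (a : Fin k) : ∃ s : ℤ, s ≠ 0 ∧ ∃ b : Fin k, labA k b s = labA k a 0 := by
  have ha := a.2
  unfold labA
  rcases lt_trichotomy (k - 1) (2 * a.1) with h | h | h
  · refine ⟨1, by omega, ⟨k - 1 - a, by omega⟩, ?_⟩
    simp only
    rw [if_neg (by omega), if_pos (by omega), if_pos h]
    simp
  · refine ⟨1, by omega, a, ?_⟩
    rw [if_neg (by omega), if_neg (by omega), if_neg (by omega), if_neg (by omega)]
  · refine ⟨-1, by omega, ⟨k - 1 - a, by omega⟩, ?_⟩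
    simp only
    rw [if_pos (by omega), if_neg (by omega), if_pos (by omega)]
    simp only [Prod.mk.injEq]
    omega

end TDET

open TDET

theorem t_DET : S_g1 → S_g2 → S_g3 → S_DET := by
  intro g1 g2 g3 N r k c hk hN hr hc n M hn hM F hF hL τ σ
  obtain ⟨⟨π, hinj, hπ⟩, hsep⟩ := hL
  have d : D N r k c n M F (per n F) :=
    { g1 := g1, g2 := g2, g3 := g3, hk := hk, hN := hN, hr := hr, hc := hc, hn := hn, hM := hM,
      hF := hF, hG := rfl, sep := hsep }
  have h4 := d.n4
  have h5 := d.Nr0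
  have hsur : ∀ i, i < 2 * k → i % 2 = 0 → ∃ a, π a = i := by
    intro i hi hi2
    let f : Fin k → Fin k := fun a => ⟨π a / 2, by have := (hπ a).1; omega⟩
    have hf : Function.Injective f := by
      intro a b hab
      apply hinj
      have h1 := (hπ a).2.1
      have h2 := (hπ b).2.1
      have h3 : π a / 2 = π b / 2 := by
        have := congrArg Fin.val hab
        exact this
      omega
    obtain ⟨a, ha⟩ := (Finite.injective_iff_surjective.1 hf) ⟨i / 2, by omega⟩
    refine ⟨a, ?_⟩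
    have h1 := (hπ a).2.1
    have h3 : π a / 2 = i / 2 := by
      have := congrArg Fin.val ha
      exact this
    omega
  have hsn : ∀ (s : ℤ) (i : ℕ), i < 2 * k →
      nm ((shv n s (sv k i).1).1 - s * n, (shv n s (sv k i).1).2 - s * n) ≤ (N * r : ℕ) := by
    intro s i hi
    rw [shv_sub]
    have := sv_nm hi
    omega
  have hvx : ∀ (s : ℤ) (i : ℕ), i < 2 * k → i % 2 = 0 →
      vx M (sec n M k s i) = shv n s (sv k i).1 ∧ Cls M 0 (sec n M k s i) ∧
      (sec n M k s i).2 = (sv k i).2 := by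
    intro s i hi hi2
    rw [sec_P2 s hi hi2]
    have hd : (shv n s (sv k i).1).1 = (shv n s (sv k i).1).2 := by
      simp only [shv]; rw [sv_diag]
    obtain ⟨e1, e2⟩ := vx_P2 (M := M) (w := (shv n s (sv k i).1, (sv k i).2)) (by
      simp only; rw [hd]; simp)
    exact ⟨e1, e2, P2_side hd⟩
  have hSL : ∀ (a : Fin k) (s : ℤ), SL N r k c n M (per n F) (labA k a s) (sec n M k s (π a)) := by
    intro a s
    obtain ⟨h1, h2, v, h6, h7, h8⟩ := hπ a
    obtain ⟨e1, e2, e3⟩ := hvx s (π a) h1 h2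
    refine ⟨e2, Or.inr ⟨s, a, v, rfl, h6, h7, ?_, ?_⟩⟩
    · simp only; rw [e1]; exact hsn s _ h1
    · simp only
      rw [e1, e3, shv_sub]
      exact h8
  have hdis : ∀ (a b : Fin k) (s : ℤ),
      SL N r k c n M (per n F) (labA k a s) (sec n M k s (π b)) → a = b := by
    intro a b s h
    obtain ⟨h1, h2, v, h6, h7, h8⟩ := hπ b
    obtain ⟨e1, e2, e3⟩ := hvx s (π b) h1 h2
    obtain ⟨a', u, g1', g2', g3', g4'⟩ := d.inner (s := s) h.2 (by
      simp only; rw [e1]; exact hsn s _ h1)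
    have := lab_inj g1'
    subst this
    by_contra hab
    refine hsep a' b hab u v g2' g3' h6 h7 ?_
    simp only at g4'
    rw [e1, e3, shv_sub] at g4'
    exact Relation.EqvGen.trans _ _ _ (Relation.EqvGen.symm _ _ g4') h8
  constructor
  · intro i j hi hj hi2 hj2 hij hRB
    obtain ⟨a, rfl⟩ := hsur i hi hi2
    obtain ⟨b, rfl⟩ := hsur j hj hj2
    have := (d.inv (labA k a 0) hRB).1 (hSL a 0)
    exact hij (congrArg π (hdis a b 0 this))
  · intro i hi hi2
    obtain ⟨a, rfl⟩ := hsur i hi hi2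
    obtain ⟨s, hs, b, hab⟩ := partner a
    refine ⟨s, hs, π b, (hπ b).1, ?_⟩
    obtain ⟨h1, h2, v, h6, h7, h8⟩ := hπ a
    obtain ⟨k1, k2, w, k6, k7, k8⟩ := hπ b
    rw [sec_P2 0 h1 h2, sec_P2 s k1 k2]
    refine Relation.EqvGen.trans _ _ _ (d.Cb_RB 0 h8) ?_
    refine Relation.EqvGen.trans _ _ _ ?_ (Relation.EqvGen.symm _ _ (d.Cb_RB s k8))
    simp only
    have hz1 : shf N k 0 (shf N k 0 (csq N (c a))) = csq N (c a) := by
      rw [shf_shf]; simp [shf]
    have hz2 : shf N k s (shf N k (-s) (csq N (c b))) = csq N (c b) := by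
      rw [shf_shf]; simp [shf]
    obtain ⟨g31, g32⟩ := g3 N k c (by omega) hk hc
    have t1 := g32 a 0 _ hz1
    have t2 := g32 b s _ hz2
    rw [hab] at t2
    refine d.tube_RB (g31 r (labA k a 0) _ _ _ _ (by omega) t1 t2 ?_ ?_)
    · rw [← inSq_shift hn _ _ 0, hz1, shv_sub]; exact h6
    · rw [← inSq_shift hn _ _ s, hz2, shv_sub]; exact k6

end Pool.Agent.H160R2.MU
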