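import Pool.Agent.H160R2.MU.Defs

/-!
# Task DETP: transport of the landing event to the cylinder
-/

set_option autoImplicit false

namespace Pool.Agent.H160R2.MU
open Pool.Agent.H863R2.Cyl
open Pool.Agent.H988R2.Perc (Word PD)
open Pool.Agent.H160R2.ML
open H974 H906.Cyl
open H12S (Dir hbE segD rimE H4 Crs Nr sqE)

namespace TDETP

theorem mem_box {m : ℕ} {e : Edg} (h1 : nm (src e) ≤ m) (h2 : nm (tgt e) ≤ m) : e ∈ boxE m := by
  obtain ⟨x, y, _ | _⟩ := e
  · simp only [nm, src, tgt, Bool.false_eq_true, if_false, max_le_iff, abs_le] at h1 h2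
    unfold boxE
    rw [mem_RE_false]
    omega
  · simp only [nm, src, tgt, if_true, max_le_iff, abs_le] at h1 h2
    unfold boxE
    rw [mem_RE_true]
    omega

theorem CL_mono {k : ℕ} {R : ℤ} {G G' : Set Edg}
    (h : ∀ e, nm (src e) ≤ R → nm (tgt e) ≤ R → e ∈ G → e ∈ G') (x y : Vtx × Bool)
    (hx : CL k R G x y) : CL k R G' x y := by
  cases hx with
  | edge e he h1 h2 => exact CL.edge e (h e h1 h2 he) h1 h2
  | idn v h1 h2 => exact CL.idn v h1 h2

theorem CL_congr {k : ℕ} {R : ℤ} {G G' : Set Edg}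
    (h : ∀ e, nm (src e) ≤ R → nm (tgt e) ≤ R → (e ∈ G ↔ e ∈ G')) : CL k R G = CL k R G' := by
  funext x y
  exact propext ⟨CL_mono (fun e h1 h2 => (h e h1 h2).1) x y,
    CL_mono (fun e h1 h2 => (h e h1 h2).2) x y⟩

theorem Cb_congr {k : ℕ} {R : ℤ} {G G' : Set Edg}
    (h : ∀ e, nm (src e) ≤ R → nm (tgt e) ≤ R → (e ∈ G ↔ e ∈ G')) : Cb k R G = Cb k R G' := by
  unfold Cb
  rw [CL_congr h]

theorem Land_congr {N r k : ℕ} {c : Fin k → Cel} {G G' : Set Edg}
    (h : ∀ e, nm (src e) ≤ (N * r : ℕ) → nm (tgt e) ≤ (N * r : ℕ) → (e ∈ G ↔ e ∈ G')) :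
    Land N r k c G ↔ Land N r k c G' := by
  unfold Land
  rw [Cb_congr (k := k) h]

end TDETP

theorem t_DETP : S_DET → S_DETP := by
  intro hD N r k c hk hN hr hc n M hn hM τ σ
  have hNr : N * r ≤ (N + 4 * k) * r := Nat.mul_le_mul_right r (by omega)
  have hpos : 0 < N * r := Nat.mul_pos (by omega) (by omega)
  have hn' : n = 4 * ((N + 4 * k) * r) := by rw [hn, prd]; ring
  have hR := Pr_red (n := n) (q := 1/2) (S := CE n M) (B := boxE (N * r))
    (by unfold boxE; exact red_inj_x (by omega))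
    (by unfold boxE; exact image_red_sub (by omega) (by omega) (by omega))
    (fun F => Land N r k c (↑F : Set Edg))
  rw [← hR]
  unfold PC
  apply Pr_mono (okq (q := 1/2) (by norm_num) (by norm_num))
  intro F hF hL
  apply hD N r k c hk hN hr hc n M hn hM F hF
  refine (TDETP.Land_congr ?_).1 hL
  intro e h1 h2
  rw [Finset.mem_coe, Finset.mem_filter]
  exact ⟨fun h => h.2, fun h => ⟨TDETP.mem_box h1 h2, h⟩⟩

end Pool.Agent.H160R2.MU
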