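import Pool.Agent.H160R2.MU.Defs

/-!
# Tasks EXI (and the dictionary for LIF), helper514
-/

set_option autoImplicit false

namespace Pool.Agent.H160R2.MU
open Pool.Agent.H863R2.Cyl
open Pool.Agent.H988R2.Perc (Word PD)
open Pool.Agent.H160R2.ML
open H974 H906.Cyl
open H12S (Dir hbE segD rimE H4 Crs Nr sqE)

namespace TEXI

/-- second diagonal coordinate -/
def dd (M : ℕ) (x : Pt) : ℤ := if x.2 then (M : ℤ) - x.1.2 else x.1.2 - M

theorem vx_eq (M : ℕ) (x : Pt) (h : x.1.2 ≤ M) :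
    vx M x = ((x.1.1 + dd M x) / 2, (x.1.1 - dd M x) / 2) := by
  unfold vx dd pv
  split_ifs
  · have e : ((2 * M - x.1.2 : ℕ) : ℤ) - M = (M : ℤ) - x.1.2 := by omega
    rw [e]
  · rfl

theorem cls_dd {M c : ℕ} {x : Pt} (h : Cls M c x) : (x.1.1 + dd M x) % 2 = c := by
  obtain ⟨h1, h2⟩ := h
  unfold dd
  split_ifs <;> omega

theorem edz_sum (s d : ℤ) : (edz s d).1 + (edz s d).2.1 = s := by
  unfold edz
  split_ifs <;> simp only [] <;> omega

theorem edz_dco (s d : ℤ) : dco (edz s d) = d := by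
  unfold edz dco
  split_ifs <;> simp_all <;> omega

theorem Dg_coord {n M c : ℕ} {e : Edg} {A B : Pt} (h : Dg n M c e A B) :
    A.1.2 ≤ M ∧ B.1.2 ≤ M ∧ dd M A = dco e ∧ dd M B = dco e + 1 ∧ ∃ q : ℤ,
      (((e.1 + e.2.1 + q * (2 * n : ℕ) + dco e) % 2 = c ∧ A.1.1 = e.1 + e.2.1 + q * (2 * n : ℕ) ∧
        B.1.1 = e.1 + e.2.1 + q * (2 * n : ℕ) + 1) ∨
       ((e.1 + e.2.1 + q * (2 * n : ℕ) + dco e) % 2 ≠ c ∧
        A.1.1 = e.1 + e.2.1 + q * (2 * n : ℕ) + 1 ∧ B.1.1 = e.1 + e.2.1 + q * (2 * n : ℕ))) := by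
  have hq : ∀ q : ℤ, (e.1 + e.2.1 + q * (2 * n : ℕ) + dco e) % 2 = (e.1 + e.2.1 + dco e) % 2 := by
    intro q
    have : e.1 + e.2.1 + q * (2 * n : ℕ) + dco e = (e.1 + e.2.1 + dco e) + 2 * (q * n) := by
      push_cast; ring
    rw [this, Int.add_mul_emod_self_left]
  cases h with
  | lrise q t h1 h2 h3 =>
    refine ⟨by simp only []; omega, by simp only []; omega, ?_, ?_, q, Or.inl ⟨by rw [hq]; exact h3, rfl, rfl⟩⟩
    · simp only [dd]; simp; omega
    · simp only [dd]; simp; omega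
  | lfall q t h1 h2 h3 =>
    refine ⟨by simp only []; omega, by simp only []; omega, ?_, ?_, q, Or.inr ⟨by rw [hq]; exact h3, rfl, rfl⟩⟩
    · simp only [dd]; simp; omega
    · simp only [dd]; simp; omega
  | urise q t h1 h2 h3 =>
    refine ⟨by simp only []; omega, by simp only []; omega, ?_, ?_, q, Or.inl ⟨by rw [hq]; exact h3, rfl, rfl⟩⟩
    · simp only [dd]; simp; omega
    · simp only [dd]; simp; omega
  | ufall q t h1 h2 h3 =>
    refine ⟨by simp only []; omega, by simp only []; omega, ?_, ?_, q, Or.inr ⟨by rw [hq]; exact h3, rfl, rfl⟩⟩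
    · simp only [dd]; simp; omega
    · simp only [dd]; simp; omega

theorem ends {M c : ℕ} {A B : Pt} {S d : ℤ} (hc : c < 2) (hA : A.1.2 ≤ M) (hB : B.1.2 ≤ M)
    (dA : dd M A = d) (dB : dd M B = d + 1)
    (h : ((S + d) % 2 = c ∧ A.1.1 = S ∧ B.1.1 = S + 1) ∨
      ((S + d) % 2 ≠ c ∧ A.1.1 = S + 1 ∧ B.1.1 = S)) :
    (src (edz (S - c) d) = vx M A ∧ tgt (edz (S - c) d) = vx M B) ∨
    (src (edz (S - c) d) = vx M B ∧ tgt (edz (S - c) d) = vx M A) := by
  rw [vx_eq M A hA, vx_eq M B hB, dA, dB]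
  rcases h with ⟨h1, h2, h3⟩ | ⟨h1, h2, h3⟩
  · left
    have e : (S - c + d) % 2 = 0 := by omega
    have e1 : edz (S - c) d = ((S - c + d) / 2, (S - c - d) / 2, true) := by
      unfold edz; rw [if_pos e]
    rw [e1, h2, h3]
    simp only [src, tgt, if_true, Prod.mk.injEq]
    omega
  · right
    have e : ¬ (S - c + d) % 2 = 0 := by omega
    have e1 : edz (S - c) d = ((S - c + d + 1) / 2, (S - c - d - 1) / 2, false) := by
      unfold edz; rw [if_neg e]
    rw [e1, h2, h3]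
    simp only [src, tgt, Prod.mk.injEq]
    simp
    omega

theorem red_lift {n : ℕ} (hn : 1 ≤ n) {s d q : ℤ} (h0 : 0 ≤ s) (h1 : s < 2 * n) :
    red n (edz (s + q * (2 * n : ℕ)) d) = edz s d := by
  rw [red_edz]
  have e : (s + q * (2 * n : ℕ)) / (2 * n : ℤ) = q := by
    have : s + q * (2 * n : ℕ) = s + (2 * (n : ℤ)) * q := by push_cast; ring
    rw [this, Int.add_mul_ediv_left _ _ (by omega), Int.ediv_eq_zero_of_lt h0 h1, zero_add]
  rw [e]
  congr 1
  push_cast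
  ring

/-- squares of the configuration give edges of the planar configuration -/
theorem mem_Cc {c n M : ℕ} (hc : c < 2) (hn : 1 ≤ n) {F : Finset Edg} {e : Edg}
    (he : e ∈ Ac c n M F) (q : ℤ) :
    edz (e.1 + e.2.1 + q * (2 * n : ℕ) - c) (dco e) ∈ Cc c n M F := by
  obtain ⟨h1, h2⟩ := he
  obtain ⟨⟨b1, b2⟩, b3, b4⟩ := mem_CE.1 h1
  have hred := red_lift hn (d := dco e) (q := q) b1 b2
  rw [edz_of] at hred
  unfold Cc
  rw [Set.mem_setOf_eq]
  by_cases h0 : c = 0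
  · rw [if_pos h0]
    subst h0
    have : e.1 + e.2.1 + q * (2 * n : ℕ) - (0 : ℕ) = e.1 + e.2.1 + q * (2 * n : ℕ) := by simp
    rw [this]
    show red n _ ∈ F
    rw [hred]
    exact h2.2 rfl
  · rw [if_neg h0]
    have hc1 : c = 1 := by omega
    subst hc1
    rw [edz_sum, edz_dco]
    refine ⟨b3, b4, ?_⟩
    have : e.1 + e.2.1 + q * (2 * n : ℕ) - (1 : ℕ) + 1 = e.1 + e.2.1 + q * (2 * n : ℕ) := by
      push_cast; ring
    rw [this]
    show ¬ red n _ ∈ F
    rw [hred]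
    intro h
    exact absurd (h2.1 h) (by norm_num)

/-- a link is an edge of the planar configuration -/
theorem link_adj {c n M : ℕ} (hc : c < 2) (hn : 1 ≤ n) {F : Finset Edg} {e : Edg} {A B : Pt}
    (he : e ∈ Ac c n M F) (h : Dg n M c e A B) :
    A.1.2 ≤ M ∧ B.1.2 ≤ M ∧ ∃ e' ∈ Cc c n M F,
      (src e' = vx M A ∧ tgt e' = vx M B) ∨ (src e' = vx M B ∧ tgt e' = vx M A) := by
  obtain ⟨hA, hB, dA, dB, q, hq⟩ := Dg_coord h
  exact ⟨hA, hB, _, mem_Cc hc hn he q, ends hc hA hB dA dB hq⟩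

end TEXI

open TEXI in
theorem t_EXI : S_EXI := by
  intro c n M k hc hn hk F hF τ σ x y P hx hy hR hPx hPy hP
  by_contra hno
  -- invariant
  have inv : ∀ a b : Pt, (Wl τ σ a b ∨ Gl n M k a b ∨ ∃ e ∈ Ac c n M F, Dg n M c e a b) →
      ((P (vx M a) ∧ Reach (Cc c n M F ∩ {e | P (src e) ∧ P (tgt e)}) (vx M x) (vx M a)) ↔
        (P (vx M b) ∧ Reach (Cc c n M F ∩ {e | P (src e) ∧ P (tgt e)}) (vx M x) (vx M b))) := by
    intro a b hab
    have hz : ∀ (j : ℤ) (β : Bool), ¬ P (vx M ((j, 0), β)) := by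
      intro j β hp
      have h1 := hP _ hp
      rw [vx_eq M _ (Nat.zero_le _)] at h1
      simp only [dd] at h1
      have h2 : (M : ℤ) ≤ |(j + (if β then (M : ℤ) - (0 : ℕ) else (0 : ℕ) - M)) / 2 -
          (j - (if β then (M : ℤ) - (0 : ℕ) else (0 : ℕ) - M)) / 2| + 1 := by
        cases β
        · simp only [Bool.false_eq_true, if_false]
          have := neg_abs_le ((j + ((0 : ℕ) - (M : ℤ))) / 2 - (j - ((0 : ℕ) - (M : ℤ))) / 2)
          push_cast at this ⊢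
          omega
        · simp only [if_true]
          have := le_abs_self ((j + ((M : ℤ) - (0 : ℕ))) / 2 - (j - ((M : ℤ) - (0 : ℕ))) / 2)
          push_cast at this ⊢
          omega
      linarith
    rcases hab with h | h | ⟨e, he, h⟩
    · cases h with
      | low a' b' _ => exact ⟨fun h => absurd h.1 (hz _ _), fun h => absurd h.1 (hz _ _)⟩
      | upp a' b' _ => exact ⟨fun h => absurd h.1 (hz _ _), fun h => absurd h.1 (hz _ _)⟩
    · cases h with
      | glue s i hi =>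
        have e1 : vx M ((s * (2 * n : ℕ) + k + i, M), false) =
            vx M ((s * (2 * n : ℕ) + k + i, M), true) := by
          rw [vx_eq M _ le_rfl, vx_eq M _ le_rfl]
          simp [dd]
        rw [e1]
    · obtain ⟨_, _, e', he', hh⟩ := link_adj hc hn he h
      have key : ∀ u v : Vtx, (src e' = u ∧ tgt e' = v) ∨ (src e' = v ∧ tgt e' = u) →
          (P u ∧ Reach (Cc c n M F ∩ {e | P (src e) ∧ P (tgt e)}) (vx M x) u) →
          (P v ∧ Reach (Cc c n M F ∩ {e | P (src e) ∧ P (tgt e)}) (vx M x) v) := by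
        intro u v huv ⟨hu, hr⟩
        have hv : P v := by
          by_contra hv
          exact hno ⟨u, v, hr, hu, hv, e', he', huv⟩
        refine ⟨hv, hr.tail ⟨e', ⟨he', ?_⟩, huv⟩⟩
        rcases huv with ⟨h1, h2⟩ | ⟨h1, h2⟩
        · exact ⟨by rw [h1]; exact hu, by rw [h2]; exact hv⟩
        · exact ⟨by rw [h1]; exact hv, by rw [h2]; exact hu⟩
      exact ⟨key _ _ hh, key _ _ hh.symm⟩
  have hfin := eqvGen_inv (P := fun z : Pt => P (vx M z) ∧
    Reach (Cc c n M F ∩ {e | P (src e) ∧ P (tgt e)}) (vx M x) (vx M z)) inv hR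
  exact hPy (hfin.1 ⟨hPx, Relation.ReflTransGen.refl⟩).1

end Pool.Agent.H160R2.MU
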