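import Pool.Agent.H160R2.MU.Defs
import Pool.Agent.H160R2.ML.T_FIN

/-!
# The slit event under the product measure
-/

set_option autoImplicit false

namespace Pool.Agent.H160R2.MU
open H974 H906.Cyl
open MeasureTheory
open Pool.Agent.H160R2.ML
open Pool.Agent.H160R2.ML.TFIN (Z2 crit)

namespace TFIN

/-- Links of the box `|x|, |y| ≤ n` cut along the slit. -/
inductive Cut (k n : ℕ) (ω : Z2.edgeSet → Bool) : (ℤ × ℤ) × Bool → (ℤ × ℤ) × Bool → Prop
  | edge (u v : ℤ × ℤ) (h : s(u, v) ∈ Z2.edgeSet) : ω ⟨s(u, v), h⟩ = true →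
      max |u.1| |u.2| ≤ n → max |v.1| |v.2| ≤ n →
      Cut k n ω (u, decide (0 < (u.1 - u.2) + (v.1 - v.2))) (v, decide (0 < (u.1 - u.2) + (v.1 - v.2)))
  | join (v : ℤ × ℤ) : max |v.1| |v.2| ≤ n → ¬ (v.1 = v.2 ∧ 0 < 2 * v.1 ∧ 2 * v.1 < k) →
      Cut k n ω (v, false) (v, true)

/-- The vertices around the slit. -/
def tip (k i : ℕ) : (ℤ × ℤ) × Bool :=
  if i ≤ k then (((i / 2 : ℕ), (i / 2 : ℕ)), false)
  else ((((2 * k - i) / 2 : ℕ), ((2 * k - i) / 2 : ℕ)), true)

/-- The slit event. -/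
def SlitArms (k n : ℕ) (ω : Z2.edgeSet → Bool) : Prop :=
  (∀ i j : ℕ, i < 2 * k → j < 2 * k → i % 2 = 0 → j % 2 = 0 → i ≠ j →
    ¬ Relation.EqvGen (Cut k n ω) (tip k i) (tip k j)) ∧
  (∀ i : ℕ, i < 2 * k → i % 2 = 0 → ∃ (y : ℤ × ℤ) (β : Bool), max |y.1| |y.2| = n ∧
    Relation.EqvGen (Cut k n ω) (tip k i) (y, β))

theorem side_eq (e : Edg) : decide (0 ≤ dco e) =
    decide (0 < ((src e).1 - (src e).2) + ((tgt e).1 - (tgt e).2)) := by
  obtain ⟨x, y, b⟩ := e
  cases b
  · simp only [dco, src, tgt, Bool.false_eq_true, if_false]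
    congr 1
    apply propext
    constructor <;> intro h <;> omega
  · simp only [dco, src, tgt, if_true]
    congr 1
    apply propext
    constructor <;> intro h <;> omega

theorem cl_iff (k n : ℕ) (ω : Z2.edgeSet → Bool) (a b : (ℤ × ℤ) × Bool) :
    Relation.EqvGen (Cut k n ω) a b ↔ Cb k n (opn ω) a b := by
  constructor
  · intro h
    induction h with
    | rel x y h =>
      cases h with
      | edge u v h1 h2 h3 h4 =>
        obtain ⟨e, he⟩ := adj_edge ((SimpleGraph.mem_edgeSet _).mp h1)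
        rcases he with ⟨h5, h6⟩ | ⟨h5, h6⟩
        · have hE : e ∈ opn ω := by
            have : toE e = ⟨s(u, v), h1⟩ := by
              apply Subtype.ext
              simp only [toE, h5, h6]
            show ω (toE e) = true
            rw [this]; exact h2
          have := CL.edge (k := k) (R := (n : ℤ)) e hE (by rw [h5]; exact h3) (by rw [h6]; exact h4)
          rw [side_eq, h5, h6] at this
          exact Relation.EqvGen.rel _ _ this
        · have hE : e ∈ opn ω := by
            have : toE e = ⟨s(u, v), h1⟩ := by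
              apply Subtype.ext
              simp only [toE, h5, h6]
              exact Sym2.eq_swap
            show ω (toE e) = true
            rw [this]; exact h2
          have := CL.edge (k := k) (R := (n : ℤ)) e hE (by rw [h5]; exact h4) (by rw [h6]; exact h3)
          rw [side_eq, h5, h6, add_comm] at this
          exact Relation.EqvGen.symm _ _ (Relation.EqvGen.rel _ _ this)
      | join v h1 h2 => exact Relation.EqvGen.rel _ _ (CL.idn v h1 h2)
    | refl x => exact Relation.EqvGen.refl _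
    | symm x y _ h => exact Relation.EqvGen.symm _ _ h
    | trans x y z _ _ h1 h2 => exact Relation.EqvGen.trans _ _ _ h1 h2
  · intro h
    unfold Cb at h
    induction h with
    | rel x y h =>
      cases h with
      | edge e h1 h2 h3 =>
        have h4 : s(src e, tgt e) ∈ Z2.edgeSet := edge_mem e
        have := Cut.edge (k := k) (n := n) (ω := ω) (src e) (tgt e) h4 h1 h2 h3
        rw [← side_eq] at this
        exact Relation.EqvGen.rel _ _ this
      | idn v h1 h2 => exact Relation.EqvGen.rel _ _ (Cut.join v h1 h2)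
    | refl x => exact Relation.EqvGen.refl _
    | symm x y _ h => exact Relation.EqvGen.symm _ _ h
    | trans x y z _ _ h1 h2 => exact Relation.EqvGen.trans _ _ _ h1 h2

theorem cb_congr (k n : ℕ) (G G' : Set Edg) (h : ∀ e, nm (src e) ≤ n → nm (tgt e) ≤ n →
    (e ∈ G ↔ e ∈ G')) : Cb k n G = Cb k n G' := by
  unfold Cb
  have : CL k n G = CL k n G' := by
    funext x y
    apply propext
    constructor
    · intro hx
      cases hx with
      | edge e h1 h2 h3 => exact CL.edge e ((h e h2 h3).1 h1) h2 h3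
      | idn v h1 h2 => exact CL.idn v h1 h2
    · intro hx
      cases hx with
      | edge e h1 h2 h3 => exact CL.edge e ((h e h2 h3).2 h1) h2 h3
      | idn v h1 h2 => exact CL.idn v h1 h2
  rw [this]

theorem box_mem (n : ℕ) (e : Edg) (h1 : nm (src e) ≤ n) (h2 : nm (tgt e) ≤ n) : e ∈ boxE n := by
  obtain ⟨x, y, _ | _⟩ := e
  · unfold boxE
    rw [mem_RE_false]
    simp only [nm, src, tgt, Bool.false_eq_true, if_false] at h1 h2
    rw [max_le_iff, abs_le, abs_le] at h1 h2
    omega
  · unfold boxE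
    rw [mem_RE_true]
    simp only [nm, src, tgt, if_true] at h1 h2
    rw [max_le_iff, abs_le, abs_le] at h1 h2
    omega

theorem slit_iff (k n : ℕ) (ω : Z2.edgeSet → Bool) :
    SlitArms k n ω ↔ SE k n (↑(FF (boxE n) ω) : Set Edg) := by
  have h1 : (↑(FF (boxE n) ω) : Set Edg) = opn ω ∩ ↑(boxE n) := FF_coe (boxE n) ω
  have h2 : Cb k n (↑(FF (boxE n) ω) : Set Edg) = Cb k n (opn ω) := by
    apply cb_congr
    intro e he1 he2
    constructor
    · intro h
      have h' : e ∈ opn ω ∩ ↑(boxE n) := by rw [← h1]; exact h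
      exact h'.1
    · intro h
      have h' : e ∈ opn ω ∩ ↑(boxE n) := ⟨h, box_mem n e he1 he2⟩
      rw [← h1] at h'
      exact h'
  unfold SlitArms SE
  rw [h2]
  simp only [cl_iff]
  rfl

theorem slit_law (k n : ℕ) : crit.real {ω | SlitArms k n ω} = sP k n := by
  have h : {ω : Z2.edgeSet → Bool | SlitArms k n ω} =
      {ω : sqLattice.edgeSet → Bool | (fun F : Finset Edg => SE k n (↑F : Set Edg))
        (FF (boxE n) ω)} := by
    ext ω
    exact slit_iff k n ω
  rw [h]
  exact law_event hlf (boxE n) (fun F => SE k n (↑F : Set Edg))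

end TFIN

open TFIN in
/-- **all even arm exponents in the plane** -/
theorem t_FIN : S_UB → S_LB → ∀ k : ℕ, 2 ≤ k → ∃ c C : ℝ, 0 < c ∧ 0 < C ∧ ∀ n : ℕ, k ≤ n →
    c * (n : ℝ) ^ (-((4 * (k : ℝ) ^ 2 - 1) / 12)) ≤ crit.real {ω | SlitArms k n ω} ∧
    crit.real {ω | SlitArms k n ω} ≤ C * (n : ℝ) ^ (-((4 * (k : ℝ) ^ 2 - 1) / 12)) := by
  intro hU hL k hk
  obtain ⟨C, hC, h1⟩ := hU k hk
  obtain ⟨c, hc, h2⟩ := hL k hk
  refine ⟨c, C, hc, hC, fun n hn => ?_⟩
  rw [slit_law]
  exact ⟨h2 n hn, h1 n hn⟩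

end Pool.Agent.H160R2.MU
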