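import Pool.Agent.H160R2.MU.Defs
import Pool.Agent.H160R2.ML.T_C1

/-! Task G: `Good` seen by one class. -/

set_option autoImplicit false

namespace Pool.Agent.H160R2.MU
open Pool.Agent.H863R2.Cyl
open Pool.Agent.H988R2.Perc (Word PD)
open Pool.Agent.H160R2.ML
open H974 H906.Cyl
open H12S (Dir hbE segD rimE H4 Crs Nr sqE)

namespace TG

theorem Rle_par (w : Word) (j k : ℤ) (h : Rle w j k) : j % 2 = k % 2 := by
  obtain ⟨h1, _, h3⟩ := h
  unfold Sh at h3
  have h4 : (2 : ℤ) ∣ ∑ i ∈ Finset.Ico j k, (Pool.Agent.H863R2.Cyl.sg w i - 1) := by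
    refine Finset.dvd_sum fun i _ => ?_
    unfold Pool.Agent.H863R2.Cyl.sg
    split_ifs <;> norm_num
  rw [Finset.sum_sub_distrib, h3, Finset.sum_const, Int.card_Ico, nsmul_eq_mul, mul_one] at h4
  omega

theorem Rw_par (w : Word) (j k : ℤ) (h : Rw w j k) : j % 2 = k % 2 := by
  rcases h with h | h
  · exact Rle_par w j k h
  · exact (Rle_par w k j h).symm

theorem Cn_par (k : ℕ) (w' w : Word) (hl : w'.length = w.length) (x y : ℤ × Bool)
    (h : Cn k k w' w x y) : x.1 % 2 = y.1 % 2 := by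
  induction h with
  | rel x y h =>
    cases h with
    | low a b h => exact Rw_par _ _ _ h
    | upp a b h => exact Rw_par _ _ _ h
    | glue s i hi =>
      simp only
      rw [hl]
  | refl x => rfl
  | symm x y _ h => exact h.symm
  | trans x y z _ _ h1 h2 => exact h1.trans h2

theorem Dg_par {n M c : ℕ} (_hc : c < 2) {e : Edg} {x y : Pt} (h : Dg n M c e x y) :
    (x.1.1 + x.1.2 - M) % 2 = (y.1.1 + y.1.2 - M) % 2 := by
  cases h <;> simp only <;> push_cast <;> omega

theorem RB_par {c n M k : ℕ} (hc : c < 2) {A : Set Edg} {τ σ : Word} {x y : Pt}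
    (h : RB c n M k A τ σ x y) : (x.1.1 + x.1.2 - M) % 2 = (y.1.1 + y.1.2 - M) % 2 := by
  induction h with
  | rel x y h =>
    rcases h with h | h | ⟨e, _, h⟩
    · cases h with
      | low a b h =>
        have := Rw_par _ _ _ h
        simp only
        omega
      | upp a b h =>
        have := Rw_par _ _ _ h
        simp only
        omega
    · cases h
      rfl
    · exact Dg_par hc h
  | refl x => rfl
  | symm x y _ h => exact h.symm
  | trans x y z _ _ h1 h2 => exact h1.trans h2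

theorem sec_par (n M k : ℕ) (s : ℤ) (i : ℕ) :
    ((sec n M k s i).1.1 + (sec n M k s i).1.2 - M) % 2 = (i : ℤ) % 2 := by
  have e : s * ((2 * n : ℕ) : ℤ) = 2 * (s * n) := by push_cast; ring
  unfold sec
  split_ifs
  · simp only
    rw [e]
    omega
  · simp only
    rw [e]
    omega

theorem sec_lev (n M k : ℕ) (s : ℤ) (i : ℕ) : (sec n M k s i).1.2 = M := by
  unfold sec
  split_ifs <;> rfl

theorem sec_cls {n M k c : ℕ} (s : ℤ) (i : ℕ) (h : i % 2 = c) : Cls M c (sec n M k s i) := by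
  refine ⟨?_, ?_⟩
  · rw [sec_par]
    omega
  · rw [sec_lev]

theorem lev_pt {n M k : ℕ} {w' w : Word} (h' : w'.length = 2 * n) (h : w.length = 2 * n) (s : ℤ)
    (i : ℕ) : lev M (pt k k w' w s i) = sec n M k s i := by
  unfold lev pt sec
  rw [h', h]
  split_ifs
  · rfl
  · simp only
    congr 2
    ring_nf

theorem pt_par {n k : ℕ} {w' w : Word} (h' : w'.length = 2 * n) (h : w.length = 2 * n) (s : ℤ)
    (i : ℕ) : (pt k k w' w s i).1 % 2 = (i : ℤ) % 2 := by
  have e : s * ((2 * n : ℕ) : ℤ) = 2 * (s * n) := by push_cast; ring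
  unfold pt
  rw [h', h]
  split_ifs
  · simp only
    rw [e]
    omega
  · simp only
    rw [e]
    omega

end TG

open TG in
theorem t_G (hL : S_LNK) (hW : S_W) : S_G := by
  intro c n M k hc hn hk hkn F hF σ τ
  have hup : (wup n M F τ).length = 2 * n := TC1.len_up hn M F τ
  have hdn : (wdn n M F σ).length = 2 * n := TC1.len_dn hn M F σ
  have hOu : Ok (wup n M F τ) := (rows (2 * n - 1) (up n M F) M τ).2.2
  have hOd : Ok (wdn n M F σ) := (rows (2 * n - 1) (dn n M F) M σ).2.2
  have key : ∀ (s s' : ℤ) (i j : ℕ), i % 2 = c → j % 2 = c →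
      (Cn k k (wup n M F τ) (wdn n M F σ) (pt k k (wup n M F τ) (wdn n M F σ) s i)
        (pt k k (wup n M F τ) (wdn n M F σ) s' j) ↔
      RB c n M k (Ac c n M F) τ.1 σ.1 (sec n M k s i) (sec n M k s' j)) := by
    intro s s' i j hi hj
    rw [← t_C1 n M k hn hkn F σ τ, lev_pt hup hdn, lev_pt hup hdn]
    exact hL c n M k hc hn hkn F hF τ σ _ _ (sec_cls s i hi) (sec_cls s' j hj)
  constructor
  · rintro ⟨h1, h2⟩
    refine ⟨?_, ?_⟩
    · intro i j hi hj hic hjc hij hR
      exact h1 i j (by omega) (by omega) hij ((key 0 0 i j hic hjc).2 hR)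
    · intro i hi hic
      obtain ⟨s, hs, d, hd, hC⟩ := h2 i (by omega)
      have h3 := Cn_par k _ _ (hup.trans hdn.symm) _ _ hC
      rw [pt_par hup hdn, pt_par hup hdn] at h3
      have hdc : d % 2 = c := by omega
      exact ⟨s, hs, d, by omega, (key 0 s i d hic hdc).1 hC⟩
  · rintro ⟨h1, h2⟩
    refine hW c k n _ _ hc hk hkn hOu hOd hup hdn ⟨?_, ?_⟩
    · intro i j hi hj hic hjc hij hC
      exact h1 i j (by omega) (by omega) hic hjc hij ((key 0 0 i j hic hjc).1 hC)
    · intro i hi hic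
      obtain ⟨s, hs, j, hj, hR⟩ := h2 i (by omega) hic
      have h3 := RB_par hc hR
      rw [sec_par, sec_par] at h3
      have hjc : j % 2 = c := by omega
      exact ⟨s, hs, j, by omega, (key 0 s i j hic hjc).2 hR⟩

end Pool.Agent.H160R2.MU
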