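import Pool.Agent.H160R2.MU.Defs

/-!
Independence of the slit event in the boxes and of the bad event outside of them.
-/

set_option autoImplicit false

namespace Pool.Agent.H160R2.MU
open Pool.Agent.H863R2.Cyl
open Pool.Agent.H988R2.Perc (Word PD)
open Pool.Agent.H160R2.ML
open H974 H906.Cyl
open H12S (Dir hbE segD rimE H4 Crs Nr sqE H3g)

namespace TIND

theorem mem_boxE_of {R : ℕ} {e : Edg} (h1 : nm (src e) ≤ R) (h2 : nm (tgt e) ≤ R) :
    e ∈ boxE R := by
  obtain ⟨x, y, _ | _⟩ := e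
  · simp only [nm, src_mk, tgt_false, max_le_iff, abs_le] at h1 h2
    rw [boxE, mem_RE_false]
    omega
  · simp only [nm, src_mk, tgt_true, max_le_iff, abs_le] at h1 h2
    rw [boxE, mem_RE_true]
    omega

theorem CL_congr {k R : ℕ} {G G' : Set Edg} (h : ∀ e ∈ boxE R, e ∈ G → e ∈ G')
    {x y : Vtx × Bool} (hx : CL k R G x y) : CL k R G' x y := by
  cases hx with
  | edge e h1 h2 h3 => exact CL.edge e (h e (mem_boxE_of h2 h3) h1) h2 h3
  | idn v h1 h2 => exact CL.idn v h1 h2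

theorem SE_congr {k R : ℕ} {G G' : Set Edg} (h : ∀ e ∈ boxE R, (e ∈ G ↔ e ∈ G')) :
    SE k R G ↔ SE k R G' := by
  have e : CL k R G = CL k R G' := by
    funext x y
    apply propext
    exact ⟨CL_congr fun e he => (h e he).1, CL_congr fun e he => (h e he).2⟩
  unfold SE Cb
  rw [e]

/-- far from all the boxes -/
def Far (n R : ℕ) (e : Edg) : Prop :=
  ∀ s : ℤ, (R : ℤ) + 1 < |e.1 - s * n| ∨ (R : ℤ) + 1 < |e.2.1 - s * n|

theorem not_mem_image {n R : ℕ} {e : Edg}
    (he : ∀ s : ℤ, (R : ℤ) < |e.1 - s * n| ∨ (R : ℤ) < |e.2.1 - s * n|) :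
    red n e ∉ (boxE R).image (red n) := by
  intro h
  obtain ⟨e', he', h'⟩ := Finset.mem_image.1 h
  obtain ⟨x, y, b⟩ := e
  obtain ⟨x', y', b'⟩ := e'
  simp only [red, Prod.mk.injEq] at h'
  obtain ⟨h1, h2, h3⟩ := h'
  set K := (x + y) / (2 * (n : ℤ))
  set K' := (x' + y') / (2 * (n : ℤ))
  have h4 := he (K - K')
  have hx : -(R : ℤ) ≤ x' ∧ x' ≤ R := by
    cases b' <;> simp only [boxE, mem_RE_false, mem_RE_true] at he' <;> omega
  have hy : -(R : ℤ) ≤ y' ∧ y' ≤ R := by
    cases b' <;> simp only [boxE, mem_RE_false, mem_RE_true] at he' <;> omega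
  have e1 : x - (K - K') * n = x' := by linarith
  have e2 : y - (K - K') * n = y' := by linarith
  simp only [e1, e2] at h4
  rcases h4 with h4 | h4
  · exact absurd (abs_le.2 hx) (not_le.2 h4)
  · exact absurd (abs_le.2 hy) (not_le.2 h4)

theorem per_congr {n M R : ℕ} {F : Finset Edg} (hF : F ⊆ CE n M) {e : Edg}
    (he : ∀ s : ℤ, (R : ℤ) < |e.1 - s * n| ∨ (R : ℤ) < |e.2.1 - s * n|) :
    e ∈ per n F ↔ e ∈ per n (F ∩ (CE n M \ (boxE R).image (red n))) := by
  show red n e ∈ F ↔ red n e ∈ F ∩ (CE n M \ (boxE R).image (red n))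
  rw [Finset.mem_inter, Finset.mem_sdiff]
  exact ⟨fun h => ⟨h, hF h, not_mem_image he⟩, fun h => h.1⟩

theorem abs_shift {a b R : ℤ} (h : R + 1 < |a|) (hb : |b| ≤ 1) : R < |a + b| := by
  have := abs_sub_abs_le_abs_sub a (-b)
  rw [abs_neg, sub_neg_eq_add] at this
  linarith

theorem Cc_congr {c n M R : ℕ} {F : Finset Edg} (hF : F ⊆ CE n M) {e : Edg} (he : Far n R e) :
    e ∈ Cc c n M F ↔ e ∈ Cc c n M (F ∩ (CE n M \ (boxE R).image (red n))) := by
  unfold Cc
  simp only [Set.mem_setOf_eq]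
  split_ifs with hc
  · refine per_congr hF fun s => ?_
    rcases he s with h | h
    · left; linarith
    · right; linarith
  · have key : edz (e.1 + e.2.1 + 1) (dco e) ∈ per n F ↔
        edz (e.1 + e.2.1 + 1) (dco e) ∈ per n (F ∩ (CE n M \ (boxE R).image (red n))) := by
      refine per_congr hF fun s => ?_
      obtain ⟨x, y, _ | _⟩ := e
      · have e1 : edz (x + y + 1) (dco (x, y, false)) = (x, y + 1, true) := by
          simp only [edz, dco, Bool.false_eq_true, if_false]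
          rw [if_pos (by omega)]
          simp only [Prod.mk.injEq, and_true]
          omega
        simp only [e1]
        rcases he s with h | h
        · left
          simp only at h
          linarith
        · right
          simp only at h
          have := abs_shift h (b := 1) (by norm_num)
          rwa [show y + 1 - s * n = y - s * n + 1 by ring]
      · have e1 : edz (x + y + 1) (dco (x, y, true)) = (x + 1, y, false) := by
          simp only [edz, dco, if_true]
          rw [if_neg (by omega)]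
          simp only [Prod.mk.injEq, and_true]
          omega
        simp only [e1]
        rcases he s with h | h
        · left
          simp only at h
          have := abs_shift h (b := 1) (by norm_num)
          rwa [show x + 1 - s * n = x - s * n + 1 by ring]
        · right
          simp only at h
          linarith
    rw [key]

theorem reach_exit {F : Set Edg} {P : Vtx → Prop} {x y : Vtx} (h : Reach F x y) (hx : P x)
    (hy : ¬ P y) : ∃ z w : Vtx, P z ∧ ¬ P w ∧ Adj F z w ∧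
      Reach (F ∩ {e | P (src e) ∧ P (tgt e)}) x z := by
  induction h using Relation.ReflTransGen.head_induction_on with
  | refl => exact absurd hx hy
  | @head a b hab hby ih =>
    by_cases hb : P b
    · obtain ⟨z, w, h1, h2, h3, h4⟩ := ih hb
      refine ⟨z, w, h1, h2, h3, Relation.ReflTransGen.head ?_ h4⟩
      obtain ⟨e, he, h5⟩ := hab
      refine ⟨e, ⟨he, ?_⟩, h5⟩
      rcases h5 with ⟨rfl, rfl⟩ | ⟨rfl, rfl⟩
      · exact ⟨hx, hb⟩
      · exact ⟨hb, hx⟩
    · exact ⟨a, b, hx, hb, hab, Relation.ReflTransGen.refl⟩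

theorem adj_close {F : Set Edg} {z w : Vtx} (h : Adj F z w) :
    |z.1 - w.1| ≤ 1 ∧ |z.2 - w.2| ≤ 1 := by
  obtain ⟨⟨x, y, b⟩, _, h⟩ := h
  rcases h with ⟨rfl, rfl⟩ | ⟨rfl, rfl⟩ <;> cases b <;>
    simp only [src_mk, tgt_true, tgt_false, abs_le] <;> omega

theorem Crs_mono' {c1 c2 : ℤ} {ρ R : ℕ} (hρ : ρ < R) {G G' : Set Edg}
    (h : ∀ e : Edg, |e.1 - c1| ≤ R → |e.2.1 - c2| ≤ R → e ∈ G → e ∈ G')
    (hc : Crs c1 c2 ρ R G) : Crs c1 c2 ρ R G' := by
  obtain ⟨x, y, hx, hy, hr⟩ := hc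
  have hρ' : (ρ : ℤ) < R := by exact_mod_cast hρ
  obtain ⟨z, w, h1, h2, h3, h4⟩ := reach_exit (P := fun v => |v.1 - c1| < R ∧ |v.2 - c2| < R) hr
    (by
      obtain ⟨⟨a1, a2⟩, a3, a4⟩ := hx
      simp only [abs_lt]
      omega)
    (by
      simp only [abs_lt]
      omega)
  have hzw := adj_close h3
  refine ⟨x, w, hx, ?_, Relation.ReflTransGen.tail (Reach.mono ?_ h4) ?_⟩
  · simp only [abs_lt] at h2
    omega
  · rintro ⟨ex, ey, b⟩ ⟨he, h5, h6⟩
    simp only [src_mk] at h5
    exact h _ h5.1.le h5.2.le he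
  · obtain ⟨e, he, h5⟩ := h3
    refine ⟨e, ?_, h5⟩
    obtain ⟨ex, ey, b⟩ := e
    refine h _ ?_ ?_ he
    · rcases h5 with ⟨h5, h6⟩ | ⟨h5, h6⟩
      · rw [src_mk] at h5
        subst h5
        exact h1.1.le
      · rw [src_mk] at h5
        subst h5
        simp only [abs_lt, abs_le] at *
        omega
    · rcases h5 with ⟨h5, h6⟩ | ⟨h5, h6⟩
      · rw [src_mk] at h5
        subst h5
        exact h1.2.le
      · rw [src_mk] at h5
        subst h5
        simp only [abs_lt, abs_le] at *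
        omega

theorem H4_congr {d : Dir} {x0 y0 : ℤ} {l ρ : ℕ} {G G' : Set Edg}
    (h : ∀ e ∈ hbE d x0 y0 ρ, (e ∈ G ↔ e ∈ G')) :
    H4 d x0 y0 l ρ G ↔ H4 d x0 y0 l ρ G' := by
  have e : G ∩ ↑(hbE d x0 y0 ρ) = G' ∩ ↑(hbE d x0 y0 ρ) := by
    ext e
    simp only [Set.mem_inter_iff, Finset.mem_coe]
    exact ⟨fun h1 => ⟨(h e h1.2).1 h1.1, h1.2⟩, fun h1 => ⟨(h e h1.2).2 h1.1, h1.2⟩⟩
  unfold H4 H3g
  rw [e]

theorem hbE_close {d : Dir} {x0 y0 : ℤ} {ρ : ℕ} {e : Edg} (he : e ∈ hbE d x0 y0 ρ) :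
    |e.1 - x0| ≤ ρ ∧ |e.2.1 - y0| ≤ ρ := by
  obtain ⟨x, y, b⟩ := e
  cases d <;> cases b <;>
    simp only [hbE, mem_RE_false, mem_RE_true] at he <;> simp only [abs_le] <;> omega

theorem far_of {n R D A : ℕ} {x0 y0 : ℤ} {e : Edg} (hA : D + R + 1 < A)
    (h : ∀ s : ℤ, (A : ℤ) ≤ |x0 - s * n| ∨ (A : ℤ) ≤ |y0 - s * n|)
    (h1 : |e.1 - x0| ≤ D) (h2 : |e.2.1 - y0| ≤ D) : Far n R e := by
  intro s
  have hA' : (D : ℤ) + R + 1 < A := by exact_mod_cast hA
  rcases h s with h | h
  · left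
    have := abs_sub_abs_le_abs_sub (x0 - s * n) (x0 - e.1)
    rw [show x0 - s * n - (x0 - e.1) = e.1 - s * n by ring, abs_sub_comm x0 e.1] at this
    linarith
  · right
    have := abs_sub_abs_le_abs_sub (y0 - s * n) (y0 - e.2.1)
    rw [show y0 - s * n - (y0 - e.2.1) = e.2.1 - s * n by ring, abs_sub_comm y0 e.2.1] at this
    linarith

theorem Bad_mono' {c N r ρ l ν n M R : ℕ} (hn : n = ν * r) (hr : 0 < r) (hρ : 4 * ρ < r / 2)
    (h1 : r / 2 + R + 1 < N * r) (h2 : ρ + R + 1 < N * r - 1) {F F' : Finset Edg}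
    (h : ∀ e : Edg, Far n R e → (e ∈ Cc c n M F ↔ e ∈ Cc c n M F')) :
    Bad c N r ρ l ν n M F → Bad c N r ρ l ν n M F' := by
  rintro (⟨ζ, h3, h4, h5⟩ | ⟨d, x0, y0, i, j, h3, h4, h5, h6⟩)
  · left
    refine ⟨ζ, h3, h4, Crs_mono' hρ ?_ h5⟩
    intro e he1 he2 he3
    refine (h e (far_of h1 ?_ he1 he2)).1 he3
    intro s
    subst hn
    have hr' : (0 : ℤ) ≤ r := by positivity
    rcases h4 s with h4 | h4
    · left
      have : (r : ℤ) * ζ.1 - s * ((ν * r : ℕ) : ℤ) = r * (ζ.1 - s * ν) := by push_cast; ring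
      rw [this, abs_mul, abs_of_nonneg hr']
      push_cast
      nlinarith
    · right
      have : (r : ℤ) * ζ.2 - s * ((ν * r : ℕ) : ℤ) = r * (ζ.2 - s * ν) := by push_cast; ring
      rw [this, abs_mul, abs_of_nonneg hr']
      push_cast
      nlinarith
  · right
    refine ⟨d, x0, y0, i, j, h3, h4, h5, (H4_congr ?_).1 h6⟩
    intro e he
    obtain ⟨he1, he2⟩ := hbE_close he
    refine h e (far_of h2 ?_ he1 he2)
    intro s
    have e1 : ((N * r - 1 : ℕ) : ℤ) = (N : ℤ) * r - 1 := by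
      rw [Nat.cast_sub (by omega)]
      push_cast
      ring
    rw [e1]
    exact h4 s

end TIND

open TIND in
theorem t_IND : S_IND := by
  intro c N r ρ l ν k hc hN hν hr h1 hl h2
  set n : ℕ := ν * r with hndef
  set M : ℕ := 4 * n with hMdef
  set R : ℕ := N * r / 2 with hRdef
  have hP : 4 * r ≤ N * r := Nat.mul_le_mul_right r hN
  have hnP : 4 * (N * r) ≤ n := by
    rw [hndef]
    calc 4 * (N * r) = 4 * N * r := by ring
      _ ≤ ν * r := Nat.mul_le_mul_right r hν
  have hn : 0 < n := by omega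
  have hinj : Set.InjOn (red n) (boxE R : Set Edg) := by
    apply red_inj_x
    omega
  have himg : (boxE R).image (red n) ⊆ CE n M := by
    apply image_red_sub hn
    · omega
    · omega
  have hA : ∀ F, F ⊆ CE n M → (SE k R (per n F) ↔ SE k R (per n (F ∩ (boxE R).image (red n)))) := by
    intro F _
    apply SE_congr
    intro e he
    show red n e ∈ F ↔ red n e ∈ F ∩ (boxE R).image (red n)
    rw [Finset.mem_inter]
    exact ⟨fun h => ⟨h, Finset.mem_image_of_mem _ he⟩, fun h => h.1⟩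
  have hB : ∀ F, F ⊆ CE n M → (Bad c N r ρ l ν n M F ↔
      Bad c N r ρ l ν n M (F ∩ (CE n M \ (boxE R).image (red n)))) := by
    intro F hF
    have key : ∀ e : Edg, Far n R e → (e ∈ Cc c n M F ↔
      e ∈ Cc c n M (F ∩ (CE n M \ (boxE R).image (red n)))) := fun e he => Cc_congr hF he
    constructor
    · exact Bad_mono' hndef (by omega) (by omega) (by omega) (by omega) key
    · exact Bad_mono' hndef (by omega) (by omega) (by omega) (by omega)
        fun e he => (key e he).symm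
  have e1 : PC n M (fun F => SE k R (per n F) ∧ Bad c N r ρ l ν n M F) =
      PC n M (fun F => SE k R (per n F)) * PC n M (Bad c N r ρ l ν n M) :=
    Pr_indep himg Finset.sdiff_subset Finset.disjoint_sdiff hA hB
  have e2 : PC n M (fun F => SE k R (per n F)) = sP k R := by
    have e3 := Pr_red (q := 1 / 2) hinj himg (fun F => SE k R (↑F : Set Edg))
    unfold sP PC
    rw [← e3]
    apply Pr_congr
    intro F _
    apply SE_congr
    intro e he
    simp only [Finset.coe_filter, Set.mem_setOf_eq, he, true_and]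
    rfl
  have e4 : PC n M (fun F => SE k (N * r / 2 : ℕ) (per n F) ∧ Bad c N r ρ l ν n M F) =
      PC n M (fun F => SE k R (per n F) ∧ Bad c N r ρ l ν n M F) := rfl
  rw [e4, e1, e2]

end Pool.Agent.H160R2.MU
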