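import Pool.Agent.H160R2.MU.LAND4

/-! LAND: the clusters of the slit event land at separated cells (helper85). -/

set_option autoImplicit false

namespace Pool.Agent.H160R2.MU
open Pool.Agent.H863R2.Cyl
open Pool.Agent.H988R2.Perc (Word PD)
open Pool.Agent.H160R2.ML
open H974 H906.Cyl
open H12S (Dir hbE segD rimE H4 Crs Nr sqE)

namespace TLAND

theorem out_half {R b : ℕ} (hR : 64 * b ≤ R) (hR0 : 1 ≤ R) {d : Dir} {x : ℤ} (hx : |x| + b ≤ R)
    {e : Edg} (he : e ∈ hbE d (ctr d R x).1 (ctr d R x).2 b) :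
    e ∈ boxE R \ boxE (R / 2) := by
  have h := hbE_ends hx e he
  rw [Finset.mem_sdiff]
  refine ⟨TIND.mem_boxE_of h.1.2 h.2.2, fun h2 => ?_⟩
  have h3 : nm (src e) ≤ ((R / 2 : ℕ) : ℤ) := by
    rw [nm_le]
    obtain ⟨p, q, _ | _⟩ := e
    · rw [boxE, mem_RE_false] at h2
      simp only [src]
      omega
    · rw [boxE, mem_RE_true] at h2
      simp only [src]
      omega
  omega

theorem bad_mono {r l ρ R : ℕ} {G G' : Set Edg} (hr : 1 ≤ r) (hrl : 64 * r ≤ l)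
    (hlρ : 64 * l ≤ ρ) (hρ : 64 * ρ ≤ R)
    (h : ∀ e : Edg, e ∉ boxE (R / 2) → (e ∈ G ↔ e ∈ G')) (hB : BadL r l ρ R G) :
    BadL r l ρ R G' := by
  rcases hB with ⟨s1, s2, hc⟩ | ⟨d, i, h1, h2⟩ | ⟨d, i, h1, h2⟩
  · refine Or.inl ⟨s1, s2, TIND.Crs_mono' (by omega) ?_ hc⟩
    intro e he1 _ he3
    refine (h e fun h2 => ?_).1 he3
    have hs : sg s1 (R : ℤ) = R ∨ sg s1 (R : ℤ) = -R := by cases s1 <;> simp [sg]
    rw [abs_le] at he1
    obtain ⟨p, q, _ | _⟩ := e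
    · rw [boxE, mem_RE_false] at h2
      simp only at he1
      rcases hs with hs | hs <;> rw [hs] at he1 <;> omega
    · rw [boxE, mem_RE_true] at h2
      simp only at he1
      rcases hs with hs | hs <;> rw [hs] at he1 <;> omega
  · refine Or.inr (Or.inl ⟨d, i, h1, (TIND.H4_congr fun e he => h e ?_).1 h2⟩)
    exact (Finset.mem_sdiff.1 (out_half (by omega) (by omega) h1 he)).2
  · refine Or.inr (Or.inr ⟨d, i, h1, (TIND.H4_congr fun e he => h e ?_).1 h2⟩)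
    exact (Finset.mem_sdiff.1 (out_half (by omega) (by omega) h1 he)).2

end TLAND

open TLAND in
theorem t_LAND : S_LAND := by
  classical
  intro k hk δ hδ
  obtain ⟨N, A, B, hN, hA, hB, hN2, hN3, hP⟩ := prob k δ hδ
  -- the constant `ρ` in units of `r` is at most `N / 64`
  refine ⟨N, hN, ((Fintype.piFinset (fun _ : Fin k =>
    Finset.range 4 ×ˢ Finset.Ico (-(N : ℤ)) N)).filter (Adm N k)),
    fun c hc => (Finset.mem_filter.1 hc).2, 1, ?_⟩
  intro r hr
  set Cs := ((Fintype.piFinset (fun _ : Fin k =>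
    Finset.range 4 ×ˢ Finset.Ico (-(N : ℤ)) N)).filter (Adm N k)) with hCs
  set l := A * r with hl
  set ρ := B * (A * r) with hρ
  have h1 : 64 * r ≤ l := Nat.mul_le_mul_right r hA
  have h2 : 64 * l ≤ ρ := Nat.mul_le_mul_right _ hB
  have h3 : 64 * ρ ≤ N * r := by
    calc 64 * ρ = 64 * (B * A) * r := by rw [hρ]; ring
      _ ≤ N * r := Nat.mul_le_mul_right r hN2
  have h4 : 64 * k ≤ N * r := by
    calc 64 * k ≤ N := hN3
      _ = N * 1 := (mul_one N).symm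
      _ ≤ N * r := Nat.mul_le_mul_left N hr
  have hcov : sP k (N * r) ≤ Pr (fun _ => (1 / 2 : ℝ)) (boxE (N * r)) (fun F =>
      (SE k (N * r / 2 : ℕ) (↑F : Set Edg) ∧ BadL r l ρ (N * r) (↑F : Set Edg)) ∨
      ∃ c ∈ Cs, Land N r k c (↑F : Set Edg)) := by
    unfold sP
    refine Pr_mono ok2 fun F _ hF => ?_
    by_cases hb : BadL r l ρ (N * r) (↑F : Set Edg)
    · exact Or.inl ⟨TMON.se_mono hk (by omega) (Nat.div_le_self _ _) hF, hb⟩
    · right
      obtain ⟨c, hc, hc'⟩ := det hk hr h1 h2 h3 h4 hb hF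
      refine ⟨c, ?_, hc'⟩
      rw [hCs, Finset.mem_filter, Fintype.mem_piFinset]
      refine ⟨fun a => ?_, hc⟩
      have := hc.1 a
      rw [Finset.mem_product, Finset.mem_range, Finset.mem_Ico]
      exact this
  have hind : Pr (fun _ => (1 / 2 : ℝ)) (boxE (N * r)) (fun F =>
      (SE k (N * r / 2 : ℕ) (↑F : Set Edg) ∧ BadL r l ρ (N * r) (↑F : Set Edg))) =
      Pr (fun _ => (1 / 2 : ℝ)) (boxE (N * r)) (fun F => SE k (N * r / 2 : ℕ) (↑F : Set Edg)) *
      Pr (fun _ => (1 / 2 : ℝ)) (boxE (N * r)) (fun F => BadL r l ρ (N * r) (↑F : Set Edg)) := by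
    refine Pr_indep (S := boxE (N * r / 2)) (T := boxE (N * r) \ boxE (N * r / 2))
      (TMON.box_mono (Nat.div_le_self _ _)) Finset.sdiff_subset Finset.disjoint_sdiff
      (fun F _ => TMON.se_local F) (fun F hF => ?_)
    have key : ∀ e : Edg, e ∉ boxE (N * r / 2) →
        (e ∈ (↑F : Set Edg) ↔ e ∈ (↑(F ∩ (boxE (N * r) \ boxE (N * r / 2))) : Set Edg)) := by
      intro e he
      rw [Finset.mem_coe, Finset.mem_coe, Finset.mem_inter, Finset.mem_sdiff]
      exact ⟨fun h => ⟨h, hF h, he⟩, fun h => h.1⟩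
    exact ⟨bad_mono hr h1 h2 h3 key, bad_mono hr h1 h2 h3 fun e he => (key e he).symm⟩
  have hsp : Pr (fun _ => (1 / 2 : ℝ)) (boxE (N * r))
      (fun F => SE k (N * r / 2 : ℕ) (↑F : Set Edg)) = sP k (N * r / 2) :=
    Pr_local (TMON.box_mono (Nat.div_le_self _ _)) fun F _ => TMON.se_local F
  have hsp0 : 0 ≤ sP k (N * r / 2) := Pr_nonneg ok2 _ _
  refine hcov.trans ((Pr_or_le ok2 _ _ _).trans (add_le_add ?_ (Pr_exists_le ok2 _ _ _)))
  rw [hind, hsp, mul_comm]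
  exact mul_le_mul_of_nonneg_right (hP r hr) hsp0

end Pool.Agent.H160R2.MU
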