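import Pool.Agent.H160R2.MU.Defs
import Pool.Agent.H160R2.ML.T_C5
import Pool.Agent.H863R2.Cyl.Markov

/-!
# Task LB: the lower bound for the slit event
-/

set_option autoImplicit false

namespace Pool.Agent.H160R2.MU
open Pool.Agent.H863R2.Cyl
open Pool.Agent.H988R2.Perc (Word PD)
open Pool.Agent.H160R2.ML
open H974 H906.Cyl
open H12S (Dir hbE segD rimE H4 Crs Nr sqE)

namespace TLB
open Finset

/-- the slit event depends only on the edges of the box -/
theorem edge_box {R : ℕ} {e : Edg} (h1 : nm (src e) ≤ R) (h2 : nm (tgt e) ≤ R) : e ∈ boxE R := by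
  obtain ⟨x, y, _ | _⟩ := e
  · simp only [nm, src, tgt, Bool.false_eq_true, if_false, max_le_iff, abs_le] at h1 h2
    unfold boxE
    rw [mem_RE_false]
    omega
  · simp only [nm, src, tgt, if_true, max_le_iff, abs_le] at h1 h2
    unfold boxE
    rw [mem_RE_true]
    omega

theorem CL_congr {k R : ℕ} {G G' : Set Edg} (h : ∀ e ∈ boxE R, e ∈ G ↔ e ∈ G')
    (x y : Vtx × Bool) : CL k R G x y ↔ CL k R G' x y := by
  constructor
  · rintro (⟨e, he, h1, h2⟩ | ⟨v, h1, h2⟩)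
    · exact CL.edge e ((h e (edge_box h1 h2)).1 he) h1 h2
    · exact CL.idn v h1 h2
  · rintro (⟨e, he, h1, h2⟩ | ⟨v, h1, h2⟩)
    · exact CL.edge e ((h e (edge_box h1 h2)).2 he) h1 h2
    · exact CL.idn v h1 h2

theorem SE_congr {k R : ℕ} {G G' : Set Edg} (h : ∀ e ∈ boxE R, e ∈ G ↔ e ∈ G') :
    SE k R G ↔ SE k R G' := by
  have h1 : CL k R G = CL k R G' := by
    funext x y
    exact propext (CL_congr h x y)
  unfold SE Cb
  rw [h1]

theorem plane {n k m : ℕ} (h1 : 1 ≤ m) (hn : 4 * m ≤ n) {M : ℕ} (hM : 2 * m ≤ M) :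
    Pr (fun _ => (1/2 : ℝ)) (CE n M) (fun F => SE k m (per n F)) = sP k m := by
  unfold sP
  rw [← Pr_red (n := n) (q := 1/2) (S := CE n M) (B := boxE m)
    (by unfold boxE; exact red_inj_x (by omega))
    (by unfold boxE; exact image_red_sub (by omega) (by push_cast; omega) (by push_cast; omega))
    (fun F => SE k m (↑F : Set Edg))]
  apply Pr_congr
  intro F _
  apply SE_congr
  intro e he
  rw [Finset.mem_coe, Finset.mem_filter]
  constructor
  · intro h3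
    exact ⟨he, h3⟩
  · rintro ⟨-, h3⟩
    exact h3

end TLB

theorem t_LB : S_DEC → S_G → ML.S_PB → ML.S_FA → ML.S_PH → S_LB := by
  classical
  intro hDEC hG hPB hFA hPH k hk
  have hk1 : 1 ≤ k := by omega
  obtain ⟨c, C, hc, -, hFA⟩ := hFA k hk1
  set e : ℝ := (4 * (k : ℝ) ^ 2 - 1) / 12 with he
  refine ⟨c * (4 : ℝ) ^ (-e), by positivity, fun m hm => ?_⟩
  have hm1 : 1 ≤ m := hk1.trans hm
  obtain ⟨μ, hμ0, hμ1, hst, -, -⟩ := markov_exists (2 * (4 * m) - 1)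
  have h1 := hPB (4 * m) k (by omega) hk1 (by omega) μ hμ0 hμ1 hst
  have h2 := (hFA (4 * m) (by omega)).1
  have h3 : 0 < RR (2 * (4 * m)) 0 (Real.pi / 3) :=
    (hPH _ _ _ (by positivity) (by linarith [Real.pi_pos])).1
  rw [← h1] at h2
  have h4 := le_of_mul_le_mul_right h2 h3
  have h5 : ((4 * m : ℕ) : ℝ) ^ (-e) = (4 : ℝ) ^ (-e) * (m : ℝ) ^ (-e) := by
    rw [Nat.cast_mul, Real.mul_rpow (by positivity) (by positivity)]
    norm_num
  have h6 : c * (4 : ℝ) ^ (-e) * (m : ℝ) ^ (-e) = c * ((4 * m : ℕ) : ℝ) ^ (-e) := by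
    rw [h5]; ring
  rw [h6]
  refine h4.trans ?_
  -- comparison with the plane
  have hn0 : 0 < 4 * m := by omega
  have e1 : ∑ σ, ∑ τ, (if Good k k τ.1 σ.1 then 1 else 0) * μ σ * μ τ =
      ∑ σ, ∑ τ, μ σ * μ τ * ind (Good k k τ.1 σ.1) := by
    apply Finset.sum_congr rfl
    intro σ _
    apply Finset.sum_congr rfl
    intro τ _
    by_cases hg : Good k k τ.1 σ.1
    · rw [if_pos hg, ind_of hg]; ring
    · rw [if_neg hg, ind_not_of hg]; ring
  rw [e1, ML.TC5.avg_eq hn0 (2 * m) μ hst (fun σ τ => ind (Good k k τ.1 σ.1)),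
    ← TLB.plane (k := k) hm1 (n := 4 * m) (M := 2 * m) le_rfl le_rfl, Pr_half]
  apply mul_le_mul_of_nonneg_left _ (by positivity)
  apply Finset.sum_le_sum
  intro F hF
  have hF' : F ⊆ CE (4 * m) (2 * m) := Finset.mem_powerset.1 hF
  refine avg_le μ hμ0 hμ1 (fun σ τ => Good k k (rows (2 * (4 * m) - 1) (up (4 * m) (2 * m) F) (2 * m) τ).1
    (rows (2 * (4 * m) - 1) (dn (4 * m) (2 * m) F) (2 * m) σ).1) _ (fun σ τ hg => ?_)
  have h7 : PG 0 (4 * m) (2 * m) k (Ac 0 (4 * m) (2 * m) F) τ.1 σ.1 :=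
    (hG 0 (4 * m) (2 * m) k (by norm_num) (by omega) hk (by omega) F hF' σ τ).1 hg
  have h8 : Ac 0 (4 * m) (2 * m) F = (↑F : Set Edg) := by
    ext x
    unfold Ac
    rw [Set.mem_ofPred_eq]
    constructor
    · rintro ⟨-, h⟩
      exact h.2 rfl
    · intro h
      exact ⟨hF' h, ⟨fun _ => rfl, fun _ => h⟩⟩
  rw [h8] at h7
  exact hDEC (4 * m) (2 * m) k m hk hm le_rfl le_rfl F F hF' hF' (fun _ _ => Iff.rfl) τ.1 σ.1 h7

end Pool.Agent.H160R2.MU
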