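import Pool.Agent.H160R2.MU.T_EXI

/-!
# Task LIF (helper514)
-/

set_option autoImplicit false

namespace Pool.Agent.H160R2.MU
open Pool.Agent.H863R2.Cyl
open Pool.Agent.H988R2.Perc (Word PD)
open Pool.Agent.H160R2.ML
open H974 H906.Cyl
open H12S (Dir hbE segD rimE H4 Crs Nr sqE)

namespace TLIF
open TEXI

/-- two points of class `c` with the same image in the plane -/
theorem same {c n M k : ℕ} (hc : c < 2) (hn : 1 ≤ n) (hk : k ≤ 2 * n) (A : Set Edg) (τ σ : Word)
    {x y : Pt} (hx : Cls M c x) (hy : Cls M c y) (h : vx M x = vx M y)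
    (hav : ∀ s : ℤ, ¬ ((vx M x).1 = (vx M x).2 ∧ s * n - 1 ≤ (vx M x).1 ∧
      (vx M x).1 ≤ s * n + k)) :
    RB c n M k A τ σ x y := by
  have cx := cls_dd hx
  have cy := cls_dd hy
  rw [vx_eq M x hx.2] at h hav
  rw [vx_eq M y hy.2] at h
  simp only [Prod.mk.injEq] at h hav
  obtain ⟨h1, h2⟩ := h
  have hJ : x.1.1 = y.1.1 := by omega
  have hD : dd M x = dd M y := by omega
  have tx := hx.2
  have ty := hy.2
  obtain ⟨⟨j, t⟩, β⟩ := x
  obtain ⟨⟨j', t'⟩, β'⟩ := y
  simp only [] at hJ tx ty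
  subst hJ
  by_cases hβ : β = β'
  · subst hβ
    have : t = t' := by
      unfold dd at hD
      simp only [] at hD
      split_ifs at hD <;> omega
    subst this
    exact Relation.EqvGen.refl _
  · have ht : t = M ∧ t' = M ∧ dd M ((j, t), β) = 0 := by
      unfold dd at hD ⊢
      simp only [] at hD ⊢
      cases β <;> cases β' <;> simp at hD hβ ⊢ <;> omega
    obtain ⟨e1, e2, e3⟩ := ht
    subst e1
    subst e2
    have g : RB c n t' k A τ σ ((j, t'), false) ((j, t'), true) := by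
      have hs := hav (j / (2 * n : ℤ))
      rw [e3] at hs
      simp only [add_zero, sub_zero, true_and] at hs
      have d1 := Int.mul_ediv_add_emod j (2 * n : ℤ)
      have d2 := Int.emod_nonneg j (b := (2 * n : ℤ)) (by omega)
      have d3 := Int.emod_lt_of_pos j (b := (2 * n : ℤ)) (by omega)
      have d4 : (2 * (n : ℤ)) * (j / (2 * n : ℤ)) = 2 * (j / (2 * n : ℤ) * n) := by ring
      have hρ : (k : ℤ) ≤ j % (2 * n : ℤ) := by
        by_contra hcon
        push Not at hcon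
        apply hs
        constructor <;> omega
      obtain ⟨i, hi⟩ := Int.eq_ofNat_of_zero_le (sub_nonneg.2 hρ)
      have hj : j = j / (2 * n : ℤ) * (2 * n : ℕ) + k + i := by
        have : j / (2 * n : ℤ) * (2 * n : ℕ) = (2 * (n : ℤ)) * (j / (2 * n : ℤ)) := by
          push_cast; ring
        rw [this]
        omega
      have hik : i + k ≤ 2 * n := by omega
      have := Gl.glue (n := n) (M := t') (k := k) (j / (2 * n : ℤ)) i hik
      rw [← hj] at this
      exact Relation.EqvGen.rel _ _ (Or.inr (Or.inl this))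
    cases β <;> cases β' <;> simp at hβ
    · exact g
    · exact g.symm

theorem exists_Dg {n M c : ℕ} {e : Edg} (q : ℤ) (h1 : -(M : ℤ) ≤ dco e) (h2 : dco e < M) :
    ∃ A B : Pt, Dg n M c e A B ∧
      A.1.2 ≤ M ∧ B.1.2 ≤ M ∧ dd M A = dco e ∧ dd M B = dco e + 1 ∧
      (((e.1 + e.2.1 + q * (2 * n : ℕ) + dco e) % 2 = c ∧ A.1.1 = e.1 + e.2.1 + q * (2 * n : ℕ) ∧
        B.1.1 = e.1 + e.2.1 + q * (2 * n : ℕ) + 1) ∨
       ((e.1 + e.2.1 + q * (2 * n : ℕ) + dco e) % 2 ≠ c ∧
        A.1.1 = e.1 + e.2.1 + q * (2 * n : ℕ) + 1 ∧ B.1.1 = e.1 + e.2.1 + q * (2 * n : ℕ))) := by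
  have hq : (e.1 + e.2.1 + q * (2 * n : ℕ) + dco e) % 2 = (e.1 + e.2.1 + dco e) % 2 := by
    have : e.1 + e.2.1 + q * (2 * n : ℕ) + dco e = (e.1 + e.2.1 + dco e) + 2 * (q * n) := by
      push_cast; ring
    rw [this, Int.add_mul_emod_self_left]
  by_cases hd : dco e < 0
  · obtain ⟨t, ht⟩ := Int.eq_ofNat_of_zero_le (by omega : 0 ≤ dco e + M)
    by_cases hp : (e.1 + e.2.1 + dco e) % 2 = c
    · refine ⟨_, _, Dg.lrise q t (by omega) hd hp, ?_, ?_, ?_, ?_,
        Or.inl ⟨by rw [hq]; exact hp, rfl, rfl⟩⟩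
      · simp only []; omega
      · simp only []; omega
      · simp only [dd]; simp; omega
      · simp only [dd]; simp; omega
    · refine ⟨_, _, Dg.lfall q t (by omega) hd hp, ?_, ?_, ?_, ?_,
        Or.inr ⟨by rw [hq]; exact hp, rfl, rfl⟩⟩
      · simp only []; omega
      · simp only []; omega
      · simp only [dd]; simp; omega
      · simp only [dd]; simp; omega
  · obtain ⟨t, ht⟩ := Int.eq_ofNat_of_zero_le (by omega : 0 ≤ M - 1 - dco e)
    by_cases hp : (e.1 + e.2.1 + dco e) % 2 = c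
    · refine ⟨_, _, Dg.urise q t (by omega) (by omega) hp, ?_, ?_, ?_, ?_,
        Or.inl ⟨by rw [hq]; exact hp, rfl, rfl⟩⟩
      · simp only []; omega
      · simp only []; omega
      · simp only [dd]; simp; omega
      · simp only [dd]; simp; omega
    · refine ⟨_, _, Dg.ufall q t (by omega) (by omega) hp, ?_, ?_, ?_, ?_,
        Or.inr ⟨by rw [hq]; exact hp, rfl, rfl⟩⟩
      · simp only []; omega
      · simp only []; omega
      · simp only [dd]; simp; omega
      · simp only [dd]; simp; omega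

theorem Cls_of_dd {M c : ℕ} {x : Pt} (h : (x.1.1 + dd M x) % 2 = c) (h2 : x.1.2 ≤ M) :
    Cls M c x := by
  refine ⟨?_, h2⟩
  unfold dd at h
  split_ifs at h <;> omega

/-- lifting an edge of the planar configuration -/
theorem lift {c n M : ℕ} (hc : c < 2) (hn : 1 ≤ n) {F : Finset Edg} (hF : F ⊆ CE n M) {e' : Edg}
    (he' : e' ∈ Cc c n M F) :
    ∃ A B : Pt, Cls M c A ∧ Cls M c B ∧ (∃ e ∈ Ac c n M F, Dg n M c e A B) ∧
      ((src e' = vx M A ∧ tgt e' = vx M B) ∨ (src e' = vx M B ∧ tgt e' = vx M A)) := by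
  have hn2 : (0 : ℤ) < 2 * n := by omega
  set S : ℤ := e'.1 + e'.2.1 + c with hS
  set d : ℤ := dco e' with hd
  set q : ℤ := S / (2 * n : ℤ) with hqd
  have d1 := Int.mul_ediv_add_emod S (2 * n : ℤ)
  have d2 := Int.emod_nonneg S (b := (2 * n : ℤ)) (by omega)
  have d3 := Int.emod_lt_of_pos S (b := (2 * n : ℤ)) (by omega)
  have hSq : S = S % (2 * n : ℤ) + q * (2 * n : ℕ) := by
    have : q * (2 * n : ℕ) = (2 * (n : ℤ)) * (S / (2 * n : ℤ)) := by
      rw [hqd]; push_cast; ring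
    rw [this]
    omega
  set e : Edg := edz (S % (2 * n : ℤ)) d with he
  have es : e.1 + e.2.1 = S % (2 * n : ℤ) := edz_sum _ _
  have ed : dco e = d := edz_dco _ _
  have hred : red n (edz S d) = e := by
    rw [hSq, red_lift hn d2 d3]
  have hmem : e ∈ Ac c n M F := by
    unfold Cc at he'
    change (if c = 0 then e' ∈ per n F else
      -(M : ℤ) ≤ dco e' ∧ dco e' < M ∧ edz (e'.1 + e'.2.1 + 1) (dco e') ∉ per n F) at he'
    by_cases h0 : c = 0
    · rw [if_pos h0] at he'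
      have h1 : red n e' = e := by
        have : edz S d = e' := by
          rw [hS, hd, h0]
          have : e'.1 + e'.2.1 + ((0 : ℕ) : ℤ) = e'.1 + e'.2.1 := by simp
          rw [this, edz_of]
        rw [← this]; exact hred
      have h2 : e ∈ F := by rw [← h1]; exact he'
      exact ⟨hF h2, ⟨fun _ => h0, fun _ => h2⟩⟩
    · rw [if_neg h0] at he'
      obtain ⟨a1, a2, a3⟩ := he'
      have hc1 : (c : ℤ) = 1 := by omega
      have h1 : e ∉ F := by
        intro h
        apply a3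
        show red n _ ∈ F
        rw [← hc1, ← hS, ← hd, hred]
        exact h
      refine ⟨mem_CE.2 ⟨?_, ?_⟩, ⟨fun h => absurd h h1, fun h => absurd h h0⟩⟩
      · rw [es]; exact ⟨d2, d3⟩
      · rw [ed]; exact ⟨a1, a2⟩
  obtain ⟨⟨b1, b2⟩, b3, b4⟩ := mem_CE.1 hmem.1
  obtain ⟨A, B, hD, hA, hB, dA, dB, hcase⟩ := exists_Dg (n := n) (c := c) q b3 b4
  have hends := ends hc hA hB dA dB hcase
  rw [es, ed, ← hSq] at hends
  have hSc : S - c = e'.1 + e'.2.1 := by rw [hS]; ring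
  rw [hSc, hd, edz_of] at hends
  refine ⟨A, B, Cls_of_dd ?_ hA, Cls_of_dd ?_ hB, ⟨e, hmem, hD⟩, hends⟩
  · rw [dA]
    rcases hcase with ⟨h1, h2, h3⟩ | ⟨h1, h2, h3⟩
    · rw [h2]; exact h1
    · rw [h2]; omega
  · rw [dB]
    rcases hcase with ⟨h1, h2, h3⟩ | ⟨h1, h2, h3⟩
    · rw [h3]; omega
    · rw [h3]; omega

end TLIF

open TLIF in
theorem t_LIF : S_LIF := by
  intro c n M k hc hn hk F hF τ σ x y P hx hy hP hPx hR
  have inv : ∀ v : Vtx, Reach (Cc c n M F ∩ {e | P (src e) ∧ P (tgt e)}) (vx M x) v →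
      P v ∧ ∃ z : Pt, Cls M c z ∧ vx M z = v ∧ RB c n M k (Ac c n M F) τ σ x z := by
    intro v hv
    induction hv with
    | refl => exact ⟨hPx, x, hx, rfl, Relation.EqvGen.refl _⟩
    | @tail b v' _ hbc ih =>
      obtain ⟨hPb, z, hz, hzb, hzR⟩ := ih
      obtain ⟨e', ⟨he', hPe⟩, hadj⟩ := hbc
      obtain ⟨A, B, hA, hB, hlink, hab⟩ := lift hc hn hF he'
      have hAB : RB c n M k (Ac c n M F) τ σ A B := Relation.EqvGen.rel _ _ (Or.inr (Or.inr hlink))
      have hPv' : P v' := by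
        rcases hadj with ⟨h1, h2⟩ | ⟨h1, h2⟩
        · rw [← h2]; exact hPe.2
        · rw [← h1]; exact hPe.1
      refine ⟨hPv', ?_⟩
      -- the end of the link over `b` and the end over `v'`
      have key : ∀ A B : Pt, Cls M c A → Cls M c B → RB c n M k (Ac c n M F) τ σ A B →
          vx M A = b → vx M B = v' →
          ∃ z : Pt, Cls M c z ∧ vx M z = v' ∧ RB c n M k (Ac c n M F) τ σ x z := by
        intro A B hA hB hAB hAb hBv
        refine ⟨B, hB, hBv, (hzR.trans _ _ _ ?_).trans _ _ _ hAB⟩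
        exact same hc hn hk _ τ σ hz hA (hzb.trans hAb.symm) (by rw [hzb]; exact (hP b hPb).2)
      rcases hadj with ⟨h1, h2⟩ | ⟨h1, h2⟩ <;> rcases hab with ⟨g1, g2⟩ | ⟨g1, g2⟩
      · exact key A B hA hB hAB (g1.symm.trans h1) (g2.symm.trans h2)
      · exact key B A hB hA hAB.symm (g1.symm.trans h1) (g2.symm.trans h2)
      · exact key B A hB hA hAB.symm (g2.symm.trans h2) (g1.symm.trans h1)
      · exact key A B hA hB hAB (g2.symm.trans h2) (g1.symm.trans h1)
  obtain ⟨hPy, z, hz, hzy, hzR⟩ := inv _ hR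
  exact hzR.trans _ _ _ (same hc hn hk _ τ σ hz hy hzy (by rw [hzy]; exact (hP _ hPy).2))

end Pool.Agent.H160R2.MU
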