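import Pool.Agent.H160R2.MU.Defs

/-!
# MON: monotonicity of the probability of the slit event
-/

set_option autoImplicit false

namespace Pool.Agent.H160R2.MU
open Pool.Agent.H863R2.Cyl
open Pool.Agent.H988R2.Perc (Word PD)
open Pool.Agent.H160R2.ML
open H974 H906.Cyl
open H12S (Dir hbE segD rimE H4 Crs Nr sqE)

namespace TMON

theorem nm_le_iff (v : Vtx) (c : ℤ) : nm v ≤ c ↔ (-c ≤ v.1 ∧ v.1 ≤ c) ∧ (-c ≤ v.2 ∧ v.2 ≤ c) := by
  unfold nm
  rw [max_le_iff, abs_le, abs_le]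

theorem nm_tgt_le (e : Edg) : nm (tgt e) ≤ nm (src e) + 1 := by
  have h := (nm_le_iff (src e) _).1 le_rfl
  rw [nm_le_iff]
  rcases e with ⟨x, y, b⟩
  cases b
  · simp only [src, tgt] at h ⊢
    simp
    omega
  · simp only [src, tgt] at h ⊢
    simp
    omega

theorem nm_src_le (e : Edg) : nm (src e) ≤ nm (tgt e) + 1 := by
  have h := (nm_le_iff (tgt e) _).1 le_rfl
  rw [nm_le_iff]
  rcases e with ⟨x, y, b⟩
  cases b
  · have e1 : tgt (x, y, false) = (x, y + 1) := rfl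
    rw [e1] at h ⊢
    simp only [src] at h ⊢
    omega
  · have e1 : tgt (x, y, true) = (x + 1, y) := rfl
    rw [e1] at h ⊢
    simp only [src] at h ⊢
    omega

theorem cl_mono {k : ℕ} {R R' : ℤ} (h : R ≤ R') {G : Set Edg} {x y : Vtx × Bool}
    (hxy : CL k R G x y) : CL k R' G x y := by
  cases hxy with
  | edge e he h1 h2 => exact CL.edge e he (h1.trans h) (h2.trans h)
  | idn v h1 h2 => exact CL.idn v (h1.trans h) h2

theorem cb_mono {k : ℕ} {R R' : ℤ} (h : R ≤ R') {G : Set Edg} {x y : Vtx × Bool}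
    (hxy : Cb k R G x y) : Cb k R' G x y := by
  have h1 : Relation.EqvGen (CL k R G) ≤ Relation.EqvGen (CL k R' G) :=
    Relation.EqvGen.mono fun _ _ h' => cl_mono h h'
  exact h1 x y hxy

theorem cl_step {k : ℕ} {R R' : ℤ} {G : Set Edg} {x y : Vtx × Bool}
    (hxy : CL k R' G x y) : (nm x.1 < R → CL k R G x y ∧ nm y.1 ≤ R) ∧
      (nm y.1 < R → CL k R G x y ∧ nm x.1 ≤ R) := by
  cases hxy with
  | edge e he h1 h2 =>
    have h3 := nm_tgt_le e
    have h4 := nm_src_le e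
    refine ⟨fun h => ?_, fun h => ?_⟩
    · have h' : nm (src e) < R := h
      have h5 : nm (tgt e) ≤ R := by omega
      exact ⟨CL.edge e he h'.le h5, h5⟩
    · have h' : nm (tgt e) < R := h
      have h5 : nm (src e) ≤ R := by omega
      exact ⟨CL.edge e he h5 h'.le, h5⟩
  | idn v h1 h2 =>
    refine ⟨fun h => ?_, fun h => ?_⟩
    · have h' : nm v < R := h
      exact ⟨CL.idn v h'.le h2, h'.le⟩
    · have h' : nm v < R := h
      exact ⟨CL.idn v h'.le h2, h'.le⟩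

/-- first passage -/
theorem pass {k : ℕ} {R R' : ℤ} {G : Set Edg} {x y : Vtx × Bool} (hx : nm x.1 < R)
    (h : Cb k R' G x y) (hy : R ≤ nm y.1) : ∃ z : Vtx × Bool, nm z.1 = R ∧ Cb k R G x z := by
  by_contra h0
  have h1 : ∀ z : Vtx × Bool, nm z.1 = R → ¬ Cb k R G x z := fun z hz hc => h0 ⟨z, hz, hc⟩
  have key : ∀ a b, Cb k R' G a b →
      ((nm a.1 < R ∧ Cb k R G x a) ↔ (nm b.1 < R ∧ Cb k R G x b)) := by
    intro a b hab
    induction hab with
    | rel a b hab =>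
      constructor
      · rintro ⟨ha, hxa⟩
        obtain ⟨h2, h3⟩ := (cl_step hab).1 ha
        have h4 : Cb k R G x b := Relation.EqvGen.trans _ _ _ hxa (Relation.EqvGen.rel _ _ h2)
        exact ⟨lt_of_le_of_ne h3 fun h5 => h1 b h5 h4, h4⟩
      · rintro ⟨hb, hxb⟩
        obtain ⟨h2, h3⟩ := (cl_step hab).2 hb
        have h4 : Cb k R G x a := Relation.EqvGen.trans _ _ _ hxb
          (Relation.EqvGen.symm _ _ (Relation.EqvGen.rel _ _ h2))
        exact ⟨lt_of_le_of_ne h3 fun h5 => h1 a h5 h4, h4⟩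
    | refl a => exact Iff.rfl
    | symm a b _ ih => exact ih.symm
    | trans a b c _ _ ih1 ih2 => exact ih1.trans ih2
  have h2 := ((key x y h).1 ⟨hx, Relation.EqvGen.refl x⟩).1
  omega

theorem sv_nm {k i : ℕ} (hk : 2 ≤ k) (hi : i < 2 * k) : nm (sv k i).1 < k := by
  have h : nm (sv k i).1 ≤ (k : ℤ) - 1 := by
    rw [nm_le_iff]
    unfold sv
    split_ifs with h
    · simp only
      omega
    · simp only
      omega
  omega

theorem se_mono {k R R' : ℕ} (hk : 2 ≤ k) (hkR : k ≤ R) (hR : R ≤ R') {G : Set Edg}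
    (h : SE k (R' : ℤ) G) : SE k (R : ℤ) G := by
  have hR' : (R : ℤ) ≤ R' := by exact_mod_cast hR
  refine ⟨fun i j hi hj hi2 hj2 hij hc => h.1 i j hi hj hi2 hj2 hij (cb_mono hR' hc),
    fun i hi hi2 => ?_⟩
  obtain ⟨y, β, hy, hc⟩ := h.2 i hi hi2
  have h1 := sv_nm hk hi
  obtain ⟨z, hz1, hz2⟩ := pass (R := (R : ℤ)) (by omega) hc (by
    show (R : ℤ) ≤ nm y
    omega)
  exact ⟨z.1, z.2, hz1, hz2⟩

theorem cb_congr {k : ℕ} {R : ℤ} {G G' : Set Edg}
    (h : ∀ e : Edg, nm (src e) ≤ R → nm (tgt e) ≤ R → e ∈ G → e ∈ G') {x y : Vtx × Bool}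
    (hxy : Cb k R G x y) : Cb k R G' x y := by
  have h1 : Relation.EqvGen (CL k R G) ≤ Relation.EqvGen (CL k R G') := by
    refine Relation.EqvGen.mono fun a b hab => ?_
    cases hab with
    | edge e he h1 h2 => exact CL.edge e (h e h1 h2 he) h1 h2
    | idn v h1 h2 => exact CL.idn v h1 h2
  exact h1 x y hxy

theorem mem_box {R : ℕ} {e : Edg} (h1 : nm (src e) ≤ R) (h2 : nm (tgt e) ≤ R) : e ∈ boxE R := by
  rw [nm_le_iff] at h1 h2
  rcases e with ⟨x, y, b⟩
  cases b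
  · have e1 : tgt (x, y, false) = (x, y + 1) := rfl
    rw [e1] at h2
    simp only [src] at h1 h2
    unfold boxE
    rw [mem_RE_false]
    omega
  · have e1 : tgt (x, y, true) = (x + 1, y) := rfl
    rw [e1] at h2
    simp only [src] at h1 h2
    unfold boxE
    rw [mem_RE_true]
    omega

theorem box_mono {R R' : ℕ} (h : R ≤ R') : boxE R ⊆ boxE R' := by
  rintro ⟨x, y, b⟩ he
  unfold boxE at he ⊢
  cases b
  · rw [mem_RE_false] at he ⊢
    omega
  · rw [mem_RE_true] at he ⊢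
    omega

theorem se_local {k R : ℕ} (F : Finset Edg) :
    SE k (R : ℤ) (↑F : Set Edg) ↔ SE k (R : ℤ) (↑(F ∩ boxE R) : Set Edg) := by
  have h1 : ∀ x y, Cb k (R : ℤ) (↑F : Set Edg) x y ↔ Cb k (R : ℤ) (↑(F ∩ boxE R) : Set Edg) x y := by
    intro x y
    constructor
    · exact cb_congr fun e h1 h2 he => by
        rw [Finset.mem_coe] at he ⊢
        exact Finset.mem_inter.2 ⟨he, mem_box h1 h2⟩
    · exact cb_congr fun e h1 h2 he => by
        rw [Finset.mem_coe] at he ⊢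
        exact (Finset.mem_inter.1 he).1
  unfold SE
  simp only [h1]

end TMON

theorem t_MON : S_MON := by
  intro k R R' hk hkR hR
  have ok : Ok (fun _ : Edg => (1 / 2 : ℝ)) := fun _ => ⟨by norm_num, by norm_num⟩
  unfold sP
  refine (Pr_mono ok fun F _ h => TMON.se_mono hk hkR hR h).trans (le_of_eq ?_)
  exact Pr_local (TMON.box_mono hR) fun F _ => TMON.se_local F

end Pool.Agent.H160R2.MU
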