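import Pool.Agent.H160R2.MU.Defs

/-!
Project MU (helper160), task PRB: probability of the exploration.  Written by helper656.
-/

set_option autoImplicit false

namespace Pool.Agent.H160R2.MU
open H974 H906.Cyl

namespace TPRB

/-- the mixed configuration -/
def mix (F G E : Finset Edg) : Finset Edg := (F ∩ E) ∪ (G \ E)

lemma mix_inter (F G E : Finset Edg) : mix F G E ∩ E = F ∩ E := by
  ext e; simp only [mix, Finset.mem_inter, Finset.mem_union, Finset.mem_sdiff]; tauto

lemma mix_sdiff (F G E : Finset Edg) : mix F G E \ E = G \ E := by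
  ext e; simp only [mix, Finset.mem_inter, Finset.mem_union, Finset.mem_sdiff]; tauto

lemma split (F E : Finset Edg) : F = (F ∩ E) ∪ (F \ E) := by
  ext e; simp only [Finset.mem_inter, Finset.mem_union, Finset.mem_sdiff]; tauto

lemma mix_sub {F G S : Finset Edg} (hF : F ⊆ S) (hG : G ⊆ S) (E : Finset Edg) :
    mix F G E ⊆ S := by
  intro e he
  simp only [mix, Finset.mem_inter, Finset.mem_union, Finset.mem_sdiff] at he
  rcases he with h | h
  · exact hF h.1
  · exact hG h.1

end TPRB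

open TPRB Classical in
theorem t_PRB : S_PRB := by
  intro S Ex A K B hEx hB
  rw [H906.Cyl.Pr_half, H906.Cyl.Pr_half, H906.Cyl.Pr_half]
  have hsum : ∀ P : Finset Edg → Prop, ∑ F ∈ S.powerset, ind (P F) =
      (((S.powerset.filter P).card : ℕ) : ℝ) := by
    intro P
    rw [Finset.card_filter]
    push_cast
    refine Finset.sum_congr rfl fun F _ => ?_
    unfold ind
    split_ifs <;> rfl
  rw [hsum, hsum, hsum]
  have hcard : (S.powerset.filter A).card * (S.powerset.filter K).card ≤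
      (S.powerset.filter B).card * 2 ^ S.card := by
    rw [← Finset.card_product, ← Finset.card_powerset, ← Finset.card_product]
    refine Finset.card_le_card_of_injOn (fun q => (mix q.1 q.2 (Ex q.1), mix q.2 q.1 (Ex q.1))) ?_ ?_
    · intro q hq
      have hq' := Finset.mem_coe.1 hq
      simp only [Finset.mem_product, Finset.mem_filter, Finset.mem_powerset] at hq'
      obtain ⟨⟨h1, h2⟩, h3, h4⟩ := hq'
      simp only [Finset.coe_product, Set.mem_prod, Finset.mem_coe, Finset.mem_filter,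
        Finset.mem_powerset]
      exact ⟨⟨mix_sub h1 h3 _, hB q.1 q.2 h1 h3 h2 h4⟩, mix_sub h3 h1 _⟩
    · intro q hq q' hq' he
      have hq1 := Finset.mem_coe.1 hq
      have hq2 := Finset.mem_coe.1 hq'
      simp only [Finset.mem_product, Finset.mem_filter, Finset.mem_powerset] at hq1 hq2
      obtain ⟨⟨h1, h2⟩, h3, h4⟩ := hq1
      obtain ⟨⟨h1', h2'⟩, h3', h4'⟩ := hq2
      have he1 : mix q.1 q.2 (Ex q.1) = mix q'.1 q'.2 (Ex q'.1) := congrArg Prod.fst he
      have he2 : mix q.2 q.1 (Ex q.1) = mix q'.2 q'.1 (Ex q'.1) := congrArg Prod.snd he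
      have hE : Ex q.1 = Ex q'.1 := by
        have e1 : Ex (mix q.1 q.2 (Ex q.1)) = Ex q.1 := hEx q.1 q.2 h1 h3
        have e2 : Ex (mix q'.1 q'.2 (Ex q'.1)) = Ex q'.1 := hEx q'.1 q'.2 h1' h3'
        rw [← e1, ← e2, he1]
      have a1 : q.1 ∩ Ex q.1 = q'.1 ∩ Ex q.1 := by
        rw [← mix_inter q.1 q.2 (Ex q.1), he1, ← hE, mix_inter]
      have a2 : q.2 \ Ex q.1 = q'.2 \ Ex q.1 := by
        rw [← mix_sdiff q.1 q.2 (Ex q.1), he1, ← hE, mix_sdiff]
      have a3 : q.2 ∩ Ex q.1 = q'.2 ∩ Ex q.1 := by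
        rw [← mix_inter q.2 q.1 (Ex q.1), he2, ← hE, mix_inter]
      have a4 : q.1 \ Ex q.1 = q'.1 \ Ex q.1 := by
        rw [← mix_sdiff q.2 q.1 (Ex q.1), he2, ← hE, mix_sdiff]
      refine Prod.ext ?_ ?_
      · rw [split q.1 (Ex q.1), split q'.1 (Ex q.1), a1, a4]
      · rw [split q.2 (Ex q.1), split q'.2 (Ex q.1), a3, a2]
  have hR : (((S.powerset.filter A).card : ℕ) : ℝ) * (((S.powerset.filter K).card : ℕ) : ℝ) ≤
      (((S.powerset.filter B).card : ℕ) : ℝ) * 2 ^ S.card := by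
    exact_mod_cast hcard
  have h2 : (1 / 2 : ℝ) ^ S.card * 2 ^ S.card = 1 := by
    rw [← mul_pow]; norm_num
  calc (1 / 2 : ℝ) ^ S.card * ((S.powerset.filter A).card : ℝ) *
        ((1 / 2) ^ S.card * ((S.powerset.filter K).card : ℝ))
      = (1 / 2 : ℝ) ^ S.card * (1 / 2) ^ S.card *
        (((S.powerset.filter A).card : ℝ) * ((S.powerset.filter K).card : ℝ)) := by ring
    _ ≤ (1 / 2 : ℝ) ^ S.card * (1 / 2) ^ S.card *
        (((S.powerset.filter B).card : ℝ) * 2 ^ S.card) :=
        mul_le_mul_of_nonneg_left hR (by positivity)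
    _ = (1 / 2 : ℝ) ^ S.card * ((S.powerset.filter B).card : ℝ) *
        ((1 / 2 : ℝ) ^ S.card * 2 ^ S.card) := by ring
    _ = _ := by rw [h2, mul_one]

end Pool.Agent.H160R2.MU
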