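import Pool.Agent.H160R2.MU.Defs
import Pool.Agent.H160R2.ML.T_C5
import Pool.Agent.H863R2.Cyl.Markov

/-! Task RCR: the recursion. -/

set_option autoImplicit false

namespace Pool.Agent.H160R2.MU
open Pool.Agent.H863R2.Cyl
open Pool.Agent.H988R2.Perc (Word PD)
open Pool.Agent.H160R2.ML
open H974 H906.Cyl
open H12S (Dir hbE segD rimE H4 Crs Nr sqE)

namespace TRCR

/-- the three steps for one family of cells -/
theorem one (hDETP : S_DETP) (hSTA : S_STA) (hSTB : S_STB) (N k : ℕ) (c : Fin k → Cel)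
    (hk : 2 ≤ k) (hN : k + 4 ≤ N) (hc : Adm N k c) (δ : ℝ) (hδ : 0 < δ) :
    ∃ C : ℝ, 0 < C ∧ ∃ r0 : ℕ, ∀ r : ℕ, r0 ≤ r → ∀ (n M : ℕ), n = prd N k * r → M = 4 * n →
    ∀ σ τ : Wd (2 * n - 1 + 1),
    Pr (fun _ => (1 / 2 : ℝ)) (boxE (N * r)) (fun F => Land N r k c (↑F : Set Edg)) ≤
      δ * sP k (N * r / 2) + C * PC n M (fun F => PG 0 n M k (Ac 0 n M F) τ.1 σ.1) := by
  obtain ⟨CA, hCA, rA, hA⟩ := hSTA N k c hk hN hc (δ / 2) (by positivity)
  obtain ⟨CB, hCB, rB, hB⟩ := hSTB N k c hk hN hc (δ / (2 * CA)) (by positivity)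
  refine ⟨CA * CB, by positivity, max (max rA rB) 2, fun r hr n M hn hM σ τ => ?_⟩
  have hrA : rA ≤ r := (le_max_left _ _).trans ((le_max_left _ _).trans hr)
  have hrB : rB ≤ r := (le_max_right _ _).trans ((le_max_left _ _).trans hr)
  have hr2 : 2 ≤ r := (le_max_right _ _).trans hr
  have h1 := hDETP N r k c hk hN hr2 hc n M hn hM τ.1 σ.1
  have h2 := hA r hrA n M hn hM σ τ
  have h3 := hB r hrB n M hn hM σ τ
  have h4 := mul_le_mul_of_nonneg_left h3 hCA.le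
  have h5 : CA * (δ / (2 * CA) * sP k (N * r / 2) +
      CB * PC n M (fun F => PG 0 n M k (Ac 0 n M F) τ.1 σ.1)) =
      δ / 2 * sP k (N * r / 2) + CA * CB * PC n M (fun F => PG 0 n M k (Ac 0 n M F) τ.1 σ.1) := by
    field_simp
  rw [h5] at h4
  linarith

theorem sP_nonneg (k R : ℕ) : 0 ≤ sP k R := by
  unfold sP
  rw [Pr_half]
  exact mul_nonneg (by positivity) (Finset.sum_nonneg fun F _ => ind_nonneg _)

/-- all families of cells -/
theorem all (hDETP : S_DETP) (hSTA : S_STA) (hSTB : S_STB) (N k : ℕ)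
    (hk : 2 ≤ k) (hN : k + 4 ≤ N) (δ : ℝ) (hδ : 0 < δ) (Cs : Finset (Fin k → Cel))
    (hCs : ∀ c ∈ Cs, Adm N k c) :
    ∃ C : ℝ, 0 ≤ C ∧ ∃ r0 : ℕ, ∀ r : ℕ, r0 ≤ r → ∀ (n M : ℕ), n = prd N k * r → M = 4 * n →
    ∀ σ τ : Wd (2 * n - 1 + 1),
    ∑ c ∈ Cs, Pr (fun _ => (1 / 2 : ℝ)) (boxE (N * r)) (fun F => Land N r k c (↑F : Set Edg)) ≤
      Cs.card * (δ * sP k (N * r / 2)) +
        C * PC n M (fun F => PG 0 n M k (Ac 0 n M F) τ.1 σ.1) := by
  classical
  induction Cs using Finset.induction_on with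
  | empty =>
    refine ⟨0, le_rfl, 0, fun r _ n M _ _ σ τ => ?_⟩
    simp
  | insert c Cs hcn ih =>
    obtain ⟨C1, hC1, r1, h1⟩ := ih fun c' hc' => hCs c' (Finset.mem_insert_of_mem hc')
    obtain ⟨C2, hC2, r2, h2⟩ := one hDETP hSTA hSTB N k c hk hN
      (hCs c (Finset.mem_insert_self _ _)) δ hδ
    refine ⟨C2 + C1, by positivity, max r1 r2, fun r hr n M hn hM σ τ => ?_⟩
    have h3 := h1 r ((le_max_left _ _).trans hr) n M hn hM σ τ
    have h4 := h2 r ((le_max_right _ _).trans hr) n M hn hM σ τ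
    rw [Finset.sum_insert hcn, Finset.card_insert_of_notMem hcn]
    push_cast
    linarith

/-- the average over the boundary words -/
theorem average (hG : S_G) (hPB : Pool.Agent.H160R2.ML.S_PB) (hPH : Pool.Agent.H160R2.ML.S_PH)
    (n M k : ℕ) (hn : 1 ≤ n) (hk : 2 ≤ k) (hkn : k ≤ 2 * n)
    (μ : Wd (2 * n - 1 + 1) → ℝ) (hμ0 : ∀ σ, 0 ≤ μ σ) (hμ1 : ∑ σ, μ σ = 1)
    (hst : ∀ σ, ∑ c : Fin (2 * n - 1 + 1) → Bool, push (Tc (2 * n - 1) c) μ σ
      = 2 ^ (2 * n - 1 + 1) * μ σ) :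
    ∑ σ, ∑ τ, μ σ * μ τ * PC n M (fun F => PG 0 n M k (Ac 0 n M F) τ.1 σ.1) =
      RR (2 * n - k) (2 * k) 0 / RR (2 * n) 0 (Real.pi / 3) := by
  classical
  have h0 : 0 < RR (2 * n) 0 (Real.pi / 3) :=
    (hPH _ _ _ (by positivity) (by linarith [Real.pi_pos])).1
  rw [eq_div_iff h0.ne', ← hPB n k hn (by omega) hkn μ hμ0 hμ1 hst]
  congr 1
  have e1 : ∑ σ, ∑ τ, (if Good k k τ.1 σ.1 then 1 else 0) * μ σ * μ τ =
      ∑ σ, ∑ τ, μ σ * μ τ * ind (Good k k τ.1 σ.1) := by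
    refine Finset.sum_congr rfl fun σ _ => Finset.sum_congr rfl fun τ _ => ?_
    by_cases hg : Good k k τ.1 σ.1
    · rw [if_pos hg, ind_of hg]; ring
    · rw [if_neg hg, ind_not_of hg]; ring
  rw [e1, Pool.Agent.H160R2.ML.TC5.avg_eq (by omega : 0 < n) M μ hst
    (fun σ τ => ind (Good k k τ.1 σ.1))]
  have e2 : ∀ σ τ : Wd (2 * n - 1 + 1),
      μ σ * μ τ * PC n M (fun F => PG 0 n M k (Ac 0 n M F) τ.1 σ.1) =
      (1/2)^(CE n M).card * ∑ F ∈ (CE n M).powerset, μ σ * μ τ *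
        ind (Good k k (rows (2 * n - 1) (up n M F) M τ).1
          (rows (2 * n - 1) (dn n M F) M σ).1) := by
    intro σ τ
    unfold PC
    rw [Pr_half, Finset.mul_sum, Finset.mul_sum, Finset.mul_sum]
    refine Finset.sum_congr rfl fun F hF => ?_
    have h1 := hG 0 n M k (by norm_num) hn hk hkn F (Finset.mem_powerset.1 hF) σ τ
    rw [← ind_congr h1]
    unfold wup wdn
    ring
  simp only [e2]
  rw [Finset.mul_sum]
  have e3 : ∀ σ : Wd (2 * n - 1 + 1), ∑ τ, (1/2 : ℝ)^(CE n M).card *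
      ∑ F ∈ (CE n M).powerset, μ σ * μ τ * ind (Good k k (rows (2 * n - 1) (up n M F) M τ).1
          (rows (2 * n - 1) (dn n M F) M σ).1) =
      ∑ F ∈ (CE n M).powerset, (1/2 : ℝ)^(CE n M).card * ∑ τ, μ σ * μ τ *
        ind (Good k k (rows (2 * n - 1) (up n M F) M τ).1
          (rows (2 * n - 1) (dn n M F) M σ).1) := by
    intro σ
    simp only [Finset.mul_sum]
    rw [Finset.sum_comm]
  simp only [e3]
  rw [Finset.sum_comm]
  refine Finset.sum_congr rfl fun F _ => ?_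
  rw [Finset.mul_sum]

end TRCR

theorem t_RCR : S_LAND → S_DETP → S_STA → S_STB → S_G → Pool.Agent.H160R2.ML.S_PB →
    Pool.Agent.H160R2.ML.S_FA → Pool.Agent.H160R2.ML.S_PH → S_RCR := by
  classical
  intro hLAND hDETP hSTA hSTB hG hPB hFA hPH k hk δ hδ
  obtain ⟨N, hN, Cs, hCs, r1, hL⟩ := hLAND k hk (δ / 2) (by positivity)
  obtain ⟨K, hK, r2, hall⟩ := TRCR.all hDETP hSTA hSTB N k hk hN (δ / (2 * (Cs.card + 1)))
    (by positivity) Cs hCs
  obtain ⟨_, C, -, hC, hFA⟩ := hFA k (by omega)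
  set e : ℝ := (4 * (k : ℝ) ^ 2 - 1) / 12 with he
  have he0 : 0 ≤ e := by
    have : (2 : ℝ) ≤ k := by exact_mod_cast hk
    rw [he]
    nlinarith
  refine ⟨N, hN, K * C + 1, by positivity, max (max r1 r2) 1, fun r hr => ?_⟩
  have hr1 : r1 ≤ r := (le_max_left _ _).trans ((le_max_left _ _).trans hr)
  have hr2 : r2 ≤ r := (le_max_right _ _).trans ((le_max_left _ _).trans hr)
  have hr0 : 1 ≤ r := (le_max_right _ _).trans hr
  have hprd : k ≤ prd N k := by unfold prd; omega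
  have hprd1 : 1 ≤ prd N k := by omega
  set n : ℕ := prd N k * r with hn
  have hkn : k ≤ n := by
    rw [hn]
    calc k = k * 1 := (mul_one k).symm
      _ ≤ prd N k * r := Nat.mul_le_mul hprd hr0
  have hrn : r ≤ n := by
    rw [hn]
    calc r = 1 * r := (one_mul r).symm
      _ ≤ prd N k * r := Nat.mul_le_mul_right r hprd1
  have hn1 : 1 ≤ n := hr0.trans hrn
  obtain ⟨μ, hμ0, hμ1, hst, -, -⟩ := markov_exists (2 * n - 1)
  have hS := TRCR.sP_nonneg k (N * r / 2)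
  -- for all words
  have hw : ∀ σ τ : Wd (2 * n - 1 + 1), sP k (N * r) ≤ δ * sP k (N * r / 2) +
      K * PC n (4 * n) (fun F => PG 0 n (4 * n) k (Ac 0 n (4 * n) F) τ.1 σ.1) := by
    intro σ τ
    have h1 := hL r hr1
    have h2 := hall r hr2 n (4 * n) hn rfl σ τ
    have h3 : (Cs.card : ℝ) * (δ / (2 * (Cs.card + 1)) * sP k (N * r / 2)) ≤
        δ / 2 * sP k (N * r / 2) := by
      have h4 : (Cs.card : ℝ) * (δ / (2 * (Cs.card + 1))) ≤ δ / 2 := by
        have h5 : (0 : ℝ) ≤ Cs.card := Nat.cast_nonneg _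
        rw [mul_div_assoc', div_le_div_iff₀ (by positivity) (by norm_num)]
        nlinarith
      rw [← mul_assoc]
      exact mul_le_mul_of_nonneg_right h4 hS
    linarith
  -- average
  have hav : sP k (N * r) ≤ δ * sP k (N * r / 2) +
      K * (RR (2 * n - k) (2 * k) 0 / RR (2 * n) 0 (Real.pi / 3)) := by
    rw [← TRCR.average hG hPB hPH n (4 * n) k hn1 hk (by omega) μ hμ0 hμ1 hst]
    have h1 : ∑ σ, ∑ τ, μ σ * μ τ = 1 := by
      have : ∀ σ, ∑ τ, μ σ * μ τ = μ σ := fun σ => by rw [← Finset.mul_sum, hμ1, mul_one]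
      simp only [this]
      exact hμ1
    calc sP k (N * r) = ∑ σ, ∑ τ, μ σ * μ τ * sP k (N * r) := by
          simp only [← Finset.sum_mul]
          rw [h1, one_mul]
      _ ≤ ∑ σ, ∑ τ, μ σ * μ τ * (δ * sP k (N * r / 2) +
          K * PC n (4 * n) (fun F => PG 0 n (4 * n) k (Ac 0 n (4 * n) F) τ.1 σ.1)) := by
          refine Finset.sum_le_sum fun σ _ => Finset.sum_le_sum fun τ _ => ?_
          exact mul_le_mul_of_nonneg_left (hw σ τ) (mul_nonneg (hμ0 σ) (hμ0 τ))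
      _ = _ := by
          simp only [mul_add, Finset.sum_add_distrib]
          congr 1
          · simp only [← Finset.sum_mul]
            rw [h1, one_mul]
          · simp only [Finset.mul_sum]
            refine Finset.sum_congr rfl fun σ _ => Finset.sum_congr rfl fun τ _ => ?_
            ring
  have h0 : 0 < RR (2 * n) 0 (Real.pi / 3) :=
    (hPH _ _ _ (by positivity) (by linarith [Real.pi_pos])).1
  have hrat : RR (2 * n - k) (2 * k) 0 / RR (2 * n) 0 (Real.pi / 3) ≤ C * (r : ℝ) ^ (-e) := by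
    rw [div_le_iff₀ h0]
    refine (hFA n hkn).2.trans ?_
    refine mul_le_mul_of_nonneg_right ?_ h0.le
    refine mul_le_mul_of_nonneg_left ?_ hC.le
    exact Real.rpow_le_rpow_of_nonpos (by exact_mod_cast hr0) (by exact_mod_cast hrn)
      (by linarith)
  have hfin : K * (RR (2 * n - k) (2 * k) 0 / RR (2 * n) 0 (Real.pi / 3)) ≤
      (K * C + 1) * (r : ℝ) ^ (-e) := by
    have h1 := mul_le_mul_of_nonneg_left hrat hK
    have h2 : 0 ≤ (r : ℝ) ^ (-e) := Real.rpow_nonneg (Nat.cast_nonneg _) _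
    nlinarith
  linarith

end Pool.Agent.H160R2.MU
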