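import Pool.Agent.H160R2.MU.Defs

/-! SEPA: class 1, different clusters are far from each other at the boundary of the tubes. -/

set_option autoImplicit false

namespace Pool.Agent.H160R2.MU
open Pool.Agent.H863R2.Cyl
open Pool.Agent.H988R2.Perc (Word PD)
open Pool.Agent.H160R2.ML
open H974 H906.Cyl
open H12S (Dir hbE segD rimE H4 Crs Nr sqE fl)

namespace TSEPA

theorem div_iff (r : ℕ) (hr : 1 ≤ r) (x q : ℤ) : x / (r : ℤ) = q ↔ (r : ℤ) * q ≤ x ∧ x < r * q + r := by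
  have hr0 : (0 : ℤ) < r := by exact_mod_cast hr
  constructor
  · rintro rfl
    have h1 := Int.mul_ediv_add_emod x r
    have h2 := Int.emod_nonneg x hr0.ne'
    have h3 := Int.emod_lt_of_pos x hr0
    constructor <;> linarith
  · rintro ⟨h1, h2⟩
    apply le_antisymm
    · have : x / (r : ℤ) < q + 1 := by
        rw [Int.ediv_lt_iff_lt_mul hr0]
        nlinarith
      omega
    · rw [Int.le_ediv_iff_mul_le hr0]
      nlinarith

theorem fl_iff (r : ℕ) (hr : 1 ≤ r) (v : Vtx) (z : ℤ × ℤ) : fl r v = z ↔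
    ((r : ℤ) * z.1 ≤ v.1 ∧ v.1 < r * z.1 + r) ∧ ((r : ℤ) * z.2 ≤ v.2 ∧ v.2 < r * z.2 + r) := by
  rw [← div_iff r hr, ← div_iff r hr]
  exact Prod.ext_iff

theorem EP_iff (r : ℕ) (hr : 1 ≤ r) (Q : Set (ℤ × ℤ)) (e : Edg) :
    e ∈ EP r Q ↔ fl r (dsrc e) ∈ Q ∨ fl r (dtgt e) ∈ Q := by
  obtain ⟨x, y, b⟩ := e
  constructor
  · rintro ⟨z, hz, he⟩
    unfold sqE at he
    cases b
    · rw [mem_RE_false] at he
      rw [dsrc_false, dtgt_mk]
      by_cases h : x = r * z.1 + r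
      · left
        have : fl r (x - 1, y) = z := (fl_iff r hr _ _).2 ⟨⟨by simp only; omega, by simp only; omega⟩,
          ⟨by simp only; omega, by simp only; omega⟩⟩
        rw [this]; exact hz
      · right
        have : fl r (x, y) = z := (fl_iff r hr _ _).2 ⟨⟨by simp only; omega, by simp only; omega⟩,
          ⟨by simp only; omega, by simp only; omega⟩⟩
        rw [this]; exact hz
    · rw [mem_RE_true] at he
      rw [dsrc_true, dtgt_mk]
      by_cases h : y = r * z.2 + r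
      · left
        have : fl r (x, y - 1) = z := (fl_iff r hr _ _).2 ⟨⟨by simp only; omega, by simp only; omega⟩,
          ⟨by simp only; omega, by simp only; omega⟩⟩
        rw [this]; exact hz
      · right
        have : fl r (x, y) = z := (fl_iff r hr _ _).2 ⟨⟨by simp only; omega, by simp only; omega⟩,
          ⟨by simp only; omega, by simp only; omega⟩⟩
        rw [this]; exact hz
  · rintro (h | h)
    · refine ⟨_, h, ?_⟩
      have h1 := (fl_iff r hr _ _).1 (rfl : fl r (dsrc (x, y, b)) = _)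
      unfold sqE
      cases b
      · rw [mem_RE_false]
        rw [dsrc_false] at h1 ⊢
        simp only at h1
        omega
      · rw [mem_RE_true]
        rw [dsrc_true] at h1 ⊢
        simp only at h1
        omega
    · refine ⟨_, h, ?_⟩
      have h1 := (fl_iff r hr _ _).1 (rfl : fl r (dtgt (x, y, b)) = _)
      unfold sqE
      cases b
      · rw [mem_RE_false]
        rw [dtgt_mk] at h1 ⊢
        simp only at h1
        omega
      · rw [mem_RE_true]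
        rw [dtgt_mk] at h1 ⊢
        simp only at h1
        omega

/-- translation -/
def sh (q : ℤ) (v : ℤ × ℤ) : ℤ × ℤ := (v.1 + q, v.2 + q)

theorem fl_sh (r : ℕ) (hr : 1 ≤ r) (ν : ℕ) (q : ℤ) (v : Vtx) :
    fl r (sh (q * (ν * r : ℕ)) v) = sh (q * ν) (fl r v) := by
  rw [fl_iff r hr]
  have h1 := (fl_iff r hr v _).1 rfl
  have e1 : (r : ℤ) * ((fl r v).1 + q * ν) = r * (fl r v).1 + q * (ν * r : ℕ) := by
    push_cast; ring
  have e2 : (r : ℤ) * ((fl r v).2 + q * ν) = r * (fl r v).2 + q * (ν * r : ℕ) := by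
    push_cast; ring
  simp only [sh]
  rw [e1, e2]
  refine ⟨⟨by linarith, by linarith⟩, ⟨by linarith, by linarith⟩⟩

theorem Bxs_sh (N k : ℕ) (q : ℤ) (z : ℤ × ℤ) : sh (q * prd N k) z ∈ Bxs N k ↔ z ∈ Bxs N k := by
  have key : ∀ (q : ℤ) (z : ℤ × ℤ), z ∈ Bxs N k → sh (q * prd N k) z ∈ Bxs N k := by
    rintro q z ⟨s, hs⟩
    refine ⟨s + q, ?_⟩
    simp only [BxS, shf, sh, Set.mem_ofPred_eq] at hs ⊢
    have e1 : z.1 + q * prd N k - (s + q) * prd N k = z.1 - s * prd N k := by ring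
    have e2 : z.2 + q * prd N k - (s + q) * prd N k = z.2 - s * prd N k := by ring
    rw [e1, e2]
    exact hs
  constructor
  · intro h
    have := key (-q) _ h
    have e : sh (-q * prd N k) (sh (q * prd N k) z) = z := by
      simp only [sh]
      ext <;> simp only <;> ring
    rwa [e] at this
  · exact key q z

theorem P_sh {N k : ℕ} {P : Set (ℤ × ℤ)} (hP : ∀ (z : ℤ × ℤ) (s : ℤ), z ∈ P ↔ shf N k s z ∈ P)
    (q : ℤ) (z : ℤ × ℤ) : sh (q * prd N k) z ∈ P ↔ z ∈ P := by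
  rw [hP z (-q)]
  have e : shf N k (-q) z = sh (q * prd N k) z := by
    simp only [shf, sh]
    ext <;> simp only <;> ring
  rw [e]

theorem red_eq (n : ℕ) (e : Edg) : ∃ q : ℤ, dsrc (red n e) = sh (q * n) (dsrc e) ∧
    dtgt (red n e) = sh (q * n) (dtgt e) := by
  refine ⟨-((e.1 + e.2.1) / (2 * n)), ?_⟩
  obtain ⟨x, y, b⟩ := e
  cases b <;> simp only [red, sh, dsrc, dtgt] <;> constructor <;> ext <;> simp <;> ring

/-- the primal edge of a dual edge -/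
def pe (g : Edg) : Edg := edz (g.1 + g.2.1 + 1) (dco g)

theorem pe_eq (g : Edg) : dsrc (pe g) = src g ∧ dtgt (pe g) = tgt g ∧ dco (pe g) = dco g := by
  obtain ⟨x, y, b⟩ := g
  cases b
  · have e : pe (x, y, false) = (x, y + 1, true) := by
      unfold pe edz dco
      simp only [Bool.false_eq_true, if_false]
      rw [if_pos (by omega)]
      simp only [Prod.mk.injEq, and_true]
      omega
    rw [e]
    refine ⟨?_, ?_, ?_⟩
    · rw [dsrc_true, src_mk]; simp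
    · rw [dtgt_mk, tgt_false]
    · simp only [dco, if_true, Bool.false_eq_true, if_false]; ring
  · have e : pe (x, y, true) = (x + 1, y, false) := by
      unfold pe edz dco
      simp only [if_true]
      rw [if_neg (by omega)]
      simp only [Prod.mk.injEq, and_true]
      omega
    rw [e]
    refine ⟨?_, ?_, ?_⟩
    · rw [dsrc_false, src_mk]; simp
    · rw [dtgt_mk, tgt_true]
    · simp only [dco, if_true, Bool.false_eq_true, if_false]; ring

theorem mem_Cc (n M : ℕ) (H : Finset Edg) (g : Edg) : g ∈ Cc 1 n M H ↔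
    -(M : ℤ) ≤ dco g ∧ dco g < M ∧ red n (pe g) ∉ H := by
  simp only [Cc, per, pe, Set.mem_ofPred_eq, one_ne_zero, if_false]

section K

variable {N r k : ℕ} {c : Fin k → Cel} {n M : ℕ} {F : Finset Edg}

/-- faces of the boxes -/
def Bv (N r k : ℕ) (v : Vtx) : Prop := fl r v ∈ Bxs N k
/-- faces of boxes and tubes -/
def Pv (N r k : ℕ) (c : Fin k → Cel) (v : Vtx) : Prop := fl r v ∈ Bxs N k ∪ Crr N k c

theorem red_EPB (hr : 1 ≤ r) (hn : n = prd N k * r) (e : Edg) :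
    red n e ∈ EP r (Bxs N k) ↔ fl r (dsrc e) ∈ Bxs N k ∨ fl r (dtgt e) ∈ Bxs N k := by
  obtain ⟨q, h1, h2⟩ := red_eq n e
  rw [EP_iff r hr, h1, h2, hn, fl_sh r hr, fl_sh r hr, Bxs_sh, Bxs_sh]

theorem red_EPP (hr : 1 ≤ r) (hn : n = prd N k * r)
    (hP : ∀ (z : ℤ × ℤ) (s : ℤ), z ∈ Bxs N k ∪ Crr N k c ↔ shf N k s z ∈ Bxs N k ∪ Crr N k c)
    (e : Edg) : red n e ∈ EP r (Bxs N k ∪ Crr N k c) ↔
      fl r (dsrc e) ∈ Bxs N k ∪ Crr N k c ∨ fl r (dtgt e) ∈ Bxs N k ∪ Crr N k c := by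
  obtain ⟨q, h1, h2⟩ := red_eq n e
  rw [EP_iff r hr, h1, h2, hn, fl_sh r hr, fl_sh r hr, P_sh hP, P_sh hP]

theorem EP_union (Q Q' : Set (ℤ × ℤ)) (e : Edg) :
    e ∈ EP r (Q ∪ Q') ↔ e ∈ EP r Q ∨ e ∈ EP r Q' := by
  constructor
  · rintro ⟨z, hz | hz, he⟩
    · exact Or.inl ⟨z, hz, he⟩
    · exact Or.inr ⟨z, hz, he⟩
  · rintro (⟨z, hz, he⟩ | ⟨z, hz, he⟩)
    · exact ⟨z, Or.inl hz, he⟩
    · exact ⟨z, Or.inr hz, he⟩

theorem mem_FA (e : Edg) : e ∈ FA N r k c n M F ↔ e ∈ CE n M ∧ ((e ∈ EP r (Bxs N k) ∧ e ∈ F) ∨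
    (e ∉ EP r (Bxs N k) ∧ e ∈ EP r (Bxs N k ∪ Crr N k c))) := by
  classical
  unfold FA
  rw [Finset.mem_filter, EP_union]
  tauto

theorem K_iff (hr : 1 ≤ r) (hn0 : 0 < n) (hn : n = prd N k * r)
    (hP : ∀ (z : ℤ × ℤ) (s : ℤ), z ∈ Bxs N k ∪ Crr N k c ↔ shf N k s z ∈ Bxs N k ∪ Crr N k c)
    (g : Edg) : g ∈ Cc 1 n M (FA N r k c n M F) ↔ -(M : ℤ) ≤ dco g ∧ dco g < M ∧
      ((Bv N r k (src g) ∨ Bv N r k (tgt g)) → red n (pe g) ∉ F) ∧
      (¬ Bv N r k (src g) → ¬ Bv N r k (tgt g) → ¬ Pv N r k c (src g) ∧ ¬ Pv N r k c (tgt g)) := by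
  obtain ⟨p1, p2, p3⟩ := pe_eq g
  rw [mem_Cc, mem_FA, red_EPB hr hn, red_EPP hr hn hP, p1, p2]
  unfold Bv Pv
  constructor
  · rintro ⟨h1, h2, h3⟩
    have h4 : red n (pe g) ∈ CE n M := red_mem hn0 (by rw [p3]; exact h1) (by rw [p3]; exact h2)
    refine ⟨h1, h2, ?_, ?_⟩
    · intro h5 h6
      exact h3 ⟨h4, Or.inl ⟨h5, h6⟩⟩
    · intro h5 h6
      by_contra h7
      apply h3
      refine ⟨h4, Or.inr ⟨by tauto, by tauto⟩⟩
  · rintro ⟨h1, h2, h3, h4⟩
    refine ⟨h1, h2, ?_⟩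
    rintro ⟨-, ⟨h5, h6⟩ | ⟨h5, h6⟩⟩
    · exact h3 h5 h6
    · tauto

end K


/-! ### points of the cylinder -/

theorem vx_low (M : ℕ) (j : ℤ) (t : ℕ) :
    vx M ((j, t), false) = ((j + (t - M)) / 2, (j - (t - M)) / 2) := by
  simp [vx, pv]

theorem vx_upp (M : ℕ) (j : ℤ) (t : ℕ) (ht : t ≤ M) :
    vx M ((j, t), true) = ((j + (M - t)) / 2, (j - (M - t)) / 2) := by
  have e : ((2 * M - t : ℕ) : ℤ) - M = M - t := by
    have h1 : ((2 * M - t : ℕ) : ℤ) = 2 * M - t := by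
      rw [Nat.cast_sub (by omega)]; push_cast; ring
    rw [h1]; ring
  simp only [vx, pv, if_true]
  rw [e]

theorem Dg_facts {n M : ℕ} {e : Edg} {u w : Pt} (h : Dg n M 1 e u w) :
    Cls M 1 u ∧ Cls M 1 w ∧ ∃ q : ℤ, ((vx M u = sh (q * n) (dsrc e) ∧ vx M w = sh (q * n) (dtgt e)) ∨
      (vx M u = sh (q * n) (dtgt e) ∧ vx M w = sh (q * n) (dsrc e))) := by
  obtain ⟨x, y, b⟩ := e
  cases h with
  | lrise q t h1 h2 h3 =>
    have hq : q * ((2 * n : ℕ) : ℤ) = 2 * (q * n) := by push_cast; ring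
    cases b
    · simp only [dco, Bool.false_eq_true, if_false] at h1 h2 h3
      simp only [hq]
      refine ⟨⟨by simp only; push_cast at h3 ⊢; omega, by simp only; omega⟩,
        ⟨by simp only; push_cast at h3 ⊢; omega, by simp only; omega⟩, q, Or.inl ⟨?_, ?_⟩⟩
      · rw [vx_low, dsrc_false]
        simp only [sh, Prod.mk.injEq]
        push_cast
        omega
      · rw [vx_low, dtgt_mk]
        simp only [sh, Prod.mk.injEq]
        push_cast
        omega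
    · simp only [dco, if_true] at h1 h2 h3
      exfalso; push_cast at h3; omega
  | lfall q t h1 h2 h3 =>
    have hq : q * ((2 * n : ℕ) : ℤ) = 2 * (q * n) := by push_cast; ring
    cases b
    · simp only [dco, Bool.false_eq_true, if_false] at h1 h2 h3
      exfalso; push_cast at h3; omega
    · simp only [dco, if_true] at h1 h2 h3
      simp only [hq]
      refine ⟨⟨by simp only; push_cast at h3 ⊢; omega, by simp only; omega⟩,
        ⟨by simp only; push_cast at h3 ⊢; omega, by simp only; omega⟩, q, Or.inr ⟨?_, ?_⟩⟩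
      · rw [vx_low, dtgt_mk]
        simp only [sh, Prod.mk.injEq]
        push_cast
        omega
      · rw [vx_low, dsrc_true]
        simp only [sh, Prod.mk.injEq]
        push_cast
        omega
  | urise q t h1 h2 h3 =>
    have hq : q * ((2 * n : ℕ) : ℤ) = 2 * (q * n) := by push_cast; ring
    cases b
    · simp only [dco, Bool.false_eq_true, if_false] at h1 h2 h3
      simp only [hq]
      refine ⟨⟨by simp only; push_cast at h3 ⊢; omega, by simp only; omega⟩,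
        ⟨by simp only; push_cast at h3 ⊢; omega, by simp only; omega⟩, q, Or.inl ⟨?_, ?_⟩⟩
      · rw [vx_upp _ _ _ (by omega), dsrc_false]
        simp only [sh, Prod.mk.injEq]
        push_cast
        omega
      · rw [vx_upp _ _ _ (by omega), dtgt_mk]
        simp only [sh, Prod.mk.injEq]
        push_cast
        omega
    · simp only [dco, if_true] at h1 h2 h3
      exfalso; push_cast at h3; omega
  | ufall q t h1 h2 h3 =>
    have hq : q * ((2 * n : ℕ) : ℤ) = 2 * (q * n) := by push_cast; ring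
    cases b
    · simp only [dco, Bool.false_eq_true, if_false] at h1 h2 h3
      exfalso; push_cast at h3; omega
    · simp only [dco, if_true] at h1 h2 h3
      simp only [hq]
      refine ⟨⟨by simp only; push_cast at h3 ⊢; omega, by simp only; omega⟩,
        ⟨by simp only; push_cast at h3 ⊢; omega, by simp only; omega⟩, q, Or.inr ⟨?_, ?_⟩⟩
      · rw [vx_upp _ _ _ (by omega), dtgt_mk]
        simp only [sh, Prod.mk.injEq]
        push_cast
        omega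
      · rw [vx_upp _ _ _ (by omega), dsrc_true]
        simp only [sh, Prod.mk.injEq]
        push_cast
        omega

theorem sec_facts (n M k : ℕ) (s : ℤ) (i : ℕ) (hi : i < 2 * k) (hi2 : i % 2 = 1) :
    Cls M 1 (sec n M k s i) ∧ ∃ i' : ℤ, 0 ≤ i' ∧ i' ≤ k ∧
      vx M (sec n M k s i) = (s * n + i', s * n + i') := by
  have hq : s * ((2 * n : ℕ) : ℤ) = 2 * (s * n) := by push_cast; ring
  unfold sec
  rw [hq]
  by_cases h : i ≤ k
  · rw [if_pos h]
    refine ⟨⟨by simp only; push_cast; omega, by simp only; omega⟩, (i / 2 : ℕ), by omega, by omega, ?_⟩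
    rw [vx_low]
    simp only [Prod.mk.injEq]
    push_cast
    omega
  · rw [if_neg h]
    refine ⟨⟨by simp only; push_cast; omega, by simp only; omega⟩, ((2 * k - i) / 2 : ℕ), by omega, by omega, ?_⟩
    rw [vx_upp _ _ _ le_rfl]
    simp only [Prod.mk.injEq]
    push_cast
    omega

theorem lift (M : ℕ) (v : Vtx) (h : |v.1 - v.2| ≤ M) : ∃ y : Pt, Cls M 1 y ∧ vx M y = v := by
  obtain ⟨a, b⟩ := v
  simp only at h
  rw [abs_le] at h
  by_cases h0 : a - b ≤ 0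
  · refine ⟨((a + b + 1, (M + (a - b)).toNat), false), ⟨?_, ?_⟩, ?_⟩
    · simp only
      push_cast
      rw [Int.toNat_of_nonneg (by omega)]
      omega
    · simp only
      omega
    · rw [vx_low, Int.toNat_of_nonneg (by omega)]
      simp only [Prod.mk.injEq]
      omega
  · refine ⟨((a + b + 1, (M - (a - b)).toNat), true), ⟨?_, ?_⟩, ?_⟩
    · simp only
      push_cast
      rw [Int.toNat_of_nonneg (by omega)]
      omega
    · simp only
      omega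
    · rw [vx_upp _ _ _ (by omega), Int.toNat_of_nonneg (by omega)]
      simp only [Prod.mk.injEq]
      omega

section K2

variable {N r k : ℕ} {c : Fin k → Cel} {n M : ℕ}

theorem Bv_sh (hr : 1 ≤ r) (hn : n = prd N k * r) (q : ℤ) (v : Vtx) :
    Bv N r k (sh (q * n) v) ↔ Bv N r k v := by
  unfold Bv
  rw [hn, fl_sh r hr, Bxs_sh]

theorem Pv_sh (hr : 1 ≤ r) (hn : n = prd N k * r)
    (hP : ∀ (z : ℤ × ℤ) (s : ℤ), z ∈ Bxs N k ∪ Crr N k c ↔ shf N k s z ∈ Bxs N k ∪ Crr N k c)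
    (q : ℤ) (v : Vtx) : Pv N r k c (sh (q * n) v) ↔ Pv N r k c v := by
  unfold Pv
  rw [hn, fl_sh r hr, P_sh hP]

theorem near_face (e : Edg) (q : ℤ) :
    |(sh q (dsrc e)).1 - (sh q (dtgt e)).1| ≤ 1 ∧ |(sh q (dsrc e)).2 - (sh q (dtgt e)).2| ≤ 1 := by
  obtain ⟨x, y, b⟩ := e
  cases b <;> simp only [sh, dsrc, dtgt, if_true, Bool.false_eq_true, if_false] <;>
    constructor <;> rw [abs_le] <;> omega

theorem U_facts (hr : 1 ≤ r) (hn : n = prd N k * r)
    (hP : ∀ (z : ℤ × ℤ) (s : ℤ), z ∈ Bxs N k ∪ Crr N k c ↔ shf N k s z ∈ Bxs N k ∪ Crr N k c)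
    {u : Pt} (h : ∃ e ∈ CE n M, e ∉ EP r (Bxs N k) ∧ e ∈ EP r (Crr N k c) ∧
      ∃ w, Dg n M 1 e u w ∨ Dg n M 1 e w u) :
    Cls M 1 u ∧ ¬ Bv N r k (vx M u) ∧ ∃ U2 : Vtx, |(vx M u).1 - U2.1| ≤ 1 ∧ |(vx M u).2 - U2.2| ≤ 1 ∧
      Pv N r k c U2 := by
  obtain ⟨e, -, h1, h2, w, hw⟩ := h
  have hB : ¬ Bv N r k (dsrc e) ∧ ¬ Bv N r k (dtgt e) := by
    rw [EP_iff r hr] at h1
    unfold Bv
    tauto
  have hPP : Pv N r k c (dsrc e) ∨ Pv N r k c (dtgt e) := by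
    rw [EP_iff r hr] at h2
    unfold Pv
    rcases h2 with h | h
    · exact Or.inl (Or.inr h)
    · exact Or.inr (Or.inr h)
  obtain ⟨hu, q, hq⟩ : Cls M 1 u ∧ ∃ q : ℤ, vx M u = sh (q * n) (dsrc e) ∨ vx M u = sh (q * n) (dtgt e) := by
    rcases hw with hw | hw
    · obtain ⟨h3, h4, q, h5⟩ := Dg_facts hw
      exact ⟨h3, q, by tauto⟩
    · obtain ⟨h3, h4, q, h5⟩ := Dg_facts hw
      exact ⟨h4, q, by tauto⟩
  obtain ⟨n1, n2⟩ := near_face e (q * n)
  refine ⟨hu, ?_, ?_⟩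
  · rcases hq with hq | hq <;> rw [hq, Bv_sh hr hn]
    · exact hB.1
    · exact hB.2
  · rcases hPP with h | h
    · refine ⟨sh (q * n) (dsrc e), ?_, ?_, (Pv_sh hr hn hP _ _).2 h⟩
      · rcases hq with hq | hq <;> rw [hq]
        · simp
        · rw [abs_sub_comm]; exact n1
      · rcases hq with hq | hq <;> rw [hq]
        · simp
        · rw [abs_sub_comm]; exact n2
    · refine ⟨sh (q * n) (dtgt e), ?_, ?_, (Pv_sh hr hn hP _ _).2 h⟩
      · rcases hq with hq | hq <;> rw [hq]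
        · exact n1
        · simp
      · rcases hq with hq | hq <;> rw [hq]
        · exact n2
        · simp

theorem XA_facts (hr : 1 ≤ r) (hn : n = prd N k * r)
    (hP : ∀ (z : ℤ × ℤ) (s : ℤ), z ∈ Bxs N k ∪ Crr N k c ↔ shf N k s z ∈ Bxs N k ∪ Crr N k c)
    {p : Pt} (h : XA N r k c n M p) :
    Cls M 1 p ∧ (¬ Pv N r k c (vx M p) ∨ ∃ (s i' : ℤ), 0 ≤ i' ∧ i' ≤ k ∧
      vx M p = (s * n + i', s * n + i')) := by
  rcases h with ⟨s, i, hi, hi2, rfl⟩ | ⟨e, -, h1, h2, w, hw⟩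
  · obtain ⟨h3, i', h4, h5, h6⟩ := sec_facts n M k s i hi hi2
    exact ⟨h3, Or.inr ⟨s, i', h4, h5, h6⟩⟩
  · have hB : ¬ Pv N r k c (dsrc e) ∧ ¬ Pv N r k c (dtgt e) := by
      rw [EP_iff r hr] at h1 h2
      unfold Pv
      constructor
      · rintro (h | h)
        · exact h1 (Or.inl h)
        · exact h2 (Or.inl h)
      · rintro (h | h)
        · exact h1 (Or.inr h)
        · exact h2 (Or.inr h)
    obtain ⟨hu, q, hq⟩ : Cls M 1 p ∧ ∃ q : ℤ, vx M p = sh (q * n) (dsrc e) ∨ vx M p = sh (q * n) (dtgt e) := by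
      rcases hw with hw | hw
      · obtain ⟨h3, h4, q, h5⟩ := Dg_facts hw
        exact ⟨h3, q, by tauto⟩
      · obtain ⟨h3, h4, q, h5⟩ := Dg_facts hw
        exact ⟨h4, q, by tauto⟩
    refine ⟨hu, Or.inl ?_⟩
    rcases hq with hq | hq <;> rw [hq, Pv_sh hr hn hP]
    · exact hB.1
    · exact hB.2

end K2


/-! ### straight paths and the outer region -/

theorem hpath (S : Set Edg) (y : ℤ) : ∀ (m : ℕ) (x : ℤ),
    (∀ w : ℤ, x ≤ w → w < x + m → ((w, y, true) : Edg) ∈ S) → Reach S (x, y) (x + m, y) := by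
  intro m
  induction m with
  | zero => intro x _; simpa using Reach.refl S (x, y)
  | succ m ih =>
    intro x h
    refine (ih x (fun w h1 h2 => h w h1 (by push_cast; omega))).trans ?_
    refine Relation.ReflTransGen.single ⟨(x + m, y, true), h _ (by omega) (by push_cast; omega), Or.inl ⟨rfl, ?_⟩⟩
    rw [tgt_true]
    simp only [Prod.mk.injEq, and_true]
    push_cast
    ring

theorem vpath (S : Set Edg) (x : ℤ) : ∀ (m : ℕ) (y : ℤ),
    (∀ w : ℤ, y ≤ w → w < y + m → ((x, w, false) : Edg) ∈ S) → Reach S (x, y) (x, y + m) := by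
  intro m
  induction m with
  | zero => intro x _; simpa using Reach.refl S _
  | succ m ih =>
    intro y h
    refine (ih y (fun w h1 h2 => h w h1 (by push_cast; omega))).trans ?_
    refine Relation.ReflTransGen.single ⟨(x, y + m, false), h _ (by omega) (by push_cast; omega), Or.inl ⟨rfl, ?_⟩⟩
    rw [tgt_false]
    simp only [Prod.mk.injEq, true_and]
    push_cast
    ring

theorem hseg (S : Set Edg) (y x x' : ℤ)
    (h : ∀ w : ℤ, min x x' ≤ w → w < max x x' → ((w, y, true) : Edg) ∈ S) :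
    Reach S (x, y) (x', y) := by
  rcases le_total x x' with h1 | h1
  · rw [min_eq_left h1, max_eq_right h1] at h
    have := hpath S y (x' - x).toNat x (fun w h2 h3 => h w h2 (by omega))
    rwa [show x + ((x' - x).toNat : ℤ) = x' by omega] at this
  · rw [min_eq_right h1, max_eq_left h1] at h
    have := hpath S y (x - x').toNat x' (fun w h2 h3 => h w h2 (by omega))
    rw [show x' + ((x - x').toNat : ℤ) = x by omega] at this
    exact this.symm

theorem vseg (S : Set Edg) (x y y' : ℤ)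
    (h : ∀ w : ℤ, min y y' ≤ w → w < max y y' → ((x, w, false) : Edg) ∈ S) :
    Reach S (x, y) (x, y') := by
  rcases le_total y y' with h1 | h1
  · rw [min_eq_left h1, max_eq_right h1] at h
    have := vpath S x (y' - y).toNat y (fun w h2 h3 => h w h2 (by omega))
    rwa [show y + ((y' - y).toNat : ℤ) = y' by omega] at this
  · rw [min_eq_right h1, max_eq_left h1] at h
    have := vpath S x (y - y').toNat y' (fun w h2 h3 => h w h2 (by omega))
    rw [show y' + ((y - y').toNat : ℤ) = y by omega] at this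
    exact this.symm

theorem btw (r : ℕ) (hr : 1 ≤ r) {x x' w : ℤ} (h : |x / (r : ℤ) - x' / r| ≤ 1)
    (h1 : min x x' ≤ w) (h2 : w ≤ max x x') : w / (r : ℤ) = x / r ∨ w / (r : ℤ) = x' / r := by
  have hr0 : (0 : ℤ) < r := by exact_mod_cast hr
  rw [abs_le] at h
  rcases le_total x x' with h3 | h3
  · rw [min_eq_left h3] at h1
    rw [max_eq_right h3] at h2
    have := Int.ediv_le_ediv hr0 h1
    have := Int.ediv_le_ediv hr0 h2
    omega
  · rw [min_eq_right h3] at h1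
    rw [max_eq_left h3] at h2
    have := Int.ediv_le_ediv hr0 h1
    have := Int.ediv_le_ediv hr0 h2
    omega

theorem adj_dist (r : ℕ) (hr : 1 ≤ r) {x x' : ℤ} (h : |x / (r : ℤ) - x' / r| ≤ 1) :
    |x - x'| ≤ 2 * r := by
  have h1 := (div_iff r hr x _).1 rfl
  have h2 := (div_iff r hr x' _).1 rfl
  rw [abs_le] at h ⊢
  obtain ⟨ha, hb⟩ := h
  set a := x / (r : ℤ)
  set b := x' / (r : ℤ)
  have hr0 : (0 : ℤ) < r := by exact_mod_cast hr
  have e1 : (r : ℤ) * a ≤ r * b + r := by nlinarith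
  have e2 : (r : ℤ) * b ≤ r * a + r := by nlinarith
  constructor <;> linarith [h1.1, h1.2, h2.1, h2.2]

section K3

variable {N r k : ℕ} {c : Fin k → Cel} {n M : ℕ} {F : Finset Edg}

/-- the outer region -/
def R0 (N r k : ℕ) (c : Fin k → Cel) (D : ℤ) (w : Vtx) : Prop :=
  ¬ Pv N r k c w ∧ |w.1 - w.2| ≤ D

theorem Pv_of_Bv {v : Vtx} (h : Bv N r k v) : Pv N r k c v := Or.inl h

theorem K_outer (hr : 1 ≤ r) (hn0 : 0 < n) (hn : n = prd N k * r)
    (hP : ∀ (z : ℤ × ℤ) (s : ℤ), z ∈ Bxs N k ∪ Crr N k c ↔ shf N k s z ∈ Bxs N k ∪ Crr N k c)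
    {D : ℤ} (hD : D + 1 < M) (g : Edg) (h1 : R0 N r k c D (src g)) (h2 : R0 N r k c D (tgt g)) :
    g ∈ Cc 1 n M (FA N r k c n M F) ∩ {g | R0 N r k c D (src g) ∧ R0 N r k c D (tgt g)} := by
  refine ⟨?_, h1, h2⟩
  rw [K_iff hr hn0 hn hP]
  have h3 := h1.2
  rw [abs_le] at h3
  have h4 : dco g = (src g).1 - (src g).2 ∨ dco g = (src g).1 - (src g).2 - 1 := by
    obtain ⟨x, y, b⟩ := g
    cases b <;> simp [dco, src]
  refine ⟨by omega, by omega, ?_, fun _ _ => ⟨h1.1, h2.1⟩⟩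
  rintro (h | h)
  · exact absurd (Pv_of_Bv h) h1.1
  · exact absurd (Pv_of_Bv h) h2.1

theorem Lsh (hr : 1 ≤ r) (hn0 : 0 < n) (hn : n = prd N k * r)
    (hP : ∀ (z : ℤ × ℤ) (s : ℤ), z ∈ Bxs N k ∪ Crr N k c ↔ shf N k s z ∈ Bxs N k ∪ Crr N k c)
    {D : ℤ} (hD : D + 1 < M) (v v' : Vtx) (hv : ¬ Pv N r k c v) (hv' : ¬ Pv N r k c v')
    (hm : ¬ Pv N r k c (v'.1, v.2))
    (h1 : |v.1 / (r : ℤ) - v'.1 / r| ≤ 1) (h2 : |v.2 / (r : ℤ) - v'.2 / r| ≤ 1)
    (hd : |v.1 - v.2| + 4 * r ≤ D) :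
    Reach (Cc 1 n M (FA N r k c n M F) ∩ {g | R0 N r k c D (src g) ∧ R0 N r k c D (tgt g)}) v v' := by
  have a1 := adj_dist r hr h1
  have a2 := adj_dist r hr h2
  have hH : ∀ w : ℤ, min v.1 v'.1 ≤ w → w ≤ max v.1 v'.1 → R0 N r k c D (w, v.2) := by
    intro w h3 h4
    refine ⟨?_, ?_⟩
    · rcases btw r hr h1 h3 h4 with h | h
      · have e : fl r (w, v.2) = fl r v := by
          unfold H12S.fl
          simp only [h]
        unfold Pv
        rw [e]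
        exact hv
      · have e : fl r (w, v.2) = fl r (v'.1, v.2) := by
          unfold H12S.fl
          simp only [h]
        unfold Pv
        rw [e]
        exact hm
    · simp only
      rw [abs_le] at a1 a2 ⊢
      have := abs_le.1 (le_refl |v.1 - v.2|)
      have h5 : |w - v.1| ≤ 2 * r := by
        rw [abs_le]
        rcases le_total v.1 v'.1 with h6 | h6
        · rw [min_eq_left h6] at h3; rw [max_eq_right h6] at h4
          constructor <;> linarith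
        · rw [min_eq_right h6] at h3; rw [max_eq_left h6] at h4
          constructor <;> linarith
      rw [abs_le] at h5
      constructor <;> linarith [this.1, this.2, h5.1, h5.2]
  have hV : ∀ w : ℤ, min v.2 v'.2 ≤ w → w ≤ max v.2 v'.2 → R0 N r k c D (v'.1, w) := by
    intro w h3 h4
    refine ⟨?_, ?_⟩
    · rcases btw r hr h2 h3 h4 with h | h
      · have e : fl r (v'.1, w) = fl r (v'.1, v.2) := by
          unfold H12S.fl
          simp only [h]
        unfold Pv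
        rw [e]
        exact hm
      · have e : fl r (v'.1, w) = fl r v' := by
          unfold H12S.fl
          simp only [h]
        unfold Pv
        rw [e]
        exact hv'
    · simp only
      rw [abs_le] at a1 a2 ⊢
      have := abs_le.1 (le_refl |v.1 - v.2|)
      have h5 : |w - v.2| ≤ 2 * r := by
        rw [abs_le]
        rcases le_total v.2 v'.2 with h6 | h6
        · rw [min_eq_left h6] at h3; rw [max_eq_right h6] at h4
          constructor <;> linarith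
        · rw [min_eq_right h6] at h3; rw [max_eq_left h6] at h4
          constructor <;> linarith
      rw [abs_le] at h5
      constructor <;> linarith [this.1, this.2, h5.1, h5.2]
  have p1 : Reach (Cc 1 n M (FA N r k c n M F) ∩ {g | R0 N r k c D (src g) ∧ R0 N r k c D (tgt g)})
      (v.1, v.2) (v'.1, v.2) := by
    apply hseg
    intro w h3 h4
    apply K_outer hr hn0 hn hP hD
    · exact hH w h3 h4.le
    · exact hH (w + 1) (by omega) (by omega)
  have p2 : Reach (Cc 1 n M (FA N r k c n M F) ∩ {g | R0 N r k c D (src g) ∧ R0 N r k c D (tgt g)})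
      (v'.1, v.2) (v'.1, v'.2) := by
    apply vseg
    intro w h3 h4
    apply K_outer hr hn0 hn hP hD
    · exact hV w h3 h4.le
    · exact hV (w + 1) (by omega) (by omega)
  exact p1.trans p2

theorem RR (hr : 1 ≤ r) (hn0 : 0 < n) (hn : n = prd N k * r)
    (hP : ∀ (z : ℤ × ℤ) (s : ℤ), z ∈ Bxs N k ∪ Crr N k c ↔ shf N k s z ∈ Bxs N k ∪ Crr N k c)
    (hc1 : ∀ x y : ℤ, (x, y) ∉ Bxs N k ∪ Crr N k c → (x + 1, y + 1) ∉ Bxs N k ∪ Crr N k c →
      (x + 1, y) ∉ Bxs N k ∪ Crr N k c ∨ (x, y + 1) ∉ Bxs N k ∪ Crr N k c)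
    (hc2 : ∀ x y : ℤ, (x + 1, y) ∉ Bxs N k ∪ Crr N k c → (x, y + 1) ∉ Bxs N k ∪ Crr N k c →
      (x, y) ∉ Bxs N k ∪ Crr N k c ∨ (x + 1, y + 1) ∉ Bxs N k ∪ Crr N k c)
    {D : ℤ} (hD : D + 1 < M) (v v' : Vtx) (hv : ¬ Pv N r k c v) (hv' : ¬ Pv N r k c v')
    (h1 : |v.1 / (r : ℤ) - v'.1 / r| ≤ 1) (h2 : |v.2 / (r : ℤ) - v'.2 / r| ≤ 1)
    (hd : |v.1 - v.2| + 8 * r ≤ D) :
    Reach (Cc 1 n M (FA N r k c n M F) ∩ {g | R0 N r k c D (src g) ∧ R0 N r k c D (tgt g)}) v v' := by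
  have hr0 : (0 : ℤ) < r := by exact_mod_cast hr
  have a1 := adj_dist r hr h1
  have a2 := adj_dist r hr h2
  have hd' : |v'.1 - v'.2| + 4 * r ≤ D := by
    have h3 := abs_le.1 (le_refl |v.1 - v.2|)
    rw [abs_le] at a1 a2
    have : |v'.1 - v'.2| ≤ |v.1 - v.2| + 4 * r := by
      rw [abs_le]
      constructor <;> linarith [h3.1, h3.2, a1.1, a1.2, a2.1, a2.2]
    linarith
  have key : ¬ Pv N r k c (v'.1, v.2) ∨ ¬ Pv N r k c (v.1, v'.2) := by
    have ha := hv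
    have hb := hv'
    unfold Pv H12S.fl at ha hb ⊢
    simp only at ha hb ⊢
    rw [abs_le] at h1 h2
    set a := v.1 / (r : ℤ)
    set b := v.2 / (r : ℤ)
    set a' := v'.1 / (r : ℤ)
    set b' := v'.2 / (r : ℤ)
    by_cases e1 : a = a'
    · left; rw [← e1]; exact ha
    by_cases e2 : b = b'
    · left; rw [e2]; exact hb
    by_cases e3 : a' = a + 1
    · by_cases e4 : b' = b + 1
      · rw [e3, e4] at hb ⊢
        exact hc1 a b ha hb
      · have e5 : b = b' + 1 := by omega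
        rw [e3] at hb ⊢
        rw [e5] at ha ⊢
        exact (hc2 a b' hb ha).symm
    · have e6 : a = a' + 1 := by omega
      by_cases e4 : b' = b + 1
      · rw [e6] at ha ⊢
        rw [e4] at hb ⊢
        exact hc2 a' b ha hb
      · have e5 : b = b' + 1 := by omega
        rw [e6, e5] at ha ⊢
        exact (hc1 a' b' hb ha).symm
  rcases key with h | h
  · exact Lsh hr hn0 hn hP hD v v' hv hv' h h1 h2 (by linarith)
  · refine (Lsh hr hn0 hn hP hD v' v hv' hv h ?_ ?_ hd').symm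
    · rw [abs_sub_comm]; exact h1
    · rw [abs_sub_comm]; exact h2

theorem inBox (hr : 1 ≤ r) (hn : n = prd N k * r) (v : Vtx) (s : ℤ)
    (h1 : -((N : ℤ) * r) ≤ v.1 - s * n) (h2 : v.1 - s * n < N * r)
    (h3 : -((N : ℤ) * r) ≤ v.2 - s * n) (h4 : v.2 - s * n < N * r) : Bv N r k v := by
  have hr0 : (0 : ℤ) < r := by exact_mod_cast hr
  have hn' : (n : ℤ) = prd N k * r := by exact_mod_cast hn
  obtain ⟨⟨a1, a2⟩, a3, a4⟩ := (fl_iff r hr v _).1 rfl
  refine ⟨s, ?_⟩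
  simp only [BxS, shf, Set.mem_ofPred_eq]
  rw [hn'] at h1 h2 h3 h4
  have e1 : 0 < (r : ℤ) * ((fl r v).1 + 1 - s * prd N k + N) := by nlinarith
  have e2 : 0 < (r : ℤ) * (s * prd N k + N - (fl r v).1) := by nlinarith
  have e3 : 0 < (r : ℤ) * ((fl r v).2 + 1 - s * prd N k + N) := by nlinarith
  have e4 : 0 < (r : ℤ) * (s * prd N k + N - (fl r v).2) := by nlinarith
  have f1 := (mul_pos_iff_of_pos_left hr0).1 e1
  have f2 := (mul_pos_iff_of_pos_left hr0).1 e2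
  have f3 := (mul_pos_iff_of_pos_left hr0).1 e3
  have f4 := (mul_pos_iff_of_pos_left hr0).1 e4
  refine ⟨by linarith, by linarith, by linarith, by linarith⟩

end K3


/-! ### the context -/

structure Ctx (N r k ρ l : ℕ) (c : Fin k → Cel) (n M : ℕ) (F : Finset Edg) : Prop where
  hk : 2 ≤ k
  hkN : k + 4 ≤ N
  hl : 1 ≤ l
  hlρ : 32 * l ≤ ρ
  hρr : 32 * ρ ≤ r
  hn : n = prd N k * r
  hM : M = 4 * n
  hF : F ⊆ CE n M
  hbad : ¬ Bad 1 N r ρ l (prd N k) n M F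
  hP : ∀ (z : ℤ × ℤ) (s : ℤ), z ∈ Bxs N k ∪ Crr N k c ↔ shf N k s z ∈ Bxs N k ∪ Crr N k c
  hc1 : ∀ x y : ℤ, (x, y) ∉ Bxs N k ∪ Crr N k c → (x + 1, y + 1) ∉ Bxs N k ∪ Crr N k c →
      (x + 1, y) ∉ Bxs N k ∪ Crr N k c ∨ (x, y + 1) ∉ Bxs N k ∪ Crr N k c
  hc2 : ∀ x y : ℤ, (x + 1, y) ∉ Bxs N k ∪ Crr N k c → (x, y + 1) ∉ Bxs N k ∪ Crr N k c →
      (x, y) ∉ Bxs N k ∪ Crr N k c ∨ (x + 1, y + 1) ∉ Bxs N k ∪ Crr N k c
  hband : ∀ z ∈ Bxs N k ∪ Crr N k c, |z.1 - z.2| ≤ prd N k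
  exi : S_EXI
  lif : S_LIF

section C

variable {N r k ρ l : ℕ} {c : Fin k → Cel} {n M : ℕ} {F : Finset Edg}

theorem Ctx.r1 (h : Ctx N r k ρ l c n M F) : 1024 ≤ r := by
  have := h.hl; have := h.hlρ; have := h.hρr
  omega

theorem Ctx.ν1 (h : Ctx N r k ρ l c n M F) : 4 * N + 16 * k = prd N k := by
  unfold prd; ring

theorem Ctx.nZ (h : Ctx N r k ρ l c n M F) : (n : ℤ) = prd N k * r := by exact_mod_cast h.hn

theorem Ctx.n1 (h : Ctx N r k ρ l c n M F) : (prd N k : ℤ) * 1024 ≤ n ∧ 24 * (r : ℤ) ≤ n ∧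
    56 ≤ (prd N k : ℤ) ∧ (prd N k : ℤ) * r = n := by
  have h1 := h.r1
  have h2 := h.ν1
  have h3 := h.hk
  have h4 := h.hkN
  have h5 := h.nZ
  have h6 : (56 : ℤ) ≤ (prd N k : ℤ) := by
    have : 56 ≤ prd N k := by omega
    exact_mod_cast this
  have h7 : (1024 : ℤ) ≤ r := by exact_mod_cast h1
  rw [h5]
  refine ⟨by nlinarith, by nlinarith, h6, rfl⟩

/-- vertices near a face outside the boxes -/
theorem near_ok (h : Ctx N r k ρ l c n M F) {U : Vtx} (hU : ¬ Bv N r k U)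
    (hb : |U.1 - U.2| ≤ n + r + 2) (v : Vtx) (h1 : |v.1 - U.1| ≤ r) (h2 : |v.2 - U.2| ≤ r) :
    |v.1 - v.2| + 2 < M ∧ ∀ s : ℤ, ¬ (v.1 = v.2 ∧ s * n - 1 ≤ v.1 ∧ v.1 ≤ s * n + k) := by
  obtain ⟨n1, n2, n3, n4⟩ := h.n1
  have hM : (M : ℤ) = 4 * n := by exact_mod_cast h.hM
  have hr : (1024 : ℤ) ≤ r := by exact_mod_cast h.r1
  constructor
  · rw [hM]
    rw [abs_le] at h1 h2 hb
    have : |v.1 - v.2| ≤ n + 3 * r + 2 := by
      rw [abs_le]; constructor <;> linarith [h1.1, h1.2, h2.1, h2.2, hb.1, hb.2]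
    linarith
  · rintro s ⟨h3, h4, h5⟩
    rw [abs_le] at h1 h2
    have hN : (k : ℤ) + 4 ≤ N := by exact_mod_cast h.hkN
    have hNr : (k : ℤ) + 4 * r ≤ N * r := by
      have hk0 : (0 : ℤ) ≤ k := by positivity
      nlinarith
    apply hU
    apply inBox (by have := h.r1; omega) h.hn U s <;> linarith [h1.1, h1.2, h2.1, h2.2]

theorem Ctx.FAs (h : Ctx N r k ρ l c n M F) : FA N r k c n M F ⊆ CE n M := by
  classical
  exact Finset.filter_subset _ _

/-- abbreviation for the connection -/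
abbrev RA (N r k : ℕ) (c : Fin k → Cel) (n M : ℕ) (F : Finset Edg) (τ σ : Word) : Pt → Pt → Prop :=
  RB 1 n M k (Ac 1 n M (FA N r k c n M F)) τ σ

/-- abbreviation for the planar configuration -/
abbrev KK (N r k : ℕ) (c : Fin k → Cel) (n M : ℕ) (F : Finset Edg) : Set Edg :=
  Cc 1 n M (FA N r k c n M F)

/-- a boundary point connected to a marked point -/
structure Pnt (N r k : ℕ) (c : Fin k → Cel) (n M : ℕ) (F : Finset Edg) (τ σ : Word) (u p : Pt) :
    Prop where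
  cls : Cls M 1 u
  nB : ¬ Bv N r k (vx M u)
  band : |(vx M u).1 - (vx M u).2| ≤ n + r + 2
  clsp : Cls M 1 p
  mark : ¬ Pv N r k c (vx M p) ∨ ∃ (s i' : ℤ), 0 ≤ i' ∧ i' ≤ k ∧ vx M p = (s * n + i', s * n + i')
  con : RA N r k c n M F τ σ p u

theorem Ctx.kn (h : Ctx N r k ρ l c n M F) : 1 ≤ n ∧ k ≤ 2 * n := by
  obtain ⟨n1, n2, n3, n4⟩ := h.n1
  have h1 := h.ν1
  constructor
  · have : (1 : ℤ) ≤ n := by linarith
    exact_mod_cast this
  · have h2 : (prd N k : ℤ) ≤ n := by linarith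
    have h3 : prd N k ≤ n := by exact_mod_cast h2
    omega

/-- exit -/
theorem exit' (h : Ctx N r k ρ l c n M F) {τ σ : Word} {u p : Pt}
    (hp : Pnt N r k c n M F τ σ u p) (P : Vtx → Prop) (hPu : P (vx M u)) (hPp : ¬ P (vx M p))
    (hPn : ∀ v, P v → |v.1 - (vx M u).1| ≤ r ∧ |v.2 - (vx M u).2| ≤ r) :
    ∃ v w : Vtx, Reach (KK N r k c n M F ∩ {e | P (src e) ∧ P (tgt e)}) (vx M u) v ∧ P v ∧ ¬ P w ∧
      ∃ e ∈ KK N r k c n M F, (src e = v ∧ tgt e = w) ∨ (src e = w ∧ tgt e = v) := by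
  obtain ⟨n1, n2⟩ := h.kn
  exact h.exi 1 n M k (by norm_num) n1 n2 _ h.FAs τ σ u p P hp.cls hp.clsp
    (Relation.EqvGen.symm _ _ hp.con) hPu hPp
    (fun v hv => (near_ok h hp.nB hp.band v (hPn v hv).1 (hPn v hv).2).1)

/-- lift -/
theorem lift' (h : Ctx N r k ρ l c n M F) {τ σ : Word} {u p : Pt}
    (hp : Pnt N r k c n M F τ σ u p) (P : Vtx → Prop) (hPu : P (vx M u))
    (hPn : ∀ v, P v → |v.1 - (vx M u).1| ≤ r ∧ |v.2 - (vx M u).2| ≤ r) {y : Pt} (hy : Cls M 1 y)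
    (hR : Reach (KK N r k c n M F ∩ {e | P (src e) ∧ P (tgt e)}) (vx M u) (vx M y)) :
    RA N r k c n M F τ σ u y := by
  obtain ⟨n1, n2⟩ := h.kn
  exact h.lif 1 n M k (by norm_num) n1 n2 _ h.FAs τ σ u y P hp.cls hy
    (fun v hv => near_ok h hp.nB hp.band v (hPn v hv).1 (hPn v hv).2) hPu hR

theorem outer (h : Ctx N r k ρ l c n M F) (τ σ : Word) {y y' : Pt} (hy : Cls M 1 y)
    (hy' : Cls M 1 y') (hv : ¬ Pv N r k c (vx M y)) (hv' : ¬ Pv N r k c (vx M y'))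
    (h1 : |(vx M y).1 / (r : ℤ) - (vx M y').1 / r| ≤ 1)
    (h2 : |(vx M y).2 / (r : ℤ) - (vx M y').2 / r| ≤ 1)
    (hb : |(vx M y).1 - (vx M y).2| ≤ n + 6 * r) : RA N r k c n M F τ σ y y' := by
  obtain ⟨n1, n2⟩ := h.kn
  obtain ⟨m1, m2, m3, m4⟩ := h.n1
  have hM : (M : ℤ) = 4 * n := by exact_mod_cast h.hM
  have hr : (1024 : ℤ) ≤ r := by exact_mod_cast h.r1
  have hr1 : 1 ≤ r := by have := h.r1; omega
  refine h.lif 1 n M k (by norm_num) n1 n2 _ h.FAs τ σ y y' (R0 N r k c (M - 3)) hy hy' ?_ ?_ ?_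
  · rintro v ⟨hv1, hv2⟩
    refine ⟨by linarith, ?_⟩
    rintro s ⟨h3, h4, h5⟩
    have hN : (k : ℤ) + 4 ≤ N := by exact_mod_cast h.hkN
    have hNr : (k : ℤ) + 4 * r ≤ N * r := by
      have hk0 : (0 : ℤ) ≤ k := by positivity
      nlinarith
    apply hv1
    apply Pv_of_Bv
    apply inBox hr1 h.hn v s <;> linarith
  · exact ⟨hv, by linarith⟩
  · exact RR hr1 (by omega) h.hn h.hP h.hc1 h.hc2 (by linarith) _ _ hv hv' h1 h2 (by linarith)

/-- the square around a coarse vertex -/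
def QQ (r : ℕ) (ζ : ℤ × ℤ) (v : Vtx) : Prop :=
  ((r : ℤ) * ζ.1 - (r / 2 : ℕ) < v.1 ∧ v.1 < r * ζ.1 + (r / 2 : ℕ)) ∧
  ((r : ℤ) * ζ.2 - (r / 2 : ℕ) < v.2 ∧ v.2 < r * ζ.2 + (r / 2 : ℕ))

theorem QQ_div (hr : 1 ≤ r) {ζ : ℤ × ℤ} {v : Vtx} (h : QQ r ζ v) :
    (v.1 / (r : ℤ) = ζ.1 ∨ v.1 / (r : ℤ) = ζ.1 - 1) ∧ (v.2 / (r : ℤ) = ζ.2 ∨ v.2 / (r : ℤ) = ζ.2 - 1) := by
  obtain ⟨⟨h1, h2⟩, h3, h4⟩ := h
  constructor
  · rw [div_iff r hr, div_iff r hr]
    rw [show (r : ℤ) * (ζ.1 - 1) = r * ζ.1 - r by ring]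
    omega
  · rw [div_iff r hr, div_iff r hr]
    rw [show (r : ℤ) * (ζ.2 - 1) = r * ζ.2 - r by ring]
    omega

/-- near a coarse vertex -/
def nz (r : ℕ) (K : ℤ) (ζ : ℤ × ℤ) (v : Vtx) : Prop := |v.1 - r * ζ.1| ≤ K ∧ |v.2 - r * ζ.2| ≤ K

theorem nz_QQ {K : ℤ} {ζ : ℤ × ℤ} {v : Vtx} (h : nz r K ζ v) (hK : K < (r / 2 : ℕ)) : QQ r ζ v := by
  obtain ⟨h1, h2⟩ := h
  rw [abs_le] at h1 h2
  exact ⟨⟨by linarith, by linarith⟩, by linarith, by linarith⟩

theorem zeta_ok (h : Ctx N r k ρ l c n M F) {U : Vtx} (hB : ¬ Bv N r k U) (hU : Pv N r k c U)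
    {ζ : ℤ × ℤ} (hz : QQ r ζ U) : |ζ.1 - ζ.2| ≤ 2 * (prd N k : ℤ) ∧
      ∀ s : ℤ, (N : ℤ) ≤ |ζ.1 - s * prd N k| ∨ (N : ℤ) ≤ |ζ.2 - s * prd N k| := by
  have hr1 : 1 ≤ r := by have := h.r1; omega
  obtain ⟨h1, h2⟩ := QQ_div hr1 hz
  obtain ⟨m1, m2, m3, m4⟩ := h.n1
  have hb := h.hband _ hU
  unfold H12S.fl at hb
  simp only at hb
  rw [abs_le] at hb
  constructor
  · rw [abs_le]; omega
  · intro s
    by_contra hcon
    push Not at hcon
    obtain ⟨h3, h4⟩ := hcon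
    apply hB
    refine ⟨s, ?_⟩
    simp only [BxS, shf, H12S.fl, Set.mem_ofPred_eq]
    rw [abs_lt] at h3 h4
    omega

/-- near a coarse vertex the cluster reaches the outer region -/
theorem lemE (h : Ctx N r k ρ l c n M F) {τ σ : Word} {u p : Pt}
    (hp : Pnt N r k c n M F τ σ u p) (hU : Pv N r k c (vx M u)) (ζ : ℤ × ℤ)
    (hz : nz r (4 * ρ) ζ (vx M u)) : ∃ y : Pt, Cls M 1 y ∧ ¬ Pv N r k c (vx M y) ∧
      QQ r ζ (vx M y) ∧ RA N r k c n M F τ σ u y := by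
  have hρ := h.hρr
  have hlρ := h.hlρ
  have hl := h.hl
  have hr := h.r1
  have hr1 : 1 ≤ r := by omega
  obtain ⟨n1, n2⟩ := h.kn
  have hQu : QQ r ζ (vx M u) := nz_QQ hz (by push_cast; omega)
  have hnear : ∀ v, QQ r ζ v → |v.1 - (vx M u).1| ≤ r ∧ |v.2 - (vx M u).2| ≤ r := by
    rintro v ⟨⟨h1, h2⟩, h3, h4⟩
    obtain ⟨h5, h6⟩ := hz
    rw [abs_le] at h5 h6 ⊢
    rw [abs_le]
    push_cast at *
    refine ⟨⟨by omega, by omega⟩, by omega, by omega⟩
  by_cases hq : QQ r ζ (vx M p)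
  · refine ⟨p, hp.clsp, ?_, hq, Relation.EqvGen.symm _ _ hp.con⟩
    rcases hp.mark with h1 | ⟨s, i', h1, h2, h3⟩
    · exact h1
    · exfalso
      have h4 := hnear _ hq
      have h5 := (near_ok h hp.nB hp.band _ h4.1 h4.2).2 s
      apply h5
      rw [h3]
      exact ⟨rfl, by simp only; omega, by simp only; omega⟩
  · obtain ⟨v, w, hR, hv, hw, e, he, hew⟩ := exit' h hp (QQ r ζ) hQu hq hnear
    have key : ∀ v, Reach (KK N r k c n M F ∩ {e | QQ r ζ (src e) ∧ QQ r ζ (tgt e)}) (vx M u) v →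
        (∃ g, Reach (KK N r k c n M F ∩ {e | QQ r ζ (src e) ∧ QQ r ζ (tgt e)}) (vx M u) g ∧
          ¬ Pv N r k c g ∧ QQ r ζ g) ∨ (Reach (Cc 1 n M F) (vx M u) v ∧ Pv N r k c v) := by
      intro v hR
      induction hR with
      | refl => exact Or.inr ⟨Reach.refl _ _, hU⟩
      | @tail a b hab hb ih =>
        rcases ih with ih | ⟨ih1, ih2⟩
        · exact Or.inl ih
        · obtain ⟨e, ⟨he1, he2, he3⟩, hab'⟩ := hb
          by_cases hbP : Pv N r k c b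
          · right
            refine ⟨ih1.trans (Relation.ReflTransGen.single ⟨e, ?_, hab'⟩), hbP⟩
            obtain ⟨k1, k2, k3, k4⟩ := (K_iff hr1 (by omega) h.hn h.hP e).1 he1
            rw [mem_Cc]
            refine ⟨k1, k2, k3 ?_⟩
            by_contra hcon
            push Not at hcon
            have k5 := k4 hcon.1 hcon.2
            rcases hab' with ⟨h1, h2⟩ | ⟨h1, h2⟩
            · exact k5.1 (h1 ▸ ih2)
            · exact k5.2 (h2 ▸ ih2)
          · left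
            refine ⟨b, hab.trans (Relation.ReflTransGen.single ⟨e, ⟨he1, he2, he3⟩, hab'⟩), hbP, ?_⟩
            rcases hab' with ⟨h1, h2⟩ | ⟨h1, h2⟩
            · exact h2 ▸ he3
            · exact h1 ▸ he2
    rcases key v hR with ⟨g, hg1, hg2, hg3⟩ | ⟨hv1, hv2⟩
    · have hg4 := hnear g hg3
      have hg5 := (near_ok h hp.nB hp.band _ hg4.1 hg4.2).1
      obtain ⟨y, hy1, hy2⟩ := lift M g (by linarith)
      refine ⟨y, hy1, by rw [hy2]; exact hg2, by rw [hy2]; exact hg3, ?_⟩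
      exact lift' h hp (QQ r ζ) hQu hnear hy1 (by rw [hy2]; exact hg1)
    · exfalso
      apply h.hbad
      left
      obtain ⟨z1, z2⟩ := zeta_ok h hp.nB hU hQu
      refine ⟨ζ, z1, z2, vx M u, w, ?_, ?_, ?_⟩
      · obtain ⟨h5, h6⟩ := hz
        rw [abs_le] at h5 h6
        unfold inR
        push_cast
        refine ⟨⟨by linarith, by linarith⟩, by linarith, by linarith⟩
      · by_contra hcon
        apply hw
        push Not at hcon
        obtain ⟨h5, h6, h7, h8⟩ := hcon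
        exact ⟨⟨h5, h6⟩, h7, h8⟩
      · refine hv1.trans (Relation.ReflTransGen.single ⟨e, ?_, hew⟩)
        obtain ⟨k1, k2, k3, k4⟩ := (K_iff hr1 (by omega) h.hn h.hP e).1 he
        rw [mem_Cc]
        refine ⟨k1, k2, k3 ?_⟩
        by_contra hcon
        push Not at hcon
        have k5 := k4 hcon.1 hcon.2
        rcases hew with ⟨h1, h2⟩ | ⟨h1, h2⟩
        · exact k5.1 (h1 ▸ hv2)
        · exact k5.2 (h2 ▸ hv2)

theorem RA_chain {τ σ : Word} {p u y y' u' p' : Pt} (h1 : RA N r k c n M F τ σ p u)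
    (h2 : RA N r k c n M F τ σ u y) (h3 : RA N r k c n M F τ σ y y')
    (h4 : RA N r k c n M F τ σ u' y') (h5 : RA N r k c n M F τ σ p' u') :
    RA N r k c n M F τ σ p p' :=
  (((h1.trans _ _ _ h2).trans _ _ _ h3).trans _ _ _ (Relation.EqvGen.symm _ _ h4)).trans _ _ _
    (Relation.EqvGen.symm _ _ h5)

theorem QQ_band (h : Ctx N r k ρ l c n M F) {ζ : ℤ × ℤ} {U v : Vtx} (hU : QQ r ζ U)
    (hb : |U.1 - U.2| ≤ n + r + 2) (hv : QQ r ζ v) : |v.1 - v.2| ≤ n + 6 * r := by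
  have hr : (1024 : ℤ) ≤ r := by exact_mod_cast h.r1
  obtain ⟨⟨h1, h2⟩, h3, h4⟩ := hU
  obtain ⟨⟨h5, h6⟩, h7, h8⟩ := hv
  rw [abs_le] at hb ⊢
  have : ((r / 2 : ℕ) : ℤ) ≤ r := by push_cast; omega
  constructor <;> linarith [hb.1, hb.2]

/-- both near a coarse vertex -/
theorem two (h : Ctx N r k ρ l c n M F) {τ σ : Word} {u p u' p' : Pt}
    (hp : Pnt N r k c n M F τ σ u p) (hp' : Pnt N r k c n M F τ σ u' p')
    (hU : Pv N r k c (vx M u)) (hU' : Pv N r k c (vx M u')) (ζ : ℤ × ℤ)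
    (hz : nz r (4 * ρ) ζ (vx M u)) (hz' : nz r (4 * ρ) ζ (vx M u')) :
    RA N r k c n M F τ σ p p' := by
  have hρ := h.hρr
  have hr := h.r1
  have hr1 : 1 ≤ r := by omega
  obtain ⟨y, y1, y2, y3, y4⟩ := lemE h hp hU ζ hz
  obtain ⟨y', y1', y2', y3', y4'⟩ := lemE h hp' hU' ζ hz'
  refine RA_chain hp.con y4 (outer h τ σ y1 y1' y2 y2' ?_ ?_ ?_) y4' hp'.con
  · have a1 := (QQ_div hr1 y3).1
    have a2 := (QQ_div hr1 y3').1
    rw [abs_le]; omega
  · have a1 := (QQ_div hr1 y3).2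
    have a2 := (QQ_div hr1 y3').2
    rw [abs_le]; omega
  · exact QQ_band h (nz_QQ hz (by push_cast; omega)) hp.band y3

/-- one near a coarse vertex, the other in the outer region -/
theorem mixed (h : Ctx N r k ρ l c n M F) {τ σ : Word} {u p u' p' : Pt}
    (hp : Pnt N r k c n M F τ σ u p) (hp' : Pnt N r k c n M F τ σ u' p')
    (hU : Pv N r k c (vx M u)) (hU' : ¬ Pv N r k c (vx M u')) (ζ : ℤ × ℤ)
    (hz : nz r (4 * ρ) ζ (vx M u)) (hz' : nz r (4 * ρ) ζ (vx M u')) :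
    RA N r k c n M F τ σ p p' := by
  have hρ := h.hρr
  have hr := h.r1
  have hr1 : 1 ≤ r := by omega
  obtain ⟨y, y1, y2, y3, y4⟩ := lemE h hp hU ζ hz
  have y3' : QQ r ζ (vx M u') := nz_QQ hz' (by push_cast; omega)
  refine RA_chain hp.con y4 (outer h τ σ y1 hp'.cls y2 hU' ?_ ?_ ?_) (Relation.EqvGen.refl _) hp'.con
  · have a1 := (QQ_div hr1 y3).1
    have a2 := (QQ_div hr1 y3').1
    rw [abs_le]; omega
  · have a1 := (QQ_div hr1 y3).2
    have a2 := (QQ_div hr1 y3').2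
    rw [abs_le]; omega
  · exact QQ_band h (nz_QQ hz (by push_cast; omega)) hp.band y3


/-! ### the neighbour of a tube face in a box -/

theorem nb (h : Ctx N r k ρ l c n M F) {τ σ : Word} {u p : Pt}
    (hp : Pnt N r k c n M F τ σ u p) (hU : Pv N r k c (vx M u)) :
    ∃ w : Vtx, Bv N r k w ∧ (∃ e ∈ KK N r k c n M F, (src e = vx M u ∧ tgt e = w) ∨
      (src e = w ∧ tgt e = vx M u)) := by
  have hr1 : 1 ≤ r := by have := h.r1; omega
  obtain ⟨n1, n2⟩ := h.kn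
  have hr : (1024 : ℤ) ≤ r := by exact_mod_cast h.r1
  have hne : ¬ (vx M p = vx M u) := by
    intro he
    rcases hp.mark with h1 | ⟨s, i', h1, h2, h3⟩
    · exact h1 (he ▸ hU)
    · apply hp.nB
      rw [← he, h3]
      have hN : (k : ℤ) + 4 ≤ N := by exact_mod_cast h.hkN
      have hNr : (k : ℤ) + 4 * r ≤ N * r := by
        have hk0 : (0 : ℤ) ≤ k := by positivity
        nlinarith
      apply inBox hr1 h.hn _ s <;> simp only <;> linarith
  obtain ⟨v, w, hR, hv, hw, e, he, hew⟩ := exit' h hp (fun v => v = vx M u) rfl hne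
    (fun v hv => by rw [hv]; simp)
  subst hv
  refine ⟨w, ?_, e, he, hew⟩
  by_contra hB
  obtain ⟨k1, k2, k3, k4⟩ := (K_iff hr1 (by omega) h.hn h.hP e).1 he
  rcases hew with ⟨h1, h2⟩ | ⟨h1, h2⟩
  · have := k4 (by rw [h1]; exact hp.nB) (by rw [h2]; exact hB)
    rw [h1] at this
    exact this.1 hU
  · have := k4 (by rw [h1]; exact hB) (by rw [h2]; exact hp.nB)
    rw [h2] at this
    exact this.2 hU

end C

/-! ### half balls -/

/-- tangential coordinate -/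
def tc (d : Dir) (x0 y0 : ℤ) (v : Vtx) : ℤ :=
  match d with
  | Dir.up => v.1 - x0
  | Dir.dn => v.1 - x0
  | Dir.rt => v.2 - y0
  | Dir.lf => v.2 - y0

/-- depth -/
def hc (d : Dir) (x0 y0 : ℤ) (v : Vtx) : ℤ :=
  match d with
  | Dir.up => v.2 - y0
  | Dir.dn => y0 - v.2
  | Dir.rt => v.1 - x0
  | Dir.lf => x0 - v.1

/-- the inner neighbour -/
def inn (d : Dir) (v : Vtx) : Vtx :=
  match d with
  | Dir.up => (v.1, v.2 + 1)
  | Dir.dn => (v.1, v.2 - 1)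
  | Dir.rt => (v.1 + 1, v.2)
  | Dir.lf => (v.1 - 1, v.2)

/-- projection to the half ball -/
def pj (d : Dir) (x0 y0 : ℤ) (v : Vtx) : Vtx := if hc d x0 y0 v = -1 then inn d v else v

theorem inn_c (d : Dir) (x0 y0 : ℤ) (v : Vtx) : tc d x0 y0 (inn d v) = tc d x0 y0 v ∧
    hc d x0 y0 (inn d v) = hc d x0 y0 v + 1 := by
  cases d <;> constructor <;> simp only [tc, hc, inn] <;> omega

theorem ext_c (d : Dir) (x0 y0 : ℤ) (v w : Vtx) (h1 : tc d x0 y0 v = tc d x0 y0 w)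
    (h2 : hc d x0 y0 v = hc d x0 y0 w) : v = w := by
  cases d <;> simp only [tc, hc] at h1 h2 <;> ext <;> omega

theorem adj_c (d : Dir) (x0 y0 : ℤ) (e : Edg) :
    (tc d x0 y0 (src e) = tc d x0 y0 (tgt e) ∧
      (hc d x0 y0 (src e) = hc d x0 y0 (tgt e) + 1 ∨ hc d x0 y0 (tgt e) = hc d x0 y0 (src e) + 1)) ∨
    (hc d x0 y0 (src e) = hc d x0 y0 (tgt e) ∧
      (tc d x0 y0 (src e) = tc d x0 y0 (tgt e) + 1 ∨ tc d x0 y0 (tgt e) = tc d x0 y0 (src e) + 1)) := by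
  obtain ⟨x, y, b⟩ := e
  cases b <;> cases d <;> simp only [tc, hc, src_mk, tgt_true, tgt_false, true_and] <;> omega

/-- the ball -/
def bal (d : Dir) (x0 y0 : ℤ) (ρ : ℕ) (v : Vtx) : Prop :=
  (-(ρ : ℤ) ≤ tc d x0 y0 v ∧ tc d x0 y0 v ≤ ρ) ∧ (0 ≤ hc d x0 y0 v ∧ hc d x0 y0 v ≤ ρ)

theorem hb_iff (d : Dir) (x0 y0 : ℤ) (ρ : ℕ) (e : Edg) :
    e ∈ hbE d x0 y0 ρ ↔ bal d x0 y0 ρ (src e) ∧ bal d x0 y0 ρ (tgt e) := by
  obtain ⟨x, y, b⟩ := e
  cases b <;> cases d <;> simp only [hbE, mem_RE_false, mem_RE_true, bal, tc, hc, src, tgt, if_true,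
    Bool.false_eq_true, if_false] <;> omega

theorem seg_iff (d : Dir) (x0 y0 : ℤ) (ρ : ℕ) (v : Vtx) :
    v ∈ segD d x0 y0 ρ ↔ (-(ρ : ℤ) ≤ tc d x0 y0 v ∧ tc d x0 y0 v ≤ ρ) ∧ hc d x0 y0 v = 0 := by
  cases d <;> simp only [segD, tc, hc, Set.mem_ofPred_eq] <;> omega

theorem rim_iff (d : Dir) (x0 y0 : ℤ) (ρ : ℕ) (v : Vtx) :
    v ∈ rimE d x0 y0 ρ ↔ bal d x0 y0 ρ v ∧ (tc d x0 y0 v = -(ρ : ℤ) ∨ tc d x0 y0 v = ρ ∨
      hc d x0 y0 v = ρ) := by
  cases d <;> simp only [rimE, bal, inR, tc, hc, Set.mem_ofPred_eq] <;> omega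

/-- the ball and the row above it -/
def bp (d : Dir) (x0 y0 : ℤ) (ρ : ℕ) (v : Vtx) : Prop :=
  (-(ρ : ℤ) ≤ tc d x0 y0 v ∧ tc d x0 y0 v ≤ ρ) ∧ (-1 ≤ hc d x0 y0 v ∧ hc d x0 y0 v ≤ ρ)

theorem dist_c (d : Dir) (x0 y0 : ℤ) (v w : Vtx) (K : ℤ) (h1 : |tc d x0 y0 v - tc d x0 y0 w| ≤ K)
    (h2 : |hc d x0 y0 v - hc d x0 y0 w| ≤ K) : |v.1 - w.1| ≤ K ∧ |v.2 - w.2| ≤ K := by
  rw [abs_le] at h1 h2 ⊢
  rw [abs_le]
  cases d <;> simp only [tc, hc] at h1 h2 <;> omega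

section D

variable {N r k ρ l : ℕ} {c : Fin k → Cel} {n M : ℕ} {F : Finset Edg}

theorem KC (h : Ctx N r k ρ l c n M F) {e : Edg} (he : e ∈ KK N r k c n M F)
    (hB : Bv N r k (src e) ∨ Bv N r k (tgt e)) : e ∈ Cc 1 n M F := by
  obtain ⟨n1, n2⟩ := h.kn
  obtain ⟨k1, k2, k3, k4⟩ := (K_iff (by have := h.r1; omega) (by omega) h.hn h.hP e).1 he
  rw [mem_Cc]
  exact ⟨k1, k2, k3 hB⟩

theorem CK (h : Ctx N r k ρ l c n M F) {e : Edg} (he : e ∈ Cc 1 n M F)
    (hB : Bv N r k (src e) ∨ Bv N r k (tgt e)) : e ∈ KK N r k c n M F := by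
  obtain ⟨n1, n2⟩ := h.kn
  rw [mem_Cc] at he
  refine (K_iff (by have := h.r1; omega) (by omega) h.hn h.hP e).2 ⟨he.1, he.2.1, fun _ => he.2.2, ?_⟩
  intro h1 h2
  rcases hB with h3 | h3
  · exact absurd h3 h1
  · exact absurd h3 h2

/-- a half ball below a cell -/
structure HBc (N r k : ℕ) (c : Fin k → Cel) (d : Dir) (x0 y0 : ℤ) (ρ : ℕ) : Prop where
  ball : ∀ v, bal d x0 y0 ρ v → Bv N r k v
  row : ∀ v, (-(ρ : ℤ) - 1 ≤ tc d x0 y0 v ∧ tc d x0 y0 v ≤ ρ + 1) →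
    (hc d x0 y0 v = -1 ∨ hc d x0 y0 v = -2) → Pv N r k c v ∧ ¬ Bv N r k v

theorem pj_reach (h : Ctx N r k ρ l c n M F) {d : Dir} {x0 y0 : ℤ} (hb : HBc N r k c d x0 y0 ρ)
    {a b : Vtx} (hR : Reach (KK N r k c n M F ∩ {e | bp d x0 y0 ρ (src e) ∧ bp d x0 y0 ρ (tgt e)}) a b) :
    Reach (Cc 1 n M F ∩ ↑(hbE d x0 y0 ρ)) (pj d x0 y0 a) (pj d x0 y0 b) := by
  obtain ⟨n1, n2⟩ := h.kn
  have key : ∀ e ∈ KK N r k c n M F, bp d x0 y0 ρ (src e) → bp d x0 y0 ρ (tgt e) →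
      Reach (Cc 1 n M F ∩ ↑(hbE d x0 y0 ρ)) (pj d x0 y0 (src e)) (pj d x0 y0 (tgt e)) := by
    intro e he h1 h2
    obtain ⟨k1, k2, k3, k4⟩ := (K_iff (by have := h.r1; omega) (by omega) h.hn h.hP e).1 he
    have hadj := adj_c d x0 y0 e
    unfold pj
    by_cases c1 : hc d x0 y0 (src e) = -1
    · by_cases c2 : hc d x0 y0 (tgt e) = -1
      · exfalso
        have r1 := hb.row (src e) ⟨by linarith [h1.1.1], by linarith [h1.1.2]⟩ (Or.inl c1)
        have r2 := hb.row (tgt e) ⟨by linarith [h2.1.1], by linarith [h2.1.2]⟩ (Or.inl c2)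
        exact (k4 r1.2 r2.2).1 r1.1
      · rw [if_pos c1, if_neg c2]
        have e1 : inn d (src e) = tgt e := by
          obtain ⟨i1, i2⟩ := inn_c d x0 y0 (src e)
          apply ext_c d x0 y0
          · rw [i1]; obtain ⟨-, h3, -⟩ := h2; omega
          · rw [i2]; obtain ⟨-, h3, -⟩ := h2; omega
        rw [e1]
        exact Reach.refl _ _
    · by_cases c2 : hc d x0 y0 (tgt e) = -1
      · rw [if_neg c1, if_pos c2]
        have e1 : inn d (tgt e) = src e := by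
          obtain ⟨i1, i2⟩ := inn_c d x0 y0 (tgt e)
          apply ext_c d x0 y0
          · rw [i1]; obtain ⟨-, h3, -⟩ := h1; omega
          · rw [i2]; obtain ⟨-, h3, -⟩ := h1; omega
        rw [e1]
        exact Reach.refl _ _
      · rw [if_neg c1, if_neg c2]
        have b1 : bal d x0 y0 ρ (src e) := ⟨h1.1, by obtain ⟨-, h3, h4⟩ := h1; omega, h1.2.2⟩
        have b2 : bal d x0 y0 ρ (tgt e) := ⟨h2.1, by obtain ⟨-, h3, h4⟩ := h2; omega, h2.2.2⟩
        refine Relation.ReflTransGen.single ⟨e, ⟨KC h he (Or.inl (hb.ball _ b1)), ?_⟩, Or.inl ⟨rfl, rfl⟩⟩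
        rw [Finset.mem_coe, hb_iff]
        exact ⟨b1, b2⟩
  induction hR with
  | refl => exact Reach.refl _ _
  | tail _ hs ih =>
    refine ih.trans ?_
    obtain ⟨e, ⟨he1, he2, he3⟩, ⟨h1, h2⟩ | ⟨h1, h2⟩⟩ := hs
    · rw [← h1, ← h2]
      exact key e he1 he2 he3
    · rw [← h1, ← h2]
      exact (key e he1 he2 he3).symm

/-- the cluster of a tube face reaches the rim -/
theorem to_rim (h : Ctx N r k ρ l c n M F) {τ σ : Word} {u p : Pt}
    (hp : Pnt N r k c n M F τ σ u p) {d : Dir} {x0 y0 : ℤ} (hb : HBc N r k c d x0 y0 ρ)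
    (ht : -(ρ : ℤ) ≤ tc d x0 y0 (vx M u) ∧ tc d x0 y0 (vx M u) ≤ ρ)
    (hh : hc d x0 y0 (vx M u) = -1) :
    (∃ b ∈ rimE d x0 y0 ρ, Reach (Cc 1 n M F ∩ ↑(hbE d x0 y0 ρ)) (inn d (vx M u)) b) ∧
      (∃ e ∈ KK N r k c n M F, (src e = vx M u ∧ tgt e = inn d (vx M u)) ∨
        (src e = inn d (vx M u) ∧ tgt e = vx M u)) := by
  obtain ⟨n1, n2⟩ := h.kn
  have hρ := h.hρr
  have hr1 : 1 ≤ r := by have := h.r1; omega
  have hrow := hb.row (vx M u) ⟨by linarith [ht.1], by linarith [ht.2]⟩ (Or.inl hh)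
  constructor
  · have hPu : bp d x0 y0 ρ (vx M u) := ⟨ht, by rw [hh], by rw [hh]; omega⟩
    have hnear : ∀ v, bp d x0 y0 ρ v → |v.1 - (vx M u).1| ≤ r ∧ |v.2 - (vx M u).2| ≤ r := by
      intro v hv
      apply dist_c d x0 y0
      · rw [abs_le]
        obtain ⟨⟨a1, a2⟩, -⟩ := hv
        obtain ⟨a3, a4⟩ := ht
        push_cast at *
        constructor <;> omega
      · rw [abs_le, hh]
        obtain ⟨-, a1, a2⟩ := hv
        push_cast at *
        constructor <;> omega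
    have hPp : ¬ bp d x0 y0 ρ (vx M p) := by
      intro hv
      rcases hp.mark with h1 | ⟨s, i', h1, h2, h3⟩
      · apply h1
        by_cases c1 : hc d x0 y0 (vx M p) = -1
        · exact (hb.row _ ⟨by linarith [hv.1.1], by linarith [hv.1.2]⟩ (Or.inl c1)).1
        · exact Pv_of_Bv (hb.ball _ ⟨hv.1, by obtain ⟨-, h3, h4⟩ := hv; omega, hv.2.2⟩)
      · have h4 := hnear _ hv
        apply (near_ok h hp.nB hp.band _ h4.1 h4.2).2 s
        rw [h3]
        exact ⟨rfl, by simp only; omega, by simp only; omega⟩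
    obtain ⟨v, w, hR, hv, hw, e, he, hew⟩ := exit' h hp (bp d x0 y0 ρ) hPu hPp hnear
    have hv1 : hc d x0 y0 v ≠ -1 := by
      intro c1
      have rv := hb.row v ⟨by linarith [hv.1.1], by linarith [hv.1.2]⟩ (Or.inl c1)
      have hadj := adj_c d x0 y0 e
      have hw2 : hc d x0 y0 w = -1 ∨ hc d x0 y0 w = -2 := by
        by_contra hcon
        apply hw
        unfold bp at hv ⊢
        rcases hew with ⟨h1, h2⟩ | ⟨h1, h2⟩ <;> rw [h1, h2] at hadj <;> omega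
      have rw' := hb.row w (by
        unfold bp at hv
        rcases hew with ⟨h1, h2⟩ | ⟨h1, h2⟩ <;> rw [h1, h2] at hadj <;> omega) hw2
      obtain ⟨k1, k2, k3, k4⟩ := (K_iff hr1 (by omega) h.hn h.hP e).1 he
      rcases hew with ⟨h1, h2⟩ | ⟨h1, h2⟩
      · rw [h1, h2] at k4
        exact (k4 rv.2 rw'.2).1 rv.1
      · rw [h1, h2] at k4
        exact (k4 rw'.2 rv.2).1 rw'.1
    refine ⟨v, ?_, ?_⟩
    · rw [rim_iff]
      have hadj := adj_c d x0 y0 e
      unfold bp at hv hw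
      unfold bal
      rcases hew with ⟨h1, h2⟩ | ⟨h1, h2⟩ <;> rw [h1, h2] at hadj <;> omega
    · have := pj_reach h hb hR
      rw [pj, if_pos hh, pj, if_neg hv1] at this
      exact this
  · obtain ⟨w, hwB, e, he, hew⟩ := nb h hp hrow.1
    have hadj := adj_c d x0 y0 e
    have hwe : w = inn d (vx M u) := by
      obtain ⟨i1, i2⟩ := inn_c d x0 y0 (vx M u)
      have hcon : ¬ (hc d x0 y0 w = -1 ∨ hc d x0 y0 w = -2) := by
        intro hcon
        have rw' := hb.row w (by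
          rcases hew with ⟨h1, h2⟩ | ⟨h1, h2⟩ <;> rw [h1, h2] at hadj <;> omega) hcon
        exact rw'.2 hwB
      apply ext_c d x0 y0
      · rw [i1]
        rcases hew with ⟨h1, h2⟩ | ⟨h1, h2⟩ <;> rw [h1, h2] at hadj <;> omega
      · rw [i2]
        rcases hew with ⟨h1, h2⟩ | ⟨h1, h2⟩ <;> rw [h1, h2] at hadj <;> omega
    rw [← hwe]
    exact ⟨e, he, hew⟩

/-- two tube faces in the middle of a cell -/
theorem middle (h : Ctx N r k ρ l c n M F) {τ σ : Word} {u p u' p' : Pt}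
    (hp : Pnt N r k c n M F τ σ u p) (hp' : Pnt N r k c n M F τ σ u' p')
    {d : Dir} {x0 y0 : ℤ} (hb : HBc N r k c d x0 y0 ρ)
    (ht : -(8 * l : ℤ) ≤ tc d x0 y0 (vx M u) ∧ tc d x0 y0 (vx M u) ≤ 8 * l)
    (hh : hc d x0 y0 (vx M u) = -1)
    (ht' : -(8 * l : ℤ) ≤ tc d x0 y0 (vx M u') ∧ tc d x0 y0 (vx M u') ≤ 8 * l)
    (hh' : hc d x0 y0 (vx M u') = -1)
    (hcen : ∃ i j : ℤ, ((d = Dir.up ∨ d = Dir.dn) ∧ x0 = l * i ∧ (y0 = r * j ∨ y0 = r * j - 1)) ∨
      ((d = Dir.rt ∨ d = Dir.lf) ∧ y0 = l * i ∧ (x0 = r * j ∨ x0 = r * j - 1))) :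
    RA N r k c n M F τ σ p p' := by
  obtain ⟨n1, n2⟩ := h.kn
  have hρ := h.hρr
  have hlρ := h.hlρ
  have hl := h.hl
  have hr1 : 1 ≤ r := by have := h.r1; omega
  obtain ⟨⟨b, hb1, hb2⟩, e, he, hew⟩ := to_rim h hp hb (by omega) hh
  obtain ⟨⟨b', hb1', hb2'⟩, e', he', hew'⟩ := to_rim h hp' hb (by omega) hh'
  obtain ⟨i1, i2⟩ := inn_c d x0 y0 (vx M u)
  obtain ⟨i1', i2'⟩ := inn_c d x0 y0 (vx M u')
  have hcon : Reach (Cc 1 n M F ∩ ↑(hbE d x0 y0 ρ)) (inn d (vx M u)) (inn d (vx M u')) := by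
    by_contra hcon
    apply h.hbad
    right
    obtain ⟨i, j, hij⟩ := hcen
    obtain ⟨m1, m2, m3, m4⟩ := h.n1
    have hd0 : |x0 - (vx M u).1| ≤ 8 * l + 1 ∧ |y0 - (vx M u).2| ≤ 8 * l + 1 := by
      rw [abs_le, abs_le]
      cases d <;> simp only [tc, hc] at ht hh <;> omega
    refine ⟨d, x0, y0, i, j, ?_, ?_, hij, ?_⟩
    · obtain ⟨a1, a2⟩ := abs_le.1 hp.band
      obtain ⟨b1, b2⟩ := abs_le.1 hd0.1
      obtain ⟨b3, b4⟩ := abs_le.1 hd0.2
      have c1 : (32 : ℤ) * l ≤ ρ := by exact_mod_cast hlρ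
      have c2 : (32 : ℤ) * ρ ≤ r := by exact_mod_cast hρ
      have c3 : (1 : ℤ) ≤ l := by exact_mod_cast hl
      rw [abs_le]
      constructor <;> linarith
    · intro s
      by_contra hc2
      push Not at hc2
      obtain ⟨h3, h4⟩ := hc2
      -- the outer neighbour of the centre
      obtain ⟨z, hz1, hz2, hz3⟩ : ∃ z : Vtx, (|z.1 - x0| ≤ 1 ∧ |z.2 - y0| ≤ 1) ∧
          tc d x0 y0 z = 0 ∧ hc d x0 y0 z = -1 := by
        cases d
        · exact ⟨(x0, y0 - 1), by simp, by simp [tc], by simp [hc]⟩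
        · exact ⟨(x0, y0 + 1), by simp, by simp [tc], by simp [hc]⟩
        · exact ⟨(x0 - 1, y0), by simp, by simp [tc], by simp [hc]⟩
        · exact ⟨(x0 + 1, y0), by simp, by simp [tc], by simp [hc]⟩
      have hrow := hb.row z ⟨by rw [hz2]; omega, by rw [hz2]; omega⟩ (Or.inl hz3)
      apply hrow.2
      rw [abs_lt] at h3 h4
      rw [abs_le, abs_le] at hz1
      apply inBox hr1 h.hn z s <;> linarith [hz1.1.1, hz1.1.2, hz1.2.1, hz1.2.2, h3.1, h3.2, h4.1, h4.2]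
    · refine ⟨inn d (vx M u), ?_, inn d (vx M u'), ?_, ⟨b, hb1, hb2⟩, ⟨b', hb1', hb2'⟩, hcon⟩
      · rw [seg_iff, i1, i2, hh]
        refine ⟨⟨?_, ?_⟩, by norm_num⟩ <;> push_cast <;> omega
      · rw [seg_iff, i1', i2', hh']
        refine ⟨⟨?_, ?_⟩, by norm_num⟩ <;> push_cast <;> omega
  -- lift
  have hPu : bp d x0 y0 ρ (vx M u) := ⟨by omega, by rw [hh], by rw [hh]; omega⟩
  have hPu' : bp d x0 y0 ρ (vx M u') := ⟨by omega, by rw [hh'], by rw [hh']; omega⟩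
  have hPi : bp d x0 y0 ρ (inn d (vx M u)) := ⟨by rw [i1]; omega, by rw [i2, hh]; omega, by rw [i2, hh]; omega⟩
  have hPi' : bp d x0 y0 ρ (inn d (vx M u')) := ⟨by rw [i1']; omega, by rw [i2', hh']; omega, by rw [i2', hh']; omega⟩
  have hnear : ∀ v, bp d x0 y0 ρ v → |v.1 - (vx M u).1| ≤ r ∧ |v.2 - (vx M u).2| ≤ r := by
    intro v hv
    apply dist_c d x0 y0
    · rw [abs_le]
      obtain ⟨⟨a1, a2⟩, -⟩ := hv
      push_cast at *
      constructor <;> omega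
    · rw [abs_le, hh]
      obtain ⟨-, a1, a2⟩ := hv
      push_cast at *
      constructor <;> omega
  have hR : Reach (KK N r k c n M F ∩ {e | bp d x0 y0 ρ (src e) ∧ bp d x0 y0 ρ (tgt e)})
      (vx M u) (vx M u') := by
    have r1 : Reach (KK N r k c n M F ∩ {e | bp d x0 y0 ρ (src e) ∧ bp d x0 y0 ρ (tgt e)})
        (vx M u) (inn d (vx M u)) := by
      refine Relation.ReflTransGen.single ⟨e, ⟨he, ?_⟩, hew⟩
      rcases hew with ⟨h1, h2⟩ | ⟨h1, h2⟩
      · exact ⟨h1 ▸ hPu, h2 ▸ hPi⟩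
      · exact ⟨h1 ▸ hPi, h2 ▸ hPu⟩
    have r2 : Reach (KK N r k c n M F ∩ {e | bp d x0 y0 ρ (src e) ∧ bp d x0 y0 ρ (tgt e)})
        (vx M u') (inn d (vx M u')) := by
      refine Relation.ReflTransGen.single ⟨e', ⟨he', ?_⟩, hew'⟩
      rcases hew' with ⟨h1, h2⟩ | ⟨h1, h2⟩
      · exact ⟨h1 ▸ hPu', h2 ▸ hPi'⟩
      · exact ⟨h1 ▸ hPi', h2 ▸ hPu'⟩
    have r3 : Reach (KK N r k c n M F ∩ {e | bp d x0 y0 ρ (src e) ∧ bp d x0 y0 ρ (tgt e)})
        (inn d (vx M u)) (inn d (vx M u')) := by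
      refine Reach.mono ?_ hcon
      rintro e ⟨he1, he2⟩
      rw [Finset.mem_coe, hb_iff] at he2
      refine ⟨CK h he1 (Or.inl (hb.ball _ he2.1)), ?_, ?_⟩
      · exact ⟨he2.1.1, by linarith [he2.1.2.1], he2.1.2.2⟩
      · exact ⟨he2.2.1, by linarith [he2.2.2.1], he2.2.2.2⟩
    exact (r1.trans r3).trans r2.symm
  have := lift' h hp (bp d x0 y0 ρ) hPu hnear hp'.cls hR
  exact (hp.con.trans _ _ _ this).trans _ _ _ (Relation.EqvGen.symm _ _ hp'.con)


/-! ### coarse lines -/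

theorem cr1 (hr : 1 ≤ r) {x : ℤ} (h : (x - 1) / (r : ℤ) ≠ x / r) :
    ∃ j : ℤ, x = r * j ∧ x / (r : ℤ) = j ∧ (x - 1) / (r : ℤ) = j - 1 := by
  refine ⟨x / r, ?_, rfl, ?_⟩
  · by_contra hne
    apply h
    have h1 := (div_iff r hr x _).1 rfl
    rw [div_iff r hr]
    generalize (r : ℤ) * (x / r) = a at *
    omega
  · have h1 := (div_iff r hr x _).1 rfl
    by_cases hx : x = r * (x / r)
    · rw [div_iff r hr, show (r : ℤ) * (x / r - 1) = r * (x / r) - r by ring]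
      generalize (r : ℤ) * (x / r) = a at *
      omega
    · exfalso
      apply h
      rw [div_iff r hr]
      generalize (r : ℤ) * (x / r) = a at *
      omega

theorem cr2 (hr : 1 ≤ r) {x : ℤ} (h : (x + 1) / (r : ℤ) ≠ x / r) :
    ∃ j : ℤ, x + 1 = r * j ∧ x / (r : ℤ) = j - 1 ∧ (x + 1) / (r : ℤ) = j := by
  have h' : (x + 1 - 1) / (r : ℤ) ≠ (x + 1) / r := by
    rw [add_sub_cancel_right]
    exact fun h1 => h h1.symm
  obtain ⟨j, h1, h2, h3⟩ := cr1 hr h'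
  rw [add_sub_cancel_right] at h3
  exact ⟨j, h1, h3, h2⟩

theorem col (hr : 1 ≤ r) {x x' K : ℤ} (h : x / (r : ℤ) ≠ x' / r) (hK : |x - x'| ≤ K) :
    ∃ i : ℤ, |x - r * i| ≤ K ∧ |x' - r * i| ≤ K := by
  have hr0 : (0 : ℤ) < r := by exact_mod_cast hr
  have h1 := (div_iff r hr x _).1 rfl
  have h2 := (div_iff r hr x' _).1 rfl
  rw [abs_le] at hK
  rcases lt_or_gt_of_ne h with h3 | h3
  · have h4 : (r : ℤ) * (x / r) + r ≤ r * (x' / r) := by
      have : x / (r : ℤ) + 1 ≤ x' / r := h3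
      nlinarith
    refine ⟨x' / r, ?_, ?_⟩ <;> rw [abs_le] <;> constructor <;>
      linarith [h1.1, h1.2, h2.1, h2.2, hK.1, hK.2]
  · have h4 : (r : ℤ) * (x' / r) + r ≤ r * (x / r) := by
      have : x' / (r : ℤ) + 1 ≤ x / r := h3
      nlinarith
    refine ⟨x / r, ?_, ?_⟩ <;> rw [abs_le] <;> constructor <;>
      linarith [h1.1, h1.2, h2.1, h2.2, hK.1, hK.2]

theorem near_line (hr : 1 ≤ r) {y j : ℤ} (h1 : (r : ℤ) * j - r ≤ y) (h2 : y < r * j + r) :
    y / (r : ℤ) = j ∨ y / (r : ℤ) = j - 1 := by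
  rw [div_iff r hr, div_iff r hr, show (r : ℤ) * (j - 1) = r * j - r by ring]
  omega

/-- the line between a tube face and its neighbour in a box -/
theorem lineH (hr : 1 ≤ r) {U : Vtx} (hB : ¬ Bv N r k U) {d : Dir} (hd : d = Dir.dn ∨ d = Dir.up)
    (hI : Bv N r k (inn d U)) : ∃ j : ℤ, |U.2 - r * j| ≤ 1 ∧
      ((d = Dir.dn ∧ U.2 = r * j ∧ fl r U = (U.1 / (r : ℤ), j) ∧ fl r (inn d U) = (U.1 / (r : ℤ), j - 1)) ∨
      (d = Dir.up ∧ U.2 + 1 = r * j ∧ fl r U = (U.1 / (r : ℤ), j - 1) ∧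
        fl r (inn d U) = (U.1 / (r : ℤ), j))) := by
  rcases hd with rfl | rfl
  · have hne : (U.2 - 1) / (r : ℤ) ≠ U.2 / r := by
      intro he
      apply hB
      have : fl r U = fl r (inn Dir.dn U) := by
        unfold H12S.fl inn
        simp only [he]
      unfold Bv
      rw [this]
      exact hI
    obtain ⟨j, h1, h2, h3⟩ := cr1 hr hne
    refine ⟨j, by rw [abs_le]; omega, Or.inl ⟨rfl, h1, ?_, ?_⟩⟩
    · unfold H12S.fl
      simp only [h2]
    · unfold H12S.fl inn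
      simp only [h3]
  · have hne : (U.2 + 1) / (r : ℤ) ≠ U.2 / r := by
      intro he
      apply hB
      have : fl r U = fl r (inn Dir.up U) := by
        unfold H12S.fl inn
        simp only [he]
      unfold Bv
      rw [this]
      exact hI
    obtain ⟨j, h1, h2, h3⟩ := cr2 hr hne
    refine ⟨j, by rw [abs_le]; omega, Or.inr ⟨rfl, h1, ?_, ?_⟩⟩
    · unfold H12S.fl
      simp only [h2]
    · unfold H12S.fl inn
      simp only [h3]

theorem lineV (hr : 1 ≤ r) {U : Vtx} (hB : ¬ Bv N r k U) {d : Dir} (hd : d = Dir.lf ∨ d = Dir.rt)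
    (hI : Bv N r k (inn d U)) : ∃ i : ℤ, |U.1 - r * i| ≤ 1 ∧
      ((d = Dir.lf ∧ U.1 = r * i ∧ fl r U = (i, U.2 / (r : ℤ)) ∧ fl r (inn d U) = (i - 1, U.2 / (r : ℤ))) ∨
      (d = Dir.rt ∧ U.1 + 1 = r * i ∧ fl r U = (i - 1, U.2 / (r : ℤ)) ∧
        fl r (inn d U) = (i, U.2 / (r : ℤ)))) := by
  rcases hd with rfl | rfl
  · have hne : (U.1 - 1) / (r : ℤ) ≠ U.1 / r := by
      intro he
      apply hB
      have : fl r U = fl r (inn Dir.lf U) := by
        unfold H12S.fl inn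
        simp only [he]
      unfold Bv
      rw [this]
      exact hI
    obtain ⟨j, h1, h2, h3⟩ := cr1 hr hne
    refine ⟨j, by rw [abs_le]; omega, Or.inl ⟨rfl, h1, ?_, ?_⟩⟩
    · unfold H12S.fl
      simp only [h2]
    · unfold H12S.fl inn
      simp only [h3]
  · have hne : (U.1 + 1) / (r : ℤ) ≠ U.1 / r := by
      intro he
      apply hB
      have : fl r U = fl r (inn Dir.rt U) := by
        unfold H12S.fl inn
        simp only [he]
      unfold Bv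
      rw [this]
      exact hI
    obtain ⟨j, h1, h2, h3⟩ := cr2 hr hne
    refine ⟨j, by rw [abs_le]; omega, Or.inr ⟨rfl, h1, ?_, ?_⟩⟩
    · unfold H12S.fl
      simp only [h2]
    · unfold H12S.fl inn
      simp only [h3]

theorem Ctx.nums (h : Ctx N r k ρ l c n M F) : (32 : ℤ) * l ≤ ρ ∧ (32 : ℤ) * ρ ≤ r ∧ (1 : ℤ) ≤ l :=
  ⟨by exact_mod_cast h.hlρ, by exact_mod_cast h.hρr, by exact_mod_cast h.hl⟩

/-- the direction -/
theorem dirn (h : Ctx N r k ρ l c n M F) {τ σ : Word} {u p : Pt}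
    (hp : Pnt N r k c n M F τ σ u p) (hU : Pv N r k c (vx M u)) :
    ∃ d : Dir, Bv N r k (inn d (vx M u)) := by
  obtain ⟨w, hw, e, -, hew⟩ := nb h hp hU
  obtain ⟨x, y, b⟩ := e
  rcases hew with ⟨h1, h2⟩ | ⟨h1, h2⟩
  · cases b
    · refine ⟨Dir.up, ?_⟩
      rw [src_mk] at h1; rw [tgt_false] at h2
      rw [← h1]; rw [← h2] at hw; exact hw
    · refine ⟨Dir.rt, ?_⟩
      rw [src_mk] at h1; rw [tgt_true] at h2
      rw [← h1]; rw [← h2] at hw; exact hw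
  · cases b
    · refine ⟨Dir.dn, ?_⟩
      rw [src_mk] at h1; rw [tgt_false] at h2
      rw [← h2]; rw [← h1] at hw
      simpa [inn] using hw
    · refine ⟨Dir.lf, ?_⟩
      rw [src_mk] at h1; rw [tgt_true] at h2
      rw [← h2]; rw [← h1] at hw
      simpa [inn] using hw

theorem caseB (h : Ctx N r k ρ l c n M F) {τ σ : Word} {u p u' p' : Pt}
    (hp : Pnt N r k c n M F τ σ u p) (hp' : Pnt N r k c n M F τ σ u' p')
    (hU : Pv N r k c (vx M u)) (hU' : ¬ Pv N r k c (vx M u'))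
    (d1 : |(vx M u).1 - (vx M u').1| ≤ 4 * l) (d2 : |(vx M u).2 - (vx M u').2| ≤ 4 * l) :
    RA N r k c n M F τ σ p p' := by
  have hr1 : 1 ≤ r := by have := h.r1; omega
  obtain ⟨c1, c2, c3⟩ := h.nums
  obtain ⟨d, hd⟩ := dirn h hp hU
  have e1 := abs_le.1 d1
  have e2 := abs_le.1 d2
  by_cases hdH : d = Dir.dn ∨ d = Dir.up
  · obtain ⟨j, hj, hfl⟩ := lineH hr1 hp.nB hdH hd
    have ej := abs_le.1 hj
    have hl' := near_line (r := r) hr1 (y := (vx M u').2) (j := j) (by linarith [e2.1, e2.2, ej.1, ej.2])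
      (by linarith [e2.1, e2.2, ej.1, ej.2])
    have hne : (vx M u).1 / (r : ℤ) ≠ (vx M u').1 / r := by
      intro he
      apply hU'
      have : fl r (vx M u') = ((vx M u).1 / (r : ℤ), (vx M u').2 / (r : ℤ)) := by
        unfold H12S.fl
        rw [he]
      unfold Pv
      rw [this]
      rcases hfl with ⟨-, -, f1, f2⟩ | ⟨-, -, f1, f2⟩ <;> rcases hl' with hl' | hl' <;> rw [hl']
      · rw [← f1]; exact hU
      · rw [← f2]; exact Pv_of_Bv hd
      · rw [← f2]; exact Pv_of_Bv hd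
      · rw [← f1]; exact hU
    obtain ⟨i, i1, i2⟩ := col hr1 hne d1
    have ei1 := abs_le.1 i1
    have ei2 := abs_le.1 i2
    refine mixed h hp hp' hU hU' (i, j) ⟨?_, ?_⟩ ⟨?_, ?_⟩ <;> simp only <;> rw [abs_le] <;>
      constructor <;> linarith [e2.1, e2.2, ej.1, ej.2, ei1.1, ei1.2, ei2.1, ei2.2]
  · have hdV : d = Dir.lf ∨ d = Dir.rt := by cases d <;> simp_all
    obtain ⟨i, hi, hfl⟩ := lineV hr1 hp.nB hdV hd
    have ei := abs_le.1 hi
    have hl' := near_line (r := r) hr1 (y := (vx M u').1) (j := i) (by linarith [e1.1, e1.2, ei.1, ei.2])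
      (by linarith [e1.1, e1.2, ei.1, ei.2])
    have hne : (vx M u).2 / (r : ℤ) ≠ (vx M u').2 / r := by
      intro he
      apply hU'
      have : fl r (vx M u') = ((vx M u').1 / (r : ℤ), (vx M u).2 / (r : ℤ)) := by
        unfold H12S.fl
        rw [he]
      unfold Pv
      rw [this]
      rcases hfl with ⟨-, -, f1, f2⟩ | ⟨-, -, f1, f2⟩ <;> rcases hl' with hl' | hl' <;> rw [hl']
      · rw [← f1]; exact hU
      · rw [← f2]; exact Pv_of_Bv hd
      · rw [← f2]; exact Pv_of_Bv hd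
      · rw [← f1]; exact hU
    obtain ⟨j, i1, i2⟩ := col hr1 hne d2
    have ei1 := abs_le.1 i1
    have ei2 := abs_le.1 i2
    refine mixed h hp hp' hU hU' (i, j) ⟨?_, ?_⟩ ⟨?_, ?_⟩ <;> simp only <;> rw [abs_le] <;>
      constructor <;> linarith [e1.1, e1.2, ei.1, ei.2, ei1.1, ei1.2, ei2.1, ei2.2]


theorem sameDn (h : Ctx N r k ρ l c n M F) {τ σ : Word} {u p u' p' : Pt}
    (hp : Pnt N r k c n M F τ σ u p) (hp' : Pnt N r k c n M F τ σ u' p')
    (hU : Pv N r k c (vx M u)) (hU' : Pv N r k c (vx M u'))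
    (d1 : |(vx M u).1 - (vx M u').1| ≤ 4 * l) {a j : ℤ}
    (hj : (vx M u).2 = r * j) (hj' : (vx M u').2 = r * j)
    (f1 : fl r (vx M u) = (a, j)) (f1' : fl r (vx M u') = (a, j))
    (f2 : fl r (inn Dir.dn (vx M u)) = (a, j - 1)) (hB : Bv N r k (inn Dir.dn (vx M u))) :
    RA N r k c n M F τ σ p p' := by
  have hr1 : 1 ≤ r := by have := h.r1; omega
  obtain ⟨c1, c2, c3⟩ := h.nums
  have e1 := abs_le.1 d1
  obtain ⟨⟨g1, g2⟩, -⟩ := (fl_iff r hr1 _ _).1 f1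
  simp only at g1 g2
  by_cases h1 : (vx M u).1 - r * a ≤ 2 * ρ
  · refine two h hp hp' hU hU' (a, j) ⟨?_, ?_⟩ ⟨?_, ?_⟩ <;> simp only <;> rw [abs_le] <;>
      constructor <;> linarith [e1.1, e1.2]
  by_cases h2 : r * a + r - (vx M u).1 ≤ 2 * ρ
  · have e : (r : ℤ) * (a + 1) = r * a + r := by ring
    refine two h hp hp' hU hU' (a + 1, j) ⟨?_, ?_⟩ ⟨?_, ?_⟩ <;> simp only <;> rw [abs_le] <;>
      constructor <;> linarith [e1.1, e1.2]
  push Not at h1 h2
  have hl1 : 1 ≤ l := h.hl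
  obtain ⟨g3, g4⟩ := (div_iff l hl1 (vx M u).1 _).1 rfl
  have er : (r : ℤ) * (j - 1) = r * j - r := by ring
  refine middle h hp hp' (d := Dir.dn) (x0 := l * ((vx M u).1 / (l : ℤ))) (y0 := r * j - 1)
    ⟨?_, ?_⟩ ?_ ?_ ?_ ?_ ⟨_, j, Or.inl ⟨Or.inr rfl, rfl, Or.inr rfl⟩⟩
  · intro v hv
    unfold bal at hv
    simp only [tc, hc] at hv
    obtain ⟨⟨v1, v2⟩, v3, v4⟩ := hv
    have : fl r v = (a, j - 1) := by
      rw [fl_iff r hr1]
      simp only
      rw [er]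
      refine ⟨⟨by linarith, by linarith⟩, by linarith, by linarith⟩
    unfold Bv
    rw [this, ← f2]
    exact hB
  · intro v hv hv'
    simp only [tc, hc] at hv hv'
    have : fl r v = fl r (vx M u) := by
      rw [f1, fl_iff r hr1]
      simp only
      rcases hv' with hv' | hv' <;>
        exact ⟨⟨by linarith [hv.1, hv.2], by linarith [hv.1, hv.2]⟩, by linarith, by linarith⟩
    unfold Pv Bv
    rw [this]
    exact ⟨hU, hp.nB⟩
  · simp only [tc]
    constructor <;> linarith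
  · simp only [hc]
    linarith
  · simp only [tc]
    constructor <;> linarith [e1.1, e1.2]
  · simp only [hc]
    linarith

theorem sameUp (h : Ctx N r k ρ l c n M F) {τ σ : Word} {u p u' p' : Pt}
    (hp : Pnt N r k c n M F τ σ u p) (hp' : Pnt N r k c n M F τ σ u' p')
    (hU : Pv N r k c (vx M u)) (hU' : Pv N r k c (vx M u'))
    (d1 : |(vx M u).1 - (vx M u').1| ≤ 4 * l) {a j : ℤ}
    (hj : (vx M u).2 + 1 = r * j) (hj' : (vx M u').2 + 1 = r * j)
    (f1 : fl r (vx M u) = (a, j - 1)) (f1' : fl r (vx M u') = (a, j - 1))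
    (f2 : fl r (inn Dir.up (vx M u)) = (a, j)) (hB : Bv N r k (inn Dir.up (vx M u))) :
    RA N r k c n M F τ σ p p' := by
  have hr1 : 1 ≤ r := by have := h.r1; omega
  obtain ⟨c1, c2, c3⟩ := h.nums
  have e1 := abs_le.1 d1
  obtain ⟨⟨g1, g2⟩, -⟩ := (fl_iff r hr1 _ _).1 f1
  simp only at g1 g2
  by_cases h1 : (vx M u).1 - r * a ≤ 2 * ρ
  · refine two h hp hp' hU hU' (a, j) ⟨?_, ?_⟩ ⟨?_, ?_⟩ <;> simp only <;> rw [abs_le] <;>
      constructor <;> linarith [e1.1, e1.2]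
  by_cases h2 : r * a + r - (vx M u).1 ≤ 2 * ρ
  · have e : (r : ℤ) * (a + 1) = r * a + r := by ring
    refine two h hp hp' hU hU' (a + 1, j) ⟨?_, ?_⟩ ⟨?_, ?_⟩ <;> simp only <;> rw [abs_le] <;>
      constructor <;> linarith [e1.1, e1.2]
  push Not at h1 h2
  have hl1 : 1 ≤ l := h.hl
  obtain ⟨g3, g4⟩ := (div_iff l hl1 (vx M u).1 _).1 rfl
  have er : (r : ℤ) * (j - 1) = r * j - r := by ring
  refine middle h hp hp' (d := Dir.up) (x0 := l * ((vx M u).1 / (l : ℤ))) (y0 := r * j)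
    ⟨?_, ?_⟩ ?_ ?_ ?_ ?_ ⟨_, j, Or.inl ⟨Or.inl rfl, rfl, Or.inl rfl⟩⟩
  · intro v hv
    unfold bal at hv
    simp only [tc, hc] at hv
    obtain ⟨⟨v1, v2⟩, v3, v4⟩ := hv
    have : fl r v = (a, j) := by
      rw [fl_iff r hr1]
      simp only
      refine ⟨⟨by linarith, by linarith⟩, by linarith, by linarith⟩
    unfold Bv
    rw [this, ← f2]
    exact hB
  · intro v hv hv'
    simp only [tc, hc] at hv hv'
    have : fl r v = fl r (vx M u) := by
      rw [f1, fl_iff r hr1]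
      simp only
      rw [er]
      rcases hv' with hv' | hv' <;>
        exact ⟨⟨by linarith [hv.1, hv.2], by linarith [hv.1, hv.2]⟩, by linarith, by linarith⟩
    unfold Pv Bv
    rw [this]
    exact ⟨hU, hp.nB⟩
  · simp only [tc]
    constructor <;> linarith
  · simp only [hc]
    linarith
  · simp only [tc]
    constructor <;> linarith [e1.1, e1.2]
  · simp only [hc]
    linarith

theorem sameLf (h : Ctx N r k ρ l c n M F) {τ σ : Word} {u p u' p' : Pt}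
    (hp : Pnt N r k c n M F τ σ u p) (hp' : Pnt N r k c n M F τ σ u' p')
    (hU : Pv N r k c (vx M u)) (hU' : Pv N r k c (vx M u'))
    (d1 : |(vx M u).2 - (vx M u').2| ≤ 4 * l) {a j : ℤ}
    (hj : (vx M u).1 = r * j) (hj' : (vx M u').1 = r * j)
    (f1 : fl r (vx M u) = (j, a)) (f1' : fl r (vx M u') = (j, a))
    (f2 : fl r (inn Dir.lf (vx M u)) = (j - 1, a)) (hB : Bv N r k (inn Dir.lf (vx M u))) :
    RA N r k c n M F τ σ p p' := by
  have hr1 : 1 ≤ r := by have := h.r1; omega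
  obtain ⟨c1, c2, c3⟩ := h.nums
  have e1 := abs_le.1 d1
  obtain ⟨-, g1, g2⟩ := (fl_iff r hr1 _ _).1 f1
  simp only at g1 g2
  by_cases h1 : (vx M u).2 - r * a ≤ 2 * ρ
  · refine two h hp hp' hU hU' (j, a) ⟨?_, ?_⟩ ⟨?_, ?_⟩ <;> simp only <;> rw [abs_le] <;>
      constructor <;> linarith [e1.1, e1.2]
  by_cases h2 : r * a + r - (vx M u).2 ≤ 2 * ρ
  · have e : (r : ℤ) * (a + 1) = r * a + r := by ring
    refine two h hp hp' hU hU' (j, a + 1) ⟨?_, ?_⟩ ⟨?_, ?_⟩ <;> simp only <;> rw [abs_le] <;>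
      constructor <;> linarith [e1.1, e1.2]
  push Not at h1 h2
  have hl1 : 1 ≤ l := h.hl
  obtain ⟨g3, g4⟩ := (div_iff l hl1 (vx M u).2 _).1 rfl
  have er : (r : ℤ) * (j - 1) = r * j - r := by ring
  refine middle h hp hp' (d := Dir.lf) (x0 := r * j - 1) (y0 := l * ((vx M u).2 / (l : ℤ)))
    ⟨?_, ?_⟩ ?_ ?_ ?_ ?_ ⟨_, j, Or.inr ⟨Or.inr rfl, rfl, Or.inr rfl⟩⟩
  · intro v hv
    unfold bal at hv
    simp only [tc, hc] at hv
    obtain ⟨⟨v1, v2⟩, v3, v4⟩ := hv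
    have : fl r v = (j - 1, a) := by
      rw [fl_iff r hr1]
      simp only
      rw [er]
      refine ⟨⟨by linarith, by linarith⟩, by linarith, by linarith⟩
    unfold Bv
    rw [this, ← f2]
    exact hB
  · intro v hv hv'
    simp only [tc, hc] at hv hv'
    have : fl r v = fl r (vx M u) := by
      rw [f1, fl_iff r hr1]
      simp only
      rcases hv' with hv' | hv' <;>
        exact ⟨⟨by linarith, by linarith⟩, by linarith [hv.1, hv.2], by linarith [hv.1, hv.2]⟩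
    unfold Pv Bv
    rw [this]
    exact ⟨hU, hp.nB⟩
  · simp only [tc]
    constructor <;> linarith
  · simp only [hc]
    linarith
  · simp only [tc]
    constructor <;> linarith [e1.1, e1.2]
  · simp only [hc]
    linarith

theorem sameRt (h : Ctx N r k ρ l c n M F) {τ σ : Word} {u p u' p' : Pt}
    (hp : Pnt N r k c n M F τ σ u p) (hp' : Pnt N r k c n M F τ σ u' p')
    (hU : Pv N r k c (vx M u)) (hU' : Pv N r k c (vx M u'))
    (d1 : |(vx M u).2 - (vx M u').2| ≤ 4 * l) {a j : ℤ}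
    (hj : (vx M u).1 + 1 = r * j) (hj' : (vx M u').1 + 1 = r * j)
    (f1 : fl r (vx M u) = (j - 1, a)) (f1' : fl r (vx M u') = (j - 1, a))
    (f2 : fl r (inn Dir.rt (vx M u)) = (j, a)) (hB : Bv N r k (inn Dir.rt (vx M u))) :
    RA N r k c n M F τ σ p p' := by
  have hr1 : 1 ≤ r := by have := h.r1; omega
  obtain ⟨c1, c2, c3⟩ := h.nums
  have e1 := abs_le.1 d1
  obtain ⟨-, g1, g2⟩ := (fl_iff r hr1 _ _).1 f1
  simp only at g1 g2
  by_cases h1 : (vx M u).2 - r * a ≤ 2 * ρ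
  · refine two h hp hp' hU hU' (j, a) ⟨?_, ?_⟩ ⟨?_, ?_⟩ <;> simp only <;> rw [abs_le] <;>
      constructor <;> linarith [e1.1, e1.2]
  by_cases h2 : r * a + r - (vx M u).2 ≤ 2 * ρ
  · have e : (r : ℤ) * (a + 1) = r * a + r := by ring
    refine two h hp hp' hU hU' (j, a + 1) ⟨?_, ?_⟩ ⟨?_, ?_⟩ <;> simp only <;> rw [abs_le] <;>
      constructor <;> linarith [e1.1, e1.2]
  push Not at h1 h2
  have hl1 : 1 ≤ l := h.hl
  obtain ⟨g3, g4⟩ := (div_iff l hl1 (vx M u).2 _).1 rfl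
  have er : (r : ℤ) * (j - 1) = r * j - r := by ring
  refine middle h hp hp' (d := Dir.rt) (x0 := r * j) (y0 := l * ((vx M u).2 / (l : ℤ)))
    ⟨?_, ?_⟩ ?_ ?_ ?_ ?_ ⟨_, j, Or.inr ⟨Or.inl rfl, rfl, Or.inl rfl⟩⟩
  · intro v hv
    unfold bal at hv
    simp only [tc, hc] at hv
    obtain ⟨⟨v1, v2⟩, v3, v4⟩ := hv
    have : fl r v = (j, a) := by
      rw [fl_iff r hr1]
      simp only
      refine ⟨⟨by linarith, by linarith⟩, by linarith, by linarith⟩
    unfold Bv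
    rw [this, ← f2]
    exact hB
  · intro v hv hv'
    simp only [tc, hc] at hv hv'
    have : fl r v = fl r (vx M u) := by
      rw [f1, fl_iff r hr1]
      simp only
      rw [er]
      rcases hv' with hv' | hv' <;>
        exact ⟨⟨by linarith, by linarith⟩, by linarith [hv.1, hv.2], by linarith [hv.1, hv.2]⟩
    unfold Pv Bv
    rw [this]
    exact ⟨hU, hp.nB⟩
  · simp only [tc]
    constructor <;> linarith
  · simp only [hc]
    linarith
  · simp only [tc]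
    constructor <;> linarith [e1.1, e1.2]
  · simp only [hc]
    linarith

/-- two lines at distance less than `r` coincide -/
theorem line_eq (hr : 1 ≤ r) {j j' : ℤ} (h1 : (r : ℤ) * j - r * j' < r) (h2 : (r : ℤ) * j' - r * j < r) :
    j = j' := by
  have hr0 : (0 : ℤ) < r := by exact_mod_cast hr
  by_contra hne
  rcases lt_or_gt_of_ne hne with h3 | h3
  · have : j + 1 ≤ j' := h3
    nlinarith
  · have : j' + 1 ≤ j := h3
    nlinarith

theorem caseC (h : Ctx N r k ρ l c n M F) {τ σ : Word} {u p u' p' : Pt}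
    (hp : Pnt N r k c n M F τ σ u p) (hp' : Pnt N r k c n M F τ σ u' p')
    (hU : Pv N r k c (vx M u)) (hU' : Pv N r k c (vx M u'))
    (d1 : |(vx M u).1 - (vx M u').1| ≤ 4 * l) (d2 : |(vx M u).2 - (vx M u').2| ≤ 4 * l) :
    RA N r k c n M F τ σ p p' := by
  have hr1 : 1 ≤ r := by have := h.r1; omega
  obtain ⟨c1, c2, c3⟩ := h.nums
  obtain ⟨d, hd⟩ := dirn h hp hU
  obtain ⟨d', hd'⟩ := dirn h hp' hU'
  have e1 := abs_le.1 d1
  have e2 := abs_le.1 d2
  by_cases hdH : d = Dir.dn ∨ d = Dir.up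
  · obtain ⟨j, hj, hfl⟩ := lineH hr1 hp.nB hdH hd
    have ej := abs_le.1 hj
    by_cases hdH' : d' = Dir.dn ∨ d' = Dir.up
    · obtain ⟨j', hj', hfl'⟩ := lineH hr1 hp'.nB hdH' hd'
      have ej' := abs_le.1 hj'
      by_cases hne : (vx M u).1 / (r : ℤ) = (vx M u').1 / r
      · have hjj : j = j' := line_eq hr1 (by linarith [e2.1, e2.2, ej.1, ej.2, ej'.1, ej'.2])
          (by linarith [e2.1, e2.2, ej.1, ej.2, ej'.1, ej'.2])
        subst hjj
        rw [← hne] at hfl'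
        rcases hfl with ⟨rfl, f0, f1, f2⟩ | ⟨rfl, f0, f1, f2⟩ <;>
          rcases hfl' with ⟨rfl, f0', f1', f2'⟩ | ⟨rfl, f0', f1', f2'⟩
        · exact sameDn h hp hp' hU hU' d1 f0 f0' f1 f1' f2 hd
        · exfalso
          apply hp'.nB
          unfold Bv
          rw [f1', ← f2]
          exact hd
        · exfalso
          apply hp'.nB
          unfold Bv
          rw [f1', ← f2]
          exact hd
        · exact sameUp h hp hp' hU hU' d1 f0 f0' f1 f1' f2 hd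
      · obtain ⟨i, i1, i2⟩ := col hr1 hne d1
        have ei1 := abs_le.1 i1
        have ei2 := abs_le.1 i2
        refine two h hp hp' hU hU' (i, j) ⟨?_, ?_⟩ ⟨?_, ?_⟩ <;> simp only <;> rw [abs_le] <;>
          constructor <;> linarith [e2.1, e2.2, ej.1, ej.2, ei1.1, ei1.2, ei2.1, ei2.2]
    · have hdV' : d' = Dir.lf ∨ d' = Dir.rt := by cases d' <;> simp_all
      obtain ⟨i, hi, -⟩ := lineV hr1 hp'.nB hdV' hd'
      have ei := abs_le.1 hi
      refine two h hp hp' hU hU' (i, j) ⟨?_, ?_⟩ ⟨?_, ?_⟩ <;> simp only <;> rw [abs_le] <;>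
        constructor <;> linarith [e1.1, e1.2, e2.1, e2.2, ej.1, ej.2, ei.1, ei.2]
  · have hdV : d = Dir.lf ∨ d = Dir.rt := by cases d <;> simp_all
    obtain ⟨j, hj, hfl⟩ := lineV hr1 hp.nB hdV hd
    have ej := abs_le.1 hj
    by_cases hdH' : d' = Dir.dn ∨ d' = Dir.up
    · obtain ⟨i, hi, -⟩ := lineH hr1 hp'.nB hdH' hd'
      have ei := abs_le.1 hi
      refine two h hp hp' hU hU' (j, i) ⟨?_, ?_⟩ ⟨?_, ?_⟩ <;> simp only <;> rw [abs_le] <;>
        constructor <;> linarith [e1.1, e1.2, e2.1, e2.2, ej.1, ej.2, ei.1, ei.2]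
    · have hdV' : d' = Dir.lf ∨ d' = Dir.rt := by cases d' <;> simp_all
      obtain ⟨j', hj', hfl'⟩ := lineV hr1 hp'.nB hdV' hd'
      have ej' := abs_le.1 hj'
      by_cases hne : (vx M u).2 / (r : ℤ) = (vx M u').2 / r
      · have hjj : j = j' := line_eq hr1 (by linarith [e1.1, e1.2, ej.1, ej.2, ej'.1, ej'.2])
          (by linarith [e1.1, e1.2, ej.1, ej.2, ej'.1, ej'.2])
        subst hjj
        rw [← hne] at hfl'
        rcases hfl with ⟨rfl, f0, f1, f2⟩ | ⟨rfl, f0, f1, f2⟩ <;>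
          rcases hfl' with ⟨rfl, f0', f1', f2'⟩ | ⟨rfl, f0', f1', f2'⟩
        · exact sameLf h hp hp' hU hU' d2 f0 f0' f1 f1' f2 hd
        · exfalso
          apply hp'.nB
          unfold Bv
          rw [f1', ← f2]
          exact hd
        · exfalso
          apply hp'.nB
          unfold Bv
          rw [f1', ← f2]
          exact hd
        · exact sameRt h hp hp' hU hU' d2 f0 f0' f1 f1' f2 hd
      · obtain ⟨i, i1, i2⟩ := col hr1 hne d2
        have ei1 := abs_le.1 i1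
        have ei2 := abs_le.1 i2
        refine two h hp hp' hU hU' (j, i) ⟨?_, ?_⟩ ⟨?_, ?_⟩ <;> simp only <;> rw [abs_le] <;>
          constructor <;> linarith [e1.1, e1.2, ej.1, ej.2, ei1.1, ei1.2, ei2.1, ei2.2]

theorem caseA (h : Ctx N r k ρ l c n M F) {τ σ : Word} {u p u' p' : Pt}
    (hp : Pnt N r k c n M F τ σ u p) (hp' : Pnt N r k c n M F τ σ u' p')
    (hU : ¬ Pv N r k c (vx M u)) (hU' : ¬ Pv N r k c (vx M u'))
    (d1 : |(vx M u).1 - (vx M u').1| ≤ 4 * l) (d2 : |(vx M u).2 - (vx M u').2| ≤ 4 * l) :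
    RA N r k c n M F τ σ p p' := by
  have hr1 : 1 ≤ r := by have := h.r1; omega
  obtain ⟨c1, c2, c3⟩ := h.nums
  have hr0 : (0 : ℤ) < r := by exact_mod_cast hr1
  have key : ∀ x x' : ℤ, |x - x'| ≤ 4 * l → |x / (r : ℤ) - x' / r| ≤ 1 := by
    intro x x' hx
    have h1 := (div_iff r hr1 x _).1 rfl
    have h2 := (div_iff r hr1 x' _).1 rfl
    have h3 := abs_le.1 hx
    rw [abs_le]
    constructor
    · by_contra hcon
      have h4 : x / (r : ℤ) + 2 ≤ x' / r := by omega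
      nlinarith
    · by_contra hcon
      have h4 : x' / (r : ℤ) + 2 ≤ x / r := by omega
      nlinarith
  exact RA_chain hp.con (outer h τ σ hp.cls hp'.cls hU hU' (key _ _ d1) (key _ _ d2)
    (by linarith [hp.band])) (Relation.EqvGen.refl _) (Relation.EqvGen.refl _) hp'.con

end D

end TSEPA

open TSEPA in
theorem t_SEPA : S_g1 → S_g2 → S_g4 → S_EXI → S_LIF → S_SEPA := by
  intro _ _ hg4 hexi hlif N r k ρ l c hk hkN hAdm hl hlρ hρr n M hn hM F hF hbad τ σ p p' u u'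
    hXp hXp' hpu hpu' hu hu' hNr
  obtain ⟨g1, g2, g3, g4⟩ := hg4 N k c (by omega) hk hAdm _ rfl
  have h : Ctx N r k ρ l c n M F := ⟨hk, hkN, hl, hlρ, hρr, hn, hM, hF, hbad, g3, g1, g2, g4, hexi, hlif⟩
  have hr1 : 1 ≤ r := by have := h.r1; omega
  have mk : ∀ u p : Pt, XA N r k c n M p → RB 1 n M k (Ac 1 n M (FA N r k c n M F)) τ σ p u →
      (∃ e ∈ CE n M, e ∉ EP r (Bxs N k) ∧ e ∈ EP r (Crr N k c) ∧ ∃ w, Dg n M 1 e u w ∨ Dg n M 1 e w u) →
      Pnt N r k c n M F τ σ u p := by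
    intro u p hX hR hu
    obtain ⟨a1, a2, U2, a3, a4, a5⟩ := U_facts hr1 hn g3 hu
    obtain ⟨b1, b2⟩ := XA_facts hr1 hn g3 hX
    refine ⟨a1, a2, ?_, b1, b2, hR⟩
    have b := abs_le.1 (g4 _ a5)
    obtain ⟨⟨z1, z2⟩, z3, z4⟩ := (fl_iff r hr1 U2 _).1 rfl
    have hr0 : (0 : ℤ) < r := by exact_mod_cast hr1
    have hnZ := h.nZ
    have e3 := abs_le.1 a3
    have e4 := abs_le.1 a4
    have m1 : (r : ℤ) * (fl r U2).1 - r * (fl r U2).2 ≤ n := by
      rw [hnZ]; nlinarith [b.2]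
    have m2 : (r : ℤ) * (fl r U2).2 - r * (fl r U2).1 ≤ n := by
      rw [hnZ]; nlinarith [b.1]
    rw [abs_le]
    constructor <;> linarith [e3.1, e3.2, e4.1, e4.2]
  have hp := mk u p hXp hpu hu
  have hp' := mk u' p' hXp' hpu' hu'
  obtain ⟨d1, d2⟩ := hNr
  by_cases hU : Pv N r k c (vx M u)
  · by_cases hU' : Pv N r k c (vx M u')
    · exact caseC h hp hp' hU hU' d1 d2
    · exact caseB h hp hp' hU hU' d1 d2
  · by_cases hU' : Pv N r k c (vx M u')
    · refine Relation.EqvGen.symm _ _ (caseB h hp' hp hU' hU ?_ ?_)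
      · rw [abs_sub_comm]; exact d1
      · rw [abs_sub_comm]; exact d2
    · exact caseA h hp hp' hU hU' d1 d2

end Pool.Agent.H160R2.MU
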