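import Pool.Agent.H160R2.MU.Defs
import Pool.Agent.H12R2.Sep.Fail2

/-!
# Different primal clusters are far from each other at the boundary of boxes and tubes (helper536)
-/

set_option autoImplicit false

namespace Pool.Agent.H160R2.MU
open Pool.Agent.H863R2.Cyl
open Pool.Agent.H988R2.Perc (Word PD)
open Pool.Agent.H160R2.ML
open H974 H906.Cyl
open H12S (Dir hbE segD rimE H4 H3g Crs Nr sqE FD_nb FD_nb_of FD_mem_RE FD_of_mem_RE FD_div)

namespace TSEPB

theorem sq_uniq {r : ℕ} (hr : 1 ≤ r) {a b x : ℤ} (h1 : (r : ℤ) * a < x) (h2 : x < (r : ℤ) * a + r)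
    (h3 : (r : ℤ) * b ≤ x) (h4 : x ≤ (r : ℤ) * b + r) : b = a := by
  have hr' : (0 : ℤ) < r := by exact_mod_cast hr
  have e1 : a < b + 1 := by
    have : (r : ℤ) * a < r * (b + 1) := by rw [mul_add, mul_one]; linarith
    exact lt_of_mul_lt_mul_left this hr'.le
  have e2 : b < a + 1 := by
    have : (r : ℤ) * b < r * (a + 1) := by rw [mul_add, mul_one]; linarith
    exact lt_of_mul_lt_mul_left this hr'.le
  omega

theorem sq_below {r : ℕ} (hr : 1 ≤ r) {a b : ℤ} (h1 : (r : ℤ) * b ≤ r * a - 1)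
    (h2 : (r : ℤ) * a ≤ r * b + r) : b = a - 1 := by
  have hr' : (0 : ℤ) < r := by exact_mod_cast hr
  have e1 : a ≤ b + 1 := by
    have : (r : ℤ) * a ≤ r * (b + 1) := by rw [mul_add, mul_one]; linarith
    exact le_of_mul_le_mul_left this hr'
  have e2 : b < a := by
    have : (r : ℤ) * b < r * a := by linarith
    exact lt_of_mul_lt_mul_left this hr'.le
  omega

theorem EP_loc {r : ℕ} {P : Set (ℤ × ℤ)} {g : Edg} (hg : g ∈ EP r P) {w w2 : Vtx}
    (h : (src g = w ∧ tgt g = w2) ∨ (src g = w2 ∧ tgt g = w)) :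
    ∃ z ∈ P, inSq r z w ∧ inSq r z w2 := by
  obtain ⟨z, hz, hgz⟩ := hg
  refine ⟨z, hz, ?_⟩
  obtain ⟨h1, h2⟩ := FD_of_mem_RE hgz
  unfold inR at h1 h2
  unfold inSq
  rcases h with ⟨rfl, rfl⟩ | ⟨rfl, rfl⟩
  · exact ⟨⟨h1.1.1, h1.1.2, h1.2.1, h1.2.2⟩, ⟨h2.1.1, h2.1.2, h2.2.1, h2.2.2⟩⟩
  · exact ⟨⟨h2.1.1, h2.1.2, h2.2.1, h2.2.2⟩, ⟨h1.1.1, h1.1.2, h1.2.1, h1.2.2⟩⟩

theorem EP_of {r : ℕ} {P : Set (ℤ × ℤ)} {g : Edg} {z : ℤ × ℤ} (hz : z ∈ P)
    (h1 : inSq r z (src g)) (h2 : inSq r z (tgt g)) : g ∈ EP r P := by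
  unfold inSq at h1 h2
  exact ⟨z, hz, FD_mem_RE ⟨⟨h1.1, h1.2.1⟩, ⟨h1.2.2.1, h1.2.2.2⟩⟩ ⟨⟨h2.1, h2.2.1⟩, ⟨h2.2.2.1, h2.2.2.2⟩⟩⟩

theorem nb_sym {a b : Vtx} (h : FD_nb a b) : FD_nb b a := by
  unfold FD_nb at h ⊢
  omega

/-- half ball -/
theorem hb_case {r : ℕ} {P : Set (ℤ × ℤ)} {C CF : Set Edg} (hC1 : ∀ g ∈ C, g ∈ EP r P)
    (hCF : ∀ g ∈ CF, g ∈ EP r P → g ∈ C) (hCsub : C ⊆ CF) {d : Dir} {x0 y0 : ℤ} {ρ l8 : ℕ}
    {a b c' d' : ℤ} (hE : hbE d x0 y0 ρ = RE a b c' d')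
    (hrim : ∀ w w2, inR a b c' d' w → w ∉ rimE d x0 y0 ρ → ∀ g ∈ EP r P,
      ((src g = w ∧ tgt g = w2) ∨ (src g = w2 ∧ tgt g = w)) → inR a b c' d' w2)
    (hin : ∀ g ∈ RE a b c' d', g ∈ EP r P) {u u' : Vtx} (hu : inR a b c' d' u)
    (hu' : inR a b c' d' u') (hus : u ∈ segD d x0 y0 l8) (hus' : u' ∈ segD d x0 y0 l8)
    (exu : ∀ R : Vtx → Prop, R u → (∀ v, R v → inR a b c' d' v) →
      ∃ v w, Reach (C ∩ {e | R (src e) ∧ R (tgt e)}) u v ∧ R v ∧ ¬ R w ∧
        ∃ e ∈ C, (src e = v ∧ tgt e = w) ∨ (src e = w ∧ tgt e = v))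
    (exu' : ∀ R : Vtx → Prop, R u' → (∀ v, R v → inR a b c' d' v) →
      ∃ v w, Reach (C ∩ {e | R (src e) ∧ R (tgt e)}) u' v ∧ R v ∧ ¬ R w ∧
        ∃ e ∈ C, (src e = v ∧ tgt e = w) ∨ (src e = w ∧ tgt e = v)) :
    H4 d x0 y0 l8 ρ CF ∨
      Reach (C ∩ {e | inR a b c' d' (src e) ∧ inR a b c' d' (tgt e)}) u u' := by
  have arm : ∀ v0 : Vtx, inR a b c' d' v0 →
      (∀ R : Vtx → Prop, R v0 → (∀ v, R v → inR a b c' d' v) →
      ∃ v w, Reach (C ∩ {e | R (src e) ∧ R (tgt e)}) v0 v ∧ R v ∧ ¬ R w ∧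
        ∃ e ∈ C, (src e = v ∧ tgt e = w) ∨ (src e = w ∧ tgt e = v)) →
      ∃ y ∈ rimE d x0 y0 ρ, Reach (CF ∩ ↑(RE a b c' d')) v0 y := by
    intro v0 hv0 ex
    by_cases hr : v0 ∈ rimE d x0 y0 ρ
    · exact ⟨v0, hr, Reach.refl _ _⟩
    · obtain ⟨v, w, h1, h2, h3, e, he, hvw⟩ := ex
        (fun v => inR a b c' d' v ∧ v ∉ rimE d x0 y0 ρ) ⟨hv0, hr⟩ (fun v hv => hv.1)
      have hw : inR a b c' d' w := hrim v w h2.1 h2.2 e (hC1 e he) hvw
      refine ⟨w, by_contra fun hc => h3 ⟨hw, hc⟩, ?_⟩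
      refine (h1.mono ?_).trans (Adj.reach ⟨e, ⟨hCsub he, ?_⟩, hvw⟩)
      · rintro g ⟨hg, hg1, hg2⟩
        exact ⟨hCsub hg, Finset.mem_coe.2 (FD_mem_RE hg1.1 hg2.1)⟩
      · apply Finset.mem_coe.2
        rcases hvw with ⟨h5, h6⟩ | ⟨h5, h6⟩
        · exact FD_mem_RE (h5 ▸ h2.1) (h6 ▸ hw)
        · exact FD_mem_RE (h5 ▸ hw) (h6 ▸ h2.1)
  by_cases hr : Reach (CF ∩ ↑(RE a b c' d')) u u'
  · right
    refine hr.mono ?_
    rintro g ⟨hg1, hg2⟩
    exact ⟨hCF g hg1 (hin g (Finset.mem_coe.1 hg2)), FD_of_mem_RE (Finset.mem_coe.1 hg2)⟩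
  · left
    unfold H4
    rw [hE]
    exact ⟨u, hus, u', hus', arm u hu exu, arm u' hu' exu', hr⟩

/-- the planar part of `Bad` -/
def BadQ (N r ρ l ν : ℕ) (CF : Set Edg) : Prop :=
  (∃ ζ : ℤ × ℤ, |ζ.1 - ζ.2| ≤ 2 * ν ∧ (∀ s : ℤ, (N : ℤ) ≤ |ζ.1 - s * ν| ∨ (N : ℤ) ≤ |ζ.2 - s * ν|) ∧
    Crs (r * ζ.1) (r * ζ.2) (4 * ρ) (r / 2) CF) ∨
  (∃ (d : Dir) (x0 y0 i j : ℤ), |x0 - y0| ≤ 2 * (ν * r : ℕ) ∧
    (∀ s : ℤ, (N : ℤ) * r - 1 ≤ |x0 - s * (ν * r : ℕ)| ∨ (N : ℤ) * r - 1 ≤ |y0 - s * (ν * r : ℕ)|) ∧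
    (((d = Dir.up ∨ d = Dir.dn) ∧ x0 = l * i ∧ (y0 = r * j ∨ y0 = r * j - 1)) ∨
      ((d = Dir.rt ∨ d = Dir.lf) ∧ y0 = l * i ∧ (x0 = r * j ∨ x0 = r * j - 1))) ∧
    H4 d x0 y0 (8 * l) ρ CF)

/-- common data -/
structure Ctx (N r ρ l ν : ℕ) (P : Set (ℤ × ℤ)) (C CF : Set Edg) (u u' : Vtx) : Prop where
  hl : 1 ≤ l
  h1 : 32 * l ≤ ρ
  h2 : 32 * ρ ≤ r
  hν : 2 ≤ ν
  c1 : ∀ g ∈ C, g ∈ EP r P
  c2 : ∀ g ∈ CF, g ∈ EP r P → g ∈ C
  c3 : C ⊆ CF
  un : ∃ g, g ∉ EP r P ∧ (src g = u ∨ tgt g = u)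
  un' : ∃ g, g ∉ EP r P ∧ (src g = u' ∨ tgt g = u')
  uy' : ∃ g ∈ EP r P, (src g = u' ∨ tgt g = u')
  n1 : |u.1 - u'.1| ≤ 4 * l
  n2 : |u.2 - u'.2| ≤ 4 * l
  ex : ∀ R : Vtx → Prop, R u → (∀ v, R v → |v.1 - u.1| ≤ r ∧ |v.2 - u.2| ≤ r) →
      ∃ v w, Reach (C ∩ {e | R (src e) ∧ R (tgt e)}) u v ∧ R v ∧ ¬ R w ∧
        ∃ e ∈ C, (src e = v ∧ tgt e = w) ∨ (src e = w ∧ tgt e = v)
  ex' : ∀ R : Vtx → Prop, R u' → (∀ v, R v → |v.1 - u.1| ≤ r ∧ |v.2 - u.2| ≤ r) →
      ∃ v w, Reach (C ∩ {e | R (src e) ∧ R (tgt e)}) u' v ∧ R v ∧ ¬ R w ∧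
        ∃ e ∈ C, (src e = v ∧ tgt e = w) ∨ (src e = w ∧ tgt e = v)
  hD : ∀ s : ℤ, (N : ℤ) * r ≤ |u.1 - s * (ν * r : ℕ)| ∨ (N : ℤ) * r ≤ |u.2 - s * (ν * r : ℕ)|
  hext : |u.1 - u.2| ≤ (ν * r : ℕ) + r

/-- the conclusion -/
def Con (N r ρ l ν : ℕ) (C CF : Set Edg) (u u' : Vtx) : Prop :=
  BadQ N r ρ l ν CF ∨ ∃ R : Vtx → Prop, (∀ v, R v → |v.1 - u.1| ≤ r ∧ |v.2 - u.2| ≤ r) ∧ R u ∧
    Reach (C ∩ {e | R (src e) ∧ R (tgt e)}) u u'

section
variable {N r ρ l ν : ℕ} {P : Set (ℤ × ℤ)} {C CF : Set Edg} {u u' : Vtx}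

/-- near a coarse vertex -/
theorem corner (h : Ctx N r ρ l ν P C CF u u') {ζ : ℤ × ℤ} (a1 : |u.1 - r * ζ.1| ≤ 2 * ρ)
    (a2 : |u.2 - r * ζ.2| ≤ 2 * ρ) : Con N r ρ l ν C CF u u' := by
  have b1 := h.hl
  have b2 := h.h1
  have b3 := h.h2
  have b4 := h.hν
  have hr : (0 : ℤ) < r := by have : 0 < r := by omega
                              exact_mod_cast this
  left
  left
  refine ⟨ζ, ?_, ?_, ?_⟩
  · have h1 := h.hext
    rw [abs_le] at h1 a1 a2 ⊢
    have e1 : (r : ℤ) * (ζ.1 - ζ.2) < r * (ν + 2) := by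
      push_cast at h1
      have : (r : ℤ) * (ζ.1 - ζ.2) = r * ζ.1 - r * ζ.2 := by ring
      rw [this]
      have : (r : ℤ) * (ν + 2) = ν * r + r + r := by ring
      rw [this]
      omega
    have e2 : (r : ℤ) * (ζ.2 - ζ.1) < r * (ν + 2) := by
      push_cast at h1
      have : (r : ℤ) * (ζ.2 - ζ.1) = r * ζ.2 - r * ζ.1 := by ring
      rw [this]
      have : (r : ℤ) * (ν + 2) = ν * r + r + r := by ring
      rw [this]
      omega
    have e3 := lt_of_mul_lt_mul_left e1 hr.le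
    have e4 := lt_of_mul_lt_mul_left e2 hr.le
    have e5 : (2:ℤ) ≤ ν := by exact_mod_cast b4
    constructor <;> linarith
  · intro s
    have key : ∀ x ζ' : ℤ, |x - r * ζ'| ≤ 2 * ρ → (N : ℤ) * r ≤ |x - s * (ν * r : ℕ)| →
        (N : ℤ) ≤ |ζ' - s * ν| := by
      intro x ζ' h1 h2
      rw [abs_le] at h1
      have e0 : s * ((ν * r : ℕ) : ℤ) = r * (s * ν) := by push_cast; ring
      rw [e0] at h2
      rw [le_abs] at h2 ⊢
      rcases h2 with h2 | h2
      · left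
        have : (r : ℤ) * N < r * (ζ' - s * ν + 1) := by
          have : (r : ℤ) * (ζ' - s * ν + 1) = r * ζ' - r * (s * ν) + r := by ring
          rw [this]
          have : (r : ℤ) * N = N * r := by ring
          rw [this]
          omega
        have := lt_of_mul_lt_mul_left this hr.le
        omega
      · right
        have : (r : ℤ) * N < r * (-(ζ' - s * ν) + 1) := by
          have : (r : ℤ) * (-(ζ' - s * ν) + 1) = r * (s * ν) - r * ζ' + r := by ring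
          rw [this]
          have : (r : ℤ) * N = N * r := by ring
          rw [this]
          omega
        have := lt_of_mul_lt_mul_left this hr.le
        omega
    rcases h.hD s with h3 | h3
    · exact Or.inl (key _ _ a1 h3)
    · exact Or.inr (key _ _ a2 h3)
  · obtain ⟨A, hA⟩ : ∃ A : ℤ, A = r * ζ.1 := ⟨_, rfl⟩
    obtain ⟨B, hB⟩ : ∃ B : ℤ, B = r * ζ.2 := ⟨_, rfl⟩
    rw [← hA] at a1
    rw [← hB] at a2
    rw [← hA, ← hB]
    rw [abs_le] at a1 a2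
    obtain ⟨v, w, k1, k2, k3, e, he, hvw⟩ := h.ex
      (fun v => |v.1 - A| < ((r / 2 : ℕ) : ℤ) ∧ |v.2 - B| < ((r / 2 : ℕ) : ℤ))
      (by
        rw [abs_lt, abs_lt]
        push_cast
        omega)
      (by
        intro v hv
        rw [abs_lt, abs_lt] at hv
        rw [abs_le, abs_le]
        push_cast at hv
        omega)
    refine ⟨u, w, ?_, ?_, ?_⟩
    · unfold inR
      push_cast
      omega
    · rw [abs_lt, abs_lt] at k3
      push_cast at k3 ⊢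
      omega
    · exact (k1.mono fun g hg => h.c3 hg.1).trans (Adj.reach ⟨e, h.c3 he, hvw⟩)

theorem farx {N r ρ l ν : ℕ} (hr : 1 ≤ r) (hl : 1 ≤ l) (h1 : 32 * l ≤ ρ) {z x x0 s : ℤ} (a1 : r * z + 2 * ρ < x)
    (a2 : x < r * z + r - 2 * ρ) (a3 : x0 ≤ x) (a4 : x < x0 + l)
    (h : (N : ℤ) * r ≤ |x - s * (ν * r : ℕ)|) : (N : ℤ) * r - 1 ≤ |x0 - s * (ν * r : ℕ)| := by
  have hr' : (0 : ℤ) < r := by exact_mod_cast hr
  have e0 : s * ((ν * r : ℕ) : ℤ) = r * (s * ν) := by push_cast; ring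
  rw [e0] at h ⊢
  rw [le_abs] at h ⊢
  rcases h with h | h
  · left
    have e1 : (r : ℤ) * (N + s * ν) < r * (z + 1) := by
      have i1 : (r : ℤ) * (N + s * ν) = N * r + r * (s * ν) := by ring
      have i2 : (r : ℤ) * (z + 1) = r * z + r := by ring
      rw [i1, i2]
      omega
    have e2 : (N : ℤ) + s * ν ≤ z := by
      have := lt_of_mul_lt_mul_left e1 hr'.le
      omega
    have e3 : (r : ℤ) * (N + s * ν) ≤ r * z := mul_le_mul_of_nonneg_left e2 hr'.le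
    have i1 : (r : ℤ) * (N + s * ν) = N * r + r * (s * ν) := by ring
    rw [i1] at e3
    omega
  · right
    have e1 : (r : ℤ) * z < r * (s * ν - N) := by
      have i1 : (r : ℤ) * (s * ν - N) = r * (s * ν) - N * r := by ring
      rw [i1]
      omega
    have e2 : z + 1 ≤ s * ν - N := by
      have := lt_of_mul_lt_mul_left e1 hr'.le
      omega
    have e3 : (r : ℤ) * (z + 1) ≤ r * (s * ν - N) := mul_le_mul_of_nonneg_left e2 hr'.le
    have i1 : (r : ℤ) * (s * ν - N) = r * (s * ν) - N * r := by ring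
    have i2 : (r : ℤ) * (z + 1) = r * z + r := by ring
    rw [i1, i2] at e3
    omega

theorem dir_up (h : Ctx N r ρ l ν P C CF u u') {z : ℤ × ℤ} (hz : z ∈ P)
    (hz' : (z.1, z.2 - 1) ∉ P) (a1 : r * z.1 + 2 * ρ < u.1) (a2 : u.1 < r * z.1 + r - 2 * ρ)
    (a3 : u.2 = r * z.2) : Con N r ρ l ν C CF u u' := by
  have b1 := h.hl
  have b2 := h.h1
  have b3 := h.h2
  have b4 := h.hν
  have hr : 1 ≤ r := by omega
  have n1 := h.n1
  have n2 := h.n2
  rw [abs_le] at n1 n2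
  obtain ⟨A, hA⟩ : ∃ A : ℤ, A = (r : ℤ) * z.1 := ⟨_, rfl⟩
  obtain ⟨E, hE0⟩ : ∃ E : ℤ, E = (r : ℤ) * z.2 := ⟨_, rfl⟩
  obtain ⟨B, hB⟩ : ∃ B : ℤ, B = E := ⟨_, rfl⟩
  have hzp : (r : ℤ) * (z.2 - 1) = E - r := by rw [hE0]; ring
  have hBj : B = r * z.2 := by rw [hB, hE0]
  -- location of squares of `P` near the line
  have tang : ∀ (q : ℤ × ℤ) (x : ℤ), A < x → x < A + r → (r : ℤ) * q.1 ≤ x → x ≤ (r : ℤ) * q.1 + r →
      q.1 = z.1 := by
    intro q x k1 k2 k3 k4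
    exact sq_uniq hr (hA ▸ k1) (hA ▸ k2) k3 k4
  rw [← hA] at a1 a2
  have a3' : u.2 = B := by rw [a3, hB, hE0]
  have hu'2 : u'.2 = B := by
    rcases lt_trichotomy u'.2 B with hlt | heq | hgt
    · exfalso
      obtain ⟨g, hg, hgu⟩ := h.uy'
      obtain ⟨q, hq, hq1⟩ : ∃ q ∈ P, inSq r q u' := by
        rcases hgu with hgu | hgu
        · obtain ⟨q, hq, hq1, -⟩ := EP_loc hg (Or.inl ⟨hgu, rfl⟩)
          exact ⟨q, hq, hq1⟩
        · obtain ⟨q, hq, -, hq1⟩ := EP_loc hg (Or.inl ⟨rfl, hgu⟩)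
          exact ⟨q, hq, hq1⟩
      unfold inSq at hq1
      have k1 : q.1 = z.1 := tang q u'.1 (by omega) (by omega) (by omega) (by omega)
      have k2 : q.2 = z.2 - 1 := by
        refine sq_uniq hr (x := u'.2) ?_ ?_ ?_ ?_
        · rw [hzp]; omega
        · rw [hzp]; omega
        · omega
        · omega
      exact hz' (by rw [← k2, ← k1]; exact hq)
    · exact heq
    · exfalso
      obtain ⟨g, hg, hgu⟩ := h.un'
      apply hg
      have hnb : ∀ w : Vtx, (w = u' ∨ FD_nb u' w) → inSq r z w := by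
        intro w hw
        unfold inSq
        rw [← hA, ← hE0]
        rcases hw with rfl | hw
        · omega
        · unfold FD_nb at hw
          omega
      rcases hgu with hgu | hgu
      · exact EP_of hz (hnb _ (Or.inl hgu)) (hnb _ (Or.inr (FD_nb_of (Or.inl ⟨hgu, rfl⟩))))
      · exact EP_of hz (hnb _ (Or.inr (FD_nb_of (Or.inr ⟨rfl, hgu⟩)))) (hnb _ (Or.inl hgu))
  obtain ⟨i, hi1, hi2⟩ : ∃ i : ℤ, (l : ℤ) * i ≤ u.1 ∧ u.1 < (l : ℤ) * i + l :=
    ⟨u.1 / l, (FD_div b1).1 rfl⟩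
  obtain ⟨x0, hx0⟩ : ∃ x0 : ℤ, x0 = (l : ℤ) * i := ⟨_, rfl⟩
  rw [← hx0] at hi1 hi2
  have hEq : hbE Dir.up x0 B ρ = RE (x0 - ρ) (x0 + ρ) B (B + ρ) := rfl
  have hrimdef : ∀ w : Vtx, w ∈ rimE Dir.up x0 B ρ ↔ (inR (x0 - ρ) (x0 + ρ) B (B + ρ) w ∧
      (w.1 = x0 - ρ ∨ w.1 = x0 + ρ ∨ w.2 = B + ρ)) := fun w => Iff.rfl
  have hsegdef : ∀ v : Vtx, v ∈ segD Dir.up x0 B (8 * l) ↔ (v.2 = B ∧ x0 - (8 * l : ℕ) ≤ v.1 ∧ v.1 ≤ x0 + (8 * l : ℕ)) := fun v => Iff.rfl
  have key : H4 Dir.up x0 B (8 * l) ρ CF ∨ Reach (C ∩ {e | inR (x0 - ρ) (x0 + ρ) B (B + ρ) (src e) ∧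
      inR (x0 - ρ) (x0 + ρ) B (B + ρ) (tgt e)}) u u' := by
    refine hb_case (P := P) (r := r) h.c1 h.c2 h.c3 hEq ?_ ?_ ?_ ?_ ?_ ?_ ?_ ?_
    · intro w w2 hw hwr g hg hgw
      rw [hrimdef] at hwr
      have hwr' : ¬ (w.1 = x0 - ρ ∨ w.1 = x0 + ρ ∨ w.2 = B + ρ) := fun hh => hwr ⟨hw, hh⟩
      obtain ⟨q, hq, hq1, hq2⟩ := EP_loc hg hgw
      have hnb := FD_nb_of hgw
      unfold inR at hw ⊢
      unfold FD_nb at hnb
      unfold inSq at hq1 hq2
      by_cases h5 : w2.2 < B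
      · exfalso
        have k1 : q.1 = z.1 := tang q w.1 (by omega) (by omega) (by omega) (by omega)
        have k2 : q.2 = z.2 - 1 := by
          refine sq_below hr ?_ ?_
          · rw [← hE0]; omega
          · rw [← hE0]; omega
        exact hz' (by rw [← k2, ← k1]; exact hq)
      · omega
    · intro g hg
      obtain ⟨g1, g2⟩ := FD_of_mem_RE hg
      unfold inR at g1 g2
      refine EP_of hz ?_ ?_ <;> · unfold inSq
                                  rw [← hA, ← hE0]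
                                  omega
    · unfold inR
      omega
    · unfold inR
      omega
    · rw [hsegdef]
      push_cast
      omega
    · rw [hsegdef]
      push_cast
      omega
    · intro R hR hR2
      refine h.ex R hR fun v hv => ?_
      have := hR2 v hv
      unfold inR at this
      rw [abs_le, abs_le]
      omega
    · intro R hR hR2
      refine h.ex' R hR fun v hv => ?_
      have := hR2 v hv
      unfold inR at this
      rw [abs_le, abs_le]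
      omega
  rcases key with hres | hres
  · left
    right
    refine ⟨Dir.up, x0, B, i, z.2, ?_, ?_, ?_, hres⟩
    · have h1 := h.hext
      rw [abs_le] at h1 ⊢
      push_cast at h1 ⊢
      have : (2 : ℤ) * r ≤ ν * r := by
        have : (2 : ℤ) ≤ ν := by exact_mod_cast b4
        nlinarith
      omega
    · intro s
      rcases h.hD s with h3 | h3
      · exact Or.inl (farx hr b1 b2 (hA ▸ a1) (hA ▸ a2) hi1 hi2 h3)
      · right
        rw [a3'] at h3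
        omega
    · exact Or.inl ⟨Or.inl rfl, hx0, Or.inl hBj⟩
  · right
    refine ⟨fun v => inR (x0 - ρ) (x0 + ρ) B (B + ρ) v, ?_, ?_, hres⟩
    · intro v hv
      unfold inR at hv
      rw [abs_le, abs_le]
      omega
    · unfold inR
      omega

theorem dir_dn (h : Ctx N r ρ l ν P C CF u u') {z : ℤ × ℤ} (hz : z ∈ P)
    (hz' : (z.1, z.2 + 1) ∉ P) (a1 : r * z.1 + 2 * ρ < u.1) (a2 : u.1 < r * z.1 + r - 2 * ρ)
    (a3 : u.2 = r * z.2 + r) : Con N r ρ l ν C CF u u' := by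
  have b1 := h.hl
  have b2 := h.h1
  have b3 := h.h2
  have b4 := h.hν
  have hr : 1 ≤ r := by omega
  have n1 := h.n1
  have n2 := h.n2
  rw [abs_le] at n1 n2
  obtain ⟨A, hA⟩ : ∃ A : ℤ, A = (r : ℤ) * z.1 := ⟨_, rfl⟩
  obtain ⟨E, hE0⟩ : ∃ E : ℤ, E = (r : ℤ) * z.2 := ⟨_, rfl⟩
  obtain ⟨B, hB⟩ : ∃ B : ℤ, B = E + r := ⟨_, rfl⟩
  have hzp : (r : ℤ) * (z.2 + 1) = E + r := by rw [hE0]; ring
  have hBj : B = r * (z.2 + 1) := by rw [hB, hE0]; ring
  -- location of squares of `P` near the line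
  have tang : ∀ (q : ℤ × ℤ) (x : ℤ), A < x → x < A + r → (r : ℤ) * q.1 ≤ x → x ≤ (r : ℤ) * q.1 + r →
      q.1 = z.1 := by
    intro q x k1 k2 k3 k4
    exact sq_uniq hr (hA ▸ k1) (hA ▸ k2) k3 k4
  rw [← hA] at a1 a2
  have a3' : u.2 = B := by rw [a3, hB, hE0]
  have hu'2 : u'.2 = B := by
    rcases lt_trichotomy u'.2 B with hlt | heq | hgt
    · exfalso
      obtain ⟨g, hg, hgu⟩ := h.un'
      apply hg
      have hnb : ∀ w : Vtx, (w = u' ∨ FD_nb u' w) → inSq r z w := by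
        intro w hw
        unfold inSq
        rw [← hA, ← hE0]
        rcases hw with rfl | hw
        · omega
        · unfold FD_nb at hw
          omega
      rcases hgu with hgu | hgu
      · exact EP_of hz (hnb _ (Or.inl hgu)) (hnb _ (Or.inr (FD_nb_of (Or.inl ⟨hgu, rfl⟩))))
      · exact EP_of hz (hnb _ (Or.inr (FD_nb_of (Or.inr ⟨rfl, hgu⟩)))) (hnb _ (Or.inl hgu))
    · exact heq
    · exfalso
      obtain ⟨g, hg, hgu⟩ := h.uy'
      obtain ⟨q, hq, hq1⟩ : ∃ q ∈ P, inSq r q u' := by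
        rcases hgu with hgu | hgu
        · obtain ⟨q, hq, hq1, -⟩ := EP_loc hg (Or.inl ⟨hgu, rfl⟩)
          exact ⟨q, hq, hq1⟩
        · obtain ⟨q, hq, -, hq1⟩ := EP_loc hg (Or.inl ⟨rfl, hgu⟩)
          exact ⟨q, hq, hq1⟩
      unfold inSq at hq1
      have k1 : q.1 = z.1 := tang q u'.1 (by omega) (by omega) (by omega) (by omega)
      have k2 : q.2 = z.2 + 1 := by
        refine sq_uniq hr (x := u'.2) ?_ ?_ ?_ ?_
        · rw [hzp]; omega
        · rw [hzp]; omega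
        · omega
        · omega
      exact hz' (by rw [← k2, ← k1]; exact hq)
  obtain ⟨i, hi1, hi2⟩ : ∃ i : ℤ, (l : ℤ) * i ≤ u.1 ∧ u.1 < (l : ℤ) * i + l :=
    ⟨u.1 / l, (FD_div b1).1 rfl⟩
  obtain ⟨x0, hx0⟩ : ∃ x0 : ℤ, x0 = (l : ℤ) * i := ⟨_, rfl⟩
  rw [← hx0] at hi1 hi2
  have hEq : hbE Dir.dn x0 B ρ = RE (x0 - ρ) (x0 + ρ) (B - ρ) B := rfl
  have hrimdef : ∀ w : Vtx, w ∈ rimE Dir.dn x0 B ρ ↔ (inR (x0 - ρ) (x0 + ρ) (B - ρ) B w ∧
      (w.1 = x0 - ρ ∨ w.1 = x0 + ρ ∨ w.2 = B - ρ)) := fun w => Iff.rfl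
  have hsegdef : ∀ v : Vtx, v ∈ segD Dir.dn x0 B (8 * l) ↔ (v.2 = B ∧ x0 - (8 * l : ℕ) ≤ v.1 ∧ v.1 ≤ x0 + (8 * l : ℕ)) := fun v => Iff.rfl
  have key : H4 Dir.dn x0 B (8 * l) ρ CF ∨ Reach (C ∩ {e | inR (x0 - ρ) (x0 + ρ) (B - ρ) B (src e) ∧
      inR (x0 - ρ) (x0 + ρ) (B - ρ) B (tgt e)}) u u' := by
    refine hb_case (P := P) (r := r) h.c1 h.c2 h.c3 hEq ?_ ?_ ?_ ?_ ?_ ?_ ?_ ?_
    · intro w w2 hw hwr g hg hgw
      rw [hrimdef] at hwr
      have hwr' : ¬ (w.1 = x0 - ρ ∨ w.1 = x0 + ρ ∨ w.2 = B - ρ) := fun hh => hwr ⟨hw, hh⟩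
      obtain ⟨q, hq, hq1, hq2⟩ := EP_loc hg hgw
      have hnb := FD_nb_of hgw
      unfold inR at hw ⊢
      unfold FD_nb at hnb
      unfold inSq at hq1 hq2
      by_cases h5 : B < w2.2
      · exfalso
        have k1 : q.1 = z.1 := tang q w.1 (by omega) (by omega) (by omega) (by omega)
        have k2 : q.2 = z.2 + 1 := by
          have hh : z.2 = q.2 - 1 := by
            refine sq_below hr ?_ ?_
            · rw [← hE0]; omega
            · rw [← hE0]; omega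
          omega
        exact hz' (by rw [← k2, ← k1]; exact hq)
      · omega
    · intro g hg
      obtain ⟨g1, g2⟩ := FD_of_mem_RE hg
      unfold inR at g1 g2
      refine EP_of hz ?_ ?_ <;> · unfold inSq
                                  rw [← hA, ← hE0]
                                  omega
    · unfold inR
      omega
    · unfold inR
      omega
    · rw [hsegdef]
      push_cast
      omega
    · rw [hsegdef]
      push_cast
      omega
    · intro R hR hR2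
      refine h.ex R hR fun v hv => ?_
      have := hR2 v hv
      unfold inR at this
      rw [abs_le, abs_le]
      omega
    · intro R hR hR2
      refine h.ex' R hR fun v hv => ?_
      have := hR2 v hv
      unfold inR at this
      rw [abs_le, abs_le]
      omega
  rcases key with hres | hres
  · left
    right
    refine ⟨Dir.dn, x0, B, i, (z.2 + 1), ?_, ?_, ?_, hres⟩
    · have h1 := h.hext
      rw [abs_le] at h1 ⊢
      push_cast at h1 ⊢
      have : (2 : ℤ) * r ≤ ν * r := by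
        have : (2 : ℤ) ≤ ν := by exact_mod_cast b4
        nlinarith
      omega
    · intro s
      rcases h.hD s with h3 | h3
      · exact Or.inl (farx hr b1 b2 (hA ▸ a1) (hA ▸ a2) hi1 hi2 h3)
      · right
        rw [a3'] at h3
        omega
    · exact Or.inl ⟨Or.inr rfl, hx0, Or.inl hBj⟩
  · right
    refine ⟨fun v => inR (x0 - ρ) (x0 + ρ) (B - ρ) B v, ?_, ?_, hres⟩
    · intro v hv
      unfold inR at hv
      rw [abs_le, abs_le]
      omega
    · unfold inR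
      omega

theorem dir_rt (h : Ctx N r ρ l ν P C CF u u') {z : ℤ × ℤ} (hz : z ∈ P)
    (hz' : (z.1 - 1, z.2) ∉ P) (a1 : r * z.2 + 2 * ρ < u.2) (a2 : u.2 < r * z.2 + r - 2 * ρ)
    (a3 : u.1 = r * z.1) : Con N r ρ l ν C CF u u' := by
  have b1 := h.hl
  have b2 := h.h1
  have b3 := h.h2
  have b4 := h.hν
  have hr : 1 ≤ r := by omega
  have n1 := h.n1
  have n2 := h.n2
  rw [abs_le] at n1 n2
  obtain ⟨A, hA⟩ : ∃ A : ℤ, A = (r : ℤ) * z.2 := ⟨_, rfl⟩
  obtain ⟨E, hE0⟩ : ∃ E : ℤ, E = (r : ℤ) * z.1 := ⟨_, rfl⟩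
  obtain ⟨B, hB⟩ : ∃ B : ℤ, B = E := ⟨_, rfl⟩
  have hzp : (r : ℤ) * (z.1 - 1) = E - r := by rw [hE0]; ring
  have hBj : B = r * z.1 := by rw [hB, hE0]
  -- location of squares of `P` near the line
  have tang : ∀ (q : ℤ × ℤ) (x : ℤ), A < x → x < A + r → (r : ℤ) * q.2 ≤ x → x ≤ (r : ℤ) * q.2 + r →
      q.2 = z.2 := by
    intro q x k1 k2 k3 k4
    exact sq_uniq hr (hA ▸ k1) (hA ▸ k2) k3 k4
  rw [← hA] at a1 a2
  have a3' : u.1 = B := by rw [a3, hB, hE0]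
  have hu'2 : u'.1 = B := by
    rcases lt_trichotomy u'.1 B with hlt | heq | hgt
    · exfalso
      obtain ⟨g, hg, hgu⟩ := h.uy'
      obtain ⟨q, hq, hq1⟩ : ∃ q ∈ P, inSq r q u' := by
        rcases hgu with hgu | hgu
        · obtain ⟨q, hq, hq1, -⟩ := EP_loc hg (Or.inl ⟨hgu, rfl⟩)
          exact ⟨q, hq, hq1⟩
        · obtain ⟨q, hq, -, hq1⟩ := EP_loc hg (Or.inl ⟨rfl, hgu⟩)
          exact ⟨q, hq, hq1⟩
      unfold inSq at hq1
      have k1 : q.2 = z.2 := tang q u'.2 (by omega) (by omega) (by omega) (by omega)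
      have k2 : q.1 = z.1 - 1 := by
        refine sq_uniq hr (x := u'.1) ?_ ?_ ?_ ?_
        · rw [hzp]; omega
        · rw [hzp]; omega
        · omega
        · omega
      exact hz' (by rw [← k2, ← k1]; exact hq)
    · exact heq
    · exfalso
      obtain ⟨g, hg, hgu⟩ := h.un'
      apply hg
      have hnb : ∀ w : Vtx, (w = u' ∨ FD_nb u' w) → inSq r z w := by
        intro w hw
        unfold inSq
        rw [← hA, ← hE0]
        rcases hw with rfl | hw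
        · omega
        · unfold FD_nb at hw
          omega
      rcases hgu with hgu | hgu
      · exact EP_of hz (hnb _ (Or.inl hgu)) (hnb _ (Or.inr (FD_nb_of (Or.inl ⟨hgu, rfl⟩))))
      · exact EP_of hz (hnb _ (Or.inr (FD_nb_of (Or.inr ⟨rfl, hgu⟩)))) (hnb _ (Or.inl hgu))
  obtain ⟨i, hi1, hi2⟩ : ∃ i : ℤ, (l : ℤ) * i ≤ u.2 ∧ u.2 < (l : ℤ) * i + l :=
    ⟨u.2 / l, (FD_div b1).1 rfl⟩
  obtain ⟨x0, hx0⟩ : ∃ x0 : ℤ, x0 = (l : ℤ) * i := ⟨_, rfl⟩
  rw [← hx0] at hi1 hi2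
  have hEq : hbE Dir.rt B x0 ρ = RE B (B + ρ) (x0 - ρ) (x0 + ρ) := rfl
  have hrimdef : ∀ w : Vtx, w ∈ rimE Dir.rt B x0 ρ ↔ (inR B (B + ρ) (x0 - ρ) (x0 + ρ) w ∧
      (w.1 = B + ρ ∨ w.2 = x0 - ρ ∨ w.2 = x0 + ρ)) := fun w => Iff.rfl
  have hsegdef : ∀ v : Vtx, v ∈ segD Dir.rt B x0 (8 * l) ↔ (v.1 = B ∧ x0 - (8 * l : ℕ) ≤ v.2 ∧ v.2 ≤ x0 + (8 * l : ℕ)) := fun v => Iff.rfl
  have key : H4 Dir.rt B x0 (8 * l) ρ CF ∨ Reach (C ∩ {e | inR B (B + ρ) (x0 - ρ) (x0 + ρ) (src e) ∧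
      inR B (B + ρ) (x0 - ρ) (x0 + ρ) (tgt e)}) u u' := by
    refine hb_case (P := P) (r := r) h.c1 h.c2 h.c3 hEq ?_ ?_ ?_ ?_ ?_ ?_ ?_ ?_
    · intro w w2 hw hwr g hg hgw
      rw [hrimdef] at hwr
      have hwr' : ¬ (w.1 = B + ρ ∨ w.2 = x0 - ρ ∨ w.2 = x0 + ρ) := fun hh => hwr ⟨hw, hh⟩
      obtain ⟨q, hq, hq1, hq2⟩ := EP_loc hg hgw
      have hnb := FD_nb_of hgw
      unfold inR at hw ⊢
      unfold FD_nb at hnb
      unfold inSq at hq1 hq2
      by_cases h5 : w2.1 < B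
      · exfalso
        have k1 : q.2 = z.2 := tang q w.2 (by omega) (by omega) (by omega) (by omega)
        have k2 : q.1 = z.1 - 1 := by
          refine sq_below hr ?_ ?_
          · rw [← hE0]; omega
          · rw [← hE0]; omega
        exact hz' (by rw [← k2, ← k1]; exact hq)
      · omega
    · intro g hg
      obtain ⟨g1, g2⟩ := FD_of_mem_RE hg
      unfold inR at g1 g2
      refine EP_of hz ?_ ?_ <;> · unfold inSq
                                  rw [← hA, ← hE0]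
                                  omega
    · unfold inR
      omega
    · unfold inR
      omega
    · rw [hsegdef]
      push_cast
      omega
    · rw [hsegdef]
      push_cast
      omega
    · intro R hR hR2
      refine h.ex R hR fun v hv => ?_
      have := hR2 v hv
      unfold inR at this
      rw [abs_le, abs_le]
      omega
    · intro R hR hR2
      refine h.ex' R hR fun v hv => ?_
      have := hR2 v hv
      unfold inR at this
      rw [abs_le, abs_le]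
      omega
  rcases key with hres | hres
  · left
    right
    refine ⟨Dir.rt, B, x0, i, z.1, ?_, ?_, ?_, hres⟩
    · have h1 := h.hext
      rw [abs_le] at h1 ⊢
      push_cast at h1 ⊢
      have : (2 : ℤ) * r ≤ ν * r := by
        have : (2 : ℤ) ≤ ν := by exact_mod_cast b4
        nlinarith
      omega
    · intro s
      rcases h.hD s with h3 | h3
      · left
        rw [a3'] at h3
        omega
      · exact Or.inr (farx hr b1 b2 (hA ▸ a1) (hA ▸ a2) hi1 hi2 h3)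
    · exact Or.inr ⟨Or.inl rfl, hx0, Or.inl hBj⟩
  · right
    refine ⟨fun v => inR B (B + ρ) (x0 - ρ) (x0 + ρ) v, ?_, ?_, hres⟩
    · intro v hv
      unfold inR at hv
      rw [abs_le, abs_le]
      omega
    · unfold inR
      omega

theorem dir_lf (h : Ctx N r ρ l ν P C CF u u') {z : ℤ × ℤ} (hz : z ∈ P)
    (hz' : (z.1 + 1, z.2) ∉ P) (a1 : r * z.2 + 2 * ρ < u.2) (a2 : u.2 < r * z.2 + r - 2 * ρ)
    (a3 : u.1 = r * z.1 + r) : Con N r ρ l ν C CF u u' := by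
  have b1 := h.hl
  have b2 := h.h1
  have b3 := h.h2
  have b4 := h.hν
  have hr : 1 ≤ r := by omega
  have n1 := h.n1
  have n2 := h.n2
  rw [abs_le] at n1 n2
  obtain ⟨A, hA⟩ : ∃ A : ℤ, A = (r : ℤ) * z.2 := ⟨_, rfl⟩
  obtain ⟨E, hE0⟩ : ∃ E : ℤ, E = (r : ℤ) * z.1 := ⟨_, rfl⟩
  obtain ⟨B, hB⟩ : ∃ B : ℤ, B = E + r := ⟨_, rfl⟩
  have hzp : (r : ℤ) * (z.1 + 1) = E + r := by rw [hE0]; ring
  have hBj : B = r * (z.1 + 1) := by rw [hB, hE0]; ring
  -- location of squares of `P` near the line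
  have tang : ∀ (q : ℤ × ℤ) (x : ℤ), A < x → x < A + r → (r : ℤ) * q.2 ≤ x → x ≤ (r : ℤ) * q.2 + r →
      q.2 = z.2 := by
    intro q x k1 k2 k3 k4
    exact sq_uniq hr (hA ▸ k1) (hA ▸ k2) k3 k4
  rw [← hA] at a1 a2
  have a3' : u.1 = B := by rw [a3, hB, hE0]
  have hu'2 : u'.1 = B := by
    rcases lt_trichotomy u'.1 B with hlt | heq | hgt
    · exfalso
      obtain ⟨g, hg, hgu⟩ := h.un'
      apply hg
      have hnb : ∀ w : Vtx, (w = u' ∨ FD_nb u' w) → inSq r z w := by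
        intro w hw
        unfold inSq
        rw [← hA, ← hE0]
        rcases hw with rfl | hw
        · omega
        · unfold FD_nb at hw
          omega
      rcases hgu with hgu | hgu
      · exact EP_of hz (hnb _ (Or.inl hgu)) (hnb _ (Or.inr (FD_nb_of (Or.inl ⟨hgu, rfl⟩))))
      · exact EP_of hz (hnb _ (Or.inr (FD_nb_of (Or.inr ⟨rfl, hgu⟩)))) (hnb _ (Or.inl hgu))
    · exact heq
    · exfalso
      obtain ⟨g, hg, hgu⟩ := h.uy'
      obtain ⟨q, hq, hq1⟩ : ∃ q ∈ P, inSq r q u' := by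
        rcases hgu with hgu | hgu
        · obtain ⟨q, hq, hq1, -⟩ := EP_loc hg (Or.inl ⟨hgu, rfl⟩)
          exact ⟨q, hq, hq1⟩
        · obtain ⟨q, hq, -, hq1⟩ := EP_loc hg (Or.inl ⟨rfl, hgu⟩)
          exact ⟨q, hq, hq1⟩
      unfold inSq at hq1
      have k1 : q.2 = z.2 := tang q u'.2 (by omega) (by omega) (by omega) (by omega)
      have k2 : q.1 = z.1 + 1 := by
        refine sq_uniq hr (x := u'.1) ?_ ?_ ?_ ?_
        · rw [hzp]; omega
        · rw [hzp]; omega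
        · omega
        · omega
      exact hz' (by rw [← k2, ← k1]; exact hq)
  obtain ⟨i, hi1, hi2⟩ : ∃ i : ℤ, (l : ℤ) * i ≤ u.2 ∧ u.2 < (l : ℤ) * i + l :=
    ⟨u.2 / l, (FD_div b1).1 rfl⟩
  obtain ⟨x0, hx0⟩ : ∃ x0 : ℤ, x0 = (l : ℤ) * i := ⟨_, rfl⟩
  rw [← hx0] at hi1 hi2
  have hEq : hbE Dir.lf B x0 ρ = RE (B - ρ) B (x0 - ρ) (x0 + ρ) := rfl
  have hrimdef : ∀ w : Vtx, w ∈ rimE Dir.lf B x0 ρ ↔ (inR (B - ρ) B (x0 - ρ) (x0 + ρ) w ∧
      (w.1 = B - ρ ∨ w.2 = x0 - ρ ∨ w.2 = x0 + ρ)) := fun w => Iff.rfl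
  have hsegdef : ∀ v : Vtx, v ∈ segD Dir.lf B x0 (8 * l) ↔ (v.1 = B ∧ x0 - (8 * l : ℕ) ≤ v.2 ∧ v.2 ≤ x0 + (8 * l : ℕ)) := fun v => Iff.rfl
  have key : H4 Dir.lf B x0 (8 * l) ρ CF ∨ Reach (C ∩ {e | inR (B - ρ) B (x0 - ρ) (x0 + ρ) (src e) ∧
      inR (B - ρ) B (x0 - ρ) (x0 + ρ) (tgt e)}) u u' := by
    refine hb_case (P := P) (r := r) h.c1 h.c2 h.c3 hEq ?_ ?_ ?_ ?_ ?_ ?_ ?_ ?_
    · intro w w2 hw hwr g hg hgw
      rw [hrimdef] at hwr
      have hwr' : ¬ (w.1 = B - ρ ∨ w.2 = x0 - ρ ∨ w.2 = x0 + ρ) := fun hh => hwr ⟨hw, hh⟩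
      obtain ⟨q, hq, hq1, hq2⟩ := EP_loc hg hgw
      have hnb := FD_nb_of hgw
      unfold inR at hw ⊢
      unfold FD_nb at hnb
      unfold inSq at hq1 hq2
      by_cases h5 : B < w2.1
      · exfalso
        have k1 : q.2 = z.2 := tang q w.2 (by omega) (by omega) (by omega) (by omega)
        have k2 : q.1 = z.1 + 1 := by
          have hh : z.1 = q.1 - 1 := by
            refine sq_below hr ?_ ?_
            · rw [← hE0]; omega
            · rw [← hE0]; omega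
          omega
        exact hz' (by rw [← k2, ← k1]; exact hq)
      · omega
    · intro g hg
      obtain ⟨g1, g2⟩ := FD_of_mem_RE hg
      unfold inR at g1 g2
      refine EP_of hz ?_ ?_ <;> · unfold inSq
                                  rw [← hA, ← hE0]
                                  omega
    · unfold inR
      omega
    · unfold inR
      omega
    · rw [hsegdef]
      push_cast
      omega
    · rw [hsegdef]
      push_cast
      omega
    · intro R hR hR2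
      refine h.ex R hR fun v hv => ?_
      have := hR2 v hv
      unfold inR at this
      rw [abs_le, abs_le]
      omega
    · intro R hR hR2
      refine h.ex' R hR fun v hv => ?_
      have := hR2 v hv
      unfold inR at this
      rw [abs_le, abs_le]
      omega
  rcases key with hres | hres
  · left
    right
    refine ⟨Dir.lf, B, x0, i, (z.1 + 1), ?_, ?_, ?_, hres⟩
    · have h1 := h.hext
      rw [abs_le] at h1 ⊢
      push_cast at h1 ⊢
      have : (2 : ℤ) * r ≤ ν * r := by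
        have : (2 : ℤ) ≤ ν := by exact_mod_cast b4
        nlinarith
      omega
    · intro s
      rcases h.hD s with h3 | h3
      · left
        rw [a3'] at h3
        omega
      · exact Or.inr (farx hr b1 b2 (hA ▸ a1) (hA ▸ a2) hi1 hi2 h3)
    · exact Or.inr ⟨Or.inr rfl, hx0, Or.inl hBj⟩
  · right
    refine ⟨fun v => inR (B - ρ) B (x0 - ρ) (x0 + ρ) v, ?_, ?_, hres⟩
    · intro v hv
      unfold inR at hv
      rw [abs_le, abs_le]
      omega
    · unfold inR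
      omega

theorem planar (h : Ctx N r ρ l ν P C CF u u') {z : ℤ × ℤ} (hz : z ∈ P) (hzu : inSq r z u) :
    Con N r ρ l ν C CF u u' := by
  by_cases hc : ∃ ζ : ℤ × ℤ, |u.1 - r * ζ.1| ≤ 2 * ρ ∧ |u.2 - r * ζ.2| ≤ 2 * ρ
  · obtain ⟨ζ, a1, a2⟩ := hc
    exact corner h a1 a2
  · have c0 : ∀ ζ : ℤ × ℤ, ¬ (|u.1 - r * ζ.1| ≤ 2 * ρ ∧ |u.2 - r * ζ.2| ≤ 2 * ρ) :=
      fun ζ hh => hc ⟨ζ, hh⟩
    have d1 := c0 (z.1, z.2)
    have d2 := c0 (z.1 + 1, z.2)
    have d3 := c0 (z.1, z.2 + 1)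
    have d4 := c0 (z.1 + 1, z.2 + 1)
    have b1 := h.hl
    have b2 := h.h1
    have b3 := h.h2
    have e1 : (r : ℤ) * (z.1 + 1) = r * z.1 + r := by ring
    have e2 : (r : ℤ) * (z.2 + 1) = r * z.2 + r := by ring
    have e3 : (r : ℤ) * (z.1 - 1) = r * z.1 - r := by ring
    have e4 : (r : ℤ) * (z.2 - 1) = r * z.2 - r := by ring
    simp only [e1, e2, abs_le] at d1 d2 d3 d4
    obtain ⟨g, hg, hgu⟩ := h.un
    obtain ⟨w, hw⟩ : ∃ w, (src g = u ∧ tgt g = w) ∨ (src g = w ∧ tgt g = u) := by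
      rcases hgu with hgu | hgu
      · exact ⟨_, Or.inl ⟨hgu, rfl⟩⟩
      · exact ⟨_, Or.inr ⟨rfl, hgu⟩⟩
    have hnot : ∀ q ∈ P, inSq r q u → ¬ inSq r q w := by
      intro q hq k1 k2
      apply hg
      rcases hw with ⟨k3, k4⟩ | ⟨k3, k4⟩
      · exact EP_of hq (k3 ▸ k1) (k4 ▸ k2)
      · exact EP_of hq (k3 ▸ k2) (k4 ▸ k1)
    have hz1 := hnot z hz hzu
    have hnb := FD_nb_of hw
    have hR := hnot (z.1 + 1, z.2)
    have hL := hnot (z.1 - 1, z.2)
    have hU := hnot (z.1, z.2 + 1)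
    have hD := hnot (z.1, z.2 - 1)
    unfold inSq at hzu hz1 hR hL hU hD
    simp only [e1, e2, e3, e4] at hzu hz1 hR hL hU hD
    rcases hnb with ⟨k1, k2 | k2⟩ | ⟨k1, k2 | k2⟩
    · have hx : u.1 = r * z.1 + r := by omega
      refine dir_lf h hz (fun hq => ?_) ?_ ?_ hx
      · exact hR hq (by omega) (by omega)
      · omega
      · omega
    · have hx : u.1 = r * z.1 := by omega
      refine dir_rt h hz (fun hq => ?_) ?_ ?_ hx
      · exact hL hq (by omega) (by omega)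
      · omega
      · omega
    · have hx : u.2 = r * z.2 + r := by omega
      refine dir_dn h hz (fun hq => ?_) ?_ ?_ hx
      · exact hU hq (by omega) (by omega)
      · omega
      · omega
    · have hx : u.2 = r * z.2 := by omega
      refine dir_up h hz (fun hq => ?_) ?_ ?_ hx
      · exact hD hq (by omega) (by omega)
      · omega
      · omega

end

/-! ### the cylinder -/

theorem sec_vx (n M k : ℕ) (s : ℤ) {i : ℕ} (hi : i < 2 * k) (h2 : i % 2 = 0) :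
    Cls M 0 (sec n M k s i) ∧ ∃ m : ℤ, 0 ≤ m ∧ m ≤ k ∧
      vx M (sec n M k s i) = (s * n + m, s * n + m) := by
  obtain ⟨A, hA⟩ : ∃ A : ℤ, A = s * (n : ℤ) := ⟨_, rfl⟩
  have e1 : s * ((2 * n : ℕ) : ℤ) = 2 * A := by rw [hA]; push_cast; ring
  unfold sec
  split_ifs with hk
  · refine ⟨?_, (i : ℤ) / 2, by omega, by omega, ?_⟩
    · unfold Cls
      simp only [e1]
      refine ⟨?_, le_refl _⟩
      push_cast
      omega
    · simp only [vx, pv, e1, Bool.false_eq_true, if_false, ← hA]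
      refine Prod.ext ?_ ?_ <;> · dsimp only
                                  omega
  · refine ⟨?_, ((2 * k - i : ℕ) : ℤ) / 2, by omega, by omega, ?_⟩
    · unfold Cls
      simp only [e1]
      refine ⟨?_, le_refl _⟩
      push_cast
      omega
    · simp only [vx, pv, e1, if_true, ← hA]
      refine Prod.ext ?_ ?_ <;> · dsimp only
                                  omega

theorem dg_end {n M : ℕ} {e : Edg} {u w : Pt} (h : Dg n M 0 e u w ∨ Dg n M 0 e w u) :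
    Cls M 0 u ∧ ∃ q : ℤ, src (e.1 + n * q, e.2.1 + n * q, e.2.2) = vx M u ∨
      tgt (e.1 + n * q, e.2.1 + n * q, e.2.2) = vx M u := by
  obtain ⟨x, y, b⟩ := e
  rcases h with h | h
  all_goals
    cases h with
    | lrise q t h1 h2 h3 =>
      obtain ⟨A, hA⟩ : ∃ A : ℤ, A = (n : ℤ) * q := ⟨_, rfl⟩
      have e1 : q * ((2 * n : ℕ) : ℤ) = 2 * A := by rw [hA]; push_cast; ring
      cases b
      · simp only [dco, Bool.false_eq_true, if_false] at h1 h2 h3
        exfalso; push_cast at h3; omega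
      · simp only [dco, if_true] at h1 h2 h3
        refine ⟨?_, q, ?_⟩
        · unfold Cls
          simp only [e1]
          push_cast
          omega
        · simp only [vx, pv, e1, Bool.false_eq_true, if_false, ← hA, src_mk, tgt_true, Prod.mk.injEq]
          push_cast
          omega
    | lfall q t h1 h2 h3 =>
      obtain ⟨A, hA⟩ : ∃ A : ℤ, A = (n : ℤ) * q := ⟨_, rfl⟩
      have e1 : q * ((2 * n : ℕ) : ℤ) = 2 * A := by rw [hA]; push_cast; ring
      cases b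
      · simp only [dco, Bool.false_eq_true, if_false] at h1 h2 h3
        refine ⟨?_, q, ?_⟩
        · unfold Cls
          simp only [e1]
          push_cast
          omega
        · simp only [vx, pv, e1, Bool.false_eq_true, if_false, ← hA, src_mk, tgt_false, Prod.mk.injEq]
          push_cast
          omega
      · simp only [dco, if_true] at h1 h2 h3
        exfalso; push_cast at h3; omega
    | urise q t h1 h2 h3 =>
      obtain ⟨A, hA⟩ : ∃ A : ℤ, A = (n : ℤ) * q := ⟨_, rfl⟩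
      have e1 : q * ((2 * n : ℕ) : ℤ) = 2 * A := by rw [hA]; push_cast; ring
      cases b
      · simp only [dco, Bool.false_eq_true, if_false] at h1 h2 h3
        exfalso; push_cast at h3; omega
      · simp only [dco, if_true] at h1 h2 h3
        refine ⟨?_, q, ?_⟩
        · unfold Cls
          simp only [e1]
          push_cast
          omega
        · simp only [vx, pv, e1, if_true, ← hA, src_mk, tgt_true, Prod.mk.injEq]
          push_cast
          omega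
    | ufall q t h1 h2 h3 =>
      obtain ⟨A, hA⟩ : ∃ A : ℤ, A = (n : ℤ) * q := ⟨_, rfl⟩
      have e1 : q * ((2 * n : ℕ) : ℤ) = 2 * A := by rw [hA]; push_cast; ring
      cases b
      · simp only [dco, Bool.false_eq_true, if_false] at h1 h2 h3
        refine ⟨?_, q, ?_⟩
        · unfold Cls
          simp only [e1]
          push_cast
          omega
        · simp only [vx, pv, e1, if_true, ← hA, src_mk, tgt_false, Prod.mk.injEq]
          push_cast
          omega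
      · simp only [dco, if_true] at h1 h2 h3
        exfalso; push_cast at h3; omega

theorem EP_shift {N k r : ℕ} {P : Set (ℤ × ℤ)} (hP : ∀ (z : ℤ × ℤ) (s : ℤ), z ∈ P ↔ shf N k s z ∈ P)
    (q : ℤ) {e : Edg} (h : e ∈ EP r P) :
    (e.1 + ((prd N k * r : ℕ) : ℤ) * q, e.2.1 + ((prd N k * r : ℕ) : ℤ) * q, e.2.2) ∈ EP r P := by
  obtain ⟨x, y, b⟩ := e
  obtain ⟨z, hz, he⟩ := h
  obtain ⟨A, hA⟩ : ∃ A : ℤ, A = ((prd N k * r : ℕ) : ℤ) * q := ⟨_, rfl⟩
  refine ⟨(z.1 + q * prd N k, z.2 + q * prd N k), ?_, ?_⟩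
  · rw [hP _ q]
    have : shf N k q (z.1 + q * prd N k, z.2 + q * prd N k) = z := by
      unfold shf
      simp
    rw [this]
    exact hz
  · unfold sqE at he ⊢
    have e1 : (r : ℤ) * (z.1 + q * prd N k) = r * z.1 + A := by rw [hA]; push_cast; ring
    have e2 : (r : ℤ) * (z.2 + q * prd N k) = r * z.2 + A := by rw [hA]; push_cast; ring
    simp only [e1, e2, ← hA]
    cases b
    · rw [mem_RE_false] at he ⊢
      omega
    · rw [mem_RE_true] at he ⊢
      omega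

theorem EP_shift_iff {N k r : ℕ} {P : Set (ℤ × ℤ)}
    (hP : ∀ (z : ℤ × ℤ) (s : ℤ), z ∈ P ↔ shf N k s z ∈ P) (q : ℤ) {e : Edg} :
    (e.1 + ((prd N k * r : ℕ) : ℤ) * q, e.2.1 + ((prd N k * r : ℕ) : ℤ) * q, e.2.2) ∈ EP r P ↔
      e ∈ EP r P := by
  refine ⟨fun h => ?_, fun h => EP_shift hP q h⟩
  have h2 := EP_shift hP (-q) h
  have : ((e.1 + ((prd N k * r : ℕ) : ℤ) * q, e.2.1 + ((prd N k * r : ℕ) : ℤ) * q, e.2.2) : Edg).1 +
      ((prd N k * r : ℕ) : ℤ) * (-q) = e.1 := by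
    dsimp only; ring
  rw [this] at h2
  have : ((e.1 + ((prd N k * r : ℕ) : ℤ) * q, e.2.1 + ((prd N k * r : ℕ) : ℤ) * q, e.2.2) : Edg).2.1 +
      ((prd N k * r : ℕ) : ℤ) * (-q) = e.2.1 := by
    dsimp only; ring
  rw [this] at h2
  exact h2

theorem EP_red {N k r : ℕ} {P : Set (ℤ × ℤ)}
    (hP : ∀ (z : ℤ × ℤ) (s : ℤ), z ∈ P ↔ shf N k s z ∈ P) {e : Edg} :
    red (prd N k * r) e ∈ EP r P ↔ e ∈ EP r P := by
  have := EP_shift_iff (r := r) hP (-((e.1 + e.2.1) / (2 * ((prd N k * r : ℕ) : ℤ)))) (e := e)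
  rw [← this]
  unfold red
  simp only [mul_neg, ← sub_eq_add_neg]

theorem EP_union {r : ℕ} {P Q : Set (ℤ × ℤ)} {e : Edg} :
    e ∈ EP r (P ∪ Q) ↔ e ∈ EP r P ∨ e ∈ EP r Q := by
  constructor
  · rintro ⟨z, hz | hz, h⟩
    · exact Or.inl ⟨z, hz, h⟩
    · exact Or.inr ⟨z, hz, h⟩
  · rintro (⟨z, hz, h⟩ | ⟨z, hz, h⟩)
    · exact ⟨z, Or.inl hz, h⟩
    · exact ⟨z, Or.inr hz, h⟩

/-- an edge with an endpoint strictly inside a box belongs to it -/
theorem far_box {N k r : ℕ} (hr : 1 ≤ r) {g : Edg} (hg : g ∉ EP r (Bxs N k)) {v : Vtx}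
    (hv : src g = v ∨ tgt g = v) (s : ℤ) :
    (N : ℤ) * r ≤ |v.1 - s * (prd N k * r : ℕ)| ∨ (N : ℤ) * r ≤ |v.2 - s * (prd N k * r : ℕ)| := by
  by_contra hc
  push Not at hc
  obtain ⟨hc1, hc2⟩ := hc
  rw [abs_lt] at hc1 hc2
  apply hg
  have hr' : (0 : ℤ) < r := by exact_mod_cast hr
  have e0 : s * ((prd N k * r : ℕ) : ℤ) = r * (s * prd N k) := by push_cast; ring
  rw [e0] at hc1 hc2
  obtain ⟨x, y, b⟩ := g
  have hx := (FD_div hr (x := x) (k := x / (r : ℤ))).1 rfl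
  have hy := (FD_div hr (x := y) (k := y / (r : ℤ))).1 rfl
  obtain ⟨S, hS⟩ : ∃ S : ℤ, S = s * prd N k := ⟨_, rfl⟩
  rw [← hS] at hc1 hc2
  obtain ⟨X, hX⟩ : ∃ X : ℤ, X = x / (r : ℤ) := ⟨_, rfl⟩
  obtain ⟨Y, hY⟩ : ∃ Y : ℤ, Y = y / (r : ℤ) := ⟨_, rfl⟩
  rw [← hX] at hx
  rw [← hY] at hy
  have bnd : ∀ t T : ℤ, (r : ℤ) * T ≤ t → t < r * T + r → -((N : ℤ) * r) ≤ t - r * S →
      t - r * S < N * r → -(N : ℤ) ≤ T - S ∧ T - S < N := by
    intro t T h1 h2 h3 h4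
    constructor
    · have : (r : ℤ) * (S - N) < r * (T + 1) := by
        have i1 : (r : ℤ) * (S - N) = r * S - N * r := by ring
        have i2 : (r : ℤ) * (T + 1) = r * T + r := by ring
        rw [i1, i2]
        omega
      have := lt_of_mul_lt_mul_left this hr'.le
      omega
    · have : (r : ℤ) * T < r * (S + N) := by
        have i1 : (r : ℤ) * (S + N) = r * S + N * r := by ring
        rw [i1]
        omega
      have := lt_of_mul_lt_mul_left this hr'.le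
      omega
  have hxb : -((N : ℤ) * r) ≤ x - r * S ∧ x - r * S < N * r := by
    cases b <;> simp only [src_mk, tgt_false, tgt_true] at hv <;>
      rcases hv with rfl | rfl <;> dsimp only at hc1 hc2 <;> omega
  have hyb : -((N : ℤ) * r) ≤ y - r * S ∧ y - r * S < N * r := by
    cases b <;> simp only [src_mk, tgt_false, tgt_true] at hv <;>
      rcases hv with rfl | rfl <;> dsimp only at hc1 hc2 <;> omega
  have hxx := bnd x X hx.1 hx.2 hxb.1 hxb.2
  have hyy := bnd y Y hy.1 hy.2 hyb.1 hyb.2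
  refine ⟨(X, Y), ⟨s, ?_⟩, ?_⟩
  · unfold BxS shf
    simp only [Set.mem_setOf_eq, ← hS]
    omega
  · unfold sqE
    cases b
    · rw [mem_RE_false]
      dsimp only
      omega
    · rw [mem_RE_true]
      dsimp only
      omega

theorem ext_sq {r : ℕ} {z : ℤ × ℤ} {ν : ℕ} (hz : |z.1 - z.2| ≤ ν) {v : Vtx} (hv : inSq r z v) :
    |v.1 - v.2| ≤ (ν * r : ℕ) + r := by
  unfold inSq at hv
  rw [abs_le] at hz ⊢
  have h1 : (r : ℤ) * (z.1 - z.2) ≤ r * ν := mul_le_mul_of_nonneg_left hz.2 (by positivity)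
  have h2 : (r : ℤ) * (-(ν : ℤ)) ≤ r * (z.1 - z.2) := mul_le_mul_of_nonneg_left hz.1 (by positivity)
  have e1 : (r : ℤ) * (z.1 - z.2) = r * z.1 - r * z.2 := by ring
  have e2 : (r : ℤ) * ν = ((ν * r : ℕ) : ℤ) := by push_cast; ring
  have e3 : (r : ℤ) * (-(ν : ℤ)) = -((ν * r : ℕ) : ℤ) := by push_cast; ring
  rw [e1, e2] at h1
  rw [e1, e3] at h2
  omega

theorem mem_FB {N r k : ℕ} {c : Fin k → Cel} {n M : ℕ} {F : Finset Edg} {e : Edg} :
    e ∈ FB N r k c n M F ↔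
      e ∈ CE n M ∧ (e ∈ EP r (Bxs N k) ∨ e ∈ EP r (Crr N k c)) ∧ e ∈ F := by
  classical
  unfold FB
  simp only [Finset.mem_filter]

end TSEPB

open TSEPB in
theorem t_SEPB (_g1 : S_g1) (_g2 : S_g2) (g4 : S_g4) (hEX : S_EXI) (hLI : S_LIF) : S_SEPB := by
  intro N r k ρ l c hk hN hAdm hl h1 h2 n M hn hM F hF hB τ σ s s' i i' u u' hi hi' hi2 hi2' hu hu'
    hue hu'e hnear
  obtain ⟨-, -, hper, hext⟩ := g4 N k c (by omega) hk hAdm _ rfl
  set P : Set (ℤ × ℤ) := Bxs N k ∪ Crr N k c with hPdef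
  set G : Finset Edg := FB N r k c n M F with hGdef
  have hr1 : 1 ≤ r := by omega
  have hGC : G ⊆ CE n M := fun e he => (mem_FB.1 he).1
  have hAc : Ac 0 n M G = (↑G : Set Edg) := by
    ext e
    constructor
    · rintro ⟨-, h⟩
      exact Finset.mem_coe.2 (h.2 rfl)
    · intro h
      exact ⟨hGC (Finset.mem_coe.1 h), ⟨fun _ => rfl, fun _ => Finset.mem_coe.1 h⟩⟩
  have hCc : ∀ (F' : Finset Edg), Cc 0 n M F' = per n F' := by
    intro F'
    unfold Cc
    simp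
  -- numerical facts
  have hν : 56 ≤ prd N k := by unfold prd; omega
  have hnr : 56 * (r : ℤ) ≤ n := by
    rw [hn]
    push_cast
    have : (56 : ℤ) ≤ prd N k := by exact_mod_cast hν
    nlinarith
  have hNr : (k : ℤ) + 4 * r ≤ N * r := by
    have e1 : (k : ℤ) + 4 ≤ N := by exact_mod_cast hN
    have e2 : (1 : ℤ) ≤ r := by exact_mod_cast hr1
    have e3 : (0 : ℤ) ≤ k := by positivity
    nlinarith
  have hkn : k ≤ 2 * n := by
    have : (k : ℤ) ≤ 2 * n := by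
      have e4 : (k : ℤ) ≤ prd N k := by
        unfold prd
        push_cast
        omega
      have e5 : (prd N k : ℤ) ≤ n := by
        rw [hn]
        push_cast
        have e6 : (0 : ℤ) ≤ prd N k := by positivity
        have e2 : (1 : ℤ) ≤ r := by exact_mod_cast hr1
        nlinarith
      omega
    exact_mod_cast this
  have hn1 : 1 ≤ n := by
    have : (1 : ℤ) ≤ n := by
      have e2 : (1 : ℤ) ≤ r := by exact_mod_cast hr1
      linarith
    exact_mod_cast this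
  have hM' : (M : ℤ) = 4 * n := by rw [hM]; push_cast; ring
  -- the planar configurations
  have c3 : (per n G : Set Edg) ⊆ per n F := by
    apply per_mono
    intro e he
    exact (mem_FB.1 he).2.2
  have c1 : ∀ g ∈ (per n G : Set Edg), g ∈ EP r P := by
    intro g hg
    have h3 : red n g ∈ G := hg
    have h4 := (mem_FB.1 h3).2.1
    rw [← EP_union, ← hPdef] at h4
    rw [hn] at h4
    exact (EP_red hper).1 h4
  have c2 : ∀ g ∈ (per n F : Set Edg), g ∈ EP r P → g ∈ (per n G : Set Edg) := by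
    intro g hg hgP
    have h3 : red n g ∈ F := hg
    have h4 : red n g ∈ EP r P := by
      rw [hn]
      exact (EP_red hper).2 hgP
    rw [hPdef, EP_union] at h4
    exact mem_FB.2 ⟨hF h3, h4, h3⟩
  -- extent of the edges
  have extE : ∀ (g : Edg), g ∈ EP r P → ∀ v, (src g = v ∨ tgt g = v) → ∃ z ∈ P, inSq r z v ∧
      |v.1 - v.2| ≤ (prd N k * r : ℕ) + r := by
    intro g hg v hv
    obtain ⟨z, hz, hzv⟩ : ∃ z ∈ P, inSq r z v := by
      rcases hv with hv | hv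
      · obtain ⟨q, hq, hq1, -⟩ := EP_loc hg (Or.inl ⟨hv, rfl⟩)
        exact ⟨q, hq, hq1⟩
      · obtain ⟨q, hq, -, hq1⟩ := EP_loc hg (Or.inl ⟨rfl, hv⟩)
        exact ⟨q, hq, hq1⟩
    exact ⟨z, hz, hzv, ext_sq (hext z hz) hzv⟩
  -- facts about the two points
  have main : ∀ (p : Pt) (t : ℤ) (j : ℕ), j < 2 * k → j % 2 = 0 →
      RB 0 n M k (↑G) τ σ (sec n M k t j) p →
      (∃ e ∈ CE n M, e ∉ EP r (Bxs N k) ∧ e ∉ EP r (Crr N k c) ∧
        ∃ w, Dg n M 0 e p w ∨ Dg n M 0 e w p) →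
      Cls M 0 p ∧ (∃ g, g ∉ EP r P ∧ (src g = vx M p ∨ tgt g = vx M p)) ∧
      (∃ g ∈ EP r P, (src g = vx M p ∨ tgt g = vx M p)) ∧
      (∀ q : ℤ, (N : ℤ) * r ≤ |(vx M p).1 - q * (prd N k * r : ℕ)| ∨
        (N : ℤ) * r ≤ |(vx M p).2 - q * (prd N k * r : ℕ)|) := by
    rintro p t j hj hj2 hp ⟨e, -, he1, he2, w, hw⟩
    obtain ⟨hcl, q, hq⟩ := dg_end hw
    have hgn : (e.1 + n * q, e.2.1 + n * q, e.2.2) ∉ EP r P := by
      rw [hn, EP_shift_iff hper, hPdef, EP_union]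
      tauto
    have hfar : ∀ q : ℤ, (N : ℤ) * r ≤ |(vx M p).1 - q * (prd N k * r : ℕ)| ∨
        (N : ℤ) * r ≤ |(vx M p).2 - q * (prd N k * r : ℕ)| := by
      intro q'
      refine far_box hr1 (fun hb => hgn ?_) hq q'
      rw [hPdef, EP_union]
      exact Or.inl hb
    obtain ⟨hsc, m, hm0, hmk, hsv⟩ := sec_vx n M k t hj hj2
    -- the point is not near the ends
    have hin : |(vx M p).1 - (vx M p).2| + 2 < M := by
      by_contra hcon
      obtain ⟨v, w', -, k2, k3, g, hg, hgv⟩ := hEX 0 n M k (by norm_num) hn1 hkn G hGC τ σ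
        (sec n M k t j) p (fun v => |v.1 - v.2| + 2 < M) hsc hcl (by rw [hAc]; exact hp)
        (by rw [hsv, sub_self, abs_zero]; omega) hcon (fun v hv => hv)
      rw [hCc] at hg
      apply k3
      have hw' : src g = w' ∨ tgt g = w' := by
        rcases hgv with ⟨-, h⟩ | ⟨h, -⟩
        · exact Or.inr h
        · exact Or.inl h
      obtain ⟨z, -, -, hb⟩ := extE g (c1 g hg) w' hw'
      rw [← hn] at hb
      omega
    refine ⟨hcl, ⟨_, hgn, hq⟩, ?_, hfar⟩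
    obtain ⟨v, w', -, k2, -, g, hg, hgv⟩ := hEX 0 n M k (by norm_num) hn1 hkn G hGC τ σ
      p (sec n M k t j) (fun v => v = vx M p) hcl hsc
      (by rw [hAc]; exact Relation.EqvGen.symm _ _ hp) rfl
      (by
        intro hh
        rw [hsv] at hh
        have := hfar t
        rw [← hh, ← hn] at this
        simp only [le_abs] at this
        omega)
      (by rintro v rfl; exact hin)
    rw [hCc] at hg
    refine ⟨g, c1 g hg, ?_⟩
    have k2' : v = vx M p := k2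
    rcases hgv with ⟨h, -⟩ | ⟨-, h⟩
    · exact Or.inl (h.trans k2')
    · exact Or.inr (h.trans k2')
  obtain ⟨hcl, hun, ⟨gy, hgy, hgyu⟩, hfar⟩ := main u s i hi hi2 hu hue
  obtain ⟨hcl', hun', huy', -⟩ := main u' s' i' hi' hi2' hu' hu'e
  obtain ⟨z, hz, hzu, hextu⟩ := extE gy hgy _ hgyu
  have exit : ∀ (p : Pt) (t : ℤ) (j : ℕ), Cls M 0 p → j < 2 * k → j % 2 = 0 →
      RB 0 n M k (↑G) τ σ (sec n M k t j) p →
      ∀ R : Vtx → Prop, R (vx M p) →
      (∀ v, R v → |v.1 - (vx M u).1| ≤ r ∧ |v.2 - (vx M u).2| ≤ r) →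
      ∃ v w, Reach (per n G ∩ {e | R (src e) ∧ R (tgt e)}) (vx M p) v ∧ R v ∧ ¬ R w ∧
        ∃ e ∈ (per n G : Set Edg), (src e = v ∧ tgt e = w) ∨ (src e = w ∧ tgt e = v) := by
    intro p t j hclp hj hj2 hp R hR hRn
    obtain ⟨hsc, m, hm0, hmk, hsv⟩ := sec_vx n M k t hj hj2
    have := hEX 0 n M k (by norm_num) hn1 hkn G hGC τ σ p (sec n M k t j) R hclp hsc
      (by rw [hAc]; exact Relation.EqvGen.symm _ _ hp) hR
      (by
        intro hh
        have h3 := hRn _ hh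
        have h4 := hfar t
        rw [hsv] at h3
        rw [← hn] at h4
        simp only [abs_le, le_abs] at h3 h4
        omega)
      (by
        intro v hv
        have h3 := hRn v hv
        have h4 := hextu
        rw [← hn] at h4
        rw [abs_le] at h4
        rw [abs_le, abs_le] at h3
        have : |v.1 - v.2| ≤ (n : ℤ) + r + 2 * r := by
          rw [abs_le]
          omega
        omega)
    rw [hCc] at this
    exact this
  have hctx : Ctx N r ρ l (prd N k) P (per n G) (per n F) (vx M u) (vx M u') :=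
    { hl := hl
      h1 := h1
      h2 := h2
      hν := by omega
      c1 := c1
      c2 := c2
      c3 := c3
      un := hun
      un' := hun'
      uy' := huy'
      n1 := hnear.1
      n2 := hnear.2
      ex := exit u s i hcl hi hi2 hu
      ex' := exit u' s' i' hcl' hi' hi2' hu'
      hD := hfar
      hext := hextu }
  rcases planar hctx hz hzu with hbad | ⟨R, hRn, hRu, hreach⟩
  · exfalso
    apply hB
    unfold Bad
    rw [hCc]
    unfold BadQ at hbad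
    rw [← hn] at hbad
    first
    | exact hbad
    | exact hbad.imp id (fun ⟨d, x0, y0, i, j, h1, h2, h3, h4⟩ =>
        ⟨d, x0, y0, i, j, h1, h2, h3.imp And.right And.right, h4⟩)
  · have hlink : RB 0 n M k (Ac 0 n M G) τ σ u u' := by
      refine hLI 0 n M k (by norm_num) hn1 hkn G hGC τ σ u u' R hcl hcl' ?_ hRu
        (by rw [hCc]; exact hreach)
      intro v hv
      have h3 := hRn v hv
      rw [abs_le, abs_le] at h3
      constructor
      · have h4 := hextu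
        rw [← hn, abs_le] at h4
        have : |v.1 - v.2| ≤ (n : ℤ) + r + 2 * r := by
          rw [abs_le]
          omega
        omega
      · rintro q ⟨h5, h6, h7⟩
        have h4 := hfar q
        rw [← hn] at h4
        simp only [le_abs] at h4
        omega
    rw [hAc] at hlink
    exact Relation.EqvGen.trans _ _ _ (Relation.EqvGen.trans _ _ _ hu hlink)
      (Relation.EqvGen.symm _ _ hu')

end Pool.Agent.H160R2.MU
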