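import Pool.Agent.H160R2.MU.Defs

/-!
# Project MU: re-randomising the tubes (class 1)
-/

set_option autoImplicit false

namespace Pool.Agent.H160R2.MU
open Pool.Agent.H863R2.Cyl
open Pool.Agent.H988R2.Perc (Word PD)
open Pool.Agent.H160R2.ML
open H974 H906.Cyl
open H12S (Dir hbE segD rimE H4 Crs Nr sqE)

namespace TSTA

/-! ### general facts about generated equivalences -/

theorem eqv_iff {V : Type*} {r : V → V → Prop} {P : V → Prop} (h : ∀ a b, r a b → (P a ↔ P b))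
    {x y : V} (hxy : Relation.EqvGen r x y) : P x ↔ P y := by
  induction hxy with
  | rel a b hab => exact h a b hab
  | refl a => exact Iff.rfl
  | symm a b _ ih => exact ih.symm
  | trans a b c _ _ ih1 ih2 => exact ih1.trans ih2

theorem eqv_mono {V : Type*} {r s : V → V → Prop} (h : ∀ a b, r a b → s a b)
    {x y : V} (hxy : Relation.EqvGen r x y) : Relation.EqvGen s x y := by
  induction hxy with
  | rel a b hab => exact Relation.EqvGen.rel _ _ (h a b hab)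
  | refl a => exact Relation.EqvGen.refl _
  | symm a b _ ih => exact Relation.EqvGen.symm _ _ ih
  | trans a b c _ _ ih1 ih2 => exact Relation.EqvGen.trans _ _ _ ih1 ih2

theorem eqv_inv {V : Type*} {r s : V → V → Prop} {P : V → Prop} (hP : ∀ a b, r a b → (P a ↔ P b))
    (h : ∀ a b, r a b → P a → s a b)
    {x y : V} (hxy : Relation.EqvGen r x y) : P x → Relation.EqvGen s x y := by
  induction hxy with
  | rel a b hab => exact fun hx => Relation.EqvGen.rel _ _ (h a b hab hx)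
  | refl a => exact fun _ => Relation.EqvGen.refl _
  | symm a b hab ih => exact fun hx => Relation.EqvGen.symm _ _ (ih ((eqv_iff hP hab).2 hx))
  | trans a b c hab _ ih1 ih2 =>
    exact fun hx => Relation.EqvGen.trans _ _ _ (ih1 hx) (ih2 ((eqv_iff hP hab).1 hx))

theorem eqv_map {V : Type*} {r s : V → V → Prop} (f : V → V) (h : ∀ a b, r a b → s (f a) (f b))
    {x y : V} (hxy : Relation.EqvGen r x y) : Relation.EqvGen s (f x) (f y) := by
  induction hxy with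
  | rel a b hab => exact Relation.EqvGen.rel _ _ (h a b hab)
  | refl a => exact Relation.EqvGen.refl _
  | symm a b _ ih => exact Relation.EqvGen.symm _ _ ih
  | trans a b c _ _ ih1 ih2 => exact Relation.EqvGen.trans _ _ _ ih1 ih2

/-! ### words -/

theorem sg_odd (w : Word) (j : ℤ) : sg w j % 2 = 1 := by
  unfold sg
  split_ifs <;> decide

theorem Sh_par (w : Word) (j k : ℤ) (h : j ≤ k) : (Sh w j k - (k - j)) % 2 = 0 := by
  obtain ⟨H, hH, _⟩ := Sem1Aux.exists_ht (sg w)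
  rw [Sem1Aux.Sh_eq hH j k h]
  induction k, h using Int.leInduction with
  | base => simp
  | succ k hk ih =>
    have h1 := hH k
    have h2 := sg_odd w k
    omega

theorem Rw_par {w : Word} {a b : ℤ} (h : Rw w a b) : (a - b) % 2 = 0 := by
  rcases h with ⟨h1, _, h3⟩ | ⟨h1, _, h3⟩
  · have := Sh_par w a b h1
    omega
  · have := Sh_par w b a h1
    omega

/-! ### classes -/

theorem Dg_cls {n M c : ℕ} {e : Edg} {x y : Pt} (h : Dg n M c e x y) (hc : c < 2) :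
    Cls M c x ∧ Cls M c y := by
  unfold Cls
  cases h with
  | lrise q t h1 h2 h3 =>
    obtain ⟨q', hq'⟩ : ∃ q' : ℤ, q * ((2 * n : ℕ) : ℤ) = 2 * q' := ⟨q * n, by push_cast; ring⟩
    simp only [hq']
    push_cast
    refine ⟨⟨?_, ?_⟩, ?_, ?_⟩ <;> omega
  | lfall q t h1 h2 h3 =>
    obtain ⟨q', hq'⟩ : ∃ q' : ℤ, q * ((2 * n : ℕ) : ℤ) = 2 * q' := ⟨q * n, by push_cast; ring⟩
    simp only [hq']
    push_cast
    refine ⟨⟨?_, ?_⟩, ?_, ?_⟩ <;> omega
  | urise q t h1 h2 h3 =>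
    obtain ⟨q', hq'⟩ : ∃ q' : ℤ, q * ((2 * n : ℕ) : ℤ) = 2 * q' := ⟨q * n, by push_cast; ring⟩
    simp only [hq']
    push_cast
    refine ⟨⟨?_, ?_⟩, ?_, ?_⟩ <;> omega
  | ufall q t h1 h2 h3 =>
    obtain ⟨q', hq'⟩ : ∃ q' : ℤ, q * ((2 * n : ℕ) : ℤ) = 2 * q' := ⟨q * n, by push_cast; ring⟩
    simp only [hq']
    push_cast
    refine ⟨⟨?_, ?_⟩, ?_, ?_⟩ <;> omega

theorem Gl_cls {n M k c : ℕ} {x y : Pt} (h : Gl n M k x y) : Cls M c x ↔ Cls M c y := by
  cases h with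
  | glue s i hi => exact Iff.rfl

theorem Wl_cls {τ σ : Word} {M c : ℕ} {x y : Pt} (h : Wl τ σ x y) : Cls M c x ↔ Cls M c y := by
  unfold Cls
  cases h with
  | low a b hab =>
    have := Rw_par hab
    simp only
    constructor
    · rintro ⟨h1, h2⟩; exact ⟨by omega, h2⟩
    · rintro ⟨h1, h2⟩; exact ⟨by omega, h2⟩
  | upp a b hab =>
    have := Rw_par hab
    simp only
    constructor
    · rintro ⟨h1, h2⟩; exact ⟨by omega, h2⟩
    · rintro ⟨h1, h2⟩; exact ⟨by omega, h2⟩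

theorem sec_cls (n M k : ℕ) (s : ℤ) (i : ℕ) (hi : i ≤ 2 * k) (c : ℕ) :
    Cls M c (sec n M k s i) ↔ i % 2 = c := by
  obtain ⟨q', hq'⟩ : ∃ q' : ℤ, s * ((2 * n : ℕ) : ℤ) = 2 * q' := ⟨s * n, by push_cast; ring⟩
  unfold Cls sec
  split_ifs with h
  · simp only [hq']
    omega
  · simp only [hq']
    omega

/-! ### the shift by a period -/

/-- translation by `q` periods -/
def shp (n : ℕ) (q : ℤ) (x : Pt) : Pt := ((x.1.1 + q * (2 * n : ℕ), x.1.2), x.2)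

theorem shp_neg (n : ℕ) (q : ℤ) (x : Pt) : shp n (-q) (shp n q x) = x := by
  unfold shp
  simp only [neg_mul, add_neg_cancel_right]

theorem Dg_shp {n M c : ℕ} {e : Edg} {x y : Pt} (h : Dg n M c e x y) (q' : ℤ) :
    Dg n M c e (shp n q' x) (shp n q' y) := by
  unfold shp
  cases h with
  | lrise q t h1 h2 h3 =>
    have := Dg.lrise (n := n) (q + q') t h1 h2 h3
    simp only
    convert this using 3 <;> first | rfl | (ring_nf) 
  | lfall q t h1 h2 h3 =>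
    have := Dg.lfall (n := n) (q + q') t h1 h2 h3
    simp only
    convert this using 3 <;> first | rfl | (ring_nf) 
  | urise q t h1 h2 h3 =>
    have := Dg.urise (n := n) (q + q') t h1 h2 h3
    simp only
    convert this using 3 <;> first | rfl | (ring_nf) 
  | ufall q t h1 h2 h3 =>
    have := Dg.ufall (n := n) (q + q') t h1 h2 h3
    simp only
    convert this using 3 <;> first | rfl | (ring_nf) 

theorem Dg_lift {n M c : ℕ} {e : Edg} {x y x' y' : Pt} (h : Dg n M c e x y)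
    (h' : Dg n M c e x' y') : ∃ q : ℤ, x' = shp n q x ∧ y' = shp n q y := by
  cases h with
  | lrise q t h1 h2 h3 =>
    cases h' with
    | lrise q' t' h1' h2' h3' =>
      have : t' = t := by omega
      subst this
      refine ⟨q' - q, ?_, ?_⟩ <;> simp only [shp, Prod.mk.injEq, and_true] <;> ring
    | lfall q' t' h1' h2' h3' => exact absurd h3 h3'
    | urise q' t' h1' h2' h3' => omega
    | ufall q' t' h1' h2' h3' => omega
  | lfall q t h1 h2 h3 =>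
    cases h' with
    | lrise q' t' h1' h2' h3' => exact absurd h3' h3
    | lfall q' t' h1' h2' h3' =>
      have : t' = t := by omega
      subst this
      refine ⟨q' - q, ?_, ?_⟩ <;> simp only [shp, Prod.mk.injEq, and_true] <;> ring
    | urise q' t' h1' h2' h3' => omega
    | ufall q' t' h1' h2' h3' => omega
  | urise q t h1 h2 h3 =>
    cases h' with
    | lrise q' t' h1' h2' h3' => omega
    | lfall q' t' h1' h2' h3' => omega
    | urise q' t' h1' h2' h3' =>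
      have : t' = t := by omega
      subst this
      refine ⟨q' - q, ?_, ?_⟩ <;> simp only [shp, Prod.mk.injEq, and_true] <;> ring
    | ufall q' t' h1' h2' h3' => exact absurd h3 h3'
  | ufall q t h1 h2 h3 =>
    cases h' with
    | lrise q' t' h1' h2' h3' => omega
    | lfall q' t' h1' h2' h3' => omega
    | urise q' t' h1' h2' h3' => exact absurd h3' h3
    | ufall q' t' h1' h2' h3' =>
      have : t' = t := by omega
      subst this
      refine ⟨q' - q, ?_, ?_⟩ <;> simp only [shp, Prod.mk.injEq, and_true] <;> ring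

theorem Gl_shp {n M k : ℕ} {x y : Pt} (h : Gl n M k x y) (q : ℤ) :
    Gl n M k (shp n q x) (shp n q y) := by
  unfold shp
  cases h with
  | glue s i hi =>
    have := Gl.glue (n := n) (M := M) (k := k) (s + q) i hi
    simp only
    convert this using 3 <;> first | rfl | (ring_nf)

theorem Rw_shp {w : Word} (n : ℕ) (hw : w.length = 2 * n) (a b q : ℤ) (h : Rw w a b) :
    Rw w (a + q * (2 * n : ℕ)) (b + q * (2 * n : ℕ)) := by
  have h1 := fun a b => Rw_shift w a b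
  rw [hw] at h1
  induction q using Int.induction_on with
  | zero => simpa using h
  | succ i ih =>
    have := (h1 _ _).2 ih
    convert this using 1 <;> ring
  | pred i ih =>
    refine (h1 _ _).1 ?_
    convert ih using 1 <;> ring

theorem Wl_shp {n : ℕ} {τ σ : Word} (hτ : τ.length = 2 * n) (hσ : σ.length = 2 * n) {x y : Pt}
    (h : Wl τ σ x y) (q : ℤ) : Wl τ σ (shp n q x) (shp n q y) := by
  unfold shp
  cases h with
  | low a b hab => exact Wl.low _ _ (Rw_shp n hσ a b q hab)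
  | upp a b hab => exact Wl.upp _ _ (Rw_shp n hτ a b q hab)

theorem sec_shp (n M k : ℕ) (s q : ℤ) (i : ℕ) : shp n q (sec n M k s i) = sec n M k (s + q) i := by
  unfold shp sec
  split_ifs <;> simp only [Prod.mk.injEq, and_true] <;> ring

theorem XA_shp {N r k : ℕ} {c : Fin k → Cel} {n M : ℕ} {p : Pt} (h : XA N r k c n M p) (q : ℤ) :
    XA N r k c n M (shp n q p) := by
  rcases h with ⟨s, i, h1, h2, rfl⟩ | ⟨e, h1, h2, h3, w, h4⟩
  · exact Or.inl ⟨s + q, i, h1, h2, sec_shp n M k s q i⟩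
  · refine Or.inr ⟨e, h1, h2, h3, shp n q w, ?_⟩
    rcases h4 with h4 | h4
    · exact Or.inl (Dg_shp h4 q)
    · exact Or.inr (Dg_shp h4 q)

theorem XA_cls {N r k : ℕ} {c : Fin k → Cel} {n M : ℕ} {p : Pt} (h : XA N r k c n M p) :
    Cls M 1 p := by
  rcases h with ⟨s, i, h1, h2, rfl⟩ | ⟨e, h1, h2, h3, w, h4⟩
  · exact (sec_cls n M k s i (by omega) 1).2 h2
  · rcases h4 with h4 | h4
    · exact (Dg_cls h4 (by norm_num)).1
    · exact (Dg_cls h4 (by norm_num)).2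

/-! ### squares -/

theorem sqE_bd {r : ℕ} {z : ℤ × ℤ} {e : Edg} (h : e ∈ sqE r z) :
    (r * z.1 ≤ e.1 ∧ e.1 ≤ r * z.1 + r) ∧ (r * z.2 ≤ e.2.1 ∧ e.2.1 ≤ r * z.2 + r) := by
  obtain ⟨x, y, _ | _⟩ := e
  · simp only [sqE, mem_RE_false] at h
    exact ⟨⟨h.1, h.2.1⟩, h.2.2.1, h.2.2.2.le⟩
  · simp only [sqE, mem_RE_true] at h
    exact ⟨⟨h.1, h.2.1.le⟩, h.2.2.1, h.2.2.2⟩

theorem dco_bd (e : Edg) : e.1 - e.2.1 - 1 ≤ dco e ∧ dco e ≤ e.1 - e.2.1 := by
  unfold dco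
  split_ifs <;> omega

/-- boxes and tubes stay in the central band -/
theorem EP_bd {r ν : ℕ} {P : Set (ℤ × ℤ)} (hP : ∀ z ∈ P, |z.1 - z.2| ≤ ν) {e : Edg}
    (h : e ∈ EP r P) : -((ν * r : ℕ) : ℤ) - r - 1 ≤ dco e ∧ dco e ≤ ((ν * r : ℕ) : ℤ) + r := by
  obtain ⟨z, hz, he⟩ := h
  have h1 := sqE_bd he
  have h2 := dco_bd e
  have h3 := abs_le.1 (hP z hz)
  have h4 : (r : ℤ) * (z.1 - z.2) ≤ r * ν := mul_le_mul_of_nonneg_left h3.2 (by positivity)
  have h5 : (r : ℤ) * (-(ν : ℤ)) ≤ r * (z.1 - z.2) := mul_le_mul_of_nonneg_left h3.1 (by positivity)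
  push_cast
  constructor
  · nlinarith [h1.1.1, h1.1.2, h1.2.1, h1.2.2, h2.1, h2.2]
  · nlinarith [h1.1.1, h1.1.2, h1.2.1, h1.2.2, h2.1, h2.2]

theorem edz_sum (s d : ℤ) : (edz s d).1 + (edz s d).2.1 = s := by
  unfold edz
  split_ifs with h
  · simp only; omega
  · simp only; omega

theorem dco_edz' (s d : ℤ) : dco (edz s d) = d := by
  unfold edz dco
  split_ifs with h
  · simp only [if_true]; omega
  · simp_all
  · simp_all
  · simp only; omega

/-- a point of class `1` of level `0` is an end of a square of the last rows -/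
theorem lev0 {n M : ℕ} (hn : 1 ≤ n) (hM : 1 ≤ M) (a : ℤ) (β : Bool)
    (h : Cls M 1 ((a, 0), β)) : ∃ e ∈ CE n M, (dco e = -M ∨ dco e = M - 1) ∧
      ∃ w, Dg n M 1 e ((a, 0), β) w ∨ Dg n M 1 e w ((a, 0), β) := by
  obtain ⟨h1, _⟩ := h
  simp only at h1
  cases β
  · have h3 := Int.emod_nonneg a (show (2 * n : ℤ) ≠ 0 by omega)
    have h4 := Int.emod_lt_of_pos a (show (0 : ℤ) < 2 * n by omega)
    have h5 := Int.mul_ediv_add_emod a (2 * n)
    have e5 : 2 * (n : ℤ) * (a / (2 * n)) = 2 * (n * (a / (2 * n))) := by ring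
    refine ⟨edz (a % (2 * n)) (-M), ?_, Or.inl (dco_edz' _ _), ((a + 1, 1), false), Or.inl ?_⟩
    · rw [mem_CE, edz_sum, dco_edz']
      exact ⟨⟨h3, h4⟩, le_refl _, by omega⟩
    · have := Dg.lrise (n := n) (M := M) (c := 1) (e := edz (a % (2 * n)) (-M)) (a / (2 * n)) 0
        (by rw [dco_edz']; simp) (by rw [dco_edz']; omega) (by rw [edz_sum, dco_edz']; omega)
      rw [edz_sum] at this
      have e1 : a % (2 * n) + a / (2 * n) * (2 * n : ℕ) = a := by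
        push_cast; rw [e5] at h5; linarith [mul_comm (a / (2 * (n : ℤ))) (2 * (n : ℤ)), e5]
      rw [e1] at this
      exact this
  · have h3 := Int.emod_nonneg (a - 1) (show (2 * n : ℤ) ≠ 0 by omega)
    have h4 := Int.emod_lt_of_pos (a - 1) (show (0 : ℤ) < 2 * n by omega)
    have h5 := Int.mul_ediv_add_emod (a - 1) (2 * n)
    have e5 : 2 * (n : ℤ) * ((a - 1) / (2 * n)) = 2 * (n * ((a - 1) / (2 * n))) := by ring
    refine ⟨edz ((a - 1) % (2 * n)) (M - 1), ?_, Or.inr (dco_edz' _ _), ((a - 1, 1), true),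
      Or.inr ?_⟩
    · rw [mem_CE, edz_sum, dco_edz']
      exact ⟨⟨h3, h4⟩, by omega, by omega⟩
    · have := Dg.urise (n := n) (M := M) (c := 1) (e := edz ((a - 1) % (2 * n)) (M - 1))
        ((a - 1) / (2 * n)) 0
        (by rw [dco_edz']; simp) (by rw [dco_edz']; omega) (by rw [edz_sum, dco_edz']; omega)
      rw [edz_sum] at this
      have e1 : (a - 1) % (2 * n) + (a - 1) / (2 * n) * (2 * n : ℕ) = a - 1 := by
        push_cast; rw [e5] at h5
        linarith [mul_comm ((a - 1) / (2 * (n : ℤ))) (2 * (n : ℤ)), e5]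
      rw [e1, sub_add_cancel] at this
      exact this

/-! ### the exploration -/

/-- the squares of the boxes -/
def ST (N r k n M : ℕ) : Set Edg := {e | e ∈ CE n M ∧ e ∈ EP r (Bxs N k)}

/-- the squares of the tubes outside the boxes -/
def SD (N r k : ℕ) (c : Fin k → Cel) (n M : ℕ) : Set Edg :=
  {e | e ∈ CE n M ∧ e ∉ EP r (Bxs N k) ∧ e ∈ EP r (Crr N k c)}

/-- the squares of the closed region -/
def SO (N r k : ℕ) (c : Fin k → Cel) (n M : ℕ) : Set Edg :=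
  {e | e ∈ CE n M ∧ e ∉ EP r (Bxs N k) ∧ e ∉ EP r (Crr N k c)}

/-- the links between the marked points -/
def fX (N r k : ℕ) (c : Fin k → Cel) (n M : ℕ) (τ σ : Word) (x y : Pt) : Prop :=
  (Wl τ σ x y ∧ Cls M 1 x ∧ Cls M 1 y) ∨ ∃ e ∈ SO N r k c n M, Dg n M 1 e x y

/-- the relation of class `1` with the squares of `B` and the closed region -/
def R1 (N r k : ℕ) (c : Fin k → Cel) (n M : ℕ) (τ σ : Word) (B : Set Edg) : Pt → Pt → Prop :=
  Relation.EqvGen (fun x y => Gl n M k x y ∨ fX N r k c n M τ σ x y ∨ ∃ e ∈ B, Dg n M 1 e x y)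

theorem RB_R1 {N r k : ℕ} {c : Fin k → Cel} {n M : ℕ} {τ σ : Word} {B A' : Set Edg}
    (hA : ∀ e, e ∈ A' ↔ e ∈ B ∨ e ∈ SO N r k c n M) {x y : Pt} (hx : Cls M 1 x) :
    RB 1 n M k A' τ σ x y ↔ R1 N r k c n M τ σ B x y := by
  constructor
  · intro h
    refine eqv_inv (P := Cls M 1) ?_ ?_ h hx
    · rintro a b (hab | hab | ⟨e, he, hab⟩)
      · exact Wl_cls hab
      · exact Gl_cls hab
      · exact ⟨fun _ => (Dg_cls hab (by norm_num)).2, fun _ => (Dg_cls hab (by norm_num)).1⟩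
    · rintro a b (hab | hab | ⟨e, he, hab⟩) ha
      · exact Or.inr (Or.inl (Or.inl ⟨hab, ha, (Wl_cls hab).1 ha⟩))
      · exact Or.inl hab
      · rcases (hA e).1 he with h1 | h1
        · exact Or.inr (Or.inr ⟨e, h1, hab⟩)
        · exact Or.inr (Or.inl (Or.inr ⟨e, h1, hab⟩))
  · intro h
    refine eqv_mono ?_ h
    rintro a b (hab | (⟨hab, _, _⟩ | ⟨e, he, hab⟩) | ⟨e, he, hab⟩)
    · exact Or.inr (Or.inl hab)
    · exact Or.inl hab
    · exact Or.inr (Or.inr ⟨e, (hA e).2 (Or.inr he), hab⟩)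
    · exact Or.inr (Or.inr ⟨e, (hA e).2 (Or.inl he), hab⟩)

theorem R1_cls {N r k : ℕ} {c : Fin k → Cel} {n M : ℕ} {τ σ : Word} {B : Set Edg} {x y : Pt}
    (h : R1 N r k c n M τ σ B x y) : Cls M 1 x ↔ Cls M 1 y := by
  refine eqv_iff (P := Cls M 1) ?_ h
  rintro a b (hab | (⟨hab, h1, h2⟩ | ⟨e, he, hab⟩) | ⟨e, he, hab⟩)
  · exact Gl_cls hab
  · exact ⟨fun _ => h2, fun _ => h1⟩
  · exact ⟨fun _ => (Dg_cls hab (by norm_num)).2, fun _ => (Dg_cls hab (by norm_num)).1⟩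
  · exact ⟨fun _ => (Dg_cls hab (by norm_num)).2, fun _ => (Dg_cls hab (by norm_num)).1⟩

theorem cls_shp {n M c : ℕ} {q : ℤ} {x : Pt} (h : Cls M c x) : Cls M c (shp n q x) := by
  obtain ⟨q', hq'⟩ : ∃ q' : ℤ, q * ((2 * n : ℕ) : ℤ) = 2 * q' := ⟨q * n, by push_cast; ring⟩
  unfold Cls shp at *
  simp only [hq']
  omega

theorem R1_shp {N r k : ℕ} {c : Fin k → Cel} {n M : ℕ} {τ σ : Word} (hτ : τ.length = 2 * n)
    (hσ : σ.length = 2 * n) {B : Set Edg} {x y : Pt}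
    (h : R1 N r k c n M τ σ B x y) (q : ℤ) :
    R1 N r k c n M τ σ B (shp n q x) (shp n q y) := by
  refine eqv_map (shp n q) ?_ h
  rintro a b (hab | (⟨hab, h1, h2⟩ | ⟨e, he, hab⟩) | ⟨e, he, hab⟩)
  · exact Or.inl (Gl_shp hab q)
  · exact Or.inr (Or.inl (Or.inl ⟨Wl_shp hτ hσ hab q, cls_shp h1, cls_shp h2⟩))
  · exact Or.inr (Or.inl (Or.inr ⟨e, he, Dg_shp hab q⟩))
  · exact Or.inr (Or.inr ⟨e, he, Dg_shp hab q⟩)

/-- the explored points -/
def KK (N r k : ℕ) (c : Fin k → Cel) (n M : ℕ) (τ σ : Word) (F : Finset Edg) (u : Pt) : Prop :=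
  ∃ x ∈ {p | XA N r k c n M p}, R1 N r k c n M τ σ ({e | e ∉ F} ∩ ST N r k n M) x u

theorem KK_R1 {N r k : ℕ} {c : Fin k → Cel} {n M : ℕ} {τ σ : Word} {F : Finset Edg} {u v : Pt}
    (h : R1 N r k c n M τ σ ({e | e ∉ F} ∩ ST N r k n M) u v) :
    KK N r k c n M τ σ F u ↔ KK N r k c n M τ σ F v := by
  constructor
  · rintro ⟨x, hx, h1⟩
    exact ⟨x, hx, Relation.EqvGen.trans _ _ _ h1 h⟩
  · rintro ⟨x, hx, h1⟩
    exact ⟨x, hx, Relation.EqvGen.trans _ _ _ h1 (Relation.EqvGen.symm _ _ h)⟩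

theorem KK_shp {N r k : ℕ} {c : Fin k → Cel} {n M : ℕ} {τ σ : Word} (hτ : τ.length = 2 * n)
    (hσ : σ.length = 2 * n) {F : Finset Edg} {u : Pt} (h : KK N r k c n M τ σ F u) (q : ℤ) :
    KK N r k c n M τ σ F (shp n q u) := by
  obtain ⟨x, hx, h1⟩ := h
  exact ⟨shp n q x, XA_shp hx q, R1_shp hτ hσ h1 q⟩

theorem KK_lift {N r k : ℕ} {c : Fin k → Cel} {n M : ℕ} {τ σ : Word} (hτ : τ.length = 2 * n)
    (hσ : σ.length = 2 * n) {F : Finset Edg} {e : Edg} {u v u' v' : Pt} (h1 : Dg n M 1 e u v)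
    (h2 : Dg n M 1 e u' v') (h : KK N r k c n M τ σ F u ∨ KK N r k c n M τ σ F v) :
    KK N r k c n M τ σ F u' ∨ KK N r k c n M τ σ F v' := by
  obtain ⟨q, rfl, rfl⟩ := Dg_lift h1 h2
  exact h.imp (fun h => KK_shp hτ hσ h q) (fun h => KK_shp hτ hσ h q)

theorem KK_agree {N r k : ℕ} {c : Fin k → Cel} {n M : ℕ} {τ σ : Word} {F F' : Finset Edg}
    (h : ∀ e ∈ ST N r k n M, (∃ u v, Dg n M 1 e u v ∧
      (KK N r k c n M τ σ F u ∨ KK N r k c n M τ σ F v)) → (e ∈ F' ↔ e ∈ F)) (u : Pt) :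
    KK N r k c n M τ σ F' u ↔ KK N r k c n M τ σ F u := by
  have hK : ∀ x ∈ {p | XA N r k c n M p}, KK N r k c n M τ σ F x := fun x hx =>
    ⟨x, hx, Relation.EqvGen.refl _⟩
  have hP : ∀ a b : Pt, (Gl n M k a b ∨ fX N r k c n M τ σ a b ∨
      ∃ e ∈ ({e | e ∉ F'} ∩ ST N r k n M : Set Edg), Dg n M 1 e a b) →
      (KK N r k c n M τ σ F a ↔ KK N r k c n M τ σ F b) := by
    rintro a b (hab | hab | ⟨e, he, hab⟩)
    · exact KK_R1 (Relation.EqvGen.rel _ _ (Or.inl hab))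
    · exact KK_R1 (Relation.EqvGen.rel _ _ (Or.inr (Or.inl hab)))
    · by_cases h1 : KK N r k c n M τ σ F a ∨ KK N r k c n M τ σ F b
      · have h2 := (h e he.2 ⟨a, b, hab, h1⟩)
        exact KK_R1 (Relation.EqvGen.rel _ _ (Or.inr (Or.inr
          ⟨e, ⟨fun h3 => he.1 (h2.2 h3), he.2⟩, hab⟩)))
      · push Not at h1
        exact ⟨fun h2 => absurd h2 h1.1, fun h2 => absurd h2 h1.2⟩
  constructor
  · rintro ⟨x, hx, h1⟩
    exact (eqv_iff hP h1).1 (hK x hx)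
  · rintro ⟨x, hx, h1⟩
    refine ⟨x, hx, eqv_inv (P := KK N r k c n M τ σ F) ?_ ?_ h1 (hK x hx)⟩
    · intro a b hab
      exact KK_R1 (Relation.EqvGen.rel _ _ hab)
    · rintro a b (hab | hab | ⟨e, he, hab⟩) ha
      · exact Or.inl hab
      · exact Or.inr (Or.inl hab)
      · have h2 := (h e he.2 ⟨a, b, hab, Or.inl ha⟩)
        exact Or.inr (Or.inr ⟨e, ⟨fun h3 => he.1 (h2.1 h3), he.2⟩, hab⟩)

open Classical in
/-- the explored squares -/
noncomputable def Xp (N r k : ℕ) (c : Fin k → Cel) (n M : ℕ) (τ σ : Word) (F : Finset Edg) :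
    Finset Edg :=
  (CE n M).filter (fun e => e ∈ EP r (Bxs N k) ∧ ∃ u v, Dg n M 1 e u v ∧
    (KK N r k c n M τ σ F u ∨ KK N r k c n M τ σ F v))

theorem mem_Xp {N r k : ℕ} {c : Fin k → Cel} {n M : ℕ} {τ σ : Word} {F : Finset Edg} {e : Edg} :
    e ∈ Xp N r k c n M τ σ F ↔ e ∈ ST N r k n M ∧ ∃ u v, Dg n M 1 e u v ∧
    (KK N r k c n M τ σ F u ∨ KK N r k c n M τ σ F v) := by
  classical
  unfold Xp ST
  rw [Finset.mem_filter]
  constructor
  · rintro ⟨h1, h2, h3⟩; exact ⟨⟨h1, h2⟩, h3⟩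
  · rintro ⟨⟨h1, h2⟩, h3⟩; exact ⟨h1, h2, h3⟩

/-- the re-randomised configuration -/
noncomputable def mx (N r k : ℕ) (c : Fin k → Cel) (n M : ℕ) (τ σ : Word) (F G : Finset Edg) :
    Finset Edg := (F ∩ Xp N r k c n M τ σ F) ∪ (G \ Xp N r k c n M τ σ F)

theorem mem_mx {N r k : ℕ} {c : Fin k → Cel} {n M : ℕ} {τ σ : Word} {F G : Finset Edg} {e : Edg} :
    (e ∈ Xp N r k c n M τ σ F → (e ∈ mx N r k c n M τ σ F G ↔ e ∈ F)) ∧
    (e ∉ Xp N r k c n M τ σ F → (e ∈ mx N r k c n M τ σ F G ↔ e ∈ G)) := by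
  unfold mx
  rw [Finset.mem_union, Finset.mem_inter, Finset.mem_sdiff]
  tauto

theorem Xp_mx {N r k : ℕ} {c : Fin k → Cel} {n M : ℕ} {τ σ : Word} {F G : Finset Edg} :
    Xp N r k c n M τ σ (mx N r k c n M τ σ F G) = Xp N r k c n M τ σ F := by
  have h1 : ∀ u, KK N r k c n M τ σ (mx N r k c n M τ σ F G) u ↔ KK N r k c n M τ σ F u := by
    refine KK_agree ?_
    intro e he h
    exact mem_mx.1 (mem_Xp.2 ⟨he, h⟩)
  ext e
  rw [mem_Xp, mem_Xp]
  simp only [h1]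

/-- the points of the tube squares -/
def Dp (N r k : ℕ) (c : Fin k → Cel) (n M : ℕ) (u : Pt) : Prop :=
  ∃ e ∈ SD N r k c n M, ∃ w, Dg n M 1 e u w ∨ Dg n M 1 e w u

theorem fX_XA {N r k : ℕ} {c : Fin k → Cel} {n M : ℕ} {τ σ : Word} (hn : 1 ≤ n) (hM : 1 ≤ M)
    (hb : ∀ e ∈ EP r (Bxs N k) ∪ EP r (Crr N k c), -(M : ℤ) < dco e ∧ dco e < M - 1) {u v : Pt}
    (h : fX N r k c n M τ σ u v) : XA N r k c n M u ∧ XA N r k c n M v := by
  have key : ∀ (a : ℤ) (β : Bool), Cls M 1 ((a, 0), β) → XA N r k c n M ((a, 0), β) := by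
    intro a β ha
    obtain ⟨e, h1, h2, w, h3⟩ := lev0 hn hM a β ha
    refine Or.inr ⟨e, h1, ?_, ?_, w, h3⟩
    · intro h4
      have := hb e (Or.inl h4)
      omega
    · intro h4
      have := hb e (Or.inr h4)
      omega
  rcases h with ⟨h, h1, h2⟩ | ⟨e, he, h⟩
  · cases h with
    | low a b hab => exact ⟨key _ _ h1, key _ _ h2⟩
    | upp a b hab => exact ⟨key _ _ h1, key _ _ h2⟩
  · exact ⟨Or.inr ⟨e, he.1, he.2.1, he.2.2, v, Or.inl h⟩,
      Or.inr ⟨e, he.1, he.2.1, he.2.2, u, Or.inr h⟩⟩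

theorem Dp_lev {N r k : ℕ} {c : Fin k → Cel} {n M : ℕ}
    (hb : ∀ e ∈ EP r (Crr N k c), -(2 * (n : ℤ)) ≤ dco e ∧ dco e + 1 ≤ 2 * n) {u : Pt}
    (h : Dp N r k c n M u) : Cls M 1 u ∧ M ≤ u.1.2 + 2 * n := by
  obtain ⟨e, he, w, h⟩ := h
  have h1 := hb e he.2.2
  rcases h with h | h
  · refine ⟨(Dg_cls h (by norm_num)).1, ?_⟩
    cases h with
    | lrise q t h1 h2 h3 => simp only; omega
    | lfall q t h1 h2 h3 => simp only; omega
    | urise q t h1 h2 h3 => simp only; omega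
    | ufall q t h1 h2 h3 => simp only; omega
  · refine ⟨(Dg_cls h (by norm_num)).2, ?_⟩
    cases h with
    | lrise q t h1 h2 h3 => simp only; omega
    | lfall q t h1 h2 h3 => simp only; omega
    | urise q t h1 h2 h3 => simp only; omega
    | ufall q t h1 h2 h3 => simp only; omega

theorem A_eq {N r k : ℕ} {c : Fin k → Cel} {n M : ℕ} {F : Finset Edg} (e : Edg) :
    e ∈ Ac 1 n M (FA N r k c n M F) ↔
      e ∈ ({e | e ∉ F} ∩ ST N r k n M : Set Edg) ∨ e ∈ SO N r k c n M := by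
  classical
  show (e ∈ CE n M ∧ (e ∈ FA N r k c n M F ↔ 1 = 0)) ↔
    ((e ∉ F) ∧ (e ∈ CE n M ∧ e ∈ EP r (Bxs N k))) ∨
      (e ∈ CE n M ∧ e ∉ EP r (Bxs N k) ∧ e ∉ EP r (Crr N k c))
  unfold FA
  rw [Finset.mem_filter]
  simp only [one_ne_zero, iff_false]
  tauto

theorem B_eq {N r k : ℕ} {c : Fin k → Cel} {n M : ℕ} {F : Finset Edg} (e : Edg) :
    e ∈ Ac 1 n M (FB N r k c n M F) ↔
      e ∈ ({e | (e ∈ ST N r k n M ∨ e ∈ SD N r k c n M) ∧ e ∉ F} : Set Edg) ∨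
        e ∈ SO N r k c n M := by
  classical
  show (e ∈ CE n M ∧ (e ∈ FB N r k c n M F ↔ 1 = 0)) ↔
    (((e ∈ CE n M ∧ e ∈ EP r (Bxs N k)) ∨
      (e ∈ CE n M ∧ e ∉ EP r (Bxs N k) ∧ e ∈ EP r (Crr N k c))) ∧ e ∉ F) ∨
      (e ∈ CE n M ∧ e ∉ EP r (Bxs N k) ∧ e ∉ EP r (Crr N k c))
  unfold FB
  rw [Finset.mem_filter]
  simp only [one_ne_zero, iff_false]
  tauto

/-- **the clusters of the marked points do not merge** -/
theorem stay (hABS : S_ABS) (hSEPA : S_SEPA) {N r k ρ l : ℕ} {c : Fin k → Cel} (hk : 2 ≤ k)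
    (hN : k + 4 ≤ N) (hc : Adm N k c) (hl : 1 ≤ l) (hlρ : 32 * l ≤ ρ) (hρ : 32 * ρ ≤ r) {n M : ℕ}
    (hn : n = prd N k * r) (hM : M = 4 * n) (hn1 : 1 ≤ n)
    (hb : ∀ e ∈ EP r (Bxs N k) ∪ EP r (Crr N k c), -(2 * (n : ℤ)) ≤ dco e ∧ dco e + 1 ≤ 2 * n)
    {τ σ : Word} (hτ : τ.length = 2 * n) (hσ : σ.length = 2 * n) {F G : Finset Edg}
    (hF : F ⊆ CE n M) (hBad : ¬ Bad 1 N r ρ l (prd N k) n M F) (hT : Trap 1 n M l G)
    {x x' : Pt} (hx : XA N r k c n M x) (hx' : XA N r k c n M x') :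
    RB 1 n M k (Ac 1 n M (FB N r k c n M (mx N r k c n M τ σ F G))) τ σ x x' ↔
      RB 1 n M k (Ac 1 n M (FA N r k c n M F)) τ σ x x' := by
  rw [RB_R1 B_eq (XA_cls hx), RB_R1 A_eq (XA_cls hx)]
  refine hABS Pt Edg (Dg n M 1) (Gl n M k) (fX N r k c n M τ σ) (ST N r k n M) (SD N r k c n M)
    {e | e ∉ F} (Ac 1 n M G)
    {e | (e ∈ ST N r k n M ∨ e ∈ SD N r k c n M) ∧ e ∉ mx N r k c n M τ σ F G}
    {p | XA N r k c n M p} (fun u v => Nr (4 * l) (vx M u) (vx M v)) (R1 N r k c n M τ σ)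
    (KK N r k c n M τ σ F) (Dp N r k c n M) ?_ ?_ ?_ ?_ ?_ ?_ ?_ ?_ ?_ ?_ ?_ x hx x' hx'
  · intro B; rfl
  · intro u; exact Iff.rfl
  · intro u; exact Iff.rfl
  · intro u v h
    exact fX_XA hn1 (by omega) (fun e he => by have := hb e he; omega) h
  · rintro e he ⟨u, v, h1, h2⟩
    refine ⟨fun u' v' h3 => KK_lift hτ hσ h1 h3 h2, ?_⟩
    have h4 := (mem_mx (G := G)).1 (mem_Xp.2 ⟨he, u, v, h1, h2⟩)
    show ((e ∈ ST N r k n M ∨ e ∈ SD N r k c n M) ∧ e ∉ mx N r k c n M τ σ F G) ↔ e ∉ F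
    rw [h4]
    exact ⟨fun h => h.2, fun h => ⟨Or.inl he, h⟩⟩
  · intro e he h1 h2
    have h3 : e ∉ Xp N r k c n M τ σ F := by
      intro h4
      obtain ⟨_, u, v, h5, h6⟩ := mem_Xp.1 h4
      have := h1 u v h5
      tauto
    have h4 := (mem_mx (G := G)).2 h3
    have h5 : e ∉ G := fun h6 => h2.2 (h4.2 h6)
    exact ⟨he.1, fun h6 => absurd h6 h5, fun h6 => absurd h6 one_ne_zero⟩
  · intro e he
    exact he.1
  · intro e he h2
    have h3 : e ∉ Xp N r k c n M τ σ F := by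
      intro h4
      exact he.2.1 (mem_Xp.1 h4).1.2
    have h4 := (mem_mx (G := G)).2 h3
    have h5 : e ∉ G := fun h6 => h2.2 (h4.2 h6)
    exact ⟨he.1, fun h6 => absurd h6 h5, fun h6 => absurd h6 one_ne_zero⟩
  · rw [Set.disjoint_left]
    intro e h1 h2
    exact h2.2.1 h1.2
  · intro u v hu hDu huv
    obtain ⟨h1, h2⟩ := Dp_lev (fun e he => hb e (Or.inr he)) hDu
    refine hT u v h1 h2 (eqv_mono ?_ huv)
    rintro a b (hab | hab)
    · cases hab with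
      | glue s i hi => exact Or.inl ⟨_, rfl, rfl⟩
    · exact Or.inr hab
  · intro x hx x' hx' u u' h1 h2 hu hu' hnear
    rw [← RB_R1 A_eq (XA_cls hx)] at h1 ⊢
    rw [← RB_R1 A_eq (XA_cls hx')] at h2
    obtain ⟨e, he, w, h3⟩ := hu
    obtain ⟨e', he', w', h3'⟩ := hu'
    exact hSEPA N r k ρ l c hk hN hc hl hlρ hρ n M hn hM F hF hBad τ σ x x' u u' hx hx' h1 h2
      ⟨e, he.1, he.2.1, he.2.2, w, h3⟩ ⟨e', he'.1, he'.2.1, he'.2.2, w', h3'⟩ hnear

theorem RB_cls {N r k : ℕ} {c : Fin k → Cel} {n M : ℕ} {τ σ : Word} {F : Finset Edg} {x y : Pt}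
    (hx : Cls M 1 x) (h : RB 1 n M k (Ac 1 n M (FA N r k c n M F)) τ σ x y) : Cls M 1 y :=
  (R1_cls ((RB_R1 A_eq hx).1 h)).1 hx

theorem PG_stay (hABS : S_ABS) (hSEPA : S_SEPA) {N r k ρ l : ℕ} {c : Fin k → Cel} (hk : 2 ≤ k)
    (hN : k + 4 ≤ N) (hc : Adm N k c) (hl : 1 ≤ l) (hlρ : 32 * l ≤ ρ) (hρ : 32 * ρ ≤ r) {n M : ℕ}
    (hn : n = prd N k * r) (hM : M = 4 * n) (hn1 : 1 ≤ n)
    (hb : ∀ e ∈ EP r (Bxs N k) ∪ EP r (Crr N k c), -(2 * (n : ℤ)) ≤ dco e ∧ dco e + 1 ≤ 2 * n)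
    {τ σ : Word} (hτ : τ.length = 2 * n) (hσ : σ.length = 2 * n) {F G : Finset Edg}
    (hF : F ⊆ CE n M) (hBad : ¬ Bad 1 N r ρ l (prd N k) n M F) (hT : Trap 1 n M l G)
    (h : PG 1 n M k (Ac 1 n M (FA N r k c n M F)) τ σ) :
    PG 1 n M k (Ac 1 n M (FB N r k c n M (mx N r k c n M τ σ F G))) τ σ := by
  have key := fun (x x' : Pt) (hx : XA N r k c n M x) (hx' : XA N r k c n M x') =>
    stay hABS hSEPA hk hN hc hl hlρ hρ hn hM hn1 hb hτ hσ hF hBad hT hx hx'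
  have hs : ∀ (s : ℤ) (i : ℕ), i < 2 * k → i % 2 = 1 → XA N r k c n M (sec n M k s i) :=
    fun s i hi hi' => Or.inl ⟨s, i, hi, hi', rfl⟩
  refine ⟨?_, ?_⟩
  · intro i j hi hj hi' hj' hij h1
    exact h.1 i j hi hj hi' hj' hij ((key _ _ (hs 0 i hi hi') (hs 0 j hj hj')).1 h1)
  · intro i hi hi'
    obtain ⟨s, hs0, j, hj, h1⟩ := h.2 i hi hi'
    have h2 : j % 2 = 1 := (sec_cls n M k s j (by omega) 1).1
      (RB_cls (XA_cls (hs 0 i hi hi')) h1)
    exact ⟨s, hs0, j, hj, (key _ _ (hs 0 i hi hi') (hs s j hj h2)).2 h1⟩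

theorem Ac0 {n M : ℕ} {F : Finset Edg} (hF : F ⊆ CE n M) : Ac 0 n M F = ↑F := by
  ext e
  constructor
  · rintro ⟨_, h2⟩
    exact h2.2 rfl
  · intro h
    exact ⟨hF h, fun _ => rfl, fun _ => h⟩

theorem FA_sub {N r k : ℕ} {c : Fin k → Cel} {n M : ℕ} {F : Finset Edg} :
    FA N r k c n M F ⊆ CE n M := by
  classical
  unfold FA
  exact Finset.filter_subset _ _

theorem FB_sub {N r k : ℕ} {c : Fin k → Cel} {n M : ℕ} {F : Finset Edg} :
    FB N r k c n M F ⊆ CE n M := by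
  classical
  unfold FB
  exact Finset.filter_subset _ _

theorem PG01 (hG : S_G) {n M k : ℕ} (hn : 1 ≤ n) (hk : 2 ≤ k) (hkn : k ≤ 2 * n) {F : Finset Edg}
    (hF : F ⊆ CE n M) (σ τ : Wd (2 * n - 1 + 1)) :
    PG 0 n M k (↑F) τ.1 σ.1 ↔ PG 1 n M k (Ac 1 n M F) τ.1 σ.1 := by
  rw [← hG 1 n M k (by norm_num) hn hk hkn F hF σ τ, hG 0 n M k (by norm_num) hn hk hkn F hF σ τ,
    Ac0 hF]

/-! ### the small box -/

theorem red_box {N r k n : ℕ} (hr : 1 ≤ r) (hN : 1 ≤ N) (hn : n = prd N k * r) {e : Edg}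
    (he : e ∈ boxE (N * r / 2)) : red n e ∈ EP r (Bxs N k) := by
  have hNr : N * r / 2 < N * r := Nat.div_lt_self (Nat.mul_pos hN hr) (by norm_num)
  have hNr' : ((N * r / 2 : ℕ) : ℤ) < N * r := by exact_mod_cast hNr
  obtain ⟨x, y, b⟩ := e
  have hbd : (-((N * r / 2 : ℕ) : ℤ) ≤ x ∧ x ≤ ((N * r / 2 : ℕ) : ℤ)) ∧
      (-((N * r / 2 : ℕ) : ℤ) ≤ y ∧ y ≤ ((N * r / 2 : ℕ) : ℤ)) := by
    cases b
    · simp only [boxE, mem_RE_false] at he
      omega
    · simp only [boxE, mem_RE_true] at he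
      omega
  have hr0 : (0 : ℤ) < r := by exact_mod_cast hr
  have hx1 := Int.emod_nonneg x hr0.ne'
  have hx2 := Int.emod_lt_of_pos x hr0
  have hx3 := Int.mul_ediv_add_emod x r
  have hy1 := Int.emod_nonneg y hr0.ne'
  have hy2 := Int.emod_lt_of_pos y hr0
  have hy3 := Int.mul_ediv_add_emod y r
  have bx1 : -(N : ℤ) ≤ x / r := by
    rw [Int.le_ediv_iff_mul_le hr0]; nlinarith [hbd.1.1]
  have bx2 : x / r < N := by
    rw [Int.ediv_lt_iff_lt_mul hr0]; nlinarith [hbd.1.2]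
  have by1 : -(N : ℤ) ≤ y / r := by
    rw [Int.le_ediv_iff_mul_le hr0]; nlinarith [hbd.2.1]
  have by2 : y / r < N := by
    rw [Int.ediv_lt_iff_lt_mul hr0]; nlinarith [hbd.2.2]
  set q : ℤ := (x + y) / (2 * n) with hq
  have hnz : (n : ℤ) = prd N k * r := by rw [hn]; push_cast; ring
  refine ⟨(x / r - q * prd N k, y / r - q * prd N k), ⟨-q, ?_⟩, ?_⟩
  · show -(N : ℤ) ≤ (x / r - q * prd N k) - (-q) * prd N k ∧
      (x / r - q * prd N k) - (-q) * prd N k < N ∧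
      -(N : ℤ) ≤ (y / r - q * prd N k) - (-q) * prd N k ∧
      (y / r - q * prd N k) - (-q) * prd N k < N
    have e1 : ∀ a : ℤ, (a - q * prd N k) - (-q) * prd N k = a := fun a => by ring
    rw [e1, e1]
    exact ⟨bx1, bx2, by1, by2⟩
  · have e1 : (r : ℤ) * (x / r - q * prd N k) = r * (x / r) - n * q := by rw [hnz]; ring
    have e2 : (r : ℤ) * (y / r - q * prd N k) = r * (y / r) - n * q := by rw [hnz]; ring
    cases b
    · show ((x - n * q, y - n * q, false) : Edg) ∈ RE _ _ _ _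
      simp only [mem_RE_false]
      rw [e1, e2]
      omega
    · show ((x - n * q, y - n * q, true) : Edg) ∈ RE _ _ _ _
      simp only [mem_RE_true]
      rw [e1, e2]
      omega

theorem FA_box {N r k n M : ℕ} {c : Fin k → Cel} (hr : 1 ≤ r) (hN : 1 ≤ N)
    (hn : n = prd N k * r) {F : Finset Edg} (hF : F ⊆ CE n M) :
    ∀ e ∈ boxE (N * r / 2), red n e ∈ FA N r k c n M F ↔ red n e ∈ F := by
  classical
  intro e he
  have h := red_box (k := k) hr hN hn he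
  unfold FA
  rw [Finset.mem_filter]
  constructor
  · rintro ⟨_, h1 | h1⟩
    · exact h1.2
    · exact absurd h h1.1
  · intro h1
    exact ⟨hF h1, Or.inl ⟨h, h1⟩⟩

end TSTA

/-- **the tubes are re-randomised: class 1** -/
theorem t_STA : S_ABS → S_PRB → S_SEPA → S_TRAP → S_BADP → S_DEC → S_IND → S_g4 → S_G → S_STA := by
  intro hABS hPRB hSEPA hTRAP hBADP hDEC hIND hg4 hG N k c hk hN hc δ hδ
  have hν : 4 * N ≤ prd N k := by unfold prd; omega
  obtain ⟨M3, M4, hM3, hM4, hB⟩ := hBADP N (prd N k) (by omega) hν δ hδ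
  obtain ⟨κ, hκ, r0, hT⟩ := hTRAP (prd N k) M4 (by omega) (by omega)
  refine ⟨1 / κ, by positivity, max r0 M4, ?_⟩
  intro r hr n M hn hM σ τ
  have hr1 : r0 ≤ r := le_trans (le_max_left _ _) hr
  have hr2 : M4 ≤ r := le_trans (le_max_right _ _) hr
  have hrb : 64 * 64 ≤ r := by omega
  have hl : 1 ≤ r / M4 := (Nat.one_le_div_iff (by omega)).2 hr2
  have hρ : 32 * (r / M3) ≤ r := by
    have h1 : M3 * (r / M3) ≤ r := Nat.mul_div_le r M3
    nlinarith [Nat.zero_le (r / M3)]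
  have hlρ : 32 * (r / M4) ≤ r / M3 := by
    rw [Nat.le_div_iff_mul_le (by omega)]
    have h1 : M4 * (r / M4) ≤ r := Nat.mul_div_le r M4
    nlinarith [Nat.zero_le (r / M4), Nat.mul_le_mul_right (r / M4) hM4]
  have hprd : 24 ≤ prd N k := by unfold prd; omega
  have hkp : k ≤ prd N k := by unfold prd; omega
  have hnr : prd N k ≤ n := by rw [hn]; exact Nat.le_mul_of_pos_right _ (by omega)
  have hnr' : 24 * r ≤ n := by rw [hn]; exact Nat.mul_le_mul_right r hprd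
  have hNrn : 4 * (N * r) ≤ n := by
    rw [hn, ← mul_assoc]; exact Nat.mul_le_mul_right r hν
  have hb : ∀ e ∈ EP r (Bxs N k) ∪ EP r (Crr N k c),
      -(2 * (n : ℤ)) ≤ dco e ∧ dco e + 1 ≤ 2 * n := by
    have h4 := (hg4 N k c (by omega) hk hc _ rfl).2.2.2
    have h5 : ∀ e ∈ EP r (Bxs N k ∪ Crr N k c), -(2 * (n : ℤ)) ≤ dco e ∧ dco e + 1 ≤ 2 * n := by
      intro e he
      have := TSTA.EP_bd (r := r) h4 he
      rw [← hn] at this
      omega
    rintro e (⟨z, hz, he⟩ | ⟨z, hz, he⟩)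
    · exact h5 e ⟨z, Or.inl hz, he⟩
    · exact h5 e ⟨z, Or.inr hz, he⟩
  have hτ : τ.1.length = 2 * n := by have := τ.2.1; omega
  have hσ : σ.1.length = 2 * n := by have := σ.2.1; omega
  have hok : H974.Ok (fun _ : Edg => (1 / 2 : ℝ)) := okq (by norm_num) (by norm_num)
  have e1 : M = 4 * (prd N k * r) := by rw [hM, hn]
  -- the bad part
  have hbad : PC n M (fun F => SE k (N * r / 2 : ℕ) (per n F) ∧
      Bad 1 N r (r / M3) (r / M4) (prd N k) n M F) ≤ δ * sP k (N * r / 2) := by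
    have h1 := hIND 1 N r (r / M3) (r / M4) (prd N k) k (by norm_num) (by omega) hν (by omega) hlρ
      hl hρ
    have h2 := hB 1 r (by norm_num) hr2
    rw [← hn, ← hM] at h1 h2
    have h3 : 0 ≤ sP k (N * r / 2) := Pr_nonneg hok _ _
    calc _ ≤ _ := h1
      _ ≤ sP k (N * r / 2) * δ := mul_le_mul_of_nonneg_left h2 h3
      _ = _ := mul_comm _ _
  -- the good part
  have hgood : PC n M (fun F => PG 0 n M k (↑(FA N r k c n M F)) τ.1 σ.1 ∧
      ¬ Bad 1 N r (r / M3) (r / M4) (prd N k) n M F) * PC n M (Trap 1 n M (r / M4)) ≤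
      PC n M (fun F => PG 0 n M k (↑(FB N r k c n M F)) τ.1 σ.1) := by
    refine hPRB (CE n M) (TSTA.Xp N r k c n M τ.1 σ.1) _ _ _ ?_ ?_
    · intro F G _ _
      exact TSTA.Xp_mx
    · rintro F G hF hG' ⟨h1, h2⟩ h3
      rw [TSTA.PG01 hG (by omega) hk (by omega) TSTA.FA_sub σ τ] at h1
      rw [TSTA.PG01 hG (by omega) hk (by omega) TSTA.FB_sub σ τ]
      exact TSTA.PG_stay hABS hSEPA hk hN hc hl hlρ hρ hn hM (by omega) hb hτ hσ hF h2 h3 h1
  have htrap : κ ≤ PC n M (Trap 1 n M (r / M4)) := by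
    have h1 := hT 1 r (by norm_num) hr1
    rw [← hn, ← hM] at h1
    exact h1
  have hsplit : PC n M (fun F => PG 0 n M k (↑(FA N r k c n M F)) τ.1 σ.1) ≤
      PC n M (fun F => SE k (N * r / 2 : ℕ) (per n F) ∧
        Bad 1 N r (r / M3) (r / M4) (prd N k) n M F) +
      PC n M (fun F => PG 0 n M k (↑(FA N r k c n M F)) τ.1 σ.1 ∧
        ¬ Bad 1 N r (r / M3) (r / M4) (prd N k) n M F) := by
    refine le_trans ?_ (Pr_or_le hok _ _ _)
    refine Pr_mono hok ?_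
    intro F hF h
    by_cases h1 : Bad 1 N r (r / M3) (r / M4) (prd N k) n M F
    · refine Or.inl ⟨?_, h1⟩
      refine hDEC n M k (N * r / 2) hk ?_ ?_ ?_ (FA N r k c n M F) F TSTA.FA_sub hF
        (TSTA.FA_box (by omega) (by omega) hn hF) τ.1 σ.1 h
      · have : N * 2 ≤ N * r := Nat.mul_le_mul_left N (by omega)
        omega
      · omega
      · omega
    · exact Or.inr ⟨h, h1⟩
  have hg0 : 0 ≤ PC n M (fun F => PG 0 n M k (↑(FA N r k c n M F)) τ.1 σ.1 ∧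
      ¬ Bad 1 N r (r / M3) (r / M4) (prd N k) n M F) := Pr_nonneg hok _ _
  have hfin : PC n M (fun F => PG 0 n M k (↑(FA N r k c n M F)) τ.1 σ.1 ∧
      ¬ Bad 1 N r (r / M3) (r / M4) (prd N k) n M F) ≤
      1 / κ * PC n M (fun F => PG 0 n M k (↑(FB N r k c n M F)) τ.1 σ.1) := by
    rw [one_div, ← div_eq_inv_mul, le_div_iff₀ hκ]
    exact le_trans (mul_le_mul_of_nonneg_left htrap hg0) hgood
  linarith

end Pool.Agent.H160R2.MU
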