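import Pool.Agent.H160R2.MU.TSTBlib

/-!
# STB: re-randomising everything (helper415)
-/

set_option autoImplicit false

namespace Pool.Agent.H160R2.MU
open Pool.Agent.H863R2.Cyl
open Pool.Agent.H988R2.Perc (Word PD)
open Pool.Agent.H160R2.ML
open H974 H906.Cyl
open H12S (Dir hbE segD rimE H4 Crs Nr sqE)

namespace TSTB

open Relation

theorem mem_sq {r : ℕ} {z : ℤ × ℤ} {e : Edg} : e ∈ sqE r z ↔
    (r * z.1 ≤ e.1 ∧ r * z.2 ≤ e.2.1) ∧
    (if e.2.2 then e.1 < r * z.1 + r ∧ e.2.1 ≤ r * z.2 + r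
      else e.1 ≤ r * z.1 + r ∧ e.2.1 < r * z.2 + r) := by
  obtain ⟨x, y, b⟩ := e
  unfold sqE
  cases b
  · rw [mem_RE_false]
    simp only [Bool.false_eq_true, if_false]
    tauto
  · rw [mem_RE_true]
    simp only [if_true]
    tauto

theorem EP_dco {r q : ℕ} {P : Set (ℤ × ℤ)} (hP : ∀ z ∈ P, |z.1 - z.2| ≤ (q : ℤ)) {e : Edg}
    (he : e ∈ EP r P) : |dco e| ≤ ((q * r : ℕ) : ℤ) + r + 1 := by
  obtain ⟨z, hz, he⟩ := he
  rw [mem_sq] at he
  obtain ⟨⟨h1, h2⟩, h3⟩ := he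
  have h4 := abs_le.1 (hP z hz)
  have h5 : (r : ℤ) * (z.1 - z.2) ≤ r * q :=
    mul_le_mul_of_nonneg_left h4.2 (Int.natCast_nonneg r)
  have h6 : (r : ℤ) * (-q) ≤ r * (z.1 - z.2) :=
    mul_le_mul_of_nonneg_left h4.1 (Int.natCast_nonneg r)
  have e5 : (r : ℤ) * (z.1 - z.2) = r * z.1 - r * z.2 := by ring
  have e6 : (r : ℤ) * (-q) = -(r * q) := by ring
  have e7 : ((q * r : ℕ) : ℤ) = r * q := by push_cast; ring
  rw [e5] at h5 h6
  rw [e6] at h6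
  rw [e7, abs_le]
  unfold dco
  generalize (r : ℤ) * z.1 = a at *
  generalize (r : ℤ) * z.2 = b at *
  generalize (r : ℤ) * q = m at *
  split_ifs at h3 ⊢ <;> constructor <;> omega

/-- the edges of the small box lie in the boxes -/
theorem box_EP {N r k n : ℕ} (hr : 1 ≤ r) (hn : n = prd N k * r) (hN : 2 ≤ N) {e : Edg}
    (he : e ∈ boxE (N * r / 2)) : red n e ∈ EP r (Bxs N k) := by
  set q : ℤ := (e.1 + e.2.1) / (2 * n) with hq
  have hr0 : (0 : ℤ) < r := by exact_mod_cast hr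
  have hb : -(((N * r / 2 : ℕ) : ℤ)) ≤ e.1 ∧ e.1 ≤ ((N * r / 2 : ℕ) : ℤ) ∧
      -(((N * r / 2 : ℕ) : ℤ)) ≤ e.2.1 ∧ e.2.1 ≤ ((N * r / 2 : ℕ) : ℤ) := by
    obtain ⟨x, y, b⟩ := e
    unfold boxE at he
    cases b
    · rw [mem_RE_false] at he
      simp only
      omega
    · rw [mem_RE_true] at he
      simp only
      omega
  have hR : 2 * (((N * r / 2 : ℕ) : ℤ)) ≤ (N : ℤ) * r := by
    have : 2 * (N * r / 2) ≤ N * r := Nat.mul_div_le _ _
    exact_mod_cast this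
  have hNr : (2 : ℤ) * r ≤ (N : ℤ) * r := by
    have : (2 : ℤ) ≤ N := by exact_mod_cast hN
    exact mul_le_mul_of_nonneg_right this hr0.le
  have hx1 := Int.emod_nonneg e.1 hr0.ne'
  have hx2 := Int.emod_lt_of_pos e.1 hr0
  have hx3 := Int.mul_ediv_add_emod e.1 r
  have hy1 := Int.emod_nonneg e.2.1 hr0.ne'
  have hy2 := Int.emod_lt_of_pos e.2.1 hr0
  have hy3 := Int.mul_ediv_add_emod e.2.1 r
  have hnq : (n : ℤ) * q = r * (prd N k * q) := by
    rw [hn]; push_cast; ring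
  have e2 : ∀ a : ℤ, (r : ℤ) * (a - prd N k * q) = r * a - r * (prd N k * q) := fun a => by ring
  refine ⟨(e.1 / r - prd N k * q, e.2.1 / r - prd N k * q), ⟨-q, ?_⟩, ?_⟩
  · unfold BxS shf
    simp only [Set.mem_ofPred_eq]
    have e1 : ∀ a : ℤ, a / r - prd N k * q - -q * prd N k = a / r := fun a => by ring
    rw [e1, e1]
    have b1 : ∀ a : ℤ, -(((N * r / 2 : ℕ) : ℤ)) ≤ a → -(N : ℤ) ≤ a / r := by
      intro a ha
      rw [Int.le_ediv_iff_mul_le hr0]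
      have : -(N : ℤ) * r = -((N : ℤ) * r) := by ring
      rw [this]
      omega
    have b2 : ∀ a : ℤ, a ≤ ((N * r / 2 : ℕ) : ℤ) → a / r < N := by
      intro a ha
      rw [Int.ediv_lt_iff_lt_mul hr0]
      omega
    exact ⟨b1 _ hb.1, b2 _ hb.2.1, b1 _ hb.2.2.1, b2 _ hb.2.2.2⟩
  · rw [mem_sq]
    unfold red
    simp only
    rw [← hq, e2, e2, hnq]
    generalize (r : ℤ) * (prd N k * q) = w at *
    generalize (r : ℤ) * (e.1 / r) = w1 at *
    generalize (r : ℤ) * (e.2.1 / r) = w2 at *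
    split_ifs <;> refine ⟨⟨by omega, by omega⟩, by omega, by omega⟩

/-- the points of the clusters of the even sectors -/
def KK (N r k : ℕ) (c : Fin k → Cel) (n M : ℕ) (τ σ : Word) (F : Finset Edg) (u : Pt) : Prop :=
  ∃ (s : ℤ) (i : ℕ), i < 2 * k ∧ i % 2 = 0 ∧
    RB 0 n M k (↑(FB N r k c n M F)) τ σ (sec n M k s i) u

open Classical in
/-- the edges of boxes and tubes which touch `K` -/
noncomputable def ExK (N r k : ℕ) (c : Fin k → Cel) (n M : ℕ) (K : Pt → Prop) : Finset Edg :=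
  (CE n M).filter (fun e => (e ∈ EP r (Bxs N k) ∨ e ∈ EP r (Crr N k c)) ∧
    ∃ u v, Dg n M 0 e u v ∧ (K u ∨ K v))

/-- the explored edges -/
noncomputable def Exx (N r k : ℕ) (c : Fin k → Cel) (n M : ℕ) (τ σ : Word) (F : Finset Edg) :
    Finset Edg := ExK N r k c n M (KK N r k c n M τ σ F)

theorem mem_ExK {N r k : ℕ} {c : Fin k → Cel} {n M : ℕ} {K : Pt → Prop} {e : Edg} :
    e ∈ ExK N r k c n M K ↔ e ∈ CE n M ∧ (e ∈ EP r (Bxs N k) ∨ e ∈ EP r (Crr N k c)) ∧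
    ∃ u v, Dg n M 0 e u v ∧ (K u ∨ K v) := by
  classical
  simp only [ExK, Finset.mem_filter]

theorem mem_FB {N r k : ℕ} {c : Fin k → Cel} {n M : ℕ} {F : Finset Edg} {e : Edg} :
    e ∈ FB N r k c n M F ↔ e ∈ CE n M ∧ (e ∈ EP r (Bxs N k) ∨ e ∈ EP r (Crr N k c)) ∧ e ∈ F := by
  classical
  simp only [FB, Finset.mem_filter]

open Classical in
/-- the mixed configuration -/
noncomputable def mix (Ex F G : Finset Edg) : Finset Edg := (F ∩ Ex) ∪ (G \ Ex)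

theorem mem_mix {Ex F G : Finset Edg} {e : Edg} :
    e ∈ mix Ex F G ↔ (e ∈ F ∧ e ∈ Ex) ∨ (e ∈ G ∧ e ∉ Ex) := by
  classical
  simp only [mix, Finset.mem_union, Finset.mem_inter, Finset.mem_sdiff]

/-- the clusters of the sectors are determined by the explored edges -/
theorem RB_mix (N r k : ℕ) (c : Fin k → Cel) (n M : ℕ) (τ σ : Word) (F G : Finset Edg) (s : ℤ)
    (i : ℕ) (hi : i < 2 * k) (hi2 : i % 2 = 0) (u : Pt) :
    RB 0 n M k (↑(FB N r k c n M F)) τ σ (sec n M k s i) u ↔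
      RB 0 n M k (↑(FB N r k c n M (mix (Exx N r k c n M τ σ F) F G))) τ σ (sec n M k s i) u := by
  classical
  have key := clu (fun x y => Wl τ σ x y ∨ Gl n M k x y) (fun e => Dg n M 0 e)
    (↑(FB N r k c n M F)) (↑(FB N r k c n M (mix (Exx N r k c n M τ σ F) F G)))
    (sec n M k s i) (by
      intro e a b hab hor
      rw [Finset.mem_coe, Finset.mem_coe, mem_FB, mem_FB, mem_mix]
      by_cases hT : e ∈ CE n M ∧ (e ∈ EP r (Bxs N k) ∨ e ∈ EP r (Crr N k c))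
      · have hE : e ∈ Exx N r k c n M τ σ F := by
          unfold Exx
          rw [mem_ExK]
          refine ⟨hT.1, hT.2, a, b, hab, ?_⟩
          rw [← RB_eq] at hor
          rcases hor with h | h
          · exact Or.inl ⟨s, i, hi, hi2, h⟩
          · exact Or.inr ⟨s, i, hi, hi2, h⟩
        tauto
      · tauto) u
  rw [RB_eq, RB_eq]
  exact key

theorem KK_mix (N r k : ℕ) (c : Fin k → Cel) (n M : ℕ) (τ σ : Word) (F G : Finset Edg) :
    KK N r k c n M τ σ (mix (Exx N r k c n M τ σ F) F G) = KK N r k c n M τ σ F := by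
  funext u
  refine propext ⟨?_, ?_⟩
  · rintro ⟨s, i, h1, h2, h3⟩
    exact ⟨s, i, h1, h2, (RB_mix N r k c n M τ σ F G s i h1 h2 u).2 h3⟩
  · rintro ⟨s, i, h1, h2, h3⟩
    exact ⟨s, i, h1, h2, (RB_mix N r k c n M τ σ F G s i h1 h2 u).1 h3⟩

theorem Exx_mix (N r k : ℕ) (c : Fin k → Cel) (n M : ℕ) (τ σ : Word) (F G : Finset Edg) :
    Exx N r k c n M τ σ (mix (Exx N r k c n M τ σ F) F G) = Exx N r k c n M τ σ F := by
  have h := KK_mix N r k c n M τ σ F G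
  calc Exx N r k c n M τ σ (mix (Exx N r k c n M τ σ F) F G)
      = ExK N r k c n M (KK N r k c n M τ σ (mix (Exx N r k c n M τ σ F) F G)) := rfl
    _ = ExK N r k c n M (KK N r k c n M τ σ F) := by rw [h]
    _ = _ := rfl

/-- edges of boxes and tubes -/
def TT (N r k : ℕ) (c : Fin k → Cel) (n M : ℕ) : Set Edg :=
  {e | e ∈ CE n M ∧ (e ∈ EP r (Bxs N k) ∨ e ∈ EP r (Crr N k c))}
/-- edges of the closed region -/
def DD (N r k : ℕ) (c : Fin k → Cel) (n M : ℕ) : Set Edg :=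
  {e | e ∈ CE n M ∧ e ∉ EP r (Bxs N k) ∧ e ∉ EP r (Crr N k c)}
/-- even sectors -/
def XX (n M k : ℕ) : Set Pt :=
  {x | ∃ (s : ℤ) (i : ℕ), i < 2 * k ∧ i % 2 = 0 ∧ x = sec n M k s i}

theorem coe_inter (N r k : ℕ) (c : Fin k → Cel) (n M : ℕ) (F : Finset Edg) :
    ((↑F : Set Edg) ∩ TT N r k c n M) = ↑(FB N r k c n M F) := by
  ext e
  rw [Finset.mem_coe, mem_FB]
  constructor
  · rintro ⟨h1, h2, h3⟩
    exact ⟨h2, h3, h1⟩
  · rintro ⟨h1, h2, h3⟩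
    exact ⟨h3, h1, h2⟩

theorem mem_Ac0 {n M : ℕ} {H : Finset Edg} {e : Edg} : e ∈ Ac 0 n M H ↔ e ∈ CE n M ∧ e ∈ H := by
  unfold Ac
  constructor
  · rintro ⟨h1, h2⟩
    exact ⟨h1, h2.2 rfl⟩
  · rintro ⟨h1, h2⟩
    exact ⟨h1, fun _ => rfl, fun _ => h2⟩

theorem KK_iff {N r k : ℕ} {c : Fin k → Cel} {n M : ℕ} {τ σ : Word} {F : Finset Edg} {u : Pt} :
    KK N r k c n M τ σ F u ↔
      ∃ x ∈ XX n M k, RB 0 n M k ((↑F : Set Edg) ∩ TT N r k c n M) τ σ x u := by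
  rw [coe_inter]
  constructor
  · rintro ⟨s, i, h1, h2, h3⟩
    exact ⟨_, ⟨s, i, h1, h2, rfl⟩, h3⟩
  · rintro ⟨x, ⟨s, i, h1, h2, rfl⟩, h3⟩
    exact ⟨s, i, h1, h2, h3⟩

theorem mem_Exx {N r k : ℕ} {c : Fin k → Cel} {n M : ℕ} {τ σ : Word} {F : Finset Edg} {e : Edg} :
    e ∈ Exx N r k c n M τ σ F ↔ e ∈ TT N r k c n M ∧ ∃ u v, Dg n M 0 e u v ∧
      (KK N r k c n M τ σ F u ∨ KK N r k c n M τ σ F v) := by
  unfold Exx
  rw [mem_ExK]
  constructor
  · rintro ⟨h1, h2, h3⟩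
    exact ⟨⟨h1, h2⟩, h3⟩
  · rintro ⟨⟨h1, h2⟩, h3⟩
    exact ⟨h1, h2, h3⟩

/-- the deterministic step: the exploration stays separated in the mixed configuration -/
theorem det0 (hABS : S_ABS) (hSEPB : S_SEPB) {N r k ρ l : ℕ} {c : Fin k → Cel} (hk : 2 ≤ k)
    (hN : k + 4 ≤ N) (hc : Adm N k c) (hl : 1 ≤ l) (hlρ : 32 * l ≤ ρ) (hρr : 32 * ρ ≤ r)
    {n M : ℕ} (hn : n = prd N k * r) (hM : M = 4 * n) (hn1 : 1 ≤ n)
    (hB : ∀ F : Finset Edg, ∀ e ∈ (↑(FB N r k c n M F) : Set Edg), |dco e| ≤ n + r + 1)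
    (hnr : r + 2 ≤ n) (hln : 4 * l < n) {F G : Finset Edg} (hF : F ⊆ CE n M)
    {τ σ : Word} (hbad : ¬ Bad 0 N r ρ l (prd N k) n M F) (hT : Trap 0 n M l G) :
    ∀ x ∈ XX n M k, ∀ x' ∈ XX n M k,
      (RB 0 n M k (Ac 0 n M (mix (Exx N r k c n M τ σ F) F G)) τ σ x x' ↔
        RB 0 n M k ((↑F : Set Edg) ∩ TT N r k c n M) τ σ x x') := by
  have hXPI : ∀ x ∈ XX n M k, PI n M 0 x := by
    rintro x ⟨s, i, _, h2, rfl⟩
    exact PI_sec s i h2
  have hKPI : ∀ u, KK N r k c n M τ σ F u → PI n M 0 u := by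
    rintro u ⟨s, i, h1, h2, h⟩
    exact (kfull (by norm_num) hn1 hM hnr (hB F) (PI_sec s i h2) h).1
  have hKsh : ∀ u (q : ℤ), KK N r k c n M τ σ F u → KK N r k c n M τ σ F (sh n q u) := by
    rintro u q ⟨s, i, h1, h2, h⟩
    refine ⟨s + q, i, h1, h2, ?_⟩
    rw [← sec_sh]
    exact RB_sh (by norm_num) hn1 hM hnr (hB F) (PI_sec s i h2) h q
  refine hABS Pt Edg (fun e => Dg n M 0 e) (fun x y => Wl τ σ x y ∨ Gl n M k x y)
    (fun _ _ => False) (TT N r k c n M) (DD N r k c n M) (↑F) (Ac 0 n M G)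
    (Ac 0 n M (mix (Exx N r k c n M τ σ F) F G)) (XX n M k)
    (fun u v => Nr (4 * (l : ℤ)) (vx M u) (vx M v)) (fun B => RB 0 n M k B τ σ)
    (KK N r k c n M τ σ F)
    (fun u => ∃ e ∈ DD N r k c n M, ∃ w, Dg n M 0 e u w ∨ Dg n M 0 e w u)
    ?_ (fun u => KK_iff) (fun u => Iff.rfl) (fun u v h => h.elim) ?_ ?_ ?_ ?_ ?_ ?_ ?_
  · intro B
    show RB 0 n M k B τ σ = _
    rw [RB_eq]
    congr 1
    funext x y
    refine propext ⟨?_, ?_⟩
    · rintro (h | h)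
      · exact Or.inl h
      · exact Or.inr (Or.inr h)
    · rintro (h | h | h)
      · exact Or.inl h
      · exact h.elim
      · exact Or.inr h
  · rintro e he ⟨u, v, huv, hor⟩
    have heE : e ∈ Exx N r k c n M τ σ F := mem_Exx.2 ⟨he, u, v, huv, hor⟩
    refine ⟨?_, ?_⟩
    · intro u' v' h'
      obtain ⟨q, rfl, rfl⟩ := Dg_uniq huv h'
      rcases hor with h | h
      · exact Or.inl (hKsh _ q h)
      · exact Or.inr (hKsh _ q h)
    · rw [mem_Ac0, mem_mix, Finset.mem_coe]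
      have h1 : e ∈ CE n M := he.1
      constructor
      · rintro ⟨_, h | h⟩
        · exact h.1
        · exact absurd heE h.2
      · exact fun h => ⟨h1, Or.inl ⟨h, heE⟩⟩
  · intro e he hno heH
    have heE : e ∉ Exx N r k c n M τ σ F := by
      rw [mem_Exx]
      rintro ⟨_, u, v, huv, h | h⟩
      · exact (hno u v huv).1 h
      · exact (hno u v huv).2 h
    rw [mem_Ac0, mem_mix] at heH
    rw [mem_Ac0]
    rcases heH.2 with h | h
    · exact absurd h.2 heE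
    · exact ⟨heH.1, h.1⟩
  · intro e he
    rw [mem_Ac0] at he
    by_cases h : e ∈ EP r (Bxs N k) ∨ e ∈ EP r (Crr N k c)
    · exact Or.inl ⟨he.1, h⟩
    · push Not at h
      exact Or.inr ⟨he.1, h.1, h.2⟩
  · intro e he heH
    have heE : e ∉ Exx N r k c n M τ σ F := by
      rw [mem_Exx]
      rintro ⟨⟨_, h | h⟩, _⟩
      · exact he.2.1 h
      · exact he.2.2 h
    rw [mem_Ac0, mem_mix] at heH
    rw [mem_Ac0]
    rcases heH.2 with h | h
    · exact absurd h.2 heE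
    · exact ⟨heH.1, h.1⟩
  · rw [Set.disjoint_left]
    rintro e ⟨_, h | h⟩ h'
    · exact h'.2.1 h
    · exact h'.2.2 h
  · intro u v hu _ h
    exact trap_path hM hln hT (hKPI u hu) h
  · rintro x ⟨s, i, h1, h2, rfl⟩ x' ⟨s', i', h1', h2', rfl⟩ u u' hu hu' hDu hDu' hnear
    simp only [coe_inter] at hu hu' ⊢
    refine hSEPB N r k ρ l c hk hN hc hl hlρ hρr n M hn hM F hF hbad τ σ s s' i i' u u' h1 h1'
      h2 h2' hu hu' ?_ ?_ hnear
    · obtain ⟨e, he, w, hw⟩ := hDu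
      exact ⟨e, he.1, he.2.1, he.2.2, w, hw⟩
    · obtain ⟨e, he, w, hw⟩ := hDu'
      exact ⟨e, he.1, he.2.1, he.2.2, w, hw⟩

theorem det (hABS : S_ABS) (hSEPB : S_SEPB) {N r k ρ l : ℕ} {c : Fin k → Cel} (hk : 2 ≤ k)
    (hN : k + 4 ≤ N) (hc : Adm N k c) (hl : 1 ≤ l) (hlρ : 32 * l ≤ ρ) (hρr : 32 * ρ ≤ r)
    {n M : ℕ} (hn : n = prd N k * r) (hM : M = 4 * n)
    (hband : ∀ e : Edg, (e ∈ EP r (Bxs N k) ∨ e ∈ EP r (Crr N k c)) → |dco e| ≤ n + r + 1)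
    (hnr : r + 2 ≤ n) (hln : 4 * l < n) {F G : Finset Edg} (hF : F ⊆ CE n M)
    {τ σ : Word} (hbad : ¬ Bad 0 N r ρ l (prd N k) n M F)
    (hPG : PG 0 n M k (↑(FB N r k c n M F)) τ σ) (hT : Trap 0 n M l G) :
    PG 0 n M k (Ac 0 n M (mix (Exx N r k c n M τ σ F) F G)) τ σ := by
  have hn1 : 1 ≤ n := by omega
  have hB : ∀ F : Finset Edg, ∀ e ∈ (↑(FB N r k c n M F) : Set Edg), |dco e| ≤ n + r + 1 := by
    intro F e he
    rw [Finset.mem_coe, mem_FB] at he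
    exact hband e he.2.1
  have habs := det0 hABS hSEPB hk hN hc hl hlρ hρr hn hM hn1 hB hnr hln hF hbad hT
    (τ := τ) (σ := σ)
  rw [coe_inter] at habs
  refine ⟨?_, ?_⟩
  · intro i j hi hj hi2 hj2 hij h
    refine hPG.1 i j hi hj hi2 hj2 hij ?_
    exact (habs _ ⟨0, i, hi, hi2, rfl⟩ _ ⟨0, j, hj, hj2, rfl⟩).1 h
  · intro i hi hi2
    obtain ⟨s, hs, j, hj, h⟩ := hPG.2 i hi hi2
    refine ⟨s, hs, j, hj, ?_⟩
    have hj2 : j % 2 = 0 :=
      sec_par (kfull (c := 0) (by norm_num) hn1 hM hnr (hB F) (PI_sec 0 i hi2) h).1.1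
    exact (habs _ ⟨0, i, hi, hi2, rfl⟩ _ ⟨s, j, hj, hj2, rfl⟩).2 h

end TSTB

open TSTB in
theorem t_STB : S_ABS → S_PRB → S_SEPB → S_TRAP → S_BADP → S_DEC → S_IND → S_g4 → S_STB := by
  classical
  intro hABS hPRB hSEPB hTRAP hBADP hDEC hIND hg4 N k c hk hN hc δ hδ
  have hN6 : 6 ≤ N := by omega
  set ν := prd N k with hν
  have hν4 : 4 * N ≤ ν := by rw [hν]; unfold prd; omega
  obtain ⟨M3, M4, hM3, hM4, hbad⟩ := hBADP N ν (by omega) hν4 δ hδ
  obtain ⟨κ, hκ, r0, htrap⟩ := hTRAP ν M4 (by omega) (by omega)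
  refine ⟨1 / κ, by positivity, max r0 (max M4 2), ?_⟩
  intro r hr n M hn hM σ τ
  have hr1 : r0 ≤ r := (le_max_left _ _).trans hr
  have hr2 : M4 ≤ r := (le_max_left _ _).trans ((le_max_right _ _).trans hr)
  have hr3 : 2 ≤ r := (le_max_right _ _).trans ((le_max_right _ _).trans hr)
  set ρ := r / M3 with hρ
  set l := r / M4 with hl
  have hM3p : 0 < M3 := by omega
  have hM4p : 0 < M4 := by omega
  have hl1 : 1 ≤ l := Nat.div_pos hr2 hM4p
  have hlρ : 32 * l ≤ ρ := by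
    rw [hρ, Nat.le_div_iff_mul_le hM3p]
    have h1 : l * M4 ≤ r := Nat.div_mul_le_self r M4
    have h2 : l * (64 * M3) ≤ l * M4 := Nat.mul_le_mul_left _ hM4
    nlinarith
  have hρr : 32 * ρ ≤ r := by
    have h1 : ρ * M3 ≤ r := Nat.div_mul_le_self r M3
    have h2 : ρ * 64 ≤ ρ * M3 := Nat.mul_le_mul_left _ hM3
    omega
  have hnN : 4 * (N * r) ≤ n := by
    rw [hn, ← mul_assoc]
    exact Nat.mul_le_mul_right _ hν4
  have hNr : 6 * r ≤ N * r := Nat.mul_le_mul_right _ hN6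
  have hnr : r + 2 ≤ n := by omega
  have hln : 4 * l < n := by omega
  have hg := hg4 N k c (by omega) hk hc (Bxs N k ∪ Crr N k c) rfl
  have hband : ∀ e : Edg, (e ∈ EP r (Bxs N k) ∨ e ∈ EP r (Crr N k c)) → |dco e| ≤ n + r + 1 := by
    intro e he
    have he' : e ∈ EP r (Bxs N k ∪ Crr N k c) := by
      rcases he with ⟨z, hz, h⟩ | ⟨z, hz, h⟩
      · exact ⟨z, Or.inl hz, h⟩
      · exact ⟨z, Or.inr hz, h⟩
    have := EP_dco (q := prd N k) hg.2.2.2 he'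
    rw [hn]
    exact this
  have hok : H974.Ok (fun _ : Edg => (1 / 2 : ℝ)) := fun _ => by constructor <;> norm_num
  -- the first term
  have h1 : PC n M (fun F => PG 0 n M k (↑(FB N r k c n M F)) τ.1 σ.1 ∧ Bad 0 N r ρ l ν n M F) ≤
      δ * sP k (N * r / 2) := by
    have hi := hIND 0 N r ρ l ν k (by norm_num) (by omega) hν4 hr3 hlρ hl1 hρr
    have hb := hbad 0 r (by norm_num) hr2
    rw [← hρ, ← hl] at hb
    rw [← hn, ← hM] at hi hb
    have hsP : 0 ≤ sP k (N * r / 2) := Pr_nonneg hok _ _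
    have hmono : PC n M (fun F => PG 0 n M k (↑(FB N r k c n M F)) τ.1 σ.1 ∧
        Bad 0 N r ρ l ν n M F) ≤
        PC n M (fun F => SE k (N * r / 2 : ℕ) (per n F) ∧ Bad 0 N r ρ l ν n M F) := by
      refine Pr_mono hok ?_
      rintro F hF ⟨h1, h2⟩
      refine ⟨?_, h2⟩
      refine hDEC n M k (N * r / 2) hk ?_ (by omega) (by omega) (FB N r k c n M F) F ?_ hF ?_
        τ.1 σ.1 h1
      · have : N * 2 ≤ N * r := Nat.mul_le_mul_left _ hr3
        omega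
      · intro e he
        exact (mem_FB.1 he).1
      · intro e he
        rw [mem_FB]
        constructor
        · exact fun h => h.2.2
        · exact fun h => ⟨hF h, Or.inl (box_EP (by omega) hn (by omega) he), h⟩
    calc _ ≤ _ := hmono
      _ ≤ sP k (N * r / 2) * PC n M (Bad 0 N r ρ l ν n M) := hi
      _ ≤ sP k (N * r / 2) * δ := mul_le_mul_of_nonneg_left hb hsP
      _ = δ * sP k (N * r / 2) := mul_comm _ _
  -- the second term
  have h2 : PC n M (fun F => PG 0 n M k (↑(FB N r k c n M F)) τ.1 σ.1 ∧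
      ¬ Bad 0 N r ρ l ν n M F) * PC n M (Trap 0 n M l) ≤
      PC n M (fun F => PG 0 n M k (Ac 0 n M F) τ.1 σ.1) := by
    refine hPRB (CE n M) (Exx N r k c n M τ.1 σ.1) _ _ _ ?_ ?_
    · intro F G _ _
      exact Exx_mix N r k c n M τ.1 σ.1 F G
    · intro F G hF _ hA hK
      exact det hABS hSEPB hk hN hc hl1 hlρ hρr hn hM hband hnr hln hF hA.2 hA.1 hK
  have h3 := htrap 0 r (by norm_num) hr1
  rw [← hl, ← hn, ← hM] at h3
  have h4 : PC n M (fun F => PG 0 n M k (↑(FB N r k c n M F)) τ.1 σ.1 ∧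
      ¬ Bad 0 N r ρ l ν n M F) ≤ 1 / κ * PC n M (fun F => PG 0 n M k (Ac 0 n M F) τ.1 σ.1) := by
    rw [div_mul_eq_mul_div, one_mul, le_div_iff₀ hκ]
    refine le_trans ?_ h2
    exact mul_le_mul_of_nonneg_left h3 (Pr_nonneg hok _ _)
  have h5 : PC n M (fun F => PG 0 n M k (↑(FB N r k c n M F)) τ.1 σ.1) ≤
      PC n M (fun F => PG 0 n M k (↑(FB N r k c n M F)) τ.1 σ.1 ∧ Bad 0 N r ρ l ν n M F) +
      PC n M (fun F => PG 0 n M k (↑(FB N r k c n M F)) τ.1 σ.1 ∧ ¬ Bad 0 N r ρ l ν n M F) := by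
    refine le_trans ?_ (Pr_or_le hok _ _ _)
    refine Pr_mono hok ?_
    intro F _ hF
    by_cases h : Bad 0 N r ρ l ν n M F
    · exact Or.inl ⟨hF, h⟩
    · exact Or.inr ⟨hF, h⟩
  linarith

end Pool.Agent.H160R2.MU
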