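import Pool.Agent.H160R2.MU.Defs
import Pool.Agent.H12R2.Sep.Trap
import Pool.Agent.H12R2.Sep.Win1
import Pool.Agent.H12R2.Sep.WinHalf

/-! Task TRAP: all clusters near the central band are small with positive probability. -/

set_option autoImplicit false

namespace Pool.Agent.H160R2.MU
open Pool.Agent.H863R2.Cyl
open Pool.Agent.H988R2.Perc (Word PD)
open Pool.Agent.H160R2.ML
open H974 H906.Cyl
open H12S (Dir hbE segD rimE H4 Crs Nr sqE)

namespace TTRAP

/-! ### coordinates -/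

theorem edz_sum (s d : ℤ) : (edz s d).1 + (edz s d).2.1 = s := by
  unfold edz
  split_ifs with h <;> simp only <;> omega

theorem dco_edz (s d : ℤ) : dco (edz s d) = d := by
  by_cases h : (s + d) % 2 = 0
  · rw [edz, if_pos h]
    show (s + d) / 2 - (s - d) / 2 = d
    omega
  · rw [edz, if_neg h]
    show (s + d + 1) / 2 - (s - d - 1) / 2 - 1 = d
    omega

theorem mem_Cc0 {n M : ℕ} {F : Finset Edg} {e : Edg} : e ∈ Cc 0 n M F ↔ e ∈ per n F := by
  show (if (0 : ℕ) = 0 then e ∈ per n F else (-(M : ℤ) ≤ dco e ∧ dco e < M ∧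
    edz (e.1 + e.2.1 + 1) (dco e) ∉ per n F)) ↔ _
  rw [if_pos rfl]

theorem mem_Cc1 {n M : ℕ} {F : Finset Edg} {e : Edg} : e ∈ Cc 1 n M F ↔
    (-(M : ℤ) ≤ dco e ∧ dco e < M ∧ edz (e.1 + e.2.1 + 1) (dco e) ∉ per n F) := by
  show (if (1 : ℕ) = 0 then e ∈ per n F else (-(M : ℤ) ≤ dco e ∧ dco e < M ∧
    edz (e.1 + e.2.1 + 1) (dco e) ∉ per n F)) ↔ _
  rw [if_neg (by decide)]

theorem mem_per {n : ℕ} (hn : 0 < n) {M : ℕ} {F : Finset Edg} {e : Edg} (q : ℤ)
    (he : e ∈ CE n M) :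
    edz (e.1 + e.2.1 + q * (2 * n : ℕ)) (dco e) ∈ per n F ↔ e ∈ F := by
  obtain ⟨⟨h1, h2⟩, -⟩ := mem_CE.1 he
  show red n _ ∈ F ↔ _
  rw [red_edz]
  have h3 : (e.1 + e.2.1 + q * (2 * n : ℕ)) / (2 * (n : ℤ)) = q := by
    have h4 : e.1 + e.2.1 + q * (2 * n : ℕ) = (e.1 + e.2.1) + (2 * (n : ℤ)) * q := by
      push_cast; ring
    rw [h4, Int.add_mul_ediv_left _ _ (by omega), Int.ediv_eq_zero_of_lt h1 h2, zero_add]
  rw [h3]
  have h5 : e.1 + e.2.1 + q * (2 * n : ℕ) - 2 * n * q = e.1 + e.2.1 := by push_cast; ring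
  rw [h5, edz_of]

theorem adj1 {M r : ℕ} {j : ℤ} {G : Set Edg} (hp : (j + ((r : ℤ) - M)) % 2 = 1)
    (he : edz (j - 1) ((r : ℤ) - M) ∈ G) : Adj G (pv M j r) (pv M (j + 1) (r + 1)) := by
  refine ⟨edz (j - 1) ((r : ℤ) - M), he, Or.inl ?_⟩
  unfold edz pv
  rw [if_pos (by omega)]
  simp only [src_mk, tgt_true, Prod.mk.injEq]
  push_cast
  refine ⟨?_, ?_⟩ <;> first | trivial | omega | (refine ⟨?_, ?_⟩ <;> omega)

theorem adj1' {M r : ℕ} {j : ℤ} {G : Set Edg} (hp : ¬ (j + ((r : ℤ) - M)) % 2 = 1)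
    (he : edz (j - 1) ((r : ℤ) - M) ∈ G) : Adj G (pv M (j + 1) r) (pv M j (r + 1)) := by
  refine ⟨edz (j - 1) ((r : ℤ) - M), he, Or.inr ?_⟩
  unfold edz pv
  rw [if_neg (by omega)]
  simp only [src_mk, tgt_false, Prod.mk.injEq]
  push_cast
  refine ⟨?_, ?_⟩ <;> first | trivial | omega | (refine ⟨?_, ?_⟩ <;> omega)

/-- the two kinds of diagonals give steps of the planar configuration -/
theorem step {c n M : ℕ} (hc : c < 2) (hn : 0 < n) {F : Finset Edg} {e : Edg}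
    (he : e ∈ Ac c n M F) (q : ℤ) (r : ℕ) (hr : (r : ℤ) - M = dco e) :
    ((e.1 + e.2.1 + dco e) % 2 = c →
      Adj (Cc c n M F) (pv M (e.1 + e.2.1 + q * (2 * n : ℕ)) r)
        (pv M (e.1 + e.2.1 + q * (2 * n : ℕ) + 1) (r + 1))) ∧
    ((e.1 + e.2.1 + dco e) % 2 ≠ c →
      Adj (Cc c n M F) (pv M (e.1 + e.2.1 + q * (2 * n : ℕ) + 1) r)
        (pv M (e.1 + e.2.1 + q * (2 * n : ℕ)) (r + 1))) := by
  obtain ⟨he1, he2⟩ := he
  have hd := (mem_CE.1 he1).2
  set j := e.1 + e.2.1 + q * (2 * n : ℕ) with hj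
  have hpar : (j + ((r : ℤ) - M)) % 2 = (e.1 + e.2.1 + dco e) % 2 := by
    rw [hr, hj]
    push_cast
    have : e.1 + e.2.1 + q * (2 * (n : ℤ)) + dco e = (e.1 + e.2.1 + dco e) + 2 * (q * n) := by ring
    rw [this, Int.add_mul_emod_self_left]
  have hmem : edz j ((r : ℤ) - M) ∈ per n F ↔ e ∈ F := by
    rw [hr, hj]
    exact mem_per hn q he1
  have hc' : c = 0 ∨ c = 1 := by omega
  rcases hc' with rfl | rfl
  · have hF : e ∈ F := he2.2 rfl
    have hm : edz j ((r : ℤ) - M) ∈ Cc 0 n M F := mem_Cc0.2 (hmem.2 hF)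
    constructor
    · intro h
      exact adj_even (by rw [hpar]; exact_mod_cast h) hm
    · intro h
      exact (adj_odd (by rw [hpar]; exact_mod_cast h) hm).symm
  · have hF : e ∉ F := fun h => absurd (he2.1 h) (by decide)
    have hm : edz (j - 1) ((r : ℤ) - M) ∈ Cc 1 n M F := by
      rw [mem_Cc1, dco_edz, edz_sum]
      refine ⟨by rw [hr]; exact hd.1, by rw [hr]; exact hd.2, ?_⟩
      rw [sub_add_cancel, hmem]
      exact hF
    constructor
    · intro h
      exact adj1 (by rw [hpar]; exact_mod_cast h) hm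
    · intro h
      exact adj1' (by rw [hpar]; exact_mod_cast h) hm

theorem dg_reach {c n M : ℕ} (hc : c < 2) (hn : 0 < n) {F : Finset Edg} {e : Edg}
    (he : e ∈ Ac c n M F) {x y : Pt} (h : Dg n M c e x y) :
    Reach (Cc c n M F) (vx M x) (vx M y) := by
  have hd := (mem_CE.1 he.1).2
  cases h with
  | lrise q t ht h0 hp =>
    have := (step hc hn he q t (by omega)).1 hp
    exact this.reach
  | lfall q t ht h0 hp =>
    have := (step hc hn he q t (by omega)).2 hp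
    exact this.reach
  | urise q t ht h0 hp =>
    have := (step hc hn he q (2 * M - (t + 1)) (by omega)).1 hp
    have e2 : 2 * M - (t + 1) + 1 = 2 * M - t := by omega
    rw [e2] at this
    exact this.reach
  | ufall q t ht h0 hp =>
    have := (step hc hn he q (2 * M - (t + 1)) (by omega)).2 hp
    have e2 : 2 * M - (t + 1) + 1 = 2 * M - t := by omega
    rw [e2] at this
    exact this.reach

theorem eqv_reach {c n M : ℕ} (hc : c < 2) (hn : 0 < n) {F : Finset Edg} {x y : Pt}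
    (h : Relation.EqvGen (fun x y => (∃ j : ℤ, x = ((j, M), false) ∧ y = ((j, M), true)) ∨
      ∃ e ∈ Ac c n M F, Dg n M c e x y) x y) :
    Reach (Cc c n M F) (vx M x) (vx M y) := by
  induction h with
  | rel x y h =>
    rcases h with ⟨j, rfl, rfl⟩ | ⟨e, he, hd⟩
    · have : vx M ((j, M), true) = vx M ((j, M), false) := by
        simp only [vx, if_true, Bool.false_eq_true, if_false]
        congr 1
        omega
      rw [this]
      exact Reach.refl _ _
    · exact dg_reach hc hn he hd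
  | refl x => exact Reach.refl _ _
  | symm x y _ ih => exact ih.symm
  | trans x y z _ _ ih1 ih2 => exact ih1.trans ih2

theorem band {n M : ℕ} {x : Pt} (h1 : x.1.2 ≤ M) (h2 : M ≤ x.1.2 + 2 * n) :
    |(vx M x).1 - (vx M x).2| ≤ 2 * (n : ℤ) := by
  obtain ⟨⟨j, t⟩, β⟩ := x
  simp only at h1 h2
  rw [abs_le]
  cases β
  · simp only [vx, pv, Bool.false_eq_true, if_false]
    omega
  · simp only [vx, pv, if_true]
    omega

/-! ### the probability -/

theorem reach_shift {n : ℕ} (hn : 0 < n) {F : Finset Edg} {u v : Vtx} (k : ℤ)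
    (h : Reach (per n F) u v) :
    Reach (per n F) (u.1 + n * k, u.2 + n * k) (v.1 + n * k, v.2 + n * k) := by
  have h1 := (trl (n * k) (n * k)).reach h
  rw [trl_ψ, trl_ψ] at h1
  refine h1.mono ?_
  rintro e ⟨e', he', rfl⟩
  have h2 := red_shift hn e' k
  show red n _ ∈ F
  obtain ⟨x, y, b⟩ := e'
  rw [trl_φ]
  simp only at h2
  rw [h2]
  exact he'

theorem pr_crs {κ : ℝ} (hW : ∀ n : ℕ, H12S.Win (1 / 2) κ n) {n l : ℕ} (hl : 1 ≤ l)
    (h16 : 16 * l ≤ n) {z1 z2 : ℤ} (hz : |z1 - z2| ≤ 2 * n + 2 * l) :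
    κ ^ 4 ≤ Pr (fun _ => (1 / 2 : ℝ)) (CE n (4 * n))
      (fun F => ¬ Crs z1 z2 l (3 * l) (per n F)) := by
  have hn : 0 < n := by omega
  have ok := okq (q := 1 / 2) (by norm_num) (by norm_num)
  rw [abs_le] at hz
  have h1 := H12S.win_blk_pri (hW (2 * l)) hl le_rfl z1 z2
    (RE (z1 - 3 * l) (z1 + 3 * l) (z2 - 3 * l) (z2 + 3 * l))
  unfold H12S.PQ at h1
  rw [← Pr_red (n := n) (q := 1 / 2) (S := CE n (4 * n)) (red_inj_x (by omega))
    (image_red_sub hn (by push_cast; omega) (by push_cast; omega))] at h1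
  refine h1.trans (Pr_mono ok ?_)
  rintro F _ hF ⟨x, y, hx, hy, hr⟩
  apply hF
  obtain ⟨w, hw1, hw2, hw3⟩ := first_exit (a := z1 - 3 * l) (b := z1 + 3 * l) (c := z2 - 3 * l)
    (d := z2 + 3 * l) (by unfold inR at hx ⊢; omega) hr (by push_cast at hy; omega)
  refine ⟨x, w, hx, by push_cast; omega, hw3.mono ?_⟩
  rintro e ⟨h4, h5⟩
  rw [Finset.mem_coe, Finset.mem_filter]
  exact ⟨h5, h4⟩

/-- all clusters of the periodic configuration in the band are small -/
def Sm (n l : ℕ) (G : Set Edg) : Prop :=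
  ∀ v w : Vtx, |v.1 - v.2| ≤ 2 * (n : ℤ) → Reach G v w → Nr (4 * l) v w

/-- no crossing of the annulus of the grid point `g` -/
def Ag (n l : ℕ) (g : ℤ × ℤ) (F : Finset Edg) : Prop :=
  ¬ Crs (0 + g.1 * (l : ℤ)) (0 + g.2 * (l : ℤ)) l (3 * l) (per n F)

theorem prob0 {κ : ℝ} (hκ : 0 < κ) (hW : ∀ n : ℕ, H12S.Win (1 / 2) κ n) {n l N : ℕ} (hl : 1 ≤ l)
    (h16 : 16 * l ≤ n) (hN : 3 * n ≤ N * l) :
    κ ^ (4 * (2 * N + 1) ^ 2) ≤ PC n (4 * n) (fun F => Sm n l (per n F)) := by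
  have hn : 0 < n := by omega
  have ok := okq (q := 1 / 2) (by norm_num) (by norm_num)
  have hκ1 : κ ≤ 1 := (hW 1).kle.trans (by norm_num)
  set T := (H12S.trG N).filter (fun g : ℤ × ℤ =>
      |(0 + g.1 * (l : ℤ)) - (0 + g.2 * (l : ℤ))| ≤ 2 * (n : ℤ) + 2 * l)
    with hT
  have hinc : ∀ g ∈ T, IncrE (CE n (4 * n)) (fun F => ¬ Ag n l g F) := by
    intro g _ F G h1 _ h3 h4
    apply h3
    intro h5
    exact h4 (h5.mono (per_mono n h1))
  have hPr : ∀ g ∈ T, κ ^ 4 ≤ Pr (fun _ => (1 / 2 : ℝ)) (CE n (4 * n)) (Ag n l g) := by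
    intro g hg
    exact pr_crs hW hl h16 (Finset.mem_filter.1 hg).2
  have hc4 : (0 : ℝ) ≤ κ ^ 4 := by positivity
  have h1 : (κ ^ 4) ^ T.card ≤ Pr (fun _ => (1 / 2 : ℝ)) (CE n (4 * n))
      (fun F => ∀ g ∈ T, Ag n l g F) :=
    H12S.tr_inter_decr ok hc4 T hinc hPr
  have h2 : κ ^ (4 * (2 * N + 1) ^ 2) ≤ (κ ^ 4) ^ T.card := by
    rw [← pow_mul]
    apply pow_le_pow_of_le_one hκ.le hκ1
    apply Nat.mul_le_mul_left
    rw [← H12S.trG_card N]
    exact Finset.card_filter_le _ _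
  refine h2.trans (h1.trans (Pr_mono ok ?_))
  intro F _ hF v w hv hvw
  set s : ℤ := -(v.1 / n) with hs
  have hsh := reach_shift hn s hvw
  have hn' : (0 : ℤ) < n := by exact_mod_cast hn
  have e1 : 0 ≤ v.1 + n * s ∧ v.1 + n * s < n := by
    have h3 := Int.emod_nonneg v.1 hn'.ne'
    have h4 := Int.emod_lt_of_pos v.1 hn'
    have h5 := Int.emod_def v.1 n
    have h6 : v.1 + n * s = v.1 % n := by rw [h5, hs]; ring
    rw [h6]
    exact ⟨h3, h4⟩
  have hNl : 3 * (n : ℤ) ≤ N * l := by exact_mod_cast hN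
  rw [abs_le] at hv
  have hdet := H12S.tr_det (l := l) (N := N) hl (c1 := 0) (c2 := 0)
    (R := fun x y => |x.1 - x.2| ≤ 2 * (n : ℤ) ∧ Reach (per n F) x y) ?_
    (v.1 + n * s, v.2 + n * s) (w.1 + n * s, w.2 + n * s) ?_ ?_
  · simp only at hdet
    unfold Nr
    have a1 : v.1 + n * s - (w.1 + n * s) = v.1 - w.1 := by ring
    have a2 : v.2 + n * s - (w.2 + n * s) = v.2 - w.2 := by ring
    rwa [a1, a2] at hdet
  · rintro g hg ⟨x, y, hx, hy, hx2, hxy⟩
    refine hF g ?_ ⟨x, y, hx, hy, hxy⟩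
    rw [hT, Finset.mem_filter]
    refine ⟨hg, ?_⟩
    unfold inR at hx
    rw [abs_le] at hx2 ⊢
    omega
  · unfold inR
    simp only
    omega
  · refine ⟨?_, hsh⟩
    simp only
    rw [abs_le]
    omega

/-! ### the dual configuration -/

/-- the shift of the cylinder by one -/
def th (n : ℕ) (e : Edg) : Edg := red n (edz (e.1 + e.2.1 + 1) (dco e))

theorem th_mem {n M : ℕ} (hn : 0 < n) {e : Edg} (he : e ∈ CE n M) : th n e ∈ CE n M := by
  have hd := (mem_CE.1 he).2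
  unfold th
  exact red_mem hn (by rw [dco_edz]; exact hd.1) (by rw [dco_edz]; exact hd.2)

theorem th_inj {n M : ℕ} (hn : 0 < n) : Set.InjOn (th n) (CE n M : Set Edg) := by
  intro e he e' he' h
  have h1 := (mem_CE.1 (Finset.mem_coe.1 he)).1
  have h1' := (mem_CE.1 (Finset.mem_coe.1 he')).1
  unfold th at h
  rw [red_edz, red_edz] at h
  obtain ⟨h2, h3⟩ := edz_inj h
  have h4 := Int.emod_def (e.1 + e.2.1 + 1) (2 * n : ℤ)
  have h4' := Int.emod_def (e'.1 + e'.2.1 + 1) (2 * n : ℤ)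
  have h5 : (e.1 + e.2.1 + 1) % (2 * n : ℤ) = (e'.1 + e'.2.1 + 1) % (2 * n : ℤ) := by
    rw [h4, h4']
    linarith
  have h6 : (e.1 + e.2.1) = (e'.1 + e'.2.1) := by
    have h7 := Int.emod_emod_of_dvd (e.1 + e.2.1 + 1) (dvd_refl (2 * n : ℤ))
    have h8 : (e.1 + e.2.1) % (2 * n : ℤ) = (e'.1 + e'.2.1) % (2 * n : ℤ) := by
      have := Int.ModEq.add_right_cancel' 1 (show (e.1 + e.2.1 + 1) ≡ (e'.1 + e'.2.1 + 1) [ZMOD (2 * n : ℤ)] from h5)
      exact this
    rwa [Int.emod_eq_of_lt h1.1 h1.2, Int.emod_eq_of_lt h1'.1 h1'.2] at h8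
  rw [← edz_of e, ← edz_of e', h6, h3]

theorem th_image {n M : ℕ} (hn : 0 < n) : (CE n M).image (th n) = CE n M := by
  apply Finset.eq_of_subset_of_card_le
  · intro e he
    obtain ⟨e', he', rfl⟩ := Finset.mem_image.1 he
    exact th_mem hn he'
  · rw [Finset.card_image_of_injOn (th_inj hn)]

/-- the dual configuration -/
def du (n M : ℕ) (F : Finset Edg) : Finset Edg := (CE n M).filter (fun e => th n e ∉ F)

theorem pr_du {n M : ℕ} (hn : 0 < n) (A : Finset Edg → Prop) :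
    Pr (fun _ => (1 / 2 : ℝ)) (CE n M) (fun F => A (du n M F))
      = Pr (fun _ => (1 / 2 : ℝ)) (CE n M) A := by
  have h1 := Pr_compl (fun _ => (1 / 2 : ℝ)) (CE n M)
    (fun F => A ((CE n M).filter (fun e => th n e ∈ F)))
  have e0 : (fun _ : Edg => (1 : ℝ) - 1 / 2) = fun _ => 1 / 2 := by
    funext _; norm_num
  have e1 : Pr (fun _ => (1 / 2 : ℝ)) (CE n M) (fun F => A (du n M F))
      = Pr (fun _ => (1 / 2 : ℝ)) (CE n M)
        (fun F => A ((CE n M).filter (fun e => th n e ∈ CE n M \ F))) := by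
    apply Pr_congr
    intro F _
    have : du n M F = (CE n M).filter (fun e => th n e ∈ CE n M \ F) := by
      unfold du
      apply Finset.filter_congr
      intro e he
      rw [Finset.mem_sdiff]
      exact ⟨fun h => ⟨th_mem hn he, h⟩, fun h => h.2⟩
    rw [this]
  rw [e1, ← h1, e0]
  have e2 : Pr (fun _ => (1 / 2 : ℝ)) (CE n M)
      (fun F => A ((CE n M).filter (fun e => th n e ∈ F)))
      = Pr (fun _ => (1 / 2 : ℝ)) ((CE n M).image (th n))
        (fun F => A ((CE n M).filter (fun e => th n e ∈ F))) := by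
    rw [th_image hn]
  rw [e2]
  unfold Pr
  rw [Ex_image _ _ _ (th_inj hn)]
  apply Ex_congr
  intro F hF
  have : (CE n M).filter (fun e => th n e ∈ F.image (th n)) = F := by
    ext e
    rw [Finset.mem_filter, Finset.mem_image]
    constructor
    · rintro ⟨h1, e', h2, h3⟩
      have := th_inj hn (Finset.mem_coe.2 (hF h2)) (Finset.mem_coe.2 h1) h3
      exact this ▸ h2
    · intro h
      exact ⟨hF h, e, h, rfl⟩
  simp only [this]

theorem th_red {n : ℕ} (hn : 0 < n) (e : Edg) :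
    th n (red n e) = red n (edz (e.1 + e.2.1 + 1) (dco e)) := by
  unfold th
  rw [dco_red, red_edz, red_edz]
  congr 1
  set k := (e.1 + e.2.1) / (2 * (n : ℤ)) with hk
  have h1 : (red n e).1 + (red n e).2.1 + 1 = (e.1 + e.2.1 + 1) + (2 * (n : ℤ)) * (-k) := by
    simp only [red]
    rw [← hk]
    ring
  rw [h1, Int.add_mul_ediv_left _ _ (by omega)]
  ring

theorem cc1_sub {n M : ℕ} (hn : 0 < n) (F : Finset Edg) :
    Cc 1 n M F ⊆ per n (du n M F) := by
  intro e he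
  obtain ⟨h1, h2, h3⟩ := mem_Cc1.1 he
  show red n e ∈ du n M F
  unfold du
  rw [Finset.mem_filter]
  refine ⟨red_mem hn h1 h2, ?_⟩
  rw [th_red hn]
  exact h3

theorem Sm.trap {c n M l l' : ℕ} (hc : c < 2) (hn : 0 < n) (hl : l' ≤ l) {F : Finset Edg}
    {G : Set Edg} (hG : Cc c n M F ⊆ G) (h : Sm n l' G) : Trap c n M l F := by
  intro x y hx hx2 hxy
  have h1 := (eqv_reach hc hn hxy).mono hG
  obtain ⟨h2, h3⟩ := h _ _ (band hx.2 hx2) h1
  have h4 : (4 : ℤ) * l' ≤ 4 * l := by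
    have : (l' : ℤ) ≤ l := by exact_mod_cast hl
    linarith
  exact ⟨h2.trans h4, h3.trans h4⟩

end TTRAP

open TTRAP in
theorem t_TRAP : S_TRAP := by
  intro ν M4 hν hM4
  obtain ⟨κ, hκ, hW⟩ := H12S.win_half
  have ok := okq (q := 1 / 2) (by norm_num) (by norm_num)
  refine ⟨κ ^ (4 * (2 * (6 * ν * (16 * M4)) + 1) ^ 2), by positivity, 16 * M4, ?_⟩
  intro c r hc hr
  set n := ν * r with hn
  set l := r / (16 * M4) with hl
  have hr0 : 0 < r := by omega
  have hl1 : 1 ≤ l := by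
    rw [hl]
    exact (Nat.one_le_div_iff (by omega)).2 hr
  have hlr : l * (16 * M4) ≤ r := Nat.div_mul_le_self _ _
  have hrl : r < (l + 1) * (16 * M4) := by
    have h1 := Nat.div_add_mod r (16 * M4)
    have h2 := Nat.mod_lt r (show 0 < 16 * M4 by omega)
    rw [← hl] at h1
    calc r = 16 * M4 * l + r % (16 * M4) := h1.symm
      _ < 16 * M4 * l + 16 * M4 := by omega
      _ = (l + 1) * (16 * M4) := by ring
  have hrn : r ≤ n := by rw [hn]; exact Nat.le_mul_of_pos_left r hν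
  have hn0 : 0 < n := by omega
  have h16 : 16 * l ≤ n := by nlinarith
  have hN : 3 * n ≤ 6 * ν * (16 * M4) * l := by
    have h1 : r ≤ 2 * l * (16 * M4) := by nlinarith
    rw [hn]
    calc 3 * (ν * r) ≤ 3 * (ν * (2 * l * (16 * M4))) := by gcongr
      _ = 6 * ν * (16 * M4) * l := by ring
  have hll : l ≤ r / M4 := by
    rw [hl]
    exact Nat.div_le_div_left (by omega) hM4
  have h0 := prob0 hκ hW hl1 h16 hN
  have hc' : c = 0 ∨ c = 1 := by omega
  rcases hc' with rfl | rfl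
  · refine h0.trans (Pr_mono ok ?_)
    intro F _ hF
    refine Sm.trap (by norm_num) hn0 hll ?_ hF
    exact fun e he => mem_Cc0.1 he
  · have h1 := pr_du (M := 4 * n) hn0 (fun F => Sm n l (per n F))
    unfold PC at h0
    rw [← h1] at h0
    refine h0.trans (Pr_mono ok ?_)
    intro F _ hF
    exact Sm.trap (by norm_num) hn0 hll (cc1_sub hn0 F) hF

end Pool.Agent.H160R2.MU
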