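import Pool.Agent.H160R2.MU.Defs

/-!
# Task UB (helper514)
-/

set_option autoImplicit false

namespace Pool.Agent.H160R2.MU
open Pool.Agent.H863R2.Cyl
open Pool.Agent.H988R2.Perc (Word PD)
open Pool.Agent.H160R2.ML
open H974 H906.Cyl
open H12S (Dir hbE segD rimE H4 Crs Nr sqE)

namespace TUB

theorem sP_le_one (k m : ℕ) : sP k m ≤ 1 :=
  Pr_le_one (fun _ => by norm_num) _ _

theorem real_step (e : ℝ) (he : 0 < e) (N r m m' : ℕ) (C C' s s' : ℝ) (hN : 1 ≤ N) (hr : 3 ≤ r)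
    (hm : m < N * (r + 1)) (hmr : N * r ≤ m) (hm' : m' = N * r / 2) (hN5 : 5 ≤ N)
    (h1 : s ≤ (1 / 2 * (4:ℝ) ^ (-e)) * s' + C * (r : ℝ) ^ (-e)) (h2 : s' ≤ C' * (m' : ℝ) ^ (-e))
    (hC : 0 < C) (hC' : 2 * C * (2 * N : ℝ) ^ e ≤ C') : s ≤ C' * (m : ℝ) ^ (-e) := by
  have hmpos : (0 : ℝ) < m := by
    have : 0 < m := by
      have : 0 < N * r := by positivity
      omega
    exact_mod_cast this
  have hrpos : (0 : ℝ) < r := by
    have : 0 < r := by omega
    exact_mod_cast this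
  have hNpos : (0 : ℝ) < N := by exact_mod_cast (by omega : 0 < N)
  have hC'0 : 0 ≤ C' := by
    refine le_trans ?_ hC'
    positivity
  -- m / 4 ≤ m'
  have hm4 : m ≤ 4 * m' := by
    have e1 : N * (r + 1) = N * r + N := by ring
    have e2 : 3 * N ≤ N * r := by
      calc 3 * N = N * 3 := by ring
        _ ≤ N * r := Nat.mul_le_mul_left _ hr
    omega
  have hm4' : (m : ℝ) / 4 ≤ m' := by
    have : (m : ℝ) ≤ 4 * m' := by exact_mod_cast hm4
    linarith
  have hr2 : (m : ℝ) / (2 * N) ≤ r := by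
    rw [div_le_iff₀ (by positivity)]
    have h3 : m ≤ r * (2 * N) := by
      have e1 : N * (r + 1) = N * r + N := by ring
      have e2 : N ≤ N * r := Nat.le_mul_of_pos_right _ (by omega)
      have e3 : r * (2 * N) = N * r + N * r := by ring
      omega
    exact_mod_cast h3
  have a1 : (m' : ℝ) ^ (-e) ≤ ((m : ℝ) / 4) ^ (-e) :=
    Real.rpow_le_rpow_of_nonpos (by positivity) hm4' (by linarith)
  have a2 : (r : ℝ) ^ (-e) ≤ ((m : ℝ) / (2 * N)) ^ (-e) :=
    Real.rpow_le_rpow_of_nonpos (by positivity) hr2 (by linarith)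
  have b1 : ((m : ℝ) / 4) ^ (-e) = (m : ℝ) ^ (-e) * (4 : ℝ) ^ e := by
    rw [Real.div_rpow hmpos.le (by norm_num), Real.rpow_neg (by norm_num : (0:ℝ) ≤ 4), div_inv_eq_mul]
  have b2 : ((m : ℝ) / (2 * N)) ^ (-e) = (m : ℝ) ^ (-e) * (2 * N : ℝ) ^ e := by
    rw [Real.div_rpow hmpos.le (by positivity), Real.rpow_neg (by positivity : (0:ℝ) ≤ 2 * N),
      div_inv_eq_mul]
  have b3 : (4:ℝ) ^ (-e) * (4:ℝ) ^ e = 1 := by
    rw [← Real.rpow_add (by norm_num), neg_add_cancel, Real.rpow_zero]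
  have hmp : (0 : ℝ) < (m : ℝ) ^ (-e) := Real.rpow_pos_of_pos hmpos _
  have h4 : (0:ℝ) < (4:ℝ) ^ (-e) := Real.rpow_pos_of_pos (by norm_num) _
  calc s ≤ (1 / 2 * (4:ℝ) ^ (-e)) * s' + C * (r : ℝ) ^ (-e) := h1
    _ ≤ (1 / 2 * (4:ℝ) ^ (-e)) * (C' * ((m : ℝ) ^ (-e) * (4 : ℝ) ^ e)) +
        C * ((m : ℝ) ^ (-e) * (2 * N : ℝ) ^ e) := by
        refine add_le_add (mul_le_mul_of_nonneg_left (h2.trans ?_) (by positivity))
          (mul_le_mul_of_nonneg_left (a2.trans b2.le) hC.le)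
        exact mul_le_mul_of_nonneg_left (a1.trans b1.le) hC'0
    _ = (1 / 2 * C' * ((4:ℝ) ^ (-e) * (4:ℝ) ^ e) + C * (2 * N : ℝ) ^ e) * (m : ℝ) ^ (-e) := by ring
    _ = (1 / 2 * C' + C * (2 * N : ℝ) ^ e) * (m : ℝ) ^ (-e) := by rw [b3, mul_one]
    _ ≤ C' * (m : ℝ) ^ (-e) := by
        refine mul_le_mul_of_nonneg_right ?_ hmp.le
        linarith

end TUB

open TUB in
theorem t_UB (hR : S_RCR) (hM : S_MON) : S_UB := by
  intro k hk
  set e : ℝ := (4 * (k : ℝ) ^ 2 - 1) / 12 with he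
  have hk2 : (2 : ℝ) ≤ k := by exact_mod_cast hk
  have he0 : 0 < e := by
    rw [he]
    have : (4 : ℝ) ≤ (k : ℝ) ^ 2 := by nlinarith
    linarith
  obtain ⟨N, hN, C, hC, r0, h⟩ := hR k hk (1 / 2 * (4:ℝ) ^ (-e)) (by positivity)
  set r1 : ℕ := max r0 3 with hr1
  set C' : ℝ := max ((N * r1 : ℕ) : ℝ) 1 ^ e + 2 * C * (2 * N : ℝ) ^ e with hC'
  have hNr : (0 : ℝ) < max ((N * r1 : ℕ) : ℝ) 1 := lt_max_of_lt_right one_pos
  have hNpos : (0 : ℝ) < N := by exact_mod_cast (by omega : 0 < N)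
  have hp1 : 0 < max ((N * r1 : ℕ) : ℝ) 1 ^ e := Real.rpow_pos_of_pos hNr _
  have hp2 : 0 < 2 * C * (2 * N : ℝ) ^ e := by positivity
  have hC'0 : 0 < C' := by rw [hC']; linarith
  refine ⟨C', hC'0, ?_⟩
  intro m
  induction m using Nat.strong_induction_on with
  | _ m ih =>
    intro hm
    have hmpos : (0 : ℝ) < m := by exact_mod_cast (by omega : 0 < m)
    by_cases hbig : N * r1 ≤ m
    · have hN0 : 0 < N := by omega
      set r : ℕ := m / N with hr
      have hr1r : r1 ≤ r := (Nat.le_div_iff_mul_le hN0).2 (by rw [Nat.mul_comm]; exact hbig)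
      have hr3 : 3 ≤ r := le_trans (le_max_right _ _) hr1r
      have hr0 : r0 ≤ r := le_trans (le_max_left _ _) hr1r
      have hdm := Nat.div_add_mod m N
      have hml := Nat.mod_lt m hN0
      have hmr : N * r ≤ m := by rw [hr]; omega
      have hmlt : m < N * (r + 1) := by rw [hr, Nat.mul_add]; omega
      have h3N : 3 * N ≤ N * r := by
        calc 3 * N = N * 3 := by ring
          _ ≤ N * r := Nat.mul_le_mul_left _ hr3
      have hs : sP k m ≤ (1 / 2 * (4:ℝ) ^ (-e)) * sP k (N * r / 2) + C * (r : ℝ) ^ (-e) :=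
        (hM k (N * r) m hk (by omega) hmr).trans (h r hr0)
      have hs' := ih (N * r / 2) (by omega) (by omega)
      exact real_step e he0 N r m (N * r / 2) C C' _ _ (by omega) hr3 hmlt hmr rfl (by omega) hs hs'
        hC (by rw [hC']; linarith)
    · push Not at hbig
      refine (sP_le_one k m).trans ?_
      have h1 : (1 : ℝ) ≤ max ((N * r1 : ℕ) : ℝ) 1 ^ e * (m : ℝ) ^ (-e) := by
        rw [Real.rpow_neg hmpos.le, ← div_eq_mul_inv, one_le_div (Real.rpow_pos_of_pos hmpos _)]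
        refine Real.rpow_le_rpow hmpos.le ?_ he0.le
        refine le_trans ?_ (le_max_left _ _)
        exact_mod_cast hbig.le
      refine h1.trans (mul_le_mul_of_nonneg_right ?_ (Real.rpow_pos_of_pos hmpos _).le)
      rw [hC']
      linarith

end Pool.Agent.H160R2.MU
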