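import Pool.Agent.H160R2.MU.Defs

/-!
# Task W: one class is enough for all slit words
-/

set_option autoImplicit false

namespace Pool.Agent.H160R2.MU
open Pool.Agent.H863R2.Cyl
open Pool.Agent.H988R2.Perc (Word PD)
open Pool.Agent.H160R2.ML

namespace TW

theorem dich (w : Word) : (∃ a b : Word, w = a ++ true :: false :: b) ∨
    ∃ m n : ℕ, w = List.replicate m false ++ List.replicate n true := by
  induction w with
  | nil => exact Or.inr ⟨0, 0, rfl⟩
  | cons x w ih =>
    rcases ih with ⟨a, b, h⟩ | ⟨m, n, h⟩
    · exact Or.inl ⟨x :: a, b, by rw [h]; rfl⟩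
    · cases x with
      | false => exact Or.inr ⟨m + 1, n, by rw [h]; rfl⟩
      | true =>
        cases m with
        | zero => exact Or.inr ⟨0, n + 1, by rw [h]; rfl⟩
        | succ m => exact Or.inl ⟨[], List.replicate m false ++ List.replicate n true, by rw [h]; rfl⟩

theorem lins_app (a b : Word) : lins a.length (a ++ b) = a ++ true :: false :: b := by
  simp [Pool.Agent.H988R2.Perc.ins]

/-- an admissible word of even length has a small arc or is the word `bw` -/
theorem dich2 {w : Word} (hw : Ok w) (he : Even w.length) :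
    (∃ (i : ℕ) (u : Word), i ≤ u.length ∧ w = lins i u) ∨ w = bw w.length := by
  rcases dich w with ⟨a, b, h⟩ | ⟨m, n, h⟩
  · exact Or.inl ⟨a.length, a ++ b, by simp, by rw [lins_app, h]⟩
  · right
    have h1 : n = (m + n + 1) / 2 := by
      have := hw
      unfold Ok at this
      rw [h] at this
      simpa [List.count_append, List.count_replicate] using this
    have h2 : w.length = m + n := by rw [h]; simp
    obtain ⟨t, ht⟩ := he
    have h3 : m = t ∧ n = t := by omega
    have h4 : (m + n) / 2 = t := by omega
    rw [h2]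
    unfold bw
    rw [h4, h, h3.1, h3.2]

theorem length_lins {i : ℕ} {u : Word} (h : i ≤ u.length) : (lins i u).length = u.length + 2 := by
  simp [Pool.Agent.H988R2.Perc.ins, h]
  omega

theorem bw_seam {n : ℕ} : bw (n + 2) = seam (bw n) := by
  unfold bw seam
  have h : (n + 2) / 2 = n / 2 + 1 := by omega
  rw [h, List.replicate_succ, List.replicate_succ']
  simp

theorem length_seam (u : Word) : (seam u).length = u.length + 2 := by
  simp [seam]

theorem good_of_ee {p r p' r' : ℕ} {w' w v' v : Word} (h : ee p r w' w = ee p' r' v' v)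
    (hg : Good p' r' v' v) : Good p r w' w := by
  unfold ee at h
  rw [if_pos hg] at h
  by_contra hn
  rw [if_neg hn] at h
  exact zero_ne_one h

/-- the statement for pairs of total length `N` -/
def St (l N : ℕ) : Prop := ∀ (c p r : ℕ) (w' w : Word), c < 2 → p + r = l → Ok w' → Ok w →
  Even w.length → w'.length + p = w.length + r → p ≤ w.length → w.length + w'.length = N →
  WG c p r w' w → Good p r w' w

theorem step (hi : S_Wi) (hr : S_Wr) (hl : S_Wl) (hz : S_Wz) {l : ℕ} (hl4 : 4 ≤ l) (hle : Even l)
    (hs : LSpec l ee) {N : ℕ} (IH : ∀ N' < N, St l N') {c p r : ℕ} {w' w : Word} (hc : c < 2)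
    (hpr : p + r = l) (ok' : Ok w') (ok : Ok w) (hev : Even w.length)
    (hlen : w'.length + p = w.length + r) (hp : p ≤ w.length) (hN : w.length + w'.length = N)
    (hW : WG c p r w' w) :
    Good p r w' w ∨ (w = bw w.length ∧ (p = 0 ∨ p = w.length)) := by
  rcases dich2 ok hev with ⟨i, u, hiu, h⟩ | h
  · left
    have hL : w.length = u.length + 2 := by rw [h, length_lins hiu]
    have hev' : Even u.length := by
      rw [hL] at hev
      rcases hev with ⟨t, ht⟩
      exact ⟨t - 1, by omega⟩
    have oku : Ok u := by
      rw [h] at ok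
      exact ok_lins.1 ok
    have hlen' : w'.length + p = u.length + 2 + r := by omega
    subst h
    rcases Nat.lt_or_ge i p with hip | hip
    · rcases Nat.lt_or_ge (i + 1) p with hip2 | hip2
      · exact absurd hW (hz c p r i w' u hc (hpr ▸ hle) (by omega) ok' oku hev' hlen' (by omega)
          (by omega))
      · have hi1 : i = p - 1 := by omega
        subst hi1
        have hW2 := hr c p r w' u hc (hpr ▸ hle) ok' oku hev' hlen' (by omega) (by omega) hW
        have hG := IH (u.length + w'.length) (by omega) c (p - 1) (r + 1) w' u hc (by omega) ok' oku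
          hev' (by omega) (by omega) rfl hW2
        exact good_of_ee (hs.moveR p r w' u hpr ok' oku hev' hlen' (by omega) (by omega)) hG
    · have hW2 := hi c p r i w' u hc (hpr ▸ hle) (by omega) ok' oku hev' hlen' hip hiu hW
      have h2 : i - p + r + 2 ≤ w'.length := by omega
      have h3 := length_cap h2
      have hG := IH (u.length + (cap (i - p + r) w').length) (by omega) c p r (cap (i - p + r) w') u
        hc hpr (ok_cap ok' h2) oku hev' (by omega) (by omega) rfl hW2
      exact good_of_ee (hs.insR p r i w' u hpr ok' oku hev' hlen' hip hiu) hG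
  · rcases Nat.eq_zero_or_pos p with hp0 | hp0
    · exact Or.inr ⟨h, Or.inl hp0⟩
    rcases Nat.lt_or_ge p w.length with hpl | hpl
    · left
      have h1 : 2 ≤ w.length := by omega
      obtain ⟨m, hm⟩ : ∃ m, w.length = m + 2 := ⟨w.length - 2, by omega⟩
      rw [hm, bw_seam] at h
      have hL : w.length = (bw m).length + 2 := by rw [h, length_seam]
      have hev' : Even (bw m).length := by
        rw [hL] at hev
        rcases hev with ⟨t, ht⟩
        exact ⟨t - 1, by omega⟩
      have oku : Ok (bw m) := by
        rw [h] at ok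
        exact ok_seam.1 ok
      generalize bw m = u at *
      subst h
      have hlen' : w'.length + p = u.length + 2 + r := by omega
      have hW2 := hl c p r w' u hc (hpr ▸ hle) ok' oku hev' hlen' (by omega) (by omega) hW
      have hG := IH (u.length + (rotr w').length) (by rw [length_rotr]; omega) (1 - c) (p - 1)
        (r + 1) (rotr w') u (by omega) (by omega) (ok_rotr.2 ok') oku hev'
        (by rw [length_rotr]; omega) (by omega) rfl hW2
      exact good_of_ee (hs.moveL p r w' u hpr ok' oku hev' hlen' (by omega) (by omega)) hG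
    · exact Or.inr ⟨h, Or.inr (by omega)⟩

theorem main (hsy : S_Ws) (hi : S_Wi) (hr : S_Wr) (hl : S_Wl) (hz : S_Wz) {l : ℕ} (hl4 : 4 ≤ l)
    (hle : Even l) (hs : LSpec l ee) (N : ℕ) : St l N := by
  induction N using Nat.strong_induction_on with
  | _ N IH =>
    intro c p r w' w hc hpr ok' ok hev hlen hp hN hW
    have hev' : Even w'.length := by
      rcases hev with ⟨t, ht⟩
      rcases hle with ⟨s, hs⟩
      exact ⟨w'.length / 2, by omega⟩
    rcases step hi hr hl hz hl4 hle hs IH hc hpr ok' ok hev hlen hp hN hW with h | ⟨h1, h2⟩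
    · exact h
    have hW' : WG c r p w w' := hsy c p r w' w hc (hpr ▸ hle) (by omega) hlen hp hW
    rcases step hi hr hl hz hl4 hle hs IH hc (by omega : r + p = l) ok ok' hev' (by omega) (by omega)
      (by omega) hW' with h | ⟨h3, h4⟩
    · exact good_of_ee (hs.symm p r w' w hpr hlen hp) h
    have h5 : p = w.length := by omega
    have h6 : r = w'.length := by omega
    have hb := hs.base p r hpr (by rw [h5]; exact hev) (by rw [h6]; exact hev')
    rw [← h5] at h1
    rw [← h6] at h3
    rw [← h1, ← h3] at hb
    unfold ee at hb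
    by_contra hn
    rw [if_neg hn] at hb
    exact zero_ne_one hb

end TW

theorem t_W : S_Ws → S_Wi → S_Wr → S_Wl → S_Wz → ML.S_LS → S_W := by
  intro hsy hi hr hl hz hS c k n w' w hc hk hkn ok' ok h1 h2 hW
  exact TW.main hsy hi hr hl hz (by omega : 4 ≤ k + k) ⟨k, rfl⟩ (hS (k + k) ⟨k, rfl⟩ (by omega)) _ c
    k k w' w hc rfl ok' ok (by rw [h2]; exact ⟨n, by omega⟩) (by omega) (by omega) rfl hW

end Pool.Agent.H160R2.MU
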