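import Pool.Agent.H160R2.MU.Defs
import Pool.Agent.H160R2.ML.T_insR

/-!
# Task Wi (helper255): an arc between through strands, for the sectors of one parity
-/

set_option autoImplicit false

namespace Pool.Agent.H160R2.MU
open Pool.Agent.H863R2.Cyl
open Pool.Agent.H988R2.Perc (Word PD)
open Pool.Agent.H160R2.ML
open H974 H906.Cyl

namespace TWi

theorem wg {p r i : ℕ} {w' u v' : Word} {i' : ℕ} (H : TinsR.HH p r i w' u v' i') (c : ℕ) :
    WG c p r w' (lins i u) ↔ WG c p r v' u := by
  unfold WG
  refine and_congr ?_ ?_
  · refine forall_congr' fun a => forall_congr' fun d => forall_congr' fun ha =>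
      forall_congr' fun hd => forall_congr' fun _ => forall_congr' fun _ =>
      forall_congr' fun _ => not_congr ?_
    rw [H.cn_iff (H.ptt 0 a ha).1 (H.ptt 0 d hd).1, (H.ptt 0 a ha).2, (H.ptt 0 d hd).2]
  · refine forall_congr' fun a => forall_congr' fun ha => forall_congr' fun _ =>
      exists_congr fun s => and_congr_right fun _ => exists_congr fun d =>
      and_congr_right fun hd => ?_
    rw [H.cn_iff (H.ptt 0 a ha).1 (H.ptt s d hd).1, (H.ptt 0 a ha).2, (H.ptt s d hd).2]

end TWi

theorem t_Wi : S_Wi := by
  intro c p r i w' u _ _ _ hw' _ _ hl hpi hi hG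
  have h1 := length_cap (i := i - p + r) (w := w') (by omega)
  have H : TinsR.HH p r i w' u (cap (i - p + r) w') (i - p + r) :=
    { ok := hw'
      l2 := h1.symm
      lv := by omega
      hv := rfl
      ii := by omega
      hp := hpi
      hi := hi }
  exact (TWi.wg H c).1 hG

end Pool.Agent.H160R2.MU
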