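import Pool.Agent.H160R2.MU.Defs
import Pool.Agent.H160R2.ML.T_moveL

/-!
# Task Wl: the arc across the seam, sectors of one parity (by helper217, after helper804's T_moveL)
-/

set_option autoImplicit false

namespace Pool.Agent.H160R2.MU
open Pool.Agent.H863R2.Cyl
open Pool.Agent.H988R2.Perc (Word PD)
open Pool.Agent.H160R2.ML
open H974 H906.Cyl

namespace TWl

theorem par (P r c i : ℕ) (hc : c < 2) (hev : Even (P + 1 + r)) :
    TmoveL.rho P r i % 2 = 1 - c ↔ i % 2 = c := by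
  obtain ⟨m, hm⟩ := hev
  unfold TmoveL.rho
  split_ifs with h
  · subst h
    omega
  · omega

end TWl

theorem t_Wl : S_Wl := by
  intro c p r w' u hc hev _ _ _ hl hp hp' h
  obtain ⟨P, rfl⟩ : ∃ P, p = P + 1 := ⟨p - 1, by omega⟩
  rw [Nat.add_sub_cancel]
  have hP : P ≤ u.length := by omega
  obtain ⟨h1, h2⟩ := h
  constructor
  · intro i j hi hj hic hjc hij
    obtain ⟨i', hi', rfl⟩ := TmoveL.rho_surj hi
    obtain ⟨j', hj', rfl⟩ := TmoveL.rho_surj hj
    rw [← TmoveL.Cn_pt hl hP 0 0 i' j' hi' hj']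
    exact h1 i' j' hi' hj' ((TWl.par P r c i' hc hev).1 hic) ((TWl.par P r c j' hc hev).1 hjc)
      (fun h => hij (by rw [h]))
  · intro i hi hic
    obtain ⟨i', hi', rfl⟩ := TmoveL.rho_surj hi
    obtain ⟨s, hs, d, hd, h⟩ := h2 i' hi' ((TWl.par P r c i' hc hev).1 hic)
    exact ⟨s, hs, TmoveL.rho P r d, TmoveL.rho_lt hd, (TmoveL.Cn_pt hl hP 0 s i' d hi' hd).1 h⟩

end Pool.Agent.H160R2.MU
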