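import Pool.Agent.H160R2.MU.Defs
import Pool.Agent.H160R2.ML.T_moveR

/-!
# Project MU, task Wr: arc between the last leg and the first through strand
-/

set_option autoImplicit false

namespace Pool.Agent.H160R2.MU
open Pool.Agent.H863R2.Cyl
open Pool.Agent.H988R2.Perc (Word PD)
open Pool.Agent.H160R2.ML

/-- arc between the last leg and the first through strand, one class -/
theorem t_Wr : S_Wr := by
  intro c p r w' u _ _ _ _ _ _ hp hp2 hW
  obtain ⟨i, rfl⟩ : ∃ i, p = i + 1 := ⟨p - 1, by omega⟩
  have hi : i ≤ u.length := by omega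
  rw [Nat.add_sub_cancel] at hW ⊢
  have key : ∀ (s t : ℤ) (c d : ℕ),
      Cn (i + 1) r w' (lins i u) (pt (i + 1) r w' (lins i u) s c)
        (pt (i + 1) r w' (lins i u) t d) ↔
      Cn i (r + 1) w' u (pt i (r + 1) w' u s c) (pt i (r + 1) w' u t d) := by
    intro s t c d
    rw [TmoveR.cn_iff hi, TmoveR.pt_eq hi, TmoveR.pt_eq hi]
  unfold WG at hW ⊢
  have e : i + 1 + r = i + (r + 1) := by omega
  rw [e] at hW
  simp only [key] at hW
  exact hW

end Pool.Agent.H160R2.MU
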