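import Pool.Agent.H160R2.MU.Defs
import Pool.Agent.H160R2.ML.T_zero

/-! Task Wz: a small arc among the legs, one class. -/

set_option autoImplicit false

namespace Pool.Agent.H160R2.MU
open Pool.Agent.H863R2.Cyl
open Pool.Agent.H988R2.Perc (Word PD)
open Pool.Agent.H160R2.ML
open H974 H906.Cyl

namespace TWz

lemma arc {i : ℕ} {u : Word} (hi : i ≤ u.length) : Rw (lins i u) (i : ℤ) ((i : ℤ) + 2) := by
  obtain ⟨K, hK⟩ := Sem4Aux.exists_pot (sg (lins i u))
  have h1 : K ((i : ℤ) + 1) = K i + 1 := by
    rw [hK, Sem4Aux.sg_mul (lins i u) 0 i (by rw [Tzero.len_lins]; omega) _ (by push_cast; ring),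
      Sem4Aux.lins_getD i u hi]
    simp
  have h2 : K ((i : ℤ) + 1 + 1) = K ((i : ℤ) + 1) - 1 := by
    rw [hK, Sem4Aux.sg_mul (lins i u) 0 (i + 1) (by rw [Tzero.len_lins]; omega) _ (by push_cast; ring),
      Sem4Aux.lins_getD i u hi]
    simp
    ring
  refine Or.inl ((Sem4Aux.rle_iff hK).2 ⟨by omega, fun l hl hl' => ?_, ?_⟩)
  · have h3 : l = i ∨ l = i + 1 ∨ l = i + 1 + 1 := by omega
    rcases h3 with rfl | rfl | rfl <;> omega
  · rw [show ((i : ℤ) + 2) = i + 1 + 1 by ring]
    omega

lemma isol {p r i : ℕ} {w' u : Word} (hip : i + 2 ≤ p) (hp : p ≤ u.length + 2) :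
    ¬ ∃ s : ℤ, s ≠ 0 ∧ ∃ d : ℕ, d < p + r ∧
      Cn p r w' (lins i u) (pt p r w' (lins i u) 0 (i + 1)) (pt p r w' (lins i u) s d) := by
  rintro ⟨s, hs, d, hd, h1⟩
  have h2 := (Tzero.inv hip hp h1).1 (by
    unfold pt
    rw [if_pos (by omega)]
    simp)
  unfold pt at h2
  split_ifs at h2 with h3
  · simp only [Prod.mk.injEq, and_true] at h2
    rw [Tzero.len_lins] at h2
    push_cast at h2
    rcases lt_or_gt_of_ne hs with h4 | h4
    · have : s * ((u.length : ℤ) + 2) ≤ (-1) * ((u.length : ℤ) + 2) :=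
        mul_le_mul_of_nonneg_right (by omega) (by positivity)
      omega
    · have : 1 * ((u.length : ℤ) + 2) ≤ s * ((u.length : ℤ) + 2) :=
        mul_le_mul_of_nonneg_right (by omega) (by positivity)
      omega
  · simp at h2

end TWz

open TWz in
theorem t_Wz : S_Wz := by
  intro c p r i w' u hc hev h4 _ _ _ hlen hip hp hW
  obtain ⟨hW1, hW2⟩ := hW
  by_cases hpar : (i + 1) % 2 = c
  · exact isol hip hp (hW2 (i + 1) (by omega) hpar)
  · have hi2 : i % 2 = c := by omega
    have ha : Cn p r w' (lins i u) ((i : ℤ), false) ((i : ℤ) + 2, false) :=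
      Relation.EqvGen.rel _ _ (Lg.low _ _ (arc (by omega)))
    have hpt : ∀ j : ℕ, j ≤ p → pt p r w' (lins i u) 0 j = ((j : ℤ), false) := by
      intro j hj
      unfold pt
      rw [if_pos hj]
      simp
    by_cases hlt : i + 2 < p + r
    · refine hW1 i (i + 2) (by omega) hlt hi2 (by omega) (by omega) ?_
      rw [hpt i (by omega), hpt (i + 2) hip]
      push_cast
      exact ha
    · have hpi : p = i + 2 := by omega
      have hr : r = 0 := by omega
      subst hr
      subst hpi
      have hev2 : (i + 2) % 2 = 0 := by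
        rw [add_zero] at hev
        exact Nat.even_iff.1 hev
      refine hW1 i 0 (by omega) (by omega) hi2 (by omega) (by omega) ?_
      rw [hpt i (by omega), hpt 0 (by omega)]
      have hw' : w'.length = u.length - i := by omega
      have g1 : Cn (i + 2) 0 w' (lins i u) ((i : ℤ) + 2, false) (0, true) := by
        have := Lg.glue (p := i + 2) (r := 0) (w' := w') (w := lins i u) 0 0
          (by rw [Tzero.len_lins]; omega)
        simp only [zero_mul, zero_add, Nat.cast_zero, add_zero] at this
        push_cast at this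
        exact Relation.EqvGen.rel _ _ this
      have g2 : Cn (i + 2) 0 w' (lins i u) (0, false) (0, true) := by
        have := Lg.glue (p := i + 2) (r := 0) (w' := w') (w := lins i u) (-1) w'.length
          (by rw [Tzero.len_lins]; omega)
        have e1 : ((-1 : ℤ) * ((lins i u).length : ℤ) + ((i + 2 : ℕ) : ℤ) + (w'.length : ℤ)) = 0 := by
          rw [Tzero.len_lins, hw']
          omega
        have e2 : ((-1 : ℤ) * (w'.length : ℤ) + ((0 : ℕ) : ℤ) + (w'.length : ℤ)) = 0 := by
          push_cast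
          ring
        rw [e1, e2] at this
        exact Relation.EqvGen.rel _ _ this
      exact (ha.trans _ _ _ g1).trans _ _ _ (Relation.EqvGen.symm _ _ g2)

end Pool.Agent.H160R2.MU
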