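import Pool.Agent.H160R2.MU.Defs

/-!
# The tubes are pairwise non adjacent
-/

set_option autoImplicit false

namespace Pool.Agent.H160R2.MU
namespace Tg1

theorem arm_arm (N k a b : ℕ) (ca cb : Cel) (hab : a < b) (hb : b < k)
    (hca : ca.1 < 4 ∧ -(N : ℤ) ≤ ca.2 ∧ ca.2 < N) (hcb : cb.1 < 4 ∧ -(N : ℤ) ≤ cb.2 ∧ cb.2 < N)
    (hpos : cpos N ca < cpos N cb)
    (hd : 2 ≤ |(csq N ca).1 - (csq N cb).1| ∨ 2 ≤ |(csq N ca).2 - (csq N cb).2|)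
    (z z' : ℤ × ℤ) (hz : z ∈ ArmS N k a ca) (hz' : z' ∈ ArmS N k b cb)
    (h1 : |z.1 - z'.1| ≤ 1) (h2 : |z.2 - z'.2| ≤ 1) : False := by
  obtain ⟨sa, xa⟩ := ca
  obtain ⟨sb, xb⟩ := cb
  obtain ⟨x, y⟩ := z
  obtain ⟨x', y'⟩ := z'
  obtain ⟨hsa, hxa1, hxa2⟩ := hca
  obtain ⟨hsb, hxb1, hxb2⟩ := hcb
  rw [abs_le] at h1 h2
  simp only at hsa hsb hxa1 hxa2 hxb1 hxb2 h1 h2
  interval_cases sa <;> interval_cases sb <;>
    simp [ArmS, cpos, csq, rad, hgt, le_abs] at hz hz' hpos hd <;>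
    omega

/-- bounds for an arm -/
theorem arm_bd (N k a : ℕ) (c : Cel) (ha : a < k)
    (hc : c.1 < 4 ∧ -(N : ℤ) ≤ c.2 ∧ c.2 < N) (z : ℤ × ℤ) (hz : z ∈ ArmS N k a c) :
    -((N : ℤ) + 2 * k) ≤ z.1 ∧ z.1 ≤ N + 2 * k - 1 ∧ -((N : ℤ) + 2 * k) ≤ z.2 ∧
      z.2 ≤ N + 2 * k + 1 ∧
      (z.2 ≤ N + 2 * k - 1 ∨ z.1 = -((N : ℤ) + 1 + 2 * ((k : ℤ) - 1 - a)) - 1) := by
  obtain ⟨sa, xa⟩ := c
  obtain ⟨x, y⟩ := z
  obtain ⟨hsa, hxa1, hxa2⟩ := hc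
  simp only at hsa hxa1 hxa2
  interval_cases sa <;> simp [ArmS, rad, hgt] at hz <;> simp only <;> omega

/-- the five pieces of a link -/
theorem link_pc (N k i : ℕ) (hi : 2 * i ≤ k - 1) (hk : 2 ≤ k) (z : ℤ × ℤ)
    (hz : z ∈ LinkS N k i) :
    (z.1 = -(N : ℤ) - 2 - 2 * i ∧ (N : ℤ) + 2 * k + 1 ≤ z.2 ∧ z.2 ≤ N + 2 * k + 3 + 2 * i) ∨
    (z.2 = (N : ℤ) + 2 * k + 3 + 2 * i ∧ -(N : ℤ) - 2 - 2 * i ≤ z.1 ∧
      z.1 ≤ 3 * (N : ℤ) + 14 * k - 2 - 2 * i) ∨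
    (z.1 = 3 * (N : ℤ) + 14 * k - 2 - 2 * i ∧ (N : ℤ) + 2 * k + 3 + 2 * i ≤ z.2 ∧
      z.2 ≤ 5 * (N : ℤ) + 18 * k + 3 + 2 * i) ∨
    (z.2 = 5 * (N : ℤ) + 18 * k + 3 + 2 * i ∧ 3 * (N : ℤ) + 14 * k - 2 - 2 * i ≤ z.1 ∧
      z.1 ≤ 3 * (N : ℤ) + 14 * k + 2 * i) ∨
    (z.1 = 3 * (N : ℤ) + 14 * k + 2 * i ∧ 5 * (N : ℤ) + 18 * k + 1 ≤ z.2 ∧
      z.2 ≤ 5 * (N : ℤ) + 18 * k + 3 + 2 * i) := by
  obtain ⟨x, y⟩ := z
  simp only [LinkS, rad, hgt, prd, Set.mem_ofPred_eq] at hz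
  push_cast at hz
  simp only
  omega

theorem key (s s' P : ℤ) (hP : 0 < P) :
    (s' = s ∧ s' * P = s * P) ∨ (s' = s + 1 ∧ s' * P = s * P + P) ∨
    (s' = s - 1 ∧ s' * P = s * P - P) ∨ s * P + 2 * P ≤ s' * P ∨ s' * P ≤ s * P - 2 * P := by
  rcases lt_trichotomy s' s with h | h | h
  · rcases eq_or_lt_of_le (show s' + 1 ≤ s by omega) with h' | h'
    · right; right; left
      have : s' = s - 1 := by omega
      subst this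
      exact ⟨rfl, by ring⟩
    · right; right; right; right
      have : s' + 2 ≤ s := by omega
      nlinarith
  · left; subst h; exact ⟨rfl, rfl⟩
  · rcases eq_or_lt_of_le (show s + 1 ≤ s' by omega) with h' | h'
    · right; left
      subst h'
      exact ⟨rfl, by ring⟩
    · right; right; right; left
      have : s + 2 ≤ s' := by omega
      nlinarith

theorem arm_link (N k b i : ℕ) (hN : 1 ≤ N) (hk : 2 ≤ k) (hb : b < k) (hi : 2 * i ≤ k - 1)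
    (P D x y x' y' : ℤ) (hP : P = 4 * (N + 4 * k))
    (hA : -((N : ℤ) + 2 * k) ≤ x ∧ x ≤ N + 2 * k - 1 ∧ -((N : ℤ) + 2 * k) ≤ y ∧
      y ≤ N + 2 * k + 1 ∧
      (y ≤ N + 2 * k - 1 ∨ x = -((N : ℤ) + 1 + 2 * ((k : ℤ) - 1 - b)) - 1))
    (hL : (x' = -(N : ℤ) - 2 - 2 * i ∧ (N : ℤ) + 2 * k + 1 ≤ y' ∧ y' ≤ N + 2 * k + 3 + 2 * i) ∨
    (y' = (N : ℤ) + 2 * k + 3 + 2 * i ∧ -(N : ℤ) - 2 - 2 * i ≤ x' ∧
      x' ≤ 3 * (N : ℤ) + 14 * k - 2 - 2 * i) ∨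
    (x' = 3 * (N : ℤ) + 14 * k - 2 - 2 * i ∧ (N : ℤ) + 2 * k + 3 + 2 * i ≤ y' ∧
      y' ≤ 5 * (N : ℤ) + 18 * k + 3 + 2 * i) ∨
    (y' = 5 * (N : ℤ) + 18 * k + 3 + 2 * i ∧ 3 * (N : ℤ) + 14 * k - 2 - 2 * i ≤ x' ∧
      x' ≤ 3 * (N : ℤ) + 14 * k + 2 * i) ∨
    (x' = 3 * (N : ℤ) + 14 * k + 2 * i ∧ 5 * (N : ℤ) + 18 * k + 1 ≤ y' ∧
      y' ≤ 5 * (N : ℤ) + 18 * k + 3 + 2 * i))
    (hD : D = 0 ∨ D = P ∨ D = -P ∨ 2 * P ≤ D ∨ D ≤ -(2 * P))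
    (h1 : -1 ≤ x + D - x' ∧ x + D - x' ≤ 1) (h2 : -1 ≤ y + D - y' ∧ y + D - y' ≤ 1) :
    (D = 0 ∧ b + i = k - 1) ∨ (D = P ∧ b = i) := by
  subst hP
  rcases hD with hD | hD | hD | hD | hD <;> rcases hL with hL | hL | hL | hL | hL <;> omega

theorem link_link (N k i j : ℕ) (hN : 1 ≤ N) (hk : 2 ≤ k) (hi : 2 * i ≤ k - 1)
    (hj : 2 * j ≤ k - 1)
    (P D x y x' y' : ℤ) (hP : P = 4 * (N + 4 * k))
    (hA : (x = -(N : ℤ) - 2 - 2 * j ∧ (N : ℤ) + 2 * k + 1 ≤ y ∧ y ≤ N + 2 * k + 3 + 2 * j) ∨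
    (y = (N : ℤ) + 2 * k + 3 + 2 * j ∧ -(N : ℤ) - 2 - 2 * j ≤ x ∧
      x ≤ 3 * (N : ℤ) + 14 * k - 2 - 2 * j) ∨
    (x = 3 * (N : ℤ) + 14 * k - 2 - 2 * j ∧ (N : ℤ) + 2 * k + 3 + 2 * j ≤ y ∧
      y ≤ 5 * (N : ℤ) + 18 * k + 3 + 2 * j) ∨
    (y = 5 * (N : ℤ) + 18 * k + 3 + 2 * j ∧ 3 * (N : ℤ) + 14 * k - 2 - 2 * j ≤ x ∧
      x ≤ 3 * (N : ℤ) + 14 * k + 2 * j) ∨
    (x = 3 * (N : ℤ) + 14 * k + 2 * j ∧ 5 * (N : ℤ) + 18 * k + 1 ≤ y ∧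
      y ≤ 5 * (N : ℤ) + 18 * k + 3 + 2 * j))
    (hL : (x' = -(N : ℤ) - 2 - 2 * i ∧ (N : ℤ) + 2 * k + 1 ≤ y' ∧ y' ≤ N + 2 * k + 3 + 2 * i) ∨
    (y' = (N : ℤ) + 2 * k + 3 + 2 * i ∧ -(N : ℤ) - 2 - 2 * i ≤ x' ∧
      x' ≤ 3 * (N : ℤ) + 14 * k - 2 - 2 * i) ∨
    (x' = 3 * (N : ℤ) + 14 * k - 2 - 2 * i ∧ (N : ℤ) + 2 * k + 3 + 2 * i ≤ y' ∧
      y' ≤ 5 * (N : ℤ) + 18 * k + 3 + 2 * i) ∨
    (y' = 5 * (N : ℤ) + 18 * k + 3 + 2 * i ∧ 3 * (N : ℤ) + 14 * k - 2 - 2 * i ≤ x' ∧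
      x' ≤ 3 * (N : ℤ) + 14 * k + 2 * i) ∨
    (x' = 3 * (N : ℤ) + 14 * k + 2 * i ∧ 5 * (N : ℤ) + 18 * k + 1 ≤ y' ∧
      y' ≤ 5 * (N : ℤ) + 18 * k + 3 + 2 * i))
    (hD : D = 0 ∨ D = P ∨ D = -P ∨ 2 * P ≤ D ∨ D ≤ -(2 * P))
    (h1 : -1 ≤ x + D - x' ∧ x + D - x' ≤ 1) (h2 : -1 ≤ y + D - y' ∧ y + D - y' ≤ 1) :
    (D = 0 ∧ i = j) ∨ ((D = P ∨ D = -P) ∧ i + j + 1 = k) := by
  subst hP
  rcases hD with hD | hD | hD | hD | hD <;> rcases hL with hL | hL | hL | hL | hL <;>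
    rcases hA with hA | hA | hA | hA | hA <;> omega

end Tg1

open Tg1 in
theorem t_g1 : S_g1 := by
  intro N k c hN hk hAdm L L' z z' hz hz' h1 h2
  obtain ⟨hc, hpos, hsep⟩ := hAdm
  have hP : (0 : ℤ) < (prd N k : ℕ) := by
    have : 0 < prd N k := by unfold prd; omega
    exact_mod_cast this
  have hPe : ((prd N k : ℕ) : ℤ) = 4 * (N + 4 * k) := by
    unfold prd; push_cast; ring
  obtain ⟨x, y⟩ := z
  obtain ⟨x', y'⟩ := z'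
  rw [abs_le] at h1 h2
  simp only at h1 h2
  rcases hz with ⟨a, s, hl, hm⟩ | ⟨i, s, hi, hl, hm⟩ <;>
    rcases hz' with ⟨b, s', hl', hm'⟩ | ⟨j, s', hj, hl', hm'⟩
  · -- two arms
    subst hl hl'
    have hA := arm_bd N k a (c a) a.2 (hc a) _ hm
    have hB := arm_bd N k b (c b) b.2 (hc b) _ hm'
    simp only [shf] at hA hB
    have hk1 := key s s' _ hP
    rcases hk1 with ⟨hs, hk1⟩ | ⟨hs, hk1⟩ | ⟨hs, hk1⟩ | hk1 | hk1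
    · subst hs
      rcases lt_trichotomy a b with hab | hab | hab
      · exact (arm_arm N k a b (c a) (c b) hab b.2 (hc a) (hc b) (hpos a b hab)
          (hsep a b hab.ne) _ _ hm hm' (by simp only [shf]; rw [abs_le]; omega)
          (by simp only [shf]; rw [abs_le]; omega)).elim
      · subst hab; rfl
      · exact (arm_arm N k b a (c b) (c a) hab a.2 (hc b) (hc a) (hpos b a hab)
          (hsep b a hab.ne) _ _ hm' hm (by simp only [shf]; rw [abs_le]; omega)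
          (by simp only [shf]; rw [abs_le]; omega)).elim
    all_goals exfalso; omega
  · -- arm and link
    subst hl hl'
    have hA := arm_bd N k a (c a) a.2 (hc a) _ hm
    have hB := link_pc N k j hj hk _ hm'
    simp only [shf] at hA hB
    have hk1 := key s' s _ hP
    have := arm_link N k a j hN hk a.2 hj (prd N k) (s * prd N k - s' * prd N k) _ _ _ _ hPe hA hB
      (by omega) (by omega) (by omega)
    have ha := a.2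
    have hc1 : (s = s' ∧ (a : ℕ) + j = k - 1) ∨ (s = s' + 1 ∧ (a : ℕ) = j) := by omega
    simp only [labA, labL]
    split_ifs <;> refine Prod.ext ?_ ?_ <;> dsimp only <;> omega
  · -- link and arm
    subst hl hl'
    have hA := arm_bd N k b (c b) b.2 (hc b) _ hm'
    have hB := link_pc N k i hi hk _ hm
    simp only [shf] at hA hB
    have hk1 := key s s' _ hP
    have := arm_link N k b i hN hk b.2 hi (prd N k) (s' * prd N k - s * prd N k) _ _ _ _ hPe hA hB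
      (by omega) (by omega) (by omega)
    have hb := b.2
    have hc1 : (s' = s ∧ (b : ℕ) + i = k - 1) ∨ (s' = s + 1 ∧ (b : ℕ) = i) := by omega
    simp only [labA, labL]
    split_ifs <;> refine Prod.ext ?_ ?_ <;> dsimp only <;> omega
  · -- two links
    subst hl hl'
    have hA := link_pc N k i hi hk _ hm
    have hB := link_pc N k j hj hk _ hm'
    simp only [shf] at hA hB
    have hk1 := key s' s _ hP
    have := link_link N k j i hN hk hj hi (prd N k) (s * prd N k - s' * prd N k) _ _ _ _ hPe hA hB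
      (by omega) (by omega) (by omega)
    have hc1 : (s = s' ∧ j = i) ∨ j + i + 1 = k := by omega
    simp only [labL]
    split_ifs <;> refine Prod.ext ?_ ?_ <;> dsimp only <;> omega

end Pool.Agent.H160R2.MU
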