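import Pool.Agent.H160R2.MU.Defs

/-!
# Task g2: only the cells touch the boxes
-/

set_option autoImplicit false

namespace Pool.Agent.H160R2.MU

namespace Tg2

theorem mul_cases (m P : ℤ) (hP : 0 ≤ P) :
    (m ≤ -1 ∧ m * P ≤ -P) ∨ (m = 0 ∧ m * P = 0) ∨ (m = 1 ∧ m * P = P) ∨
      (2 ≤ m ∧ 2 * P ≤ m * P) := by
  rcases lt_trichotomy m 0 with h | h | h
  · left
    refine ⟨by omega, ?_⟩
    nlinarith
  · right; left
    subst h
    simp
  · rcases eq_or_lt_of_le (show 1 ≤ m by omega) with h1 | h1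
    · right; right; left
      subst h1
      simp
    · right; right; right
      refine ⟨by omega, ?_⟩
      exact mul_le_mul_of_nonneg_right (by omega) hP

end Tg2

open Tg2 in
theorem t_g2 : S_g2 := by
  intro N k c hN hk hc L s z b hz hb h1 h2
  obtain ⟨hc1, hc2, hc3⟩ := hc
  have hP : ((prd N k : ℕ) : ℤ) = 4 * ((N : ℤ) + 4 * k) := by
    unfold prd; push_cast; ring
  simp only [BxS, shf, Set.mem_setOf_eq] at hb
  have ha1 := abs_le.1 h1
  have ha2 := abs_le.1 h2
  have hP0 : (0 : ℤ) ≤ ((prd N k : ℕ) : ℤ) := by omega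
  rcases hz with ⟨a, s', hlab, hz⟩ | ⟨i, s', hi, hlab, hz⟩
  · -- an arm
    have hm := mul_cases (s - s') ((prd N k : ℕ) : ℤ) hP0
    have hsub : (s - s') * ((prd N k : ℕ) : ℤ) = s * ((prd N k : ℕ) : ℤ) - s' * ((prd N k : ℕ) : ℤ) :=
      sub_mul _ _ _
    rw [hsub] at hm
    have hca := hc1 a
    have hak : (a : ℕ) < k := a.2
    simp only [ArmS, shf, Set.mem_setOf_eq, rad] at hz
    have key : s' = s ∧ (z.1 - s * ((prd N k : ℕ) : ℤ), z.2 - s * ((prd N k : ℕ) : ℤ)) =
        csq N (c a) := by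
      generalize hp : s * ((prd N k : ℕ) : ℤ) = p at *
      generalize hq : s' * ((prd N k : ℕ) : ℤ) = q at *
      generalize hPP : ((prd N k : ℕ) : ℤ) = P at *
      rcases hz with ⟨h0, ⟨h3, h4, h5⟩ | ⟨h3, h4, h5⟩⟩ | ⟨h0, h3, h4, h5⟩ | ⟨h0, h3, h4, h5⟩ |
        ⟨h0, h3, h4, h5⟩ | ⟨h0, h3, h4, h5⟩ | ⟨h0, h3, h4, h5⟩ | ⟨h3, h4, h5⟩
      · refine ⟨by omega, ?_⟩
        unfold csq
        rw [if_pos h0]
        ext
        · simp only; omega
        · simp only; omega
      · exfalso; omega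
      · refine ⟨by omega, ?_⟩
        unfold csq
        rw [if_neg (by omega), if_pos h0]
        ext
        · simp only; omega
        · simp only; omega
      · refine ⟨by omega, ?_⟩
        unfold csq
        rw [if_neg (by omega), if_neg (by omega), if_pos h0]
        ext
        · simp only; omega
        · simp only; omega
      · refine ⟨by omega, ?_⟩
        unfold csq
        rw [if_neg (by omega), if_neg (by omega), if_neg (by omega)]
        ext
        · simp only; omega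
        · simp only; omega
      · exfalso; omega
      · exfalso; omega
      · exfalso; omega
    refine ⟨a, ?_, ?_⟩
    · rw [← key.1]; exact hlab
    · unfold shf; exact key.2
  · -- a link
    exfalso
    have hm := mul_cases (s - s') ((prd N k : ℕ) : ℤ) hP0
    have hsub : (s - s') * ((prd N k : ℕ) : ℤ) = s * ((prd N k : ℕ) : ℤ) - s' * ((prd N k : ℕ) : ℤ) :=
      sub_mul _ _ _
    rw [hsub] at hm
    simp only [LinkS, shf, Set.mem_setOf_eq, rad, hgt] at hz
    have hcast : ((k - 1 - i : ℕ) : ℤ) = (k : ℤ) - 1 - i := by omega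
    rw [hcast] at hz
    generalize hp : s * ((prd N k : ℕ) : ℤ) = p at *
    generalize hq : s' * ((prd N k : ℕ) : ℤ) = q at *
    generalize hPP : ((prd N k : ℕ) : ℤ) = P at *
    rcases hz with ⟨h3, h4, h5⟩ | ⟨h3, h4, h5⟩ | ⟨h3, h4, h5⟩ | ⟨h3, h4, h5⟩ | ⟨h3, h4, h5⟩
    · omega
    · omega
    · omega
    · omega
    · omega

end Pool.Agent.H160R2.MU
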