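import Pool.Agent.H160R2.MU.Defs

/-! g3 (helper124): the tubes are connected. -/

set_option autoImplicit false

namespace Pool.Agent.H160R2.MU

open H974 H906.Cyl
open H12S (Dir hbE segD rimE H4 Crs Nr sqE)
open Pool.Agent.H160R2.ML

namespace Tg3

/-! ### fine geometry -/

lemma hmove {F : Set Edg} {x x' y : ℤ} (hx : x ≤ x')
    (h : ∀ t, x ≤ t → t < x' → ((t, y, true) : Edg) ∈ F) : Reach F (x, y) (x', y) := by
  induction x', hx using Int.leInduction with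
  | base => exact Reach.refl _ _
  | succ m hm ih =>
    refine (ih fun t h1 h2 => h t h1 (by omega)).trans (Adj.reach ?_)
    exact ⟨(m, y, true), h m hm (by omega), Or.inl ⟨rfl, rfl⟩⟩

lemma vmove {F : Set Edg} {x y y' : ℤ} (hy : y ≤ y')
    (h : ∀ t, y ≤ t → t < y' → ((x, t, false) : Edg) ∈ F) : Reach F (x, y) (x, y') := by
  induction y', hy using Int.leInduction with
  | base => exact Reach.refl _ _
  | succ m hm ih =>
    refine (ih fun t h1 h2 => h t h1 (by omega)).trans (Adj.reach ?_)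
    exact ⟨(x, m, false), h m hm (by omega), Or.inl ⟨rfl, rfl⟩⟩

lemma rect {F : Set Edg} {a b c d : ℤ} (hF : ∀ e ∈ RE a b c d, e ∈ F) {u v : Vtx}
    (hu : inR a b c d u) (hv : inR a b c d v) : Reach F u v := by
  obtain ⟨x, y⟩ := u
  obtain ⟨x', y'⟩ := v
  obtain ⟨⟨h1, h2⟩, h3, h4⟩ := hu
  obtain ⟨⟨h5, h6⟩, h7, h8⟩ := hv
  simp only at h1 h2 h3 h4 h5 h6 h7 h8
  have e1 : Reach F (x, y) (x', y) := by
    rcases le_total x x' with h | h
    · exact hmove h fun t ht ht' => hF _ (mem_RE_true.2 ⟨by omega, by omega, by omega, by omega⟩)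
    · exact (hmove h fun t ht ht' =>
        hF _ (mem_RE_true.2 ⟨by omega, by omega, by omega, by omega⟩)).symm
  have e2 : Reach F (x', y) (x', y') := by
    rcases le_total y y' with h | h
    · exact vmove h fun t ht ht' => hF _ (mem_RE_false.2 ⟨by omega, by omega, by omega, by omega⟩)
    · exact (vmove h fun t ht ht' =>
        hF _ (mem_RE_false.2 ⟨by omega, by omega, by omega, by omega⟩)).symm
  exact e1.trans e2

lemma sub {F : Set Edg} {a b c d : ℤ} (hF : ∀ e ∈ RE a b c d, e ∈ F) {r : ℕ} {z : ℤ × ℤ}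
    (hs : ∀ u, inSq r z u → ∃ u', inR a b c d u' ∧ Reach F u u') {u v : Vtx}
    (hu : inSq r z u) (hv : inSq r z v) : Reach F u v := by
  obtain ⟨u', h1, h2⟩ := hs u hu
  obtain ⟨v', h3, h4⟩ := hs v hv
  exact (h2.trans (rect hF h1 h3)).trans h4.symm

lemma mem_sq {r : ℕ} {z : ℤ × ℤ} {e : Edg} (he : e ∈ sqE r z) :
    inSq r z (src e) ∧ inSq r z (tgt e) := by
  obtain ⟨x, y, b⟩ := e
  unfold sqE at he
  cases b with
  | true =>
    rw [mem_RE_true] at he
    obtain ⟨h1, h2, h3, h4⟩ := he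
    refine ⟨⟨h1, by show x ≤ _; omega, h3, h4⟩, ⟨?_, ?_, h3, h4⟩⟩
    · show _ ≤ x + 1; omega
    · show x + 1 ≤ _; omega
  | false =>
    rw [mem_RE_false] at he
    obtain ⟨h1, h2, h3, h4⟩ := he
    refine ⟨⟨h1, h2, h3, by show y ≤ _; omega⟩, ⟨h1, h2, ?_, ?_⟩⟩
    · show _ ≤ y + 1; omega
    · show y + 1 ≤ _; omega

lemma full {F : Set Edg} {r : ℕ} {z : ℤ × ℤ} (hF : ∀ e ∈ sqE r z, e ∈ F) {u v : Vtx}
    (hu : inSq r z u) (hv : inSq r z v) : Reach F u v :=
  rect (F := F) hF ⟨⟨hu.1, hu.2.1⟩, hu.2.2⟩ ⟨⟨hv.1, hv.2.1⟩, hv.2.2⟩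

/-- the lower side is missing -/
lemma bottom {F : Set Edg} {r : ℕ} (hr : 1 ≤ r) {z : ℤ × ℤ}
    (hF : ∀ e ∈ sqE r z, ¬ ((src e).2 = r * z.2 ∧ (tgt e).2 = r * z.2) → e ∈ F) {u v : Vtx}
    (hu : inSq r z u) (hv : inSq r z v) : Reach F u v := by
  refine sub (F := F) (a := r * z.1) (b := r * z.1 + r) (c := r * z.2 + 1) (d := r * z.2 + r)
    ?_ ?_ hu hv
  · rintro ⟨x, y, b⟩ he
    cases b with
    | true =>
      rw [mem_RE_true] at he
      refine hF _ (mem_RE_true.2 ⟨he.1, he.2.1, by omega, he.2.2.2⟩) fun h => ?_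
      have h1 : y = r * z.2 := h.1
      omega
    | false =>
      rw [mem_RE_false] at he
      refine hF _ (mem_RE_false.2 ⟨he.1, he.2.1, by omega, he.2.2.2⟩) fun h => ?_
      have h1 : y = r * z.2 := h.1
      omega
  · rintro ⟨x, y⟩ ⟨h1, h2, h3, h4⟩
    simp only at h1 h2 h3 h4
    rcases h3.eq_or_lt with h | h
    · refine ⟨(x, y + 1), ⟨⟨h1, h2⟩, ?_, ?_⟩, Adj.reach ⟨(x, y, false), ?_, Or.inl ⟨rfl, rfl⟩⟩⟩
      · show _ ≤ y + 1; omega
      · show y + 1 ≤ _; omega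
      · refine hF _ (mem_RE_false.2 ⟨h1, h2, h3, by omega⟩) fun h5 => ?_
        have h6 : y + 1 = r * z.2 := h5.2
        omega
    · exact ⟨(x, y), ⟨⟨h1, h2⟩, by show _ ≤ y; omega, h4⟩, Reach.refl _ _⟩

/-- the upper side is missing -/
lemma top {F : Set Edg} {r : ℕ} (hr : 1 ≤ r) {z : ℤ × ℤ}
    (hF : ∀ e ∈ sqE r z, ¬ ((src e).2 = r * z.2 + r ∧ (tgt e).2 = r * z.2 + r) → e ∈ F) {u v : Vtx}
    (hu : inSq r z u) (hv : inSq r z v) : Reach F u v := by
  refine sub (F := F) (a := r * z.1) (b := r * z.1 + r) (c := r * z.2) (d := r * z.2 + r - 1)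
    ?_ ?_ hu hv
  · rintro ⟨x, y, b⟩ he
    cases b with
    | true =>
      rw [mem_RE_true] at he
      refine hF _ (mem_RE_true.2 ⟨he.1, he.2.1, by omega, by omega⟩) fun h => ?_
      have h1 : y = r * z.2 + r := h.1
      omega
    | false =>
      rw [mem_RE_false] at he
      refine hF _ (mem_RE_false.2 ⟨he.1, he.2.1, by omega, by omega⟩) fun h => ?_
      have h1 : y = r * z.2 + r := h.1
      omega
  · rintro ⟨x, y⟩ ⟨h1, h2, h3, h4⟩
    simp only at h1 h2 h3 h4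
    rcases h4.eq_or_lt with h | h
    · refine ⟨(x, y - 1), ⟨⟨h1, h2⟩, ?_, ?_⟩,
        Adj.reach ⟨(x, y - 1, false), ?_, Or.inr ⟨rfl, ?_⟩⟩⟩
      · show _ ≤ y - 1; omega
      · show y - 1 ≤ _; omega
      · refine hF _ (mem_RE_false.2 ⟨h1, h2, by omega, by omega⟩) fun h5 => ?_
        have h6 : y - 1 = r * z.2 + r := h5.1
        omega
      · show (x, y - 1 + 1) = (x, y)
        rw [sub_add_cancel]
    · exact ⟨(x, y), ⟨⟨h1, h2⟩, h3, by show y ≤ _; omega⟩, Reach.refl _ _⟩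

/-- the left side is missing -/
lemma left {F : Set Edg} {r : ℕ} (hr : 1 ≤ r) {z : ℤ × ℤ}
    (hF : ∀ e ∈ sqE r z, ¬ ((src e).1 = r * z.1 ∧ (tgt e).1 = r * z.1) → e ∈ F) {u v : Vtx}
    (hu : inSq r z u) (hv : inSq r z v) : Reach F u v := by
  refine sub (F := F) (a := r * z.1 + 1) (b := r * z.1 + r) (c := r * z.2) (d := r * z.2 + r)
    ?_ ?_ hu hv
  · rintro ⟨x, y, b⟩ he
    cases b with
    | true =>
      rw [mem_RE_true] at he
      refine hF _ (mem_RE_true.2 ⟨by omega, he.2.1, he.2.2⟩) fun h => ?_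
      have h1 : x = r * z.1 := h.1
      omega
    | false =>
      rw [mem_RE_false] at he
      refine hF _ (mem_RE_false.2 ⟨by omega, he.2.1, he.2.2⟩) fun h => ?_
      have h1 : x = r * z.1 := h.1
      omega
  · rintro ⟨x, y⟩ ⟨h1, h2, h3, h4⟩
    simp only at h1 h2 h3 h4
    rcases h1.eq_or_lt with h | h
    · refine ⟨(x + 1, y), ⟨⟨?_, ?_⟩, h3, h4⟩, Adj.reach ⟨(x, y, true), ?_, Or.inl ⟨rfl, rfl⟩⟩⟩
      · show _ ≤ x + 1; omega
      · show x + 1 ≤ _; omega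
      · refine hF _ (mem_RE_true.2 ⟨h1, by omega, h3, h4⟩) fun h5 => ?_
        have h6 : x + 1 = r * z.1 := h5.2
        omega
    · exact ⟨(x, y), ⟨⟨by show _ ≤ x; omega, h2⟩, h3, h4⟩, Reach.refl _ _⟩

/-- the right side is missing -/
lemma right {F : Set Edg} {r : ℕ} (hr : 1 ≤ r) {z : ℤ × ℤ}
    (hF : ∀ e ∈ sqE r z, ¬ ((src e).1 = r * z.1 + r ∧ (tgt e).1 = r * z.1 + r) → e ∈ F) {u v : Vtx}
    (hu : inSq r z u) (hv : inSq r z v) : Reach F u v := by
  refine sub (F := F) (a := r * z.1) (b := r * z.1 + r - 1) (c := r * z.2) (d := r * z.2 + r)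
    ?_ ?_ hu hv
  · rintro ⟨x, y, b⟩ he
    cases b with
    | true =>
      rw [mem_RE_true] at he
      refine hF _ (mem_RE_true.2 ⟨by omega, by omega, he.2.2⟩) fun h => ?_
      have h1 : x = r * z.1 + r := h.1
      omega
    | false =>
      rw [mem_RE_false] at he
      refine hF _ (mem_RE_false.2 ⟨by omega, by omega, he.2.2⟩) fun h => ?_
      have h1 : x = r * z.1 + r := h.1
      omega
  · rintro ⟨x, y⟩ ⟨h1, h2, h3, h4⟩
    simp only at h1 h2 h3 h4
    rcases h2.eq_or_lt with h | h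
    · refine ⟨(x - 1, y), ⟨⟨?_, ?_⟩, h3, h4⟩,
        Adj.reach ⟨(x - 1, y, true), ?_, Or.inr ⟨rfl, ?_⟩⟩⟩
      · show _ ≤ x - 1; omega
      · show x - 1 ≤ _; omega
      · refine hF _ (mem_RE_true.2 ⟨by omega, by omega, h3, h4⟩) fun h5 => ?_
        have h6 : x - 1 = r * z.1 + r := h5.1
        omega
      · show (x - 1 + 1, y) = (x, y)
        rw [sub_add_cancel]
    · exact ⟨(x, y), ⟨⟨h1, by show x ≤ _; omega⟩, h3, h4⟩, Reach.refl _ _⟩

/-- closed squares with a common vertex are neighbours -/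
lemma close1 {r : ℕ} (hr : 1 ≤ r) {a b v : ℤ} (h1 : r * a ≤ v) (h2 : v ≤ r * b + r) : a ≤ b + 1 := by
  by_contra h
  have h3 : b + 2 ≤ a := by omega
  have hr' : (1 : ℤ) ≤ r := by exact_mod_cast hr
  nlinarith [mul_le_mul_of_nonneg_left h3 (by omega : (0 : ℤ) ≤ r)]

lemma close {r : ℕ} (hr : 1 ≤ r) {z b : ℤ × ℤ} {v : Vtx} (h1 : inSq r z v) (h2 : inSq r b v) :
    |z.1 - b.1| ≤ 1 ∧ |z.2 - b.2| ≤ 1 := by
  have a1 := close1 hr h1.1 h2.2.1
  have a2 := close1 hr h2.1 h1.2.1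
  have a3 := close1 hr h1.2.2.1 h2.2.2.2
  have a4 := close1 hr h2.2.2.1 h1.2.2.2
  rw [abs_le, abs_le]
  omega

/-! ### coarse chains -/

def adj (P : Set (ℤ × ℤ)) (a b : ℤ × ℤ) : Prop := a ∈ P ∧ b ∈ P ∧ |a.1 - b.1| ≤ 1 ∧ |a.2 - b.2| ≤ 1

def K (P : Set (ℤ × ℤ)) : ℤ × ℤ → ℤ × ℤ → Prop := Relation.ReflTransGen (adj P)

lemma adj.symm {P : Set (ℤ × ℤ)} {a b : ℤ × ℤ} (h : adj P a b) : adj P b a :=
  ⟨h.2.1, h.1, by rw [abs_sub_comm]; exact h.2.2.1, by rw [abs_sub_comm]; exact h.2.2.2⟩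

lemma K.refl (P : Set (ℤ × ℤ)) (a : ℤ × ℤ) : K P a a := Relation.ReflTransGen.refl

lemma K.symm {P : Set (ℤ × ℤ)} {a b : ℤ × ℤ} (h : K P a b) : K P b a := by
  induction h with
  | refl => exact Relation.ReflTransGen.refl
  | tail _ hs ih => exact Relation.ReflTransGen.head hs.symm ih

lemma K.trans {P : Set (ℤ × ℤ)} {a b c : ℤ × ℤ} (h : K P a b) (h' : K P b c) : K P a c :=
  Relation.ReflTransGen.trans h h'

lemma Kh {P : Set (ℤ × ℤ)} {x x' y : ℤ} (hx : x ≤ x') (h : ∀ t, x ≤ t → t ≤ x' → (t, y) ∈ P) :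
    K P (x, y) (x', y) := by
  induction x', hx using Int.leInduction with
  | base => exact K.refl _ _
  | succ m hm ih =>
    refine (ih fun t h1 h2 => h t h1 (by omega)).trans (Relation.ReflTransGen.single ?_)
    refine ⟨h m hm (by omega), h (m + 1) (by omega) le_rfl, ?_, ?_⟩
    · show |m - (m + 1)| ≤ 1
      rw [abs_le]; omega
    · show |y - y| ≤ 1
      simp

lemma Kv {P : Set (ℤ × ℤ)} {x y y' : ℤ} (hy : y ≤ y') (h : ∀ t, y ≤ t → t ≤ y' → (x, t) ∈ P) :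
    K P (x, y) (x, y') := by
  induction y', hy using Int.leInduction with
  | base => exact K.refl _ _
  | succ m hm ih =>
    refine (ih fun t h1 h2 => h t h1 (by omega)).trans (Relation.ReflTransGen.single ?_)
    refine ⟨h m hm (by omega), h (m + 1) (by omega) le_rfl, ?_, ?_⟩
    · show |x - x| ≤ 1
      simp
    · show |m - (m + 1)| ≤ 1
      rw [abs_le]; omega

/-- from coarse chains to paths -/
lemma K.reach {T : Set (ℤ × ℤ)} {F : Set Edg} {r : ℕ}
    (hin : ∀ z ∈ T, ∀ u v, inSq r z u → inSq r z v → Reach F u v) {z z' : ℤ × ℤ} (h : K T z z')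
    (hz : z ∈ T) : ∀ u v, inSq r z u → inSq r z' v → Reach F u v := by
  induction h with
  | refl => exact hin z hz
  | @tail y w _ hs ih =>
    intro u v hu hv
    obtain ⟨hy, hw, h1, h2⟩ := hs
    rw [abs_le] at h1 h2
    have hr0 : (0 : ℤ) ≤ r := by positivity
    have m1 : r * max y.1 w.1 = max (r * y.1) (r * w.1) := by
      rw [mul_max_of_nonneg _ _ hr0]
    have m2 : r * max y.2 w.2 = max (r * y.2) (r * w.2) := by
      rw [mul_max_of_nonneg _ _ hr0]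
    have g1 : r * w.1 ≤ r * y.1 + r := by nlinarith
    have g2 : r * y.1 ≤ r * w.1 + r := by nlinarith
    have g3 : r * w.2 ≤ r * y.2 + r := by nlinarith
    have g4 : r * y.2 ≤ r * w.2 + r := by nlinarith
    have c1 : inSq r y (r * max y.1 w.1, r * max y.2 w.2) := by
      refine ⟨?_, ?_, ?_, ?_⟩
      · show r * y.1 ≤ r * max y.1 w.1
        rw [m1]; exact le_max_left _ _
      · show r * max y.1 w.1 ≤ _
        rw [m1]; exact max_le (by omega) g1
      · show r * y.2 ≤ r * max y.2 w.2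
        rw [m2]; exact le_max_left _ _
      · show r * max y.2 w.2 ≤ _
        rw [m2]; exact max_le (by omega) g3
    have c2 : inSq r w (r * max y.1 w.1, r * max y.2 w.2) := by
      refine ⟨?_, ?_, ?_, ?_⟩
      · show r * w.1 ≤ r * max y.1 w.1
        rw [m1]; exact le_max_right _ _
      · show r * max y.1 w.1 ≤ _
        rw [m1]; exact max_le g2 (by omega)
      · show r * w.2 ≤ r * max y.2 w.2
        rw [m2]; exact le_max_right _ _
      · show r * max y.2 w.2 ≤ _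
        rw [m2]; exact max_le g4 (by omega)
    exact (ih u _ hu c1).trans (hin w hw _ _ c2 hv)

/-! ### arms and links -/

lemma arm {N k a : ℕ} (ha : a < k) {c : Cel} (hc : c.1 < 4 ∧ -(N : ℤ) ≤ c.2 ∧ c.2 < N)
    {z : ℤ × ℤ} (hz : z ∈ ArmS N k a c) : K (ArmS N k a c) z (-rad N k a - 1, hgt N k) := by
  obtain ⟨x, y⟩ := z
  obtain ⟨c1, c2⟩ := c
  obtain ⟨hc1, hc2, hc3⟩ := hc
  simp only at hc1 hc2 hc3
  have hR1 : (N : ℤ) + 1 ≤ rad N k a := by unfold rad; omega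
  have hR2 : rad N k a ≤ hgt N k := by unfold rad hgt; omega
  set R := rad N k a with hR
  set Hh := hgt N k with hHh
  -- membership
  have m7 : ∀ t, (if c1 ≤ 2 then -R - 1 else c2) ≤ t → t ≤ Hh →
      ((-R - 1, t) : ℤ × ℤ) ∈ ArmS N k a (c1, c2) := fun t h1 h2 =>
    Or.inr (Or.inr (Or.inr (Or.inr (Or.inr (Or.inr ⟨rfl, h1, h2⟩)))))
  have m6 : c1 ≤ 2 → ∀ t, -R - 1 ≤ t → t ≤ (if c1 ≤ 1 then R else c2) →
      ((t, -R - 1) : ℤ × ℤ) ∈ ArmS N k a (c1, c2) := fun h t h1 h2 =>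
    Or.inr (Or.inr (Or.inr (Or.inr (Or.inr (Or.inl ⟨h, rfl, h1, h2⟩)))))
  have m5 : c1 ≤ 1 → ∀ t, -R - 1 ≤ t → t ≤ (if c1 = 0 then R else c2) →
      ((R, t) : ℤ × ℤ) ∈ ArmS N k a (c1, c2) := fun h t h1 h2 =>
    Or.inr (Or.inr (Or.inr (Or.inr (Or.inl ⟨h, rfl, h1, h2⟩))))
  have m4 : c1 = 3 → ∀ t, -R - 1 ≤ t → t ≤ -N - 1 →
      ((t, c2) : ℤ × ℤ) ∈ ArmS N k a (c1, c2) := fun h t h1 h2 =>
    Or.inr (Or.inr (Or.inr (Or.inl ⟨h, rfl, h1, h2⟩)))
  have m3 : c1 = 2 → ∀ t, -R - 1 ≤ t → t ≤ -N - 1 →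
      ((c2, t) : ℤ × ℤ) ∈ ArmS N k a (c1, c2) := fun h t h1 h2 =>
    Or.inr (Or.inr (Or.inl ⟨h, rfl, h1, h2⟩))
  have m2 : c1 = 1 → ∀ t : ℤ, (N : ℤ) ≤ t → t ≤ R → ((t, c2) : ℤ × ℤ) ∈ ArmS N k a (c1, c2) :=
    fun h t h1 h2 => Or.inr (Or.inl ⟨h, rfl, h1, h2⟩)
  have m1 : c1 = 0 → ∀ t : ℤ, (N : ℤ) ≤ t → t ≤ R → ((c2, t) : ℤ × ℤ) ∈ ArmS N k a (c1, c2) :=
    fun h t h1 h2 => Or.inl ⟨h, Or.inl ⟨rfl, h1, h2⟩⟩
  have m0 : c1 = 0 → ∀ t, c2 ≤ t → t ≤ R → ((t, R) : ℤ × ℤ) ∈ ArmS N k a (c1, c2) :=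
    fun h t h1 h2 => Or.inl ⟨h, Or.inr ⟨rfl, h1, h2⟩⟩
  -- chains
  have e7 : ∀ t, (if c1 ≤ 2 then -R - 1 else c2) ≤ t → t ≤ Hh →
      K (ArmS N k a (c1, c2)) (-R - 1, t) (-R - 1, Hh) := fun t h1 h2 =>
    Kv h2 fun t' h3 h4 => m7 t' (h1.trans h3) h4
  have e6 : c1 ≤ 2 → ∀ t, -R - 1 ≤ t → t ≤ (if c1 ≤ 1 then R else c2) →
      K (ArmS N k a (c1, c2)) (t, -R - 1) (-R - 1, Hh) := fun h t h1 h2 =>
    ((Kh h1 fun t' h3 h4 => m6 h t' h3 (h4.trans h2)).symm).trans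
      (e7 _ (by rw [if_pos h]) (by omega))
  have e5 : c1 ≤ 1 → ∀ t, -R - 1 ≤ t → t ≤ (if c1 = 0 then R else c2) →
      K (ArmS N k a (c1, c2)) (R, t) (-R - 1, Hh) := fun h t h1 h2 =>
    ((Kv h1 fun t' h3 h4 => m5 h t' h3 (h4.trans h2)).symm).trans
      (e6 (by omega) _ (by omega) (by rw [if_pos h]))
  rcases hz with ⟨h, ⟨h1, h2, h3⟩ | ⟨h1, h2, h3⟩⟩ | ⟨h, h1, h2, h3⟩ | ⟨h, h1, h2, h3⟩ |
    ⟨h, h1, h2, h3⟩ | ⟨h, h1, h2, h3⟩ | ⟨h, h1, h2, h3⟩ | ⟨h1, h2, h3⟩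
  · simp only at h h1 h2 h3
    subst h1
    refine (Kv h3 fun t' h4 h5 => m1 h t' (h2.trans h4) h5).trans ?_
    refine (Kh (x' := R) (by omega) fun t' h4 h5 => m0 h t' h4 h5).trans ?_
    exact e5 (by omega) _ (by omega) (by rw [if_pos h])
  · simp only at h h1 h2 h3
    subst h1
    refine (Kh h3 fun t' h4 h5 => m0 h t' (h2.trans h4) h5).trans ?_
    exact e5 (by omega) _ (by omega) (by rw [if_pos h])
  · simp only at h h1 h2 h3
    subst h1
    refine (Kh h3 fun t' h4 h5 => m2 h t' (h2.trans h4) h5).trans ?_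
    exact e5 (by omega) _ (by omega) (by rw [if_neg (by omega)])
  · simp only at h h1 h2 h3
    subst h1
    refine ((Kv h2 fun t' h4 h5 => m3 h t' h4 (h5.trans h3)).symm).trans ?_
    exact e6 (by omega) _ (by omega) (by rw [if_neg (by omega)])
  · simp only at h h1 h2 h3
    subst h1
    refine ((Kh h2 fun t' h4 h5 => m4 h t' h4 (h5.trans h3)).symm).trans ?_
    exact e7 _ (by rw [if_neg (by omega)]) (by omega)
  · simp only at h h1 h2 h3
    subst h1
    exact e5 h _ h2 h3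
  · simp only at h h1 h2 h3
    subst h1
    exact e6 h _ h2 h3
  · simp only at h1 h2 h3
    subst h1
    exact e7 _ h2 h3

lemma link {N k i : ℕ} (hi : 2 * i ≤ k - 1) (hk : 2 ≤ k) :
    (∀ z ∈ LinkS N k i, K (LinkS N k i) z (-rad N k (k - 1 - i) - 1, hgt N k)) ∧
    K (LinkS N k i) (-rad N k (k - 1 - i) - 1, hgt N k)
      (prd N k - rad N k i - 1, prd N k + hgt N k) := by
  set p : ℤ := -rad N k (k - 1 - i) - 1 with hp
  set m : ℤ := 2 * ((i : ℤ) + 1) with hm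
  set q : ℤ := prd N k - rad N k 0 - 1 - m with hq
  set t : ℤ := prd N k - rad N k i - 1 with ht
  set Hh := hgt N k with hHh
  set Q : ℤ := ((prd N k : ℕ) : ℤ) with hQ
  have hk1 : ((k - 1 - i : ℕ) : ℤ) = (k : ℤ) - 1 - i := by omega
  have hQ2 : Q = 4 * (N + 4 * k) := by rw [hQ]; unfold prd; push_cast; ring
  have hpq : p ≤ q := by
    rw [hp, hq, hQ2, hm]; unfold rad; rw [hk1]; push_cast; omega
  have hqt : q ≤ t := by
    rw [hq, ht, hm]; unfold rad; push_cast; omega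
  have hm0 : 0 ≤ m := by omega
  have hQ0 : 0 ≤ Q := by rw [hQ2]; positivity
  have mA : ∀ y, Hh ≤ y → y ≤ Hh + m → ((p, y) : ℤ × ℤ) ∈ LinkS N k i := fun y h1 h2 =>
    Or.inl ⟨rfl, h1, h2⟩
  have mB : ∀ x, p ≤ x → x ≤ q → ((x, Hh + m) : ℤ × ℤ) ∈ LinkS N k i := fun x h1 h2 =>
    Or.inr (Or.inl ⟨rfl, h1, h2⟩)
  have mC : ∀ y, Hh + m ≤ y → y ≤ Q + Hh + m → ((q, y) : ℤ × ℤ) ∈ LinkS N k i := fun y h1 h2 =>
    Or.inr (Or.inr (Or.inl ⟨rfl, h1, h2⟩))
  have mD : ∀ x, q ≤ x → x ≤ t → ((x, Q + Hh + m) : ℤ × ℤ) ∈ LinkS N k i := fun x h1 h2 =>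
    Or.inr (Or.inr (Or.inr (Or.inl ⟨rfl, h1, h2⟩)))
  have mE : ∀ y, Q + Hh ≤ y → y ≤ Q + Hh + m → ((t, y) : ℤ × ℤ) ∈ LinkS N k i := fun y h1 h2 =>
    Or.inr (Or.inr (Or.inr (Or.inr ⟨rfl, h1, h2⟩)))
  have eA : ∀ y, Hh ≤ y → y ≤ Hh + m → K (LinkS N k i) (p, y) (p, Hh) := fun y h1 h2 =>
    (Kv h1 fun y' h3 h4 => mA y' h3 (h4.trans h2)).symm
  have eB : ∀ x, p ≤ x → x ≤ q → K (LinkS N k i) (x, Hh + m) (p, Hh) := fun x h1 h2 =>
    ((Kh h1 fun x' h3 h4 => mB x' h3 (h4.trans h2)).symm).trans (eA _ (by omega) le_rfl)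
  have eC : ∀ y, Hh + m ≤ y → y ≤ Q + Hh + m → K (LinkS N k i) (q, y) (p, Hh) := fun y h1 h2 =>
    ((Kv h1 fun y' h3 h4 => mC y' h3 (h4.trans h2)).symm).trans (eB _ hpq le_rfl)
  have eD : ∀ x, q ≤ x → x ≤ t → K (LinkS N k i) (x, Q + Hh + m) (p, Hh) := fun x h1 h2 =>
    ((Kh h1 fun x' h3 h4 => mD x' h3 (h4.trans h2)).symm).trans (eC _ (by omega) le_rfl)
  have eE : ∀ y, Q + Hh ≤ y → y ≤ Q + Hh + m → K (LinkS N k i) (t, y) (p, Hh) := fun y h1 h2 =>
    (Kv h2 fun y' h3 h4 => mE y' (h1.trans h3) h4).trans (eD _ hqt le_rfl)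
  refine ⟨?_, (eE _ le_rfl (by omega)).symm⟩
  rintro ⟨x, y⟩ (⟨h1, h2, h3⟩ | ⟨h1, h2, h3⟩ | ⟨h1, h2, h3⟩ | ⟨h1, h2, h3⟩ | ⟨h1, h2, h3⟩)
  · simp only at h1 h2 h3
    subst h1
    exact eA _ h2 h3
  · simp only at h1 h2 h3
    subst h1
    exact eB _ h2 h3
  · simp only at h1 h2 h3
    subst h1
    exact eC _ h2 h3
  · simp only at h1 h2 h3
    subst h1
    exact eD _ h2 h3
  · simp only at h1 h2 h3
    subst h1
    exact eE _ h2 h3

/-! ### tubes -/

/-- translation back -/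
def bk (N k : ℕ) (s : ℤ) (z : ℤ × ℤ) : ℤ × ℤ := (z.1 + s * prd N k, z.2 + s * prd N k)

lemma shf_bk (N k : ℕ) (s : ℤ) (z : ℤ × ℤ) : shf N k s (bk N k s z) = z := by
  unfold shf bk; simp

lemma bk_shf (N k : ℕ) (s : ℤ) (z : ℤ × ℤ) : bk N k s (shf N k s z) = z := by
  unfold shf bk; simp

lemma lift {N k : ℕ} {s : ℤ} {P T : Set (ℤ × ℤ)} (h : ∀ z ∈ P, bk N k s z ∈ T) {a b : ℤ × ℤ}
    (hab : K P a b) : K T (bk N k s a) (bk N k s b) := by
  induction hab with
  | refl => exact K.refl _ _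
  | @tail x y _ hxy ih =>
  obtain ⟨h1, h2, h3, h4⟩ := hxy
  refine ih.trans (Relation.ReflTransGen.single ?_)
  refine ⟨h x h1, h y h2, ?_, ?_⟩
  · show |x.1 + s * prd N k - (y.1 + s * prd N k)| ≤ 1
    rwa [add_sub_add_right_eq_sub]
  · show |x.2 + s * prd N k - (y.2 + s * prd N k)| ≤ 1
    rwa [add_sub_add_right_eq_sub]

/-- the end of the arm `a` of the box `s` -/
def En (N k a : ℕ) (s : ℤ) : ℤ × ℤ := bk N k s (-rad N k a - 1, hgt N k)

lemma arm_tube {N k : ℕ} {c : Fin k → Cel} (hA : Adm N k c) {L : ℕ × ℤ} {a : Fin k} {s : ℤ}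
    (hL : labA k a s = L) {z : ℤ × ℤ} (hz : shf N k s z ∈ ArmS N k a (c a)) :
    K (Tube N k c L) z (En N k a s) := by
  have h1 := arm a.2 (hA.1 a) hz
  have h2 := lift (N := N) (k := k) (s := s) (T := Tube N k c L) (fun w hw =>
    Or.inl ⟨a, s, hL, by rw [shf_bk]; exact hw⟩) h1
  rwa [bk_shf] at h2

lemma link_tube {N k : ℕ} {c : Fin k → Cel} (hk : 2 ≤ k) {L : ℕ × ℤ} {i : ℕ} {s : ℤ}
    (hi : 2 * i ≤ k - 1) (hL : labL k i s = L) :
    (∀ z, shf N k s z ∈ LinkS N k i → K (Tube N k c L) z (En N k (k - 1 - i) s)) ∧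
      K (Tube N k c L) (En N k (k - 1 - i) s) (En N k i (s + 1)) := by
  have hsub : ∀ w ∈ LinkS N k i, bk N k s w ∈ Tube N k c L := fun w hw =>
    Or.inr ⟨i, s, hi, hL, by rw [shf_bk]; exact hw⟩
  obtain ⟨h1, h2⟩ := link (N := N) hi hk
  refine ⟨?_, ?_⟩
  · intro z hz
    have h3 := lift hsub (h1 _ hz)
    rwa [bk_shf] at h3
  · have h3 := lift hsub h2
    have h4 : bk N k s ((prd N k : ℤ) - rad N k i - 1, (prd N k : ℤ) + hgt N k) =
        En N k i (s + 1) := by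
      unfold En bk
      ext
      · show (prd N k : ℤ) - rad N k i - 1 + s * prd N k =
          -rad N k i - 1 + (s + 1) * prd N k
        ring
      · show (prd N k : ℤ) + hgt N k + s * prd N k = hgt N k + (s + 1) * prd N k
        ring
    rw [h4] at h3
    exact h3

/-- a tube is a chain -/
lemma tube {N k : ℕ} {c : Fin k → Cel} (hk : 2 ≤ k) (hA : Adm N k c) (L : ℕ × ℤ) :
    ∃ E : ℤ × ℤ, ∀ z ∈ Tube N k c L, K (Tube N k c L) z E := by
  obtain ⟨i, s0⟩ := L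
  rcases lt_trichotomy (2 * i) (k - 1) with h | h | h
  · -- two arms and a link
    have hlab : labL k i s0 = (i, s0) := by unfold labL; rw [if_neg (by omega)]
    obtain ⟨l1, l2⟩ := link_tube (N := N) (c := c) hk (i := i) (s := s0) (by omega) hlab
    refine ⟨En N k (k - 1 - i) s0, ?_⟩
    rintro z (⟨a, s, hL, hz⟩ | ⟨j, s, hj, hL, hz⟩)
    · have h1 := arm_tube hA hL hz
      unfold labA at hL
      split_ifs at hL with h3 h4
      · have h5 : k - 1 - (a : ℕ) = i := congrArg Prod.fst hL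
        have h6 : s = s0 := congrArg Prod.snd hL
        have h7 : (a : ℕ) = k - 1 - i := by omega
        rw [h6, h7] at h1
        exact h1
      · have h5 : (a : ℕ) = i := congrArg Prod.fst hL
        have h6 : s - 1 = s0 := congrArg Prod.snd hL
        have h7 : s = s0 + 1 := by omega
        rw [h7, h5] at h1
        exact h1.trans l2.symm
      · have h5 : (a : ℕ) = i := congrArg Prod.fst hL
        omega
    · unfold labL at hL
      split_ifs at hL with h3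
      · have h5 : j = i := congrArg Prod.fst hL
        omega
      · have h5 : j = i := congrArg Prod.fst hL
        have h6 : s = s0 := congrArg Prod.snd hL
        subst h5 h6
        exact l1 z hz
  · -- the middle tube
    have hki : k - 1 - i = i := by omega
    have hall : s0 = 0 → ∀ s : ℤ, K (Tube N k c (i, s0)) (En N k i s) (En N k i (s + 1)) := by
      intro h0 s
      have hlab : labL k i s = (i, s0) := by unfold labL; rw [if_pos h, h0]
      have := (link_tube (N := N) (c := c) hk (i := i) (s := s) (by omega) hlab).2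
      rwa [hki] at this
    have hall2 : s0 = 0 → ∀ s : ℤ, K (Tube N k c (i, s0)) (En N k i s) (En N k i 0) := by
      intro h0 s
      induction s using Int.induction_on with
      | zero => exact K.refl _ _
      | succ n ih => exact (hall h0 n).symm.trans ih
      | pred n ih =>
        have := hall h0 (-(n : ℤ) - 1)
        rw [sub_add_cancel] at this
        exact this.trans ih
    refine ⟨En N k i 0, ?_⟩
    rintro z (⟨a, s, hL, hz⟩ | ⟨j, s, hj, hL, hz⟩)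
    · have h1 := arm_tube hA hL hz
      unfold labA at hL
      split_ifs at hL with h3 h4
      · have h5 : k - 1 - (a : ℕ) = i := congrArg Prod.fst hL
        omega
      · have h5 : (a : ℕ) = i := congrArg Prod.fst hL
        omega
      · have h5 : (a : ℕ) = i := congrArg Prod.fst hL
        have h6 : (0 : ℤ) = s0 := congrArg Prod.snd hL
        rw [h5] at h1
        exact h1.trans (hall2 h6.symm s)
    · have hL' := hL
      unfold labL at hL
      split_ifs at hL with h3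
      · have h5 : j = i := congrArg Prod.fst hL
        have h6 : (0 : ℤ) = s0 := congrArg Prod.snd hL
        subst h5
        have h7 := (link_tube (N := N) (c := c) hk (i := j) (s := s) (by omega) hL').1 z hz
        rw [hki] at h7
        exact h7.trans (hall2 h6.symm s)
      · have h5 : j = i := congrArg Prod.fst hL
        omega
  · refine ⟨0, ?_⟩
    rintro z (⟨a, s, hL, hz⟩ | ⟨j, s, hj, hL, hz⟩)
    · exfalso
      have ha := a.2
      unfold labA at hL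
      split_ifs at hL with h3 h4
      · have h5 : k - 1 - (a : ℕ) = i := congrArg Prod.fst hL
        omega
      · have h5 : (a : ℕ) = i := congrArg Prod.fst hL
        omega
      · have h5 : (a : ℕ) = i := congrArg Prod.fst hL
        omega
    · exfalso
      have h5 : j = i := by
        unfold labL at hL
        split_ifs at hL with h3
        · exact congrArg Prod.fst hL
        · exact congrArg Prod.fst hL
      omega

lemma csq_arm {N k : ℕ} {a : ℕ} (ha : a < k) {c : Cel}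
    (hc : c.1 < 4 ∧ -(N : ℤ) ≤ c.2 ∧ c.2 < N) : csq N c ∈ ArmS N k a c := by
  obtain ⟨c1, c2⟩ := c
  obtain ⟨hc1, hc2, hc3⟩ := hc
  simp only at hc1 hc2 hc3
  have hR1 : (N : ℤ) + 1 ≤ rad N k a := by unfold rad; omega
  unfold csq
  simp only
  split_ifs with h0 h1 h2
  · exact Or.inl ⟨h0, Or.inl ⟨rfl, le_refl (N : ℤ), by show (N : ℤ) ≤ _; omega⟩⟩
  · exact Or.inr (Or.inl ⟨h1, rfl, le_refl (N : ℤ), by show (N : ℤ) ≤ _; omega⟩)
  · refine Or.inr (Or.inr (Or.inl ⟨h2, rfl, ?_, le_refl _⟩))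
    show _ ≤ -(N : ℤ) - 1
    omega
  · refine Or.inr (Or.inr (Or.inr (Or.inl ⟨by show c1 = 3; omega, rfl, ?_, le_refl _⟩)))
    show _ ≤ -(N : ℤ) - 1
    omega

/-- the squares of a tube are connected inside -/
lemma inner (h2 : S_g2) {N k : ℕ} {c : Fin k → Cel} (hN : 1 ≤ N) (hk : 2 ≤ k) (hA : Adm N k c)
    {r : ℕ} (hr : 1 ≤ r) {L : ℕ × ℤ} {z : ℤ × ℤ} (hz : z ∈ Tube N k c L) {u v : Vtx}
    (hu : inSq r z u) (hv : inSq r z v) :
    Reach (EP r (Tube N k c L) \ EP r (Bxs N k)) u v := by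
  have hg2 := h2 N k c hN hk hA
  by_cases hb : ∃ (s : ℤ) (b : ℤ × ℤ), b ∈ BxS N k s ∧ |z.1 - b.1| ≤ 1 ∧ |z.2 - b.2| ≤ 1
  · obtain ⟨s, b, hbs, hb1, hb2⟩ := hb
    obtain ⟨a, -, hac⟩ := hg2 L s z b hz hbs hb1 hb2
    have hprd : (prd N k : ℤ) = 4 * (N + 4 * k) := by unfold prd; push_cast; ring
    have hcs : ∀ d : Fin k, -(N : ℤ) - 1 ≤ (csq N (c d)).1 ∧ (csq N (c d)).1 ≤ N := by
      intro d
      obtain ⟨e1, e2, e3⟩ := hA.1 d
      unfold csq
      split_ifs <;> simp only <;> constructor <;> omega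
    -- boxes near `z` are the box `s`
    have huniq : ∀ (s' : ℤ) (b' : ℤ × ℤ), b' ∈ BxS N k s' → |z.1 - b'.1| ≤ 1 → |z.2 - b'.2| ≤ 1 →
        s' = s := by
      intro s' b' hb' h3 h4
      obtain ⟨a', -, hac'⟩ := hg2 L s' z b' hz hb' h3 h4
      have k1 : z.1 - s * prd N k = (csq N (c a)).1 := congrArg Prod.fst hac
      have k2 : z.1 - s' * prd N k = (csq N (c a')).1 := congrArg Prod.fst hac'
      have k3 := hcs a
      have k4 := hcs a'
      have k5 : (s' - s) * (prd N k : ℤ) = (csq N (c a)).1 - (csq N (c a')).1 := by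
        rw [← k1, ← k2]; ring
      have hkk : (2 : ℤ) ≤ k := by exact_mod_cast hk
      have hN0 : (0 : ℤ) ≤ N := by positivity
      by_contra hne
      rcases lt_or_gt_of_ne hne with h5 | h5
      · have h6 : s' - s ≤ -1 := by omega
        have h7 : (s' - s) * (prd N k : ℤ) ≤ (-1) * (prd N k : ℤ) :=
          mul_le_mul_of_nonneg_right h6 (by rw [hprd]; positivity)
        rw [hprd] at h7 k5
        omega
      · have h6 : 1 ≤ s' - s := by omega
        have h7 : 1 * (prd N k : ℤ) ≤ (s' - s) * (prd N k : ℤ) :=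
          mul_le_mul_of_nonneg_right h6 (by rw [hprd]; positivity)
        rw [hprd] at h7 k5
        omega
    have hbox : ∀ e ∈ sqE r z, e ∈ EP r (Bxs N k) → ∃ b' : ℤ × ℤ, b' ∈ BxS N k s ∧
        inSq r b' (src e) ∧ inSq r b' (tgt e) := by
      rintro e he ⟨b', ⟨s', hb's⟩, heb⟩
      have q1 := mem_sq he
      have q2 := mem_sq heb
      have q3 := close hr q1.1 q2.1
      have := huniq s' b' hb's q3.1 q3.2
      subst this
      exact ⟨b', hb's, q2.1, q2.2⟩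
    have hr' : (1 : ℤ) ≤ r := by exact_mod_cast hr
    obtain ⟨e1, e2, e3⟩ := hA.1 a
    have k1 : z.1 - s * prd N k = (csq N (c a)).1 := congrArg Prod.fst hac
    have k2 : z.2 - s * prd N k = (csq N (c a)).2 := congrArg Prod.snd hac
    have key : ∀ e ∈ sqE r z, e ∉ EP r (Bxs N k) → e ∈ EP r (Tube N k c L) \ EP r (Bxs N k) :=
      fun e he hn => ⟨⟨z, hz, he⟩, hn⟩
    unfold csq at k1 k2
    split_ifs at k1 k2 with g0 g1 g2
    · refine bottom hr (fun e he hne => key e he fun hB => hne ?_) hu hv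
      obtain ⟨b', hb', p1, p2⟩ := hbox e he hB
      obtain ⟨q1, q2⟩ := mem_sq he
      have w1 : b'.2 - s * prd N k < N := hb'.2.2.2
      have w2 : b'.2 + 1 ≤ z.2 := by simp only at k2; omega
      have w3 : (r : ℤ) * (b'.2 + 1) ≤ r * z.2 := mul_le_mul_of_nonneg_left w2 (by omega)
      have w4 : (r : ℤ) * (b'.2 + 1) = r * b'.2 + r := by ring
      have := p1.2.2.2
      have := p2.2.2.2
      have := q1.2.2.1
      have := q2.2.2.1
      constructor <;> omega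
    · refine left hr (fun e he hne => key e he fun hB => hne ?_) hu hv
      obtain ⟨b', hb', p1, p2⟩ := hbox e he hB
      obtain ⟨q1, q2⟩ := mem_sq he
      have w1 : b'.1 - s * prd N k < N := hb'.2.1
      have w2 : b'.1 + 1 ≤ z.1 := by simp only at k1; omega
      have w3 : (r : ℤ) * (b'.1 + 1) ≤ r * z.1 := mul_le_mul_of_nonneg_left w2 (by omega)
      have w4 : (r : ℤ) * (b'.1 + 1) = r * b'.1 + r := by ring
      have := p1.2.1
      have := p2.2.1
      have := q1.1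
      have := q2.1
      constructor <;> omega
    · refine top hr (fun e he hne => key e he fun hB => hne ?_) hu hv
      obtain ⟨b', hb', p1, p2⟩ := hbox e he hB
      obtain ⟨q1, q2⟩ := mem_sq he
      have w1 : -(N : ℤ) ≤ b'.2 - s * prd N k := hb'.2.2.1
      have w2 : z.2 + 1 ≤ b'.2 := by simp only at k2; omega
      have w3 : (r : ℤ) * (z.2 + 1) ≤ r * b'.2 := mul_le_mul_of_nonneg_left w2 (by omega)
      have w4 : (r : ℤ) * (z.2 + 1) = r * z.2 + r := by ring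
      have := p1.2.2.1
      have := p2.2.2.1
      have := q1.2.2.2
      have := q2.2.2.2
      constructor <;> omega
    · refine right hr (fun e he hne => key e he fun hB => hne ?_) hu hv
      obtain ⟨b', hb', p1, p2⟩ := hbox e he hB
      obtain ⟨q1, q2⟩ := mem_sq he
      have w1 : -(N : ℤ) ≤ b'.1 - s * prd N k := hb'.1
      have w2 : z.1 + 1 ≤ b'.1 := by simp only at k1; omega
      have w3 : (r : ℤ) * (z.1 + 1) ≤ r * b'.1 := mul_le_mul_of_nonneg_left w2 (by omega)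
      have w4 : (r : ℤ) * (z.1 + 1) = r * z.1 + r := by ring
      have := p1.1
      have := p2.1
      have := q1.2.1
      have := q2.2.1
      constructor <;> omega
  · refine full (F := EP r (Tube N k c L) \ EP r (Bxs N k)) (fun e he => ⟨⟨z, hz, he⟩, ?_⟩) hu hv
    rintro ⟨b, ⟨s, hbs⟩, heb⟩
    have q3 := close hr (mem_sq he).1 (mem_sq heb).1
    exact hb ⟨s, b, hbs, q3.1, q3.2⟩

end Tg3

/-- the tubes are connected and contain their cells -/
theorem t_g3 (h2 : S_g2) : S_g3 := by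
  intro N k c hN hk hA
  refine ⟨?_, ?_⟩
  · intro r L z z' u v hr hz hz' hu hv
    obtain ⟨E, hE⟩ := Tg3.tube hk hA L
    exact Tg3.K.reach (fun w hw x y hx hy => Tg3.inner h2 hN hk hA hr hw hx hy)
      ((hE z hz).trans (hE z' hz').symm) hz u v hu hv
  · intro a s z hz
    exact Or.inl ⟨a, s, rfl, by rw [hz]; exact Tg3.csq_arm a.2 (hA.1 a)⟩

end Pool.Agent.H160R2.MU
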