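import Pool.Agent.H160R2.MU.Defs

set_option autoImplicit false

namespace Pool.Agent.H160R2.MU

namespace Tg4

/-- rectangles `(a, b, c, d)`: `a ≤ x ≤ b`, `c ≤ y ≤ d` -/
abbrev Rt := ℤ × ℤ × ℤ × ℤ

def RP (R : Rt) (z : ℤ × ℤ) : Prop := R.1 ≤ z.1 ∧ z.1 ≤ R.2.1 ∧ R.2.2.1 ≤ z.2 ∧ z.2 ≤ R.2.2.2

/-- the two rectangles (the second one shifted by `D`) do not touch diagonally -/
def NI (D : ℤ) (R R' : Rt) : Prop :=
  (R.1 ≤ R'.2.1 + D ∧ R'.1 + D ≤ R.2.1) ∨ (R.2.2.1 ≤ R'.2.2.2 + D ∧ R'.2.2.1 + D ≤ R.2.2.2) ∨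
  R.2.1 + 2 ≤ R'.1 + D ∨ R'.2.1 + D + 2 ≤ R.1 ∨ R.2.2.2 + 2 ≤ R'.2.2.1 + D ∨
  R'.2.2.2 + D + 2 ≤ R.2.2.1

/-- the other two corners -/
def Cor (Q : Set (ℤ × ℤ)) (z z' : ℤ × ℤ) : Prop := (z.1, z'.2) ∈ Q ∨ (z'.1, z.2) ∈ Q

lemma Cor.symm {Q : Set (ℤ × ℤ)} {z z' : ℤ × ℤ} (h : Cor Q z z') : Cor Q z' z := Or.symm h

def Nb (z z' : ℤ × ℤ) : Prop := |z.1 - z'.1| ≤ 1 ∧ |z.2 - z'.2| ≤ 1

/-- main lemma on two rectangles shifted by `S`, `S'` -/
lemma cor_rect (Q : Set (ℤ × ℤ)) (S S' : ℤ) (R R' : Rt)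
    (h1 : ∀ x y : ℤ, RP R (x - S, y - S) → (x, y) ∈ Q)
    (h2 : ∀ x y : ℤ, RP R' (x - S', y - S') → (x, y) ∈ Q) (hn : NI (S' - S) R R')
    (z z' : ℤ × ℤ) (hz : RP R (z.1 - S, z.2 - S)) (hz' : RP R' (z'.1 - S', z'.2 - S'))
    (hb : Nb z z') : Cor Q z z' := by
  obtain ⟨z1, z2⟩ := z
  obtain ⟨w1, w2⟩ := z'
  obtain ⟨a, b, c, d⟩ := R
  obtain ⟨a', b', c', d'⟩ := R'
  obtain ⟨hb1, hb2⟩ := hb
  simp only [RP, NI, Cor] at *
  rw [abs_le] at hb1 hb2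
  by_cases e1 : a ≤ w1 - S ∧ w1 - S ≤ b
  · right
    exact h1 w1 z2 ⟨e1.1, e1.2, hz.2.2.1, hz.2.2.2⟩
  by_cases e2 : a' ≤ z1 - S' ∧ z1 - S' ≤ b'
  · left
    exact h2 z1 w2 ⟨e2.1, e2.2, hz'.2.2.1, hz'.2.2.2⟩
  by_cases e3 : c ≤ w2 - S ∧ w2 - S ≤ d
  · left
    exact h1 z1 w2 ⟨hz.1, hz.2.1, e3.1, e3.2⟩
  by_cases e4 : c' ≤ z2 - S' ∧ z2 - S' ≤ d'
  · right
    exact h2 w1 z2 ⟨hz'.1, hz'.2.1, e4.1, e4.2⟩
  exfalso
  omega

/-- rectangles of the arms -/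
def armR (N k a : ℕ) (c : Cel) : List Rt :=
  if c.1 = 0 then [(c.2, c.2, N, rad N k a), (c.2, rad N k a, rad N k a, rad N k a),
    (rad N k a, rad N k a, -rad N k a - 1, rad N k a),
    (-rad N k a - 1, rad N k a, -rad N k a - 1, -rad N k a - 1),
    (-rad N k a - 1, -rad N k a - 1, -rad N k a - 1, hgt N k)]
  else if c.1 = 1 then [(N, rad N k a, c.2, c.2), (rad N k a, rad N k a, -rad N k a - 1, c.2),
    (-rad N k a - 1, rad N k a, -rad N k a - 1, -rad N k a - 1),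
    (-rad N k a - 1, -rad N k a - 1, -rad N k a - 1, hgt N k)]
  else if c.1 = 2 then [(c.2, c.2, -rad N k a - 1, -N - 1),
    (-rad N k a - 1, c.2, -rad N k a - 1, -rad N k a - 1),
    (-rad N k a - 1, -rad N k a - 1, -rad N k a - 1, hgt N k)]
  else [(-rad N k a - 1, -N - 1, c.2, c.2), (-rad N k a - 1, -rad N k a - 1, c.2, hgt N k)]

/-- rectangles of the links -/
def lnkR (N k i : ℕ) : List Rt :=
  [(-rad N k (k - 1 - i) - 1, -rad N k (k - 1 - i) - 1, hgt N k, hgt N k + 2 * (i + 1)),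
   (-rad N k (k - 1 - i) - 1, prd N k - rad N k 0 - 1 - 2 * (i + 1), hgt N k + 2 * (i + 1),
    hgt N k + 2 * (i + 1)),
   (prd N k - rad N k 0 - 1 - 2 * (i + 1), prd N k - rad N k 0 - 1 - 2 * (i + 1),
    hgt N k + 2 * (i + 1), prd N k + hgt N k + 2 * (i + 1)),
   (prd N k - rad N k 0 - 1 - 2 * (i + 1), prd N k - rad N k i - 1,
    prd N k + hgt N k + 2 * (i + 1), prd N k + hgt N k + 2 * (i + 1)),
   (prd N k - rad N k i - 1, prd N k - rad N k i - 1, prd N k + hgt N k,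
    prd N k + hgt N k + 2 * (i + 1))]

lemma arm_iff (N k a : ℕ) (c : Cel) (hc : c.1 < 4) (z : ℤ × ℤ) :
    z ∈ ArmS N k a c ↔ ∃ R ∈ armR N k a c, RP R z := by
  obtain ⟨c1, c2⟩ := c
  obtain ⟨x, y⟩ := z
  simp only at hc
  have h4 : c1 = 0 ∨ c1 = 1 ∨ c1 = 2 ∨ c1 = 3 := by omega
  generalize hr : rad N k a = r
  generalize hh : hgt N k = h
  rcases h4 with rfl | rfl | rfl | rfl
  all_goals
    simp only [ArmS, armR, RP, hr, hh, Set.mem_ofPred_eq, if_true, List.mem_cons, List.not_mem_nil,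
      or_false, exists_eq_or_imp, exists_eq_left]
    norm_num
    try omega

lemma lnk_iff (N k i : ℕ) (z : ℤ × ℤ) :
    z ∈ LinkS N k i ↔ ∃ R ∈ lnkR N k i, RP R z := by
  obtain ⟨x, y⟩ := z
  generalize hr : rad N k (k - 1 - i) = r
  generalize hr0 : rad N k 0 = r0
  generalize hri : rad N k i = ri
  generalize hh : hgt N k = h
  simp only [LinkS, lnkR, RP, hr, hr0, hri, hh, Set.mem_ofPred_eq, List.mem_cons, List.not_mem_nil,
    or_false, exists_eq_or_imp, exists_eq_left]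
  omega


lemma ni_AA (N k a : ℕ) (c : Cel) (hN : 1 ≤ N) (ha : a < k)
    (hc : c.1 < 4 ∧ -(N : ℤ) ≤ c.2 ∧ c.2 < N) :
    ∀ R ∈ armR N k a c, ∀ R' ∈ armR N k a c, NI 0 R R' := by
  obtain ⟨c1, c2⟩ := c
  simp only at hc
  have h4 : c1 = 0 ∨ c1 = 1 ∨ c1 = 2 ∨ c1 = 3 := by omega
  obtain ⟨r, hr⟩ : ∃ r, r = rad N k a := ⟨_, rfl⟩
  obtain ⟨h, hh⟩ : ∃ h, h = hgt N k := ⟨_, rfl⟩
  have hr' : r = N + 1 + 2 * ((k : ℤ) - 1 - a) := by rw [hr]; rfl
  have hh' : h = N + 2 * k + 1 := by rw [hh]; rfl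
  intro R hR R' hR'
  rcases h4 with rfl | rfl | rfl | rfl
  · simp only [armR, ← hr, ← hh, if_true, List.mem_cons, List.not_mem_nil, or_false] at hR hR'
    rcases hR with rfl | rfl | rfl | rfl | rfl <;> rcases hR' with rfl | rfl | rfl | rfl | rfl <;>
      simp only [NI] <;> omega
  · simp only [armR, ← hr, ← hh, if_true, List.mem_cons, List.not_mem_nil, or_false,
      if_neg (show ¬ (1 : ℕ) = 0 by omega)] at hR hR'
    rcases hR with rfl | rfl | rfl | rfl <;> rcases hR' with rfl | rfl | rfl | rfl <;>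
      simp only [NI] <;> omega
  · simp only [armR, ← hr, ← hh, if_true, List.mem_cons, List.not_mem_nil, or_false,
      if_neg (show ¬ (2 : ℕ) = 0 by omega), if_neg (show ¬ (2 : ℕ) = 1 by omega)] at hR hR'
    rcases hR with rfl | rfl | rfl <;> rcases hR' with rfl | rfl | rfl <;>
      simp only [NI] <;> omega
  · simp only [armR, ← hr, ← hh, List.mem_cons, List.not_mem_nil, or_false,
      if_neg (show ¬ (3 : ℕ) = 0 by omega), if_neg (show ¬ (3 : ℕ) = 1 by omega),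
      if_neg (show ¬ (3 : ℕ) = 2 by omega)] at hR hR'
    rcases hR with rfl | rfl <;> rcases hR' with rfl | rfl <;>
      simp only [NI] <;> omega

/-- coordinates of the links -/
lemma lnkR_eq (N k i : ℕ) (hk : 2 ≤ k) (hi : 2 * i ≤ k - 1) :
    lnkR N k i =
    [(-(N : ℤ) - 2 - 2 * i, -(N : ℤ) - 2 - 2 * i, (N : ℤ) + 2 * k + 1, (N : ℤ) + 2 * k + 3 + 2 * i),
     (-(N : ℤ) - 2 - 2 * i, 3 * (N : ℤ) + 14 * k - 2 * i - 2, (N : ℤ) + 2 * k + 3 + 2 * i,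
      (N : ℤ) + 2 * k + 3 + 2 * i),
     (3 * (N : ℤ) + 14 * k - 2 * i - 2, 3 * (N : ℤ) + 14 * k - 2 * i - 2,
      (N : ℤ) + 2 * k + 3 + 2 * i, 5 * (N : ℤ) + 18 * k + 3 + 2 * i),
     (3 * (N : ℤ) + 14 * k - 2 * i - 2, 3 * (N : ℤ) + 14 * k + 2 * i,
      5 * (N : ℤ) + 18 * k + 3 + 2 * i, 5 * (N : ℤ) + 18 * k + 3 + 2 * i),
     (3 * (N : ℤ) + 14 * k + 2 * i, 3 * (N : ℤ) + 14 * k + 2 * i, 5 * (N : ℤ) + 18 * k + 1,
      5 * (N : ℤ) + 18 * k + 3 + 2 * i)] := by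
  have e1 : ((k - 1 - i : ℕ) : ℤ) = k - 1 - i := by omega
  simp only [lnkR, rad, hgt, prd, e1]
  push_cast
  simp only [List.cons.injEq, Prod.mk.injEq, and_true]
  refine ⟨⟨?_, ?_, ?_, ?_⟩, ⟨?_, ?_, ?_, ?_⟩, ⟨?_, ?_, ?_, ?_⟩, ⟨?_, ?_, ?_, ?_⟩,
    ⟨?_, ?_, ?_, ?_⟩⟩ <;> first | trivial | omega

lemma ni_AL (N k a i : ℕ) (c : Cel) (D : ℤ) (hN : 1 ≤ N) (hk : 2 ≤ k) (ha : a < k)
    (hi : 2 * i ≤ k - 1) (hD : (D = 0 ∧ a = k - 1 - i) ∨ (D = -(prd N k : ℤ) ∧ a = i))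
    (hc : c.1 < 4 ∧ -(N : ℤ) ≤ c.2 ∧ c.2 < N) :
    ∀ R ∈ armR N k a c, ∀ R' ∈ lnkR N k i, NI D R R' := by
  obtain ⟨c1, c2⟩ := c
  simp only at hc
  have h4 : c1 = 0 ∨ c1 = 1 ∨ c1 = 2 ∨ c1 = 3 := by omega
  obtain ⟨r, hr⟩ : ∃ r, r = rad N k a := ⟨_, rfl⟩
  obtain ⟨h, hh⟩ : ∃ h, h = hgt N k := ⟨_, rfl⟩
  have hr' : r = N + 1 + 2 * ((k : ℤ) - 1 - a) := by rw [hr]; rfl
  have hh' : h = N + 2 * k + 1 := by rw [hh]; rfl
  have hD' : (D = 0 ∧ a = k - 1 - i) ∨ (D = -(4 * (N + 4 * k) : ℤ) ∧ a = i) := by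
    rcases hD with h | h
    · exact Or.inl h
    · refine Or.inr ⟨?_, h.2⟩
      rw [h.1, prd]
      push_cast
      ring
  intro R hR R' hR'
  rw [lnkR_eq N k i hk hi] at hR'
  simp only [List.mem_cons, List.not_mem_nil, or_false] at hR'
  rcases h4 with rfl | rfl | rfl | rfl
  · simp only [armR, ← hr, ← hh, if_true, List.mem_cons, List.not_mem_nil, or_false] at hR
    rcases hR with rfl | rfl | rfl | rfl | rfl <;> rcases hR' with rfl | rfl | rfl | rfl | rfl <;>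
      simp only [NI] <;> omega
  · simp only [armR, ← hr, ← hh, if_true, List.mem_cons, List.not_mem_nil, or_false,
      if_neg (show ¬ (1 : ℕ) = 0 by omega)] at hR
    rcases hR with rfl | rfl | rfl | rfl <;> rcases hR' with rfl | rfl | rfl | rfl | rfl <;>
      simp only [NI] <;> omega
  · simp only [armR, ← hr, ← hh, if_true, List.mem_cons, List.not_mem_nil, or_false,
      if_neg (show ¬ (2 : ℕ) = 0 by omega), if_neg (show ¬ (2 : ℕ) = 1 by omega)] at hR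
    rcases hR with rfl | rfl | rfl <;> rcases hR' with rfl | rfl | rfl | rfl | rfl <;>
      simp only [NI] <;> omega
  · simp only [armR, ← hr, ← hh, List.mem_cons, List.not_mem_nil, or_false,
      if_neg (show ¬ (3 : ℕ) = 0 by omega), if_neg (show ¬ (3 : ℕ) = 1 by omega),
      if_neg (show ¬ (3 : ℕ) = 2 by omega)] at hR
    rcases hR with rfl | rfl <;> rcases hR' with rfl | rfl | rfl | rfl | rfl <;>
      simp only [NI] <;> omega

lemma ni_LL (N k i : ℕ) (D : ℤ) (hN : 1 ≤ N) (hk : 2 ≤ k) (hi : 2 * i ≤ k - 1)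
    (hD : D = 0 ∨ (D = (prd N k : ℤ) ∧ 2 * i = k - 1)) :
    ∀ R ∈ lnkR N k i, ∀ R' ∈ lnkR N k i, NI D R R' := by
  have hD' : D = 0 ∨ (D = (4 * (N + 4 * k) : ℤ) ∧ 2 * i = k - 1) := by
    rcases hD with h | h
    · exact Or.inl h
    · refine Or.inr ⟨?_, h.2⟩
      rw [h.1, prd]
      push_cast
      ring
  intro R hR R' hR'
  rw [lnkR_eq N k i hk hi] at hR hR'
  simp only [List.mem_cons, List.not_mem_nil, or_false] at hR hR'
  rcases hR with rfl | rfl | rfl | rfl | rfl <;> rcases hR' with rfl | rfl | rfl | rfl | rfl <;>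
    simp only [NI] <;> omega

lemma arm_bd (N k a : ℕ) (c : Cel) (hN : 1 ≤ N) (ha : a < k)
    (hc : c.1 < 4 ∧ -(N : ℤ) ≤ c.2 ∧ c.2 < N) (z : ℤ × ℤ) (hz : z ∈ ArmS N k a c) :
    -(N : ℤ) - 2 * k ≤ z.1 ∧ z.1 ≤ N + 2 * k ∧ -(N : ℤ) - 2 * k ≤ z.2 ∧ z.2 ≤ N + 2 * k + 1 := by
  obtain ⟨c1, c2⟩ := c
  obtain ⟨x, y⟩ := z
  simp only at hc
  have h4 : c1 = 0 ∨ c1 = 1 ∨ c1 = 2 ∨ c1 = 3 := by omega
  rw [arm_iff N k a _ hc.1] at hz
  obtain ⟨R, hR, hz⟩ := hz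
  obtain ⟨r, hr⟩ : ∃ r, r = rad N k a := ⟨_, rfl⟩
  obtain ⟨h, hh⟩ : ∃ h, h = hgt N k := ⟨_, rfl⟩
  have hr' : r = N + 1 + 2 * ((k : ℤ) - 1 - a) := by rw [hr]; rfl
  have hh' : h = N + 2 * k + 1 := by rw [hh]; rfl
  rcases h4 with rfl | rfl | rfl | rfl
  · simp only [armR, ← hr, ← hh, if_true, List.mem_cons, List.not_mem_nil, or_false] at hR
    rcases hR with rfl | rfl | rfl | rfl | rfl <;> simp only [RP] at hz <;> simp only <;> omega
  · simp only [armR, ← hr, ← hh, if_true, List.mem_cons, List.not_mem_nil, or_false,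
      if_neg (show ¬ (1 : ℕ) = 0 by omega)] at hR
    rcases hR with rfl | rfl | rfl | rfl <;> simp only [RP] at hz <;> simp only <;> omega
  · simp only [armR, ← hr, ← hh, if_true, List.mem_cons, List.not_mem_nil, or_false,
      if_neg (show ¬ (2 : ℕ) = 0 by omega), if_neg (show ¬ (2 : ℕ) = 1 by omega)] at hR
    rcases hR with rfl | rfl | rfl <;> simp only [RP] at hz <;> simp only <;> omega
  · simp only [armR, ← hr, ← hh, List.mem_cons, List.not_mem_nil, or_false,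
      if_neg (show ¬ (3 : ℕ) = 0 by omega), if_neg (show ¬ (3 : ℕ) = 1 by omega),
      if_neg (show ¬ (3 : ℕ) = 2 by omega)] at hR
    rcases hR with rfl | rfl <;> simp only [RP] at hz <;> simp only <;> omega

lemma lnk_bd (N k i : ℕ) (hk : 2 ≤ k) (hi : 2 * i ≤ k - 1) (z : ℤ × ℤ) (hz : z ∈ LinkS N k i) :
    (-(N : ℤ) - 2 - 2 * i ≤ z.1 ∧ z.1 ≤ 3 * N + 14 * k + 2 * i ∧ (N : ℤ) + 2 * k + 1 ≤ z.2 ∧
      z.2 ≤ 5 * N + 18 * k + 3 + 2 * i) ∧ z.1 - z.2 ≤ 4 * (N + 4 * k) ∧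
      -(4 * (N + 4 * k) : ℤ) ≤ z.1 - z.2 := by
  obtain ⟨x, y⟩ := z
  rw [lnk_iff] at hz
  obtain ⟨R, hR, hz⟩ := hz
  rw [lnkR_eq N k i hk hi] at hR
  simp only [List.mem_cons, List.not_mem_nil, or_false] at hR
  rcases hR with rfl | rfl | rfl | rfl | rfl <;> simp only [RP] at hz <;> simp only <;> omega

/-- pairs of lists of rectangles -/
lemma cor_list (Q : Set (ℤ × ℤ)) (S S' : ℤ) (l l' : List Rt)
    (h1 : ∀ x y : ℤ, (∃ R ∈ l, RP R (x - S, y - S)) → (x, y) ∈ Q)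
    (h2 : ∀ x y : ℤ, (∃ R ∈ l', RP R (x - S', y - S')) → (x, y) ∈ Q)
    (hn : ∀ R ∈ l, ∀ R' ∈ l', NI (S' - S) R R')
    (z z' : ℤ × ℤ) (hz : ∃ R ∈ l, RP R (z.1 - S, z.2 - S))
    (hz' : ∃ R ∈ l', RP R (z'.1 - S', z'.2 - S')) (hb : Nb z z') : Cor Q z z' := by
  obtain ⟨R, hR, hz⟩ := hz
  obtain ⟨R', hR', hz'⟩ := hz'
  exact cor_rect Q S S' R R' (fun x y h => h1 x y ⟨R, hR, h⟩) (fun x y h => h2 x y ⟨R', hR', h⟩)
    (hn R hR R' hR') z z' hz hz' hb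

lemma mul_gap (m s s' : ℤ) (hm : 0 ≤ m) (d : ℤ) (h : s + d ≤ s') : s * m + d * m ≤ s' * m := by
  nlinarith

section main

variable (N k : ℕ) (c : Fin k → Cel)

lemma mem_arm (a : Fin k) (s : ℤ) (x y : ℤ) (h : shf N k s (x, y) ∈ ArmS N k a (c a)) :
    (x, y) ∈ Bxs N k ∪ Crr N k c :=
  Or.inr ⟨labA k a s, Or.inl ⟨a, s, rfl, h⟩⟩

lemma mem_lnk (i : ℕ) (s : ℤ) (hi : 2 * i ≤ k - 1) (x y : ℤ)
    (h : shf N k s (x, y) ∈ LinkS N k i) : (x, y) ∈ Bxs N k ∪ Crr N k c :=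
  Or.inr ⟨labL k i s, Or.inr ⟨i, s, hi, rfl, h⟩⟩

lemma cor_AA (hN : 1 ≤ N) (hA : Adm N k c) (a a' : Fin k) (s s' : ℤ)
    (hl : labA k a s = labA k a' s') (z z' : ℤ × ℤ) (hz : shf N k s z ∈ ArmS N k a (c a))
    (hz' : shf N k s' z' ∈ ArmS N k a' (c a')) (hb : Nb z z') :
    Cor (Bxs N k ∪ Crr N k c) z z' := by
  have hm : (0 : ℤ) ≤ prd N k := Int.natCast_nonneg _
  have hmv : (prd N k : ℤ) = 4 * (N + 4 * k) := by rw [prd]; push_cast; ring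
  have hak := a.2
  have hak' := a'.2
  by_cases hs : s = s'
  · subst hs
    have haa : a = a' := by
      apply Fin.ext
      simp only [labA] at hl
      split_ifs at hl <;> simp only [Prod.mk.injEq] at hl <;> omega
    subst haa
    refine cor_list _ (s * prd N k) (s * prd N k) (armR N k a (c a)) (armR N k a (c a)) ?_ ?_ ?_
      z z' ((arm_iff N k a (c a) (hA.1 a).1 _).1 hz) ((arm_iff N k a (c a) (hA.1 a).1 _).1 hz') hb
    · exact fun x y h => mem_arm N k c a s x y ((arm_iff N k a (c a) (hA.1 a).1 _).2 h)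
    · exact fun x y h => mem_arm N k c a s x y ((arm_iff N k a (c a) (hA.1 a).1 _).2 h)
    · rw [sub_self]
      exact ni_AA N k a (c a) hN hak (hA.1 a)
  · exfalso
    have b1 := arm_bd N k a (c a) hN hak (hA.1 a) _ hz
    have b2 := arm_bd N k a' (c a') hN hak' (hA.1 a') _ hz'
    obtain ⟨z1, z2⟩ := z
    obtain ⟨w1, w2⟩ := z'
    obtain ⟨hb1, hb2⟩ := hb
    rw [abs_le] at hb1 hb2
    simp only [shf] at b1 b2 hb1 hb2
    rcases lt_or_gt_of_ne hs with h | h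
    · have := mul_gap (prd N k) s s' hm 1 (by omega)
      rw [one_mul] at this
      omega
    · have := mul_gap (prd N k) s' s hm 1 (by omega)
      rw [one_mul] at this
      omega

lemma cor_AL (hN : 1 ≤ N) (hk : 2 ≤ k) (hA : Adm N k c) (a : Fin k) (i : ℕ) (s s' : ℤ)
    (hi : 2 * i ≤ k - 1) (hl : labA k a s = labL k i s') (z z' : ℤ × ℤ)
    (hz : shf N k s z ∈ ArmS N k a (c a))
    (hz' : shf N k s' z' ∈ LinkS N k i) (hb : Nb z z') :
    Cor (Bxs N k ∪ Crr N k c) z z' := by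
  have hm : (0 : ℤ) ≤ prd N k := Int.natCast_nonneg _
  have hmv : (prd N k : ℤ) = 4 * (N + 4 * k) := by rw [prd]; push_cast; ring
  have hak := a.2
  have hcase : (s = s' ∧ (a : ℕ) = k - 1 - i) ∨ (s = s' + 1 ∧ (a : ℕ) = i) ∨ s' + 2 ≤ s ∨
      s + 1 ≤ s' := by
    simp only [labA, labL] at hl
    split_ifs at hl <;> simp only [Prod.mk.injEq] at hl <;> omega
  have key : ∀ (D : ℤ), D = s' * prd N k - s * prd N k →
      ((D = 0 ∧ (a : ℕ) = k - 1 - i) ∨ (D = -(prd N k : ℤ) ∧ (a : ℕ) = i)) →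
      Cor (Bxs N k ∪ Crr N k c) z z' := by
    intro D hD h
    refine cor_list _ (s * prd N k) (s' * prd N k) (armR N k a (c a)) (lnkR N k i) ?_ ?_ ?_
      z z' ((arm_iff N k a (c a) (hA.1 a).1 _).1 hz) ((lnk_iff N k i _).1 hz') hb
    · exact fun x y h => mem_arm N k c a s x y ((arm_iff N k a (c a) (hA.1 a).1 _).2 h)
    · exact fun x y h => mem_lnk N k c i s' hi x y ((lnk_iff N k i _).2 h)
    · rw [← hD]
      exact ni_AL N k a i (c a) D hN hk hak hi h (hA.1 a)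
  have b1 := arm_bd N k a (c a) hN hak (hA.1 a) _ hz
  have b2 := (lnk_bd N k i hk hi _ hz').1
  have hb' := hb
  obtain ⟨z1, z2⟩ := z
  obtain ⟨w1, w2⟩ := z'
  obtain ⟨hb1, hb2⟩ := hb
  rw [abs_le] at hb1 hb2
  simp only [shf] at b1 b2 hb1 hb2
  rcases hcase with ⟨rfl, h⟩ | ⟨rfl, h⟩ | h | h
  · exact key 0 (by ring) (Or.inl ⟨rfl, h⟩)
  · exact key (-(prd N k : ℤ)) (by ring) (Or.inr ⟨rfl, h⟩)
  · exfalso
    have := mul_gap (prd N k) s' s hm 2 (by omega)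
    omega
  · exfalso
    have := mul_gap (prd N k) s s' hm 1 (by omega)
    rw [one_mul] at this
    omega

lemma cor_LL (hN : 1 ≤ N) (hk : 2 ≤ k) (i i' : ℕ) (s s' : ℤ)
    (hi : 2 * i ≤ k - 1) (hi' : 2 * i' ≤ k - 1) (hl : labL k i s = labL k i' s') (hss : s ≤ s')
    (z z' : ℤ × ℤ) (hz : shf N k s z ∈ LinkS N k i)
    (hz' : shf N k s' z' ∈ LinkS N k i') (hb : Nb z z') :
    Cor (Bxs N k ∪ Crr N k c) z z' := by
  have hm : (0 : ℤ) ≤ prd N k := Int.natCast_nonneg _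
  have hmv : (prd N k : ℤ) = 4 * (N + 4 * k) := by rw [prd]; push_cast; ring
  have hcase : i = i' ∧ (s = s' ∨ (s' = s + 1 ∧ 2 * i = k - 1) ∨ s + 2 ≤ s') := by
    simp only [labL] at hl
    split_ifs at hl <;> simp only [Prod.mk.injEq] at hl <;> omega
  obtain ⟨rfl, hcase⟩ := hcase
  have key : ∀ (D : ℤ), D = s' * prd N k - s * prd N k →
      (D = 0 ∨ (D = (prd N k : ℤ) ∧ 2 * i = k - 1)) →
      Cor (Bxs N k ∪ Crr N k c) z z' := by
    intro D hD h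
    refine cor_list _ (s * prd N k) (s' * prd N k) (lnkR N k i) (lnkR N k i) ?_ ?_ ?_
      z z' ((lnk_iff N k i _).1 hz) ((lnk_iff N k i _).1 hz') hb
    · exact fun x y h => mem_lnk N k c i s hi x y ((lnk_iff N k i _).2 h)
    · exact fun x y h => mem_lnk N k c i s' hi x y ((lnk_iff N k i _).2 h)
    · rw [← hD]
      exact ni_LL N k i D hN hk hi h
  have b1 := (lnk_bd N k i hk hi _ hz).1
  have b2 := (lnk_bd N k i hk hi _ hz').1
  obtain ⟨z1, z2⟩ := z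
  obtain ⟨w1, w2⟩ := z'
  obtain ⟨hb1, hb2⟩ := hb
  rw [abs_le] at hb1 hb2
  simp only [shf] at b1 b2 hb1 hb2
  rcases hcase with rfl | ⟨rfl, h⟩ | h
  · exact key 0 (by ring) (Or.inl rfl)
  · exact key (prd N k : ℤ) (by ring) (Or.inr ⟨rfl, h⟩)
  · exfalso
    have := mul_gap (prd N k) s s' hm 2 (by omega)
    omega

lemma cor_tube (hN : 1 ≤ N) (hk : 2 ≤ k) (hA : Adm N k c) (L : ℕ × ℤ) (z z' : ℤ × ℤ)
    (hz : z ∈ Tube N k c L) (hz' : z' ∈ Tube N k c L) (hb : Nb z z') :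
    Cor (Bxs N k ∪ Crr N k c) z z' := by
  have hb' : Nb z' z := by
    obtain ⟨h1, h2⟩ := hb
    exact ⟨by rwa [abs_sub_comm], by rwa [abs_sub_comm]⟩
  rcases hz with ⟨a, s, hL, hz⟩ | ⟨i, s, hi, hL, hz⟩ <;>
    rcases hz' with ⟨a', s', hL', hz'⟩ | ⟨i', s', hi', hL', hz'⟩
  · exact cor_AA N k c hN hA a a' s s' (hL.trans hL'.symm) z z' hz hz' hb
  · exact cor_AL N k c hN hk hA a i' s s' hi' (hL.trans hL'.symm) z z' hz hz' hb
  · exact (cor_AL N k c hN hk hA a' i s' s hi (hL'.trans hL.symm) z' z hz' hz hb').symm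
  · rcases le_total s s' with h | h
    · exact cor_LL N k c hN hk i i' s s' hi hi' (hL.trans hL'.symm) h z z' hz hz' hb
    · exact (cor_LL N k c hN hk i' i s' s hi' hi (hL'.trans hL.symm) h z' z hz' hz hb').symm

lemma cor_box_tube (h2 : S_g2) (hN : 1 ≤ N) (hk : 2 ≤ k) (hA : Adm N k c) (L : ℕ × ℤ) (s : ℤ)
    (z b : ℤ × ℤ) (hz : z ∈ Tube N k c L) (hbx : b ∈ BxS N k s) (hb : Nb z b) :
    Cor (Bxs N k ∪ Crr N k c) z b := by
  obtain ⟨a, -, ha⟩ := h2 N k c hN hk hA L s z b hz hbx hb.1 hb.2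
  obtain ⟨hc1, hc2, hc3⟩ := hA.1 a
  generalize c a = ca at *
  obtain ⟨c1, c2⟩ := ca
  obtain ⟨z1, z2⟩ := z
  obtain ⟨b1, b2⟩ := b
  have h4 : c1 = 0 ∨ c1 = 1 ∨ c1 = 2 ∨ c1 = 3 := by
    simp only at hc1
    omega
  simp only [shf, csq] at ha
  simp only [BxS, shf, Set.mem_ofPred_eq] at hbx
  simp only at hc2 hc3
  rcases h4 with rfl | rfl | rfl | rfl
  · simp only [if_true, Prod.mk.injEq] at ha
    left
    left
    refine ⟨s, ?_⟩
    simp only [BxS, shf, Set.mem_ofPred_eq]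
    omega
  · simp only [if_true, Prod.mk.injEq, if_neg (show ¬ (1 : ℕ) = 0 by omega)] at ha
    right
    left
    refine ⟨s, ?_⟩
    simp only [BxS, shf, Set.mem_ofPred_eq]
    omega
  · simp only [if_true, Prod.mk.injEq, if_neg (show ¬ (2 : ℕ) = 0 by omega),
      if_neg (show ¬ (2 : ℕ) = 1 by omega)] at ha
    left
    left
    refine ⟨s, ?_⟩
    simp only [BxS, shf, Set.mem_ofPred_eq]
    omega
  · simp only [Prod.mk.injEq, if_neg (show ¬ (3 : ℕ) = 0 by omega),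
      if_neg (show ¬ (3 : ℕ) = 1 by omega), if_neg (show ¬ (3 : ℕ) = 2 by omega)] at ha
    right
    left
    refine ⟨s, ?_⟩
    simp only [BxS, shf, Set.mem_ofPred_eq]
    omega

lemma cor_box_box (s s' : ℤ) (z b : ℤ × ℤ) (hz : z ∈ BxS N k s) (hbx : b ∈ BxS N k s')
    (hb : Nb z b) : Cor (Bxs N k ∪ Crr N k c) z b := by
  have hm : (0 : ℤ) ≤ prd N k := Int.natCast_nonneg _
  have hmv : (prd N k : ℤ) = 4 * (N + 4 * k) := by rw [prd]; push_cast; ring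
  obtain ⟨z1, z2⟩ := z
  obtain ⟨b1, b2⟩ := b
  obtain ⟨hb1, hb2⟩ := hb
  rw [abs_le] at hb1 hb2
  simp only [BxS, shf, Set.mem_ofPred_eq] at hz hbx
  simp only at hb1 hb2
  by_cases hs : s = s'
  · subst hs
    left
    left
    refine ⟨s, ?_⟩
    simp only [BxS, shf, Set.mem_ofPred_eq]
    omega
  · exfalso
    rcases lt_or_gt_of_ne hs with h | h
    · have := mul_gap (prd N k) s s' hm 1 (by omega)
      rw [one_mul] at this
      omega
    · have := mul_gap (prd N k) s' s hm 1 (by omega)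
      rw [one_mul] at this
      omega

lemma cor_all (h1 : S_g1) (h2 : S_g2) (hN : 1 ≤ N) (hk : 2 ≤ k) (hA : Adm N k c)
    (z z' : ℤ × ℤ) (hz : z ∈ Bxs N k ∪ Crr N k c) (hz' : z' ∈ Bxs N k ∪ Crr N k c)
    (hb : Nb z z') : Cor (Bxs N k ∪ Crr N k c) z z' := by
  have hb' : Nb z' z := by
    obtain ⟨h1, h2⟩ := hb
    exact ⟨by rwa [abs_sub_comm], by rwa [abs_sub_comm]⟩
  rcases hz with ⟨s, hz⟩ | ⟨L, hz⟩ <;> rcases hz' with ⟨s', hz'⟩ | ⟨L', hz'⟩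
  · exact cor_box_box N k c s s' z z' hz hz' hb
  · exact (cor_box_tube N k c h2 hN hk hA L' s z' z hz' hz hb').symm
  · exact cor_box_tube N k c h2 hN hk hA L s' z z' hz hz' hb
  · have hLL := h1 N k c hN hk hA L L' z z' hz hz' hb.1 hb.2
    subst hLL
    exact cor_tube N k c hN hk hA L z z' hz hz' hb

lemma shf_shf (s t : ℤ) (z : ℤ × ℤ) : shf N k t (shf N k s z) = shf N k (t + s) z := by
  simp only [shf, Prod.mk.injEq]
  constructor <;> ring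

lemma mem_shf (s : ℤ) (z : ℤ × ℤ) (hz : z ∈ Bxs N k ∪ Crr N k c) :
    shf N k s z ∈ Bxs N k ∪ Crr N k c := by
  have e : ∀ t : ℤ, shf N k (t - s) (shf N k s z) = shf N k t z := by
    intro t
    rw [shf_shf]
    congr 1
    ring
  rcases hz with ⟨t, hz⟩ | ⟨L, ⟨a, t, -, hz⟩ | ⟨i, t, hi, -, hz⟩⟩
  · left
    refine ⟨t - s, ?_⟩
    simp only [BxS, Set.mem_ofPred_eq, e]
    exact hz
  · right
    exact ⟨labA k a (t - s), Or.inl ⟨a, t - s, rfl, by rw [e]; exact hz⟩⟩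
  · right
    exact ⟨labL k i (t - s), Or.inr ⟨i, t - s, hi, rfl, by rw [e]; exact hz⟩⟩

end main

end Tg4

open Tg4 in
theorem t_g4 (h1 : S_g1) (h2 : S_g2) : S_g4 := by
  intro N k c hN hk hA P hP
  subst hP
  refine ⟨?_, ?_, ?_, ?_⟩
  · intro x y ha hb
    by_contra hcon
    push Not at hcon
    have hnb : Nb (x + 1, y) (x, y + 1) := by
      constructor <;> simp
    rcases cor_all N k c h1 h2 hN hk hA (x + 1, y) (x, y + 1) hcon.1 hcon.2 hnb with h | h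
    · exact hb h
    · exact ha h
  · intro x y ha hb
    by_contra hcon
    push Not at hcon
    have hnb : Nb (x, y) (x + 1, y + 1) := by
      constructor <;> simp
    rcases cor_all N k c h1 h2 hN hk hA (x, y) (x + 1, y + 1) hcon.1 hcon.2 hnb with h | h
    · exact hb h
    · exact ha h
  · intro z s
    constructor
    · exact mem_shf N k c s z
    · intro h
      have h3 := mem_shf N k c (-s) _ h
      rw [shf_shf] at h3
      have e : shf N k (-s + s) z = z := by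
        simp only [shf, neg_add_cancel, zero_mul, sub_zero]
      rwa [e] at h3
  · intro z hz
    have hmv : (prd N k : ℤ) = 4 * (N + 4 * k) := by rw [prd]; push_cast; ring
    rw [abs_le]
    obtain ⟨z1, z2⟩ := z
    rcases hz with ⟨t, hz⟩ | ⟨L, ⟨a, t, -, hz⟩ | ⟨i, t, hi, -, hz⟩⟩
    · simp only [BxS, shf, Set.mem_ofPred_eq] at hz
      simp only
      omega
    · have b := arm_bd N k a (c a) hN a.2 (hA.1 a) _ hz
      simp only [shf] at b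
      simp only
      omega
    · have b := (lnk_bd N k i hk hi _ hz).2
      simp only [shf] at b
      simp only
      omega

end Pool.Agent.H160R2.MU
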