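import Pool.Agent.H160R2.ML.All
import Pool.Agent.H160R2.MU.T_ABS
import Pool.Agent.H160R2.MU.T_BADP
import Pool.Agent.H160R2.MU.T_DEC
import Pool.Agent.H160R2.MU.T_DET
import Pool.Agent.H160R2.MU.T_DETP
import Pool.Agent.H160R2.MU.T_EXI
import Pool.Agent.H160R2.MU.T_FIN
import Pool.Agent.H160R2.MU.T_G
import Pool.Agent.H160R2.MU.T_IND
import Pool.Agent.H160R2.MU.T_LAND
import Pool.Agent.H160R2.MU.T_LB
import Pool.Agent.H160R2.MU.T_LIF
import Pool.Agent.H160R2.MU.T_LNK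
import Pool.Agent.H160R2.MU.T_MON
import Pool.Agent.H160R2.MU.T_PRB
import Pool.Agent.H160R2.MU.T_RCR
import Pool.Agent.H160R2.MU.T_SEPA
import Pool.Agent.H160R2.MU.T_SEPB
import Pool.Agent.H160R2.MU.T_STA
import Pool.Agent.H160R2.MU.T_STB
import Pool.Agent.H160R2.MU.T_TRAP
import Pool.Agent.H160R2.MU.T_UB
import Pool.Agent.H160R2.MU.T_W
import Pool.Agent.H160R2.MU.T_Wi
import Pool.Agent.H160R2.MU.T_Wl
import Pool.Agent.H160R2.MU.T_Wr
import Pool.Agent.H160R2.MU.T_Ws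
import Pool.Agent.H160R2.MU.T_Wz
import Pool.Agent.H160R2.MU.T_g1
import Pool.Agent.H160R2.MU.T_g2
import Pool.Agent.H160R2.MU.T_g3
import Pool.Agent.H160R2.MU.T_g4

/-!
# Planar upper bounds for even arm events: assembly
-/

set_option autoImplicit false

namespace Pool.Agent.H160R2.MU

theorem a_W : S_W := t_W t_Ws t_Wi t_Wr t_Wl t_Wz ML.a_LS
theorem a_G : S_G := t_G t_LNK a_W
theorem a_g4 : S_g4 := t_g4 t_g1 t_g2
theorem a_BADP : S_BADP := t_BADP'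
theorem a_SEPB : S_SEPB := t_SEPB t_g1 t_g2 a_g4 t_EXI t_LIF
theorem a_STB : S_STB := t_STB t_ABS t_PRB a_SEPB t_TRAP a_BADP t_DEC t_IND a_g4
theorem a_LB : S_LB := t_LB t_DEC a_G ML.a_PB ML.a_FA ML.a_PH
theorem a_g3 : S_g3 := t_g3 t_g2
theorem a_DETP : S_DETP := t_DETP (t_DET t_g1 t_g2 a_g3)
theorem a_SEPA : S_SEPA := t_SEPA t_g1 t_g2 a_g4 t_EXI t_LIF
theorem a_STA : S_STA := t_STA t_ABS t_PRB a_SEPA t_TRAP a_BADP t_DEC t_IND a_g4 a_G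
theorem a_RCR : S_RCR := t_RCR t_LAND a_DETP a_STA a_STB a_G ML.a_PB ML.a_FA ML.a_PH
theorem a_UB : S_UB := t_UB a_RCR t_MON

end Pool.Agent.H160R2.MU
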