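import Pool.Agent.H160R2.ML.Stm
import Pool.Agent.H12R2.Sep.Defs6

/-!
# Upper bounds for all even arm events: definitions and steps

Coordinates: a point `((j, t), β)` of the cut cylinder (`β = false`: lower half, `t ≤ M` the distance
to the end, `t = M` the level of the slits) has class `(j + t - M) % 2`; class `0` = vertices, class
`1` = faces of `ℤ²` (lower left corner), both through `vx M`.  The square number `e` (an edge of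
`ℤ²`) has one diagonal of each class.
-/

set_option autoImplicit false

namespace Pool.Agent.H160R2.MU
open Pool.Agent.H863R2.Cyl
open Pool.Agent.H988R2.Perc (Word PD)
open Pool.Agent.H160R2.ML
open H974 H906.Cyl
open H12S (Dir hbE segD rimE H4 Crs Nr sqE)

abbrev Pt := (ℤ × ℕ) × Bool

/-- links by the boundary words -/
inductive Wl (τ σ : Word) : Pt → Pt → Prop
  | low (a b : ℤ) : Rw σ a b → Wl τ σ ((a, 0), false) ((b, 0), false)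
  | upp (a b : ℤ) : Rw τ a b → Wl τ σ ((a, 0), true) ((b, 0), true)

/-- the two copies of a point of the level `M` outside the open slits -/
inductive Gl (n M k : ℕ) : Pt → Pt → Prop
  | glue (s : ℤ) (i : ℕ) : i + k ≤ 2 * n →
      Gl n M k ((s * (2 * n : ℕ) + k + i, M), false) ((s * (2 * n : ℕ) + k + i, M), true)

/-- the diagonal of class `c` of the square number `e` (all its lifts) -/
inductive Dg (n M c : ℕ) (e : Edg) : Pt → Pt → Prop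
  | lrise (q : ℤ) (t : ℕ) : (t : ℤ) = dco e + M → dco e < 0 →
      (e.1 + e.2.1 + dco e) % 2 = c →
      Dg n M c e ((e.1 + e.2.1 + q * (2 * n : ℕ), t), false)
        ((e.1 + e.2.1 + q * (2 * n : ℕ) + 1, t + 1), false)
  | lfall (q : ℤ) (t : ℕ) : (t : ℤ) = dco e + M → dco e < 0 →
      (e.1 + e.2.1 + dco e) % 2 ≠ c →
      Dg n M c e ((e.1 + e.2.1 + q * (2 * n : ℕ) + 1, t), false)
        ((e.1 + e.2.1 + q * (2 * n : ℕ), t + 1), false)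
  | urise (q : ℤ) (t : ℕ) : (t : ℤ) = M - 1 - dco e → 0 ≤ dco e →
      (e.1 + e.2.1 + dco e) % 2 = c →
      Dg n M c e ((e.1 + e.2.1 + q * (2 * n : ℕ), t + 1), true)
        ((e.1 + e.2.1 + q * (2 * n : ℕ) + 1, t), true)
  | ufall (q : ℤ) (t : ℕ) : (t : ℤ) = M - 1 - dco e → 0 ≤ dco e →
      (e.1 + e.2.1 + dco e) % 2 ≠ c →
      Dg n M c e ((e.1 + e.2.1 + q * (2 * n : ℕ) + 1, t + 1), true)
        ((e.1 + e.2.1 + q * (2 * n : ℕ), t), true)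

/-- connection of the points of class `c` when `A` is the set of the squares of state `c` -/
def RB (c n M k : ℕ) (A : Set Edg) (τ σ : Word) : Pt → Pt → Prop :=
  Relation.EqvGen (fun x y => Wl τ σ x y ∨ Gl n M k x y ∨ ∃ e ∈ A, Dg n M c e x y)

/-- class of a point -/
def Cls (M c : ℕ) (x : Pt) : Prop := (x.1.1 + x.1.2 - M) % 2 = c ∧ x.1.2 ≤ M

/-- the squares of state `c` of the configuration `F` -/
def Ac (c n M : ℕ) (F : Finset Edg) : Set Edg := {e | e ∈ CE n M ∧ (e ∈ F ↔ c = 0)}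

/-- the sectors -/
def sec (n M k : ℕ) (s : ℤ) (i : ℕ) : Pt :=
  if i ≤ k then ((s * (2 * n : ℕ) + i, M), false) else ((s * (2 * n : ℕ) + (2 * k - i), M), true)

/-- the sectors of class `c` of a slit are pairwise not connected and each is connected to another
slit -/
def PG (c n M k : ℕ) (A : Set Edg) (τ σ : Word) : Prop :=
  (∀ i j : ℕ, i < 2 * k → j < 2 * k → i % 2 = c → j % 2 = c → i ≠ j →
    ¬ RB c n M k A τ σ (sec n M k 0 i) (sec n M k 0 j)) ∧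
  (∀ i : ℕ, i < 2 * k → i % 2 = c → ∃ s : ℤ, s ≠ 0 ∧ ∃ j : ℕ, j < 2 * k ∧
    RB c n M k A τ σ (sec n M k 0 i) (sec n M k s j))

/-! ## words: one class is enough -/

/-- `Good` for the sectors of parity `c` only -/
def WG (c p r : ℕ) (w' w : Word) : Prop :=
  (∀ i j : ℕ, i < p + r → j < p + r → i % 2 = c → j % 2 = c → i ≠ j →
    ¬ Cn p r w' w (pt p r w' w 0 i) (pt p r w' w 0 j)) ∧
  (∀ i : ℕ, i < p + r → i % 2 = c → ∃ s : ℤ, s ≠ 0 ∧ ∃ d : ℕ, d < p + r ∧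
    Cn p r w' w (pt p r w' w 0 i) (pt p r w' w s d))

def S_Ws : Prop := ∀ (c p r : ℕ) (w' w : Word), c < 2 → Even (p + r) → 2 ≤ p + r →
  w'.length + p = w.length + r → p ≤ w.length → WG c p r w' w → WG c r p w w'

def S_Wi : Prop := ∀ (c p r i : ℕ) (w' u : Word), c < 2 → Even (p + r) → 2 ≤ p + r → Ok w' → Ok u →
  Even u.length → w'.length + p = u.length + 2 + r → p ≤ i → i ≤ u.length →
  WG c p r w' (lins i u) → WG c p r (cap (i - p + r) w') u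

def S_Wr : Prop := ∀ (c p r : ℕ) (w' u : Word), c < 2 → Even (p + r) → Ok w' → Ok u →
  Even u.length → w'.length + p = u.length + 2 + r → 1 ≤ p → p ≤ u.length + 1 →
  WG c p r w' (lins (p - 1) u) → WG c (p - 1) (r + 1) w' u

def S_Wl : Prop := ∀ (c p r : ℕ) (w' u : Word), c < 2 → Even (p + r) → Ok w' → Ok u →
  Even u.length → w'.length + p = u.length + 2 + r → 1 ≤ p → p ≤ u.length + 1 →
  WG c p r w' (seam u) → WG (1 - c) (p - 1) (r + 1) (rotr w') u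

def S_Wz : Prop := ∀ (c p r i : ℕ) (w' u : Word), c < 2 → Even (p + r) → 4 ≤ p + r → Ok w' → Ok u →
  Even u.length → w'.length + p = u.length + 2 + r → i + 2 ≤ p → p ≤ u.length + 2 →
  ¬ WG c p r w' (lins i u)

/-- **one class is enough** -/
def S_W : Prop := ∀ (c k n : ℕ) (w' w : Word), c < 2 → 2 ≤ k → k ≤ 2 * n → Ok w' → Ok w →
  w'.length = 2 * n → w.length = 2 * n → WG c k k w' w → Good k k w' w

/-- links of the bulk and diagonals -/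
def S_LNK : Prop := ∀ (c n M k : ℕ), c < 2 → 1 ≤ n → k ≤ 2 * n → ∀ F : Finset Edg, F ⊆ CE n M →
  ∀ (τ σ : Wd (2 * n - 1 + 1)) (x y : Pt), Cls M c x → Cls M c y →
  (Relation.EqvGen (Bg n M k F τ.1 σ.1) x y ↔ RB c n M k (Ac c n M F) τ.1 σ.1 x y)

/-- `Good` seen by one class -/
def S_G : Prop := ∀ (c n M k : ℕ), c < 2 → 1 ≤ n → 2 ≤ k → k ≤ 2 * n → ∀ F : Finset Edg,
  F ⊆ CE n M → ∀ σ τ : Wd (2 * n - 1 + 1),
  (Good k k (wup n M F τ) (wdn n M F σ) ↔ PG c n M k (Ac c n M F) τ.1 σ.1)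

/-! ## exploration -/

def S_ABS : Prop := ∀ (V E : Type) (lk : E → V → V → Prop) (f0 fX : V → V → Prop)
  (T D A G H : Set E) (X : Set V) (near : V → V → Prop) (R : Set E → V → V → Prop) (K De : V → Prop),
  (∀ B, R B = Relation.EqvGen (fun u v => f0 u v ∨ fX u v ∨ ∃ e ∈ B, lk e u v)) →
  (∀ u, K u ↔ ∃ x ∈ X, R (A ∩ T) x u) →
  (∀ u, De u ↔ ∃ e ∈ D, ∃ w, lk e u w ∨ lk e w u) →
  (∀ u v, fX u v → u ∈ X ∧ v ∈ X) →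
  (∀ e ∈ T, (∃ u v, lk e u v ∧ (K u ∨ K v)) →
    (∀ u v, lk e u v → K u ∨ K v) ∧ (e ∈ H ↔ e ∈ A)) →
  (∀ e ∈ T, (∀ u v, lk e u v → ¬ K u ∧ ¬ K v) → e ∈ H → e ∈ G) →
  H ⊆ T ∪ D → (∀ e ∈ D, e ∈ H → e ∈ G) → Disjoint T D →
  (∀ u v, K u → De u → Relation.EqvGen (fun a b => f0 a b ∨ ∃ e ∈ G, lk e a b) u v → near u v) →
  (∀ x ∈ X, ∀ x' ∈ X, ∀ u u', R (A ∩ T) x u → R (A ∩ T) x' u' → De u → De u' → near u u' →
    R (A ∩ T) x x') →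
  ∀ x ∈ X, ∀ x' ∈ X, (R H x x' ↔ R (A ∩ T) x x')

def S_PRB : Prop := ∀ (S : Finset Edg) (Ex : Finset Edg → Finset Edg) (A K B : Finset Edg → Prop),
  (∀ F G : Finset Edg, F ⊆ S → G ⊆ S → Ex ((F ∩ Ex F) ∪ (G \ Ex F)) = Ex F) →
  (∀ F G : Finset Edg, F ⊆ S → G ⊆ S → A F → K G → B ((F ∩ Ex F) ∪ (G \ Ex F))) →
  Pr (fun _ => (1 / 2 : ℝ)) S A * Pr (fun _ => (1 / 2 : ℝ)) S K ≤ Pr (fun _ => (1 / 2 : ℝ)) S B

/-! ## coarse geometry -/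

/-- a landing cell: side (`0` top, `1` right, `2` bottom, `3` left) and coordinate -/
abbrev Cel := ℕ × ℤ

/-- the coarse square outside the box `[-N, N)²` next to the cell -/
def csq (N : ℕ) (c : Cel) : ℤ × ℤ :=
  if c.1 = 0 then (c.2, N) else if c.1 = 1 then (N, c.2) else if c.1 = 2 then (c.2, -N - 1)
  else (-N - 1, c.2)

/-- clockwise position -/
def cpos (N : ℕ) (c : Cel) : ℤ :=
  if c.1 = 0 then c.2 + N else if c.1 = 1 then 2 * N + (N - 1 - c.2)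
  else if c.1 = 2 then 4 * N + (N - 1 - c.2) else 6 * N + (c.2 + N)

/-- admissible cells -/
def Adm (N k : ℕ) (c : Fin k → Cel) : Prop :=
  (∀ a, (c a).1 < 4 ∧ -(N : ℤ) ≤ (c a).2 ∧ (c a).2 < N) ∧
  (∀ a b, a < b → cpos N (c a) < cpos N (c b)) ∧
  (∀ a b, a ≠ b → 2 ≤ |(csq N (c a)).1 - (csq N (c b)).1| ∨ 2 ≤ |(csq N (c a)).2 - (csq N (c b)).2|)

def rad (N k a : ℕ) : ℤ := N + 1 + 2 * ((k : ℤ) - 1 - a)
def hgt (N k : ℕ) : ℤ := N + 2 * k + 1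
/-- the period in coarse units -/
def prd (N k : ℕ) : ℕ := 4 * (N + 4 * k)

/-- the arm number `a` (clockwise spiral from its cell to the upper left) -/
def ArmS (N k a : ℕ) (c : Cel) : Set (ℤ × ℤ) := {z |
  (c.1 = 0 ∧ ((z.1 = c.2 ∧ N ≤ z.2 ∧ z.2 ≤ rad N k a) ∨
    (z.2 = rad N k a ∧ c.2 ≤ z.1 ∧ z.1 ≤ rad N k a))) ∨
  (c.1 = 1 ∧ z.2 = c.2 ∧ N ≤ z.1 ∧ z.1 ≤ rad N k a) ∨
  (c.1 = 2 ∧ z.1 = c.2 ∧ -rad N k a - 1 ≤ z.2 ∧ z.2 ≤ -N - 1) ∨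
  (c.1 = 3 ∧ z.2 = c.2 ∧ -rad N k a - 1 ≤ z.1 ∧ z.1 ≤ -N - 1) ∨
  (c.1 ≤ 1 ∧ z.1 = rad N k a ∧ -rad N k a - 1 ≤ z.2 ∧ z.2 ≤ (if c.1 = 0 then rad N k a else c.2)) ∨
  (c.1 ≤ 2 ∧ z.2 = -rad N k a - 1 ∧ -rad N k a - 1 ≤ z.1 ∧
    z.1 ≤ (if c.1 ≤ 1 then rad N k a else c.2)) ∨
  (z.1 = -rad N k a - 1 ∧ (if c.1 ≤ 2 then -rad N k a - 1 else c.2) ≤ z.2 ∧ z.2 ≤ hgt N k)}

/-- the link from the arm `k - 1 - i` of the box `0` to the arm `i` of the box `1` -/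
def LinkS (N k i : ℕ) : Set (ℤ × ℤ) := {z |
  (z.1 = -rad N k (k - 1 - i) - 1 ∧ hgt N k ≤ z.2 ∧ z.2 ≤ hgt N k + 2 * (i + 1)) ∨
  (z.2 = hgt N k + 2 * (i + 1) ∧ -rad N k (k - 1 - i) - 1 ≤ z.1 ∧
    z.1 ≤ prd N k - rad N k 0 - 1 - 2 * (i + 1)) ∨
  (z.1 = prd N k - rad N k 0 - 1 - 2 * (i + 1) ∧ hgt N k + 2 * (i + 1) ≤ z.2 ∧
    z.2 ≤ prd N k + hgt N k + 2 * (i + 1)) ∨
  (z.2 = prd N k + hgt N k + 2 * (i + 1) ∧ prd N k - rad N k 0 - 1 - 2 * (i + 1) ≤ z.1 ∧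
    z.1 ≤ prd N k - rad N k i - 1) ∨
  (z.1 = prd N k - rad N k i - 1 ∧ prd N k + hgt N k ≤ z.2 ∧
    z.2 ≤ prd N k + hgt N k + 2 * (i + 1))}

/-- labels of the tubes -/
def labA (k a : ℕ) (s : ℤ) : ℕ × ℤ :=
  if k - 1 < 2 * a then (k - 1 - a, s) else if 2 * a < k - 1 then (a, s - 1) else (a, 0)
def labL (k i : ℕ) (s : ℤ) : ℕ × ℤ := if 2 * i = k - 1 then (i, 0) else (i, s)

/-- translation by `s` periods -/
def shf (N k : ℕ) (s : ℤ) (z : ℤ × ℤ) : ℤ × ℤ := (z.1 - s * prd N k, z.2 - s * prd N k)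

/-- the tube with label `L` -/
def Tube (N k : ℕ) (c : Fin k → Cel) (L : ℕ × ℤ) : Set (ℤ × ℤ) := {z |
  (∃ (a : Fin k) (s : ℤ), labA k a s = L ∧ shf N k s z ∈ ArmS N k a (c a)) ∨
  (∃ (i : ℕ) (s : ℤ), 2 * i ≤ k - 1 ∧ labL k i s = L ∧ shf N k s z ∈ LinkS N k i)}

/-- the box number `s` -/
def BxS (N k : ℕ) (s : ℤ) : Set (ℤ × ℤ) := {z | -(N : ℤ) ≤ (shf N k s z).1 ∧ (shf N k s z).1 < N ∧
  -(N : ℤ) ≤ (shf N k s z).2 ∧ (shf N k s z).2 < N}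
def Bxs (N k : ℕ) : Set (ℤ × ℤ) := {z | ∃ s, z ∈ BxS N k s}
def Crr (N k : ℕ) (c : Fin k → Cel) : Set (ℤ × ℤ) := {z | ∃ L, z ∈ Tube N k c L}

/-- edges and vertices of the closed coarse squares of side `r` -/
def EP (r : ℕ) (P : Set (ℤ × ℤ)) : Set Edg := {e | ∃ z ∈ P, e ∈ sqE r z}
def inSq (r : ℕ) (z : ℤ × ℤ) (v : Vtx) : Prop :=
  r * z.1 ≤ v.1 ∧ v.1 ≤ r * z.1 + r ∧ r * z.2 ≤ v.2 ∧ v.2 ≤ r * z.2 + r

def S_g1 : Prop := ∀ (N k : ℕ) (c : Fin k → Cel), 1 ≤ N → 2 ≤ k → Adm N k c →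
  ∀ (L L' : ℕ × ℤ) (z z' : ℤ × ℤ), z ∈ Tube N k c L → z' ∈ Tube N k c L' →
  |z.1 - z'.1| ≤ 1 → |z.2 - z'.2| ≤ 1 → L = L'

def S_g2 : Prop := ∀ (N k : ℕ) (c : Fin k → Cel), 1 ≤ N → 2 ≤ k → Adm N k c →
  ∀ (L : ℕ × ℤ) (s : ℤ) (z b : ℤ × ℤ), z ∈ Tube N k c L → b ∈ BxS N k s →
  |z.1 - b.1| ≤ 1 → |z.2 - b.2| ≤ 1 → ∃ a : Fin k, labA k a s = L ∧ shf N k s z = csq N (c a)

/-- the tubes are connected and contain their cells -/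
def S_g3 : Prop := ∀ (N k : ℕ) (c : Fin k → Cel), 1 ≤ N → 2 ≤ k → Adm N k c →
  (∀ (r : ℕ) (L : ℕ × ℤ) (z z' : ℤ × ℤ) (u v : Vtx), 1 ≤ r → z ∈ Tube N k c L →
    z' ∈ Tube N k c L → inSq r z u → inSq r z' v →
    Reach (EP r (Tube N k c L) \ EP r (Bxs N k)) u v) ∧
  (∀ (a : Fin k) (s : ℤ) (z : ℤ × ℤ), shf N k s z = csq N (c a) → z ∈ Tube N k c (labA k a s))

/-- no checkerboard, periodicity, extent -/
def S_g4 : Prop := ∀ (N k : ℕ) (c : Fin k → Cel), 1 ≤ N → 2 ≤ k → Adm N k c →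
  ∀ P : Set (ℤ × ℤ), P = Bxs N k ∪ Crr N k c →
  (∀ x y : ℤ, (x, y) ∉ P → (x + 1, y + 1) ∉ P → (x + 1, y) ∉ P ∨ (x, y + 1) ∉ P) ∧
  (∀ x y : ℤ, (x + 1, y) ∉ P → (x, y + 1) ∉ P → (x, y) ∉ P ∨ (x + 1, y + 1) ∉ P) ∧
  (∀ (z : ℤ × ℤ) (s : ℤ), z ∈ P ↔ shf N k s z ∈ P) ∧
  (∀ z ∈ P, |z.1 - z.2| ≤ prd N k)

/-! ## the slit event in a box -/

/-- links of the box `|v| ≤ R` cut along the slit: the vertices `(i, i)`, `0 < 2 i < k`, are split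
(`false`: edges above the diagonal, `true`: edges below it) -/
inductive CL (k : ℕ) (R : ℤ) (G : Set Edg) : Vtx × Bool → Vtx × Bool → Prop
  | edge (e : Edg) : e ∈ G → nm (src e) ≤ R → nm (tgt e) ≤ R →
      CL k R G (src e, decide (0 ≤ dco e)) (tgt e, decide (0 ≤ dco e))
  | idn (v : Vtx) : nm v ≤ R → ¬ (v.1 = v.2 ∧ 0 < 2 * v.1 ∧ 2 * v.1 < k) →
      CL k R G (v, false) (v, true)

def Cb (k : ℕ) (R : ℤ) (G : Set Edg) : Vtx × Bool → Vtx × Bool → Prop :=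
  Relation.EqvGen (CL k R G)

/-- the `k` vertices around the slit (`i` even) -/
def sv (k i : ℕ) : Vtx × Bool :=
  if i ≤ k then (((i / 2 : ℕ), (i / 2 : ℕ)), false)
  else ((((2 * k - i) / 2 : ℕ), ((2 * k - i) / 2 : ℕ)), true)

/-- the `k` vertices around the slit are in different clusters which reach distance `R` -/
def SE (k : ℕ) (R : ℤ) (G : Set Edg) : Prop :=
  (∀ i j : ℕ, i < 2 * k → j < 2 * k → i % 2 = 0 → j % 2 = 0 → i ≠ j → ¬ Cb k R G (sv k i) (sv k j)) ∧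
  (∀ i : ℕ, i < 2 * k → i % 2 = 0 → ∃ (y : Vtx) (β : Bool), nm y = R ∧ Cb k R G (sv k i) (y, β))

/-- its probability -/
noncomputable def sP (k R : ℕ) : ℝ :=
  Pr (fun _ => (1 / 2 : ℝ)) (boxE R) (fun F => SE k R (↑F : Set Edg))

/-- the clusters land at the cells `c`, and different cells are not connected -/
def Land (N r k : ℕ) (c : Fin k → Cel) (G : Set Edg) : Prop :=
  (∃ π : Fin k → ℕ, Function.Injective π ∧ ∀ a, π a < 2 * k ∧ π a % 2 = 0 ∧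
    ∃ v : Vtx, inSq r (csq N (c a)) v ∧ nm v = (N * r : ℕ) ∧
      Cb k (N * r : ℕ) G (sv k (π a)) (v, false)) ∧
  (∀ a b, a ≠ b → ∀ u v : Vtx, inSq r (csq N (c a)) u → nm u = (N * r : ℕ) →
    inSq r (csq N (c b)) v → nm v = (N * r : ℕ) → ¬ Cb k (N * r : ℕ) G (u, false) (v, false))

/-! ## the configurations of the steps: `n = prd N k * r`, `M = 4 n` -/

/-- probability in the finite cylinder -/
noncomputable def PC (n M : ℕ) (A : Finset Edg → Prop) : ℝ :=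
  Pr (fun _ => (1 / 2 : ℝ)) (CE n M) A

open Classical in
/-- boxes random, tubes open, the rest closed -/
noncomputable def FA (N r k : ℕ) (c : Fin k → Cel) (n M : ℕ) (F : Finset Edg) : Finset Edg :=
  (CE n M).filter (fun e => (e ∈ EP r (Bxs N k) ∧ e ∈ F) ∨
    (e ∉ EP r (Bxs N k) ∧ e ∈ EP r (Crr N k c)))

open Classical in
/-- boxes and tubes random, the rest closed -/
noncomputable def FB (N r k : ℕ) (c : Fin k → Cel) (n M : ℕ) (F : Finset Edg) : Finset Edg :=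
  (CE n M).filter (fun e => (e ∈ EP r (Bxs N k) ∨ e ∈ EP r (Crr N k c)) ∧ e ∈ F)

def S_DET : Prop := ∀ (N r k : ℕ) (c : Fin k → Cel), 2 ≤ k → k + 4 ≤ N → 2 ≤ r → Adm N k c →
  ∀ (n M : ℕ), n = prd N k * r → M = 4 * n → ∀ F : Finset Edg, F ⊆ CE n M →
  Land N r k c (per n F) → ∀ τ σ : Word, PG 0 n M k (↑(FA N r k c n M F)) τ σ

def S_DETP : Prop := ∀ (N r k : ℕ) (c : Fin k → Cel), 2 ≤ k → k + 4 ≤ N → 2 ≤ r → Adm N k c →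
  ∀ (n M : ℕ), n = prd N k * r → M = 4 * n → ∀ τ σ : Word,
  Pr (fun _ => (1 / 2 : ℝ)) (boxE (N * r)) (fun F => Land N r k c (↑F : Set Edg)) ≤
    PC n M (fun F => PG 0 n M k (↑(FA N r k c n M F)) τ σ)

/-! ## trap and bad events -/

/-- all clusters of class `c` in the central band are small -/
def Trap (c n M l : ℕ) (G : Finset Edg) : Prop := ∀ x y : Pt, Cls M c x → M ≤ x.1.2 + 2 * n →
  Relation.EqvGen (fun x y => (∃ j : ℤ, x = ((j, M), false) ∧ y = ((j, M), true)) ∨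
    ∃ e ∈ Ac c n M G, Dg n M c e x y) x y → Nr (4 * l) (vx M x) (vx M y)

def S_TRAP : Prop := ∀ ν M4 : ℕ, 1 ≤ ν → 1 ≤ M4 → ∃ κ : ℝ, 0 < κ ∧ ∃ r0 : ℕ, ∀ (c r : ℕ), c < 2 →
  r0 ≤ r → κ ≤ PC (ν * r) (4 * (ν * r)) (Trap c (ν * r) (4 * (ν * r)) (r / M4))

/-- the planar configuration of class `c` -/
def Cc (c n M : ℕ) (F : Finset Edg) : Set Edg := {e | if c = 0 then e ∈ per n F else
  -(M : ℤ) ≤ dco e ∧ dco e < M ∧ edz (e.1 + e.2.1 + 1) (dco e) ∉ per n F}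

/-- bad event outside the boxes `|v - s (n, n)| < N r - 1`: an arm near a coarse vertex or three
arms along a coarse line -/
def Bad (c N r ρ l ν n M : ℕ) (F : Finset Edg) : Prop :=
  (∃ ζ : ℤ × ℤ, |ζ.1 - ζ.2| ≤ 2 * ν ∧ (∀ s : ℤ, (N : ℤ) ≤ |ζ.1 - s * ν| ∨ (N : ℤ) ≤ |ζ.2 - s * ν|) ∧
    Crs (r * ζ.1) (r * ζ.2) (4 * ρ) (r / 2) (Cc c n M F)) ∨
  (∃ (d : Dir) (x0 y0 i j : ℤ), |x0 - y0| ≤ 2 * n ∧
    (∀ s : ℤ, (N : ℤ) * r - 1 ≤ |x0 - s * n| ∨ (N : ℤ) * r - 1 ≤ |y0 - s * n|) ∧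
    (((d = Dir.up ∨ d = Dir.dn) ∧ x0 = l * i ∧ (y0 = r * j ∨ y0 = r * j - 1)) ∨
      ((d = Dir.rt ∨ d = Dir.lf) ∧ y0 = l * i ∧ (x0 = r * j ∨ x0 = r * j - 1))) ∧
    H4 d x0 y0 (8 * l) ρ (Cc c n M F))

def S_BADP : Prop := ∀ (N ν : ℕ), 1 ≤ N → 4 * N ≤ ν → ∀ δ : ℝ, 0 < δ → ∃ M3 M4 : ℕ, 64 ≤ M3 ∧
  64 * M3 ≤ M4 ∧ ∀ (c r : ℕ), c < 2 → M4 ≤ r →
  PC (ν * r) (4 * (ν * r)) (Bad c N r (r / M3) (r / M4) ν (ν * r) (4 * (ν * r))) ≤ δ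

/-- leaving a region -/
def S_EXI : Prop := ∀ (c n M k : ℕ), c < 2 → 1 ≤ n → k ≤ 2 * n → ∀ F : Finset Edg, F ⊆ CE n M →
  ∀ (τ σ : Word) (x y : Pt) (P : Vtx → Prop), Cls M c x → Cls M c y →
  RB c n M k (Ac c n M F) τ σ x y → P (vx M x) → ¬ P (vx M y) → (∀ v, P v → |v.1 - v.2| + 2 < M) →
  ∃ v w : Vtx, Reach (Cc c n M F ∩ {e | P (src e) ∧ P (tgt e)}) (vx M x) v ∧ P v ∧ ¬ P w ∧
    ∃ e ∈ Cc c n M F, (src e = v ∧ tgt e = w) ∨ (src e = w ∧ tgt e = v)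

/-- lifting paths of a region away from the slits and the ends -/
def S_LIF : Prop := ∀ (c n M k : ℕ), c < 2 → 1 ≤ n → k ≤ 2 * n → ∀ F : Finset Edg, F ⊆ CE n M →
  ∀ (τ σ : Word) (x y : Pt) (P : Vtx → Prop), Cls M c x → Cls M c y →
  (∀ v, P v → |v.1 - v.2| + 2 < M ∧ ∀ s : ℤ, ¬ (v.1 = v.2 ∧ s * n - 1 ≤ v.1 ∧ v.1 ≤ s * n + k)) →
  P (vx M x) → Reach (Cc c n M F ∩ {e | P (src e) ∧ P (tgt e)}) (vx M x) (vx M y) →
  RB c n M k (Ac c n M F) τ σ x y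

/-- class 0: different clusters are far from each other at the boundary of boxes and tubes -/
def S_SEPB : Prop := ∀ (N r k ρ l : ℕ) (c : Fin k → Cel), 2 ≤ k → k + 4 ≤ N → Adm N k c → 1 ≤ l →
  32 * l ≤ ρ → 32 * ρ ≤ r → ∀ (n M : ℕ), n = prd N k * r → M = 4 * n → ∀ F : Finset Edg,
  F ⊆ CE n M → ¬ Bad 0 N r ρ l (prd N k) n M F → ∀ (τ σ : Word) (s s' : ℤ) (i i' : ℕ) (u u' : Pt),
  i < 2 * k → i' < 2 * k → i % 2 = 0 → i' % 2 = 0 →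
  RB 0 n M k (↑(FB N r k c n M F)) τ σ (sec n M k s i) u →
  RB 0 n M k (↑(FB N r k c n M F)) τ σ (sec n M k s' i') u' →
  (∃ e ∈ CE n M, e ∉ EP r (Bxs N k) ∧ e ∉ EP r (Crr N k c) ∧ ∃ w, Dg n M 0 e u w ∨ Dg n M 0 e w u) →
  (∃ e ∈ CE n M, e ∉ EP r (Bxs N k) ∧ e ∉ EP r (Crr N k c) ∧
    ∃ w, Dg n M 0 e u' w ∨ Dg n M 0 e w u') →
  Nr (4 * l) (vx M u) (vx M u') →
  RB 0 n M k (↑(FB N r k c n M F)) τ σ (sec n M k s i) (sec n M k s' i')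

/-- the marked points of class 1: odd sectors and the points of the closed region -/
def XA (N r k : ℕ) (c : Fin k → Cel) (n M : ℕ) (p : Pt) : Prop :=
  (∃ (s : ℤ) (i : ℕ), i < 2 * k ∧ i % 2 = 1 ∧ p = sec n M k s i) ∨
  (∃ e ∈ CE n M, e ∉ EP r (Bxs N k) ∧ e ∉ EP r (Crr N k c) ∧ ∃ w, Dg n M 1 e p w ∨ Dg n M 1 e w p)

/-- class 1 -/
def S_SEPA : Prop := ∀ (N r k ρ l : ℕ) (c : Fin k → Cel), 2 ≤ k → k + 4 ≤ N → Adm N k c → 1 ≤ l →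
  32 * l ≤ ρ → 32 * ρ ≤ r → ∀ (n M : ℕ), n = prd N k * r → M = 4 * n → ∀ F : Finset Edg,
  F ⊆ CE n M → ¬ Bad 1 N r ρ l (prd N k) n M F → ∀ (τ σ : Word) (p p' u u' : Pt),
  XA N r k c n M p → XA N r k c n M p' →
  RB 1 n M k (Ac 1 n M (FA N r k c n M F)) τ σ p u →
  RB 1 n M k (Ac 1 n M (FA N r k c n M F)) τ σ p' u' →
  (∃ e ∈ CE n M, e ∉ EP r (Bxs N k) ∧ e ∈ EP r (Crr N k c) ∧ ∃ w, Dg n M 1 e u w ∨ Dg n M 1 e w u) →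
  (∃ e ∈ CE n M, e ∉ EP r (Bxs N k) ∧ e ∈ EP r (Crr N k c) ∧
    ∃ w, Dg n M 1 e u' w ∨ Dg n M 1 e w u') →
  Nr (4 * l) (vx M u) (vx M u') →
  RB 1 n M k (Ac 1 n M (FA N r k c n M F)) τ σ p p'

/-- the leg event implies the slit event in a smaller box -/
def S_DEC : Prop := ∀ (n M k R : ℕ), 2 ≤ k → k ≤ R → 4 * R ≤ n → 2 * R ≤ M → ∀ (B F : Finset Edg),
  B ⊆ CE n M → F ⊆ CE n M → (∀ e ∈ boxE R, red n e ∈ B ↔ red n e ∈ F) → ∀ τ σ : Word,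
  PG 0 n M k (↑B) τ σ → SE k R (per n F)

/-- independence -/
def S_IND : Prop := ∀ (c N r ρ l ν k : ℕ), c < 2 → 4 ≤ N → 4 * N ≤ ν → 2 ≤ r → 32 * l ≤ ρ → 1 ≤ l →
  32 * ρ ≤ r → PC (ν * r) (4 * (ν * r)) (fun F => SE k (N * r / 2 : ℕ) (per (ν * r) F) ∧
      Bad c N r ρ l ν (ν * r) (4 * (ν * r)) F)
    ≤ sP k (N * r / 2) * PC (ν * r) (4 * (ν * r)) (Bad c N r ρ l ν (ν * r) (4 * (ν * r)))

/-! ## the three steps -/

def S_STB : Prop := ∀ (N k : ℕ) (c : Fin k → Cel), 2 ≤ k → k + 4 ≤ N → Adm N k c →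
  ∀ δ : ℝ, 0 < δ → ∃ C : ℝ, 0 < C ∧ ∃ r0 : ℕ, ∀ r : ℕ, r0 ≤ r → ∀ (n M : ℕ), n = prd N k * r →
  M = 4 * n → ∀ σ τ : Wd (2 * n - 1 + 1),
  PC n M (fun F => PG 0 n M k (↑(FB N r k c n M F)) τ.1 σ.1) ≤
    δ * sP k (N * r / 2) + C * PC n M (fun F => PG 0 n M k (Ac 0 n M F) τ.1 σ.1)

def S_STA : Prop := ∀ (N k : ℕ) (c : Fin k → Cel), 2 ≤ k → k + 4 ≤ N → Adm N k c →
  ∀ δ : ℝ, 0 < δ → ∃ C : ℝ, 0 < C ∧ ∃ r0 : ℕ, ∀ r : ℕ, r0 ≤ r → ∀ (n M : ℕ), n = prd N k * r →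
  M = 4 * n → ∀ σ τ : Wd (2 * n - 1 + 1),
  PC n M (fun F => PG 0 n M k (↑(FA N r k c n M F)) τ.1 σ.1) ≤
    δ * sP k (N * r / 2) + C * PC n M (fun F => PG 0 n M k (↑(FB N r k c n M F)) τ.1 σ.1)

/-- landing -/
def S_LAND : Prop := ∀ k : ℕ, 2 ≤ k → ∀ δ : ℝ, 0 < δ → ∃ N : ℕ, k + 4 ≤ N ∧
  ∃ Cs : Finset (Fin k → Cel), (∀ c ∈ Cs, Adm N k c) ∧ ∃ r0 : ℕ, ∀ r : ℕ, r0 ≤ r →
  sP k (N * r) ≤ δ * sP k (N * r / 2) + ∑ c ∈ Cs,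
    Pr (fun _ => (1 / 2 : ℝ)) (boxE (N * r)) (fun F => Land N r k c (↑F : Set Edg))

/-- the recursion -/
def S_RCR : Prop := ∀ k : ℕ, 2 ≤ k → ∀ δ : ℝ, 0 < δ → ∃ N : ℕ, k + 4 ≤ N ∧ ∃ C : ℝ, 0 < C ∧
  ∃ r0 : ℕ, ∀ r : ℕ, r0 ≤ r →
  sP k (N * r) ≤ δ * sP k (N * r / 2) + C * (r : ℝ) ^ (-((4 * (k : ℝ) ^ 2 - 1) / 12))

/-- monotonicity -/
def S_MON : Prop := ∀ k R R' : ℕ, 2 ≤ k → k ≤ R → R ≤ R' → sP k R' ≤ sP k R

/-- **upper bound** -/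
def S_UB : Prop := ∀ k : ℕ, 2 ≤ k → ∃ C : ℝ, 0 < C ∧ ∀ m : ℕ, k ≤ m →
  sP k m ≤ C * (m : ℝ) ^ (-((4 * (k : ℝ) ^ 2 - 1) / 12))

/-- **lower bound** -/
def S_LB : Prop := ∀ k : ℕ, 2 ≤ k → ∃ c : ℝ, 0 < c ∧ ∀ m : ℕ, k ≤ m →
  c * (m : ℝ) ^ (-((4 * (k : ℝ) ^ 2 - 1) / 12)) ≤ sP k m

end Pool.Agent.H160R2.MU
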