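import Pool.Agent.H160R2.MU.Defs

/-! LAND, deterministic part (helper85). -/

set_option autoImplicit false

namespace Pool.Agent.H160R2.MU.TLAND
open Pool.Agent.H160R2.MU
open Pool.Agent.H863R2.Cyl
open Pool.Agent.H160R2.ML
open H974 H906.Cyl
open H12S (Dir hbE segD rimE H4 Crs Nr H3g)

theorem eqv_iff {α : Type*} {E : α → α → Prop} (P : α → Prop)
    (h : ∀ a b, E a b → (P a ↔ P b)) {a b : α} (hab : Relation.EqvGen E a b) : P a ↔ P b := by
  induction hab with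
  | rel a b h1 => exact h a b h1
  | refl a => exact Iff.rfl
  | symm a b _ ih => exact ih.symm
  | trans a b c _ _ ih1 ih2 => exact ih1.trans ih2

theorem nm_le {v : Vtx} {t : ℤ} : nm v ≤ t ↔ (-t ≤ v.1 ∧ v.1 ≤ t) ∧ (-t ≤ v.2 ∧ v.2 ≤ t) := by
  unfold nm
  rw [max_le_iff, abs_le, abs_le]

theorem nm_eq {v : Vtx} {t : ℤ} (h : nm v = t) :
    ((-t ≤ v.1 ∧ v.1 ≤ t) ∧ (-t ≤ v.2 ∧ v.2 ≤ t)) ∧ (v.2 = t ∨ v.1 = t ∨ v.2 = -t ∨ v.1 = -t) := by
  refine ⟨nm_le.1 h.le, ?_⟩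
  unfold nm at h
  rcases max_choice |v.1| |v.2| with h1 | h1
  · rw [h1] at h
    rcases abs_choice v.1 with h2 | h2
    · rw [h2] at h; exact Or.inr (Or.inl h)
    · rw [h2] at h; right; right; right; omega
  · rw [h1] at h
    rcases abs_choice v.2 with h2 | h2
    · rw [h2] at h; exact Or.inl h
    · rw [h2] at h; right; right; left; omega

/-- exit of a region -/
theorem cb_exit {k : ℕ} {R : ℤ} {G : Set Edg} {P : Vtx → Prop} {S : Set Edg}
    (hS : ∀ e ∈ G, nm (src e) ≤ R → nm (tgt e) ≤ R → (P (src e) ∨ P (tgt e)) → e ∈ S)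
    {u w : Vtx} {β γ : Bool} (h : Cb k R G (u, β) (w, γ)) (hu : P u) (hw : ¬ P w) :
    ∃ z, ¬ P z ∧ Reach (G ∩ S) u z := by
  by_contra hA
  have key : ∀ a b : Vtx × Bool, CL k R G a b →
      ((P a.1 ∧ Reach (G ∩ S) u a.1) ↔ (P b.1 ∧ Reach (G ∩ S) u b.1)) := by
    have step : ∀ e ∈ G, nm (src e) ≤ R → nm (tgt e) ≤ R → ∀ x y : Vtx,
        ((src e = x ∧ tgt e = y) ∨ (src e = y ∧ tgt e = x)) → (P x ∧ Reach (G ∩ S) u x) →
          (P y ∧ Reach (G ∩ S) u y) := by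
      intro e he h1 h2 x y hxy hx
      have heS : e ∈ S := by
        refine hS e he h1 h2 ?_
        rcases hxy with ⟨rfl, -⟩ | ⟨-, rfl⟩
        · exact Or.inl hx.1
        · exact Or.inr hx.1
      have hr : Reach (G ∩ S) u y :=
        Relation.ReflTransGen.tail hx.2 ⟨e, ⟨he, heS⟩, hxy⟩
      refine ⟨?_, hr⟩
      by_contra hy
      exact hA ⟨y, hy, hr⟩
    intro a b hab
    cases hab with
    | edge e he h1 h2 =>
      exact ⟨step e he h1 h2 _ _ (Or.inl ⟨rfl, rfl⟩), step e he h1 h2 _ _ (Or.inr ⟨rfl, rfl⟩)⟩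
    | idn v _ _ => exact Iff.rfl
  have h1 := (eqv_iff (fun a => P a.1 ∧ Reach (G ∩ S) u a.1) key h).1 ⟨hu, Reach.refl _ _⟩
  exact hw h1.1

/-- paths away from the slit -/
theorem reach_cb {k : ℕ} {R : ℤ} {G : Set Edg} {S : Set Edg}
    (hS : ∀ e ∈ S, (k : ℤ) < nm (src e) ∧ nm (src e) ≤ R ∧ (k : ℤ) < nm (tgt e) ∧ nm (tgt e) ≤ R)
    {u v : Vtx} (h : Reach (G ∩ S) u v) : Cb k R G (u, false) (v, false) := by
  have hidn : ∀ z : Vtx, (k : ℤ) < nm z → nm z ≤ R → ∀ β : Bool, Cb k R G (z, β) (z, false) := by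
    intro z h1 h2 β
    cases β
    · exact Relation.EqvGen.refl _
    · refine Relation.EqvGen.symm _ _ (Relation.EqvGen.rel _ _ (CL.idn z h2 ?_))
      rintro ⟨e1, e2, e3⟩
      have : nm z ≤ k := nm_le.2 (by omega)
      omega
  induction h with
  | refl => exact Relation.EqvGen.refl _
  | tail _ hs ih =>
    rename_i x y _
    obtain ⟨e, ⟨heG, heS⟩, hxy⟩ := hs
    obtain ⟨h1, h2, h3, h4⟩ := hS e heS
    have he : Cb k R G (src e, decide (0 ≤ dco e)) (tgt e, decide (0 ≤ dco e)) :=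
      Relation.EqvGen.rel _ _ (CL.edge e heG h2 h4)
    have he2 : Cb k R G (src e, false) (tgt e, false) :=
      Relation.EqvGen.trans _ _ _ (Relation.EqvGen.symm _ _ (hidn _ h1 h2 _))
        (Relation.EqvGen.trans _ _ _ he (hidn _ h3 h4 _))
    rcases hxy with ⟨rfl, rfl⟩ | ⟨rfl, rfl⟩
    · exact Relation.EqvGen.trans _ _ _ ih he2
    · exact Relation.EqvGen.trans _ _ _ ih (Relation.EqvGen.symm _ _ he2)

/-- the point of the side `d` with coordinate `x` -/
def ctr (d : Dir) (R x : ℤ) : ℤ × ℤ :=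
  match d with
  | Dir.dn => (x, R)
  | Dir.up => (x, -R)
  | Dir.lf => (R, x)
  | Dir.rt => (-R, x)

/-- tangential coordinate -/
def tc (d : Dir) (v : Vtx) : ℤ :=
  match d with
  | Dir.dn => v.1
  | Dir.up => v.1
  | Dir.lf => v.2
  | Dir.rt => v.2

/-- on the side `d` -/
def onS (d : Dir) (R : ℤ) (v : Vtx) : Prop :=
  match d with
  | Dir.dn => v.2 = R
  | Dir.up => v.2 = -R
  | Dir.lf => v.1 = R
  | Dir.rt => v.1 = -R

/-- the interior of the half ball -/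
def Pin (d : Dir) (R x : ℤ) (b : ℕ) (v : Vtx) : Prop :=
  nm v ≤ R ∧ |v.1 - (ctr d R x).1| < b ∧ |v.2 - (ctr d R x).2| < b

theorem pin_edge {d : Dir} {R x : ℤ} {b : ℕ} (hb : (b : ℤ) ≤ R) (hx : |x| + b ≤ R) (e : Edg)
    (h1 : nm (src e) ≤ R) (h2 : nm (tgt e) ≤ R) (h : Pin d R x b (src e) ∨ Pin d R x b (tgt e)) :
    e ∈ (↑(hbE d (ctr d R x).1 (ctr d R x).2 b) : Set Edg) := by
  rw [Finset.mem_coe]
  obtain ⟨p, q, _ | _⟩ := e
  · simp only [src, tgt, Bool.false_eq_true, if_false] at *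
    rw [nm_le] at h1 h2
    rw [← sub_nonneg] at hx
    rcases h with ⟨-, h3, h4⟩ | ⟨-, h3, h4⟩ <;> cases d <;>
      simp only [ctr, hbE, mem_RE_false] at * <;> rw [abs_lt] at h3 h4 <;>
      rcases abs_cases x with ⟨hx1, -⟩ | ⟨hx1, -⟩ <;> rw [hx1] at hx <;> omega
  · simp only [src, tgt, if_true] at *
    rw [nm_le] at h1 h2
    rcases h with ⟨-, h3, h4⟩ | ⟨-, h3, h4⟩ <;> cases d <;>
      simp only [ctr, hbE, mem_RE_true] at * <;> rw [abs_lt] at h3 h4 <;>
      rcases abs_cases x with ⟨hx1, -⟩ | ⟨hx1, -⟩ <;> rw [hx1] at hx <;> omega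

theorem hbE_ends {d : Dir} {R x : ℤ} {b : ℕ} (hx : |x| + b ≤ R) (e : Edg)
    (he : e ∈ hbE d (ctr d R x).1 (ctr d R x).2 b) :
    (R - b ≤ nm (src e) ∧ nm (src e) ≤ R) ∧ (R - b ≤ nm (tgt e) ∧ nm (tgt e) ≤ R) := by
  have key : ∀ v : Vtx, (-R ≤ v.1 ∧ v.1 ≤ R) → (-R ≤ v.2 ∧ v.2 ≤ R) →
      (R - b ≤ v.2 ∨ R - b ≤ v.1 ∨ v.2 ≤ -(R - b) ∨ v.1 ≤ -(R - b)) →
      R - b ≤ nm v ∧ nm v ≤ R := by
    intro v h1 h2 h3
    refine ⟨?_, nm_le.2 ⟨h1, h2⟩⟩
    unfold nm
    rcases h3 with h | h | h | h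
    · exact h.trans ((le_abs_self _).trans (le_max_right _ _))
    · exact h.trans ((le_abs_self _).trans (le_max_left _ _))
    · have : R - b ≤ -v.2 := by omega
      exact this.trans ((neg_le_abs _).trans (le_max_right _ _))
    · have : R - b ≤ -v.1 := by omega
      exact this.trans ((neg_le_abs _).trans (le_max_left _ _))
  have hx1 := le_abs_self x
  have hx2 := neg_abs_le x
  obtain ⟨p, q, _ | _⟩ := e
  · cases d <;> simp only [ctr, hbE, mem_RE_false] at he <;>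
      simp only [src, tgt, Bool.false_eq_true, if_false] <;>
      exact ⟨key _ (by dsimp only; omega) (by dsimp only; omega) (by dsimp only; omega),
        key _ (by dsimp only; omega) (by dsimp only; omega) (by dsimp only; omega)⟩
  · cases d <;> simp only [ctr, hbE, mem_RE_true] at he <;>
      simp only [src, tgt, if_true] <;>
      exact ⟨key _ (by dsimp only; omega) (by dsimp only; omega) (by dsimp only; omega),
        key _ (by dsimp only; omega) (by dsimp only; omega) (by dsimp only; omega)⟩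

/-- a point of the closed half ball outside its interior is on the rim -/
theorem rim_of {d : Dir} {R x : ℤ} {b : ℕ} (hx : |x| + b ≤ R) {z : Vtx}
    (hz : ¬ Pin d R x b z) (h : (∃ e ∈ hbE d (ctr d R x).1 (ctr d R x).2 b, src e = z ∨ tgt e = z)) :
    z ∈ rimE d (ctr d R x).1 (ctr d R x).2 b := by
  obtain ⟨e, he, hez⟩ := h
  have h1 := hbE_ends hx e he
  have hnz : nm z ≤ R := by
    rcases hez with rfl | rfl
    · exact h1.1.2
    · exact h1.2.2
  have hin : ∀ a b' c d' : ℤ, e ∈ RE a b' c d' → inR a b' c d' z := by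
    intro a b' c d' he'
    unfold inR
    obtain ⟨p, q, _ | _⟩ := e
    · rw [mem_RE_false] at he'
      simp only [src, tgt, Bool.false_eq_true, if_false] at hez
      rcases hez with rfl | rfl <;> dsimp only <;> omega
    · rw [mem_RE_true] at he'
      simp only [src, tgt, if_true] at hez
      rcases hez with rfl | rfl <;> dsimp only <;> omega
  have hz' : ¬ (|z.1 - (ctr d R x).1| < b ∧ |z.2 - (ctr d R x).2| < b) := fun h => hz ⟨hnz, h⟩
  rw [abs_lt, abs_lt] at hz'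
  rw [nm_le] at hnz
  cases d <;> simp only [ctr, hbE, rimE, Set.mem_ofPred_eq] at * <;>
    have h2 := hin _ _ _ _ he <;> refine ⟨h2, ?_⟩ <;> unfold inR at h2 <;> omega

theorem pin_of {d : Dir} {R x : ℤ} {a b : ℕ} (hab : a < b) {u : Vtx} (hu : nm u = R)
    (hd : onS d R u) (hx : |tc d u - x| ≤ a) : Pin d R x b u := by
  refine ⟨hu.le, ?_⟩
  rw [abs_le] at hx
  cases d <;> simp only [ctr, onS, tc] at * <;> rw [abs_lt, abs_lt] <;> omega

theorem seg_of {d : Dir} {R x : ℤ} {a : ℕ} {u : Vtx}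
    (hd : onS d R u) (hx : |tc d u - x| ≤ a) : u ∈ segD d (ctr d R x).1 (ctr d R x).2 a := by
  rw [abs_le] at hx
  cases d <;> simp only [ctr, onS, tc, segD, Set.mem_ofPred_eq] at * <;> omega

/-- key lemma: two different clusters of the box near a boundary point -/
theorem two_clusters {k : ℕ} {R x : ℤ} {d : Dir} {a b : ℕ} {G : Set Edg} (hab : a < b)
    (hx : |x| + b ≤ R) (hk : (k : ℤ) + b < R) (hb : (b : ℤ) ≤ R) {u u' w w' : Vtx} {β β' : Bool}
    (hu : nm u = R) (hud : onS d R u) (hux : |tc d u - x| ≤ a)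
    (hu' : nm u' = R) (hud' : onS d R u') (hux' : |tc d u' - x| ≤ a)
    (h : Cb k R G (u, false) (w, β)) (hw : ¬ Pin d R x b w)
    (h' : Cb k R G (u', false) (w', β')) (hw' : ¬ Pin d R x b w')
    (hne : ¬ Cb k R G (u, false) (u', false)) :
    H4 d (ctr d R x).1 (ctr d R x).2 a b G := by
  have hex : ∀ (u w : Vtx) (β : Bool), nm u = R → onS d R u → |tc d u - x| ≤ a →
      Cb k R G (u, false) (w, β) → ¬ Pin d R x b w →
      ∃ z ∈ rimE d (ctr d R x).1 (ctr d R x).2 b,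
        Reach (G ∩ ↑(hbE d (ctr d R x).1 (ctr d R x).2 b)) u z := by
    intro u w β hu hud hux h hw
    have hPu := pin_of hab hu hud hux
    obtain ⟨z, hz, hr⟩ := cb_exit (S := (↑(hbE d (ctr d R x).1 (ctr d R x).2 b) : Set Edg))
      (fun e _ h1 h2 h3 => pin_edge hb hx e h1 h2 h3) h hPu hw
    refine ⟨z, rim_of hx hz ?_, hr⟩
    rcases Relation.ReflTransGen.cases_tail hr with rfl | ⟨y, -, e, ⟨-, he⟩, hyz⟩
    · exact absurd hPu hz
    · exact ⟨e, Finset.mem_coe.1 he, by tauto⟩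
  refine ⟨u, seg_of hud hux, u', seg_of hud' hux', hex u w β hu hud hux h hw,
    hex u' w' β' hu' hud' hux' h' hw', fun hr => hne ?_⟩
  refine reach_cb (S := (↑(hbE d (ctr d R x).1 (ctr d R x).2 b) : Set Edg)) ?_ hr
  intro e he
  have h1 := hbE_ends hx e (Finset.mem_coe.1 he)
  omega

end Pool.Agent.H160R2.MU.TLAND
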