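import Pool.Agent.H160R2.MU.LAND1

/-! LAND, deterministic part, continued (helper85). -/

set_option autoImplicit false

namespace Pool.Agent.H160R2.MU.TLAND
open Pool.Agent.H160R2.MU
open Pool.Agent.H863R2.Cyl
open Pool.Agent.H160R2.ML
open H974 H906.Cyl
open H12S (Dir hbE segD rimE H4 Crs Nr H3g)

def sg (s : Bool) (R : ℤ) : ℤ := if s then R else -R

/-- the bad event of the landing -/
def BadL (r l ρ R : ℕ) (G : Set Edg) : Prop :=
  (∃ s1 s2 : Bool, Crs (sg s1 R) (sg s2 R) (4 * ρ) (R / 4) G) ∨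
  (∃ (d : Dir) (i : ℤ), |(l : ℤ) * i| + ρ ≤ R ∧
    H4 d (ctr d R (l * i)).1 (ctr d R (l * i)).2 (8 * l) ρ G) ∨
  (∃ (d : Dir) (i : ℤ), |(r : ℤ) * i| + (l / 4 : ℕ) ≤ R ∧
    H4 d (ctr d R (r * i)).1 (ctr d R (r * i)).2 (8 * r) (l / 4) G)

theorem side_of {R : ℤ} {v : Vtx} (h : nm v = R) : ∃ d, onS d R v := by
  obtain ⟨-, h | h | h | h⟩ := nm_eq h
  · exact ⟨Dir.dn, h⟩
  · exact ⟨Dir.lf, h⟩
  · exact ⟨Dir.up, h⟩
  · exact ⟨Dir.rt, h⟩

theorem not_pin_of {d : Dir} {R x : ℤ} {b : ℕ} {w : Vtx} {k : ℤ} (hw : nm w ≤ k)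
    (hk : k + b < R) : ¬ Pin d R x b w := by
  rintro ⟨-, h1, h2⟩
  rw [nm_le] at hw
  rw [abs_lt] at h1 h2
  cases d <;> simp only [ctr] at h1 h2 <;> omega

theorem corner {k R ρ : ℕ} {G : Set Edg} (hρ : 64 * ρ ≤ R) (hρ1 : 1 ≤ ρ) (hk : 64 * k ≤ R)
    (hC : ¬ ∃ s1 s2 : Bool, Crs (sg s1 R) (sg s2 R) (4 * ρ) (R / 4) G) {d : Dir} {u w : Vtx}
    {β : Bool} (hu : nm u = R) (hud : onS d R u) (h : Cb k R G (u, false) (w, β))
    (hw : nm w ≤ k) : |tc d u| + 4 * ρ < R := by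
  by_contra hcon
  rw [not_lt] at hcon
  have hu' := (nm_eq hu).1
  obtain ⟨s1, s2, h1, h2⟩ : ∃ s1 s2 : Bool, |u.1 - sg s1 R| ≤ 4 * ρ ∧ |u.2 - sg s2 R| ≤ 4 * ρ := by
    rcases abs_cases (tc d u) with ⟨ha, -⟩ | ⟨ha, -⟩ <;> rw [ha] at hcon <;> cases d <;>
      simp only [onS, tc] at hud hcon
    · exact ⟨true, false, by simp only [sg, if_true]; rw [abs_le]; omega,
        by simp only [sg, Bool.false_eq_true, if_false]; rw [abs_le]; omega⟩
    · exact ⟨true, true, by simp only [sg, if_true]; rw [abs_le]; omega,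
        by simp only [sg, if_true]; rw [abs_le]; omega⟩
    · exact ⟨false, true, by simp only [sg, Bool.false_eq_true, if_false]; rw [abs_le]; omega,
        by simp only [sg, if_true]; rw [abs_le]; omega⟩
    · exact ⟨true, true, by simp only [sg, if_true]; rw [abs_le]; omega,
        by simp only [sg, if_true]; rw [abs_le]; omega⟩
    · exact ⟨false, false, by simp only [sg, Bool.false_eq_true, if_false]; rw [abs_le]; omega,
        by simp only [sg, Bool.false_eq_true, if_false]; rw [abs_le]; omega⟩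
    · exact ⟨false, true, by simp only [sg, Bool.false_eq_true, if_false]; rw [abs_le]; omega,
        by simp only [sg, if_true]; rw [abs_le]; omega⟩
    · exact ⟨false, false, by simp only [sg, Bool.false_eq_true, if_false]; rw [abs_le]; omega,
        by simp only [sg, Bool.false_eq_true, if_false]; rw [abs_le]; omega⟩
    · exact ⟨true, false, by simp only [sg, if_true]; rw [abs_le]; omega,
        by simp only [sg, Bool.false_eq_true, if_false]; rw [abs_le]; omega⟩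
  apply hC
  have hsg : ∀ s : Bool, sg s (R : ℤ) = R ∨ sg s (R : ℤ) = -R := by
    intro s
    cases s <;> simp [sg]
  have hR4 : (((R / 4 : ℕ) : ℤ)) * 4 ≤ R := by exact_mod_cast Nat.div_mul_le_self R 4
  have hR4' : (R : ℤ) < ((R / 4 : ℕ) : ℤ) * 4 + 4 := by
    have : R < R / 4 * 4 + 4 := by omega
    exact_mod_cast this
  obtain ⟨z, hz, hr⟩ := cb_exit (S := Set.univ)
    (P := fun v => |v.1 - sg s1 R| < (R / 4 : ℕ) ∧ |v.2 - sg s2 R| < (R / 4 : ℕ))
    (fun _ _ _ _ _ => trivial) h ⟨by omega, by omega⟩ (by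
      rintro ⟨h3, -⟩
      rw [nm_le] at hw
      rw [abs_lt] at h3
      rcases hsg s1 with e | e <;> rw [e] at h3 <;> omega)
  refine ⟨s1, s2, u, z, ?_, ?_, hr.mono (Set.inter_subset_left)⟩
  · rw [abs_le] at h1 h2
    unfold inR
    push_cast
    omega
  · rw [abs_lt, abs_lt] at hz
    omega

theorem same_side {R ρ l : ℤ} {d : Dir} {u v : Vtx} (hu : nm u = R) (hud : onS d R u)
    (ht : |tc d u| + 4 * ρ < R) (hl : l ≤ ρ) (hl0 : 0 ≤ l) (hv : nm v = R)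
    (h1 : |u.1 - v.1| ≤ l) (h2 : |u.2 - v.2| ≤ l) :
    onS d R v ∧ |tc d v - tc d u| ≤ l := by
  obtain ⟨hv1, hv2⟩ := nm_eq hv
  have hu1 := (nm_eq hu).1
  rw [abs_le] at h1 h2
  have ht2 := abs_lt.1 (show |tc d u| < R - 4 * ρ by omega)
  clear ht
  cases d <;> simp only [onS, tc] at * <;> rw [abs_le] <;> omega

theorem ediv_near {t : ℤ} {l : ℕ} (hl : 1 ≤ l) : 0 ≤ t - (l : ℤ) * (t / l) ∧
    t - (l : ℤ) * (t / l) < l := by
  have hl' : (0 : ℤ) < l := by exact_mod_cast hl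
  have h1 := Int.mul_ediv_add_emod t l
  have h2 := Int.emod_nonneg t hl'.ne'
  have h3 := Int.emod_lt_of_pos t hl'
  constructor <;> linarith

/-- different sector clusters land far from each other -/
theorem far_pair {k R ρ l : ℕ} {G : Set Edg} (hl : 1 ≤ l) (hlρ : 64 * l ≤ ρ) (hρ : 64 * ρ ≤ R)
    (hk : 64 * k ≤ R) {d : Dir}
    (hB : ¬ ∃ (d : Dir) (i : ℤ), |(l : ℤ) * i| + ρ ≤ R ∧
      H4 d (ctr d R (l * i)).1 (ctr d R (l * i)).2 (8 * l) ρ G) {u v w w' : Vtx} {β β' : Bool}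
    (hu : nm u = R) (hud : onS d R u) (ht : |tc d u| + 4 * ρ < R) (hv : nm v = R)
    (hw : nm w ≤ k) (hw' : nm w' ≤ k) (h : Cb k R G (u, false) (w, β))
    (h' : Cb k R G (v, false) (w', β')) (hne : ¬ Cb k R G (u, false) (v, false)) :
    ¬ (|u.1 - v.1| ≤ l ∧ |u.2 - v.2| ≤ l) := by
  rintro ⟨h1, h2⟩
  obtain ⟨hvd, hvt⟩ := same_side (l := l) (ρ := ρ) hu hud ht (by omega) (by omega) hv h1 h2
  obtain ⟨e1, e2⟩ := ediv_near (t := tc d u) hl
  rw [abs_le] at hvt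
  have ht2 := abs_lt.1 (by omega : |tc d u| < R - 4 * ρ)
  refine hB ⟨d, tc d u / l, ?_, ?_⟩
  · have : |(l : ℤ) * (tc d u / l)| ≤ R - ρ := by rw [abs_le]; omega
    omega
  · have hx : |(l : ℤ) * (tc d u / l)| + ρ ≤ R := by
      have : |(l : ℤ) * (tc d u / l)| ≤ R - ρ := by rw [abs_le]; omega
      omega
    refine two_clusters (w := w) (w' := w') (by omega) hx (by omega) (by omega) hu hud ?_ hv hvd
      ?_ h (not_pin_of hw (by omega)) h' (not_pin_of hw' (by omega)) hne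
    · rw [abs_le]; push_cast; omega
    · rw [abs_le]; push_cast; omega

/-- near a landing point every cluster reaching far is the sector cluster -/
theorem near_land {k R r l : ℕ} {G : Set Edg} (hr : 1 ≤ r) (hrl : 64 * r ≤ l) (hl : 64 * l ≤ R)
    (hk : 64 * k ≤ R) {d : Dir}
    (hB : ¬ ∃ (d : Dir) (i : ℤ), |(r : ℤ) * i| + (l / 4 : ℕ) ≤ R ∧
      H4 d (ctr d R (r * i)).1 (ctr d R (r * i)).2 (8 * r) (l / 4) G) {y u w w' : Vtx} {β : Bool}
    (hy : nm y = R) (hyd : onS d R y) (ht : |tc d y| + l < R) (hu : nm u = R)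
    (hud : onS d R u) (hut : |tc d u - tc d y| ≤ r) (hw' : nm w' ≤ k)
    (h : Cb k R G (y, false) (w', β)) (hw : ¬ (|w.1 - y.1| ≤ (l / 2 : ℕ) ∧
      |w.2 - y.2| ≤ (l / 2 : ℕ))) (h' : Cb k R G (u, false) (w, false)) :
    Cb k R G (u, false) (y, false) := by
  by_contra hne
  obtain ⟨e1, e2⟩ := ediv_near (t := tc d y) hr
  rw [abs_le] at hut
  have ht2 := abs_lt.1 (by omega : |tc d y| < R - l)
  have hl4 : ((l / 4 : ℕ) : ℤ) * 4 ≤ l ∧ (l : ℤ) < ((l / 4 : ℕ) : ℤ) * 4 + 4 := by omega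
  have hl2 : ((l / 2 : ℕ) : ℤ) * 2 ≤ l ∧ (l : ℤ) < ((l / 2 : ℕ) : ℤ) * 2 + 2 := by omega
  have hx : |(r : ℤ) * (tc d y / r)| + (l / 4 : ℕ) ≤ R := by
    have : |(r : ℤ) * (tc d y / r)| ≤ R - (l / 4 : ℕ) := by rw [abs_le]; omega
    omega
  refine hB ⟨d, tc d y / r, hx, ?_⟩
  refine two_clusters (w := w) (w' := w') (by omega) hx (by omega) (by omega) hu hud ?_ hy hyd
    ?_ h' ?_ h (not_pin_of hw' (by omega)) hne
  · rw [abs_le]; push_cast; omega
  · rw [abs_le]; push_cast; omega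
  · rintro ⟨-, h3, h4⟩
    apply hw
    rw [abs_lt] at h3 h4
    rw [abs_le, abs_le]
    cases d <;> simp only [ctr, onS, tc] at * <;> omega

/-- the cell -/
def cl (d : Dir) (x : ℤ) : Cel :=
  match d with
  | Dir.dn => (0, x)
  | Dir.lf => (1, x)
  | Dir.up => (2, x)
  | Dir.rt => (3, x)

theorem cl_lt (d : Dir) (x : ℤ) : (cl d x).1 < 4 ∧ (cl d x).2 = x := by
  cases d <;> simp [cl]

theorem inSq_cl {N r : ℕ} (hr : 1 ≤ r) {d : Dir} {y : Vtx} (hyd : onS d (N * r : ℕ) y) :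
    inSq r (csq N (cl d (tc d y / r))) y := by
  obtain ⟨e1, e2⟩ := ediv_near (t := tc d y) hr
  push_cast at hyd
  have e3 : (r : ℤ) * (-(N : ℤ) - 1) = -(N * r) - r := by ring
  have e4 : (r : ℤ) * N = N * r := by ring
  cases d <;> simp only [onS, tc] at hyd e1 e2 <;>
    simp only [inSq, csq, cl, tc] <;> norm_num <;> simp only [e3, e4] <;> omega

theorem of_inSq {N r : ℕ} (hr : 1 ≤ r) {d : Dir} {y u : Vtx}
    (hu : nm u = (N * r : ℕ)) (h : inSq r (csq N (cl d (tc d y / r))) u) :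
    onS d (N * r : ℕ) u ∧ |tc d u - tc d y| ≤ r := by
  obtain ⟨e1, e2⟩ := ediv_near (t := tc d y) hr
  have e3 : (r : ℤ) * (-(N : ℤ) - 1) = -(N * r) - r := by ring
  have e4 : (r : ℤ) * N = N * r := by ring
  have hu1 := (nm_eq hu).1
  push_cast at hu1 ⊢
  rw [abs_le]
  cases d <;> simp only [inSq, csq, cl, tc] at h e1 e2 ⊢ <;> norm_num at h <;>
    simp only [e3, e4] at h <;> simp only [onS] <;> omega

end Pool.Agent.H160R2.MU.TLAND
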