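import Pool.Agent.H160R2.MU.LAND2
import Pool.Agent.H160R2.MU.T_MON

/-! LAND, deterministic part, end (helper85). -/

set_option autoImplicit false

namespace Pool.Agent.H160R2.MU.TLAND
open Pool.Agent.H160R2.MU
open Pool.Agent.H863R2.Cyl
open Pool.Agent.H160R2.ML
open H974 H906.Cyl
open H12S (Dir hbE segD rimE H4 Crs Nr H3g)

theorem inSq_near {r : ℕ} {z z' : ℤ × ℤ} {v v' : Vtx} (h : inSq r z v) (h' : inSq r z' v')
    (h1 : |z.1 - z'.1| ≤ 1) (h2 : |z.2 - z'.2| ≤ 1) :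
    |v.1 - v'.1| ≤ 2 * r ∧ |v.2 - v'.2| ≤ 2 * r := by
  have key : ∀ a b x y : ℤ, |a - b| ≤ 1 → r * a ≤ x → x ≤ r * a + r → r * b ≤ y →
      y ≤ r * b + r → |x - y| ≤ 2 * r := by
    intro a b x y h h1 h2 h3 h4
    rw [abs_le] at h ⊢
    have hr : (0 : ℤ) ≤ r := Int.natCast_nonneg r
    constructor <;> nlinarith
  exact ⟨key _ _ _ _ h1 h.1 h.2.1 h'.1 h'.2.1,
    key _ _ _ _ h2 h.2.2.1 h.2.2.2 h'.2.2.1 h'.2.2.2⟩

theorem inSq_same {r : ℕ} {z : ℤ × ℤ} {v v' : Vtx} (h : inSq r z v) (h' : inSq r z v') :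
    |v.1 - v'.1| ≤ r ∧ |v.2 - v'.2| ≤ r := by
  unfold inSq at h h'
  rw [abs_le, abs_le]
  omega

theorem cpos_inj {N : ℕ} {c c' : Cel} (h : c.1 < 4 ∧ -(N : ℤ) ≤ c.2 ∧ c.2 < N)
    (h' : c'.1 < 4 ∧ -(N : ℤ) ≤ c'.2 ∧ c'.2 < N) (e : cpos N c = cpos N c') : c = c' := by
  obtain ⟨i, x⟩ := c
  obtain ⟨j, y⟩ := c'
  simp only at h h'
  unfold cpos at e
  simp only at e
  have : i = j ∧ x = y := by
    split_ifs at e <;> omega
  rw [this.1, this.2]

theorem sv_nm_le {k i : ℕ} (hk : 2 ≤ k) (hi : i < 2 * k) : nm (sv k i).1 ≤ k :=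
  (TMON.sv_nm hk hi).le

theorem det {N r l ρ k : ℕ} {G : Set Edg} (hk : 2 ≤ k) (hr : 1 ≤ r)
    (hrl : 64 * r ≤ l) (hlρ : 64 * l ≤ ρ) (hρ : 64 * ρ ≤ N * r) (hkR : 64 * k ≤ N * r)
    (hB : ¬ BadL r l ρ (N * r) G) (hS : SE k (N * r : ℕ) G) :
    ∃ c : Fin k → Cel, Adm N k c ∧ Land N r k c G := by
  obtain ⟨hS1, hS2⟩ := hS
  have hB1 : ¬ ∃ s1 s2 : Bool, Crs (sg s1 (N * r : ℕ)) (sg s2 (N * r : ℕ)) (4 * ρ) (N * r / 4) G :=
    fun h => hB (Or.inl h)
  have hB2 := fun h => hB (Or.inr (Or.inl h))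
  have hB3 := fun h => hB (Or.inr (Or.inr h))
  have hy0 : ∀ a : Fin k, ∃ (y : Vtx) (d : Dir), nm y = ((N * r : ℕ) : ℤ) ∧
      onS d (N * r : ℕ) y ∧ |tc d y| + 4 * ρ < (N * r : ℕ) ∧
      Cb k (N * r : ℕ) G (sv k (2 * a)) (y, false) := by
    intro a
    have ha := a.2
    obtain ⟨y, β, hy, hc⟩ := hS2 (2 * a) (by omega) (by omega)
    obtain ⟨d, hd⟩ := side_of hy
    have hc' : Cb k (N * r : ℕ) G (sv k (2 * a)) (y, false) := by
      cases β
      · exact hc
      · refine Relation.EqvGen.trans _ _ _ hc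
          (Relation.EqvGen.symm _ _ (Relation.EqvGen.rel _ _ (CL.idn y hy.le ?_)))
        rintro ⟨e1, e2, e3⟩
        have : nm y ≤ k := nm_le.2 (by omega)
        omega
    exact ⟨y, d, hy, hd, corner (w := (sv k (2 * a)).1) (β := (sv k (2 * a)).2) hρ (by omega) hkR
      hB1 hy hd (Relation.EqvGen.symm _ _ hc') (sv_nm_le hk (by omega)), hc'⟩
  choose y d hy hd ht hc using hy0
  have hne : ∀ a b : Fin k, a ≠ b → ¬ Cb k (N * r : ℕ) G (y a, false) (y b, false) := by
    intro a b hab h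
    have ha := a.2
    have hb := b.2
    refine hS1 (2 * a) (2 * b) (by omega) (by omega) (by omega) (by omega)
      (fun e => hab (Fin.ext (by omega))) ?_
    exact Relation.EqvGen.trans _ _ _ (Relation.EqvGen.trans _ _ _ (hc a) h)
      (Relation.EqvGen.symm _ _ (hc b))
  have hsep : ∀ a b : Fin k, a ≠ b →
      ¬ (|(y a).1 - (y b).1| ≤ l ∧ |(y a).2 - (y b).2| ≤ l) := by
    intro a b hab
    have ha := a.2
    have hb := b.2
    exact far_pair (w := (sv k (2 * a)).1) (β := (sv k (2 * a)).2) (w' := (sv k (2 * b)).1)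
      (β' := (sv k (2 * b)).2) (by omega) hlρ hρ hkR hB2 (hy a) (hd a) (ht a) (hy b)
      (sv_nm_le hk (by omega)) (sv_nm_le hk (by omega)) (Relation.EqvGen.symm _ _ (hc a))
      (Relation.EqvGen.symm _ _ (hc b)) (hne a b hab)
  have hin : ∀ a : Fin k, inSq r (csq N (cl (d a) (tc (d a) (y a) / r))) (y a) := fun a =>
    inSq_cl hr (hd a)
  have hcoarse : ∀ a b : Fin k, a ≠ b →
      2 ≤ |(csq N (cl (d a) (tc (d a) (y a) / r))).1 - (csq N (cl (d b) (tc (d b) (y b) / r))).1| ∨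
      2 ≤ |(csq N (cl (d a) (tc (d a) (y a) / r))).2 -
        (csq N (cl (d b) (tc (d b) (y b) / r))).2| := by
    intro a b hab
    by_contra hcon
    rw [not_or, not_le, not_le] at hcon
    have h1 := inSq_near (hin a) (hin b) (by omega) (by omega)
    exact hsep a b hab ⟨by omega, by omega⟩
  have hr0 : (0 : ℤ) < r := by exact_mod_cast hr
  have hrange : ∀ a : Fin k, (cl (d a) (tc (d a) (y a) / r)).1 < 4 ∧
      -(N : ℤ) ≤ (cl (d a) (tc (d a) (y a) / r)).2 ∧
      (cl (d a) (tc (d a) (y a) / r)).2 < N := by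
    intro a
    obtain ⟨h1, h2⟩ := cl_lt (d a) (tc (d a) (y a) / r)
    have h3 := abs_lt.1 (show |tc (d a) (y a)| < ((N * r : ℕ) : ℤ) by
      have := ht a
      omega)
    push_cast at h3
    refine ⟨h1, ?_, ?_⟩
    · rw [h2, Int.le_ediv_iff_mul_le hr0]
      linarith [h3.1]
    · rw [h2, Int.ediv_lt_iff_lt_mul hr0]
      exact h3.2
  set C : Fin k → Cel := fun a => cl (d a) (tc (d a) (y a) / r) with hC
  set f : Fin k → ℤ := fun a => cpos N (C a) with hf
  have hinj : Function.Injective f := by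
    intro a b hab
    by_contra hne'
    have h1 : C a = C b := cpos_inj (hrange a) (hrange b) hab
    have h2 := hcoarse a b hne'
    have h3 : csq N (cl (d a) (tc (d a) (y a) / r)) = csq N (cl (d b) (tc (d b) (y b) / r)) :=
      congrArg (csq N) h1
    rw [h3, sub_self, sub_self] at h2
    simp at h2
  have hst : StrictMono (f ∘ Tuple.sort f) :=
    (Tuple.monotone_sort f).strictMono_of_injective (hinj.comp (Tuple.sort f).injective)
  have hσ : Function.Injective (Tuple.sort f) := (Tuple.sort f).injective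
  refine ⟨fun a => C (Tuple.sort f a), ⟨fun a => hrange _, fun a b hab => hst hab, fun a b hab =>
    hcoarse _ _ (fun e => hab (hσ e))⟩, ⟨fun a => 2 * (Tuple.sort f a : Fin k), ?_, ?_⟩, ?_⟩
  · intro a b hab
    exact hσ (Fin.ext (by simp only at hab; omega))
  · intro a
    have ha := (Tuple.sort f a).2
    exact ⟨by dsimp only; omega, by dsimp only; omega, y (Tuple.sort f a), hin _, hy _, hc _⟩
  · intro a b hab u v hu hnu hv hnv huv
    have hab' : Tuple.sort f a ≠ Tuple.sort f b := fun e => hab (hσ e)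
    replace hu : inSq r (csq N (C (Tuple.sort f a))) u := hu
    replace hv : inSq r (csq N (C (Tuple.sort f b))) v := hv
    generalize Tuple.sort f a = a' at *
    generalize Tuple.sort f b = b' at *
    have ha := a'.2
    have hb := b'.2
    obtain ⟨hu1, hu2⟩ := of_inSq hr hnu hu
    obtain ⟨hv1, hv2⟩ := of_inSq hr hnv hv
    have hl2 : ((l / 2 : ℕ) : ℤ) * 2 ≤ l ∧ (l : ℤ) < ((l / 2 : ℕ) : ℤ) * 2 + 2 := by omega
    have hsa := inSq_same hu (hin a')
    have hsb := inSq_same hv (hin b')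
    have hs := hsep a' b' hab'
    have h1 : Cb k (N * r : ℕ) G (u, false) (y a', false) := by
      refine near_land (l := l) (w := v) (w' := (sv k (2 * a')).1) (β := (sv k (2 * a')).2) hr hrl
        (by omega) hkR hB3 (hy a') (hd a') ?_ hnu hu1 hu2 (sv_nm_le hk (by omega))
        (Relation.EqvGen.symm _ _ (hc a')) ?_ huv
      · have := ht a'
        omega
      · rintro ⟨h3, h4⟩
        apply hs
        rw [abs_le] at h3 h4 hsb ⊢
        rw [abs_le] at hsb ⊢
        omega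
    have h2 : Cb k (N * r : ℕ) G (v, false) (y b', false) := by
      refine near_land (l := l) (w := u) (w' := (sv k (2 * b')).1) (β := (sv k (2 * b')).2) hr hrl
        (by omega) hkR hB3 (hy b') (hd b') ?_ hnv hv1 hv2 (sv_nm_le hk (by omega))
        (Relation.EqvGen.symm _ _ (hc b')) ?_ (Relation.EqvGen.symm _ _ huv)
      · have := ht b'
        omega
      · rintro ⟨h3, h4⟩
        apply hs
        rw [abs_le] at h3 h4 hsa ⊢
        rw [abs_le] at hsa ⊢
        omega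
    exact hne a' b' hab' (Relation.EqvGen.trans _ _ _ (Relation.EqvGen.symm _ _ h1)
      (Relation.EqvGen.trans _ _ _ huv h2))

end Pool.Agent.H160R2.MU.TLAND
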