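import Pool.Agent.H160R2.MU.LAND3
import Pool.Agent.H160R2.MU.T_IND
import Pool.Agent.H12R2.Sep.WinHalf
import Pool.Agent.H12R2.Sep.Fail2P

/-! LAND, probabilities (helper85). -/

set_option autoImplicit false

namespace Pool.Agent.H160R2.MU.TLAND
open Pool.Agent.H160R2.MU
open Pool.Agent.H863R2.Cyl
open Pool.Agent.H160R2.ML
open H974 H906.Cyl
open H12S (Dir hbE segD rimE H4 Crs Nr H3g Win win_half H4_bound win_arm_of win_blk)
open H12S.EP2 (pr_biUnion choose_M)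

theorem ok2 : Ok (fun _ : Edg => (1 / 2 : ℝ)) := fun _ => ⟨by norm_num, by norm_num⟩

theorem pr_false (S : Finset Edg) {A : Finset Edg → Prop} (h : ∀ F, ¬ A F) :
    Pr (fun _ => (1 / 2 : ℝ)) S A = 0 := by
  have k1 := Pr_true (p := fun _ : Edg => (1 / 2 : ℝ)) S (A := fun _ => True) (fun _ _ => trivial)
  have k2 := Pr_not (p := fun _ : Edg => (1 / 2 : ℝ)) S (fun _ => True)
  simp only [not_true_eq_false] at k2
  have k3 : Pr (fun _ => (1 / 2 : ℝ)) S A = Pr (fun _ => (1 / 2 : ℝ)) S (fun _ => False) :=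
    Pr_congr fun F _ => iff_false_intro (h F)
  rw [k3, k2, k1, sub_self]

theorem hbE_sub {d : Dir} {R b : ℕ} {x : ℤ} (hx : |x| + b ≤ R) :
    hbE d (ctr d R x).1 (ctr d R x).2 b ⊆ boxE R := by
  intro e he
  have h := hbE_ends hx e he
  exact TIND.mem_boxE_of h.1.2 h.2.2

theorem h4_sum {C c : ℝ} (hC : 0 < C) (hc : 0 < c) {κ : ℝ} (hw : ∀ n, Win (1 / 2) κ n)
    (hH4 : ∀ (q : ℝ) (n : ℕ), Win q κ n → ∀ r ρ : ℕ, 1 ≤ r → r ≤ ρ → ρ ≤ n →
      ∀ (d : Dir) (x0 y0 : ℤ) (S : Finset Edg), hbE d x0 y0 ρ ⊆ S →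
      Pr (fun _ => q) S (fun F => H4 d x0 y0 r ρ ↑F) ≤ C * ((r : ℝ) / ρ) ^ (1 + c))
    {s K m R : ℕ} (hs : 1 ≤ s) (hR : R ≤ K * s) (hm : 8 ≤ m) :
    Pr (fun _ => (1 / 2 : ℝ)) (boxE R) (fun F => ∃ (d : Dir) (i : ℤ),
      |(s : ℤ) * i| + (m * s : ℕ) ≤ R ∧
      H4 d (ctr d R (s * i)).1 (ctr d R (s * i)).2 (8 * s) (m * s) (↑F : Set Edg)) ≤
      (8 * K + 4) * (C * (8 / m) ^ (1 + c)) := by
  let T : Finset (Dir × ℤ) := (Finset.univ : Finset Dir) ×ˢ Finset.Icc (-(K : ℤ)) K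
  let B : Dir × ℤ → Finset Edg → Prop := fun p F => |(s : ℤ) * p.2| + (m * s : ℕ) ≤ R ∧
    H4 p.1 (ctr p.1 R (s * p.2)).1 (ctr p.1 R (s * p.2)).2 (8 * s) (m * s) (↑F : Set Edg)
  have hcover : Pr (fun _ => (1 / 2 : ℝ)) (boxE R) (fun F => ∃ (d : Dir) (i : ℤ),
      |(s : ℤ) * i| + (m * s : ℕ) ≤ R ∧
      H4 d (ctr d R (s * i)).1 (ctr d R (s * i)).2 (8 * s) (m * s) (↑F : Set Edg)) ≤
      Pr (fun _ => (1 / 2 : ℝ)) (boxE R) (fun F => ∃ p ∈ T, B p F) := by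
    refine Pr_mono ok2 fun F _ hF => ?_
    obtain ⟨d, i, h1, h2⟩ := hF
    refine ⟨(d, i), ?_, h1, h2⟩
    have hR' : (R : ℤ) ≤ K * s := by exact_mod_cast hR
    have h3 : |i| ≤ K := H12S.FP2.abs_bound hs (by omega)
    rw [abs_le] at h3
    simp only [T, Finset.mem_product, Finset.mem_univ, Finset.mem_Icc, true_and]
    exact h3
  have hB : ∀ p ∈ T, Pr (fun _ => (1 / 2 : ℝ)) (boxE R) (B p) ≤ C * (8 / m) ^ (1 + c) := by
    intro p _
    by_cases hp : |(s : ℤ) * p.2| + (m * s : ℕ) ≤ R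
    · have hms : 8 * s ≤ m * s := Nat.mul_le_mul_right s hm
      refine (Pr_mono ok2 (fun F _ hF => hF.2)).trans
        ((hH4 (1 / 2) (m * s) (hw _) (8 * s) (m * s) (by omega) hms le_rfl p.1
          _ _ _ (hbE_sub hp)).trans_eq ?_)
      have hs' : (0 : ℝ) < s := by exact_mod_cast hs
      have hm' : (0 : ℝ) < m := by exact_mod_cast (by omega : 0 < m)
      congr 2
      push_cast
      field_simp
    · rw [pr_false (boxE R) (A := B p) fun F h => hp h.1]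
      positivity
  have hT : (T.card : ℝ) = 8 * K + 4 := by
    have e1 : (Finset.Icc (-(K : ℤ)) K).card = 2 * K + 1 := by
      rw [Int.card_Icc]
      omega
    have e3 : (Finset.univ : Finset Dir).card = 4 := rfl
    have e4 : T.card = 4 * (2 * K + 1) := by
      simp only [T, Finset.card_product, e1, e3]
    rw [e4]
    push_cast
    ring
  refine hcover.trans ((pr_biUnion (by norm_num) (by norm_num) (boxE R) T B).trans
    ((Finset.sum_le_sum hB).trans ?_))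
  rw [Finset.sum_const, nsmul_eq_mul, hT]

theorem prob (k : ℕ) (δ : ℝ) (hδ : 0 < δ) : ∃ N A B : ℕ, k + 4 ≤ N ∧ 64 ≤ A ∧ 64 ≤ B ∧
    64 * (B * A) ≤ N ∧ 64 * k ≤ N ∧ ∀ r : ℕ, 1 ≤ r →
    Pr (fun _ => (1 / 2 : ℝ)) (boxE (N * r))
      (fun F => BadL r (A * r) (B * (A * r)) (N * r) (↑F : Set Edg)) ≤ δ := by
  obtain ⟨κ, hκ, hw⟩ := win_half
  obtain ⟨C1, c1, hC1, hc1, harm⟩ := win_arm_of
    (by intro q κ n h m hm hmn c1 c2 S; exact win_blk h hm hmn c1 c2 S) κ hκ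
  obtain ⟨C2, c2, hC2, hc2, hH4⟩ := H4_bound κ hκ
  have hδ3 : 0 < δ / 3 := by positivity
  obtain ⟨M1, hM1, hM1'⟩ := choose_M 1 0 C1 4 (by positivity) le_rfl hC1.le (by norm_num) hc1
    hδ3 (k + 20)
  obtain ⟨B, hB, hB'⟩ := choose_M (8 * (4 * M1)) 4 C2 8 (by positivity) (by positivity) hC2.le
    (by norm_num) hc2 hδ3 64
  obtain ⟨M3, hM3, hM3'⟩ := choose_M (32 * (4 * M1 * B)) 4 C2 8 (by positivity) (by positivity)
    hC2.le (by norm_num) hc2 hδ3 16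
  have e64 : 64 * 64 ≤ B * (4 * M3) := Nat.mul_le_mul hB (by omega)
  have eN : 4 * M1 * B * (4 * M3) = (4 * M1) * (B * (4 * M3)) := by ring
  have eN2 : (4 * (k + 20)) * (B * (4 * M3)) ≤ 4 * M1 * B * (4 * M3) := by
    rw [eN]
    exact Nat.mul_le_mul_right _ (by omega)
  refine ⟨4 * M1 * B * (4 * M3), 4 * M3, B, by nlinarith, by omega, hB, by nlinarith,
    by nlinarith, ?_⟩
  intro r hr
  set N := 4 * M1 * B * (4 * M3) with hN
  have hl1 : 1 ≤ 4 * M3 * r := Nat.mul_pos (by omega) (by omega)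
  -- corners
  have s1 : Pr (fun _ => (1 / 2 : ℝ)) (boxE (N * r)) (fun F => ∃ s1 s2 : Bool,
      Crs (sg s1 (N * r : ℕ)) (sg s2 (N * r : ℕ)) (4 * (B * (4 * M3 * r))) (N * r / 4)
        (↑F : Set Edg)) ≤ δ / 3 := by
    have hR4 : N * r / 4 = M1 * (B * (4 * M3 * r)) := by
      rw [hN, show 4 * M1 * B * (4 * M3) * r = 4 * (M1 * (B * (4 * M3 * r))) by ring]
      omega
    have hpos : 1 ≤ B * (4 * M3 * r) := Nat.mul_pos (by omega) hl1
    have h1 : Pr (fun _ => (1 / 2 : ℝ)) (boxE (N * r)) (fun F => ∃ s1 s2 : Bool,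
        Crs (sg s1 (N * r : ℕ)) (sg s2 (N * r : ℕ)) (4 * (B * (4 * M3 * r))) (N * r / 4)
        (↑F : Set Edg)) ≤ Pr (fun _ => (1 / 2 : ℝ)) (boxE (N * r)) (fun F =>
          ∃ p ∈ (Finset.univ : Finset (Bool × Bool)),
          Crs (sg p.1 (N * r : ℕ)) (sg p.2 (N * r : ℕ)) (4 * (B * (4 * M3 * r))) (N * r / 4)
            (↑F : Set Edg)) := by
      refine Pr_mono ok2 fun F _ hF => ?_
      obtain ⟨a, b, h⟩ := hF
      exact ⟨(a, b), Finset.mem_univ _, h⟩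
    refine h1.trans ((pr_biUnion (by norm_num) (by norm_num) _ _ _).trans ?_)
    have h2 : ∀ p ∈ (Finset.univ : Finset (Bool × Bool)), Pr (fun _ => (1 / 2 : ℝ)) (boxE (N * r))
        (fun F => Crs (sg p.1 (N * r : ℕ)) (sg p.2 (N * r : ℕ)) (4 * (B * (4 * M3 * r)))
          (N * r / 4) (↑F : Set Edg)) ≤ C1 * (4 / (M1 : ℝ)) ^ c1 := by
      intro p _
      refine ((harm (1 / 2) (N * r / 4) (hw _) (4 * (B * (4 * M3 * r))) (N * r / 4) (by omega) ?_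
        le_rfl (sg p.1 (N * r : ℕ)) (sg p.2 (N * r : ℕ)) (boxE (N * r))).1).trans_eq ?_
      · rw [hR4]
        exact Nat.mul_le_mul_right _ (by omega)
      · rw [hR4]
        have hp' : (0 : ℝ) < (B * (4 * M3 * r) : ℕ) := by exact_mod_cast hpos
        have hm' : (0 : ℝ) < M1 := by exact_mod_cast (by omega : 0 < M1)
        congr 2
        rw [Nat.cast_mul 4, Nat.cast_mul M1]
        generalize ((B * (4 * M3 * r) : ℕ) : ℝ) = t at hp'
        field_simp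
        norm_num
    refine (Finset.sum_le_sum h2).trans ?_
    rw [Finset.sum_const, nsmul_eq_mul]
    refine le_trans (le_of_eq ?_) hM1'
    have hm' : (0 : ℝ) < M1 := by exact_mod_cast (by omega : 0 < M1)
    have hcard : ((Finset.univ : Finset (Bool × Bool)).card : ℝ) = 4 := by norm_num
    rw [hcard, Real.rpow_add (by positivity), Real.rpow_one]
    field_simp
    ring
  -- centres, first scale
  have s2 := h4_sum hC2 hc2 hw hH4 (s := 4 * M3 * r) (K := 4 * M1 * B) (m := B) (R := N * r)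
    hl1 (le_of_eq (by rw [hN]; ring)) (by omega)
  have s3 := h4_sum hC2 hc2 hw hH4 (s := r) (K := N) (m := M3) (R := N * r)
    hr le_rfl (by omega)
  have e4 : 4 * M3 * r / 4 = M3 * r := by
    rw [show 4 * M3 * r = 4 * (M3 * r) by ring]
    omega
  have s2' : (8 * ((4 * M1 * B : ℕ) : ℝ) + 4) * (C2 * (8 / (B : ℝ)) ^ (1 + c2)) ≤ δ / 3 := by
    refine le_trans (le_of_eq ?_) hB'
    push_cast
    ring
  have s3' : (8 * ((N : ℕ) : ℝ) + 4) * (C2 * (8 / (M3 : ℝ)) ^ (1 + c2)) ≤ δ / 3 := by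
    refine le_trans (le_of_eq ?_) hM3'
    rw [hN]
    push_cast
    ring
  unfold BadL
  rw [e4]
  refine (Pr_or_le ok2 _ _ _).trans ?_
  have s4 := Pr_or_le ok2 (boxE (N * r)) (fun F => ∃ (d : Dir) (i : ℤ),
      |((4 * M3 * r : ℕ) : ℤ) * i| + (B * (4 * M3 * r) : ℕ) ≤ (N * r : ℕ) ∧
      H4 d (ctr d (N * r : ℕ) ((4 * M3 * r : ℕ) * i)).1 (ctr d (N * r : ℕ) ((4 * M3 * r : ℕ) * i)).2
        (8 * (4 * M3 * r)) (B * (4 * M3 * r)) (↑F : Set Edg))
      (fun F => ∃ (d : Dir) (i : ℤ),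
      |(r : ℤ) * i| + (M3 * r : ℕ) ≤ (N * r : ℕ) ∧
      H4 d (ctr d (N * r : ℕ) (r * i)).1 (ctr d (N * r : ℕ) (r * i)).2 (8 * r) (M3 * r)
        (↑F : Set Edg))
  linarith

end Pool.Agent.H160R2.MU.TLAND
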