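import Pool.Agent.H160R2.MU.T_SEPB

/-!
# Faces of the closed region are connected (part of SEPA, helper123)
-/

set_option autoImplicit false

namespace Pool.Agent.H160R2.MU
open Pool.Agent.H863R2.Cyl
open Pool.Agent.H988R2.Perc (Word PD)
open Pool.Agent.H160R2.ML
open H974 H906.Cyl
open H12S (Dir hbE segD rimE H4 Crs Nr sqE)

namespace TBB

/-- the edge crossed by the step between two faces -/
def cro (e : Edg) : Edg := if e.2.2 then (e.1 + 1, e.2.1, false) else (e.1, e.2.1 + 1, true)

theorem cro_eq (e : Edg) : edz (e.1 + e.2.1 + 1) (dco e) = cro e := by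
  obtain ⟨x, y, b⟩ := e
  cases b
  · have h : (x + y + 1 + (x - y - 1)) % 2 = 0 := by omega
    simp only [edz, dco, cro, Bool.false_eq_true, if_false, h, if_true]
    refine Prod.ext (by dsimp only; omega) (Prod.ext (by dsimp only; omega) rfl)
  · have h : ¬ (x + y + 1 + (x - y)) % 2 = 0 := by omega
    simp only [edz, dco, cro, if_true, h, if_false]
    refine Prod.ext (by dsimp only; omega) (Prod.ext (by dsimp only; omega) rfl)

/-- the coarse square of a face -/
def cs (r : ℕ) (v : Vtx) : ℤ × ℤ := (v.1 / r, v.2 / r)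

theorem div_of {r x z : ℤ} (hr : 0 < r) (h1 : r * z ≤ x) (h2 : x < r * z + r) : x / r = z := by
  apply le_antisymm
  · apply Int.lt_add_one_iff.1
    apply Int.ediv_lt_of_lt_mul hr
    nlinarith
  · apply Int.le_ediv_of_mul_le hr
    nlinarith

theorem cro_out {r : ℕ} (hr : 1 ≤ r) {P : Set (ℤ × ℤ)} {e : Edg} (h1 : cs r (src e) ∉ P)
    (h2 : cs r (tgt e) ∉ P) : cro e ∉ EP r P := by
  have hr0 : (0 : ℤ) < r := by exact_mod_cast hr
  rintro ⟨z, hz, he⟩
  unfold sqE at he
  obtain ⟨x, y, b⟩ := e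
  cases b
  · simp only [cro, Bool.false_eq_true, if_false, mem_RE_true] at he
    simp only [src_mk, tgt_false, cs] at h1 h2
    have ex : x / r = z.1 := div_of hr0 he.1 he.2.1
    by_cases hc : y + 1 < r * z.2 + r
    · apply h2
      have ey : (y + 1) / r = z.2 := div_of hr0 he.2.2.1 hc
      rw [ex, ey]; exact hz
    · apply h1
      have ey : y / r = z.2 := div_of hr0 (by omega) (by omega)
      rw [ex, ey]; exact hz
  · simp only [cro, if_true, mem_RE_false] at he
    simp only [src_mk, tgt_true, cs] at h1 h2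
    have ey : y / r = z.2 := div_of hr0 he.2.2.1 he.2.2.2
    by_cases hc : x + 1 < r * z.1 + r
    · apply h2
      have ex : (x + 1) / r = z.1 := div_of hr0 he.1 hc
      rw [ex, ey]; exact hz
    · apply h1
      have ex : x / r = z.1 := div_of hr0 (by omega) (by omega)
      rw [ex, ey]; exact hz

theorem hseg (D : Set Edg) (y a : ℤ) (m : ℕ) (h : ∀ x, a ≤ x → x < a + m → (x, y, true) ∈ D) :
    Reach D (a, y) (a + m, y) := by
  induction m with
  | zero => simp; exact Reach.refl _ _
  | succ m ih =>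
    have h1 := ih (fun x hx1 hx2 => h x hx1 (by push_cast; omega))
    refine Relation.ReflTransGen.tail h1 ⟨(a + m, y, true), h _ (by omega) (by push_cast; omega), Or.inl ⟨rfl, ?_⟩⟩
    simp only [tgt_true]
    push_cast
    rw [add_assoc]

theorem vseg (D : Set Edg) (x a : ℤ) (m : ℕ) (h : ∀ y, a ≤ y → y < a + m → (x, y, false) ∈ D) :
    Reach D (x, a) (x, a + m) := by
  induction m with
  | zero => simp; exact Reach.refl _ _
  | succ m ih =>
    have h1 := ih (fun y hy1 hy2 => h y hy1 (by push_cast; omega))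
    refine Relation.ReflTransGen.tail h1 ⟨(x, a + m, false), h _ (by omega) (by push_cast; omega), Or.inl ⟨rfl, ?_⟩⟩
    simp only [tgt_false]
    push_cast
    rw [add_assoc]

theorem hseg2 (D : Set Edg) (y a b : ℤ)
    (h : ∀ x, min a b ≤ x → x < max a b → (x, y, true) ∈ D) : Reach D (a, y) (b, y) := by
  rcases le_total a b with hab | hab
  · obtain ⟨m, hm⟩ := Int.le.dest hab
    have := hseg D y a m (fun x h1 h2 => h x (by omega) (by omega))
    rw [hm] at this; exact this
  · obtain ⟨m, hm⟩ := Int.le.dest hab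
    have := hseg D y b m (fun x h1 h2 => h x (by omega) (by omega))
    rw [hm] at this; exact this.symm

theorem vseg2 (D : Set Edg) (x a b : ℤ)
    (h : ∀ y, min a b ≤ y → y < max a b → (x, y, false) ∈ D) : Reach D (x, a) (x, b) := by
  rcases le_total a b with hab | hab
  · obtain ⟨m, hm⟩ := Int.le.dest hab
    have := vseg D x a m (fun y h1 h2 => h y (by omega) (by omega))
    rw [hm] at this; exact this
  · obtain ⟨m, hm⟩ := Int.le.dest hab
    have := vseg D x b m (fun y h1 h2 => h y (by omega) (by omega))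
    rw [hm] at this; exact this.symm

/-- the rectangle spanned by two vertices -/
def InB (f f' v : Vtx) : Prop := min f.1 f'.1 ≤ v.1 ∧ v.1 ≤ max f.1 f'.1 ∧
  min f.2 f'.2 ≤ v.2 ∧ v.2 ≤ max f.2 f'.2

theorem div_near {r : ℕ} (hr : 1 ≤ r) {a b : ℤ} (h : |a - b| < r) :
    a / r ≤ b / r + 1 ∧ b / r ≤ a / r + 1 := by
  have hr0 : (0 : ℤ) < r := by exact_mod_cast hr
  rw [abs_lt] at h
  constructor
  · have h1 : a / r ≤ (b + r) / r := Int.ediv_le_ediv hr0 (by omega)
    have h2 : (b + (r : ℤ)) / r = b / r + 1 := by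
      have := Int.add_mul_ediv_right b 1 (ne_of_gt hr0)
      rwa [one_mul] at this
    omega
  · have h1 : b / r ≤ (a + r) / r := Int.ediv_le_ediv hr0 (by omega)
    have h2 : (a + (r : ℤ)) / r = a / r + 1 := by
      have := Int.add_mul_ediv_right a 1 (ne_of_gt hr0)
      rwa [one_mul] at this
    omega

theorem div_mid {r : ℕ} (hr : 1 ≤ r) {a b x : ℤ} (h : |a - b| < r) (h1 : min a b ≤ x)
    (h2 : x ≤ max a b) : x / r = a / r ∨ x / r = b / r := by
  have hr0 : (0 : ℤ) < r := by exact_mod_cast hr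
  obtain ⟨n1, n2⟩ := div_near hr h
  rcases le_total a b with hab | hab
  · rw [min_eq_left hab] at h1
    rw [max_eq_right hab] at h2
    have m1 : a / r ≤ x / r := Int.ediv_le_ediv hr0 h1
    have m2 : x / r ≤ b / r := Int.ediv_le_ediv hr0 h2
    omega
  · rw [min_eq_right hab] at h1
    rw [max_eq_left hab] at h2
    have m1 : b / r ≤ x / r := Int.ediv_le_ediv hr0 h1
    have m2 : x / r ≤ a / r := Int.ediv_le_ediv hr0 h2
    omega

theorem planar_bb {r : ℕ} (hr : 1 ≤ r) {P : Set (ℤ × ℤ)}
    (ha : ∀ x y : ℤ, (x, y) ∉ P → (x + 1, y + 1) ∉ P → (x + 1, y) ∉ P ∨ (x, y + 1) ∉ P)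
    (hb : ∀ x y : ℤ, (x + 1, y) ∉ P → (x, y + 1) ∉ P → (x, y) ∉ P ∨ (x + 1, y + 1) ∉ P)
    {f f' : Vtx} (hf : cs r f ∉ P) (hf' : cs r f' ∉ P) (h1 : |f.1 - f'.1| < r)
    (h2 : |f.2 - f'.2| < r) :
    Reach {e | cro e ∉ EP r P ∧ InB f f' (src e) ∧ InB f f' (tgt e)} f f' := by
  obtain ⟨a, b⟩ := f
  obtain ⟨a', b'⟩ := f'
  simp only [cs] at hf hf' h1 h2
  obtain ⟨n1, n2⟩ := div_near hr h1
  obtain ⟨n3, n4⟩ := div_near hr h2
  have key : ((a' / r, b / r) : ℤ × ℤ) ∉ P ∨ ((a / r, b' / r) : ℤ × ℤ) ∉ P := by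
    by_cases e1 : a / (r : ℤ) = a' / r
    · left; rw [← e1]; exact hf
    by_cases e2 : b / (r : ℤ) = b' / r
    · left; rw [e2]; exact hf'
    have c1 : a' / (r : ℤ) = a / r + 1 ∨ a / (r : ℤ) = a' / r + 1 := by omega
    have c2 : b' / (r : ℤ) = b / r + 1 ∨ b / (r : ℤ) = b' / r + 1 := by omega
    rcases c1 with c1 | c1 <;> rcases c2 with c2 | c2
    · rw [c1, c2] at hf'
      rcases ha _ _ hf hf' with h | h
      · left; rw [c1]; exact h
      · right; rw [c2]; exact h
    · rw [c2] at hf
      rw [c1] at hf'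
      rcases hb _ _ hf' hf with h | h
      · right; exact h
      · left; rw [c1, c2]; exact h
    · rw [c1] at hf
      rw [c2] at hf'
      rcases hb _ _ hf hf' with h | h
      · left; exact h
      · right; rw [c1, c2]; exact h
    · rw [c1, c2] at hf
      rcases ha _ _ hf' hf with h | h
      · right; rw [c1]; exact h
      · left; rw [c2]; exact h
  rcases key with hk | hk
  · have s1 : Reach {e | cro e ∉ EP r P ∧ InB (a, b) (a', b') (src e) ∧ InB (a, b) (a', b') (tgt e)}
        (a, b) (a', b) := by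
      apply hseg2
      intro x hx1 hx2
      refine ⟨cro_out hr ?_ ?_, ?_, ?_⟩
      · simp only [src_mk, cs]
        rcases div_mid hr h1 hx1 hx2.le with h | h <;> rw [h]
        · exact hf
        · exact hk
      · simp only [tgt_true, cs]
        rcases div_mid hr h1 (x := x + 1) (by omega) (by omega) with h | h <;> rw [h]
        · exact hf
        · exact hk
      · simp only [InB, src_mk]; omega
      · simp only [InB, tgt_true]; omega
    have s2 : Reach {e | cro e ∉ EP r P ∧ InB (a, b) (a', b') (src e) ∧ InB (a, b) (a', b') (tgt e)}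
        (a', b) (a', b') := by
      apply vseg2
      intro y hy1 hy2
      refine ⟨cro_out hr ?_ ?_, ?_, ?_⟩
      · simp only [src_mk, cs]
        rcases div_mid hr h2 hy1 hy2.le with h | h <;> rw [h]
        · exact hk
        · exact hf'
      · simp only [tgt_false, cs]
        rcases div_mid hr h2 (x := y + 1) (by omega) (by omega) with h | h <;> rw [h]
        · exact hk
        · exact hf'
      · simp only [InB, src_mk]; omega
      · simp only [InB, tgt_false]; omega
    exact s1.trans s2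
  · have s1 : Reach {e | cro e ∉ EP r P ∧ InB (a, b) (a', b') (src e) ∧ InB (a, b) (a', b') (tgt e)}
        (a, b) (a, b') := by
      apply vseg2
      intro y hy1 hy2
      refine ⟨cro_out hr ?_ ?_, ?_, ?_⟩
      · simp only [src_mk, cs]
        rcases div_mid hr h2 hy1 hy2.le with h | h <;> rw [h]
        · exact hf
        · exact hk
      · simp only [tgt_false, cs]
        rcases div_mid hr h2 (x := y + 1) (by omega) (by omega) with h | h <;> rw [h]
        · exact hf
        · exact hk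
      · simp only [InB, src_mk]; omega
      · simp only [InB, tgt_false]; omega
    have s2 : Reach {e | cro e ∉ EP r P ∧ InB (a, b) (a', b') (src e) ∧ InB (a, b) (a', b') (tgt e)}
        (a, b') (a', b') := by
      apply hseg2
      intro x hx1 hx2
      refine ⟨cro_out hr ?_ ?_, ?_, ?_⟩
      · simp only [src_mk, cs]
        rcases div_mid hr h1 hx1 hx2.le with h | h <;> rw [h]
        · exact hk
        · exact hf'
      · simp only [tgt_true, cs]
        rcases div_mid hr h1 (x := x + 1) (by omega) (by omega) with h | h <;> rw [h]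
        · exact hk
        · exact hf'
      · simp only [InB, src_mk]; omega
      · simp only [InB, tgt_true]; omega
    exact s1.trans s2

theorem mem_FA {N r k : ℕ} {c : Fin k → Cel} {n M : ℕ} {F : Finset Edg} {e : Edg} :
    e ∈ FA N r k c n M F ↔ e ∈ CE n M ∧ ((e ∈ EP r (Bxs N k) ∧ e ∈ F) ∨
      (e ∉ EP r (Bxs N k) ∧ e ∈ EP r (Crr N k c))) := by
  classical
  unfold FA
  simp only [Finset.mem_filter]

/-- two faces of the closed region at distance `< r` are connected by closed edges -/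
theorem bb (g4 : S_g4) (hLI : S_LIF) {N r k : ℕ} {c : Fin k → Cel} (hk : 2 ≤ k) (hN : k + 4 ≤ N)
    (hAdm : Adm N k c) {n M : ℕ} (hn : n = prd N k * r) (hM : M = 4 * n) (hr : 1 ≤ r)
    {F : Finset Edg} (τ σ : Word) {p p' : Pt} (hp : Cls M 1 p) (hp' : Cls M 1 p')
    (h1 : cs r (vx M p) ∉ Bxs N k ∪ Crr N k c) (h2 : cs r (vx M p') ∉ Bxs N k ∪ Crr N k c)
    (h3 : |(vx M p).1 - (vx M p').1| < r) (h4 : |(vx M p).2 - (vx M p').2| < r)
    (hc : |(vx M p).1 - (vx M p).2| ≤ 2 * n) :
    RB 1 n M k (Ac 1 n M (FA N r k c n M F)) τ σ p p' := by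
  obtain ⟨ga, gb, hper, -⟩ := g4 N k c (by omega) hk hAdm _ rfl
  set P : Set (ℤ × ℤ) := Bxs N k ∪ Crr N k c with hPdef
  have hr0 : (0 : ℤ) < r := by exact_mod_cast hr
  have hν : 56 ≤ prd N k := by unfold prd; omega
  have hνZ : (56 : ℤ) ≤ prd N k := by exact_mod_cast hν
  have hnr : 56 * (r : ℤ) ≤ n := by
    rw [hn]
    push_cast
    nlinarith
  have hkprd : (k : ℤ) ≤ prd N k := by
    unfold prd
    push_cast
    omega
  have hkn : k ≤ 2 * n := by
    have : (k : ℤ) ≤ 2 * n := by
      have e5 : (prd N k : ℤ) ≤ n := by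
        rw [hn]
        push_cast
        nlinarith
      omega
    exact_mod_cast this
  have hn1 : 1 ≤ n := by
    have : (1 : ℤ) ≤ n := by omega
    exact_mod_cast this
  have hM' : (M : ℤ) = 4 * n := by rw [hM]; push_cast; ring
  have hGC : FA N r k c n M F ⊆ CE n M := fun e he => (mem_FA.1 he).1
  obtain ⟨f, hfe⟩ : ∃ f : Vtx, f = vx M p := ⟨_, rfl⟩
  obtain ⟨f', hfe'⟩ : ∃ f' : Vtx, f' = vx M p' := ⟨_, rfl⟩
  rw [← hfe] at h1 h3 h4 hc
  rw [← hfe'] at h2 h3 h4
  apply hLI 1 n M k (by norm_num) hn1 hkn _ hGC τ σ p p' (fun v => InB f f' v) hp hp'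
  · intro v hv
    obtain ⟨v1, v2, v3, v4⟩ := hv
    rw [abs_lt] at h3 h4
    rw [abs_le] at hc
    refine ⟨?_, ?_⟩
    · have : |v.1 - v.2| ≤ 2 * n + 2 * r := by
        rw [abs_le]; omega
      omega
    · rintro s ⟨e1, e2, e3⟩
      apply h1
      left
      refine ⟨s, ?_⟩
      have hsn : s * (n : ℤ) = (s * prd N k) * r := by
        rw [hn]; push_cast; ring
      obtain ⟨A, hA⟩ : ∃ A : ℤ, A = s * prd N k := ⟨_, rfl⟩
      rw [hsn, ← hA] at e2 e3
      have kr : (k : ℤ) ≤ k * r := by nlinarith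
      have w1 : v.1 - r < f.1 := by omega
      have w2 : f.1 < v.1 + r := by omega
      have w3 : v.2 - r < f.2 := by omega
      have w4 : f.2 < v.2 + r := by omega
      have x1 : (A - 2) * (r : ℤ) = A * r - 2 * r := by ring
      have x2 : (A + k + 2) * (r : ℤ) = A * r + k * r + 2 * r := by ring
      have q1 : (A - 2) * r ≤ f.1 := by rw [x1]; linarith
      have q2 : f.1 < (A + k + 2) * r := by rw [x2]; linarith
      have q3 : (A - 2) * r ≤ f.2 := by rw [x1]; linarith
      have q4 : f.2 < (A + k + 2) * r := by rw [x2]; linarith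
      have d1 : A - 2 ≤ f.1 / r := Int.le_ediv_of_mul_le hr0 q1
      have d2 : f.1 / r < A + k + 2 := Int.ediv_lt_of_lt_mul hr0 q2
      have d3 : A - 2 ≤ f.2 / r := Int.le_ediv_of_mul_le hr0 q3
      have d4 : f.2 / r < A + k + 2 := Int.ediv_lt_of_lt_mul hr0 q4
      have hNZ : (k : ℤ) + 4 ≤ N := by exact_mod_cast hN
      simp only [BxS, shf, cs, Set.mem_ofPred_eq, ← hA]
      omega
  · rw [← hfe]
    simp only [InB]; omega
  · rw [← hfe, ← hfe']
    have hreach := planar_bb hr ga gb h1 h2 h3 h4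
    refine Reach.mono ?_ hreach
    rintro e ⟨he1, he2, he3⟩
    refine ⟨?_, he2, he3⟩
    have hdco : |dco e| ≤ 2 * n + 2 * r + 1 := by
      obtain ⟨v1, v2, v3, v4⟩ := he2
      rw [abs_lt] at h3 h4
      rw [abs_le] at hc ⊢
      unfold dco
      unfold src at v1 v2 v3 v4
      simp only at v1 v2 v3 v4
      split_ifs <;> omega
    rw [abs_le] at hdco
    unfold Cc
    simp only [Set.mem_ofPred_eq, one_ne_zero, if_false]
    refine ⟨by omega, by omega, ?_⟩
    rw [cro_eq]
    intro hmem
    have hmem' : red n (cro e) ∈ FA N r k c n M F := hmem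
    have h5 := (mem_FA.1 hmem').2
    have h6 : red n (cro e) ∈ EP r P := by
      rw [hPdef, TSEPB.EP_union]
      rcases h5 with h5 | h5
      · exact Or.inl h5.1
      · exact Or.inr h5.2
    rw [hn] at h6
    exact he1 ((TSEPB.EP_red hper).1 h6)

end TBB

end Pool.Agent.H160R2.MU
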