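import Pool.Agent.H160R2.MU.Defs

/-!
# Exploration: paths, periodicity, levels (helper415)
-/

set_option autoImplicit false

namespace Pool.Agent.H160R2.MU
open Pool.Agent.H863R2.Cyl
open Pool.Agent.H988R2.Perc (Word PD)
open Pool.Agent.H160R2.ML
open H974 H906.Cyl
open H12S (Dir hbE segD rimE H4 Crs Nr sqE)

namespace TSTB

open Relation

theorem eqv_rtg {V : Type} {r : V → V → Prop} {x y : V} (h : EqvGen r x y) :
    ReflTransGen (fun a b => r a b ∨ r b a) x y := by
  induction h with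
  | rel a b h => exact ReflTransGen.single (Or.inl h)
  | refl a => exact ReflTransGen.refl
  | symm a b _ ih =>
    clear * - ih
    induction ih with
    | refl => exact ReflTransGen.refl
    | tail _ h ih => exact ReflTransGen.head h.symm ih
  | trans a b c _ _ ih1 ih2 => exact ih1.trans ih2

theorem step_eqv {V : Type} {r : V → V → Prop} {x y z : V} (h : EqvGen r x y)
    (h' : r y z ∨ r z y) : EqvGen r x z := by
  refine EqvGen.trans _ _ _ h ?_
  rcases h' with h' | h'
  · exact EqvGen.rel _ _ h'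
  · exact EqvGen.symm _ _ (EqvGen.rel _ _ h')

theorem rtg_eqv {V : Type} {r : V → V → Prop} {x y : V}
    (h : ReflTransGen (fun a b => r a b ∨ r b a) x y) : EqvGen r x y := by
  induction h with
  | refl => exact EqvGen.refl _
  | tail _ h ih => exact step_eqv ih h

/-- the cluster of `x` depends only on the edges which touch it -/
theorem clu {V E : Type} (f : V → V → Prop) (lk : E → V → V → Prop) (B B' : Set E) (x : V)
    (h : ∀ e u v, lk e u v → (EqvGen (fun a b => f a b ∨ ∃ e ∈ B, lk e a b) x u ∨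
      EqvGen (fun a b => f a b ∨ ∃ e ∈ B, lk e a b) x v) → (e ∈ B ↔ e ∈ B')) (u : V) :
    EqvGen (fun a b => f a b ∨ ∃ e ∈ B, lk e a b) x u ↔
      EqvGen (fun a b => f a b ∨ ∃ e ∈ B', lk e a b) x u := by
  constructor
  · intro hu
    have hp := eqv_rtg hu
    clear hu
    induction hp with
    | refl => exact EqvGen.refl _
    | @tail b c h1 h2 ih =>
      have hb := rtg_eqv h1
      refine step_eqv ih ?_
      rcases h2 with h2 | h2
      · left
        rcases h2 with h2 | ⟨e, he, h2⟩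
        · exact Or.inl h2
        · exact Or.inr ⟨e, (h e b c h2 (Or.inl hb)).1 he, h2⟩
      · right
        rcases h2 with h2 | ⟨e, he, h2⟩
        · exact Or.inl h2
        · exact Or.inr ⟨e, (h e c b h2 (Or.inr hb)).1 he, h2⟩
  · intro hu
    have hp := eqv_rtg hu
    clear hu
    induction hp with
    | refl => exact EqvGen.refl _
    | @tail b c h1 h2 ih =>
      refine step_eqv ih ?_
      rcases h2 with h2 | h2
      · left
        rcases h2 with h2 | ⟨e, he, h2⟩
        · exact Or.inl h2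
        · exact Or.inr ⟨e, (h e b c h2 (Or.inl ih)).2 he, h2⟩
      · right
        rcases h2 with h2 | ⟨e, he, h2⟩
        · exact Or.inl h2
        · exact Or.inr ⟨e, (h e c b h2 (Or.inr ih)).2 he, h2⟩

theorem RB_eq (c n M k : ℕ) (A : Set Edg) (τ σ : Word) :
    RB c n M k A τ σ = EqvGen (fun x y => (Wl τ σ x y ∨ Gl n M k x y) ∨
      ∃ e ∈ A, Dg n M c e x y) := by
  unfold RB
  congr 1
  funext x y
  exact propext or_assoc.symm

/-- levels of the two ends of a diagonal -/
theorem Dg_lev {n M c : ℕ} {e : Edg} {u v : Pt} (h : Dg n M c e u v) :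
    ((M : ℤ) - |dco e| - 1 ≤ u.1.2 ∧ (u.1.2 : ℤ) ≤ M) ∧
      ((M : ℤ) - |dco e| - 1 ≤ v.1.2 ∧ (v.1.2 : ℤ) ≤ M) := by
  cases h with
  | lrise q t h1 h2 h3 =>
    rw [abs_of_neg h2]
    simp only [Nat.cast_add, Nat.cast_one]
    omega
  | lfall q t h1 h2 h3 =>
    rw [abs_of_neg h2]
    simp only [Nat.cast_add, Nat.cast_one]
    omega
  | urise q t h1 h2 h3 =>
    rw [abs_of_nonneg h2]
    simp only [Nat.cast_add, Nat.cast_one]
    omega
  | ufall q t h1 h2 h3 =>
    rw [abs_of_nonneg h2]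
    simp only [Nat.cast_add, Nat.cast_one]
    omega

/-- classes of the two ends of a diagonal -/
theorem Dg_cls {n M c : ℕ} (hc : c < 2) {e : Edg} {u v : Pt} (h : Dg n M c e u v) :
    Cls M c u ∧ Cls M c v := by
  have e0 : ∀ q : ℤ, q * ((2 * n : ℕ) : ℤ) = 2 * (q * n) := by
    intro q
    push_cast
    ring
  unfold Cls
  cases h with
  | lrise q t h1 h2 h3 =>
    simp only [Nat.cast_add, Nat.cast_one, e0]
    generalize q * (n : ℤ) = m
    omega
  | lfall q t h1 h2 h3 =>
    simp only [Nat.cast_add, Nat.cast_one, e0]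
    generalize q * (n : ℤ) = m
    omega
  | urise q t h1 h2 h3 =>
    simp only [Nat.cast_add, Nat.cast_one, e0]
    generalize q * (n : ℤ) = m
    omega
  | ufall q t h1 h2 h3 =>
    simp only [Nat.cast_add, Nat.cast_one, e0]
    generalize q * (n : ℤ) = m
    omega

/-- translation by `q` periods -/
def sh (n : ℕ) (q : ℤ) (u : Pt) : Pt := ((u.1.1 + q * (2 * n : ℕ), u.1.2), u.2)

theorem Dg_sh {n M c : ℕ} {e : Edg} {u v : Pt} (q : ℤ) (h : Dg n M c e u v) :
    Dg n M c e (sh n q u) (sh n q v) := by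
  cases h with
  | lrise p t h1 h2 h3 =>
    convert Dg.lrise (p + q) t h1 h2 h3 using 1
    · exact Prod.ext (Prod.ext (by simp only [sh]; ring) rfl) rfl
    · exact Prod.ext (Prod.ext (by simp only [sh]; ring) rfl) rfl
  | lfall p t h1 h2 h3 =>
    convert Dg.lfall (p + q) t h1 h2 h3 using 1
    · exact Prod.ext (Prod.ext (by simp only [sh]; ring) rfl) rfl
    · exact Prod.ext (Prod.ext (by simp only [sh]; ring) rfl) rfl
  | urise p t h1 h2 h3 =>
    convert Dg.urise (p + q) t h1 h2 h3 using 1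
    · exact Prod.ext (Prod.ext (by simp only [sh]; ring) rfl) rfl
    · exact Prod.ext (Prod.ext (by simp only [sh]; ring) rfl) rfl
  | ufall p t h1 h2 h3 =>
    convert Dg.ufall (p + q) t h1 h2 h3 using 1
    · exact Prod.ext (Prod.ext (by simp only [sh]; ring) rfl) rfl
    · exact Prod.ext (Prod.ext (by simp only [sh]; ring) rfl) rfl

theorem Gl_sh {n M k : ℕ} {u v : Pt} (q : ℤ) (h : Gl n M k u v) :
    Gl n M k (sh n q u) (sh n q v) := by
  cases h with
  | glue s i h1 =>
    convert Gl.glue (M := M) (s + q) i h1 using 1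
    · exact Prod.ext (Prod.ext (by simp only [sh]; ring) rfl) rfl
    · exact Prod.ext (Prod.ext (by simp only [sh]; ring) rfl) rfl

theorem Dg_uniq {n M c : ℕ} {e : Edg} {u v u' v' : Pt} (h : Dg n M c e u v)
    (h' : Dg n M c e u' v') : ∃ q : ℤ, u' = sh n q u ∧ v' = sh n q v := by
  cases h with
  | lrise p t h1 h2 h3 =>
    cases h' with
    | lrise p' t' h1' h2' h3' =>
      have ht : t' = t := by omega
      subst ht
      exact ⟨p' - p, Prod.ext (Prod.ext (by simp only [sh]; ring) rfl) rfl,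
        Prod.ext (Prod.ext (by simp only [sh]; ring) rfl) rfl⟩
    | lfall p' t' h1' h2' h3' => exact absurd h3 h3'
    | urise p' t' h1' h2' h3' => omega
    | ufall p' t' h1' h2' h3' => omega
  | lfall p t h1 h2 h3 =>
    cases h' with
    | lrise p' t' h1' h2' h3' => exact absurd h3' h3
    | lfall p' t' h1' h2' h3' =>
      have ht : t' = t := by omega
      subst ht
      exact ⟨p' - p, Prod.ext (Prod.ext (by simp only [sh]; ring) rfl) rfl,
        Prod.ext (Prod.ext (by simp only [sh]; ring) rfl) rfl⟩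
    | urise p' t' h1' h2' h3' => omega
    | ufall p' t' h1' h2' h3' => omega
  | urise p t h1 h2 h3 =>
    cases h' with
    | lrise p' t' h1' h2' h3' => omega
    | lfall p' t' h1' h2' h3' => omega
    | urise p' t' h1' h2' h3' =>
      have ht : t' = t := by omega
      subst ht
      exact ⟨p' - p, Prod.ext (Prod.ext (by simp only [sh]; ring) rfl) rfl,
        Prod.ext (Prod.ext (by simp only [sh]; ring) rfl) rfl⟩
    | ufall p' t' h1' h2' h3' => exact absurd h3 h3'
  | ufall p t h1 h2 h3 =>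
    cases h' with
    | lrise p' t' h1' h2' h3' => omega
    | lfall p' t' h1' h2' h3' => omega
    | urise p' t' h1' h2' h3' => exact absurd h3' h3
    | ufall p' t' h1' h2' h3' =>
      have ht : t' = t := by omega
      subst ht
      exact ⟨p' - p, Prod.ext (Prod.ext (by simp only [sh]; ring) rfl) rfl,
        Prod.ext (Prod.ext (by simp only [sh]; ring) rfl) rfl⟩

theorem sec_sh (n M k : ℕ) (s q : ℤ) (i : ℕ) : sh n q (sec n M k s i) = sec n M k (s + q) i := by
  unfold sec sh
  split_ifs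
  · exact Prod.ext (Prod.ext (by simp only; ring) rfl) rfl
  · exact Prod.ext (Prod.ext (by simp only; ring) rfl) rfl

/-- good points: class `c` and central band -/
def PI (n M c : ℕ) (u : Pt) : Prop := Cls M c u ∧ M ≤ u.1.2 + 2 * n

theorem PI_sec {n M k c : ℕ} (s : ℤ) (i : ℕ) (hi : i % 2 = c) : PI n M c (sec n M k s i) := by
  have e0 : ∀ q : ℤ, q * ((2 * n : ℕ) : ℤ) = 2 * (q * n) := by
    intro q
    push_cast
    ring
  unfold PI Cls sec
  split_ifs
  · simp only [e0]
    generalize s * (n : ℤ) = m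
    omega
  · simp only [e0]
    generalize s * (n : ℤ) = m
    omega

/-- the class of a sector -/
theorem sec_par {n M k c : ℕ} {s : ℤ} {j : ℕ} (h : Cls M c (sec n M k s j)) :
    j % 2 = c := by
  have e0 : ∀ q : ℤ, q * ((2 * n : ℕ) : ℤ) = 2 * (q * n) := by
    intro q
    push_cast
    ring
  revert h
  unfold Cls sec
  split_ifs
  · simp only [e0]
    generalize s * (n : ℤ) = m
    omega
  · simp only [e0]
    generalize s * (n : ℤ) = m
    omega

theorem Gl_PI {n M k c : ℕ} {u v : Pt} (h : Gl n M k u v) :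
    (PI n M c u ↔ PI n M c v) ∧ u.1.2 = M ∧ v.1.2 = M := by
  cases h with
  | glue s i h1 => exact ⟨Iff.rfl, rfl, rfl⟩

theorem Wl_lev {τ σ : Word} {u v : Pt} (h : Wl τ σ u v) : u.1.2 = 0 ∧ v.1.2 = 0 := by
  cases h with
  | low a b h => exact ⟨rfl, rfl⟩
  | upp a b h => exact ⟨rfl, rfl⟩

/-- one step inside the central band -/
theorem step {n M k c r : ℕ} (hc : c < 2) (hn : 1 ≤ n) (hM : M = 4 * n) (hr : r + 2 ≤ n)
    {τ σ : Word} {B : Set Edg} (hB : ∀ e ∈ B, |dco e| ≤ n + r + 1) {a b : Pt}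
    (ha : PI n M c a)
    (h : ((Wl τ σ a b ∨ Gl n M k a b) ∨ ∃ e ∈ B, Dg n M c e a b) ∨
      ((Wl τ σ b a ∨ Gl n M k b a) ∨ ∃ e ∈ B, Dg n M c e b a)) :
    PI n M c b ∧ ((Gl n M k a b ∨ ∃ e ∈ B, Dg n M c e a b) ∨
      (Gl n M k b a ∨ ∃ e ∈ B, Dg n M c e b a)) := by
  have hW : ∀ u v : Pt, Wl τ σ u v → PI n M c u → False := by
    intro u v h1 h2
    have h3 := (Wl_lev h1).1
    have h4 := h2.2
    omega
  have hW' : ∀ u v : Pt, Wl τ σ u v → PI n M c v → False := by
    intro u v h1 h2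
    have h3 := (Wl_lev h1).2
    have h4 := h2.2
    omega
  rcases h with (h | h) | (h | h)
  · rcases h with h | h
    · exact (hW _ _ h ha).elim
    · exact ⟨(Gl_PI h).1.1 ha, Or.inl (Or.inl h)⟩
  · obtain ⟨e, he, h⟩ := h
    refine ⟨⟨(Dg_cls hc h).2, ?_⟩, Or.inl (Or.inr ⟨e, he, h⟩)⟩
    have h1 := (Dg_lev h).2.1
    have h2 := hB e he
    omega
  · rcases h with h | h
    · exact (hW' _ _ h ha).elim
    · exact ⟨(Gl_PI h).1.2 ha, Or.inr (Or.inl h)⟩
  · obtain ⟨e, he, h⟩ := h
    refine ⟨⟨(Dg_cls hc h).1, ?_⟩, Or.inr (Or.inr ⟨e, he, h⟩)⟩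
    have h1 := (Dg_lev h).1.1
    have h2 := hB e he
    omega

theorem kfull {n M k c r : ℕ} (hc : c < 2) (hn : 1 ≤ n) (hM : M = 4 * n) (hr : r + 2 ≤ n)
    {τ σ : Word} {B : Set Edg} (hB : ∀ e ∈ B, |dco e| ≤ n + r + 1) {x u : Pt}
    (hx : PI n M c x) (h : RB c n M k B τ σ x u) :
    PI n M c u ∧ ReflTransGen (fun a b => (Gl n M k a b ∨ ∃ e ∈ B, Dg n M c e a b) ∨
      (Gl n M k b a ∨ ∃ e ∈ B, Dg n M c e b a)) x u := by
  rw [RB_eq] at h
  have hp := eqv_rtg h
  clear h
  induction hp with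
  | refl => exact ⟨hx, ReflTransGen.refl⟩
  | @tail b d h1 h2 ih =>
    have h3 := step hc hn hM hr hB ih.1 h2
    exact ⟨h3.1, ih.2.tail h3.2⟩

theorem RB_sh {n M k c r : ℕ} (hc : c < 2) (hn : 1 ≤ n) (hM : M = 4 * n) (hr : r + 2 ≤ n)
    {τ σ : Word} {B : Set Edg} (hB : ∀ e ∈ B, |dco e| ≤ n + r + 1) {x u : Pt}
    (hx : PI n M c x) (h : RB c n M k B τ σ x u) (q : ℤ) :
    RB c n M k B τ σ (sh n q x) (sh n q u) := by
  have h1 := (kfull hc hn hM hr hB hx h).2
  rw [RB_eq]
  apply rtg_eqv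
  clear h hx
  induction h1 with
  | refl => exact ReflTransGen.refl
  | @tail a b _ hab ih =>
  refine ih.tail ?_
  rcases hab with (h | ⟨e, he, h⟩) | (h | ⟨e, he, h⟩)
  · exact Or.inl (Or.inl (Or.inr (Gl_sh q h)))
  · exact Or.inl (Or.inr ⟨e, he, Dg_sh q h⟩)
  · exact Or.inr (Or.inl (Or.inr (Gl_sh q h)))
  · exact Or.inr (Or.inr ⟨e, he, Dg_sh q h⟩)

theorem vx_diff (M : ℕ) (x : Pt) (hx : x.1.2 ≤ M) : (vx M x).1 - (vx M x).2 =
    (if x.2 then (M : ℤ) - x.1.2 else (x.1.2 : ℤ) - M) := by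
  unfold vx pv
  split_ifs
  · simp only
    have : ((2 * M - x.1.2 : ℕ) : ℤ) = 2 * M - x.1.2 := by omega
    rw [this]
    omega
  · simp only
    omega

/-- the trap keeps the exploration away from the ends -/
theorem trap_path {n M k c l : ℕ} (hM : M = 4 * n) (hl : 4 * l < n)
    {τ σ : Word} {G : Finset Edg} (hT : Trap c n M l G) {u v : Pt} (hu : PI n M c u)
    (h : EqvGen (fun a b => (Wl τ σ a b ∨ Gl n M k a b) ∨ ∃ e ∈ Ac c n M G, Dg n M c e a b) u v) :
    Nr (4 * (l : ℤ)) (vx M u) (vx M v) := by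
  have hp := eqv_rtg h
  clear h
  have key : EqvGen (fun x y => (∃ j : ℤ, x = ((j, M), false) ∧ y = ((j, M), true)) ∨
    ∃ e ∈ Ac c n M G, Dg n M c e x y) u v := by
    induction hp with
    | refl => exact EqvGen.refl _
    | @tail b d h1 h2 ih =>
      have hN : Nr (4 * (l : ℤ)) (vx M u) (vx M b) := hT u b hu.1 hu.2 ih
      have hb0 : b.1.2 ≠ 0 := by
        intro h0
        have e1 := vx_diff M u hu.1.2
        have e2 := vx_diff M b (by omega)
        obtain ⟨n1, n2⟩ := hN
        rw [abs_le] at n1 n2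
        have h3 := hu.2
        have h4 := hu.1.2
        rw [h0] at e2
        split_ifs at e1 e2 <;> omega
      refine step_eqv ih ?_
      rcases h2 with (h2 | h2) | (h2 | h2)
      · rcases h2 with h2 | h2
        · exact absurd (Wl_lev h2).1 hb0
        · left; left
          cases h2 with
          | glue s i h1 => exact ⟨_, rfl, rfl⟩
      · exact Or.inl (Or.inr h2)
      · rcases h2 with h2 | h2
        · exact absurd (Wl_lev h2).2 hb0
        · right; left
          cases h2 with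
          | glue s i h1 => exact ⟨_, rfl, rfl⟩
      · exact Or.inr (Or.inr h2)
  exact hT u v hu.1 hu.2 key

end TSTB

end Pool.Agent.H160R2.MU
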