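import Pool.Agent.H160R2.MU.Defs
import Pool.Agent.H906R2.Arm.Link
import Pool.Agent.H906R2.Arm.Box
import Pool.Agent.H12R2.Sep.Exit1
import Pool.Agent.H12R2.Sep.Loc

/-!
Project MU, task BADP (helper8), part 1: transport to the plane, translations, shrinking of half balls.
-/

set_option autoImplicit false

namespace Pool.Agent.H160R2.MU
open H974 H906.Cyl Finset
open H12S (Dir hbE segD rimE H4 Crs Nr H3g EP_H3g ends_RE)

namespace TBADP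

theorem Pr_map {f : Edg → Edg} {q : ℝ} {S B : Finset Edg} (hinj : Set.InjOn f B)
    (hS : B.image f ⊆ S) (A : Finset Edg → Prop) :
    Pr (fun _ => q) S (fun F => A (B.filter (fun e => f e ∈ F))) = Pr (fun _ => q) B A := by
  have e1 : Pr (fun _ => q) S (fun F => A (B.filter (fun e => f e ∈ F)))
      = Pr (fun _ => q) (B.image f) (fun F => A (B.filter (fun e => f e ∈ F))) := by
    apply Pr_local hS
    intro F _
    have : B.filter (fun e => f e ∈ F) =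
        B.filter (fun e => f e ∈ F ∩ B.image f) := by
      apply Finset.filter_congr
      intro e he
      rw [Finset.mem_inter]
      exact ⟨fun h => ⟨h, Finset.mem_image_of_mem _ he⟩, fun h => h.1⟩
    rw [this]
  rw [e1]
  unfold Pr
  rw [Ex_image _ _ _ hinj]
  apply Ex_congr
  intro F hF
  apply ind_congr
  have : B.filter (fun e => f e ∈ F.image f) = F := by
    ext e
    rw [Finset.mem_filter, Finset.mem_image]
    constructor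
    · rintro ⟨h1, a, h2, h3⟩
      have := hinj (Finset.mem_coe.2 (hF h2)) (Finset.mem_coe.2 h1) h3
      exact this ▸ h2
    · intro h
      exact ⟨hF h, e, h, rfl⟩
  show A (B.filter (fun e => f e ∈ F.image f)) ↔ A F
  rw [this]

/-- the edge of the cylinder which decides `e` -/
def fm (n c : ℕ) (e : Edg) : Edg := red n (edz (e.1 + e.2.1 + c) (dco e))

theorem dco_edz (s d : ℤ) : dco (edz s d) = d := (edz_inj (edz_of (edz s d))).2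
theorem sum_edz (s d : ℤ) : (edz s d).1 + (edz s d).2.1 = s := (edz_inj (edz_of (edz s d))).1

theorem fm_eq {n c : ℕ} (e : Edg) : fm n c e = edz ((e.1 + e.2.1 + c) % (2 * n)) (dco e) := by
  unfold fm
  rw [red_edz, Int.emod_def]

theorem red_eq {n : ℕ} (e : Edg) : red n e = edz ((e.1 + e.2.1) % (2 * n)) (dco e) := by
  conv_lhs => rw [← edz_of e]
  rw [red_edz, Int.emod_def]

theorem fm_zero {n : ℕ} (e : Edg) : fm n 0 e = red n e := by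
  rw [fm_eq, red_eq]
  simp

theorem fm_inj {n c : ℕ} {B : Finset Edg} (h : Set.InjOn (red n) B) :
    Set.InjOn (fm n c) B := by
  intro e he e' he' hee
  apply h he he'
  rw [fm_eq, fm_eq] at hee
  obtain ⟨h1, h2⟩ := edz_inj hee
  rw [red_eq, red_eq, h2]
  congr 1
  have h3 : (e.1 + e.2.1 + c) ≡ (e'.1 + e'.2.1 + c) [ZMOD (2 * n)] := h1
  exact Int.ModEq.add_right_cancel' _ h3

theorem fm_mem {n M c : ℕ} (hn : 0 < n) {e : Edg} (h1 : -(M : ℤ) ≤ dco e) (h2 : dco e < M) :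
    fm n c e ∈ CE n M := by
  unfold fm
  exact red_mem hn (by rw [dco_edz]; exact h1) (by rw [dco_edz]; exact h2)

theorem mem_Cc0 {n M : ℕ} {F : Finset Edg} {e : Edg} : e ∈ Cc 0 n M F ↔ fm n 0 e ∈ F := by
  rw [fm_zero]
  unfold Cc
  simp only [if_true]
  exact Iff.rfl

theorem mem_Cc1 {n M : ℕ} {F : Finset Edg} {e : Edg} : e ∈ Cc 1 n M F ↔
    (-(M : ℤ) ≤ dco e ∧ dco e < M ∧ fm n 1 e ∉ F) := by
  unfold Cc fm per
  simp

theorem transport {c n M : ℕ} (hc : c < 2) (hn : 0 < n) {B : Finset Edg}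
    (hB : ∀ e ∈ B, -(M : ℤ) ≤ dco e ∧ dco e < M) (hinj : Set.InjOn (red n) B)
    (A : Set Edg → Prop) :
    PC n M (fun F => A (Cc c n M F ∩ ↑B)) = Pr (fun _ => (1 / 2 : ℝ)) B (fun F => A ↑F) := by
  have hsub : B.image (fm n c) ⊆ CE n M := by
    intro x hx
    obtain ⟨e, he, rfl⟩ := Finset.mem_image.1 hx
    exact fm_mem hn (hB e he).1 (hB e he).2
  have hmap := Pr_map (q := 1 / 2) (fm_inj (c := c) hinj) hsub (fun F => A ↑F)
  rw [← hmap]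
  unfold PC
  interval_cases c
  · apply Pr_congr
    intro F _
    have : Cc 0 n M F ∩ ↑B = (↑(B.filter (fun e => fm n 0 e ∈ F)) : Set Edg) := by
      ext e
      rw [Set.mem_inter_iff, mem_Cc0, Finset.mem_coe, Finset.mem_coe, Finset.mem_filter]
      tauto
    rw [this]
  · have h2 := Pr_compl (fun _ => (1 / 2 : ℝ)) (CE n M)
      (fun F => A ↑(B.filter (fun e => fm n 1 e ∈ F)))
    have h3 : (fun _ : Edg => 1 - (1 / 2 : ℝ)) = (fun _ => (1 / 2 : ℝ)) := by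
      funext _; norm_num
    rw [h3] at h2
    rw [h2]
    apply Pr_congr
    intro F _
    have : Cc 1 n M F ∩ ↑B = (↑(B.filter (fun e => fm n 1 e ∈ CE n M \ F)) : Set Edg) := by
      ext e
      rw [Set.mem_inter_iff, mem_Cc1, Finset.mem_coe, Finset.mem_coe, Finset.mem_filter,
        Finset.mem_sdiff]
      constructor
      · rintro ⟨⟨a1, a2, a3⟩, a4⟩
        exact ⟨a4, fm_mem hn a1 a2, a3⟩
      · rintro ⟨a4, _, a3⟩
        exact ⟨⟨(hB e a4).1, (hB e a4).2, a3⟩, a4⟩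
    rw [this]

/-! ### translations -/

theorem dco_shift (e : Edg) (a : ℤ) : dco (e.1 + a, e.2.1 + a, e.2.2) = dco e := by
  obtain ⟨x, y, _ | _⟩ := e <;> simp only [dco, if_true, Bool.false_eq_true, if_false] <;> ring

theorem fm_shift {n c : ℕ} (e : Edg) (k : ℤ) :
    fm n c (e.1 + n * k, e.2.1 + n * k, e.2.2) = fm n c e := by
  rw [fm_eq, fm_eq, dco_shift]
  congr 1
  have : e.1 + n * k + (e.2.1 + n * k) + (c : ℤ) = (e.1 + e.2.1 + c) + (2 * n) * k := by ring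
  show (e.1 + n * k + (e.2.1 + n * k) + (c : ℤ)) % (2 * n) = _
  rw [this, Int.add_mul_emod_self_left]

theorem Cc_shift {c n M : ℕ} (hc : c < 2) (F : Finset Edg) (k : ℤ) (e : Edg) :
    (e.1 + n * k, e.2.1 + n * k, e.2.2) ∈ Cc c n M F ↔ e ∈ Cc c n M F := by
  interval_cases c
  · rw [mem_Cc0, mem_Cc0, fm_shift]
  · rw [mem_Cc1, mem_Cc1, fm_shift, dco_shift]

theorem Cc_trl {c n M : ℕ} (hc : c < 2) (F : Finset Edg) (k : ℤ) :
    (trl (n * k) (n * k)).φ '' Cc c n M F = Cc c n M F := by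
  ext e
  constructor
  · rintro ⟨⟨x, y, b⟩, he, rfl⟩
    rw [trl_φ]
    exact (Cc_shift hc F k (x, y, b)).2 he
  · intro he
    refine ⟨(e.1 + n * (-k), e.2.1 + n * (-k), e.2.2), (Cc_shift hc F (-k) e).2 he, ?_⟩
    rw [trl_φ]
    obtain ⟨x, y, b⟩ := e
    simp only [Prod.mk.injEq, and_true]
    constructor <;> ring

theorem Crs_shift {c n M : ℕ} (hc : c < 2) {F : Finset Edg} (k : ℤ) {a b : ℤ} {ρ R : ℕ}
    (h : Crs a b ρ R (Cc c n M F)) :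
    Crs (a + n * k) (b + n * k) ρ R (Cc c n M F) := by
  obtain ⟨⟨x1, x2⟩, ⟨y1, y2⟩, h1, h2, h3⟩ := h
  have h4 := (trl (n * k) (n * k)).reach h3
  rw [Cc_trl hc, trl_ψ, trl_ψ] at h4
  refine ⟨_, _, ?_, ?_, h4⟩
  · unfold inR at h1 ⊢
    simp only at h1 ⊢
    omega
  · simp only at h2 ⊢
    omega

theorem sgU {x0 y0 : ℤ} {r : ℕ} {v : Vtx} : v ∈ segD Dir.up x0 y0 r ↔
    v.2 = y0 ∧ x0 - r ≤ v.1 ∧ v.1 ≤ x0 + r := Iff.rfl
theorem sgD {x0 y0 : ℤ} {r : ℕ} {v : Vtx} : v ∈ segD Dir.dn x0 y0 r ↔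
    v.2 = y0 ∧ x0 - r ≤ v.1 ∧ v.1 ≤ x0 + r := Iff.rfl
theorem sgR {x0 y0 : ℤ} {r : ℕ} {v : Vtx} : v ∈ segD Dir.rt x0 y0 r ↔
    v.1 = x0 ∧ y0 - r ≤ v.2 ∧ v.2 ≤ y0 + r := Iff.rfl
theorem sgL {x0 y0 : ℤ} {r : ℕ} {v : Vtx} : v ∈ segD Dir.lf x0 y0 r ↔
    v.1 = x0 ∧ y0 - r ≤ v.2 ∧ v.2 ≤ y0 + r := Iff.rfl
theorem rmU {x0 y0 : ℤ} {ρ : ℕ} {v : Vtx} : v ∈ rimE Dir.up x0 y0 ρ ↔
    ((x0 - ρ ≤ v.1 ∧ v.1 ≤ x0 + ρ) ∧ (y0 ≤ v.2 ∧ v.2 ≤ y0 + ρ)) ∧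
      (v.1 = x0 - ρ ∨ v.1 = x0 + ρ ∨ v.2 = y0 + ρ) := Iff.rfl
theorem rmD {x0 y0 : ℤ} {ρ : ℕ} {v : Vtx} : v ∈ rimE Dir.dn x0 y0 ρ ↔
    ((x0 - ρ ≤ v.1 ∧ v.1 ≤ x0 + ρ) ∧ (y0 - ρ ≤ v.2 ∧ v.2 ≤ y0)) ∧
      (v.1 = x0 - ρ ∨ v.1 = x0 + ρ ∨ v.2 = y0 - ρ) := Iff.rfl
theorem rmR {x0 y0 : ℤ} {ρ : ℕ} {v : Vtx} : v ∈ rimE Dir.rt x0 y0 ρ ↔
    ((x0 ≤ v.1 ∧ v.1 ≤ x0 + ρ) ∧ (y0 - ρ ≤ v.2 ∧ v.2 ≤ y0 + ρ)) ∧
      (v.1 = x0 + ρ ∨ v.2 = y0 - ρ ∨ v.2 = y0 + ρ) := Iff.rfl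
theorem rmL {x0 y0 : ℤ} {ρ : ℕ} {v : Vtx} : v ∈ rimE Dir.lf x0 y0 ρ ↔
    ((x0 - ρ ≤ v.1 ∧ v.1 ≤ x0) ∧ (y0 - ρ ≤ v.2 ∧ v.2 ≤ y0 + ρ)) ∧
      (v.1 = x0 - ρ ∨ v.2 = y0 - ρ ∨ v.2 = y0 + ρ) := Iff.rfl

theorem H4_shift {c n M : ℕ} (hc : c < 2) {F : Finset Edg} (k : ℤ) {d : Dir} {x0 y0 : ℤ}
    {r ρ : ℕ} (h : H4 d x0 y0 r ρ (Cc c n M F)) :
    H4 d (x0 + n * k) (y0 + n * k) r ρ (Cc c n M F) := by
  have h1 := EP_H3g (trl (n * k) (n * k)) (I' := segD d (x0 + n * k) (y0 + n * k) r)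
    (B' := rimE d (x0 + n * k) (y0 + n * k) ρ) ?_ ?_ h
  · have hE : (trl (n * k) (n * k)).mp (hbE d x0 y0 ρ) = hbE d (x0 + n * k) (y0 + n * k) ρ := by
      cases d
      · change (trl (n * k) (n * k)).mp (RE _ _ _ _) = RE _ _ _ _
        rw [trl_RE]; congr 1 <;> ring
      · change (trl (n * k) (n * k)).mp (RE _ _ _ _) = RE _ _ _ _
        rw [trl_RE]; congr 1 <;> ring
      · change (trl (n * k) (n * k)).mp (RE _ _ _ _) = RE _ _ _ _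
        rw [trl_RE]; congr 1 <;> ring
      · change (trl (n * k) (n * k)).mp (RE _ _ _ _) = RE _ _ _ _
        rw [trl_RE]; congr 1 <;> ring
    rw [hE, Cc_trl hc] at h1
    exact h1
  · rintro ⟨x, y⟩ hv
    rw [trl_ψ]
    cases d <;> simp only [sgU, sgD, sgR, sgL] at hv ⊢ <;> omega
  · rintro ⟨x, y⟩ hv
    rw [trl_ψ]
    cases d <;> simp only [rmU, rmD, rmR, rmL] at hv ⊢ <;> omega

end TBADP

end Pool.Agent.H160R2.MU
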