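import Pool.Agent.H160R2.MU.T_BADP1

/-!
Project MU, task BADP (helper8), part 2: shrinking of half balls, local versions.
-/

set_option autoImplicit false

namespace Pool.Agent.H160R2.MU
open H974 H906.Cyl Finset
open H12S (Dir hbE segD rimE H4 Crs Nr H3g ends_RE)

namespace TBADP

theorem reach_end {G : Set Edg} {u v : Vtx} (h : Reach G u v) :
    v = u ∨ ∃ e ∈ G, src e = v ∨ tgt e = v := by
  cases h with
  | refl => exact Or.inl rfl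
  | tail _ hs =>
    obtain ⟨e, he, h⟩ := hs
    refine Or.inr ⟨e, he, ?_⟩
    rcases h with h | h
    · exact Or.inr h.2
    · exact Or.inl h.1

theorem exit_gen {G : Set Edg} {a b c d a1 b1 c1 d1 : ℤ} {u v : Vtx} (hu : inR a1 b1 c1 d1 u)
    (hub : inR a b c d u) (h : Reach (G ∩ ↑(RE a b c d)) u v)
    (hv : v.1 ≤ a1 ∨ b1 ≤ v.1 ∨ v.2 ≤ c1 ∨ d1 ≤ v.2) :
    ∃ w, inR a1 b1 c1 d1 w ∧ inR a b c d w ∧ (w.1 = a1 ∨ w.1 = b1 ∨ w.2 = c1 ∨ w.2 = d1) ∧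
      Reach ((G ∩ ↑(RE a b c d)) ∩ ↑(RE a1 b1 c1 d1)) u w := by
  obtain ⟨w, h1, h2, h3⟩ := first_exit hu h hv
  refine ⟨w, h1, ?_, h2, h3⟩
  rcases reach_end h3 with h4 | ⟨e, he, h5⟩
  · rw [h4]; exact hub
  · obtain ⟨h6, h7⟩ := ends_RE (Finset.mem_coe.1 he.1.2)
    rcases h5 with h5 | h5
    · rw [← h5]; exact h6
    · rw [← h5]; exact h7

/-- the centres are close along the straight side -/
def Clo (d : Dir) (l : ℕ) (x0 y0 x1 y1 : ℤ) : Prop :=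
  match d with
  | Dir.up => |x0 - x1| ≤ l ∧ y1 = y0
  | Dir.dn => |x0 - x1| ≤ l ∧ y1 = y0
  | Dir.rt => |y0 - y1| ≤ l ∧ x1 = x0
  | Dir.lf => |y0 - y1| ≤ l ∧ x1 = x0

theorem hbE_sub {d : Dir} {x0 y0 x1 y1 : ℤ} {ρ l : ℕ} (hl : l ≤ ρ) (hc : Clo d l x0 y0 x1 y1) :
    hbE d x1 y1 (ρ - l) ⊆ hbE d x0 y0 ρ := by
  intro e he
  obtain ⟨x, y, b⟩ := e
  cases d <;> cases b <;> simp only [Clo, hbE, mem_RE_false, mem_RE_true, abs_le] at * <;> omega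

theorem arm_shrink {d : Dir} {x0 y0 x1 y1 : ℤ} {R ρ l : ℕ} {G : Set Edg} (hl : l ≤ ρ)
    (hR : R + l ≤ ρ - l) (hc : Clo d l x0 y0 x1 y1) {v b : Vtx} (hv : v ∈ segD d x0 y0 R)
    (hb : b ∈ rimE d x0 y0 ρ) (h : Reach (G ∩ ↑(hbE d x0 y0 ρ)) v b) :
    v ∈ segD d x1 y1 (R + l) ∧ ∃ w ∈ rimE d x1 y1 (ρ - l),
      Reach (G ∩ ↑(hbE d x1 y1 (ρ - l))) v w := by
  obtain ⟨v1, v2⟩ := v
  obtain ⟨b1, b2⟩ := b
  refine ⟨?_, ?_⟩
  · cases d <;> simp only [Clo, sgU, sgD, sgR, sgL, abs_le] at hc hv ⊢ <;> omega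
  · cases d
    · simp only [Clo, sgU, sgD, sgR, sgL, rmU, rmD, rmR, rmL, abs_le] at hc hv hb
      obtain ⟨⟨w1, w2⟩, hw1, hw2, hw3, hw4⟩ := exit_gen (a1 := x1 - (ρ - l : ℕ))
        (b1 := x1 + (ρ - l : ℕ)) (c1 := y1 - 1) (d1 := y1 + (ρ - l : ℕ))
        (by unfold inR; simp only; omega) (by unfold inR; simp only; omega) h (by simp only; omega)
      unfold inR at hw1 hw2
      simp only at hw1 hw2 hw3
      refine ⟨(w1, w2), ?_, hw4.mono ?_⟩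
      · simp only [rmU, rmD, rmR, rmL]
        omega
      · rintro ⟨x, y, bo⟩ ⟨⟨hg, h1⟩, h2⟩
        refine ⟨hg, ?_⟩
        rw [Finset.mem_coe] at h1 h2 ⊢
        cases bo <;> simp only [hbE, mem_RE_false, mem_RE_true] at h1 h2 ⊢ <;> omega
    · simp only [Clo, sgU, sgD, sgR, sgL, rmU, rmD, rmR, rmL, abs_le] at hc hv hb
      obtain ⟨⟨w1, w2⟩, hw1, hw2, hw3, hw4⟩ := exit_gen (a1 := x1 - (ρ - l : ℕ))
        (b1 := x1 + (ρ - l : ℕ)) (c1 := y1 - (ρ - l : ℕ)) (d1 := y1 + 1)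
        (by unfold inR; simp only; omega) (by unfold inR; simp only; omega) h (by simp only; omega)
      unfold inR at hw1 hw2
      simp only at hw1 hw2 hw3
      refine ⟨(w1, w2), ?_, hw4.mono ?_⟩
      · simp only [rmU, rmD, rmR, rmL]
        omega
      · rintro ⟨x, y, bo⟩ ⟨⟨hg, h1⟩, h2⟩
        refine ⟨hg, ?_⟩
        rw [Finset.mem_coe] at h1 h2 ⊢
        cases bo <;> simp only [hbE, mem_RE_false, mem_RE_true] at h1 h2 ⊢ <;> omega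
    · simp only [Clo, sgU, sgD, sgR, sgL, rmU, rmD, rmR, rmL, abs_le] at hc hv hb
      obtain ⟨⟨w1, w2⟩, hw1, hw2, hw3, hw4⟩ := exit_gen (a1 := x1 - 1)
        (b1 := x1 + (ρ - l : ℕ)) (c1 := y1 - (ρ - l : ℕ)) (d1 := y1 + (ρ - l : ℕ))
        (by unfold inR; simp only; omega) (by unfold inR; simp only; omega) h (by simp only; omega)
      unfold inR at hw1 hw2
      simp only at hw1 hw2 hw3
      refine ⟨(w1, w2), ?_, hw4.mono ?_⟩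
      · simp only [rmU, rmD, rmR, rmL]
        omega
      · rintro ⟨x, y, bo⟩ ⟨⟨hg, h1⟩, h2⟩
        refine ⟨hg, ?_⟩
        rw [Finset.mem_coe] at h1 h2 ⊢
        cases bo <;> simp only [hbE, mem_RE_false, mem_RE_true] at h1 h2 ⊢ <;> omega
    · simp only [Clo, sgU, sgD, sgR, sgL, rmU, rmD, rmR, rmL, abs_le] at hc hv hb
      obtain ⟨⟨w1, w2⟩, hw1, hw2, hw3, hw4⟩ := exit_gen (a1 := x1 - (ρ - l : ℕ))
        (b1 := x1 + 1) (c1 := y1 - (ρ - l : ℕ)) (d1 := y1 + (ρ - l : ℕ))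
        (by unfold inR; simp only; omega) (by unfold inR; simp only; omega) h (by simp only; omega)
      unfold inR at hw1 hw2
      simp only at hw1 hw2 hw3
      refine ⟨(w1, w2), ?_, hw4.mono ?_⟩
      · simp only [rmU, rmD, rmR, rmL]
        omega
      · rintro ⟨x, y, bo⟩ ⟨⟨hg, h1⟩, h2⟩
        refine ⟨hg, ?_⟩
        rw [Finset.mem_coe] at h1 h2 ⊢
        cases bo <;> simp only [hbE, mem_RE_false, mem_RE_true] at h1 h2 ⊢ <;> omega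

theorem H4_shrink {d : Dir} {x0 y0 x1 y1 : ℤ} {R ρ l : ℕ} {G : Set Edg} (hl : l ≤ ρ)
    (hR : R + l ≤ ρ - l) (hc : Clo d l x0 y0 x1 y1) (h : H4 d x0 y0 R ρ G) :
    H4 d x1 y1 (R + l) (ρ - l) G := by
  obtain ⟨v, hv, v', hv', ⟨b, hb, h1⟩, ⟨b', hb', h2⟩, h3⟩ := h
  obtain ⟨k1, k2⟩ := arm_shrink hl hR hc hv hb h1
  obtain ⟨k3, k4⟩ := arm_shrink hl hR hc hv' hb' h2
  refine ⟨v, k1, v', k3, k2, k4, fun h4 => h3 (h4.mono ?_)⟩
  exact Set.inter_subset_inter_right _ (by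
    intro e he
    exact hbE_sub hl hc he)

theorem H4_loc {d : Dir} {x0 y0 : ℤ} {r ρ : ℕ} {G : Set Edg} :
    H4 d x0 y0 r ρ G ↔ H4 d x0 y0 r ρ (G ∩ ↑(hbE d x0 y0 ρ)) := by
  unfold H4 H3g
  rw [Set.inter_assoc, Set.inter_self]

theorem Crs_loc {a b : ℤ} {ρ R : ℕ} (hρ : ρ ≤ R) {G : Set Edg} (h : Crs a b ρ R G) :
    Crs a b ρ R (G ∩ ↑(RE (a - R) (a + R) (b - R) (b + R))) := by
  obtain ⟨x, y, h1, h2, h3⟩ := h
  obtain ⟨w, k1, k2, k3⟩ := first_exit (a := a - R) (b := a + R) (c := b - R) (d := b + R)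
    (by unfold inR at h1 ⊢; omega) h3 (by omega)
  exact ⟨x, w, h1, by omega, k3⟩

theorem RE_dco {a b : ℤ} {R : ℕ} {M : ℕ} (h : |a - b| + 2 * R + 2 ≤ M) :
    ∀ e ∈ RE (a - R) (a + R) (b - R) (b + R), -(M : ℤ) ≤ dco e ∧ dco e < M := by
  rintro ⟨x, y, bo⟩ he
  have h1 := le_abs_self (a - b)
  have h2 := neg_abs_le (a - b)
  cases bo <;> simp only [mem_RE_false, mem_RE_true, dco, if_true, Bool.false_eq_true,
    if_false] at he ⊢ <;> omega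

theorem hbE_RE (d : Dir) (x0 y0 : ℤ) (ρ : ℕ) :
    hbE d x0 y0 ρ ⊆ RE (x0 - ρ) (x0 + ρ) (y0 - ρ) (y0 + ρ) := by
  rintro ⟨x, y, bo⟩ he
  cases d <;> cases bo <;> simp only [hbE, mem_RE_false, mem_RE_true] at he ⊢ <;> omega

end TBADP

end Pool.Agent.H160R2.MU
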