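import Pool.Agent.H160R2.MU.Defs

/-!
# MU, task LNK: links of the bulk and diagonals
-/

set_option autoImplicit false

namespace Pool.Agent.H160R2.MU
open Pool.Agent.H863R2.Cyl
open Pool.Agent.H988R2.Perc (Word PD)
open Pool.Agent.H160R2.ML
open H974 H906.Cyl
open H12S (Dir hbE segD rimE H4 Crs Nr sqE)

namespace TLNK

theorem sg_odd (w : Word) (j : ℤ) : sg w j % 2 = 1 := by
  unfold Pool.Agent.H863R2.Cyl.sg
  split_ifs <;> rfl

theorem Sh_parity (w : Word) (j k : ℤ) (h : j ≤ k) : Sh w j k % 2 = (k - j) % 2 := by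
  obtain ⟨m, rfl⟩ : ∃ m : ℕ, k = j + m := ⟨(k - j).toNat, by omega⟩
  clear h
  induction m with
  | zero => simp [Sh]
  | succ m ih =>
    have h1 : Sh w j (j + ((m + 1 : ℕ) : ℤ)) = Sh w j (j + m) + Pool.Agent.H863R2.Cyl.sg w (j + m) := by
      unfold Sh
      have h2 : Finset.Ico j (j + ((m + 1 : ℕ) : ℤ)) = insert (j + m) (Finset.Ico j (j + m)) := by
        ext x
        simp only [Finset.mem_Ico, Finset.mem_insert]
        omega
      rw [h2, Finset.sum_insert (by simp)]
      ring
    have h3 := sg_odd w (j + m)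
    rw [h1]
    push_cast
    omega

theorem Rw_parity {w : Word} {a b : ℤ} (h : Rw w a b) : (a - b) % 2 = 0 := by
  rcases h with h | h
  · have h1 := Sh_parity w a b h.1
    rw [h.2.2] at h1
    omega
  · have h1 := Sh_parity w b a h.1
    rw [h.2.2] at h1
    omega

theorem edz_s (s d : ℤ) : (edz s d).1 + (edz s d).2.1 = s := by
  unfold edz
  split_ifs with h <;> simp only <;> omega

theorem edz_d (s d : ℤ) : dco (edz s d) = d := by
  unfold edz dco
  split_ifs with h h1 h1 <;> simp at h1 ⊢ <;> omega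

theorem edz_eq (e : Edg) : edz (e.1 + e.2.1) (dco e) = e := by
  obtain ⟨x, y, b⟩ := e
  cases b
  · unfold edz dco
    simp only [Bool.false_eq_true, if_false]
    rw [if_neg (by omega)]
    simp only [Prod.mk.injEq, and_true]
    omega
  · unfold edz dco
    simp only [if_true]
    rw [if_pos (by omega)]
    simp only [Prod.mk.injEq, and_true]
    omega

/-- the square of the cylinder of a lifted square -/
theorem mk_e {n M : ℕ} (hn : 0 < n) (j d : ℤ) (h1 : -(M : ℤ) ≤ d) (h2 : d < M) :
    red n (edz j d) ∈ CE n M ∧ dco (red n (edz j d)) = d ∧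
    (red n (edz j d)).1 + (red n (edz j d)).2.1 + (j / (2 * n)) * (2 * n : ℕ) = j ∧
    ((red n (edz j d)).1 + (red n (edz j d)).2.1 + d) % 2 = (j + d) % 2 := by
  have hd : dco (edz j d) = d := edz_d j d
  have h3 : (red n (edz j d)).1 + (red n (edz j d)).2.1 = j - 2 * n * (j / (2 * n)) := by
    rw [red_edz, edz_s]
  refine ⟨red_mem hn (by rw [hd]; exact h1) (by rw [hd]; exact h2), by rw [dco_red, hd], ?_, ?_⟩
  · rw [h3]
    push_cast
    ring
  · rw [h3]
    have : j - 2 * n * (j / (2 * n)) + d = (j + d) + 2 * (-(n * (j / (2 * n)))) := by ring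
    rw [this, Int.add_mul_emod_self_left]

/-- the lifted square of a square of the cylinder -/
theorem per_lift {n M : ℕ} (hn : 0 < n) {F : Finset Edg} {e : Edg} (he : e ∈ CE n M) (q : ℤ) :
    edz (e.1 + e.2.1 + q * (2 * n : ℕ)) (dco e) ∈ per n F ↔ e ∈ F := by
  show red n _ ∈ F ↔ _
  obtain ⟨⟨h1, h2⟩, -⟩ := mem_CE.1 he
  have h3 : (e.1 + e.2.1 + q * (2 * n : ℕ)) / (2 * n) = q := by
    push_cast
    rw [show e.1 + e.2.1 + q * (2 * n) = e.1 + e.2.1 + (2 * n) * q by ring,
      Int.add_mul_ediv_left _ _ (show (2 * n : ℤ) ≠ 0 by omega), Int.ediv_eq_zero_of_lt h1 h2,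
      zero_add]
  rw [red_edz, h3]
  have h4 : e.1 + e.2.1 + q * (2 * n : ℕ) - 2 * n * q = e.1 + e.2.1 := by
    push_cast
    ring
  rw [h4, edz_eq]

/-- the states of the upper rows -/
theorem cl_up {n M : ℕ} (F : Finset Edg) (t : ℕ) (j : ℤ) :
    cl (up n M F t) j = !(cl (pst n M F (2 * M - 1 - t)) j) := rfl

/-- links of the bulk are parity preserving and are diagonals -/
theorem fwd {c n M k : ℕ} (hc : c < 2) (hn : 0 < n) {F : Finset Edg} {τ σ : Word} {x y : Pt}
    (h : Bg n M k F τ σ x y) :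
    (x.1.1 + x.1.2 - M) % 2 = (y.1.1 + y.1.2 - M) % 2 ∧
      ((x.1.1 + x.1.2 - M) % 2 = c → RB c n M k (Ac c n M F) τ σ x y) := by
  cases h with
  | low x y h =>
    cases h with
    | bot a b h =>
      have hp := Rw_parity h
      refine ⟨?_, fun _ => Relation.EqvGen.rel _ _ (Or.inl (Wl.low a b h))⟩
      show (a + ((0 : ℕ) : ℤ) - M) % 2 = (b + ((0 : ℕ) : ℤ) - M) % 2
      omega
    | link0 j t ht h =>
      refine ⟨?_, ?_⟩
      · show (j + (t : ℤ) - M) % 2 = (j + 1 + ((t + 1 : ℕ) : ℤ) - M) % 2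
        push_cast
        omega
      · intro hcl
        have hcl' : (j + (t : ℤ) - M) % 2 = c := hcl
        have hs := (cl_false_iff hn M F t j).1 h
        obtain ⟨e1, e2, e3, e4⟩ := mk_e (M := M) hn j ((t : ℤ) - M) (by omega) (by omega)
        refine Relation.EqvGen.rel _ _ (Or.inr (Or.inr ⟨red n (edz j ((t : ℤ) - M)), ⟨e1, ?_⟩, ?_⟩))
        · have hiff : red n (edz j ((t : ℤ) - M)) ∈ F ↔ edz j ((t : ℤ) - M) ∈ per n F := Iff.rfl
          rw [hiff]
          by_cases hp : (j + ((t : ℤ) - M)) % 2 = 0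
          · rw [if_pos hp] at hs
            exact ⟨fun _ => by omega, fun _ => hs⟩
          · rw [if_neg hp] at hs
            exact ⟨fun h => absurd h hs, fun h => by omega⟩
        · have hd := Dg.lrise (n := n) (M := M) (c := c) (e := red n (edz j ((t : ℤ) - M)))
            (j / (2 * n)) t (by rw [e2]; ring) (by rw [e2]; omega) (by rw [e2, e4]; omega)
          rw [e3] at hd
          exact hd
    | link1 j t ht h =>
      refine ⟨?_, ?_⟩
      · show (j + 1 + (t : ℤ) - M) % 2 = (j + ((t + 1 : ℕ) : ℤ) - M) % 2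
        push_cast
        omega
      · intro hcl
        have hcl' : (j + 1 + (t : ℤ) - M) % 2 = c := hcl
        have hs := (cl_pst hn M F t j).1 h
        obtain ⟨e1, e2, e3, e4⟩ := mk_e (M := M) hn j ((t : ℤ) - M) (by omega) (by omega)
        refine Relation.EqvGen.rel _ _ (Or.inr (Or.inr ⟨red n (edz j ((t : ℤ) - M)), ⟨e1, ?_⟩, ?_⟩))
        · have hiff : red n (edz j ((t : ℤ) - M)) ∈ F ↔ edz j ((t : ℤ) - M) ∈ per n F := Iff.rfl
          rw [hiff]
          by_cases hp : (j + ((t : ℤ) - M)) % 2 = 0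
          · rw [if_pos hp] at hs
            exact ⟨fun h => absurd h hs, fun h => by omega⟩
          · rw [if_neg hp] at hs
            exact ⟨fun _ => by omega, fun _ => hs⟩
        · have hd := Dg.lfall (n := n) (M := M) (c := c) (e := red n (edz j ((t : ℤ) - M)))
            (j / (2 * n)) t (by rw [e2]; ring) (by rw [e2]; omega) (by rw [e2, e4]; omega)
          rw [e3] at hd
          exact hd
  | upp x y h =>
    cases h with
    | bot a b h =>
      have hp := Rw_parity h
      refine ⟨?_, fun _ => Relation.EqvGen.rel _ _ (Or.inl (Wl.upp a b h))⟩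
      show (a + ((0 : ℕ) : ℤ) - M) % 2 = (b + ((0 : ℕ) : ℤ) - M) % 2
      omega
    | link0 j t ht h =>
      refine ⟨?_, ?_⟩
      · show (j + (t : ℤ) - M) % 2 = (j + 1 + ((t + 1 : ℕ) : ℤ) - M) % 2
        push_cast
        omega
      · intro hcl
        have hcl' : (j + (t : ℤ) - M) % 2 = c := hcl
        rw [cl_up, Bool.not_eq_false'] at h
        have hs := (cl_pst hn M F (2 * M - 1 - t) j).1 h
        have hcast : (((2 * M - 1 - t : ℕ) : ℤ) - M) = M - 1 - t := by omega
        rw [hcast] at hs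
        obtain ⟨e1, e2, e3, e4⟩ := mk_e (M := M) hn j ((M : ℤ) - 1 - t) (by omega) (by omega)
        refine Relation.EqvGen.symm _ _ (Relation.EqvGen.rel _ _
          (Or.inr (Or.inr ⟨red n (edz j ((M : ℤ) - 1 - t)), ⟨e1, ?_⟩, ?_⟩)))
        · have hiff : red n (edz j ((M : ℤ) - 1 - t)) ∈ F ↔ edz j ((M : ℤ) - 1 - t) ∈ per n F := Iff.rfl
          rw [hiff]
          by_cases hp : (j + ((M : ℤ) - 1 - t)) % 2 = 0
          · rw [if_pos hp] at hs
            exact ⟨fun h => absurd h hs, fun h => by omega⟩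
          · rw [if_neg hp] at hs
            exact ⟨fun _ => by omega, fun _ => hs⟩
        · have hd := Dg.ufall (n := n) (M := M) (c := c) (e := red n (edz j ((M : ℤ) - 1 - t)))
            (j / (2 * n)) t (by rw [e2]; ring) (by rw [e2]; omega) (by rw [e2, e4]; omega)
          rw [e3] at hd
          exact hd
    | link1 j t ht h =>
      refine ⟨?_, ?_⟩
      · show (j + 1 + (t : ℤ) - M) % 2 = (j + ((t + 1 : ℕ) : ℤ) - M) % 2
        push_cast
        omega
      · intro hcl
        have hcl' : (j + 1 + (t : ℤ) - M) % 2 = c := hcl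
        rw [cl_up, Bool.not_eq_true'] at h
        have hs := (cl_false_iff hn M F (2 * M - 1 - t) j).1 h
        have hcast : (((2 * M - 1 - t : ℕ) : ℤ) - M) = M - 1 - t := by omega
        rw [hcast] at hs
        obtain ⟨e1, e2, e3, e4⟩ := mk_e (M := M) hn j ((M : ℤ) - 1 - t) (by omega) (by omega)
        refine Relation.EqvGen.symm _ _ (Relation.EqvGen.rel _ _
          (Or.inr (Or.inr ⟨red n (edz j ((M : ℤ) - 1 - t)), ⟨e1, ?_⟩, ?_⟩)))
        · have hiff : red n (edz j ((M : ℤ) - 1 - t)) ∈ F ↔ edz j ((M : ℤ) - 1 - t) ∈ per n F := Iff.rfl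
          rw [hiff]
          by_cases hp : (j + ((M : ℤ) - 1 - t)) % 2 = 0
          · rw [if_pos hp] at hs
            exact ⟨fun _ => by omega, fun _ => hs⟩
          · rw [if_neg hp] at hs
            exact ⟨fun h => absurd h hs, fun h => by omega⟩
        · have hd := Dg.urise (n := n) (M := M) (c := c) (e := red n (edz j ((M : ℤ) - 1 - t)))
            (j / (2 * n)) t (by rw [e2]; ring) (by rw [e2]; omega) (by rw [e2, e4]; omega)
          rw [e3] at hd
          exact hd
  | glue s i h =>
    exact ⟨rfl, fun _ => Relation.EqvGen.rel _ _ (Or.inr (Or.inl (Gl.glue s i h)))⟩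

/-- diagonals are links of the bulk -/
theorem bwd {c n M k : ℕ} (hc : c < 2) (hn : 0 < n) {F : Finset Edg} {τ σ : Word} {x y : Pt}
    (h : Wl τ σ x y ∨ Gl n M k x y ∨ ∃ e ∈ Ac c n M F, Dg n M c e x y) :
    Relation.EqvGen (Bg n M k F τ σ) x y := by
  rcases h with h | h | ⟨e, ⟨he, heF⟩, h⟩
  · cases h with
    | low a b h => exact Relation.EqvGen.rel _ _ (Bg.low _ _ (Lk.bot a b h))
    | upp a b h => exact Relation.EqvGen.rel _ _ (Bg.upp _ _ (Lk.bot a b h))
  · cases h with
    | glue s i h => exact Relation.EqvGen.rel _ _ (Bg.glue s i h)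
  · obtain ⟨-, hlo, hhi⟩ := mem_CE.1 he
    have hpar : ∀ q : ℤ, (e.1 + e.2.1 + q * (2 * n : ℕ) + dco e) % 2 = (e.1 + e.2.1 + dco e) % 2 := by
      intro q
      have : e.1 + e.2.1 + q * (2 * n : ℕ) + dco e = (e.1 + e.2.1 + dco e) + 2 * (q * n) := by
        push_cast
        ring
      rw [this, Int.add_mul_emod_self_left]
    cases h with
    | lrise q t h1 h2 h3 =>
      refine Relation.EqvGen.rel _ _ (Bg.low _ _ (Lk.link0 _ t (by omega) ?_))
      refine (cl_false_iff hn M F t _).2 ?_
      have hcast : ((t : ℤ) - M) = dco e := by omega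
      rw [hcast, per_lift hn he q, hpar q]
      split_ifs with hp
      · exact heF.2 (by omega)
      · exact fun h => by
          have := heF.1 h
          omega
    | lfall q t h1 h2 h3 =>
      refine Relation.EqvGen.rel _ _ (Bg.low _ _ (Lk.link1 _ t (by omega) ?_))
      refine (cl_pst hn M F t _).2 ?_
      have hcast : ((t : ℤ) - M) = dco e := by omega
      rw [hcast, per_lift hn he q, hpar q]
      split_ifs with hp
      · exact fun h => by
          have := heF.1 h
          omega
      · exact heF.2 (by omega)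
    | urise q t h1 h2 h3 =>
      refine Relation.EqvGen.symm _ _ (Relation.EqvGen.rel _ _ (Bg.upp _ _ (Lk.link1 _ t (by omega) ?_)))
      rw [cl_up, Bool.not_eq_true']
      refine (cl_false_iff hn M F _ _).2 ?_
      have hcast : (((2 * M - 1 - t : ℕ) : ℤ) - M) = dco e := by omega
      rw [hcast, per_lift hn he q, hpar q]
      split_ifs with hp
      · exact heF.2 (by omega)
      · exact fun h => by
          have := heF.1 h
          omega
    | ufall q t h1 h2 h3 =>
      refine Relation.EqvGen.symm _ _ (Relation.EqvGen.rel _ _ (Bg.upp _ _ (Lk.link0 _ t (by omega) ?_)))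
      rw [cl_up, Bool.not_eq_false']
      refine (cl_pst hn M F _ _).2 ?_
      have hcast : (((2 * M - 1 - t : ℕ) : ℤ) - M) = dco e := by omega
      rw [hcast, per_lift hn he q, hpar q]
      split_ifs with hp
      · exact fun h => by
          have := heF.1 h
          omega
      · exact heF.2 (by omega)

end TLNK

theorem t_LNK : S_LNK := by
  intro c n M k hc hn hk F hF τ σ x y hx hy
  constructor
  · intro h
    have key : (x.1.1 + x.1.2 - M) % 2 = (y.1.1 + y.1.2 - M) % 2 ∧
        ((x.1.1 + x.1.2 - M) % 2 = c → RB c n M k (Ac c n M F) τ.1 σ.1 x y) := by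
      clear hx hy
      induction h with
      | rel x y h => exact TLNK.fwd hc hn h
      | refl x => exact ⟨rfl, fun _ => Relation.EqvGen.refl _⟩
      | symm x y _ ih => exact ⟨ih.1.symm, fun h => Relation.EqvGen.symm _ _ (ih.2 (ih.1.trans h))⟩
      | trans x y z _ _ ih1 ih2 =>
        exact ⟨ih1.1.trans ih2.1, fun h =>
          Relation.EqvGen.trans _ _ _ (ih1.2 h) (ih2.2 (ih1.1.symm.trans h))⟩
    exact key.2 hx.1
  · intro h
    clear hx hy
    unfold RB at h
    induction h with
    | rel x y h => exact TLNK.bwd hc hn h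
    | refl x => exact Relation.EqvGen.refl _
    | symm x y _ ih => exact Relation.EqvGen.symm _ _ ih
    | trans x y z _ _ ih1 ih2 => exact Relation.EqvGen.trans _ _ _ ih1 ih2

end Pool.Agent.H160R2.MU
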