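import Pool.Agent.H160R2.MU.Defs
import Pool.Agent.H160R2.ML.T_symm

/-!
# Task Ws: symmetry below/above for the sectors of one parity
-/

set_option autoImplicit false

namespace Pool.Agent.H160R2.MU
open Pool.Agent.H863R2.Cyl
open Pool.Agent.H988R2.Perc (Word PD)
open Pool.Agent.H160R2.ML
open Pool.Agent.H160R2.ML.Tsymm
open H974 H906.Cyl

namespace TWs

/-- the exchange of the sides keeps the parity of the sectors -/
theorem sc_par {l i : ℕ} (hl : Even l) (hi : i < l) : sc l i % 2 = i % 2 := by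
  obtain ⟨m, hm⟩ := hl
  unfold sc
  split_ifs <;> omega

/-- connections are transported -/
theorem key {p r : ℕ} {w' w : Word} (h : w'.length + p = w.length + r) (hp : p ≤ w.length)
    (s t : ℤ) (c d : ℕ) (hc : c < p + r) (hd : d < p + r) :
    (Cn r p w w' (pt r p w w' s c) (pt r p w w' t d) ↔
      Cn p r w' w (pt p r w' w s (sc (p + r) c)) (pt p r w' w t (sc (p + r) d))) := by
  have a1 := pt_sc h hp s (sc_lt hc)
  have a2 := pt_sc h hp t (sc_lt hd)
  rw [sc_sc hc] at a1
  rw [sc_sc hd] at a2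
  constructor
  · intro hcn
    have a3 := cn_fl h.symm hcn
    exact (a1.trans _ _ _ a3).trans _ _ _ (a2.symm _ _)
  · intro hcn
    have a3 : Cn p r w' w (fl (pt r p w w' s c)) (fl (pt r p w w' t d)) :=
      ((a1.symm _ _).trans _ _ _ hcn).trans _ _ _ a2
    have a4 := cn_fl h a3
    rwa [fl_fl, fl_fl] at a4

end TWs

open TWs in
theorem t_Ws : S_Ws := by
  intro c p r w' w _ hev _ h hp hg
  obtain ⟨h1, h2⟩ := hg
  have hrp : r + p = p + r := Nat.add_comm _ _
  constructor
  · intro i j hi hj hic hjc hij hcn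
    rw [hrp] at hi hj
    refine h1 (sc (p + r) i) (sc (p + r) j) (sc_lt hi) (sc_lt hj) ?_ ?_ ?_
      ((key h hp 0 0 i j hi hj).1 hcn)
    · rw [sc_par hev hi]
      exact hic
    · rw [sc_par hev hj]
      exact hjc
    · intro he
      apply hij
      rw [← sc_sc hi, ← sc_sc hj, he]
  · intro i hi hic
    rw [hrp] at hi
    obtain ⟨s, hs, d, hd, hcn⟩ := h2 (sc (p + r) i) (sc_lt hi) (by
      rw [sc_par hev hi]
      exact hic)
    refine ⟨s, hs, sc (p + r) d, by rw [hrp]; exact sc_lt hd, ?_⟩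
    rw [key h hp 0 s i _ hi (sc_lt hd), sc_sc hd]
    exact hcn

end Pool.Agent.H160R2.MU
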