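import Pool.Agent.H160R2.MU.T_g2

/-! Backup for task g3 (helper165): the tubes are connected. -/

set_option autoImplicit false

namespace Pool.Agent.H160R2.MU
open Pool.Agent.H863R2.Cyl
open Pool.Agent.H988R2.Perc (Word PD)
open Pool.Agent.H160R2.ML
open H974 H906.Cyl
open H12S (Dir hbE segD rimE H4 Crs Nr sqE)

namespace Tg3b

/-- chains of coarse squares -/
def KA (A : Set (ℤ × ℤ)) : ℤ × ℤ → ℤ × ℤ → Prop :=
  Relation.EqvGen (fun a b => a ∈ A ∧ b ∈ A ∧ |a.1 - b.1| ≤ 1 ∧ |a.2 - b.2| ≤ 1)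

theorem KA_v {A : Set (ℤ × ℤ)} {x lo hi : ℤ} (h : ∀ y, lo ≤ y → y ≤ hi → ((x, y) : ℤ × ℤ) ∈ A)
    {y y' : ℤ} (h1 : lo ≤ y) (h2 : y ≤ hi) (h3 : lo ≤ y') (h4 : y' ≤ hi) : KA A (x, y) (x, y') := by
  have key : ∀ (m : ℕ) (y : ℤ), lo ≤ y → y + m ≤ hi → KA A (x, y) (x, y + m) := by
    intro m
    induction m with
    | zero => intro y _ _; simp only [Nat.cast_zero, add_zero]; exact Relation.EqvGen.refl _
    | succ m ih =>
      intro y h1 h2
      push_cast at h2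
      refine Relation.EqvGen.trans _ _ _ (ih y h1 (by omega)) ?_
      refine Relation.EqvGen.rel _ _ ⟨h _ (by omega) (by omega), h _ (by push_cast; omega) (by push_cast; omega), ?_, ?_⟩
      · simp
      · simp only; push_cast; rw [abs_le]; constructor <;> omega
  rcases le_total y y' with h5 | h5
  · have := key (y' - y).toNat y h1 (by omega)
    rwa [show y + ((y' - y).toNat : ℤ) = y' by omega] at this
  · have := key (y - y').toNat y' h3 (by omega)
    rw [show y' + ((y - y').toNat : ℤ) = y by omega] at this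
    exact Relation.EqvGen.symm _ _ this

theorem KA_h {A : Set (ℤ × ℤ)} {y lo hi : ℤ} (h : ∀ x, lo ≤ x → x ≤ hi → ((x, y) : ℤ × ℤ) ∈ A)
    {x x' : ℤ} (h1 : lo ≤ x) (h2 : x ≤ hi) (h3 : lo ≤ x') (h4 : x' ≤ hi) : KA A (x, y) (x', y) := by
  have key : ∀ (m : ℕ) (x : ℤ), lo ≤ x → x + m ≤ hi → KA A (x, y) (x + m, y) := by
    intro m
    induction m with
    | zero => intro x _ _; simp only [Nat.cast_zero, add_zero]; exact Relation.EqvGen.refl _
    | succ m ih =>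
      intro x h1 h2
      push_cast at h2
      refine Relation.EqvGen.trans _ _ _ (ih x h1 (by omega)) ?_
      refine Relation.EqvGen.rel _ _ ⟨h _ (by omega) (by omega), h _ (by push_cast; omega) (by push_cast; omega), ?_, ?_⟩
      · simp only; push_cast; rw [abs_le]; constructor <;> omega
      · simp
  rcases le_total x x' with h5 | h5
  · have := key (x' - x).toNat x h1 (by omega)
    rwa [show x + ((x' - x).toNat : ℤ) = x' by omega] at this
  · have := key (x - x').toNat x' h3 (by omega)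
    rw [show x' + ((x - x').toNat : ℤ) = x by omega] at this
    exact Relation.EqvGen.symm _ _ this

theorem arm_conn {N k a : ℕ} {c : Cel} (ha : a < k) (h1 : c.1 < 4) (h2 : -(N : ℤ) ≤ c.2)
    (h3 : c.2 < N) {w : ℤ × ℤ} (hw : w ∈ ArmS N k a c) :
    KA (ArmS N k a c) w (-rad N k a - 1, hgt N k) := by
  have hR : (N : ℤ) + 1 ≤ rad N k a := by unfold rad; omega
  have hH : (0 : ℤ) ≤ hgt N k := by unfold hgt; omega
  set R := rad N k a with hRd
  set hg := hgt N k with hgd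
  obtain ⟨x, y⟩ := w
  -- final vertical
  have V3 : ∀ y : ℤ, (if c.1 ≤ 2 then -R - 1 else c.2) ≤ y → y ≤ hg →
      ((-R - 1, y) : ℤ × ℤ) ∈ ArmS N k a c := by
    intro y e1 e2
    exact Or.inr (Or.inr (Or.inr (Or.inr (Or.inr (Or.inr ⟨rfl, e1, e2⟩)))))
  have H2 : c.1 ≤ 2 → ∀ x : ℤ, -R - 1 ≤ x → x ≤ (if c.1 ≤ 1 then R else c.2) →
      ((x, -R - 1) : ℤ × ℤ) ∈ ArmS N k a c := by
    intro hc x e1 e2
    exact Or.inr (Or.inr (Or.inr (Or.inr (Or.inr (Or.inl ⟨hc, rfl, e1, e2⟩)))))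
  have V1 : c.1 ≤ 1 → ∀ y : ℤ, -R - 1 ≤ y → y ≤ (if c.1 = 0 then R else c.2) →
      ((R, y) : ℤ × ℤ) ∈ ArmS N k a c := by
    intro hc y e1 e2
    exact Or.inr (Or.inr (Or.inr (Or.inr (Or.inl ⟨hc, rfl, e1, e2⟩))))
  have cV3 : ∀ y : ℤ, (if c.1 ≤ 2 then -R - 1 else c.2) ≤ y → y ≤ hg →
      KA (ArmS N k a c) (-R - 1, y) (-R - 1, hg) := by
    intro y e1 e2
    exact KA_v V3 e1 e2 (by split_ifs <;> omega) le_rfl
  have cH2 : c.1 ≤ 2 → ∀ x : ℤ, -R - 1 ≤ x → x ≤ (if c.1 ≤ 1 then R else c.2) →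
      KA (ArmS N k a c) (x, -R - 1) (-R - 1, hg) := by
    intro hc x e1 e2
    refine Relation.EqvGen.trans _ _ _ (KA_h (H2 hc) e1 e2 le_rfl (by split_ifs <;> omega)) ?_
    exact cV3 _ (by rw [if_pos hc]) (by omega)
  have cV1 : c.1 ≤ 1 → ∀ y : ℤ, -R - 1 ≤ y → y ≤ (if c.1 = 0 then R else c.2) →
      KA (ArmS N k a c) (R, y) (-R - 1, hg) := by
    intro hc y e1 e2
    refine Relation.EqvGen.trans _ _ _ (KA_v (V1 hc) e1 e2 le_rfl (by split_ifs <;> omega)) ?_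
    exact cH2 (by omega) _ (by omega) (by rw [if_pos hc])
  rcases hw with ⟨hc, h | h⟩ | h | h | h | h | h | h
  · -- c.1 = 0, vertical at the cell
    obtain ⟨e1, e2, e3⟩ := h
    simp only at e1 e2 e3
    subst e1
    have hv : ∀ y : ℤ, (N : ℤ) ≤ y → y ≤ R → ((c.2, y) : ℤ × ℤ) ∈ ArmS N k a c :=
      fun y e1 e2 => Or.inl ⟨hc, Or.inl ⟨rfl, e1, e2⟩⟩
    have hh : ∀ x : ℤ, c.2 ≤ x → x ≤ R → ((x, R) : ℤ × ℤ) ∈ ArmS N k a c :=
      fun x e1 e2 => Or.inl ⟨hc, Or.inr ⟨rfl, e1, e2⟩⟩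
    refine Relation.EqvGen.trans _ _ _ (KA_v hv e2 e3 (by omega : (N : ℤ) ≤ R) le_rfl) ?_
    refine Relation.EqvGen.trans _ _ _ (KA_h hh le_rfl (by omega) (by omega : c.2 ≤ R) le_rfl) ?_
    exact cV1 (by omega) _ (by omega) (by rw [if_pos hc])
  · obtain ⟨e1, e2, e3⟩ := h
    simp only at e1 e2 e3
    subst e1
    have hh : ∀ x : ℤ, c.2 ≤ x → x ≤ R → ((x, R) : ℤ × ℤ) ∈ ArmS N k a c :=
      fun x e1 e2 => Or.inl ⟨hc, Or.inr ⟨rfl, e1, e2⟩⟩
    refine Relation.EqvGen.trans _ _ _ (KA_h hh e2 e3 (by omega : c.2 ≤ R) le_rfl) ?_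
    exact cV1 (by omega) _ (by omega) (by rw [if_pos hc])
  · obtain ⟨hc, e1, e2, e3⟩ := h
    simp only at e1 e2 e3
    subst e1
    have hh : ∀ x : ℤ, (N : ℤ) ≤ x → x ≤ R → ((x, c.2) : ℤ × ℤ) ∈ ArmS N k a c :=
      fun x e1 e2 => Or.inr (Or.inl ⟨hc, rfl, e1, e2⟩)
    refine Relation.EqvGen.trans _ _ _ (KA_h hh e2 e3 (by omega : (N : ℤ) ≤ R) le_rfl) ?_
    exact cV1 (by omega) _ (by omega) (by rw [if_neg (by omega)])
  · obtain ⟨hc, e1, e2, e3⟩ := h
    simp only at e1 e2 e3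
    subst e1
    have hv : ∀ y : ℤ, -R - 1 ≤ y → y ≤ -(N : ℤ) - 1 → ((c.2, y) : ℤ × ℤ) ∈ ArmS N k a c :=
      fun y e1 e2 => Or.inr (Or.inr (Or.inl ⟨hc, rfl, e1, e2⟩))
    refine Relation.EqvGen.trans _ _ _ (KA_v hv e2 e3 le_rfl (by omega)) ?_
    exact cH2 (by omega) _ (by omega) (by rw [if_neg (by omega)])
  · obtain ⟨hc, e1, e2, e3⟩ := h
    simp only at e1 e2 e3
    subst e1
    have hh : ∀ x : ℤ, -R - 1 ≤ x → x ≤ -(N : ℤ) - 1 → ((x, c.2) : ℤ × ℤ) ∈ ArmS N k a c :=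
      fun x e1 e2 => Or.inr (Or.inr (Or.inr (Or.inl ⟨hc, rfl, e1, e2⟩)))
    refine Relation.EqvGen.trans _ _ _ (KA_h hh e2 e3 le_rfl (by omega)) ?_
    have : c.2 ≤ hg := by rw [hgd]; unfold hgt; omega
    exact cV3 _ (by rw [if_neg (by omega)]) this
  · obtain ⟨hc, e1, e2, e3⟩ := h
    simp only at e1 e2 e3
    rw [e1]
    exact cV1 hc _ e2 e3
  · obtain ⟨hc, e1, e2, e3⟩ := h
    simp only at e1 e2 e3
    rw [e1]
    exact cH2 hc _ e2 e3
  · obtain ⟨e1, e2, e3⟩ := h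
    simp only at e1 e2 e3
    rw [e1]
    exact cV3 _ e2 e3

theorem link_conn {N k i : ℕ} (hi : 2 * i ≤ k - 1) (hk : 2 ≤ k) {w : ℤ × ℤ} (hw : w ∈ LinkS N k i) :
    KA (LinkS N k i) w (-rad N k (k - 1 - i) - 1, hgt N k) := by
  have hH : (0 : ℤ) ≤ hgt N k := by unfold hgt; omega
  have hX : -rad N k (k - 1 - i) - 1 ≤ prd N k - rad N k 0 - 1 - 2 * (i + 1) := by
    unfold rad prd; push_cast; omega
  have hX2 : (prd N k : ℤ) - rad N k 0 - 1 - 2 * (i + 1) ≤ prd N k - rad N k i - 1 := by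
    unfold rad; push_cast; omega
  have hP : (0 : ℤ) ≤ (prd N k : ℤ) := by positivity
  set A0 := -rad N k (k - 1 - i) - 1
  set hg := hgt N k
  set P : ℤ := (prd N k : ℤ)
  set X3 := P - rad N k 0 - 1 - 2 * (i + 1)
  set X5 := P - rad N k i - 1
  obtain ⟨x, y⟩ := w
  have m1 : ∀ y : ℤ, hg ≤ y → y ≤ hg + 2 * (i + 1) → ((A0, y) : ℤ × ℤ) ∈ LinkS N k i :=
    fun y e1 e2 => Or.inl ⟨rfl, e1, e2⟩
  have m2 : ∀ x : ℤ, A0 ≤ x → x ≤ X3 → ((x, hg + 2 * (i + 1)) : ℤ × ℤ) ∈ LinkS N k i :=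
    fun x e1 e2 => Or.inr (Or.inl ⟨rfl, e1, e2⟩)
  have m3 : ∀ y : ℤ, hg + 2 * (i + 1) ≤ y → y ≤ P + hg + 2 * (i + 1) →
      ((X3, y) : ℤ × ℤ) ∈ LinkS N k i :=
    fun y e1 e2 => Or.inr (Or.inr (Or.inl ⟨rfl, e1, e2⟩))
  have m4 : ∀ x : ℤ, X3 ≤ x → x ≤ X5 → ((x, P + hg + 2 * (i + 1)) : ℤ × ℤ) ∈ LinkS N k i :=
    fun x e1 e2 => Or.inr (Or.inr (Or.inr (Or.inl ⟨rfl, e1, e2⟩)))
  have m5 : ∀ y : ℤ, P + hg ≤ y → y ≤ P + hg + 2 * (i + 1) → ((X5, y) : ℤ × ℤ) ∈ LinkS N k i :=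
    fun y e1 e2 => Or.inr (Or.inr (Or.inr (Or.inr ⟨rfl, e1, e2⟩)))
  have c1 : ∀ y : ℤ, hg ≤ y → y ≤ hg + 2 * (i + 1) → KA (LinkS N k i) (A0, y) (A0, hg) :=
    fun y e1 e2 => KA_v m1 e1 e2 le_rfl (by omega)
  have c2 : ∀ x : ℤ, A0 ≤ x → x ≤ X3 → KA (LinkS N k i) (x, hg + 2 * (i + 1)) (A0, hg) := by
    intro x e1 e2
    exact Relation.EqvGen.trans _ _ _ (KA_h m2 e1 e2 le_rfl hX) (c1 _ (by omega) le_rfl)
  have c3 : ∀ y : ℤ, hg + 2 * (i + 1) ≤ y → y ≤ P + hg + 2 * (i + 1) →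
      KA (LinkS N k i) (X3, y) (A0, hg) := by
    intro y e1 e2
    exact Relation.EqvGen.trans _ _ _ (KA_v m3 e1 e2 le_rfl (by omega)) (c2 _ hX le_rfl)
  have c4 : ∀ x : ℤ, X3 ≤ x → x ≤ X5 → KA (LinkS N k i) (x, P + hg + 2 * (i + 1)) (A0, hg) := by
    intro x e1 e2
    exact Relation.EqvGen.trans _ _ _ (KA_h m4 e1 e2 le_rfl hX2) (c3 _ (by omega) le_rfl)
  have c5 : ∀ y : ℤ, P + hg ≤ y → y ≤ P + hg + 2 * (i + 1) → KA (LinkS N k i) (X5, y) (A0, hg) := by
    intro y e1 e2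
    exact Relation.EqvGen.trans _ _ _ (KA_v m5 e1 e2 (by omega) le_rfl) (c4 _ hX2 le_rfl)
  rcases hw with ⟨e1, e2, e3⟩ | ⟨e1, e2, e3⟩ | ⟨e1, e2, e3⟩ | ⟨e1, e2, e3⟩ | ⟨e1, e2, e3⟩ <;>
    simp only at e1 e2 e3
  · rw [e1]; exact c1 _ e2 e3
  · rw [e1]; exact c2 _ e2 e3
  · rw [e1]; exact c3 _ e2 e3
  · rw [e1]; exact c4 _ e2 e3
  · rw [e1]; exact c5 _ e2 e3

theorem link_end {N k i : ℕ} :
    (((prd N k : ℤ) - rad N k i - 1, (prd N k : ℤ) + hgt N k) : ℤ × ℤ) ∈ LinkS N k i :=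
  Or.inr (Or.inr (Or.inr (Or.inr ⟨rfl, le_rfl, by simp only; omega⟩)))

/-- the shifted point -/
def U (N k : ℕ) (s : ℤ) (w : ℤ × ℤ) : ℤ × ℤ := (w.1 + s * prd N k, w.2 + s * prd N k)

theorem shf_U (N k : ℕ) (s : ℤ) (w : ℤ × ℤ) : shf N k s (U N k s w) = w := by
  simp [shf, U]

theorem U_shf (N k : ℕ) (s : ℤ) (w : ℤ × ℤ) : U N k s (shf N k s w) = w := by
  simp [shf, U]

theorem KA_map {N k : ℕ} {s : ℤ} {A T : Set (ℤ × ℤ)} (h : ∀ w ∈ A, U N k s w ∈ T) {w w' : ℤ × ℤ}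
    (hw : KA A w w') : KA T (U N k s w) (U N k s w') := by
  induction hw with
  | rel _ _ h1 =>
    refine Relation.EqvGen.rel _ _ ⟨h _ h1.1, h _ h1.2.1, ?_, ?_⟩
    · simp only [U]; rw [add_sub_add_right_eq_sub]; exact h1.2.2.1
    · simp only [U]; rw [add_sub_add_right_eq_sub]; exact h1.2.2.2
  | refl _ => exact Relation.EqvGen.refl _
  | symm _ _ _ ih => exact Relation.EqvGen.symm _ _ ih
  | trans _ _ _ _ _ ih1 ih2 => exact Relation.EqvGen.trans _ _ _ ih1 ih2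

/-- end of the arm `a` of box `s` -/
def en (N k a : ℕ) (s : ℤ) : ℤ × ℤ := U N k s (-rad N k a - 1, hgt N k)

theorem tube_conn {N k : ℕ} {c : Fin k → Cel} (hk : 2 ≤ k) (hc : Adm N k c) {L : ℕ × ℤ}
    {z z' : ℤ × ℤ} (h : z ∈ Tube N k c L) (h' : z' ∈ Tube N k c L) :
    KA (Tube N k c L) z z' := by
  have harm : ∀ (a : Fin k) (s : ℤ), labA k a s = L → ∀ w ∈ ArmS N k a (c a),
      U N k s w ∈ Tube N k c L := by
    intro a s hl w hw
    exact Or.inl ⟨a, s, hl, by rw [shf_U]; exact hw⟩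
  have hlnk : ∀ (i : ℕ) (s : ℤ), 2 * i ≤ k - 1 → labL k i s = L → ∀ w ∈ LinkS N k i,
      U N k s w ∈ Tube N k c L := by
    intro i s hi hl w hw
    exact Or.inr ⟨i, s, hi, hl, by rw [shf_U]; exact hw⟩
  have carm : ∀ (a : Fin k) (s : ℤ), labA k a s = L → ∀ z, shf N k s z ∈ ArmS N k a (c a) →
      KA (Tube N k c L) z (en N k a s) := by
    intro a s hl z hz
    have := KA_map (harm a s hl) (arm_conn a.2 (hc.1 a).1 (hc.1 a).2.1 (hc.1 a).2.2 hz)
    rwa [U_shf] at this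
  have clnk : ∀ (i : ℕ) (s : ℤ), 2 * i ≤ k - 1 → labL k i s = L → ∀ z, shf N k s z ∈ LinkS N k i →
      KA (Tube N k c L) z (en N k (k - 1 - i) s) := by
    intro i s hi hl z hz
    have := KA_map (hlnk i s hi hl) (link_conn hi hk hz)
    rwa [U_shf] at this
  have cee : ∀ (i : ℕ) (s : ℤ), 2 * i ≤ k - 1 → labL k i s = L →
      KA (Tube N k c L) (en N k i (s + 1)) (en N k (k - 1 - i) s) := by
    intro i s hi hl
    have := clnk i s hi hl (en N k i (s + 1)) ?_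
    · exact this
    · have e1 : shf N k s (en N k i (s + 1)) =
          ((prd N k : ℤ) - rad N k i - 1, (prd N k : ℤ) + hgt N k) := by
        simp only [shf, en, U, Prod.mk.injEq]; constructor <;> ring
      rw [e1]; exact link_end
  -- the hub
  obtain ⟨hub, hhub⟩ : ∃ hub, ∀ z ∈ Tube N k c L, KA (Tube N k c L) z hub := by
    obtain ⟨i, s⟩ := L
    by_cases hm : 2 * i = k - 1
    · -- middle label
      refine ⟨en N k i 0, ?_⟩
      have hlab : ∀ t : ℤ, s = 0 → labL k i t = (i, s) := by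
        intro t hs; unfold labL; rw [if_pos hm, hs]
      have hstep : s = 0 → ∀ t : ℤ, KA (Tube N k c (i, s)) (en N k i (t + 1)) (en N k i t) := by
        intro hs t
        have := cee i t (by omega) (hlab t hs)
        rwa [show k - 1 - i = i by omega] at this
      have hall : s = 0 → ∀ t : ℤ, KA (Tube N k c (i, s)) (en N k i t) (en N k i 0) := by
        intro hs t
        induction t using Int.induction_on with
        | zero => exact Relation.EqvGen.refl _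
        | succ m ih => exact Relation.EqvGen.trans _ _ _ (hstep hs _) ih
        | pred m ih =>
          refine Relation.EqvGen.trans _ _ _ (Relation.EqvGen.symm _ _ ?_) ih
          have := hstep hs (-(m : ℤ) - 1)
          rwa [show -(m : ℤ) - 1 + 1 = -m by ring] at this
      intro z hz
      rcases hz with ⟨a, t, hl, hz⟩ | ⟨j, t, hj, hl, hz⟩
      · have hl' := hl
        unfold labA at hl'
        have ha := a.2
        have : (a : ℕ) = i ∧ s = 0 := by
          split_ifs at hl' <;> simp only [Prod.mk.injEq] at hl' <;> omega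
        have h3 := carm a t hl z hz
        rw [this.1] at h3
        exact Relation.EqvGen.trans _ _ _ h3 (hall this.2 t)
      · have hl' := hl
        unfold labL at hl'
        have : j = i ∧ s = 0 := by
          split_ifs at hl' <;> simp only [Prod.mk.injEq] at hl' <;> omega
        have h3 := clnk j t hj hl z hz
        rw [this.1, show k - 1 - i = i by omega] at h3
        exact Relation.EqvGen.trans _ _ _ h3 (hall this.2 t)
    · refine ⟨en N k (k - 1 - i) s, ?_⟩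
      intro z hz
      rcases hz with ⟨a, t, hl, hz⟩ | ⟨j, t, hj, hl, hz⟩
      · have hl' := hl
        unfold labA at hl'
        have ha := a.2
        have h3 := carm a t hl z hz
        split_ifs at hl' with q1 q2
        · simp only [Prod.mk.injEq] at hl'
          rw [show k - 1 - i = a by omega]
          rw [hl'.2] at h3
          exact h3
        · simp only [Prod.mk.injEq] at hl'
          have e1 : t = s + 1 := by omega
          have e2 : (a : ℕ) = i := hl'.1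
          rw [e1, e2] at h3
          refine Relation.EqvGen.trans _ _ _ h3 (cee i s (by omega) ?_)
          unfold labL; rw [if_neg (by omega)]
        · simp only [Prod.mk.injEq] at hl'
          omega
      · have hl' := hl
        unfold labL at hl'
        have h3 := clnk j t hj hl z hz
        split_ifs at hl' with q1
        · simp only [Prod.mk.injEq] at hl'; omega
        · simp only [Prod.mk.injEq] at hl'
          rw [hl'.1, hl'.2] at h3
          exact h3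
  exact Relation.EqvGen.trans _ _ _ (hhub z h) (Relation.EqvGen.symm _ _ (hhub z' h'))

/-! ### fine connections -/

theorem R_v {H : Set Edg} {x lo hi : ℤ} (h : ∀ y, lo ≤ y → y < hi → ((x, y, false) : Edg) ∈ H)
    {y y' : ℤ} (h1 : lo ≤ y) (h2 : y ≤ hi) (h3 : lo ≤ y') (h4 : y' ≤ hi) : Reach H (x, y) (x, y') := by
  have key : ∀ (m : ℕ) (y : ℤ), lo ≤ y → y + m ≤ hi → Reach H (x, y) (x, y + m) := by
    intro m
    induction m with
    | zero => intro y _ _; simp only [Nat.cast_zero, add_zero]; exact Reach.refl _ _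
    | succ m ih =>
      intro y h1 h2
      push_cast at h2
      refine Reach.trans (ih y h1 (by omega)) ?_
      refine Relation.ReflTransGen.single ⟨(x, y + m, false), h _ (by omega) (by omega), Or.inl ⟨rfl, ?_⟩⟩
      simp only [tgt_false]; push_cast; rw [add_assoc]
  rcases le_total y y' with h5 | h5
  · have := key (y' - y).toNat y h1 (by omega)
    rwa [show y + ((y' - y).toNat : ℤ) = y' by omega] at this
  · have := key (y - y').toNat y' h3 (by omega)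
    rw [show y' + ((y - y').toNat : ℤ) = y by omega] at this
    exact this.symm

theorem R_h {H : Set Edg} {y lo hi : ℤ} (h : ∀ x, lo ≤ x → x < hi → ((x, y, true) : Edg) ∈ H)
    {x x' : ℤ} (h1 : lo ≤ x) (h2 : x ≤ hi) (h3 : lo ≤ x') (h4 : x' ≤ hi) : Reach H (x, y) (x', y) := by
  have key : ∀ (m : ℕ) (x : ℤ), lo ≤ x → x + m ≤ hi → Reach H (x, y) (x + m, y) := by
    intro m
    induction m with
    | zero => intro x _ _; simp only [Nat.cast_zero, add_zero]; exact Reach.refl _ _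
    | succ m ih =>
      intro x h1 h2
      push_cast at h2
      refine Reach.trans (ih x h1 (by omega)) ?_
      refine Relation.ReflTransGen.single ⟨(x + m, y, true), h _ (by omega) (by omega), Or.inl ⟨rfl, ?_⟩⟩
      simp only [tgt_true]; push_cast; rw [add_assoc]
  rcases le_total x x' with h5 | h5
  · have := key (x' - x).toNat x h1 (by omega)
    rwa [show x + ((x' - x).toNat : ℤ) = x' by omega] at this
  · have := key (x - x').toNat x' h3 (by omega)
    rw [show x' + ((x - x').toNat : ℤ) = x by omega] at this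
    exact this.symm

/-- connection through the line `y = Y` -/
theorem Q_hor {H : Set Edg} {a b c d Y : ℤ} (hY : c ≤ Y ∧ Y ≤ d)
    (hv : ∀ x y, a ≤ x → x ≤ b → c ≤ y → y < d → ((x, y, false) : Edg) ∈ H)
    (hh : ∀ x, a ≤ x → x < b → ((x, Y, true) : Edg) ∈ H)
    {u v : Vtx} (hu : a ≤ u.1 ∧ u.1 ≤ b ∧ c ≤ u.2 ∧ u.2 ≤ d)
    (hv' : a ≤ v.1 ∧ v.1 ≤ b ∧ c ≤ v.2 ∧ v.2 ≤ d) : Reach H u v := by
  obtain ⟨x, y⟩ := u
  obtain ⟨x', y'⟩ := v
  simp only at hu hv'
  refine Reach.trans (R_v (fun t h1 h2 => hv x t hu.1 hu.2.1 h1 h2) hu.2.2.1 hu.2.2.2 hY.1 hY.2) ?_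
  refine Reach.trans (R_h hh hu.1 hu.2.1 hv'.1 hv'.2.1) ?_
  exact R_v (fun t h1 h2 => hv x' t hv'.1 hv'.2.1 h1 h2) hY.1 hY.2 hv'.2.2.1 hv'.2.2.2

/-- connection through the line `x = X` -/
theorem Q_ver {H : Set Edg} {a b c d X : ℤ} (hX : a ≤ X ∧ X ≤ b)
    (hh : ∀ x y, a ≤ x → x < b → c ≤ y → y ≤ d → ((x, y, true) : Edg) ∈ H)
    (hv : ∀ y, c ≤ y → y < d → ((X, y, false) : Edg) ∈ H)
    {u v : Vtx} (hu : a ≤ u.1 ∧ u.1 ≤ b ∧ c ≤ u.2 ∧ u.2 ≤ d)
    (hv' : a ≤ v.1 ∧ v.1 ≤ b ∧ c ≤ v.2 ∧ v.2 ≤ d) : Reach H u v := by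
  obtain ⟨x, y⟩ := u
  obtain ⟨x', y'⟩ := v
  simp only at hu hv'
  refine Reach.trans (R_h (fun t h1 h2 => hh t y h1 h2 hu.2.2.1 hu.2.2.2) hu.1 hu.2.1 hX.1 hX.2) ?_
  refine Reach.trans (R_v hv hu.2.2.1 hu.2.2.2 hv'.2.2.1 hv'.2.2.2) ?_
  exact R_h (fun t h1 h2 => hh t y' h1 h2 hv'.2.2.1 hv'.2.2.2) hX.1 hX.2 hv'.1 hv'.2.1

theorem sq_near {r : ℕ} (hr : 1 ≤ r) {z z' : ℤ × ℤ} {v : Vtx} (h : inSq r z v) (h' : inSq r z' v) :
    |z.1 - z'.1| ≤ 1 ∧ |z.2 - z'.2| ≤ 1 := by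
  obtain ⟨a1, a2, a3, a4⟩ := h
  obtain ⟨b1, b2, b3, b4⟩ := h'
  have hr' : (0 : ℤ) < r := by omega
  have one : ∀ p q x : ℤ, r * p ≤ x → x ≤ r * p + r → r * q ≤ x → x ≤ r * q + r → |p - q| ≤ 1 := by
    intro p q x h1 h2 h3 h4
    rw [abs_le]
    constructor
    · by_contra hc
      push Not at hc
      have : p + 2 ≤ q := by omega
      nlinarith
    · by_contra hc
      push Not at hc
      have : q + 2 ≤ p := by omega
      nlinarith
  exact ⟨one _ _ _ a1 a2 b1 b2, one _ _ _ a3 a4 b3 b4⟩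

theorem sqE_inSq {r : ℕ} {z : ℤ × ℤ} {e : Edg} (h : e ∈ sqE r z) :
    inSq r z (src e) ∧ inSq r z (tgt e) := by
  obtain ⟨x, y, _ | _⟩ := e
  · simp only [sqE, mem_RE_false] at h
    simp only [inSq, src_mk, tgt_false]
    omega
  · simp only [sqE, mem_RE_true] at h
    simp only [inSq, src_mk, tgt_true]
    omega

/-- an edge of a tube square is either not an edge of the boxes, or the tube square is a cell and
the edge lies on the box -/
theorem edge_alt (g2 : S_g2) {N k r : ℕ} {c : Fin k → Cel} (hN : 1 ≤ N) (hk : 2 ≤ k) (hr : 1 ≤ r)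
    (hc : Adm N k c) {L : ℕ × ℤ} {z : ℤ × ℤ} (hz : z ∈ Tube N k c L) {e : Edg} (he : e ∈ sqE r z)
    (hB : e ∈ EP r (Bxs N k)) : ∃ (a : Fin k) (s : ℤ) (b : ℤ × ℤ), shf N k s z = csq N (c a) ∧
      (-(N : ℤ) ≤ (shf N k s b).1 ∧ (shf N k s b).1 < N ∧ -(N : ℤ) ≤ (shf N k s b).2 ∧
        (shf N k s b).2 < N) ∧ e ∈ sqE r b := by
  obtain ⟨b, ⟨s, hb⟩, heb⟩ := hB
  obtain ⟨h1, h2⟩ := sq_near hr (sqE_inSq he).1 (sqE_inSq heb).1
  obtain ⟨a, -, ha⟩ := g2 N k c hN hk hc L s z b hz hb h1 h2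
  exact ⟨a, s, b, ha, hb, heb⟩

theorem sq_conn (g2 : S_g2) {N k r : ℕ} {c : Fin k → Cel} (hN : 1 ≤ N) (hk : 2 ≤ k) (hr : 1 ≤ r)
    (hc : Adm N k c) {L : ℕ × ℤ} {z : ℤ × ℤ} (hz : z ∈ Tube N k c L) {u v : Vtx}
    (hu : inSq r z u) (hv : inSq r z v) :
    Reach (EP r (Tube N k c L) \ EP r (Bxs N k)) u v := by
  have hr' : (0 : ℤ) < r := by omega
  have hT : ∀ e ∈ sqE r z, e ∉ EP r (Bxs N k) → e ∈ EP r (Tube N k c L) \ EP r (Bxs N k) :=
    fun e he hB => ⟨⟨z, hz, he⟩, hB⟩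
  have hprd : 4 * (N : ℤ) + 32 ≤ prd N k := by unfold prd; push_cast; omega
  by_cases hcell : ∃ (a : Fin k) (s : ℤ), shf N k s z = csq N (c a)
  · obtain ⟨a, s, ha⟩ := hcell
    have hcs : ∀ a : Fin k, (-(N : ℤ) - 1 ≤ (csq N (c a)).1 ∧ (csq N (c a)).1 ≤ N) := by
      intro a
      have := (hc.1 a).2
      unfold csq
      split_ifs <;> simp only <;> omega
    -- an edge of the boxes is an edge of a square of the box s
    have key : ∀ e ∈ sqE r z, e ∈ EP r (Bxs N k) → ∃ b : ℤ × ℤ,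
        (-(N : ℤ) ≤ b.1 - s * prd N k ∧ b.1 - s * prd N k < N ∧ -(N : ℤ) ≤ b.2 - s * prd N k ∧
          b.2 - s * prd N k < N) ∧ e ∈ sqE r b := by
      intro e he hB
      obtain ⟨a', s', b, h1, h2, h3⟩ := edge_alt g2 hN hk hr hc hz he hB
      have e1 := hcs a
      have e2 := hcs a'
      rw [← ha] at e1
      rw [← h1] at e2
      simp only [shf] at e1 e2 h2
      have hs : s' = s := by
        by_contra hne
        rcases lt_or_gt_of_ne hne with h7 | h7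
        · have h8 : (s - s') * (prd N k : ℤ) ≥ prd N k := by nlinarith
          rw [sub_mul] at h8
          omega
        · have h8 : (s' - s) * (prd N k : ℤ) ≥ prd N k := by nlinarith
          rw [sub_mul] at h8
          omega
      subst hs
      exact ⟨b, h2, h3⟩
    have hz1 : z.1 = (csq N (c a)).1 + s * prd N k := by rw [← ha]; simp [shf]
    have hz2 : z.2 = (csq N (c a)).2 + s * prd N k := by rw [← ha]; simp [shf]
    have hlt := (hc.1 a).1
    have hcase : (c a).1 = 0 ∨ (c a).1 = 1 ∨ (c a).1 = 2 ∨ (c a).1 = 3 := by omega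
    rcases hcase with h0 | h0 | h0 | h0
    · have e2 : z.2 = N + s * prd N k := by rw [hz2]; simp [csq, h0]
      refine Q_hor (a := r * z.1) (b := r * z.1 + r) (c := r * z.2) (d := r * z.2 + r)
        (Y := r * z.2 + r) ⟨by omega, le_rfl⟩ ?_ ?_ hu hv
      · intro x y q1 q2 q3 q4
        have hm : ((x, y, false) : Edg) ∈ sqE r z := by
          simp only [sqE, mem_RE_false]; exact ⟨q1, q2, q3, q4⟩
        refine hT _ hm (fun hB => ?_)
        obtain ⟨b, hb, hb'⟩ := key _ hm hB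
        simp only [sqE, mem_RE_false] at hb'
        have : b.2 + 1 ≤ z.2 := by omega
        nlinarith
      · intro x q1 q2
        have hm : ((x, r * z.2 + r, true) : Edg) ∈ sqE r z := by
          simp only [sqE, mem_RE_true]; exact ⟨q1, q2, by omega, le_rfl⟩
        refine hT _ hm (fun hB => ?_)
        obtain ⟨b, hb, hb'⟩ := key _ hm hB
        simp only [sqE, mem_RE_true] at hb'
        have : b.2 + 1 ≤ z.2 := by omega
        nlinarith
    · have e1 : z.1 = N + s * prd N k := by rw [hz1]; simp [csq, h0]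
      refine Q_ver (a := r * z.1) (b := r * z.1 + r) (c := r * z.2) (d := r * z.2 + r)
        (X := r * z.1 + r) ⟨by omega, le_rfl⟩ ?_ ?_ hu hv
      · intro x y q1 q2 q3 q4
        have hm : ((x, y, true) : Edg) ∈ sqE r z := by
          simp only [sqE, mem_RE_true]; exact ⟨q1, q2, q3, q4⟩
        refine hT _ hm (fun hB => ?_)
        obtain ⟨b, hb, hb'⟩ := key _ hm hB
        simp only [sqE, mem_RE_true] at hb'
        have : b.1 + 1 ≤ z.1 := by omega
        nlinarith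
      · intro y q1 q2
        have hm : ((r * z.1 + r, y, false) : Edg) ∈ sqE r z := by
          simp only [sqE, mem_RE_false]; exact ⟨by omega, le_rfl, q1, q2⟩
        refine hT _ hm (fun hB => ?_)
        obtain ⟨b, hb, hb'⟩ := key _ hm hB
        simp only [sqE, mem_RE_false] at hb'
        have : b.1 + 1 ≤ z.1 := by omega
        nlinarith
    · have e2 : z.2 = -N - 1 + s * prd N k := by rw [hz2]; simp [csq, h0]
      refine Q_hor (a := r * z.1) (b := r * z.1 + r) (c := r * z.2) (d := r * z.2 + r)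
        (Y := r * z.2) ⟨le_rfl, by omega⟩ ?_ ?_ hu hv
      · intro x y q1 q2 q3 q4
        have hm : ((x, y, false) : Edg) ∈ sqE r z := by
          simp only [sqE, mem_RE_false]; exact ⟨q1, q2, q3, q4⟩
        refine hT _ hm (fun hB => ?_)
        obtain ⟨b, hb, hb'⟩ := key _ hm hB
        simp only [sqE, mem_RE_false] at hb'
        have : z.2 + 1 ≤ b.2 := by omega
        nlinarith
      · intro x q1 q2
        have hm : ((x, r * z.2, true) : Edg) ∈ sqE r z := by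
          simp only [sqE, mem_RE_true]; exact ⟨q1, q2, le_rfl, by omega⟩
        refine hT _ hm (fun hB => ?_)
        obtain ⟨b, hb, hb'⟩ := key _ hm hB
        simp only [sqE, mem_RE_true] at hb'
        have : z.2 + 1 ≤ b.2 := by omega
        nlinarith
    · have e1 : z.1 = -N - 1 + s * prd N k := by rw [hz1]; simp [csq, h0]
      refine Q_ver (a := r * z.1) (b := r * z.1 + r) (c := r * z.2) (d := r * z.2 + r)
        (X := r * z.1) ⟨le_rfl, by omega⟩ ?_ ?_ hu hv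
      · intro x y q1 q2 q3 q4
        have hm : ((x, y, true) : Edg) ∈ sqE r z := by
          simp only [sqE, mem_RE_true]; exact ⟨q1, q2, q3, q4⟩
        refine hT _ hm (fun hB => ?_)
        obtain ⟨b, hb, hb'⟩ := key _ hm hB
        simp only [sqE, mem_RE_true] at hb'
        have : z.1 + 1 ≤ b.1 := by omega
        nlinarith
      · intro y q1 q2
        have hm : ((r * z.1, y, false) : Edg) ∈ sqE r z := by
          simp only [sqE, mem_RE_false]; exact ⟨le_rfl, by omega, q1, q2⟩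
        refine hT _ hm (fun hB => ?_)
        obtain ⟨b, hb, hb'⟩ := key _ hm hB
        simp only [sqE, mem_RE_false] at hb'
        have : z.1 + 1 ≤ b.1 := by omega
        nlinarith
  · have hB : ∀ e ∈ sqE r z, e ∉ EP r (Bxs N k) := by
      intro e he hB
      obtain ⟨a', s', b, h1, -⟩ := edge_alt g2 hN hk hr hc hz he hB
      exact hcell ⟨a', s', h1⟩
    refine Q_hor (a := r * z.1) (b := r * z.1 + r) (c := r * z.2) (d := r * z.2 + r)
      (Y := r * z.2 + r) ⟨by omega, le_rfl⟩ ?_ ?_ hu hv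
    · intro x y q1 q2 q3 q4
      have hm : ((x, y, false) : Edg) ∈ sqE r z := by
        simp only [sqE, mem_RE_false]; exact ⟨q1, q2, q3, q4⟩
      exact hT _ hm (hB _ hm)
    · intro x q1 q2
      have hm : ((x, r * z.2 + r, true) : Edg) ∈ sqE r z := by
        simp only [sqE, mem_RE_true]; exact ⟨q1, q2, by omega, le_rfl⟩
      exact hT _ hm (hB _ hm)

theorem chain_conn (g2 : S_g2) {N k r : ℕ} {c : Fin k → Cel} (hN : 1 ≤ N) (hk : 2 ≤ k) (hr : 1 ≤ r)
    (hc : Adm N k c) {L : ℕ × ℤ} {z z' : ℤ × ℤ} (h : KA (Tube N k c L) z z') :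
    (z ∈ Tube N k c L ↔ z' ∈ Tube N k c L) ∧ (z ∈ Tube N k c L → ∀ u v : Vtx, inSq r z u →
      inSq r z' v → Reach (EP r (Tube N k c L) \ EP r (Bxs N k)) u v) := by
  have hr' : (0 : ℤ) < r := by omega
  have hcor : ∀ b : ℤ × ℤ, inSq r b (r * b.1, r * b.2) := by
    intro b; exact ⟨le_rfl, by simp only; omega, le_rfl, by simp only; omega⟩
  induction h with
  | refl a => exact ⟨Iff.rfl, fun ha u v hu hv => sq_conn g2 hN hk hr hc ha hu hv⟩
  | symm a b _ ih =>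
    exact ⟨ih.1.symm, fun hb u v hu hv => (ih.2 (ih.1.2 hb) v u hv hu).symm⟩
  | trans a b d _ _ ih1 ih2 =>
    refine ⟨ih1.1.trans ih2.1, fun ha u v hu hv => ?_⟩
    exact (ih1.2 ha u _ hu (hcor b)).trans (ih2.2 (ih1.1.1 ha) _ v (hcor b) hv)
  | rel a b h =>
    obtain ⟨ha, hb, h1, h2⟩ := h
    refine ⟨⟨fun _ => hb, fun _ => ha⟩, fun _ u v hu hv => ?_⟩
    rw [abs_le] at h1 h2
    have one : ∀ p q : ℤ, -1 ≤ p - q → p - q ≤ 1 → ∃ x : ℤ, (r * p ≤ x ∧ x ≤ r * p + r) ∧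
        (r * q ≤ x ∧ x ≤ r * q + r) := by
      intro p q h1 h2
      rcases le_total p q with h | h
      · exact ⟨r * q, ⟨by nlinarith, by nlinarith⟩, by omega, by omega⟩
      · exact ⟨r * p, ⟨by omega, by omega⟩, by nlinarith, by nlinarith⟩
    obtain ⟨x, hx1, hx2⟩ := one a.1 b.1 h1.1 h1.2
    obtain ⟨y, hy1, hy2⟩ := one a.2 b.2 h2.1 h2.2
    have wa : inSq r a (x, y) := ⟨hx1.1, hx1.2, hy1.1, hy1.2⟩
    have wb : inSq r b (x, y) := ⟨hx2.1, hx2.2, hy2.1, hy2.2⟩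
    exact (sq_conn g2 hN hk hr hc ha hu wa).trans (sq_conn g2 hN hk hr hc hb wb hv)

theorem cell_mem {N k : ℕ} {c : Fin k → Cel} (hc : Adm N k c) (a : Fin k) :
    csq N (c a) ∈ ArmS N k a (c a) := by
  have hR : (N : ℤ) + 1 ≤ rad N k a := by unfold rad; have := a.2; omega
  have h1 := (hc.1 a).1
  have h2 := (hc.1 a).2
  have hcase : (c a).1 = 0 ∨ (c a).1 = 1 ∨ (c a).1 = 2 ∨ (c a).1 = 3 := by omega
  rcases hcase with h0 | h0 | h0 | h0
  · have e : csq N (c a) = ((c a).2, (N : ℤ)) := by simp [csq, h0]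
    rw [e]
    exact Or.inl ⟨h0, Or.inl ⟨rfl, le_rfl, by simp only; omega⟩⟩
  · have e : csq N (c a) = ((N : ℤ), (c a).2) := by simp [csq, h0]
    rw [e]
    exact Or.inr (Or.inl ⟨h0, rfl, le_rfl, by simp only; omega⟩)
  · have e : csq N (c a) = ((c a).2, -(N : ℤ) - 1) := by simp [csq, h0]
    rw [e]
    exact Or.inr (Or.inr (Or.inl ⟨h0, rfl, by simp only; omega, le_rfl⟩))
  · have e : csq N (c a) = (-(N : ℤ) - 1, (c a).2) := by simp [csq, h0]
    rw [e]
    exact Or.inr (Or.inr (Or.inr (Or.inl ⟨h0, rfl, by simp only; omega, le_rfl⟩)))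

end Tg3b

open Tg3b in
theorem t_g3b : S_g2 → S_g3 := by
  intro g2 N k c hN hk hc
  refine ⟨?_, ?_⟩
  · intro r L z z' u v hr hz hz' hu hv
    exact (chain_conn g2 hN hk hr hc (tube_conn hk hc hz hz')).2 hz u v hu hv
  · intro a s z h
    exact Or.inl ⟨a, s, rfl, by rw [h]; exact cell_mem hc a⟩

end Pool.Agent.H160R2.MU

namespace Pool.Agent.H160R2.MU

/-- the tubes are connected -/
theorem t_g3' : S_g3 := t_g3b t_g2

end Pool.Agent.H160R2.MU
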